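import Pool.Agent.Lib.TWM.S3a
import Pool.Agent.Lib.TWM.S4

/-!
# TANK W, SEC1: a radius with a small first slope

If the Gauss value of `A - g^p` is `≥ K₀` at the radius `r₀` for some `g`, and for all `g` the part
of index `≤ S₁` of `A - g^p` is not `≥ L₁` at the radius `r₁`, `L₁ < K₀ + (S₁ + 1) (r₁ - r₀)`, then
there is a radius in `[r₀, r₁)` at which the first slope index of `A` modulo `p`-th powers is
`≤ S₁` (`S₁ + 1` divisible by `p`).
-/

set_option autoImplicit false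

open Polynomial

namespace Pool.Agent.TWJ

open Pool.Agent.H15JM (RVal)
open Pool.Agent.TWM (PI GB SL Gt)

universe u

variable {k Ω : Type u} [Field k] [Field Ω] [Algebra k Ω] {v : RVal Ω}

/-- The Gauss values of `A` modulo `p`-th powers. -/
def GS (p : ℕ) (v : RVal Ω) (E : IntermediateField k Ω) (A : Polynomial Ω) (r : ℝ) : Set ℝ :=
  {κ | ∃ g ∈ PI E, GB v r κ (A - g ^ p)}

theorem GS.mono {p : ℕ} {E : IntermediateField k Ω} {A : Polynomial Ω} {r r' : ℝ} (h : r ≤ r') :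
    GS p v E A r ⊆ GS p v E A r' := by
  rintro κ ⟨g, hg, hκ⟩
  exact ⟨g, hg, hκ.radius_le h⟩

/-- The polynomial with the coefficients of `g` below `i₀` and the ones of `g'` above. -/
theorem exists_cut {p : ℕ} [hp : Fact p.Prime] [CharP Ω p] {E : IntermediateField k Ω}
    {g g' : Polynomial Ω} (hg : g ∈ PI E) (hg' : g' ∈ PI E) (i₀ : ℕ) :
    ∃ f ∈ PI E, (∀ n, n < p * i₀ → (f ^ p).coeff n = (g ^ p).coeff n) ∧
      ∀ n, p * i₀ ≤ n → (f ^ p).coeff n = (g' ^ p).coeff n := by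
  classical
  have hp0 := hp.out.pos
  set f : Polynomial Ω := ∑ i ∈ Finset.range (g.natDegree + g'.natDegree + 1),
    monomial i (if i < i₀ then g.coeff i else g'.coeff i) with hf
  have hco : ∀ i, f.coeff i = if i < i₀ then g.coeff i else g'.coeff i := by
    intro i
    rw [hf, finsetSum_coeff]
    simp only [coeff_monomial]
    rw [Finset.sum_ite_eq']
    split_ifs with h1 h2 h2
    · rfl
    · rfl
    · rw [Finset.mem_range, not_lt] at h1
      rw [coeff_eq_zero_of_natDegree_lt (by omega)]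
    · rw [Finset.mem_range, not_lt] at h1
      rw [coeff_eq_zero_of_natDegree_lt (by omega)]
  refine ⟨f, fun i => ?_, fun n hn => ?_, fun n hn => ?_⟩
  · rw [hco]
    split_ifs
    exacts [hg i, hg' i]
  · rw [Pool.Agent.TWM.coeff_pow_ite, Pool.Agent.TWM.coeff_pow_ite]
    split_ifs with h
    · rw [hco, if_pos]
      exact (Nat.div_lt_iff_lt_mul hp0).2 (by rwa [mul_comm] at hn)
    · rfl
  · rw [Pool.Agent.TWM.coeff_pow_ite, Pool.Agent.TWM.coeff_pow_ite]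
    split_ifs with h
    · rw [hco, if_neg]
      rw [not_lt]
      exact (Nat.le_div_iff_mul_le hp0).2 (by rwa [mul_comm] at hn)
    · rfl

theorem exists_SL {p : ℕ} [hp : Fact p.Prime] [CharP Ω p] {E : IntermediateField k Ω}
    {A : Polynomial Ω} (hA : A ∈ PI E) {S₁ i₀ : ℕ} (hS : S₁ + 1 = p * i₀) {r₀ r₁ K₀ L₁ : ℝ}
    (hr : r₀ < r₁) (h0 : ∃ g ∈ PI E, GB v r₀ K₀ (A - g ^ p))
    (hL : L₁ < K₀ + (S₁ + 1) * (r₁ - r₀))
    (hi : ∀ g ∈ PI E, ∃ i ≤ S₁, ¬ v.Ge (L₁ - i * r₁) ((A - g ^ p).coeff i)) {X : Ω}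
    (hX : Gt v r₁ X) : ∃ r κ : ℝ, r₀ ≤ r ∧ r < r₁ ∧ K₀ ≤ κ ∧ SL p v E X r κ S₁ A := by
  classical
  by_contra hcon
  push Not at hcon
  -- the upper bound
  have hub : ∀ r, r ≤ r₁ → ∀ κ ∈ GS p v E A r, κ ≤ L₁ := by
    intro r hr' κ hκ
    obtain ⟨g, hg, h1⟩ := GS.mono hr' hκ
    obtain ⟨i, -, h2⟩ := hi g hg
    by_contra h3
    push Not at h3
    exact h2 ((h1 i).mono (by linarith))
  have hne : ∀ r, r₀ ≤ r → K₀ ∈ GS p v E A r := fun r h1 => GS.mono h1 h0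
  set K : ℝ → ℝ := fun r => sSup (GS p v E A r) with hK
  have hbdd : ∀ r, r ≤ r₁ → BddAbove (GS p v E A r) := fun r h1 => ⟨L₁, hub r h1⟩
  have hKle : ∀ r, r₀ ≤ r → r ≤ r₁ → K r ≤ L₁ := fun r h1 h2 =>
    csSup_le ⟨K₀, hne r h1⟩ (hub r h2)
  have hKmono : ∀ r r', r₀ ≤ r → r ≤ r' → r' ≤ r₁ → K r ≤ K r' := fun r r' h1 h2 h3 =>
    csSup_le_csSup (hbdd r' h3) ⟨K₀, hne r h1⟩ (GS.mono h2)
  have hK0 : ∀ r, r₀ ≤ r → r ≤ r₁ → K₀ ≤ K r := fun r h1 h2 => le_csSup (hbdd r h2) (hne r h1)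
  set T : Set ℝ := {r | r₀ ≤ r ∧ r ≤ r₁ ∧ K₀ + (S₁ + 1) * (r - r₀) ≤ K r} with hT
  have hT0 : r₀ ∈ T := ⟨le_rfl, hr.le, by
    have := hK0 r₀ le_rfl hr.le
    linarith⟩
  have hTb : BddAbove T := ⟨r₁, fun r hr' => hr'.2.1⟩
  set s := sSup T with hs
  have hs0 : r₀ ≤ s := le_csSup hTb hT0
  have hs1 : s ≤ r₁ := csSup_le ⟨r₀, hT0⟩ fun r hr' => hr'.2.1
  have hSpos : (0 : ℝ) < S₁ + 1 := by positivity
  have hsT : K₀ + (S₁ + 1) * (s - r₀) ≤ K s := by
    by_contra h1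
    push Not at h1
    set d := (K₀ + (S₁ + 1) * (s - r₀) - K s) / (S₁ + 1) with hd
    have hdm : (S₁ + 1) * d = K₀ + (S₁ + 1) * (s - r₀) - K s := by
      rw [hd]
      field_simp
    have hd0 : 0 < d := div_pos (by linarith) hSpos
    obtain ⟨r, hrT, h2⟩ := exists_lt_of_lt_csSup ⟨r₀, hT0⟩ (show s - d < sSup T by rw [← hs]; linarith)
    have h3 : r ≤ s := le_csSup hTb hrT
    have h4 := hKmono r s hrT.1 h3 hs1
    have h5 := hrT.2.2
    have h6 : (S₁ + 1) * (s - d) < (S₁ + 1) * r := mul_lt_mul_of_pos_left h2 hSpos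
    nlinarith
  have hs2 : s < r₁ := by
    rcases hs1.lt_or_eq with h1 | h1
    · exact h1
    · exfalso
      have h2 := hKle s hs0 hs1
      rw [h1] at hsT h2
      linarith
  -- `SL` fails at `s`
  have hnot := hcon s (K s) hs0 hs2 (hK0 s hs0 hs1)
  apply hnot
  refine ⟨hA, fun h1 => hs2.trans (hX h1), fun ε hε => ?_, ?_⟩
  · obtain ⟨κ, hκ, h1⟩ := exists_lt_of_lt_csSup ⟨K₀, hne s hs0⟩
      (show K s - ε < sSup (GS p v E A s) by change K s - ε < K s; linarith)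
    obtain ⟨g, hg, h2⟩ := hκ
    exact ⟨g, hg, h2.mono h1.le⟩
  · intro e he g hg
    by_contra h1
    push Not at h1
    -- a larger radius
    set δ := min (e / (S₁ + 1)) (r₁ - s) with hδ
    have hδ0 : 0 < δ := lt_min (div_pos he hSpos) (by linarith)
    have hδ1 : (S₁ + 1) * δ ≤ e := by
      have h2 : δ ≤ e / (S₁ + 1) := min_le_left _ _
      calc (S₁ + 1) * δ ≤ (S₁ + 1) * (e / (S₁ + 1)) := mul_le_mul_of_nonneg_left h2 hSpos.le
        _ = e := by field_simp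
    have hδ2 : s + δ ≤ r₁ := by
      have : δ ≤ r₁ - s := min_le_right _ _
      linarith
    have hgrow : K s + (S₁ + 1) * δ ≤ K (s + δ) := by
      refine le_of_forall_pos_sub_le fun ε hε => ?_
      obtain ⟨κ, ⟨g', hg', h2⟩, h3⟩ := exists_lt_of_lt_csSup ⟨K₀, hne s hs0⟩
        (show K s - ε < sSup (GS p v E A s) by change K s - ε < K s; linarith)
      obtain ⟨f, hf, hf1, hf2⟩ := exists_cut (p := p) hg hg' i₀
      refine le_csSup (hbdd _ hδ2) ⟨f, hf, fun n => ?_⟩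
      rw [coeff_sub]
      rcases Nat.lt_or_ge n (p * i₀) with hn | hn
      · rw [hf1 n hn, ← coeff_sub]
        refine (h1 n (by omega)).mono ?_
        have : (0 : ℝ) ≤ n * δ := by positivity
        nlinarith
      · rw [hf2 n hn, ← coeff_sub]
        refine (h2 n).mono ?_
        have h4 : (S₁ : ℝ) + 1 ≤ n := by exact_mod_cast hS ▸ hn
        nlinarith
    have hmem : s + δ ∈ T := ⟨by linarith, hδ2, by nlinarith⟩
    have := le_csSup hTb hmem
    linarith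

end Pool.Agent.TWJ
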