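import Pool.Agent.Lib.TW_NFG.J2
import Pool.Agent.Lib.TW_NFG.J5

/-!
# TANK W, SEC1: the first slope at other centres and radii

* `SL_centre`: the first slope at another centre nearer than the radius;
* `SL_radius`: a larger radius (`F` has `p`-bases of arbitrarily small distortion).
-/

set_option autoImplicit false

open Polynomial

namespace Pool.Agent.TWJ

open Pool.Agent.H15JM (RVal)
open Pool.Agent.TW (PBasis Orth pcomb mon)
open Pool.Agent.TWM (PI GB SL Gt)

universe u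

variable {k Ω : Type u} [Field k] [Field Ω] [Algebra k Ω] {v : RVal Ω}

theorem exists_cut' {p : ℕ} [hp : Fact p.Prime] [CharP Ω p] {E : IntermediateField k Ω}
    {g g' : Polynomial Ω} (hg : g ∈ PI E) (hg' : g' ∈ PI E) (S : ℕ) :
    ∃ f ∈ PI E, (∀ n, n ≤ S → (f ^ p).coeff n = (g ^ p).coeff n) ∧
      ∀ n, S < n → (f ^ p).coeff n = (g' ^ p).coeff n := by
  have hp0 := hp.out.pos
  obtain ⟨f, hf, h1, h2⟩ := exists_cut (p := p) hg hg' (S / p + 1)
  have h3 : S < p * (S / p + 1) := by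
    have := Nat.lt_mul_div_succ S hp0
    exact this
  refine ⟨f, hf, fun n hn => h1 n (by omega), fun n hn => ?_⟩
  rcases Nat.lt_or_ge n (p * (S / p + 1)) with h4 | h4
  · have h5 : ¬ p ∣ n := by
      rintro ⟨a, rfl⟩
      have h6 : a < S / p + 1 := Nat.lt_of_mul_lt_mul_left h4
      have h7 : p * a ≤ p * (S / p) := Nat.mul_le_mul_left p (by omega)
      have h8 : p * (S / p) ≤ S := Nat.mul_div_le S p
      omega
    rw [Pool.Agent.TWM.coeff_pow_ite, Pool.Agent.TWM.coeff_pow_ite, if_neg h5, if_neg h5]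
  · exact h2 n h4

/-- The first slope at a centre nearer than the radius. -/
theorem SL_centre {p : ℕ} [hp : Fact p.Prime] [CharP Ω p] {F : IntermediateField k Ω} {z θ : Ω}
    {c κ : ℝ} {S : ℕ} {A : Polynomial Ω} (h : SL p v F z c κ S A) (hθ : θ ∈ F)
    (hcθ : Gt v c θ) : SL p v F (z - θ) c κ S (taylor θ A) := by
  have hge : v.Ge c θ := hcθ.ge
  have hsub : ∀ g : Polynomial Ω, taylor θ (A - g ^ p) = taylor θ A - taylor θ g ^ p := by
    intro g
    rw [_root_.map_sub, taylor_pow]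
  refine ⟨taylor_mem_PI h.mem hθ, h.gt.sub hcθ, fun ε hε => ?_, fun e he g hg => ?_⟩
  · obtain ⟨g, hg, h1⟩ := h.lo ε hε
    refine ⟨taylor θ g, taylor_mem_PI hg hθ, ?_⟩
    rw [← hsub]
    exact h1.taylor hge
  · by_contra hcon
    push Not at hcon
    obtain ⟨δ, hδ, hδθ⟩ : ∃ δ : ℝ, 0 < δ ∧ v.Ge (c + δ) θ := by
      by_cases h0 : θ = 0
      · exact ⟨1, one_pos, by rw [h0]; exact RVal.Ge.zero⟩
      · exact ⟨v θ - c, sub_pos.2 (hcθ h0), fun _ => by linarith⟩
    obtain ⟨g₁, hg₁, h1⟩ := h.lo (δ / 2) (half_pos hδ)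
    obtain ⟨f, hf, hf1, hf2⟩ := exists_cut' (p := p) hg (taylor_mem_PI hg₁ hθ) S
    set T := taylor θ A - f ^ p with hT
    have hTlow : ∀ n, n ≤ S → v.Ge (κ + e - n * c) (T.coeff n) := by
      intro n hn
      rw [hT, coeff_sub, hf1 n hn, ← coeff_sub]
      exact hcon n hn
    have hThigh : ∀ n, S < n → v.Ge (κ - δ / 2 - n * c) (T.coeff n) := by
      intro n hn
      rw [hT, coeff_sub, hf2 n hn, ← coeff_sub, ← hsub]
      exact h1.taylor hge n
    -- the two parts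
    set T₁ : Polynomial Ω := ∑ i ∈ Finset.range (S + 1), monomial i (T.coeff i) with hT₁
    have hT₁c : ∀ n, T₁.coeff n = if n ≤ S then T.coeff n else 0 := by
      intro n
      rw [hT₁, finsetSum_coeff]
      simp only [coeff_monomial]
      rw [Finset.sum_ite_eq']
      simp only [Finset.mem_range, Nat.lt_succ_iff]
    have hT₂c : ∀ n, (T - T₁).coeff n = if n ≤ S then 0 else T.coeff n := by
      intro n
      rw [coeff_sub, hT₁c]
      split_ifs
      · rw [sub_self]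
      · rw [sub_zero]
    have hb1 : GB v c (κ + e) T₁ := by
      intro n
      rw [hT₁c]
      split_ifs with hn
      · exact hTlow n hn
      · exact RVal.Ge.zero
    have hb2 : GB v (c + δ) (κ - δ / 2 + (S + 1) * δ) (T - T₁) := by
      intro n
      rw [hT₂c]
      split_ifs with hn
      · exact RVal.Ge.zero
      · refine (hThigh n (not_le.1 hn)).mono ?_
        have h2 : (S : ℝ) + 1 ≤ n := by exact_mod_cast not_le.1 hn
        nlinarith
    have hneg : taylor (-θ) T = A - taylor (-θ) f ^ p := by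
      rw [hT, _root_.map_sub, taylor_pow, taylor_taylor, neg_add_cancel, taylor_zero]
    obtain ⟨n, hn, h2⟩ := h.hi (min e (δ / 2)) (lt_min he (half_pos hδ)) (taylor (-θ) f)
      (taylor_mem_PI hf (neg_mem hθ))
    apply h2
    rw [← hneg]
    have h3 : T = T₁ + (T - T₁) := by ring
    rw [h3, _root_.map_add, coeff_add]
    refine RVal.Ge.add ((hb1.taylor hge.neg n).mono ?_) ((hb2.taylor hδθ.neg n).mono ?_)
    · have := min_le_left e (δ / 2)
      linarith
    · have h4 := min_le_right e (δ / 2)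
      have h5 : (n : ℝ) ≤ S := by exact_mod_cast hn
      nlinarith

section Radius

variable {p : ℕ} [hp : Fact p.Prime] [CharP Ω p] {F : IntermediateField k Ω}

theorem pc_ge {n : ℕ} {t : Fin n → Ω} (ht : PBasis p F t) {ε : ℝ} (ho : Orth p v F t ε) {u : Ω}
    (hu : u ∈ F) {d : ℝ} (h : v.Ge d u) (α : Fin n → Fin p) :
    v.Ge (d - ε) (pc p F t u α ^ p * mon t α) := by
  by_cases h0 : u = 0
  · rw [h0, pc_zero ht, Pi.zero_apply, zero_pow hp.out.ne_zero, zero_mul]
    exact RVal.Ge.zero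
  · have h1 := pc_eq ht hu
    have h2 : pcomb t (pc p F t u) ≠ 0 := by rwa [← h1]
    have h3 := ho _ (fun β => pc_mem _ β) h2 α
    rw [← h1] at h3
    exact h3.mono (by have := h h0; linarith)

/-- A larger radius. -/
theorem SL_radius (hor : ∀ ε : ℝ, 0 < ε → ∃ (n : ℕ) (t : Fin n → Ω), PBasis p F t ∧ Orth p v F t ε)
    {z : Ω} {c₀ κ₀ : ℝ} {S : ℕ} {A : Polynomial Ω} (h : SL p v F z c₀ κ₀ S A) {c : ℝ}
    (hc : c₀ ≤ c) (hz : Gt v c z) : ∃ κ : ℝ, κ₀ ≤ κ ∧ SL p v F z c κ S A := by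
  classical
  rcases hc.eq_or_lt with rfl | hc
  · exact ⟨κ₀, le_rfl, h⟩
  have hAm := h.mem
  -- a responsible component
  have hcomp : ∀ {n : ℕ} {t : Fin n → Ω}, PBasis p F t → ∀ e : ℝ, 0 < e →
      ∃ (α : Fin n → Fin p) (j l : ℕ), j < p ∧ ¬ (α = ix0 p n ∧ j = 0) ∧ p * l + j ≤ S ∧
        (cmp p F t A α j).coeff l ≠ 0 ∧
        v ((cmp p F t A α j).coeff l ^ p * mon t α) < κ₀ + e - ((p * l + j : ℕ) : ℝ) * c₀ := by
    intro n t ht e he
    obtain ⟨N, hNS, hN⟩ := h.hi e he (cmp p F t A (ix0 p n) 0) (cmp_mem ht _ _ _)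
    have hjp : N % p < p := Nat.mod_lt _ hp.out.pos
    have hNe : N = p * (N / p) + N % p := (Nat.div_add_mod N p).symm
    have h1 : ∃ α : Fin n → Fin p, ¬ v.Ge (κ₀ + e - N * c₀)
        ((cmp p F t (A - cmp p F t A (ix0 p n) 0 ^ p) α (N % p)).coeff (N / p) ^ p * mon t α) := by
      by_contra hcon
      push Not at hcon
      apply hN
      rw [hNe] at hcon ⊢
      rw [← hNe] at hcon ⊢
      have h2 := ge_of_cmp ht (sub_mem hAm (pow_mem (cmp_mem ht A (ix0 p n) 0) p)) hcon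
      rwa [← hNe] at h2
    obtain ⟨α, h1⟩ := h1
    rw [cmp_sub ht hAm (pow_mem (cmp_mem ht _ _ _) p), cmp_pow ht (cmp_mem ht _ _ _) α hjp] at h1
    have h0 : ¬ (α = ix0 p n ∧ N % p = 0) := by
      intro h0
      rw [if_pos h0, h0.1, h0.2, sub_self, coeff_zero, zero_pow hp.out.ne_zero, zero_mul] at h1
      exact h1 RVal.Ge.zero
    rw [if_neg h0, sub_zero] at h1
    refine ⟨α, N % p, N / p, hjp, h0, by omega, ?_, ?_⟩
    · intro h2
      rw [h2, zero_pow hp.out.ne_zero, zero_mul] at h1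
      exact h1 RVal.Ge.zero
    · rw [← hNe]
      by_contra h2
      exact h1 fun _ => not_lt.1 h2
  -- the components do not see `g`
  have hcg : ∀ {n : ℕ} {t : Fin n → Ω} (_ : PBasis p F t) {g : Polynomial Ω} (_ : g ∈ PI F)
      {α : Fin n → Fin p} {j : ℕ} (_ : j < p) (_ : ¬ (α = ix0 p n ∧ j = 0)),
      cmp p F t (A - g ^ p) α j = cmp p F t A α j := by
    intro n t ht g hg α j hj h0
    rw [cmp_sub ht hAm (pow_mem hg p), cmp_pow ht hg α hj, if_neg h0, sub_zero]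
  -- the set of the Gauss values
  have hne : (GS p v F A c).Nonempty := by
    obtain ⟨g, hg, h1⟩ := h.lo 1 one_pos
    exact ⟨κ₀ - 1, g, hg, h1.radius_le hc.le⟩
  have hbdd : BddAbove (GS p v F A c) := by
    obtain ⟨n, t, ht, ho⟩ := hor 1 one_pos
    obtain ⟨α, j, l, hj, h0, -, hne0, -⟩ := hcomp ht 1 one_pos
    refine ⟨v ((cmp p F t A α j).coeff l ^ p * mon t α) + 1 + ((p * l + j : ℕ) : ℝ) * c, ?_⟩
    rintro κ ⟨g, hg, h1⟩
    have h2 := cmp_ge ht ho (sub_mem hAm (pow_mem hg p)) h1 α j l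
    rw [hcg ht hg hj h0] at h2
    have h3 := h2 (mul_ne_zero (pow_ne_zero p hne0) (ht.mon_ne_zero α))
    linarith
  set K := sSup (GS p v F A c) with hK
  have hlo : ∀ ε : ℝ, 0 < ε → ∃ g ∈ PI F, GB v c (K - ε) (A - g ^ p) := by
    intro ε hε
    obtain ⟨κ, ⟨g, hg, h1⟩, h2⟩ := exists_lt_of_lt_csSup hne
      (show K - ε < sSup (GS p v F A c) by rw [← hK]; linarith)
    exact ⟨g, hg, h1.mono h2.le⟩
  refine ⟨K, ?_, hAm, hz, hlo, fun e he g hg => ?_⟩
  · refine le_of_forall_pos_sub_le fun ε hε => ?_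
    obtain ⟨g, hg, h1⟩ := h.lo ε hε
    exact le_csSup hbdd ⟨g, hg, h1.radius_le hc.le⟩
  by_contra hcon
  push Not at hcon
  -- a good `p`-basis
  set ε := min (e / 2) ((c - c₀) / 4) with hε
  have hε0 : 0 < ε := lt_min (half_pos he) (by linarith)
  have hεe : ε ≤ e / 2 := min_le_left _ _
  have hεc : ε ≤ (c - c₀) / 4 := min_le_right _ _
  obtain ⟨n, t, ht, ho⟩ := hor ε hε0
  obtain ⟨α₁, j₁, l₁, hj₁, h01, hS₁, hne₁, hv₁⟩ := hcomp ht ε hε0
  -- the components
  let I : Finset ((Fin n → Fin p) × ℕ × ℕ) :=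
    ((Finset.univ : Finset (Fin n → Fin p)) ×ˢ (Finset.range p ×ˢ
      Finset.range (A.natDegree + 1))).filter fun x =>
        ¬ (x.1 = ix0 p n ∧ x.2.1 = 0) ∧ (cmp p F t A x.1 x.2.1).coeff x.2.2 ≠ 0
  let τ : (Fin n → Fin p) × ℕ × ℕ → ℝ := fun x =>
    v ((cmp p F t A x.1 x.2.1).coeff x.2.2 ^ p * mon t x.1) + ((p * x.2.2 + x.2.1 : ℕ) : ℝ) * c
  have hmem : ∀ {α : Fin n → Fin p} {j l : ℕ}, j < p → ¬ (α = ix0 p n ∧ j = 0) →
      (cmp p F t A α j).coeff l ≠ 0 → (α, j, l) ∈ I := by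
    intro α j l hj h0 hne0
    refine Finset.mem_filter.2 ⟨?_, h0, hne0⟩
    simp only [Finset.mem_product, Finset.mem_univ, Finset.mem_range, true_and]
    refine ⟨hj, ?_⟩
    by_contra hl
    apply hne0
    rw [coeff_cmp ht, coeff_eq_zero_of_natDegree_lt, pc_zero ht]
    · rfl
    · have := Nat.le_mul_of_pos_left l hp.out.pos
      omega
  have hI₁ := hmem hj₁ h01 hne₁
  obtain ⟨⟨α, j, l⟩, hx, hmin⟩ := I.exists_min_image τ ⟨_, hI₁⟩
  obtain ⟨hx1, h0, hne0⟩ := Finset.mem_filter.1 hx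
  simp only [Finset.mem_product, Finset.mem_univ, Finset.mem_range, true_and] at hx1
  have hj : j < p := hx1.1
  -- the minimum is attained by the best `p`-th power
  have hW : τ (α, j, l) ≤ K := by
    refine le_csSup hbdd ⟨cmp p F t A (ix0 p n) 0, cmp_mem ht _ _ _, fun N => ?_⟩
    have hNe : N = p * (N / p) + N % p := (Nat.div_add_mod N p).symm
    have hjp : N % p < p := Nat.mod_lt _ hp.out.pos
    rw [hNe]
    refine ge_of_cmp ht (sub_mem hAm (pow_mem (cmp_mem ht _ _ _) p)) fun β => ?_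
    rw [← hNe]
    by_cases h1 : β = ix0 p n ∧ N % p = 0
    · rw [cmp_sub ht hAm (pow_mem (cmp_mem ht _ _ _) p), cmp_pow ht (cmp_mem ht _ _ _) β hjp,
        if_pos h1, h1.1, h1.2, sub_self, coeff_zero, zero_pow hp.out.ne_zero, zero_mul]
      exact RVal.Ge.zero
    · rw [hcg ht (cmp_mem ht _ _ _) hjp h1]
      intro h2
      have h3 : (cmp p F t A β (N % p)).coeff (N / p) ≠ 0 := by
        intro h3
        apply h2
        rw [h3, zero_pow hp.out.ne_zero, zero_mul]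
      have h4 := hmin _ (hmem hjp h1 h3)
      have h5 : τ (β, N % p, N / p) = v ((cmp p F t A β (N % p)).coeff (N / p) ^ p * mon t β) +
          (N : ℝ) * c := by
        change v ((cmp p F t A β (N % p)).coeff (N / p) ^ p * mon t β) +
          ((p * (N / p) + N % p : ℕ) : ℝ) * c = _
        rw [← hNe]
      rw [h5] at h4
      linarith
  -- the lower bound at `c₀`
  have hmon : mon t α ≠ 0 := ht.mon_ne_zero α
  have hlow : κ₀ - ε - ((p * l + j : ℕ) : ℝ) * c₀ ≤ v ((cmp p F t A α j).coeff l ^ p * mon t α) := by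
    refine le_of_forall_pos_sub_le fun ε' hε' => ?_
    obtain ⟨g', hg', h1⟩ := h.lo ε' hε'
    have h2 := cmp_ge ht ho (sub_mem hAm (pow_mem hg' p)) h1 α j l
    rw [hcg ht hg' hj h0] at h2
    have h3 := h2 (mul_ne_zero (pow_ne_zero p hne0) hmon)
    linarith
  -- the index of the minimum
  have hidx : p * l + j ≤ p * l₁ + j₁ := by
    by_contra h1
    have h2 : ((p * l₁ + j₁ : ℕ) : ℝ) + 1 ≤ ((p * l + j : ℕ) : ℝ) := by
      exact_mod_cast (not_le.1 h1)
    have h3 := hmin _ hI₁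
    change v ((cmp p F t A α j).coeff l ^ p * mon t α) + ((p * l + j : ℕ) : ℝ) * c ≤
      v ((cmp p F t A α₁ j₁).coeff l₁ ^ p * mon t α₁) + ((p * l₁ + j₁ : ℕ) : ℝ) * c at h3
    have h4 : (((p * l₁ + j₁ : ℕ) : ℝ) + 1) * (c - c₀) ≤ ((p * l + j : ℕ) : ℝ) * (c - c₀) :=
      mul_le_mul_of_nonneg_right h2 (by linarith)
    nlinarith
  have hm := hcon (p * l + j) (hidx.trans hS₁)
  have h1 := pc_ge ht ho (sub_mem hAm (pow_mem hg p) _) hm α
  rw [← coeff_cmp ht, hcg ht hg hj h0] at h1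
  have h2 := h1 (mul_ne_zero (pow_ne_zero p hne0) hmon)
  change v ((cmp p F t A α j).coeff l ^ p * mon t α) + ((p * l + j : ℕ) : ℝ) * c ≤ K at hW
  linarith

end Radius

end Pool.Agent.TWJ
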