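import Pool.Agent.Lib.TW_NFG.N4

/-!
# NFG, `s = 2`: the statements of the chain

* `Ix p i`: the indices `i` (`p ∣ i`, or `i = 1`);
* `FO p G μ n f`: the form `M μ * f(w)` has order `≥ n` at `w = 0`;
* `Rp`: the representation of `a` at a frame `(G, M, w)` of `F` and `Z`:
  `a h ^ p - (g ^ p + ∑ (i < q) P_i(w) Z ^ i + M lam * w ^ nA * Z ^ q)` is in `Er`;
* `Con`: the conclusion of the order constraint.
-/

set_option autoImplicit false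

open Polynomial

namespace Pool.Agent.TWN

open Pool.Agent.H15JM (RVal)
open Pool.Agent.TWM (MS TL cadj VG)

universe u

variable {k Ω : Type u} [Field k] [Field Ω] [Algebra k Ω] {v : RVal Ω} {G G' : AddSubgroup ℝ}
  {M M' : ℝ → Ω} {w t : Ω}

/-- The indices. -/
def Ix (p i : ℕ) : Prop := p ∣ i ∨ i = 1

/-- `g` is divisible by `p` in `G`. -/
def pdv (p : ℕ) (G : AddSubgroup ℝ) (g : ℝ) : Prop := ∃ d ∈ G, g = p * d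

/-- The form `d (M μ * f(w))` has order `≥ n` at `w = 0`, `w` a parameter. -/
def FO (p : ℕ) (G : AddSubgroup ℝ) (μ : ℝ) (n : ℕ) (f : k[X]) : Prop :=
  X ^ n ∣ derivative f ∧ (pdv p G μ ∨ X ^ n ∣ f)

/-- The representation of `a` at a frame, with an error in `Er`. -/
structure Rp (p q : ℕ) (v : RVal Ω) (F K : IntermediateField k Ω) (a : Ω) (s D A₀ : ℝ)
    (Er : AddSubgroup Ω) (G : AddSubgroup ℝ) (M : ℝ → Ω) (w Z : Ω) (P : ℕ → ℝ →₀ k[X]) (lam : ℝ)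
    (nA : ℕ) : Prop where
  frm : Frm v G M w F
  far : ∀ f ∈ F, Z ≠ f ∧ v (Z - f) < s
  vZ : A₀ < v Z
  gen : K = cadj v F Z
  typ : lam ∈ G ∧ ((nA = 0 ∧ ¬ pdv p G lam) ∨ (nA = 1 ∧ pdv p G lam))
  inP : ∀ i < q, InP G (P i)
  npd : ∀ i < q, p ∣ i → NPD p G (P i)
  ix : ∀ i < q, ¬ Ix p i → P i = 0
  low : ∀ i < q, Ct (D + ((q : ℝ) - i) * A₀) (P i)
  rep : ∃ h ∈ F, h ≠ 0 ∧ v h = 0 ∧ ∃ g ∈ K,
    a * h ^ p - (g ^ p + ∑ i ∈ Finset.range q, evP M w (P i) * Z ^ i +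
      M lam * w ^ nA * Z ^ q) ∈ Er
  dq : ∀ f ∈ F, ¬ v.Ge D (M lam * w ^ nA - f ^ p)

theorem Rp.lam_lt {p q : ℕ} {F K : IntermediateField k Ω} {a : Ω} {s D A₀ : ℝ}
    {Er : AddSubgroup Ω} {Z : Ω} {P : ℕ → ℝ →₀ k[X]} {lam : ℝ} {nA : ℕ} (hp : p ≠ 0)
    (h : Rp p q v F K a s D A₀ Er G M w Z P lam nA) : lam + nA * v w < D := by
  by_contra hcon
  refine h.dq 0 (zero_mem _) fun _ => ?_
  rw [zero_pow hp, sub_zero, v.map_mul (h.frm.ms.ne _ h.typ.1) (pow_ne_zero _ h.frm.wne),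
    h.frm.ms.val _ h.typ.1, v.map_pow h.frm.wne]
  exact not_lt.1 hcon

/-- The content of the index `i` on the edge of slope `c`. -/
def mu (q : ℕ) (lam c : ℝ) (i : ℕ) : ℝ := lam + ((q : ℝ) - i) * c

/-- The conclusion of the order constraint; `q = τ + Q`, `Q` a power of `p`. -/
def Con (p q τ : ℕ) (v : RVal Ω) (G : AddSubgroup ℝ) (Z : Ω) (P : ℕ → ℝ →₀ k[X]) (lam : ℝ)
    (nA : ℕ) : Prop :=
  ∃ c : ℝ, c ≤ v Z ∧ (∀ i < q, Ct (mu q lam c i) (P i)) ∧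
    ((∃ i < q, p ∣ i ∧ P i (mu q lam c i) ≠ 0 ∧
        FO p G (mu q lam c i) (q - 1 - i) (P i (mu q lam c i))) ∨
      (1 < q ∧ P 1 (mu q lam c 1) ≠ 0 ∧ X ^ (q - 1) ∣ P 1 (mu q lam c 1)) ∨
      (c ∈ G ∧ (∀ i, τ < i → i < q → P i (mu q lam c i) = 0) ∧
        ∃ b : k, b ≠ 0 ∧ FO p G (mu q lam c τ) (q - 1 - τ) (P τ (mu q lam c τ) + C b * X ^ nA)) ∨
      (q = 2 ∧ ¬ pdv p G (mu q lam c 0) ∧ P 0 (mu q lam c 0) ≠ 0 ∧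
        (P 0 (mu q lam c 0)).coeff 0 = 0))

/-- The conclusion of the order constraint, at the scales `b ∈ G` and `b = v Z`. -/
def Con2 (p q τ : ℕ) (v : RVal Ω) (A₀ : ℝ) (G : AddSubgroup ℝ) (Z : Ω) (P : ℕ → ℝ →₀ k[X])
    (lam : ℝ) (nA : ℕ) : Prop :=
  ∀ b : ℝ, A₀ ≤ b → b ≤ v Z → (b ∈ G ∨ b = v Z) → ∀ κ : ℝ, κ ≤ lam + q * b →
    (∀ i < q, Ct (κ - i * b) (P i)) →
    ((κ = lam + q * b ∧ b = v Z) ∨ ∃ i < q, P i (κ - i * b) ≠ 0) →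
    (∃ i < q, (∀ l, i < l → l < q → P l (κ - l * b) = 0) ∧ P i (κ - i * b) ≠ 0 ∧
      ((p ∣ i ∧ FO p G (κ - i * b) (q - 1 - i) (P i (κ - i * b))) ∨
        (i = 1 ∧ X ^ (q - 1) ∣ P 1 (κ - 1 * b)))) ∨
    (κ = lam + q * b ∧ b ∈ G ∧ (∀ i, τ < i → i < q → P i (κ - i * b) = 0) ∧
      ∃ b₀ : k, b₀ ≠ 0 ∧ FO p G (κ - τ * b) (q - 1 - τ) (P τ (κ - τ * b) + C b₀ * X ^ nA)) ∨
    (q = 2 ∧ κ = lam + q * b ∧ ¬ pdv p G κ ∧ P 0 κ ≠ 0 ∧ (P 0 κ).coeff 0 = 0)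

end Pool.Agent.TWN
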