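import Pool.Agent.Lib.TW_NFG.FR

/-!
# NFG, row P1: frames of a closed field and their steps

* `exists_x`: the monomials `M g`, `g ∈ G`, are the monomials of a system `x`;
* `Frm.eq_cadj`, `Frm.eq_NN`: `F = N⟨w⟩`, `N` the closure of the field of the monomials;
* `Frm.exists_recentre`, `Frm.exists_recentreP`: recentring;
* `Frm.step`: the frame after a step of the value group.
-/

set_option autoImplicit false

open Polynomial

namespace Pool.Agent.TWN

open Pool.Agent.H15JM (RVal)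
open Pool.Agent.LU1 (VPos)
open Pool.Agent.D2 (Ctx0)
open Pool.Agent.D2P (clI mem_clI)
open Pool.Agent.TWM (MS LF NN GG MM vl cadj Cld VG InG evL Gt)
open Pool.Agent.TW (mx)

universe u

/-! ### The monomials -/

section mon

variable {Ω : Type u} [Field Ω] {v : RVal Ω} {G : AddSubgroup ℝ} {M : ℝ → Ω}

theorem MS.sum (hM : MS v G M) {ι : Type*} (s : Finset ι) (g : ι → ℝ) (hg : ∀ i ∈ s, g i ∈ G)
    (n : ι → ℤ) : (∑ i ∈ s, (n i : ℝ) * g i) ∈ G ∧
      M (∑ i ∈ s, (n i : ℝ) * g i) = ∏ i ∈ s, M (g i) ^ n i := by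
  classical
  induction s using Finset.induction_on with
  | empty => exact ⟨by rw [Finset.sum_empty]; exact G.zero_mem, by
      rw [Finset.sum_empty, Finset.prod_empty, hM.zero]⟩
  | insert a s ha ih =>
    obtain ⟨h1, h2⟩ := ih fun i hi => hg i (Finset.mem_insert_of_mem hi)
    have h3 := hg a (Finset.mem_insert_self a s)
    have h4 : (n a : ℝ) * g a ∈ G := by
      rw [← zsmul_eq_mul]; exact G.zsmul_mem h3 _
    rw [Finset.sum_insert ha, Finset.prod_insert ha]
    exact ⟨G.add_mem h4 h1, by rw [hM.mul _ h4 _ h1, h2, MS.zmul hM h3]⟩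

end mon

variable {k Ω : Type u} [Field k] [Field Ω] [Algebra k Ω] {v : RVal Ω} {G G' : AddSubgroup ℝ}
  {M M' : ℝ → Ω} {w t : Ω} {m : ℕ} {j : ℝ → ℤ → ℤ} {F : IntermediateField k Ω}

variable (k) in
/-- The monomials `M g`, `g ∈ G`, are the monomials of a system with rationally independent
values. -/
theorem exists_x (hM : MS v G M) (hG : G.FG) :
    ∃ (r : ℕ) (x : Fin r → Ω), (∀ i, x i ≠ 0) ∧ (LinearIndependent ℚ fun i => v (x i)) ∧
      GG v x = G ∧ (∀ g ∈ G, MM v x g = M g) ∧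
      NN k v x = clI v (IntermediateField.adjoin k (M '' (G : Set ℝ))) := by
  classical
  have hGf : Module.Finite ℤ G := by
    rw [Module.Finite.iff_addGroup_fg]
    exact (AddGroup.fg_iff_addSubgroup_fg G).2 hG
  have hfree : Module.Free ℤ G := inferInstance
  let b := Module.finBasis ℤ G
  let x : Fin (Module.finrank ℤ G) → Ω := fun i => M (b i : ℝ)
  have hv : ∀ i, v (x i) = (b i : ℝ) := fun i => hM.val _ (b i).2
  have hx : ∀ i, x i ≠ 0 := fun i => hM.ne _ (b i).2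
  have hindZ : LinearIndependent ℤ fun i => (b i : ℝ) := by
    have h1 := b.linearIndependent.map' G.toIntSubmodule.subtype (Submodule.ker_subtype _)
    exact h1
  have hind : LinearIndependent ℚ fun i => v (x i) := by
    have h1 := (LinearIndependent.iff_fractionRing ℤ ℚ).1 hindZ
    simpa only [hv] using h1
  have hvl : ∀ l, vl v x l = ∑ i, (l i : ℝ) * (b i : ℝ) := fun l => by
    rw [TWM.vl_apply]
    exact Finset.sum_congr rfl fun i _ => by rw [hv]
  have hmx : ∀ l, vl v x l ∈ G ∧ M (vl v x l) = mx x l := fun l => by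
    rw [hvl]
    exact MS.sum hM _ (fun i => (b i : ℝ)) (fun i _ => (b i).2) l
  have hGG : GG v x = G := by
    ext g
    constructor
    · rintro ⟨l, rfl⟩
      exact (hmx l).1
    · intro hg
      refine ⟨fun i => b.repr ⟨g, hg⟩ i, ?_⟩
      rw [hvl]
      have h1 := congrArg (fun y : G => (y : ℝ)) (b.sum_repr ⟨g, hg⟩)
      simp only [AddSubgroup.val_finsetSum, AddSubgroup.coe_zsmul, zsmul_eq_mul] at h1
      exact h1
  have hMM : ∀ g ∈ G, MM v x g = M g := by
    intro g hg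
    rw [← hGG] at hg
    obtain ⟨l, rfl⟩ := hg
    rw [TWM.MM_vl hind, (hmx l).2]
  refine ⟨_, x, hx, hind, hGG, hMM, ?_⟩
  have h1 : IntermediateField.adjoin k (Set.range x) =
      IntermediateField.adjoin k (M '' (G : Set ℝ)) := by
    apply le_antisymm
    · rw [IntermediateField.adjoin_le_iff]
      rintro _ ⟨i, rfl⟩
      exact IntermediateField.subset_adjoin k _ ⟨_, (b i).2, rfl⟩
    · rw [IntermediateField.adjoin_le_iff]
      rintro _ ⟨g, hg, rfl⟩
      have hg' : g ∈ G := hg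
      rw [← hMM g hg', SetLike.mem_coe]
      have h2 : ∀ i, x i ∈ IntermediateField.adjoin k (Set.range x) := fun i =>
        IntermediateField.subset_adjoin k _ ⟨i, rfl⟩
      exact TWM.MM_mem hind h2 g (by rw [hGG]; exact hg')
  rw [NN, h1]

/-! ### Frames -/

namespace Frm

theorem cld (hf : Frm v G M w F) : Cld v F := by
  rw [hf.eq]
  exact TWM.cld_clI v _

theorem mon_mem (hf : Frm v G M w F) {g : ℝ} (hg : g ∈ G) : M g ∈ F := by
  rw [hf.eq, mem_clI]
  exact LUC.Cl.subset (IntermediateField.subset_adjoin k _ (Or.inl ⟨g, hg, rfl⟩))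

theorem w_mem (hf : Frm v G M w F) : w ∈ F := by
  rw [hf.eq, mem_clI]
  exact LUC.Cl.subset (IntermediateField.subset_adjoin k _ (Or.inr rfl))

theorem evL_mem_of {F' : IntermediateField k Ω} (hM : ∀ g ∈ G, M g ∈ F') {L : ℝ →₀ k}
    (hL : InG G L) : evL M L ∈ F' := by
  rw [evL, Finsupp.sum]
  exact sum_mem fun g hg => mul_mem (F'.algebraMap_mem _)
    (hM _ (hL g (Finsupp.mem_support_iff.mp hg)))

theorem evL_mem (hf : Frm v G M w F) {L : ℝ →₀ k} (hL : InG G L) : evL M L ∈ F :=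
  evL_mem_of (fun _ hg => hf.mon_mem hg) hL

/-- `F` is the least closed field which contains the frame. -/
theorem le_of (hf : Frm v G M w F) {F' : IntermediateField k Ω} (hF' : Cld v F')
    (hM : ∀ g ∈ G, M g ∈ F') (hw : w ∈ F') : F ≤ F' := by
  rw [hf.eq]
  intro a ha
  refine hF' ?_
  rw [mem_clI] at ha ⊢
  intro c
  obtain ⟨a', ha', h2⟩ := ha c
  refine ⟨a', ?_, h2⟩
  have h1 : IntermediateField.adjoin k (M '' (G : Set ℝ) ∪ {w}) ≤ F' := by
    rw [IntermediateField.adjoin_le_iff]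
    rintro _ (⟨g, hg, rfl⟩ | rfl)
    · exact hM g hg
    · exact hw
  exact h1 ha'

/-- A frame from its monomials and its parameter. -/
theorem of_le (ms : MS v G M) (fg : G.FG) (ne : w ≠ 0) (pos : 0 < v w)
    (full : ∀ f ∈ F, f ≠ 0 → ∃ m : ℕ, 0 < m ∧ (m : ℝ) * v f ∈ G) (hF : Cld v F)
    (hM : ∀ g ∈ G, M g ∈ F) (hw : w ∈ F)
    (hle : ∀ F' : IntermediateField k Ω, Cld v F' → (∀ g ∈ G, M g ∈ F') → w ∈ F' → F ≤ F') :
    Frm v G M w F where
  ms := ms
  fg := fg
  wne := ne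
  wpos := pos
  full := full
  eq := by
    apply le_antisymm
    · refine hle _ (TWM.cld_clI v _) (fun g hg => ?_) ?_
      · rw [mem_clI]
        exact LUC.Cl.subset (IntermediateField.subset_adjoin k _ (Or.inl ⟨g, hg, rfl⟩))
      · rw [mem_clI]
        exact LUC.Cl.subset (IntermediateField.subset_adjoin k _ (Or.inr rfl))
    · intro a ha
      refine hF ?_
      rw [mem_clI] at ha ⊢
      intro c
      obtain ⟨a', ha', h2⟩ := ha c
      refine ⟨a', ?_, h2⟩
      have h1 : IntermediateField.adjoin k (M '' (G : Set ℝ) ∪ {w}) ≤ F := by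
        rw [IntermediateField.adjoin_le_iff]
        rintro _ (⟨g, hg, rfl⟩ | rfl)
        · exact hM g hg
        · exact hw
      exact h1 ha'

theorem eq_cadj (h : Ctx0 k v) (hf : Frm v G M w F) : F = cadj v (LF h hf.ms) w := by
  apply le_antisymm
  · exact hf.le_of (TWM.cld_cadj v _ w)
      (fun g hg => TWM.le_cadj v _ w (TWM.LF_mon h hf.ms hg)) (TWM.self_mem_cadj v _ w)
  · exact TWM.cadj_le hf.cld (TWM.LF_le h hf.ms hf.cld fun g hg => hf.mon_mem hg) hf.w_mem

/-- The frame in terms of a system `x`. -/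
theorem eq_NN (hf : Frm v G M w F) {r : ℕ} {x : Fin r → Ω}
    (hN : NN k v x = clI v (IntermediateField.adjoin k (M '' (G : Set ℝ)))) :
    F = cadj v (NN k v x) w := by
  have h1 : NN k v x ≤ F := by
    rw [hN]
    intro a ha
    refine hf.cld ?_
    rw [mem_clI] at ha ⊢
    intro c
    obtain ⟨a', ha', h2⟩ := ha c
    refine ⟨a', ?_, h2⟩
    have h1 : IntermediateField.adjoin k (M '' (G : Set ℝ)) ≤ F := by
      rw [IntermediateField.adjoin_le_iff]
      rintro _ ⟨g, hg, rfl⟩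
      exact hf.mon_mem hg
    exact h1 ha'
  apply le_antisymm
  · refine hf.le_of (TWM.cld_cadj v _ w) (fun g hg => TWM.le_cadj v _ w ?_)
      (TWM.self_mem_cadj v _ w)
    rw [hN, mem_clI]
    exact LUC.Cl.subset (IntermediateField.subset_adjoin k _ ⟨g, hg, rfl⟩)
  · exact TWM.cadj_le hf.cld h1 hf.w_mem

/-- A Laurent polynomial in the monomials as a Laurent polynomial of the frame. -/
theorem rg_evL {L : ℝ →₀ k} (hL : InG G L) {d : ℝ} (hd : ∀ g, L g ≠ 0 → d ≤ g) :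
    Rg k G M w d (evL M L) := by
  rw [evL, Finsupp.sum]
  refine Rg.sum fun g hg => ?_
  have hg' := Finsupp.mem_support_iff.1 hg
  have h1 := Rg.term (k := k) (M := M) (w := w) (hL g hg') (C (L g))
  rw [aeval_C, mul_comm] at h1
  exact h1.mono (hd g hg')

theorem exists_bound {L : ℝ →₀ k} (hpos : ∀ g, L g ≠ 0 → 0 < g) :
    ∃ d > 0, ∀ g, L g ≠ 0 → d ≤ g := by
  rcases L.support.eq_empty_or_nonempty with h1 | h1
  · exact ⟨1, one_pos, fun g hg => absurd (Finsupp.mem_support_iff.2 hg) (by simp [h1])⟩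
  · obtain ⟨g₀, hg₀, hmin⟩ := L.support.exists_min_image id h1
    exact ⟨g₀, hpos g₀ (Finsupp.mem_support_iff.1 hg₀),
      fun g hg => hmin g (Finsupp.mem_support_iff.2 hg)⟩

theorem sub_evL (h : Ctx0 k v) (hf : Frm v G M w F) {L : ℝ →₀ k} (hL : InG G L)
    (hpos : ∀ g, L g ≠ 0 → 0 < g) (hne : w ≠ evL M L) : Frm v G M (w - evL M L) F := by
  have h0 : w - evL M L ≠ 0 := sub_ne_zero.2 hne
  refine of_le hf.ms hf.fg h0 ?_ hf.full hf.cld (fun g hg => hf.mon_mem hg)
    (sub_mem hf.w_mem (hf.evL_mem hL)) fun F' hF' hM hw => hf.le_of hF' hM ?_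
  · exact (Gt.sub (v := v) (r := 0) (fun _ => hf.wpos) (TWM.evL_gt h hf.ms hL hpos)) h0
  · have h2 := add_mem hw (evL_mem_of hM hL)
    rwa [sub_add_cancel] at h2

/-- **Recentring.** -/
theorem exists_recentre [IsAlgClosed Ω] (p : ℕ) [Fact p.Prime] [CharP Ω p] (h : Ctx0 k v)
    (hf : Frm v G M w F) (hn : NFG v F) :
    ∃ w₁ : Ω, Frm v G M w₁ F ∧ v w₁ ∉ G ∧ ∃ d > 0, Rg k G M w₁ d (w - w₁) := by
  obtain ⟨L, h1, h2, h3, h4⟩ := TWM.exists_recentre_LF p h hf.ms hf.fg hf.wpos (by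
    rw [← hf.eq_cadj h]
    exact hn G hf.fg)
  obtain ⟨d, hd, h5⟩ := exists_bound h2
  refine ⟨w - evL M L, hf.sub_evL h h1 h2 h3, h4, d, hd, ?_⟩
  rw [sub_sub_cancel]
  exact rg_evL h1 h5

/-- **Recentring by a `p`-th power.** -/
theorem exists_recentreP [IsAlgClosed k] [IsAlgClosed Ω] (p : ℕ) [Fact p.Prime] [CharP k p]
    [CharP Ω p] (h : Ctx0 k v) (hf : Frm v G M w F) (hn : NFG v F) :
    ∃ w₁ : Ω, Frm v G M w₁ F ∧ (∃ ψ ∈ F, w - w₁ = ψ ^ p) ∧
      (v w₁ ∉ G ∨ (v w₁ ∈ G ∧ ¬ ∃ d ∈ G, v w₁ = p * d)) ∧ ∃ d > 0, Rg k G M w₁ d (w - w₁) := by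
  classical
  obtain ⟨L, h1, h2, h3, h4⟩ := TWM.exists_recentre_LF p h hf.ms hf.fg hf.wpos (by
    rw [← hf.eq_cadj h]
    exact hn G hf.fg)
  have hp0 : p ≠ 0 := (Fact.out : p.Prime).ne_zero
  -- a Laurent polynomial with exponents in `pG` is a `p`-th power
  have key : ∀ L' : ℝ →₀ k, InG G L' → (∀ g, L' g ≠ 0 → ∃ d ∈ G, g = p * d) →
      ∃ ψ ∈ F, evL M L' = ψ ^ p := by
    intro L' hL' hpd
    have hrt : ∀ b : k, ∃ c : k, c ^ p = b := fun b =>
      IsAlgClosed.exists_pow_nat_eq b (Nat.pos_of_ne_zero hp0)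
    choose rt hrt using hrt
    have hd' : ∀ g, ∃ d : ℝ, L' g ≠ 0 → d ∈ G ∧ g = p * d := by
      intro g
      by_cases hg : L' g = 0
      · exact ⟨0, fun h => absurd hg h⟩
      · obtain ⟨d, hd, hd'⟩ := hpd g hg
        exact ⟨d, fun _ => ⟨hd, hd'⟩⟩
    choose d hd using hd'
    refine ⟨∑ g ∈ L'.support, algebraMap k Ω (rt (L' g)) * M (d g), ?_, ?_⟩
    · exact sum_mem fun g hg => mul_mem (F.algebraMap_mem _)
        (hf.mon_mem (hd g (Finsupp.mem_support_iff.1 hg)).1)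
    · rw [sum_pow_char, evL, Finsupp.sum]
      refine Finset.sum_congr rfl fun g hg => ?_
      obtain ⟨h5, h6⟩ := hd g (Finsupp.mem_support_iff.1 hg)
      rw [mul_pow, ← map_pow, hrt, ← hf.ms.pow h5 p, ← h6]
  by_cases hall : ∀ g, L g ≠ 0 → ∃ d ∈ G, g = p * d
  · obtain ⟨d, hd, h5⟩ := exists_bound h2
    refine ⟨w - evL M L, hf.sub_evL h h1 h2 h3, ?_, Or.inl h4, d, hd, ?_⟩
    · rw [sub_sub_cancel]
      exact key L h1 hall
    · rw [sub_sub_cancel]
      exact rg_evL h1 h5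
  · push Not at hall
    -- the first exponent which is not in `pG`
    set S : Finset ℝ := L.support.filter fun g => ¬ ∃ d ∈ G, g = p * d with hS
    obtain ⟨g₀, hg₀, hmin⟩ := S.exists_min_image id (by
      obtain ⟨g, hg, hg'⟩ := hall
      refine ⟨g, Finset.mem_filter.2 ⟨Finsupp.mem_support_iff.2 hg, ?_⟩⟩
      rintro ⟨d, hd, hd'⟩
      exact hg' d hd hd')
    obtain ⟨hg₁, hg₂⟩ := Finset.mem_filter.1 hg₀
    set L₁ := L.filter fun g => g < g₀ with hL₁
    set L₂ := L.filter fun g => ¬ g < g₀ with hL₂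
    have hL12 : evL M L = evL M L₁ + evL M L₂ := by
      rw [← TWM.evL_add, hL₁, hL₂, Finsupp.filter_add_filter_not]
    have hL₁G : InG G L₁ := fun g hg => h1 g (TWM.filter_ne hg).2
    have hL₂G : InG G L₂ := fun g hg => h1 g (TWM.filter_ne hg).2
    have hL₁p : ∀ g, L₁ g ≠ 0 → 0 < g := fun g hg => h2 g (TWM.filter_ne hg).2
    -- the value of the second part
    have hL₂0 : L₂ g₀ ≠ 0 := by
      rw [hL₂, Finsupp.filter_apply_pos (fun g => ¬ g < g₀) L (lt_irrefl g₀)]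
      exact Finsupp.mem_support_iff.1 hg₁
    obtain ⟨μ, hμ, hμmin, h5, h6⟩ := TWM.evL_lead h hf.ms hL₂G (fun h0 => hL₂0 (by
      rw [h0]; rfl))
    have hμg : μ = g₀ := le_antisymm (hμmin g₀ hL₂0) (not_lt.1 (TWM.filter_ne hμ).1)
    rw [hμg] at h6
    have hg₀G : g₀ ∈ G := h1 g₀ (Finsupp.mem_support_iff.1 hg₁)
    have hw1 : w - evL M L₁ = (w - evL M L) + evL M L₂ := by rw [hL12]; ring
    have h7 := sub_ne_zero.2 h3
    have hne : v (w - evL M L) ≠ g₀ := fun h0 => h4 (by rw [h0]; exact hg₀G)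
    have hval : w - evL M L₁ ≠ 0 ∧ (v (w - evL M L₁) ∉ G ∨ v (w - evL M L₁) = g₀) := by
      rcases lt_or_gt_of_ne hne with h8 | h8
      · have h9 := v.add_of_lt h7 h5 (by rw [h6]; exact h8)
        rw [← hw1] at h9
        exact ⟨h9.1, Or.inl (by rw [h9.2]; exact h4)⟩
      · have h9 := v.add_of_lt h5 h7 (by rw [h6]; exact h8)
        rw [add_comm, ← hw1] at h9
        exact ⟨h9.1, Or.inr (by rw [h9.2]; exact h6)⟩
    obtain ⟨d, hd, h8⟩ := exists_bound hL₁p
    refine ⟨w - evL M L₁, hf.sub_evL h hL₁G hL₁p (sub_ne_zero.1 hval.1), ?_, ?_, d, hd, ?_⟩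
    · rw [sub_sub_cancel]
      refine key L₁ hL₁G fun g hg => ?_
      by_contra hcon
      obtain ⟨h9, h10⟩ := TWM.filter_ne hg
      have h11 : g₀ ≤ g := hmin g (Finset.mem_filter.2 ⟨Finsupp.mem_support_iff.2 h10, hcon⟩)
      exact absurd h9 (not_lt.2 h11)
    · rcases hval.2 with h9 | h9
      · exact Or.inl h9
      · exact Or.inr ⟨by rw [h9]; exact hg₀G, by rw [h9]; exact hg₂⟩
    · rw [sub_sub_cancel]
      exact rg_evL hL₁G h8

/-! ### The steps -/

/-- `t ^ i` is a limit of polynomials in the new coordinate. -/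
theorem zpow_mem_of_coord (h : Ctx0 k v) {c : k} (hc : c ≠ 0) (ht1 : t ≠ 0) (ht0 : v t = 0)
    (ht : VPos v (t - algebraMap k Ω c)) {W : k[X]} (hW : W.eval c = 0)
    (hW' : (derivative W).eval c ≠ 0) {F' : IntermediateField k Ω} (hF' : Cld v F')
    (hw : aeval t W ∈ F') (i : ℤ) : t ^ i ∈ F' := by
  refine hF' ?_
  rw [mem_clI]
  intro B
  by_cases h1 : t - algebraMap k Ω c = 0
  · refine ⟨algebraMap k Ω c ^ i, zpow_mem (F'.algebraMap_mem c) i, ?_⟩
    rw [← sub_eq_zero.1 h1, sub_self]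
    exact RVal.Ge.zero
  · have hb : 0 < v (t - algebraMap k Ω c) := ht h1
    obtain ⟨N, hN⟩ := exists_nat_ge (B / v (t - algebraMap k Ω c))
    obtain ⟨R, hR⟩ := exists_apx hc hW hW' N i
    refine ⟨aeval (aeval t W) R, ?_, ?_⟩
    · rw [aeval_eq_sum_range]
      refine sum_mem fun l _ => ?_
      rw [Algebra.smul_def]
      exact mul_mem (F'.algebraMap_mem _) (pow_mem hw l)
    · have h2 := hR.ge (fun a => h.ge a) ht1 ht0 (b := v (t - algebraMap k Ω c))
        (RVal.ge_self _)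
      refine h2.mono ?_
      rwa [div_le_iff₀ hb] at hN

/-- The old frame in terms of the new coordinate. -/
theorem le_of_coord (h : Ctx0 k v) (hf : Frm v G M w F) (hT : TStep v G M w G' M' t m j) {c : k}
    (hc : c ≠ 0) (ht : VPos v (t - algebraMap k Ω c)) {W : k[X]} (hW : W.eval c = 0)
    (hW' : (derivative W).eval c ≠ 0) {F' : IntermediateField k Ω} (hF' : Cld v F')
    (hM : ∀ g ∈ G', M' g ∈ F') (hw : aeval t W ∈ F') : F ≤ F' := by
  have hti := zpow_mem_of_coord h hc hT.t_ne hT.t_val ht hW hW' hF' hw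
  refine hf.le_of hF' (fun g hg => ?_) ?_
  · have h1 := hT.mon g hg 0
    rw [zpow_zero, mul_one, Int.cast_zero, zero_mul, add_zero] at h1
    rw [h1]
    exact mul_mem (hM g (hT.le hg)) (hti _)
  · have h1 := hT.mon 0 G.zero_mem 1
    rw [hf.ms.zero, one_mul, zpow_one, Int.cast_one, one_mul, zero_add] at h1
    have h2 : M' (v w) * t ^ j 0 1 ∈ F' := mul_mem (hM _ hT.vw_mem) (hti _)
    rwa [← h1] at h2

/-- The new parameter is not zero if the value group of `F` is not finitely generated. -/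
theorem aeval_ne (h : Ctx0 k v) (hf : Frm v G M w F) (hn : NFG v F)
    (hT : TStep v G M w G' M' t m j) {c : k} (hc : c ≠ 0) (ht : VPos v (t - algebraMap k Ω c))
    {W : k[X]} (hW : W.eval c = 0) (hW' : (derivative W).eval c ≠ 0) : aeval t W ≠ 0 := by
  intro h0
  have hle : F ≤ LF h hT.ms' := hf.le_of_coord h hT hc ht hW hW' (TWM.LF_cld h hT.ms')
    (fun g hg => TWM.LF_mon h hT.ms' hg) (by rw [h0]; exact zero_mem _)
  exact hn G' hT.fg fun b hb hb0 =>
    (TWM.exists_term h hT.ms' (TWM.LF_dense h hT.ms') (hle hb) hb0).1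

/-- **The frame after a step**, for a general coordinate. -/
theorem step_coord (h : Ctx0 k v) (hf : Frm v G M w F) (hT : TStep v G M w G' M' t m j) {c : k}
    (hc : c ≠ 0) (ht : VPos v (t - algebraMap k Ω c)) {W : k[X]} (hW : W.eval c = 0)
    (hW' : (derivative W).eval c ≠ 0) (hne : aeval t W ≠ 0) : Frm v G' M' (aeval t W) F := by
  have ht0 := hT.t_val
  have htF : t ∈ F := by
    rw [hT.t_eq]
    exact mul_mem (pow_mem hf.w_mem _) (inv_mem (hf.mon_mem hT.mem))
  refine of_le hT.ms' hT.fg hne ?_ (fun f hf' hf0 => ?_) hf.cld (fun g hg => ?_) ?_ ?_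
  · -- the value
    obtain ⟨W₁, hW₁⟩ : X - C c ∣ W := dvd_iff_isRoot.2 hW
    have h1 : v.Ge 0 (aeval t W₁) := by
      rw [aeval_eq_sum_range]
      refine RVal.Ge.sum _ _ fun i _ => ?_
      rw [Algebra.smul_def]
      have h2 := (h.ge (W₁.coeff i)).mul (TWM.ge_pow (RVal.ge_self t) i)
      rwa [ht0, mul_zero, add_zero] at h2
    have h2 : aeval t W = (t - algebraMap k Ω c) * aeval t W₁ := by
      rw [hW₁, map_mul, map_sub, aeval_X, aeval_C]
    have h3 := Gt.mul_ge (v := v) (r := 0) (r' := 0) ht h1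
    rw [← h2, add_zero] at h3
    exact h3 hne
  · obtain ⟨n, hn, h1⟩ := hf.full f hf' hf0
    exact ⟨n, hn, hT.le h1⟩
  · obtain ⟨g₀, hg₀, n, -, -, h1⟩ := hT.gen hg 0
    rw [zpow_zero, mul_one] at h1
    rw [h1]
    exact mul_mem (hf.mon_mem hg₀) (zpow_mem hf.w_mem n)
  · rw [aeval_eq_sum_range]
    refine sum_mem fun l _ => ?_
    rw [Algebra.smul_def]
    exact mul_mem (F.algebraMap_mem _) (pow_mem htF l)
  · intro F' hF' hM hw
    exact hf.le_of_coord h hT hc ht hW hW' hF' hM hw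

/-- **The frame after a step**: the coordinate `t ^ e - c ^ e`. -/
theorem step (p : ℕ) [Fact p.Prime] [CharP k p] (h : Ctx0 k v) (hf : Frm v G M w F)
    (hn : NFG v F) (hT : TStep v G M w G' M' t m j) {c : k} (hc : c ≠ 0)
    (ht : VPos v (t - algebraMap k Ω c)) {e : ℕ} (he : ¬ p ∣ e) :
    t ^ e - algebraMap k Ω c ^ e ≠ 0 ∧ 0 < v (t ^ e - algebraMap k Ω c ^ e) ∧
      Frm v G' M' (t ^ e - algebraMap k Ω c ^ e) F := by
  have hW : (X ^ e - C (c ^ e) : k[X]).eval c = 0 := by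
    rw [eval_sub, eval_pow, eval_X, eval_C, sub_self]
  have hW' : (derivative (X ^ e - C (c ^ e) : k[X])).eval c ≠ 0 := by
    rw [derivative_sub, derivative_X_pow, derivative_C, sub_zero, eval_mul, eval_C, eval_pow,
      eval_X]
    refine mul_ne_zero (fun h0 => he ?_) (pow_ne_zero _ hc)
    exact (CharP.cast_eq_zero_iff k p e).1 h0
  have e1 : aeval t (X ^ e - C (c ^ e) : k[X]) = t ^ e - algebraMap k Ω c ^ e := by
    rw [map_sub, map_pow, aeval_X, aeval_C, map_pow]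
  have h1 := hf.aeval_ne h hn hT hc ht hW hW'
  have h2 := hf.step_coord h hT hc ht hW hW' h1
  rw [e1] at h1 h2
  exact ⟨h1, h2.wpos, h2⟩

/-- A step of the value group exists. -/
theorem exists_tstep (h : Ctx0 k v) (hf : Frm v G M w F) :
    ∃ (G' : AddSubgroup ℝ) (M' : ℝ → Ω) (t : Ω) (m : ℕ) (j : ℝ → ℤ → ℤ) (c : k),
      TStep v G M w G' M' t m j ∧ c ≠ 0 ∧ VPos v (t - algebraMap k Ω c) := by
  obtain ⟨G', M', t, m, j, hT⟩ := TWN.exists_tstep hf.ms hf.fg hf.wne (hf.full w hf.w_mem hf.wne)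
  obtain ⟨c, hc, h1⟩ := h.res t hT.t_ne hT.t_val
  exact ⟨G', M', t, m, j, c, hT, hc, h1⟩

end Frm

/-- A step from a parameter whose value is not in `G` is ramified. -/
theorem TStep.two_le (hT : TStep v G M w G' M' t m j) (hw : v w ∉ G) : 2 ≤ m := by
  have h1 := hT.mpos
  by_contra h2
  have h3 : m = 1 := by omega
  have h4 := hT.mem
  rw [h3, Nat.cast_one, one_mul] at h4
  exact hw h4

end Pool.Agent.TWN
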