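import Pool.Agent.Lib.TW_NFG.OG4

/-!
# NFG, `s = 2`: the case of transcendental type

* `tl_val`: `cadj v F z` and `F` have the same values;
* `nfg_of_tl`: `nfg_false` if `K` is the closure of `F(z)`, `z` of transcendental type over `F`.
-/

set_option autoImplicit false

open Polynomial

namespace Pool.Agent.TWN

open Pool.Agent.H15JM (RVal)
open Pool.Agent.D2 (Ctx0)
open Pool.Agent.TWM (MS TL cadj VG Cld Gt)

universe u

variable {k Ω : Type u} [Field k] [Field Ω] [Algebra k Ω] [IsAlgClosed Ω] {v : RVal Ω}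
  {G : AddSubgroup ℝ} {M : ℝ → Ω} {w : Ω} {F K : IntermediateField k Ω}
  {p q : ℕ} {a : Ω} {s D A₀ B : ℝ} {Z : Ω} {P : ℕ → ℝ →₀ k[X]} {lam : ℝ} {nA : ℕ}

/-- The values of the closure of `F(z)`. -/
theorem tl_val {z : Ω} (hz : TL v F z s) {f : Ω} (hf : f ∈ cadj v F z) (hf0 : f ≠ 0) :
    ∃ g ∈ F, g ≠ 0 ∧ v f = v g := by
  obtain ⟨g, hg, h1⟩ := hz.imm.imm f hf hf0
  obtain ⟨h2, h3⟩ := Gt.val_eq hf0 h1
  exact ⟨g, hg, h2, h3.symm⟩

/-- `K` is the closure of `F(z)`, `z` of transcendental type over `F`. -/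
theorem nfg_of_tl [IsAlgClosed k] [hp : Fact p.Prime] [CharP k p] [CharP Ω p] (h : Ctx0 k v)
    (hn : NFG v F) (hF : Cld v F) {z : Ω} {s₁ : ℝ} (hz : TL v F z s₁) (hK : K = cadj v F z)
    (hq : 0 < q) (hpq : p ∣ q)
    (hr : Rp p q v F K a s D A₀ (EC k v G M w Z (wM B A₀ (v w))) G M w Z P lam nA)
    (hB : D + q * s ≤ B) (hog : OG p q v K a) : False := by
  subst hK
  refine nfg_false h hn hq hpq hr hB hog (fun f hf hf0 => ?_) (fun f hf m hm h1 => ?_)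
  · obtain ⟨g, hg, hg0, h1⟩ := tl_val hz hf hf0
    exact ⟨g, hg, hg0, 1, one_pos, by rw [Nat.cast_one, one_mul, h1]⟩
  · refine hz.alg_mem p hF hf (IsAlgebraic.of_pow hm ?_)
    exact isAlgebraic_algebraMap (R := F) (⟨f ^ m, h1⟩ : F)

end Pool.Agent.TWN
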