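import Pool.Agent.Lib.TW_NFG.P3d
import Pool.Agent.Lib.TWJ.Defs
import Pool.Agent.Lib.TWM.B1
import Pool.Agent.Lib.TWM.Roots

/-!
# NFG, row P3: the initial representation

`Rp.of_seed`: a seed (the normal form of a state of minimal index) has a representation `Rp` at a
deep frame, with an error of the class `wM`.
-/

set_option autoImplicit false

open Polynomial

namespace Pool.Agent.TWN

open Pool.Agent.H15JM (RVal)
open Pool.Agent.LU1 (adj)
open Pool.Agent.D2 (Ctx0)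
open Pool.Agent.D2P (clI mem_clI)
open Pool.Agent.TW (Ctx Fr)
open Pool.Agent.TWJ (Seed Dst)
open Pool.Agent.TWM (MS TL cadj VG Cld Gt PI)

universe u

variable {k Ω : Type u} [Field k] [Field Ω] [Algebra k Ω] {v : RVal Ω} {G : AddSubgroup ℝ}
  {M : ℝ → Ω} {w Z : Ω} {F K : IntermediateField k Ω}

/-! ### Errors -/

/-- A Laurent polynomial of large content is an error. -/
theorem ec_of_ct (hw : 0 < v w) {B A₀ ν : ℝ} {P : ℝ →₀ k[X]} (hP : InP G P) (hct : Ct ν P) {i : ℕ}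
    (hν : B ≤ ν + i * A₀) : evP M w P * Z ^ i ∈ EC k v G M w Z (wM B A₀ (v w)) := by
  refine EC.single hP fun x hx => ?_
  have h1 := hct.terms hx
  have h2 : (0 : ℝ) ≤ x.2 * v w := mul_nonneg (Nat.cast_nonneg _) hw.le
  show B ≤ x.1 + x.2 * v w + i * A₀
  linarith

/-- A series is a Laurent polynomial up to an error. -/
theorem Ser.ec {ν : ℝ} {f : Ω} (hf : Ser k v G M w ν f) (B A₀ : ℝ) (i : ℕ) :
    ∃ P : ℝ →₀ k[X], InP G P ∧ Ct ν P ∧
      (f - evP M w P) * Z ^ i ∈ EC k v G M w Z (wM B A₀ (v w)) := by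
  obtain ⟨P, h1, h2, h3⟩ := hf (B - i * A₀)
  refine ⟨P, h1, h2, EC.lim fun C => ?_⟩
  obtain ⟨Q, h4, h5, h6⟩ := h3 (C - i * v Z)
  refine ⟨evP M w Q * Z ^ i, EC.single h4 fun x hx => ?_, ?_⟩
  · have h7 := h5 x hx
    unfold vm at h7
    show B ≤ x.1 + x.2 * v w + i * A₀
    linarith
  · rw [← sub_mul]
    refine (h6.mul (TWM.ge_pow (RVal.ge_self Z) i)).mono ?_
    linarith

/-! ### Polynomials -/

theorem derivative_taylor' (θ : Ω) (f : Polynomial Ω) : derivative (taylor θ f) = taylor θ (derivative f) := by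
  rw [taylor_apply, taylor_apply, derivative_comp, derivative_add, derivative_X, derivative_C,
    add_zero, one_mul]

theorem coeff_pow_ite' {p : ℕ} [hp : Fact p.Prime] [CharP Ω p] (g : Polynomial Ω) (n : ℕ) :
    (g ^ p).coeff n = if p ∣ n then g.coeff (n / p) ^ p else 0 := by
  rw [← map_frobenius_expand, coeff_map, coeff_expand hp.out.pos]
  split_ifs
  · rfl
  · rw [map_zero]

/-- The Taylor coefficients near `z` of the indices `≥ 2` prime to `p` are small. -/
theorem prime_bound [IsAlgClosed Ω] (p : ℕ) [hp : Fact p.Prime] [CharP Ω p] {z : Ω} {s : ℝ}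
    (hz : TL v F z s) {A : Polynomial Ω} (hA : A ∈ PI F) :
    ∃ b < s, ∃ δ > 0, ∀ ψ, v.Ge (s - δ) (z - ψ) → ∀ i, 2 ≤ i → ¬ p ∣ i →
      (taylor ψ A).coeff i = 0 ∨ ((taylor ψ A).coeff 1 ≠ 0 ∧
        v.Ge (v ((taylor ψ A).coeff 1) - ((i : ℝ) - 1) * b) ((taylor ψ A).coeff i)) := by
  classical
  set A' := derivative A with hA'
  have hA'm : A' ∈ PI F := fun i => by
    rw [hA', coeff_derivative]
    exact mul_mem (hA _) (add_mem (natCast_mem _ _) (one_mem _))
  have hcoe : ∀ ψ i, 2 ≤ i → (taylor ψ A').coeff (i - 1) = (taylor ψ A).coeff i * i := by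
    intro ψ i hi
    rw [hA', ← derivative_taylor', coeff_derivative, show i - 1 + 1 = i by omega]
    congr 1
    rw [← Nat.cast_succ, Nat.succ_eq_add_one, show i - 1 + 1 = i by omega]
  by_cases h0 : A' = 0
  · refine ⟨s - 1, by linarith, 1, one_pos, fun ψ _ i hi hpi => Or.inl ?_⟩
    have h1 := hcoe ψ i hi
    rw [h0, map_zero, coeff_zero] at h1
    have h4 : (i : Ω) ≠ 0 := fun h4 => hpi ((CharP.cast_eq_zero_iff Ω p i).1 h4)
    exact (mul_eq_zero.1 h1.symm).resolve_right h4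
  · -- the zeros of the derivative
    have hroot : ∀ ζ ∈ A'.roots, z ≠ ζ ∧ v (z - ζ) < s := fun ζ hζ =>
      hz.far ζ (TWM.isAlgebraic_root hA'm h0 ((mem_roots h0).1 hζ))
    obtain ⟨b, hb, hbr⟩ : ∃ b < s, ∀ ζ ∈ A'.roots.toFinset, v (z - ζ) ≤ b := by
      by_cases hne : A'.roots.toFinset.Nonempty
      · obtain ⟨ζ, hζ, hmax⟩ := A'.roots.toFinset.exists_max_image (fun ζ => v (z - ζ)) hne
        exact ⟨v (z - ζ), (hroot ζ (Multiset.mem_toFinset.1 hζ)).2, hmax⟩
      · exact ⟨s - 1, by linarith, fun ζ hζ => absurd ⟨ζ, hζ⟩ hne⟩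
    refine ⟨b, hb, (s - b) / 2, by linarith, fun ψ hψ i hi hpi => Or.inr ?_⟩
    have hψb : Gt v b (z - ψ) := Gt.of_ge hψ (by linarith)
    have h3 : ∀ ζ, A'.IsRoot ζ → ψ ≠ ζ ∧ v (ψ - ζ) ≤ b := by
      intro ζ hζ
      have hζ' := (mem_roots h0).2 hζ
      have h4 := hbr ζ (Multiset.mem_toFinset.2 hζ')
      have h5 : z - ζ ≠ 0 := sub_ne_zero.2 (hroot ζ hζ').1
      have h6 : Gt v (v (z - ζ)) (z - ζ - (ψ - ζ)) := by
        rw [show z - ζ - (ψ - ζ) = z - ψ by ring]
        exact hψb.mono h4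
      obtain ⟨h7, h8⟩ := h6.val_eq h5
      exact ⟨sub_ne_zero.1 h7, by rw [h8]; exact h4⟩
    have hne : A'.eval ψ ≠ 0 := fun h4 => (h3 ψ h4).1 rfl
    have h4 := TWM.Roots.taylor_ge h0 h3 (i - 1)
    rw [taylor_coeff_one, ← hA']
    refine ⟨hne, fun h6 => ?_⟩
    rw [hcoe ψ i hi] at h4
    have h7 : (i : Ω) ≠ 0 := fun h7 => hpi ((CharP.cast_eq_zero_iff Ω p i).1 h7)
    have h8 := h4 (mul_ne_zero h6 h7)
    rw [v.map_mul h6 h7, (TWM.val_natCast p hpi).2, add_zero] at h8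
    have h9 : ((i - 1 : ℕ) : ℝ) = (i : ℝ) - 1 := by
      rw [Nat.cast_sub (by omega), Nat.cast_one]
    rw [h9] at h8
    exact h8

/-! ### The closure -/

theorem far_closure {z : Ω} {s : ℝ} (hz : TL v F z s) {f : Ω} (hf : f ∈ clI v F) :
    z ≠ f ∧ v (z - f) < s := by
  obtain ⟨f', hf', h1⟩ := (mem_clI.1 hf) s
  have h2 := hz.far f' (isAlgebraic_algebraMap (R := F) (⟨f', hf'⟩ : F))
  have h3 : ¬ v.Ge s (z - f) := by
    intro h3
    have h4 := h3.add h1
    rw [sub_add_sub_cancel] at h4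
    exact absurd (h4 (sub_ne_zero.2 h2.1)) (not_le.2 h2.2)
  constructor
  · rintro rfl
    exact h3 (by rw [sub_self]; exact RVal.Ge.zero)
  · by_contra h4
    exact h3 fun _ => not_lt.1 h4

theorem cadj_clI (F : IntermediateField k Ω) (z : Ω) : cadj v (clI v F) z = clI v (adj F z) := by
  apply le_antisymm
  · refine TWM.cadj_le (TWM.cld_clI v _) (TWM.clI_mono fun a ha => ?_) (TWM.self_mem_cadj v F z)
    exact (Pool.Agent.D2P.mem_adj_self F z).2 ha
  · exact TWM.cadj_le (A := F) (TWM.cld_cadj v _ z)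
      (fun a ha => TWM.le_cadj v _ z (TWM.le_clI F ha)) (TWM.self_mem_cadj v _ z)

/-! ### The seed -/

/-- The generators of the field of a frame are Laurent polynomials. -/
theorem base_LR {r : ℕ} (h : Ctx k v r) (R : Fr k v r 1) :
    ∀ x ∈ Set.range R.x ∪ Set.range R.y, x ∈ LR k (frm_base h R).ms (R.y 0) := by
  rintro _ (⟨i, rfl⟩ | ⟨i, rfl⟩)
  · refine ⟨v (R.x i), ?_⟩
    have h1 := Rg.term (k := k) (M := TWM.MM v R.x) (w := R.y 0) (TWM.vx_mem (v := v) R.x i) 1
    rwa [map_one, mul_one, TWM.MM_x R.x_ind i] at h1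
  · rw [Subsingleton.elim i 0]
    refine ⟨0, ?_⟩
    have h1 := Rg.aeval (w := R.y 0) (frm_base h R).ms (X : k[X])
    rwa [aeval_X] at h1

/-- The `p`-th powers of the closure are as far as the ones of `F`. -/
theorem dst_closure {p : ℕ} [hp : Fact p.Prime] [CharP Ω p] {Dq η : ℝ} {f : Ω}
    (hd : Dst p v F Dq f) (hη : 0 < η) {g : Ω} (hg : g ∈ clI v F) :
    ¬ v.Ge (Dq + η) (f - g ^ p) := by
  intro h1
  have hp0 : (0 : ℝ) < p := by exact_mod_cast hp.out.pos
  obtain ⟨g', hg', h2⟩ := (mem_clI.1 hg) ((Dq + η) / p)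
  refine hd.hi η hη g' hg' ?_
  have h3 := TWM.ge_pow h2 p
  rw [mul_div_cancel₀ _ hp0.ne', sub_pow_char] at h3
  have h4 := h1.add h3
  rwa [sub_add_sub_cancel] at h4

/-- **Row P3.** -/
theorem Rp.of_seed [IsAlgClosed k] [IsAlgClosed Ω] {p : ℕ} [hp : Fact p.Prime] [CharP k p]
    [CharP Ω p] {r : ℕ} (h : Ctx k v r) {a : Ω} {q : ℕ} (hq : 0 < q) (hpq : p ∣ q) {z : Ω}
    {s Dq e₀ c₀ : ℝ} {A : Polynomial Ω} (hs : Seed p v r 1 K a q F z s Dq e₀ c₀ A)
    (hn : NFG v (clI v F)) :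
    ∃ (D A₀ : ℝ) (G : AddSubgroup ℝ) (M : ℝ → Ω) (w Z : Ω) (P : ℕ → ℝ →₀ k[X]) (lam : ℝ) (nA : ℕ),
      Rp p q v (clI v F) K (A.eval z) s D A₀ (EC k v G M w Z (wM (D + q * s) A₀ (v w)))
        G M w Z P lam nA := by
  classical
  obtain ⟨R, hR⟩ := hs.rat
  have h0 := h.toCtx0
  have hp2 := hp.out.two_le
  have hq2 : 2 ≤ q := hp2.trans (Nat.le_of_dvd hq hpq)
  set n := A.natDegree with hn'
  -- the constants
  obtain ⟨b, hb, δ, hδ, hprime⟩ := prime_bound p hs.ty hs.mem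
  obtain ⟨η, hη, h1, h2, h3, h4⟩ : ∃ η > 0, η ≤ s - c₀ ∧ (2 * (n : ℝ) + 1) * η ≤ e₀ ∧
      ((q : ℝ) + 4) * η ≤ s - b ∧ η ≤ δ := by
    have hn0 : (0 : ℝ) < 2 * n + 1 := by positivity
    have hq0 : (0 : ℝ) < q + 4 := by positivity
    refine ⟨min (min (s - c₀) (e₀ / (2 * n + 1))) (min ((s - b) / (q + 4)) δ), ?_, ?_, ?_, ?_, ?_⟩
    · exact lt_min (lt_min (sub_pos.2 hs.lt) (div_pos hs.pos hn0))
        (lt_min (div_pos (sub_pos.2 hb) hq0) hδ)
    · exact (min_le_left _ _).trans (min_le_left _ _)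
    · have h5 := (min_le_left (min (s - c₀) (e₀ / (2 * n + 1)))
        (min ((s - b) / (q + 4)) δ)).trans (min_le_right _ _)
      rw [le_div_iff₀ hn0] at h5
      linarith
    · have h5 := (min_le_right (min (s - c₀) (e₀ / (2 * n + 1)))
        (min ((s - b) / (q + 4)) δ)).trans (min_le_left _ _)
      rw [le_div_iff₀ hq0] at h5
      linarith
    · exact (min_le_right _ _).trans (min_le_right _ _)
  -- the centre
  obtain ⟨ψ, hψ, hψs⟩ := hs.ty.lim (η / 2) (half_pos hη)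
  have hψc := far_closure hs.ty (TWM.le_clI F hψ)
  have hZ0 : z - ψ ≠ 0 := sub_ne_zero.2 hψc.1
  have hvZ := hψs hZ0
  set Z := z - ψ with hZ
  set T := taylor ψ A with hT
  have hTm : T ∈ PI F := TWM.taylor_mem_PI hs.mem hψ
  have hTn : T.natDegree = n := natDegree_taylor A ψ
  have hc₀ : v.Ge c₀ (z - ψ) := hψs.mono (by linarith)
  set c := s - η with hc
  obtain ⟨e, he, g, hg, -, hlow⟩ := hs.low ψ hψ c (by linarith) (by rw [← hZ]; linarith)
  have hhigh := hs.high ψ hψ hc₀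
  have hmid := hs.mid ψ hψ hc₀
  rw [← hT] at hlow hhigh hmid
  set A₀ := s - 2 * η with hA₀
  set D := Dq + η with hD
  have hF := TWM.le_clI (v := v) F
  -- the elements
  set f : ℕ → Ω := fun i => if i < q then (T - g ^ p).coeff i else T.coeff i with hf
  have hfF : ∀ i, f i ∈ F := fun i => by
    rw [hf]
    dsimp only
    split_ifs
    · exact (sub_mem hTm (pow_mem hg p)) i
    · exact hTm i
  have hflow : ∀ i < q, v.Ge (Dq + ((q : ℝ) - i) * c) (f i) := by
    intro i hi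
    have h5 := hlow i hi
    rw [hf]
    dsimp only
    rw [if_pos hi]
    exact h5.mono (by linarith)
  have hfhigh : ∀ i, q < i → i ≤ n → v.Ge (D + q * s - i * A₀) (f i) := by
    intro i hi hin
    rw [hf]
    dsimp only
    rw [if_neg (by omega)]
    refine (hhigh i hi).mono ?_
    have h5 : (i : ℝ) ≤ n := by exact_mod_cast hin
    rw [hD, hA₀]
    nlinarith
  have hfprime : ∀ i, 2 ≤ i → ¬ p ∣ i → v.Ge (D + q * s - i * A₀) (f i) := by
    intro i hi hpi
    have h5 : f i = T.coeff i := by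
      rw [hf]
      dsimp only
      split_ifs
      · rw [coeff_sub, coeff_pow_ite', if_neg hpi, sub_zero]
      · rfl
    rw [h5]
    rcases hprime ψ (hψs.mono (by linarith)) i hi hpi with h6 | ⟨h6, h7⟩
    · rw [← hT] at h6
      rw [h6]
      exact RVal.Ge.zero
    · rw [← hT] at h6 h7
      refine h7.mono ?_
      have h8 := hlow 1 (by omega)
      rw [coeff_sub, coeff_pow_ite', if_neg (fun h9 => by
        have := Nat.le_of_dvd one_pos h9
        omega), sub_zero] at h8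
      have h9 := h8 h6
      have h10 : (2 : ℝ) ≤ i := by exact_mod_cast hi
      have h11 : (0 : ℝ) ≤ q := Nat.cast_nonneg q
      rw [Nat.cast_one] at h9
      have h12 : ((i : ℝ) - 1) * ((q + 4) * η) ≤ ((i : ℝ) - 1) * (s - b) :=
        mul_le_mul_of_nonneg_left h3 (by linarith)
      have h13 : 0 ≤ ((i : ℝ) - 2) * (q * η) := mul_nonneg (by linarith) (mul_nonneg h11 hη.le)
      have h14 : 0 ≤ ((i : ℝ) - 2) * η := mul_nonneg (by linarith) hη.le
      rw [hD, hA₀]
      rw [hc] at h9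
      nlinarith
  -- the deep frame
  have hdst : ∀ g' ∈ clI v F, ¬ v.Ge D (T.coeff q - g' ^ p) := fun g' hg' =>
    dst_closure hmid hη hg'
  obtain ⟨G, M₁, w₁, hf₁, u₁, hu₁, hu₁0, hu₁v, htr, htrq⟩ : ∃ (G : AddSubgroup ℝ) (M₁ : ℝ → Ω)
      (w₁ : Ω), Frm v G M₁ w₁ (clI v F) ∧ ∃ u₁ ∈ clI v F, u₁ ≠ 0 ∧ v u₁ = 0 ∧
        (∀ x ∈ ((Finset.range (n + 1)).image f).filter (fun x => x ≠ 0),
          Tr k G M₁ w₁ (u₁ ^ p * x) 0) ∧
        TrQ p (clI v F) G M₁ w₁ (u₁ ^ p * T.coeff q) fun μ e' =>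
          ((∃ d ∈ G, μ = p * d) ∧ e' = 1) ∨ ((¬ ∃ d ∈ G, μ = p * d) ∧ e' = 0) := by
    subst hR
    refine deep_frame p h0 (frm_base h R) hn (base_LR h R) _ (fun x hx => ?_) (hTm q)
      (fun g' hg' h5 => hdst g' hg' (by
        rw [h5, sub_self]
        exact RVal.Ge.zero))
    obtain ⟨hx1, hx2⟩ := Finset.mem_filter.1 hx
    obtain ⟨i, -, rfl⟩ := Finset.mem_image.1 hx1
    exact ⟨hfF i, hx2⟩
  -- the exact frame
  obtain ⟨M, w, lam, nA, hfr, htyp, u₂, hu₂, hu₂0, hu₂v, ⟨gq, hgq, htop⟩, hser⟩ :=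
    exact_frame p h0 hf₁ hn htrq
  set u := u₂ * u₁ with hu
  have huF : u ∈ clI v F := mul_mem hu₂ hu₁
  have hu0 : u ≠ 0 := mul_ne_zero hu₂0 hu₁0
  have huv : v u = 0 := by rw [hu, v.map_mul hu₂0 hu₁0, hu₂v, hu₁v, add_zero]
  have hup : ∀ x, u ^ p * x = u₂ ^ p * (u₁ ^ p * x) := fun x => by rw [hu]; ring
  clear_value u
  set Er := EC k v G M w Z (wM (D + q * s) A₀ (v w)) with hEr
  have hw := hfr.wpos
  have key : ∀ i, ∃ P : ℝ →₀ k[X], i ≤ n → InP G P ∧ (∀ L, v.Ge L (f i) → Ct L P) ∧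
      (u ^ p * f i - evP M w P) * Z ^ i ∈ Er := by
    intro i
    by_cases hi : i ≤ n
    · by_cases hfi : f i = 0
      · refine ⟨0, fun _ => ⟨InP.zero, fun L _ => Ct.zero, ?_⟩⟩
        rw [hfi, mul_zero, evP_zero, sub_zero, zero_mul]
        exact zero_mem _
      · have h5 := htr (f i) (Finset.mem_filter.2 ⟨Finset.mem_image.2
          ⟨i, Finset.mem_range.2 (by omega), rfl⟩, hfi⟩)
        obtain ⟨h6, h7, f₀, h8, -⟩ := h5.val h0 hf₁.ms hf₁.wpos
        obtain ⟨P, h9, h10, h11⟩ := (hser _ h7 _ h8.rg).ec (Z := Z) (D + q * s) A₀ i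
        have h12 : v (u₁ ^ p * f i) = v (f i) := by
          rw [v.map_mul (pow_ne_zero _ hu₁0) hfi, v.map_pow hu₁0, hu₁v, mul_zero, zero_add]
        rw [h12] at h10
        refine ⟨P, fun _ => ⟨h9, fun L hL => h10.mono (hL hfi), ?_⟩⟩
        rw [hup]
        exact h11
    · exact ⟨0, fun h => absurd h hi⟩
  choose P hP using key
  -- all the error terms
  have hqn : q ≤ n := by
    by_contra h5
    refine hdst 0 (zero_mem _) ?_
    rw [zero_pow hp.out.ne_zero, sub_zero, coeff_eq_zero_of_natDegree_lt (by rw [hTn]; omega)]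
    exact RVal.Ge.zero
  have herr : ∀ i ≤ n, v.Ge (D + q * s - i * A₀) (f i) → u ^ p * f i * Z ^ i ∈ Er := by
    intro i hi h5
    obtain ⟨h6, h7, h8⟩ := hP i hi
    have h9 := ec_of_ct (k := k) (v := v) (M := M) (Z := Z) (A₀ := A₀) (B := D + q * s) hw h6
      (h7 _ h5) (i := i) (by linarith)
    have h10 := add_mem h8 h9
    rwa [← add_mul, sub_add_cancel] at h10
  -- the removal of the `p`-th powers
  have hrm : ∀ i, ∃ Q : ℝ →₀ k[X], InP G Q ∧
      evP M w (P i) = evP M w Q ^ p + evP M w (rst {x | ¬ PD p G x} (P i)) := fun i => by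
    obtain ⟨Q, h5, h6, -⟩ := exists_rm (w := w) p hfr.ms (P i)
    exact ⟨Q, h5, h6⟩
  choose Q hQ hQe using hrm
  set P' : ℕ → ℝ →₀ k[X] := fun i => if p ∣ i then rst {x | ¬ PD p G x} (P i) else
    if i = 1 then P i else 0 with hP'
  have hP'p : ∀ i, p ∣ i → P' i = rst {x | ¬ PD p G x} (P i) := fun i hi => by
    rw [hP']
    dsimp only
    rw [if_pos hi]
  have hP'1 : ∀ i, ¬ p ∣ i → i = 1 → P' i = P i := fun i hi hi1 => by
    rw [hP']
    dsimp only
    rw [if_neg hi, if_pos hi1]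
  have hP'0 : ∀ i, ¬ p ∣ i → i ≠ 1 → P' i = 0 := fun i hi hi1 => by
    rw [hP']
    dsimp only
    rw [if_neg hi, if_neg hi1]
  have hP'ct : ∀ i ≤ n, ∀ L, v.Ge L (f i) → Ct L (P' i) := fun i hi L hL => by
    by_cases h5 : p ∣ i
    · rw [hP'p i h5]
      exact ((hP i hi).2.1 L hL).rst _
    · by_cases h6 : i = 1
      · rw [hP'1 i h5 h6]
        exact (hP i hi).2.1 L hL
      · rw [hP'0 i h5 h6]
        exact Ct.zero
  refine ⟨D, A₀, G, M, w, Z, P', lam, nA, hfr, fun x hx => ?_, by linarith, ?_, htyp,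
    fun i hi => ?_, fun i hi hpi => ?_, fun i hi hix => ?_, fun i hi => ?_, ?_, fun x hx => ?_⟩
  · -- far
    have h5 := far_closure hs.ty (add_mem hx (hF hψ))
    constructor
    · intro h6
      exact h5.1 (by rw [← h6, hZ]; ring)
    · rw [show Z - x = z - (x + ψ) by rw [hZ]; ring]
      exact h5.2
  · -- gen
    rw [hZ, TWM.cadj_sub_mem (hF hψ), cadj_clI, hs.cl]
  · -- inP
    by_cases h5 : p ∣ i
    · rw [hP'p i h5]
      exact (hP i (by omega)).1.rst _
    · by_cases h6 : i = 1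
      · rw [hP'1 i h5 h6]
        exact (hP i (by omega)).1
      · rw [hP'0 i h5 h6]
        exact InP.zero
  · -- npd
    rw [hP'p i hpi]
    exact npd_rst p _
  · -- ix
    unfold Ix at hix
    push Not at hix
    exact hP'0 i hix.1 hix.2
  · -- low
    refine (hP'ct i (by omega) _ (hflow i hi)).mono ?_
    have h5 : (i : ℝ) + 1 ≤ q := by exact_mod_cast hi
    rw [hD, hA₀, hc]
    nlinarith
  · -- rep
    have hFK : clI v F ≤ K := by
      rw [hs.cl, ← cadj_clI]
      exact TWM.le_cadj v _ z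
    have hZK : Z ∈ K := by
      rw [hZ]
      refine sub_mem ?_ (hFK (hF hψ))
      rw [hs.cl]
      exact TWM.self_mem_cadj v F z
    -- the lower part
    obtain ⟨g₁, hg₁, hlo⟩ := absorb p (K := K) (Z := Z) (q := q) (Er := Er) hFK hZK
      (e := fun i => u ^ p * T.coeff i) (e' := fun i => evP M w (P' i))
      (g := fun i => u * g.coeff (i / p) + evP M w (Q i))
      (fun i _ => add_mem (mul_mem huF (hF (hg _))) (hfr.evP_mem (hQ i))) (fun i hi => by
        obtain ⟨h5, h6, h7⟩ := hP i (by omega)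
        by_cases hpi : p ∣ i
        · rw [if_pos hpi, hP'p i hpi, add_pow_char, mul_pow]
          have h8 : f i = T.coeff i - g.coeff (i / p) ^ p := by
            rw [hf]
            dsimp only
            rw [if_pos hi, coeff_sub, coeff_pow_ite', if_pos hpi]
          have h9 : u ^ p * T.coeff i - (u ^ p * g.coeff (i / p) ^ p + evP M w (Q i) ^ p +
              evP M w (rst {x | ¬ PD p G x} (P i))) = u ^ p * f i - evP M w (P i) := by
            rw [h8, hQe i]
            ring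
          rw [h9]
          exact h7
        · have h8 : f i = T.coeff i := by
            rw [hf]
            dsimp only
            rw [if_pos hi, coeff_sub, coeff_pow_ite', if_neg hpi, sub_zero]
          rw [if_neg hpi, zero_add]
          by_cases h9 : i = 1
          · rw [hP'1 i hpi h9, ← h8]
            exact h7
          · rw [hP'0 i hpi h9, evP_zero, sub_zero, ← h8]
            have h10 : i ≠ 0 := fun h10 => hpi (h10 ▸ dvd_zero p)
            exact herr i (by omega) (hfprime i (by omega) hpi))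
    obtain ⟨q', hq'⟩ := hpq
    refine ⟨u, huF, hu0, huv, g₁ + gq * Z ^ q', add_mem hg₁ (mul_mem (hFK hgq) (pow_mem hZK _)),
      ?_⟩
    -- the upper part
    have hhi : ∑ i ∈ Finset.Ico (q + 1) (n + 1), u ^ p * T.coeff i * Z ^ i ∈ Er := by
      refine AddSubgroup.sum_mem _ fun i hi => ?_
      obtain ⟨h5, h6⟩ := Finset.mem_Ico.1 hi
      have h7 : f i = T.coeff i := by
        rw [hf]
        dsimp only
        rw [if_neg (by omega)]
      rw [← h7]
      exact herr i (by omega) (hfhigh i (by omega) (by omega))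
    have hA : A.eval z * u ^ p = ∑ i ∈ Finset.range q, u ^ p * T.coeff i * Z ^ i +
        u ^ p * T.coeff q * Z ^ q + ∑ i ∈ Finset.Ico (q + 1) (n + 1), u ^ p * T.coeff i * Z ^ i := by
      have h5 : A.eval z = T.eval Z := by
        rw [hT, hZ, taylor_eval, sub_add_cancel]
      rw [h5, eval_eq_sum_range, hTn, ← Finset.sum_range_succ (fun i => u ^ p * T.coeff i * Z ^ i),
        Finset.sum_range_add_sum_Ico _ (by omega), Finset.sum_mul]
      exact Finset.sum_congr rfl fun i _ => by ring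
    have htop' : u ^ p * T.coeff q * Z ^ q = (gq * Z ^ q') ^ p + M lam * w ^ nA * Z ^ q := by
      rw [hup, htop, mul_pow, ← pow_mul, mul_comm q' p, ← hq']
      ring
    have h5 := add_mem hlo hhi
    have h6 : A.eval z * u ^ p - ((g₁ + gq * Z ^ q') ^ p +
        ∑ i ∈ Finset.range q, evP M w (P' i) * Z ^ i + M lam * w ^ nA * Z ^ q) =
        ∑ i ∈ Finset.range q, u ^ p * T.coeff i * Z ^ i -
          (g₁ ^ p + ∑ i ∈ Finset.range q, evP M w (P' i) * Z ^ i) +
          ∑ i ∈ Finset.Ico (q + 1) (n + 1), u ^ p * T.coeff i * Z ^ i := by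
      rw [hA, htop', add_pow_char]
      ring
    rw [h6]
    exact h5
  · -- dq
    intro h5
    have h6 : M lam * w ^ nA - x ^ p = u ^ p * (T.coeff q - ((gq + x) / u) ^ p) := by
      rw [div_pow, mul_sub, mul_div_cancel₀ _ (pow_ne_zero _ hu0), hup, htop, add_pow_char]
      ring
    rw [h6] at h5
    refine hdst ((gq + x) / u) (div_mem (add_mem hgq hx) huF) fun h7 => ?_
    have h8 := h5 (mul_ne_zero (pow_ne_zero _ hu0) h7)
    rwa [v.map_mul (pow_ne_zero _ hu0) h7, v.map_pow hu0, huv, mul_zero, zero_add] at h8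

end Pool.Agent.TWN
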