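import Pool.Agent.Lib.TW_NFG.ST

/-!
# NFG, `s = 2`: the parameters

`exists_prm`: `q = τ + Q`, `Q` the power of `p` which divides `q` exactly.
-/

set_option autoImplicit false

namespace Pool.Agent.TWN

theorem choose_modEq {p : ℕ} (hp : p.Prime) (q' j : ℕ) :
    (p ^ j * q').choose (p ^ j) ≡ q' [MOD p] := by
  haveI : Fact p.Prime := ⟨hp⟩
  induction j with
  | zero => rw [pow_zero, one_mul, Nat.choose_one_right]
  | succ j ih =>
    have h1 := Choose.choose_modEq_choose_mod_mul_choose_div_nat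
      (n := p ^ (j + 1) * q') (k := p ^ (j + 1)) (p := p)
    have h2 : p ^ (j + 1) * q' % p = 0 := by
      rw [pow_succ, mul_comm (p ^ j) p, mul_assoc]
      exact Nat.mul_mod_right _ _
    have h3 : p ^ (j + 1) % p = 0 := by
      rw [pow_succ]
      exact Nat.mul_mod_left _ _
    have h4 : p ^ (j + 1) * q' / p = p ^ j * q' := by
      rw [pow_succ, mul_comm (p ^ j) p, mul_assoc]
      exact Nat.mul_div_cancel_left _ hp.pos
    have h5 : p ^ (j + 1) / p = p ^ j := by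
      rw [pow_succ]
      exact Nat.mul_div_cancel _ hp.pos
    rw [h2, h3, h4, h5, Nat.choose_self, one_mul] at h1
    exact h1.trans ih

theorem exists_prm {p q : ℕ} (hp : p.Prime) (hq : 0 < q) (hpq : p ∣ q) :
    ∃ τ j₀ : ℕ, 1 ≤ j₀ ∧ Prm p q τ (p ^ j₀) := by
  obtain ⟨j₀, q', hq', hqq⟩ := Nat.exists_eq_pow_mul_and_not_dvd hq.ne' p hp.ne_one
  have hj : 1 ≤ j₀ := by
    rcases Nat.eq_zero_or_pos j₀ with h | h
    · rw [h, pow_zero, one_mul] at hqq
      exact absurd (hqq ▸ hpq) hq'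
    · exact h
  have hq0 : 0 < q' := by
    rcases Nat.eq_zero_or_pos q' with h | h
    · exact absurd (h ▸ dvd_zero p) hq'
    · exact h
  have hQq : p ^ j₀ ≤ q := by
    rw [hqq]
    exact Nat.le_mul_of_pos_right _ hq0
  have hpQ : p ∣ p ^ j₀ := dvd_pow_self p (by omega)
  have hQ0 : 0 < p ^ j₀ := pow_pos hp.pos _
  refine ⟨q - p ^ j₀, j₀, hj, hp, by omega, hpQ,
    hp.two_le.trans (Nat.le_of_dvd hQ0 hpQ), hpq, ⟨by omega, fun h => ?_⟩, ?_⟩
  · have h1 := choose_modEq hp q' j₀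
    rw [← hqq] at h1
    rw [Nat.choose_symm hQq] at h
    exact hq' ((Nat.modEq_zero_iff_dvd).1 (h1.symm.trans ((Nat.modEq_zero_iff_dvd).2 h)))
  · rintro i h1 h2 ⟨-, h3⟩
    set r := q - i with hr
    have hri : i = q - r := by omega
    rw [hri, Nat.choose_symm (by omega)] at h3
    obtain ⟨q₁, hq₁⟩ : ∃ q₁, q = q₁ + 1 := ⟨q - 1, by omega⟩
    obtain ⟨r₁, hr₁⟩ : ∃ r₁, r = r₁ + 1 := ⟨r - 1, by omega⟩
    have h4 := Nat.add_one_mul_choose_eq q₁ r₁
    rw [← hq₁, ← hr₁] at h4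
    have h5 : p ^ j₀ ∣ q.choose r * r := by
      rw [← h4, hqq]
      exact (Dvd.intro _ rfl).mul_right _
    have h6 : Nat.Coprime (p ^ j₀) (q.choose r) :=
      Nat.Coprime.pow_left _ ((Nat.Prime.coprime_iff_not_dvd hp).2 h3)
    have h7 := Nat.le_of_dvd (by omega) (h6.dvd_of_dvd_mul_left h5)
    omega

end Pool.Agent.TWN
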