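import Mathlib

/-!
# TANK W, NFG: finite boxes of exponents
-/

set_option autoImplicit false

namespace Pool.Agent.TWN

/-- A norm on a finitely generated group of reals. -/
theorem exists_size {G : AddSubgroup ℝ} (hG : G.FG) : ∃ N : ℝ → ℕ,
    (∀ g ∈ G, ∀ g' ∈ G, N (g + g') ≤ N g + N g') ∧
    (∀ g ∈ G, ∀ n : ℕ, N (n * g) = n * N g) ∧ (∀ g ∈ G, N (-g) = N g) ∧
    ∀ h : ℕ, {g : ℝ | g ∈ G ∧ N g ≤ h}.Finite := by
  classical
  have hGf : Module.Finite ℤ G := by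
    rw [Module.Finite.iff_addGroup_fg]
    exact (AddGroup.fg_iff_addSubgroup_fg G).2 hG
  have hfree : Module.Free ℤ G := inferInstance
  let b := Module.Free.chooseBasis ℤ G
  let n : G → ℕ := fun g => ∑ i, (b.repr g i).natAbs
  have hfin : ∀ h : ℕ, {g : G | n g ≤ h}.Finite := by
    intro h
    have h1 : ({f : Module.Free.ChooseBasisIndex ℤ G → ℤ |
        ∀ i, f i ∈ Set.Icc (-(h : ℤ)) h}).Finite := Set.Finite.pi' fun _ => Set.finite_Icc _ _
    refine Set.Finite.of_finite_image (f := fun g : G => fun i => b.repr g i) (h1.subset ?_) ?_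
    · rintro _ ⟨g, hg, rfl⟩ i
      have h3 : (b.repr g i).natAbs ≤ h :=
        (Finset.single_le_sum (f := fun i => (b.repr g i).natAbs) (fun _ _ => Nat.zero_le _)
          (Finset.mem_univ i)).trans hg
      have h4 : |b.repr g i| ≤ (h : ℤ) := by
        rw [Int.abs_eq_natAbs]
        exact_mod_cast h3
      exact abs_le.1 h4
    · intro g _ g' _ h3
      apply b.repr.injective
      ext i
      exact congrFun h3 i
  refine ⟨fun g => if hg : g ∈ G then n ⟨g, hg⟩ else 0, ?_, ?_, ?_, ?_⟩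
  · intro g hg g' hg'
    show (if hg : g + g' ∈ G then n ⟨g + g', hg⟩ else 0) ≤
      (if hg : g ∈ G then n ⟨g, hg⟩ else 0) + (if hg : g' ∈ G then n ⟨g', hg⟩ else 0)
    rw [dif_pos hg, dif_pos hg', dif_pos (G.add_mem hg hg')]
    have h1 : (⟨g + g', G.add_mem hg hg'⟩ : G) = ⟨g, hg⟩ + ⟨g', hg'⟩ := rfl
    rw [h1, ← Finset.sum_add_distrib]
    refine Finset.sum_le_sum fun i _ => ?_
    rw [map_add, Finsupp.add_apply]
    exact Int.natAbs_add_le _ _
  · intro g hg m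
    have hm : (m : ℝ) * g ∈ G := by
      rw [← nsmul_eq_mul]
      exact G.nsmul_mem hg m
    show (if hg : (m : ℝ) * g ∈ G then n ⟨m * g, hg⟩ else 0) =
      m * (if hg : g ∈ G then n ⟨g, hg⟩ else 0)
    rw [dif_pos hg, dif_pos hm]
    have h1 : (⟨m * g, hm⟩ : G) = m • (⟨g, hg⟩ : G) := by
      apply Subtype.ext
      rw [AddSubgroup.coe_nsmul, nsmul_eq_mul]
    rw [h1, Finset.mul_sum]
    refine Finset.sum_congr rfl fun i _ => ?_
    rw [map_nsmul, Finsupp.smul_apply, nsmul_eq_mul, Int.natAbs_mul, Int.natAbs_natCast]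
  · intro g hg
    show (if hg : -g ∈ G then n ⟨-g, hg⟩ else 0) = (if hg : g ∈ G then n ⟨g, hg⟩ else 0)
    rw [dif_pos hg, dif_pos (G.neg_mem hg)]
    have h1 : (⟨-g, G.neg_mem hg⟩ : G) = -⟨g, hg⟩ := rfl
    rw [h1]
    refine Finset.sum_congr rfl fun i _ => ?_
    rw [map_neg, Finsupp.neg_apply, Int.natAbs_neg]
  · intro h
    refine ((hfin h).image Subtype.val).subset ?_
    rintro g ⟨hg, hg'⟩
    refine ⟨⟨g, hg⟩, ?_, rfl⟩
    have h1 : (if hg : g ∈ G then n ⟨g, hg⟩ else 0) ≤ h := hg'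
    rwa [dif_pos hg] at h1

/-- Finite sets of exponents, closed under the recentring. -/
theorem exists_boxes {G : AddSubgroup ℝ} (hG : G.FG) {q τ Q : ℕ} (hq : q = τ + Q) (hQ : 0 < Q)
    {lam : ℝ} (hlam : lam ∈ G) (S : ℕ → Finset (ℝ × ℕ)) (hS : ∀ i < q, ∀ x ∈ S i, x.1 ∈ G) :
    ∃ E : ℕ → Finset (ℝ × ℕ), (∀ i < q, S i ⊆ E i) ∧
      ∀ x ∈ E τ, ∀ y ∈ G, ∀ nA l : ℕ, x.1 = lam + Q * y → x.2 = nA + Q * l →
        ∀ i l' : ℕ, τ ≤ i → i < l' → l' < q → ∀ x' ∈ E l',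
          (x'.1 + ((l' : ℝ) - i) * y, x'.2 + (l' - i) * l) ∈ E i := by
  classical
  obtain ⟨N, hadd, hmul, hneg, hfin⟩ := exists_size hG
  set C := N lam with hC
  -- a bound for the given exponents
  obtain ⟨H₀, hH₀⟩ : ∃ H₀ : ℕ, ∀ i < q, ∀ x ∈ S i, N x.1 ≤ H₀ ∧ x.2 ≤ H₀ := by
    refine ⟨∑ i ∈ Finset.range q, ∑ x ∈ S i, (N x.1 + x.2), fun i hi x hx => ?_⟩
    have h1 : N x.1 + x.2 ≤ ∑ x ∈ S i, (N x.1 + x.2) :=
      Finset.single_le_sum (f := fun x : ℝ × ℕ => N x.1 + x.2) (fun _ _ => Nat.zero_le _) hx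
    have h2 : ∑ x ∈ S i, (N x.1 + x.2) ≤ ∑ i ∈ Finset.range q, ∑ x ∈ S i, (N x.1 + x.2) :=
      Finset.single_le_sum (f := fun i => ∑ x ∈ S i, (N x.1 + x.2)) (fun _ _ => Nat.zero_le _)
        (Finset.mem_range.2 hi)
    omega
  set h : ℕ → ℕ := fun i => H₀ + (q - 1 - i) * (H₀ + C) with hh
  set E : ℕ → Finset (ℝ × ℕ) := fun i =>
    (hfin (h i)).toFinset ×ˢ Finset.range (h i + 1) with hE
  have hmem : ∀ i (x : ℝ × ℕ), x ∈ E i ↔ (x.1 ∈ G ∧ N x.1 ≤ h i) ∧ x.2 ≤ h i := by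
    intro i x
    rw [hE]
    simp only [Finset.mem_product, Set.Finite.mem_toFinset, Set.mem_ofPred_eq, Finset.mem_range,
      Nat.lt_succ_iff]
  refine ⟨E, fun i hi x hx => ?_, ?_⟩
  · rw [hmem]
    obtain ⟨h1, h2⟩ := hH₀ i hi x hx
    have h3 : H₀ ≤ h i := Nat.le_add_right _ _
    exact ⟨⟨hS i hi x hx, h1.trans h3⟩, h2.trans h3⟩
  · intro x hx y hy nA l hx1 hx2 i l' hi hil hl' x' hx'
    rw [hmem] at hx hx' ⊢
    obtain ⟨⟨hxG, hxN⟩, hxl⟩ := hx
    obtain ⟨⟨hxG', hxN'⟩, hxl'⟩ := hx'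
    have hτ : h τ + C = Q * (H₀ + C) := by
      rw [hh]
      have h1 : q - 1 - τ = Q - 1 := by omega
      simp only [h1]
      obtain ⟨Q', rfl⟩ : ∃ Q', Q = Q' + 1 := ⟨Q - 1, by omega⟩
      rw [Nat.add_sub_cancel]
      ring
    -- the size of `y`
    have hy1 : N y ≤ H₀ + C := by
      have h1 : (Q : ℝ) * y = x.1 + -lam := by rw [hx1]; ring
      have h2 : Q * N y ≤ h τ + C := by
        rw [← hmul y hy, h1]
        refine (hadd _ hxG _ (G.neg_mem hlam)).trans ?_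
        rw [hneg _ hlam]
        omega
      rw [hτ] at h2
      exact Nat.le_of_mul_le_mul_left h2 hQ
    have hl1 : l ≤ H₀ + C := by
      have h2 : Q * l ≤ Q * (H₀ + C) := by omega
      exact Nat.le_of_mul_le_mul_left h2 hQ
    have hstep : h l' + (l' - i) * (H₀ + C) = h i := by
      rw [hh]
      simp only
      have h1 : q - 1 - i = (q - 1 - l') + (l' - i) := by omega
      rw [h1]
      ring
    have hcast : ((l' : ℝ) - i) * y = ((l' - i : ℕ) : ℝ) * y := by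
      rw [Nat.cast_sub hil.le]
    have hyG : ((l' - i : ℕ) : ℝ) * y ∈ G := by
      rw [← nsmul_eq_mul]
      exact G.nsmul_mem hy _
    refine ⟨⟨?_, ?_⟩, ?_⟩
    · show x'.1 + ((l' : ℝ) - i) * y ∈ G
      rw [hcast]
      exact G.add_mem hxG' hyG
    · show N (x'.1 + ((l' : ℝ) - i) * y) ≤ h i
      rw [hcast]
      refine (hadd _ hxG' _ hyG).trans ?_
      rw [hmul y hy, ← hstep]
      exact Nat.add_le_add hxN' (Nat.mul_le_mul_left _ hy1)
    · show x'.2 + (l' - i) * l ≤ h i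
      rw [← hstep]
      exact Nat.add_le_add hxl' (Nat.mul_le_mul_left _ hl1)

end Pool.Agent.TWN
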