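import Pool.Agent.Lib.TW_NFG.NS

/-!
# NFG, `s = 2`: the end of the chain, with `Con2`
-/

set_option autoImplicit false

open Polynomial

namespace Pool.Agent.TWN

open Pool.Agent.H15JM (RVal)
open Pool.Agent.TWM (MS TL cadj VG)

universe u

variable {k Ω : Type u} [Field k] [Field Ω] [Algebra k Ω] {v : RVal Ω} {G G' : AddSubgroup ℝ}
  {M M' : ℝ → Ω} {w t : Ω} {m : ℕ} {j : ℝ → ℤ → ℤ} {c : k} {b : ℝ} {W : k[X]}

section char

variable {p q τ Q j₀ : ℕ} [hp : Fact p.Prime] [CharP k p] {lam : ℝ} {nA nA' e : ℕ} {r : ℤ}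
  {P : ℕ → ℝ →₀ k[X]} {N : ℕ} {R : ℤ → k[X]} {Mb : ℕ}

/-- **The end of the chain.** -/
theorem Nx.not_con2 [IsAlgClosed k]
    (h : SS p q τ Q j₀ v G M w G' M' t m j c b W lam nA nA' e r P N R 1)
    {A A' A₀ D s : ℝ} {Lam Lam' Phi : ℕ → ℝ} (hmk : Mk p q τ Q lam A s 1 Lam P) (hβ : 0 < v w)
    (hrho : ∀ i ≤ τ, nA * v w + ((q : ℝ) - i) * (A' - A) ≤ (((q : ℝ) - i) * (1 : ℕ) - 1) * v w)
    (hN : Nx p q τ Q (lam + nA * v w) A' s 1 (v w) Lam' Phi P)
    (hL : LD (v w) q P Phi) (hcl : Clean q τ Q G lam nA s (v w) P) (hm : 2 ≤ m) {Z : Ω}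
    (hZ : v Z < s) (hZ₀ : A₀ < v Z) (hlow : ∀ i < q, Ct (D + ((q : ℝ) - i) * A₀) (P i))
    (hD : lam + nA * v w < D)
    (hbd : Bd p q τ Q (lam + nA * v w) A' (v w) 1 Phi P) :
    ¬ Con2 p q τ v A₀ G' Z (trP p G' (v w) j ((p ^ j₀ : ℕ) * r) R P) (lam + nA * v w) nA' := by
  classical
  intro hcon
  have hτq : τ < q := by have := h.prm.hq; have := h.prm.hQ; omega
  have hq : (q : ℝ) = τ + Q := by rw [h.prm.hq]; push_cast; ring
  have hnb := h.nb
  have hnotcon := Nx.not_con h hN hL hcl hm hZ hbd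
  set lam' := lam + nA * v w with hlam'
  set P' := trP p G' (v w) j ((p ^ j₀ : ℕ) * r) R P with hP'
  have hpos : ∀ i : ℕ, i < q → (0 : ℝ) < q - i := fun i hi => by
    have : (i : ℝ) < q := by exact_mod_cast hi
    linarith
  -- the lowest coefficients
  have hlw : ∀ i < q, P i ≠ 0 → P' i (Phi i) ≠ 0 := fun i hi h0 => h.ne hi (hL i hi h0).2
  have hP0 : ∀ i μ, P' i μ ≠ 0 → P i ≠ 0 := fun i μ h1 h0 => h1 (by
    rw [hP', trP_zero h0]
    rfl)
  have hctP : ∀ i < q, ∀ μ, (P i ≠ 0 → μ ≤ Phi i) → Ct μ (P' i) := fun i hi μ hμ => by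
    by_cases h0 : P i = 0
    · rw [hP', trP_zero h0]
      exact Ct.zero
    · exact trP_ct fun x hx => (hμ h0).trans ((hL i hi h0).1 x hx)
  have heq : ∀ i < q, ∀ μ, (P i ≠ 0 → μ ≤ Phi i) → P' i μ ≠ 0 → μ = Phi i :=
    fun i hi μ hμ h1 => le_antisymm (hμ (hP0 i μ h1)) (by
      have h0 := hP0 i μ h1
      exact (trP_ct (hL i hi h0).1 : Ct (Phi i) (P' i)) _ h1)
  -- `Con` holds at a scale which is small enough
  have key : ∀ b : ℝ, A₀ ≤ b → b ≤ v Z → (b ∈ G' ∨ b = v Z) →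
      (∀ i < q, P i ≠ 0 → lam' + ((q : ℝ) - i) * b ≤ Phi i) →
      (b = v Z ∨ ∃ i < q, P' i (lam' + q * b - i * b) ≠ 0) → False := by
    intro b₁ h1 h2 h3 h4 h4'
    have hmu : ∀ i : ℕ, lam' + q * b₁ - i * b₁ = mu q lam' b₁ i := fun i => by
      rw [mu]
      ring
    have h5 := hcon b₁ h1 h2 h3 (lam' + q * b₁) le_rfl (fun i hi => by
      rw [hmu]
      exact hctP i hi _ (h4 i hi)) (h4'.imp (fun h5 => ⟨rfl, h5⟩) id)
    refine hnotcon ⟨b₁, h2, fun i hi => hctP i hi _ (h4 i hi), ?_⟩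
    rcases h5 with ⟨i, hi, -, h7, h8⟩ | ⟨-, h6, h7, b₀, hb₀, h8⟩ | ⟨h6, -, h7, h8, h9⟩
    · rw [hmu] at h7
      rcases h8 with ⟨h8, h9⟩ | ⟨h8, h9⟩
      · rw [hmu] at h9
        exact Or.inl ⟨i, hi, h8, h7, h9⟩
      · subst h8
        have h10 : lam' + q * b₁ - 1 * b₁ = mu q lam' b₁ 1 := by
          rw [mu]
          push_cast
          ring
        rw [h10] at h9
        exact Or.inr (Or.inl ⟨hi, h7, h9⟩)
    · rw [hmu] at h8
      refine Or.inr (Or.inr (Or.inl ⟨h6, fun i h10 h11 => ?_, b₀, hb₀, h8⟩))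
      have h12 := h7 i h10 h11
      rwa [hmu] at h12
    · have h10 : lam' + q * b₁ = mu q lam' b₁ 0 := by
        rw [mu]
        push_cast
        ring
      rw [h10] at h7 h8 h9
      exact Or.inr (Or.inr (Or.inr ⟨h6, h7, h8, h9⟩))
  set S := (Finset.range q).filter (fun i => P i ≠ 0) with hS
  have hmem : ∀ i, i ∈ S ↔ i < q ∧ P i ≠ 0 := fun i => by
    rw [hS, Finset.mem_filter, Finset.mem_range]
  rcases S.eq_empty_or_nonempty with hS0 | hS0
  · refine key (v Z) hZ₀.le le_rfl (Or.inr rfl) (fun i hi h0 => ?_) (Or.inl rfl)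
    have h1 := (hmem i).2 ⟨hi, h0⟩
    rw [hS0] at h1
    simp at h1
  -- the slope of the edge
  obtain ⟨i₁, hi₁, hmin⟩ := S.exists_min_image (fun i => (Phi i - lam') / ((q : ℝ) - i)) hS0
  obtain ⟨hi₁q, hi₁0⟩ := (hmem i₁).1 hi₁
  set a' := (Phi i₁ - lam') / ((q : ℝ) - i₁) with ha'
  have ha1 : Phi i₁ = lam' + ((q : ℝ) - i₁) * a' := by
    rw [ha', mul_div_cancel₀ _ (hpos i₁ hi₁q).ne']
    ring
  have ha2 : ∀ i < q, P i ≠ 0 → lam' + ((q : ℝ) - i) * a' ≤ Phi i := by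
    intro i hi h0
    have h1 := hmin i ((hmem i).2 ⟨hi, h0⟩)
    rw [le_div_iff₀ (hpos i hi)] at h1
    linarith
  have haA₀ : A₀ < a' := by
    obtain ⟨x, hx, hxν⟩ := (hL i₁ hi₁q hi₁0).2
    have h1 := (hlow i₁ hi₁q).terms hx
    have h2 : x.1 ≤ Phi i₁ := by
      rw [← hxν]
      unfold vm
      have : 0 ≤ (x.2 : ℝ) * v w := mul_nonneg (Nat.cast_nonneg _) hβ.le
      linarith
    rw [ha1] at h2
    have h3 : ((q : ℝ) - i₁) * A₀ < (q - i₁) * a' := by linarith
    exact lt_of_mul_lt_mul_left h3 (hpos i₁ hi₁q).le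
  -- the edge
  have haA' : A' = s ∨ a' ≤ A' := by
    have key2 : ∀ i, i < q → P i ≠ 0 → Phi i = lam' + ((q : ℝ) - i) * A' → a' ≤ A' := by
      intro i h2 h3 h4
      have h5 := ha2 i h2 h3
      rw [h4] at h5
      have h7 : ((q : ℝ) - i) * a' ≤ (q - i) * A' := by linarith
      exact le_of_mul_le_mul_left h7 (hpos i h2)
    rcases hN.edge with h1 | ⟨i, h1, h2, h3, h4⟩ | ⟨-, -, h3, h4, -⟩
    · exact Or.inl h1
    · right
      rcases hN.mark i h2 h3 (by omega) with h5 | ⟨l, h5, -, h7, h8⟩ | ⟨h5, -⟩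
      · exact key2 i h2 h5.ne (by rw [← h5.eq, h4])
      · refine key2 l h7.lt h7.ne ?_
        rw [← h7.eq]
        rw [h4] at h8
        linarith
      · exact absurd h5 (h.prm.nsq i h1 h2)
    · refine Or.inr (key2 τ hτq h3 ?_)
      rw [h4, hq]
      ring
  -- the scale
  obtain ⟨b₀, hb₀G, hb₀1, hb₀2⟩ : ∃ b₀ ∈ G', a' ≤ b₀ ∧ b₀ < a' + v w := by
    refine ⟨(⌈a' / v w⌉ : ℝ) * v w, h.sd.ts.zw_mem _, ?_, ?_⟩
    · have h1 := Int.le_ceil (a' / v w)
      rw [div_le_iff₀ hβ] at h1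
      exact h1
    · have h1 := Int.ceil_lt_add_one (a' / v w)
      have h2 : (⌈a' / v w⌉ : ℝ) * v w < (a' / v w + 1) * v w := mul_lt_mul_of_pos_right h1 hβ
      rw [add_mul, div_mul_cancel₀ _ hβ.ne', one_mul] at h2
      exact h2
  set b₁ := min b₀ (v Z) with hb₁
  have hb1 : A₀ ≤ b₁ := le_min (haA₀.le.trans hb₀1) hZ₀.le
  have hb2 : b₁ ≤ v Z := min_le_right _ _
  have hb3 : b₁ ∈ G' ∨ b₁ = v Z := by
    rcases min_choice b₀ (v Z) with h1 | h1
    · exact Or.inl (by rw [hb₁, h1]; exact hb₀G)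
    · exact Or.inr (by rw [hb₁, h1])
  have hb4 : b₁ < a' + v w := lt_of_le_of_lt (min_le_left _ _) hb₀2
  by_cases hba : b₁ ≤ a'
  · refine key b₁ hb1 hb2 hb3 (fun i hi h0 => le_trans ?_ (ha2 i hi h0)) ?_
    · have h1 : ((q : ℝ) - i) * b₁ ≤ (q - i) * a' := mul_le_mul_of_nonneg_left hba (hpos i hi).le
      linarith
    · rcases min_choice b₀ (v Z) with h1 | h1
      · right
        refine ⟨i₁, hi₁q, ?_⟩
        have h2 : b₁ = a' := le_antisymm hba (by rw [hb₁, h1]; exact hb₀1)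
        have h3 : lam' + q * b₁ - i₁ * b₁ = Phi i₁ := by
          rw [h2, ha1]
          ring
        rw [h3]
        exact hlw i₁ hi₁q hi₁0
      · exact Or.inl (by rw [hb₁, h1])
  push Not at hba
  have haA : a' ≤ A' := by
    rcases haA' with h1 | h1
    · rw [h1]
      linarith
    · exact h1
  -- the content
  obtain ⟨i₂, hi₂, hmin₂⟩ := S.exists_min_image (fun i => Phi i + (i : ℝ) * b₁) hS0
  obtain ⟨hi₂q, hi₂0⟩ := (hmem i₂).1 hi₂
  set κ := Phi i₂ + (i₂ : ℝ) * b₁ with hκ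
  have hκlt : κ < lam' + q * b₁ := by
    have h1 := hmin₂ i₁ hi₁
    have h2 : ((q : ℝ) - i₁) * a' < (q - i₁) * b₁ := mul_lt_mul_of_pos_left hba (hpos i₁ hi₁q)
    have h3 : κ ≤ Phi i₁ + (i₁ : ℝ) * b₁ := h1
    rw [ha1] at h3
    linarith
  have hκle : ∀ i < q, P i ≠ 0 → κ - i * b₁ ≤ Phi i := fun i hi h0 => by
    have h1 : κ ≤ Phi i + (i : ℝ) * b₁ := hmin₂ i ((hmem i).2 ⟨hi, h0⟩)
    linarith
  rcases hcon b₁ hb1 hb2 hb3 κ hκlt.le (fun i hi => hctP i hi _ (hκle i hi))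
      (Or.inr ⟨i₂, hi₂q, by
        have h1 : κ - i₂ * b₁ = Phi i₂ := by rw [hκ]; ring
        rw [h1]
        exact hlw i₂ hi₂q hi₂0⟩) with ⟨i, hi, hmax, hne, hor⟩ | ⟨h1, -⟩ | ⟨-, h1, -⟩
  · have h0 := hP0 i _ hne
    have hPhi := heq i hi _ (hκle i hi) hne
    -- the larger indices
    have hup : ∀ l, i < l → l < q → P l ≠ 0 → κ - l * b₁ < Phi l := by
      intro l h1 h2 h3
      refine lt_of_le_of_ne (hκle l h2 h3) fun h4 => ?_
      have h5 := hmax l h1 h2
      rw [h4] at h5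
      exact hlw l h2 h3 h5
    -- the exponents
    have hQ1 : 1 ≤ Q := by have := h.prm.hQ; omega
    have hAA : A' - A < v w := by
      have h1 := hrho τ le_rfl
      rw [hq, Nat.cast_one, mul_one] at h1
      have h2 : (0 : ℝ) ≤ nA * v w := mul_nonneg (Nat.cast_nonneg _) hβ.le
      have h3 : (1 : ℝ) ≤ Q := by exact_mod_cast hQ1
      by_contra h4
      push Not at h4
      have h5 : (Q : ℝ) * v w ≤ Q * (A' - A) := mul_le_mul_of_nonneg_left h4 (by linarith)
      nlinarith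
    have hexp : ∀ x ∈ terms (P i), vm (v w) x = Phi i → x.2 + 1 ≤ 2 * (q - i) := by
      intro x hx hxν
      have hx1 := (hmk.ct i hi).terms hx
      have hx3 : x.2 * v w = Phi i - x.1 := by
        unfold vm at hxν
        linarith
      have hcast : ((q - i : ℕ) : ℝ) = q - i := Nat.cast_sub hi.le
      have fin : ∀ c : ℝ, x.2 * v w < c * v w → c ≤ 2 * ((q : ℝ) - i) → x.2 + 1 ≤ 2 * (q - i) := by
        intro c h1 h2
        have h3 : (x.2 : ℝ) < c := lt_of_mul_lt_mul_right h1 hβ.le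
        have h4 : (x.2 : ℝ) < ((2 * (q - i) : ℕ) : ℝ) := by
          push_cast
          rw [hcast]
          linarith
        exact_mod_cast h4
      -- the source `q`
      have hsq : i ≤ τ → Lam i = lam + ((q : ℝ) - i) * A → x.2 + 1 ≤ 2 * (q - i) := by
        intro hiτ h1
        have h2 := hrho i hiτ
        rw [Nat.cast_one, mul_one] at h2
        rw [h1] at hx1
        have h3 : Phi i < lam' + ((q : ℝ) - i) * b₁ := by
          rw [← hPhi]
          linarith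
        have h4 := hpos i hi
        refine fin (2 * ((q : ℝ) - i)) ?_ le_rfl
        have h5 : ((q : ℝ) - i) * (a' - A) ≤ (q - i) * (A' - A) :=
          mul_le_mul_of_nonneg_left (by linarith) h4.le
        have h6 : ((q : ℝ) - i) * (b₁ - a') ≤ (q - i) * v w :=
          mul_le_mul_of_nonneg_left (by linarith) h4.le
        nlinarith
      by_cases hiτ : i = τ
      · refine hsq hiτ.le ?_
        rw [hiτ, hmk.tau, hq]
        ring
      · rcases hmk.mark i hi (h.hix i hi h0) hiτ with h3 | ⟨l, h3, h4, h5, h6⟩ | ⟨h3, h4⟩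
        · obtain ⟨n, hn1, hn2⟩ := h3.ex
          have h4 := hL.le hi hn2
          have h5 : x.2 ≤ n := by
            have h6 : (x.2 : ℝ) * v w ≤ n * v w := by linarith
            exact_mod_cast le_of_mul_le_mul_right h6 hβ
          omega
        · obtain ⟨n, hn1, hn2⟩ := h5.ex
          have h7 := hL.le h5.lt hn2
          have h8 := hup l h3.1 h5.lt (ne_zero_of_coeff hn2)
          have hn1' : (n : ℝ) + 1 ≤ (q - l) := by
            have h9 : ((n + 1 : ℕ) : ℝ) ≤ (((q - l) * 1 : ℕ) : ℝ) := by exact_mod_cast hn1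
            push_cast [Nat.cast_sub h5.lt.le] at h9
            linarith
          have hil : (i : ℝ) < l := by exact_mod_cast h3.1
          have hlq : (l : ℝ) < q := by exact_mod_cast h5.lt
          refine fin (n + 2 * ((l : ℝ) - i)) ?_ (by linarith)
          have h12 : ((l : ℝ) - i) * (b₁ - A) < (l - i) * (2 * v w) :=
            mul_lt_mul_of_pos_left (by linarith) (by linarith)
          rw [h6] at hx1
          nlinarith
        · have hiτ' : i ≤ τ := by
            by_contra hcon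
            exact h.prm.nsq i (by omega) hi h3
          exact hsq hiτ' h4
    have hdiv : (2 * (q - i) - 1) / m < q - i := by
      apply Nat.div_lt_of_lt_mul
      have h1 : 2 * (q - i) ≤ m * (q - i) := Nat.mul_le_mul_right _ hm
      omega
    rcases hor with ⟨hpi, hfo⟩ | ⟨rfl, hfo⟩
    · rw [hPhi, hP'] at hfo
      unfold trP at hfo
      rw [if_pos hpi] at hfo
      have h4 := h.sd.ordF p h.hσ h.apx (h.inP i hi) (h.npd i hi hpi) (E := 2 * (q - i) - 1)
        (fun x hx hxν => by have := hexp x hx hxν; omega) (hL i hi h0).2 (n := q - 1 - i)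
        (by omega)
        (by
          have h5 : q - 1 - i + 1 = q - i := by omega
          rw [h5]
          exact h.pq hpi) hfo
      omega
    · by_cases hp1 : p ∣ 1
      · have := hp.out.one_lt
        have := Nat.le_of_dvd one_pos hp1
        omega
      have h10 : κ - 1 * b₁ = Phi 1 := by
        rw [← hPhi]
        push_cast
        ring
      rw [h10, hP'] at hfo
      unfold trP at hfo
      rw [if_neg hp1] at hfo
      have h4 := h.sd.ord h.apx (h.inP 1 hi) (σ := (p ^ j₀ : ℕ) * r) (E := 2 * (q - 1) - 1)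
        (fun x hx hxν => by have := hexp x hx hxν; omega) (hL 1 hi h0).2 (n := q - 1)
        (by omega) hfo
      omega
  · linarith
  · linarith

end char

end Pool.Agent.TWN
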