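import Pool.Agent.Lib.TW_NFG.CL
import Pool.Agent.Lib.TW_NFG.BX
import Pool.Agent.Lib.TW_NFG.PR
import Pool.Agent.Lib.TW_NFG.NE

/-!
# NFG, `s = 2`: the chain

`chain_aux`: the induction; `nfg_chain_of`: the conclusion from an initial state.
-/

set_option autoImplicit false

open Polynomial

namespace Pool.Agent.TWN

open Pool.Agent.H15JM (RVal)
open Pool.Agent.LU1 (VPos)
open Pool.Agent.D2 (Ctx0)
open Pool.Agent.TWM (MS TL cadj VG)

universe u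

variable {k Ω : Type u} [Field k] [Field Ω] [Algebra k Ω] {v : RVal Ω} {G G' : AddSubgroup ℝ}
  {M M' : ℝ → Ω} {w t : Ω} {m : ℕ} {j : ℝ → ℤ → ℤ} {F K : IntermediateField k Ω}

section char

variable {p q τ Q : ℕ} [hp : Fact p.Prime] [CharP k p] [CharP Ω p]

/-- **Cleaning.** -/
theorem exists_clean [IsAlgClosed k] (hk : ∀ b : k, v.Ge 0 (algebraMap k Ω b))
    (hprm : Prm p q τ Q) {a : Ω} {s D A₀ B : ℝ} {lam : ℝ}
    {nA : ℕ} {A : ℝ} {Mb : ℕ} {Lam : ℕ → ℝ} {ρ : ℝ} {Z : Ω} {P : ℕ → ℝ →₀ k[X]}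
    (hr : Rp p q v F K a s D A₀ (EC k v G M w Z (wM B A₀ (v w))) G M w Z P lam nA) (hmk : Mk p q τ Q lam A s Mb Lam P)
    (htm : TM p q τ Q G lam nA A s Mb Lam P ρ) :
    ∃ (Z₁ : Ω) (P₁ : ℕ → ℝ →₀ k[X]),
      Rp p q v F K a s D A₀ (EC k v G M w Z₁ (wM B A₀ (v w))) G M w Z₁ P₁ lam nA ∧
      Mk p q τ Q lam A s Mb Lam P₁ ∧ TM p q τ Q G lam nA A s Mb Lam P₁ ρ ∧
      Clean q τ Q G lam nA s (v w) P₁ := by
  obtain ⟨E, hE1, hE2⟩ := exists_boxes hr.frm.fg hprm.hq (by have := hprm.hQ; omega)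
    hr.typ.1 (fun i => terms (P i)) (fun i hi x hx => (hr.inP i hi).terms hx)
  exact exists_clean_of hk hprm hE2 _ Z P hr hmk htm (fun i _ hi => hE1 i hi) le_rfl

/-- The induction. -/
theorem chain_aux [IsAlgClosed k] [IsAlgClosed Ω] (h : Ctx0 k v) (hn : NFG v F) {j₀ : ℕ}
    (hj : 1 ≤ j₀) (hprm : Prm p q τ (p ^ j₀)) {a : Ω} {s D A₀ B : ℝ}
    (hcon : ∀ (G : AddSubgroup ℝ) (M : ℝ → Ω) (w Z : Ω) (P : ℕ → ℝ →₀ k[X]) (lam : ℝ) (nA : ℕ),
      Rp p q v F K a s D A₀ (EC k v G M w Z (wF q B A₀ P)) G M w Z P lam nA →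
      Con p q τ v G Z P lam nA ∨ Con2 p q τ v A₀ G Z P lam nA) (n : ℕ) :
    ∀ (G : AddSubgroup ℝ) (M : ℝ → Ω) (w Z : Ω) (P : ℕ → ℝ →₀ k[X]) (lam : ℝ) (nA : ℕ) (A : ℝ)
      (Lam : ℕ → ℝ) (Mb : ℕ), 1 ≤ Mb → 2 * Mb + nA ≤ n →
      Rp p q v F K a s D A₀ (EC k v G M w Z (wM B A₀ (v w))) G M w Z P lam nA →
      (v w ∉ G ∨ (nA = 1 ∧ v w ∈ G ∧ ¬ pdv p G (v w))) →
      Mk p q τ (p ^ j₀) lam A s Mb Lam P →
      TM p q τ (p ^ j₀) G lam nA A s Mb Lam P (((Mb : ℝ) - 1) * v w) → False := by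
  induction n with
  | zero =>
    intro G M w Z P lam nA A Lam Mb hMb hn0
    omega
  | succ n ih =>
    intro G M w Z P lam nA A Lam Mb hMb hn0 hr hw hmk htm
    obtain ⟨Z₁, P₁, hr₁, hmk₁, htm₁, hcl⟩ := exists_clean h.ge hprm hr hmk htm
    obtain ⟨Phi, hL⟩ := exists_LD (v w) q P₁
    have hnA : nA ≤ 1 := by rcases hr.typ.2 with h1 | h1 <;> omega
    obtain ⟨A', Lam', hN, hbd⟩ := Mk.next hprm hmk₁ hr₁.frm.wpos hnA hMb htm₁
      (fun i hi h0 => by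
        by_contra h1
        exact h0 (hr₁.ix i hi h1)) hL
    obtain ⟨G', M', t, m, jj, c, b, W, nA', e, r, N, R, hS, hr', hrF, hm, hty⟩ :=
      hr₁.step h hn hprm rfl hj hMb
    have hmk' := Nx.mk' hS hN hL
    have htm' := Nx.tm' hS hN hL hcl
    have hmpos := hS.sd.ts.mpos
    by_cases hend : Mb = 1 ∧ 2 ≤ m
    · obtain ⟨rfl, hm2⟩ := hend
      have hZs : v Z₁ < s := by
        have h1 := (hr₁.far 0 (zero_mem _)).2
        rwa [sub_zero] at h1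
      rcases hcon _ _ _ _ _ _ _ hrF with h1 | h1
      · exact Nx.not_con hS hN hL hcl hm2 hZs hbd h1
      · exact Nx.not_con2 hS hmk₁ hr₁.frm.wpos (hmk₁.rho hprm hr₁.frm.wpos hnA hMb htm₁ hL hN.cap
          hN.sc) hN hL hcl hm2 hZs hr₁.vZ hr₁.low (hr₁.lam_lt hp.out.ne_zero) hbd h1
    · obtain ⟨w₂, P₂, hr₂, hw₂, hkeep₂⟩ := hr'.recentre h hn hprm.hpq
      have hτq : τ < q := by have := hprm.hq; have := hprm.hQ; omega
      have hmk₂ := hmk'.of (fun i hi => (hkeep₂ i hi _ (hmk'.ct i hi)).1)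
        (fun i _ hown => (hkeep₂ i hown.lt _ (hmk'.ct i hown.lt)).2)
      have htm₂ := htm'.of (P₁ := P₂) (fun _ e he _ => by
        have h1 := (hkeep₂ τ hτq _ (hmk'.ct τ hτq)).2 e
        rw [hN.tau] at h1
        exact h1 he)
      have hMb' : (1 : ℝ) ≤ (((Mb - 1) / m + 1 : ℕ) : ℝ) := by exact_mod_cast Nat.le_add_left 1 _
      refine ih G' M' w₂ Z₁ P₂ (lam + nA * v w) nA' A' Lam' ((Mb - 1) / m + 1)
        (Nat.le_add_left 1 _) ?_ hr₂ hw₂ hmk₂ (htm₂.mono (mul_nonneg (by linarith)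
          hr₂.frm.wpos.le))
      have hnA' : nA' ≤ 1 := by rcases hr'.typ.2 with h1 | h1 <;> omega
      have hdiv : (Mb - 1) / m ≤ Mb - 1 := Nat.div_le_self _ _
      by_cases hm2 : 2 ≤ m
      · have hMb2 : 2 ≤ Mb := by
          by_contra h1
          exact hend ⟨by omega, hm2⟩
        have h1 : (Mb - 1) / m ≤ (Mb - 1) / 2 := Nat.div_le_div_left hm2 (by norm_num)
        omega
      · have hwG : v w ∈ G := by
          by_contra h1
          exact hm2 (hm h1)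
        rcases hw with h1 | ⟨h1, -, h2⟩
        · exact absurd hwG h1
        · have h3 := hty hwG h2 h1
          omega

end char

end Pool.Agent.TWN
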