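import Mathlib

/-!
# NFG, `s = 2`: the algebra of one step

`k` is a field of characteristic `p`, `q = p ^ j`, `c ≠ 0`.

* `master`: a polynomial with exponents outside of a set `Z` of residue classes mod `q`, congruent
  mod `(X - c) ^ (q N)` to a polynomial with exponents in `Z`, is divisible by `(X - c) ^ (q N)`;
* `eq_zero_of_sparse`: if in addition it is `X ^ a * H` with `deg H < q N` then it is `0`;
* `transfer`: the expansion in a new coordinate contains an exponent outside of `Z`.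
-/

set_option autoImplicit false

open Polynomial

namespace Pool.Agent.TWN

variable {k : Type*} [Field k]

/-- The part of `F` with the exponents in `Z`. -/
noncomputable def part (Z : Set ℕ) (F : k[X]) : k[X] :=
  open Classical in ∑ i ∈ F.support, if i ∈ Z then monomial i (F.coeff i) else 0

open Classical in
theorem coeff_part (Z : Set ℕ) (F : k[X]) (n : ℕ) :
    (part Z F).coeff n = if n ∈ Z then F.coeff n else 0 := by
  unfold part
  rw [finsetSum_coeff]
  have h : ∀ i ∈ F.support, (if i ∈ Z then monomial i (F.coeff i) else 0 : k[X]).coeff n =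
      if i = n then (if n ∈ Z then F.coeff n else 0) else 0 := by
    intro i _
    by_cases h1 : i = n
    · subst h1
      by_cases h2 : i ∈ Z
      · rw [if_pos h2, if_pos rfl, if_pos h2, coeff_monomial, if_pos rfl]
      · rw [if_neg h2, if_pos rfl, if_neg h2, coeff_zero]
    · rw [if_neg h1]
      by_cases h2 : i ∈ Z
      · rw [if_pos h2, coeff_monomial, if_neg h1]
      · rw [if_neg h2, coeff_zero]
  rw [Finset.sum_congr rfl h, Finset.sum_ite_eq' F.support n]
  by_cases h1 : n ∈ F.support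
  · rw [if_pos h1]
  · rw [if_neg h1]
    rw [notMem_support_iff] at h1
    rw [h1]
    split_ifs <;> rfl

theorem part_add (Z : Set ℕ) (F G : k[X]) : part Z (F + G) = part Z F + part Z G := by
  ext n
  rw [coeff_add, coeff_part, coeff_part, coeff_part, coeff_add]
  split_ifs <;> simp

theorem part_sub (Z : Set ℕ) (F G : k[X]) : part Z (F - G) = part Z F - part Z G := by
  ext n
  rw [coeff_sub, coeff_part, coeff_part, coeff_part, coeff_sub]
  split_ifs <;> simp

theorem part_eq_self {Z : Set ℕ} {F : k[X]} (h : ∀ n, n ∉ Z → F.coeff n = 0) : part Z F = F := by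
  ext n
  rw [coeff_part]
  split_ifs with h1
  · rfl
  · exact (h n h1).symm

theorem part_eq_zero {Z : Set ℕ} {F : k[X]} (h : ∀ n, n ∈ Z → F.coeff n = 0) : part Z F = 0 := by
  ext n
  rw [coeff_part]
  split_ifs with h1
  · rw [h n h1, coeff_zero]
  · rw [coeff_zero]

/-- `Z` is a union of residue classes mod `q`. -/
def Per (q : ℕ) (Z : Set ℕ) : Prop := ∀ n, n ∈ Z ↔ n + q ∈ Z

theorem Per.add_mul {q : ℕ} {Z : Set ℕ} (h : Per q Z) (n m : ℕ) : n ∈ Z ↔ n + q * m ∈ Z := by
  induction m with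
  | zero => simp
  | succ m ih =>
    rw [ih, Nat.mul_succ, ← Nat.add_assoc]
    exact h _

theorem Per.compl {q : ℕ} {Z : Set ℕ} (h : Per q Z) : Per q Zᶜ := fun n => not_congr (h n)

theorem Per.union {q : ℕ} {Z Z' : Set ℕ} (h : Per q Z) (h' : Per q Z') : Per q (Z ∪ Z') :=
  fun n => or_congr (h n) (h' n)

theorem Per.empty (q : ℕ) : Per q (∅ : Set ℕ) := fun _ => Iff.rfl

/-- Multiplication with a polynomial in `X ^ q` respects the parts. -/
theorem part_expand_mul {q : ℕ} (hq : 0 < q) {Z : Set ℕ} (hZ : Per q Z) (D G : k[X]) :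
    part Z (expand k q D * G) = expand k q D * part Z G := by
  classical
  ext n
  rw [coeff_part, coeff_mul, coeff_mul]
  have key : ∀ x ∈ Finset.HasAntidiagonal.antidiagonal n,
      (expand k q D).coeff x.1 * (part Z G).coeff x.2 =
      if n ∈ Z then (expand k q D).coeff x.1 * G.coeff x.2 else 0 := by
    rintro ⟨i, j⟩ hx
    rw [Finset.HasAntidiagonal.mem_antidiagonal] at hx
    dsimp only at hx ⊢
    rw [coeff_expand hq, coeff_part]
    by_cases h1 : q ∣ i
    · obtain ⟨m, rfl⟩ := h1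
      have h2 : j ∈ Z ↔ n ∈ Z := by
        rw [hZ.add_mul j m, ← hx, Nat.add_comm]
      by_cases h3 : n ∈ Z
      · rw [if_pos h3, if_pos (h2.2 h3)]
      · rw [if_neg h3, if_neg (fun h => h3 (h2.1 h)), mul_zero]
    · rw [if_neg h1, zero_mul, zero_mul]
      split_ifs <;> rfl
  rw [Finset.sum_congr rfl key]
  split_ifs with h
  · rfl
  · rw [Finset.sum_const_zero]

section char

variable (p : ℕ) [Fact p.Prime] [CharP k p]

/-- `(X - c) ^ (q N)` is a polynomial in `X ^ q`. -/
theorem pow_mul_eq_expand (c : k) (j N : ℕ) :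
    (X - C c) ^ (p ^ j * N) = expand k (p ^ j) ((X - C (c ^ p ^ j)) ^ N) := by
  rw [pow_mul, sub_pow_char_pow, map_pow, map_sub, expand_X, expand_C, C_pow]

/-- **Master lemma.** -/
theorem master {c : k} {j N : ℕ} {Z : Set ℕ} (hZ : Per (p ^ j) Z) {F E : k[X]}
    (hF : ∀ n, n ∈ Z → F.coeff n = 0) (hE : ∀ n, n ∉ Z → E.coeff n = 0)
    (h : (X - C c) ^ (p ^ j * N) ∣ F - E) : (X - C c) ^ (p ^ j * N) ∣ F := by
  have hq : 0 < p ^ j := pow_pos (Fact.out : p.Prime).pos j
  obtain ⟨G, hG⟩ := h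
  rw [pow_mul_eq_expand] at hG ⊢
  have h1 : part Zᶜ (F - E) = F := by
    rw [part_sub, part_eq_self (Z := Zᶜ) (F := F) (fun n hn => hF n (by simpa using hn)),
      part_eq_zero (Z := Zᶜ) (F := E) (fun n hn => hE n hn), sub_zero]
  have h2 : part Zᶜ (F - E) = expand k (p ^ j) ((X - C (c ^ p ^ j)) ^ N) * part Zᶜ G := by
    rw [hG, part_expand_mul hq hZ.compl]
  exact ⟨part Zᶜ G, by rw [← h2, h1]⟩

end char

/-- A polynomial `X ^ a * H` divisible by `(X - c) ^ n`, `deg H < n`, is `0`. -/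
theorem eq_zero_of_dvd {c : k} (hc : c ≠ 0) {a n : ℕ} {H : k[X]} (hH : H.natDegree < n)
    (h : (X - C c) ^ n ∣ X ^ a * H) : H = 0 := by
  have h1 : IsCoprime ((X - C c) ^ n) (X ^ a : k[X]) := by
    apply IsCoprime.pow
    have h2 : IsCoprime (X - C c) (X - C 0 : k[X]) :=
      isCoprime_X_sub_C_of_isUnit_sub (by rw [sub_zero]; exact isUnit_iff_ne_zero.2 hc)
    rwa [C_0, sub_zero] at h2
  have h3 : (X - C c) ^ n ∣ H := h1.dvd_of_dvd_mul_left h
  by_contra hne
  have h4 := natDegree_le_of_dvd h3 hne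
  rw [natDegree_pow, natDegree_X_sub_C, mul_one] at h4
  omega

section char

variable (p : ℕ) [Fact p.Prime] [CharP k p]

/-- A sparse polynomial with the exponents outside of `Z` is not congruent to one with the
exponents in `Z`. -/
theorem eq_zero_of_sparse {c : k} (hc : c ≠ 0) {j N a : ℕ} {Z : Set ℕ} (hZ : Per (p ^ j) Z)
    {H E : k[X]} (hH : H.natDegree < p ^ j * N) (hF : ∀ n, n ∈ Z → (X ^ a * H).coeff n = 0)
    (hE : ∀ n, n ∉ Z → E.coeff n = 0) (h : (X - C c) ^ (p ^ j * N) ∣ X ^ a * H - E) : H = 0 :=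
  eq_zero_of_dvd hc hH (master p hZ hF hE h)

/-! ### Polynomials in a new coordinate -/

/-- `E` has all its exponents in `Z`. -/
def In (Z : Set ℕ) (E : k[X]) : Prop := ∀ n, n ∉ Z → E.coeff n = 0

omit [Fact p.Prime] [CharP k p] in
theorem In.zero (Z : Set ℕ) : In Z (0 : k[X]) := fun _ _ => coeff_zero _

theorem In.add {Z : Set ℕ} {E E' : k[X]} (h : In Z E) (h' : In Z E') : In Z (E + E') :=
  fun n hn => by rw [coeff_add, h n hn, h' n hn, add_zero]

theorem In.sum {ι : Type*} {Z : Set ℕ} {s : Finset ι} {E : ι → k[X]} (h : ∀ i ∈ s, In Z (E i)) :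
    In Z (∑ i ∈ s, E i) := by
  intro n hn
  rw [finsetSum_coeff]
  exact Finset.sum_eq_zero fun i hi => h i hi n hn

theorem In.mono {Z Z' : Set ℕ} (hZ : Z ⊆ Z') {E : k[X]} (h : In Z E) : In Z' E :=
  fun n hn => h n fun h' => hn (hZ h')

/-- The multiples of `m`. -/
def Mul (m : ℕ) : Set ℕ := {n | m ∣ n}

/-- The class of `e` mod `q`. -/
def Cls (q e : ℕ) : Set ℕ := {n | n ≡ e [MOD q]}

theorem Per.mul {m q : ℕ} (h : m ∣ q) : Per q (Mul m) := fun n => by
  show m ∣ n ↔ m ∣ n + q
  exact (Nat.dvd_add_left h).symm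

theorem Per.cls (q e : ℕ) : Per q (Cls q e) := fun n => by
  show n ≡ e [MOD q] ↔ n + q ≡ e [MOD q]
  have h : n + q ≡ n [MOD q] := by
    unfold Nat.ModEq
    rw [Nat.add_mod_right]
  exact ⟨fun h1 => h.trans h1, fun h1 => h.symm.trans h1⟩

theorem in_expand {m : ℕ} (hm : 0 < m) (E : k[X]) : In (Mul m) (expand k m E) := by
  intro n hn
  have hn' : ¬ m ∣ n := hn
  rw [coeff_expand hm, if_neg hn']

theorem in_X_pow_mul_expand {q e : ℕ} (hq : 0 < q) (E : k[X]) :
    In (Cls q e) (X ^ e * expand k q E) := by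
  intro n hn
  rw [coeff_X_pow_mul', coeff_expand hq]
  split_ifs with h1 h2
  · exfalso
    apply hn
    show n ≡ e [MOD q]
    exact ((Nat.modEq_iff_dvd' h1).2 h2).symm
  · rfl
  · rfl

/-- The `p ^ j`-th power of a polynomial is a polynomial in `X ^ (p ^ j)`. -/
theorem pow_eq_expand (j : ℕ) (W : k[X]) :
    ∃ W' : k[X], W ^ p ^ j = expand k (p ^ j) W' := by
  refine ⟨W.map (iterateFrobenius k p j), ?_⟩
  rw [← map_expand, map_iterateFrobenius_expand]

/-- A polynomial in a `p ^ j`-th power. -/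
theorem comp_expand (j : ℕ) (K W : k[X]) :
    ∃ K' : k[X], (expand k (p ^ j) K).comp W = expand k (p ^ j) K' := by
  obtain ⟨W', hW'⟩ := pow_eq_expand p j W
  refine ⟨K.comp W', ?_⟩
  rw [expand_eq_comp_X_pow, comp_assoc, X_pow_comp, hW', expand_eq_comp_X_pow,
    expand_eq_comp_X_pow, comp_assoc]

end char

end Pool.Agent.TWN
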