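import Pool.Agent.Lib.TW_NFG.Alg

/-!
# NFG, `s = 2`: the algebra of one step, part 2

* `transfer`, `transfer_mul`, `transfer_B`: a sparse polynomial without exponents in the class has in
  every new coordinate an exponent outside of the class, which is small;
* `order_le`, `order_deriv_le`: the order of a sparse form;
* `ex_deriv`, `ex_fun`: the order of a form in one variable is not `≡ - 1`;
* `obstruction`, `obstruction_deriv`: a tie with a single monomial in the class has order `< q`;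
* `descent`: the numerical descent.
-/

set_option autoImplicit false

open Polynomial

namespace Pool.Agent.TWN

variable {k : Type*} [Field k] (p : ℕ) [Fact p.Prime] [CharP k p]

/-- **Transfer.** -/
theorem transfer {c : k} (hc : c ≠ 0) {j N a : ℕ} {Z : Set ℕ} (hZ : Per (p ^ j) Z)
    {H : k[X]} (h0 : H ≠ 0) (hH : H.natDegree < p ^ j * N)
    (hF : ∀ n, n ∈ Z → (X ^ a * H).coeff n = 0) {W : k[X]} (hW : X - C c ∣ W) {P : k[X]}
    (hP : (X - C c) ^ (p ^ j * N) ∣ P.comp W - X ^ a * H) (Zn : Set ℕ)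
    (hZn : ∀ E : k[X], In Zn E →
      ∃ E' : k[X], In Z E' ∧ (X - C c) ^ (p ^ j * N) ∣ E.comp W - E') :
    ∃ i < p ^ j * N, i ∉ Zn ∧ P.coeff i ≠ 0 := by
  classical
  by_contra hcon
  push Not at hcon
  set M := p ^ j * N with hM
  -- the low part of `P` has its exponents in `Zn`
  let E : k[X] := part {i | i < M} P
  have hE : In Zn E := by
    intro n hn
    show (part {i | i < M} P).coeff n = 0
    rw [coeff_part]
    split_ifs with h1
    · exact hcon n h1 hn
    · rfl
  obtain ⟨R, hR⟩ : (X ^ M : k[X]) ∣ P - E := by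
    rw [X_pow_dvd_iff]
    intro d hd
    show (P - part {i | i < M} P).coeff d = 0
    rw [coeff_sub, coeff_part, if_pos (show d ∈ {i | i < M} from hd), sub_self]
  obtain ⟨E', hE', hdvd⟩ := hZn E hE
  have h1 : (X - C c) ^ M ∣ P.comp W - E.comp W := by
    rw [← sub_comp, hR, mul_comp, X_pow_comp]
    exact (pow_dvd_pow_of_dvd hW M).mul_right _
  have h2 : (X - C c) ^ M ∣ X ^ a * H - E' := by
    have h3 := (dvd_sub (dvd_add h1 hdvd) hP)
    have h4 : P.comp W - E.comp W + (E.comp W - E') - (P.comp W - X ^ a * H) =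
      X ^ a * H - E' := by ring
    rwa [h4] at h3
  exact h0 (eq_zero_of_sparse p hc hZ hH hF hE' h2)

omit [Fact p.Prime] [CharP k p] in
/-- A polynomial with exponents in the multiples of `m`. -/
theorem eq_expand_of_in {m : ℕ} (hm : 0 < m) {E : k[X]} (h : In (Mul m) E) :
    ∃ K : k[X], E = expand k m K := by
  refine ⟨contract m E, ?_⟩
  ext n
  rw [coeff_expand hm]
  split_ifs with h1
  · rw [coeff_contract hm.ne', Nat.div_mul_cancel h1]
  · exact h n h1

theorem comp_in_mul {i j : ℕ} (_hij : i ≤ j) (W : k[X]) {E : k[X]} (h : In (Mul (p ^ i)) E) :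
    In (Mul (p ^ i)) (E.comp W) := by
  have hp : 0 < p ^ i := pow_pos (Fact.out : p.Prime).pos i
  obtain ⟨K, rfl⟩ := eq_expand_of_in hp h
  obtain ⟨K', hK'⟩ := comp_expand p i K W
  rw [hK']
  exact in_expand hp K'

/-- Transfer for the class of the `p ^ i`-th powers. -/
theorem transfer_mul {c : k} (hc : c ≠ 0) {i j N a : ℕ} (hij : i ≤ j)
    {H : k[X]} (h0 : H ≠ 0) (hH : H.natDegree < p ^ j * N)
    (hF : ∀ n, p ^ i ∣ n → (X ^ a * H).coeff n = 0) {W : k[X]} (hW : X - C c ∣ W) {P : k[X]}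
    (hP : (X - C c) ^ (p ^ j * N) ∣ P.comp W - X ^ a * H) :
    ∃ n < p ^ j * N, ¬ p ^ i ∣ n ∧ P.coeff n ≠ 0 :=
  transfer p hc (Per.mul (pow_dvd_pow p hij)) h0 hH hF hW hP (Mul (p ^ i)) fun E hE =>
    ⟨E.comp W, comp_in_mul p hij W hE, by rw [sub_self]; exact dvd_zero _⟩

/-- Transfer without a class. -/
theorem transfer_none {c : k} (hc : c ≠ 0) {j N a : ℕ}
    {H : k[X]} (h0 : H ≠ 0) (hH : H.natDegree < p ^ j * N) {W : k[X]} (hW : X - C c ∣ W) {P : k[X]}
    (hP : (X - C c) ^ (p ^ j * N) ∣ P.comp W - X ^ a * H) :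
    ∃ n < p ^ j * N, P.coeff n ≠ 0 := by
  obtain ⟨i, hi, -, h⟩ := transfer p hc (Per.empty (p ^ j)) h0 hH (fun n hn => hn.elim) hW hP ∅
    fun E hE => ⟨0, In.zero _, by
      have : E = 0 := by
        ext n
        rw [coeff_zero]
        exact hE n (fun h => h.elim)
      rw [this, zero_comp, sub_self]
      exact dvd_zero _⟩
  exact ⟨i, hi, h⟩

/-- The composition with a coordinate `W ≡ X ^ e * R ^ q + G ^ p`. -/
theorem comp_in_B {c : k} {j N e : ℕ} (hj : 1 ≤ j) {W R G : k[X]}
    (hW : (X - C c) ^ (p ^ j * N) ∣ W - (X ^ e * R ^ p ^ j + G ^ p)) {E : k[X]}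
    (hE : In (Cls (p ^ j) 1 ∪ Mul p) E) :
    ∃ E' : k[X], In (Cls (p ^ j) e ∪ Mul p) E' ∧ (X - C c) ^ (p ^ j * N) ∣ E.comp W - E' := by
  classical
  have hp := (Fact.out : p.Prime)
  have hq : 0 < p ^ j := pow_pos hp.pos j
  have hq1 : 1 < p ^ j := Nat.one_lt_pow (by omega) hp.one_lt
  -- the two parts
  have h1 : ∃ K : k[X], part (Cls (p ^ j) 1) E = X * expand k (p ^ j) K := by
    refine ⟨contract (p ^ j) (divX (part (Cls (p ^ j) 1) E)), ?_⟩
    ext n
    rw [coeff_part]
    rcases n with _ | n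
    · rw [if_neg, coeff_X_mul_zero]
      intro h
      have h' : 0 ≡ 1 [MOD p ^ j] := h
      rw [Nat.ModEq, Nat.zero_mod, Nat.mod_eq_of_lt hq1] at h'
      omega
    · rw [coeff_X_mul, coeff_expand hq]
      have h2 : (n + 1 ∈ Cls (p ^ j) 1) ↔ p ^ j ∣ n := by
        show n + 1 ≡ 1 [MOD p ^ j] ↔ _
        rw [Nat.ModEq.comm, Nat.modEq_iff_dvd' (by omega), Nat.add_sub_cancel]
      by_cases h3 : p ^ j ∣ n
      · rw [if_pos (h2.2 h3), if_pos h3, coeff_contract hq.ne', Nat.div_mul_cancel h3, coeff_divX,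
          coeff_part, if_pos (h2.2 h3)]
      · rw [if_neg (fun h => h3 (h2.1 h)), if_neg h3]
  obtain ⟨K, hK⟩ := h1
  have h2 : In (Mul p) (E - part (Cls (p ^ j) 1) E) := by
    intro n hn
    rw [coeff_sub, coeff_part]
    split_ifs with h3
    · rw [sub_self]
    · rw [sub_zero]
      exact hE n (fun h => h.elim h3 hn)
  have h2' := comp_in_mul p (i := 1) (j := 1) le_rfl W (by rwa [pow_one])
  rw [pow_one] at h2'
  obtain ⟨K', hK'⟩ := comp_expand p j K W
  obtain ⟨R', hR'⟩ := pow_eq_expand p j R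
  obtain ⟨G', hG'⟩ := pow_eq_expand p 1 G
  rw [pow_one] at hG'
  refine ⟨X ^ e * expand k (p ^ j) (R' * K') + G ^ p * expand k (p ^ j) K' +
    (E - part (Cls (p ^ j) 1) E).comp W, ?_, ?_⟩
  · refine In.add (In.add ?_ ?_) (h2'.mono Set.subset_union_right)
    · exact (in_X_pow_mul_expand hq _).mono Set.subset_union_left
    · refine In.mono Set.subset_union_right ?_
      obtain ⟨j', rfl⟩ : ∃ j', j = j' + 1 := ⟨j - 1, by omega⟩
      rw [hG', pow_succ', ← expand_expand, ← map_mul]
      exact in_expand hp.pos _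
  · have h3 : E.comp W = W * expand k (p ^ j) K' + (E - part (Cls (p ^ j) 1) E).comp W := by
      conv_lhs => rw [← add_sub_cancel (part (Cls (p ^ j) 1) E) E]
      rw [add_comp, hK, mul_comp, X_comp, hK']
    have h4 : E.comp W - (X ^ e * expand k (p ^ j) (R' * K') + G ^ p * expand k (p ^ j) K' +
        (E - part (Cls (p ^ j) 1) E).comp W) =
        (W - (X ^ e * R ^ p ^ j + G ^ p)) * expand k (p ^ j) K' := by
      rw [h3, map_mul, hR']
      ring
    rw [h4]
    exact hW.mul_right _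

/-- Transfer, type B. -/
theorem transfer_B {c : k} (hc : c ≠ 0) {j N a e : ℕ} (hj : 1 ≤ j)
    {H : k[X]} (h0 : H ≠ 0) (hH : H.natDegree < p ^ j * N)
    (hF : ∀ n, n ≡ e [MOD p ^ j] ∨ p ∣ n → (X ^ a * H).coeff n = 0)
    {W R G : k[X]} (hW : X - C c ∣ W)
    (hW' : (X - C c) ^ (p ^ j * N) ∣ W - (X ^ e * R ^ p ^ j + G ^ p)) {P : k[X]}
    (hP : (X - C c) ^ (p ^ j * N) ∣ P.comp W - X ^ a * H) :
    ∃ n < p ^ j * N, ¬ n ≡ 1 [MOD p ^ j] ∧ ¬ p ∣ n ∧ P.coeff n ≠ 0 := by
  have hper : Per (p ^ j) (Mul p) := Per.mul (dvd_pow_self p (by omega))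
  obtain ⟨n, hn, hn1, hn2⟩ := transfer p hc ((Per.cls (p ^ j) e).union hper) h0 hH
    (fun n hn => hF n hn) hW hP (Cls (p ^ j) 1 ∪ Mul p) fun E hE => comp_in_B p hj hW' hE
  exact ⟨n, hn, fun h => hn1 (Or.inl h), fun h => hn1 (Or.inr h), hn2⟩

/-! ### Orders -/

omit [CharP k p] in
theorem order_le {c : k} (hc : c ≠ 0) {a n : ℕ} {H : k[X]} (h0 : H ≠ 0)
    (h : (X - C c) ^ n ∣ X ^ a * H) : n ≤ H.natDegree := by
  by_contra hn
  exact h0 (eq_zero_of_dvd hc (by omega) h)

omit [Fact p.Prime] in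
/-- `X ^ a * H` without exponents divisible by `p`: the order of the derivative. -/
theorem order_deriv_le {c : k} (hc : c ≠ 0) {a n : ℕ} {H : k[X]} (h0 : H ≠ 0)
    (hF : ∀ n, p ∣ n → (X ^ a * H).coeff n = 0)
    (h : (X - C c) ^ n ∣ derivative (X ^ a * H)) : n ≤ H.natDegree := by
  -- `X * (X ^ a * H)' = X ^ a * (a H + X H')`
  have h1 : X * derivative (X ^ a * H) = X ^ a * ((a : k[X]) * H + X * derivative H) := by
    rcases a with _ | a
    · rw [pow_zero, one_mul]
      simp
    · rw [derivative_mul, derivative_X_pow, C_eq_natCast, Nat.add_sub_cancel, pow_succ]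
      push_cast
      ring
  have h2 : (X - C c) ^ n ∣ X ^ a * ((a : k[X]) * H + X * derivative H) := by
    rw [← h1]
    exact h.mul_left _
  have h3 : ((a : k[X]) * H + X * derivative H) ≠ 0 := by
    intro h4
    obtain ⟨t, ht⟩ : ∃ t, H.coeff t ≠ 0 := by
      by_contra hcon
      push Not at hcon
      exact h0 (by ext t; rw [hcon t, coeff_zero])
    have h5 : ((a : k[X]) * H + X * derivative H).coeff t = ((a + t : ℕ) : k) * H.coeff t := by
      rw [coeff_add, ← C_eq_natCast, coeff_C_mul]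
      rcases t with _ | t
      · rw [coeff_X_mul_zero]
        push_cast
        ring
      · rw [coeff_X_mul, coeff_derivative]
        push_cast
        ring
    rw [h4, coeff_zero] at h5
    have h6 : ((a + t : ℕ) : k) = 0 := by
      rcases mul_eq_zero.1 h5.symm with h | h
      · exact h
      · exact absurd h ht
    rw [CharP.cast_eq_zero_iff k p] at h6
    apply ht
    have h7 := hF (a + t) h6
    rwa [coeff_X_pow_mul', if_pos (by omega), Nat.add_sub_cancel_left] at h7
  have h4 := order_le (k := k) hc h3 h2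
  refine h4.trans ?_
  refine (natDegree_add_le _ _).trans (max_le ?_ ?_)
  · rw [← C_eq_natCast]
    exact natDegree_C_mul_le _ _
  · by_cases h5 : derivative H = 0
    · rw [h5, mul_zero, natDegree_zero]
      omega
    · rw [natDegree_X_mul h5]
      have h6 := natDegree_derivative_lt (p := H) (by
        intro h7
        apply h5
        rw [eq_C_of_natDegree_eq_zero h7, derivative_C])
      omega

omit [Fact p.Prime] in
/-- The order of a derivative is not `≡ - 1`. -/
theorem ex_deriv {c : k} {n : ℕ} (hn : p ∣ n + 1) {F : k[X]}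
    (h : (X - C c) ^ n ∣ derivative F) : (X - C c) ^ (n + 1) ∣ derivative F := by
  have key : ∀ (m : ℕ) (G : k[X]), (X - C c) ^ m ∣ G ↔ (X : k[X]) ^ m ∣ G.comp (X + C c) := by
    intro m G
    constructor
    · rintro ⟨Q, rfl⟩
      rw [mul_comp, pow_comp, sub_comp, X_comp, C_comp, add_sub_cancel_right]
      exact dvd_mul_right _ _
    · rintro ⟨Q, hQ⟩
      refine ⟨Q.comp (X - C c), ?_⟩
      have h1 : (G.comp (X + C c)).comp (X - C c) = G := by
        rw [comp_assoc, add_comp, X_comp, C_comp, sub_add_cancel, comp_X]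
      rw [← h1, hQ, mul_comp, X_pow_comp]
  rw [key, X_pow_dvd_iff] at h ⊢
  have h1 : (derivative F).comp (X + C c) = derivative (F.comp (X + C c)) := by
    rw [derivative_comp, derivative_add, derivative_X, derivative_C, add_zero, one_mul]
  intro d hd
  by_cases hd' : d < n
  · exact h d hd'
  · obtain rfl : d = n := by omega
    rw [h1, coeff_derivative]
    have h2 : ((d : k) + 1) = ((d + 1 : ℕ) : k) := by push_cast; ring
    rw [h2, (CharP.cast_eq_zero_iff k p (d + 1)).2 hn, mul_zero]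

/-- The order of `F dlog + dF` is not `≡ - 1`. -/
theorem ex_fun {c : k} {n : ℕ} (hn : p ∣ n + 1) {F : k[X]} (h0 : (X - C c) ^ n ∣ F)
    (h : (X - C c) ^ n ∣ derivative F) : (X - C c) ^ (n + 1) ∣ F := by
  obtain ⟨G, rfl⟩ := h0
  rcases n with _ | n
  · exfalso
    have := (Fact.out : p.Prime).one_lt
    have := Nat.le_of_dvd (by omega) hn
    omega
  · have hne : (X - C c) ^ n ≠ 0 := pow_ne_zero _ (X_sub_C_ne_zero c)
    have h1 : derivative ((X - C c) ^ (n + 1) * G) =
        (X - C c) ^ n * (((n + 1 : ℕ) : k[X]) * G + (X - C c) * derivative G) := by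
      rw [derivative_mul, derivative_X_sub_C_pow, Nat.add_sub_cancel, pow_succ, C_eq_natCast]
      ring
    rw [h1, pow_succ, mul_dvd_mul_iff_left hne] at h
    have h2 : X - C c ∣ ((n + 1 : ℕ) : k[X]) * G := by
      have := dvd_sub h (dvd_mul_right (X - C c) (derivative G))
      rwa [add_sub_cancel_right] at this
    have h3 : IsUnit ((n + 1 : ℕ) : k[X]) := by
      rw [← C_eq_natCast, isUnit_C, isUnit_iff_ne_zero]
      intro h4
      rw [CharP.cast_eq_zero_iff k p] at h4
      have h5 : p ∣ 1 := by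
        have := (Nat.dvd_add_right h4).1 hn
        exact this
      exact (Fact.out : p.Prime).one_lt.ne' (Nat.dvd_one.1 h5)
    rw [pow_succ (X - C c) (n + 1)]
    exact mul_dvd_mul_left _ ((h3.dvd_mul_left).1 h2)

/-! ### The obstruction -/

theorem obstruction {c : k} (hc : c ≠ 0) {j e : ℕ} {F : k[X]}
    (hF : ∀ n, n ≡ e [MOD p ^ j] → F.coeff n = 0) {b : k} (hb : b ≠ 0) :
    ¬ (X - C c) ^ p ^ j ∣ F + C b * X ^ e := by
  classical
  have hq : 0 < p ^ j := pow_pos (Fact.out : p.Prime).pos j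
  rintro ⟨G, hG⟩
  have h0 := pow_mul_eq_expand (k := k) p c j 1
  rw [mul_one] at h0
  have h1 : part (Cls (p ^ j) e) (F + C b * X ^ e) = C b * X ^ e := by
    rw [part_add, part_eq_zero (Z := Cls (p ^ j) e) (F := F) hF, zero_add]
    apply part_eq_self
    intro n hn
    rw [coeff_C_mul_X_pow, if_neg]
    rintro rfl
    exact hn (Nat.ModEq.refl _)
  rw [hG, h0, part_expand_mul hq (Per.cls _ _), ← h0] at h1
  have h2 : (X - C c) ^ p ^ j ∣ X ^ e * C b := ⟨_, by rw [mul_comm, ← h1]⟩
  have h3 := eq_zero_of_dvd hc (by rw [natDegree_C]; exact hq) h2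
  exact hb (C_eq_zero.1 h3)

theorem obstruction_deriv {c : k} (hc : c ≠ 0) {j e : ℕ} {F : k[X]}
    (hF : ∀ n, n ≡ e [MOD p ^ j] → F.coeff n = 0) {b : k} (hb : b ≠ 0) (he : ¬ p ∣ e) :
    ¬ (X - C c) ^ p ^ j ∣ derivative (F + C b * X ^ e) := by
  classical
  intro h
  have h1 : X * derivative (F + C b * X ^ e) =
      X * derivative F + C (b * (e : k)) * X ^ e := by
    rw [derivative_add, derivative_C_mul, derivative_X_pow]
    rcases e with _ | e
    · exact absurd (dvd_zero p) he
    · rw [Nat.add_sub_cancel, pow_succ, C_mul]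
      ring
  refine obstruction p hc (j := j) (e := e) (F := X * derivative F) ?_ (b := b * (e : k)) ?_
    (by rw [← h1]; exact h.mul_left _)
  · intro n hn
    rcases n with _ | n
    · rw [coeff_X_mul_zero]
    · rw [coeff_X_mul, coeff_derivative, hF _ hn, zero_mul]
  · refine mul_ne_zero hb ?_
    rw [Ne, CharP.cast_eq_zero_iff k p]
    exact he

omit [Fact p.Prime] [CharP k p] in
/-- **The numerical descent.** -/
theorem descent {q : ℕ} {e m : ℕ → ℕ} (h : ∀ j, e (j + 1) / q ≤ e j / m j / q)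
    (hinf : ∀ j, ∃ j', j ≤ j' ∧ 2 ≤ m j') : ∃ J, e J / q = 0 ∧ 2 ≤ m J := by
  have hmono : ∀ j j', j ≤ j' → e j' / q ≤ e j / q := by
    intro j j' hjj'
    induction j', hjj' using Nat.le_induction with
    | base => exact le_rfl
    | succ n _ ih => exact (h n).trans ((Nat.div_le_div_right (Nat.div_le_self _ _)).trans ih)
  have hstep : ∀ B, ∀ j, e j / q ≤ B → ∃ J, e J / q = 0 ∧ 2 ≤ m J := by
    intro B
    induction B with
    | zero =>
      intro j hj
      obtain ⟨j', hj', hm⟩ := hinf j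
      exact ⟨j', Nat.le_zero.1 ((hmono j j' hj').trans hj), hm⟩
    | succ B ih =>
      intro j hj
      obtain ⟨j', hj', hm⟩ := hinf j
      have h1 : e j' / q ≤ B + 1 := (hmono j j' hj').trans hj
      refine ih (j' + 1) ((h j').trans ?_)
      rw [Nat.div_div_eq_div_mul, mul_comm, ← Nat.div_div_eq_div_mul]
      have h2 : e j' / q / m j' ≤ e j' / q / 2 := Nat.div_le_div_left hm (by norm_num)
      omega
  exact hstep _ 0 le_rfl

end Pool.Agent.TWN
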