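import Pool.Agent.Lib.TW_NFG.Alg2

/-!
# NFG, `s = 2`: the algebra of one step, part 3

The transfer lemmas of `Alg2` with a factor `X ^ (q K)`, and the lemmas about orders in the new
coordinate.
-/

set_option autoImplicit false

open Polynomial

namespace Pool.Agent.TWN

variable {k : Type*} [Field k] (p : ℕ) [Fact p.Prime] [CharP k p]

omit [Fact p.Prime] [CharP k p] in
theorem In.X_pow_mul {q : ℕ} {Z : Set ℕ} (hZ : Per q Z) {E : k[X]} (h : In Z E) (K : ℕ) :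
    In Z (X ^ (q * K) * E) := by
  intro n hn
  rw [coeff_X_pow_mul']
  split_ifs with h1
  · refine h _ fun h2 => hn ?_
    have h3 := (hZ.add_mul (n - q * K) K).1 h2
    rwa [Nat.sub_add_cancel h1] at h3
  · rfl

/-- **Transfer.** -/
theorem transferK {c : k} (hc : c ≠ 0) {j N a K : ℕ} {Z : Set ℕ} (hZ : Per (p ^ j) Z)
    {H : k[X]} (h0 : H ≠ 0) (hH : H.natDegree < p ^ j * N)
    (hF : ∀ n, n ∈ Z → (X ^ a * H).coeff n = 0) {W : k[X]} (hW : X - C c ∣ W) {P : k[X]}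
    (hP : (X - C c) ^ (p ^ j * N) ∣ X ^ (p ^ j * K) * P.comp W - X ^ a * H) (Zn : Set ℕ)
    (hZn : ∀ E : k[X], In Zn E →
      ∃ E' : k[X], In Z E' ∧ (X - C c) ^ (p ^ j * N) ∣ E.comp W - E') :
    ∃ i < p ^ j * N, i ∉ Zn ∧ P.coeff i ≠ 0 := by
  classical
  by_contra hcon
  push Not at hcon
  set M := p ^ j * N with hM
  let E : k[X] := part {i | i < M} P
  have hE : In Zn E := by
    intro n hn
    show (part {i | i < M} P).coeff n = 0
    rw [coeff_part]
    split_ifs with h1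
    · exact hcon n h1 hn
    · rfl
  obtain ⟨R, hR⟩ : (X ^ M : k[X]) ∣ P - E := by
    rw [X_pow_dvd_iff]
    intro d hd
    show (P - part {i | i < M} P).coeff d = 0
    rw [coeff_sub, coeff_part, if_pos (show d ∈ {i | i < M} from hd), sub_self]
  obtain ⟨E', hE', hdvd⟩ := hZn E hE
  have h1 : (X - C c) ^ M ∣ P.comp W - E.comp W := by
    rw [← sub_comp, hR, mul_comp, X_pow_comp]
    exact (pow_dvd_pow_of_dvd hW M).mul_right _
  have h2 : (X - C c) ^ M ∣ X ^ a * H - X ^ (p ^ j * K) * E' := by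
    have h3 := (dvd_sub ((dvd_add h1 hdvd).mul_left (X ^ (p ^ j * K))) hP)
    have h4 : X ^ (p ^ j * K) * (P.comp W - E.comp W + (E.comp W - E')) -
      (X ^ (p ^ j * K) * P.comp W - X ^ a * H) = X ^ a * H - X ^ (p ^ j * K) * E' := by ring
    rwa [h4] at h3
  exact h0 (eq_zero_of_sparse p hc hZ hH hF (hE'.X_pow_mul hZ K) h2)

/-- Transfer for the class of the `p ^ i`-th powers. -/
theorem transferK_mul {c : k} (hc : c ≠ 0) {i j N a K : ℕ} (hij : i ≤ j)
    {H : k[X]} (h0 : H ≠ 0) (hH : H.natDegree < p ^ j * N)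
    (hF : ∀ n, p ^ i ∣ n → (X ^ a * H).coeff n = 0) {W : k[X]} (hW : X - C c ∣ W) {P : k[X]}
    (hP : (X - C c) ^ (p ^ j * N) ∣ X ^ (p ^ j * K) * P.comp W - X ^ a * H) :
    ∃ n < p ^ j * N, ¬ p ^ i ∣ n ∧ P.coeff n ≠ 0 :=
  transferK p hc (Per.mul (pow_dvd_pow p hij)) h0 hH hF hW hP (Mul (p ^ i)) fun E hE =>
    ⟨E.comp W, comp_in_mul p hij W hE, by rw [sub_self]; exact dvd_zero _⟩

/-- Transfer without a class. -/
theorem transferK_none {c : k} (hc : c ≠ 0) {j N a K : ℕ}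
    {H : k[X]} (h0 : H ≠ 0) (hH : H.natDegree < p ^ j * N) {W : k[X]} (hW : X - C c ∣ W) {P : k[X]}
    (hP : (X - C c) ^ (p ^ j * N) ∣ X ^ (p ^ j * K) * P.comp W - X ^ a * H) :
    ∃ n < p ^ j * N, P.coeff n ≠ 0 := by
  obtain ⟨i, hi, -, h⟩ := transferK p hc (Per.empty (p ^ j)) h0 hH (fun n hn => hn.elim) hW hP ∅
    fun E hE => ⟨0, In.zero _, by
      have : E = 0 := by
        ext n
        rw [coeff_zero]
        exact hE n (fun h => h.elim)
      rw [this, zero_comp, sub_self]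
      exact dvd_zero _⟩
  exact ⟨i, hi, h⟩

/-- Transfer, type B. -/
theorem transferK_B {c : k} (hc : c ≠ 0) {j N a e K : ℕ} (hj : 1 ≤ j)
    {H : k[X]} (h0 : H ≠ 0) (hH : H.natDegree < p ^ j * N)
    (hF : ∀ n, n ≡ e [MOD p ^ j] ∨ p ∣ n → (X ^ a * H).coeff n = 0)
    {W R G : k[X]} (hW : X - C c ∣ W)
    (hW' : (X - C c) ^ (p ^ j * N) ∣ W - (X ^ e * R ^ p ^ j + G ^ p)) {P : k[X]}
    (hP : (X - C c) ^ (p ^ j * N) ∣ X ^ (p ^ j * K) * P.comp W - X ^ a * H) :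
    ∃ n < p ^ j * N, ¬ n ≡ 1 [MOD p ^ j] ∧ ¬ p ∣ n ∧ P.coeff n ≠ 0 := by
  have hper : Per (p ^ j) (Mul p) := Per.mul (dvd_pow_self p (by omega))
  obtain ⟨n, hn, hn1, hn2⟩ := transferK p hc ((Per.cls (p ^ j) e).union hper) h0 hH
    (fun n hn => hF n hn) hW hP (Cls (p ^ j) 1 ∪ Mul p) fun E hE => comp_in_B p hj hW' hE
  exact ⟨n, hn, fun h => hn1 (Or.inl h), fun h => hn1 (Or.inr h), hn2⟩

omit [Fact p.Prime] [CharP k p] in
/-- The order in the coordinate `W` and in the coordinate `X`. -/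
theorem dvd_of_order {c : k} {N K a n : ℕ} {W P F : k[X]} (hW : X - C c ∣ W) (hn : n ≤ N)
    (hP : (X - C c) ^ N ∣ X ^ K * P.comp W - F) (h : X ^ n ∣ P) : (X - C c) ^ n ∣ F := by
  obtain ⟨R, rfl⟩ := h
  have h1 : (X - C c) ^ n ∣ X ^ K * (X ^ n * R).comp W := by
    rw [mul_comp, X_pow_comp]
    exact ((pow_dvd_pow_of_dvd hW n).mul_right _).mul_left _
  have h2 := dvd_sub h1 ((pow_dvd_pow _ hn).trans hP)
  rwa [sub_sub_cancel] at h2

/-- The order of the derivative. -/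
theorem dvd_of_order_deriv {c : k} {N K n : ℕ} {W P F : k[X]} (hW : X - C c ∣ W) (hn : n < N)
    (hK : p ∣ K) (hP : (X - C c) ^ N ∣ X ^ K * P.comp W - F) (h : X ^ n ∣ derivative P) :
    (X - C c) ^ n ∣ derivative F := by
  obtain ⟨Q, hQ⟩ := hP
  have h1 : derivative F = X ^ K * (derivative P).comp W * derivative W -
      derivative ((X - C c) ^ N * Q) := by
    rw [← hQ, derivative_sub, derivative_mul, derivative_X_pow, derivative_comp]
    have h2 : ((K : ℕ) : k) = 0 := (CharP.cast_eq_zero_iff k p K).2 hK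
    rw [h2, C_0, zero_mul, zero_mul, zero_add]
    ring
  rw [h1]
  refine dvd_sub ?_ ?_
  · obtain ⟨R, hR⟩ := h
    rw [hR, mul_comp, X_pow_comp]
    exact (((pow_dvd_pow_of_dvd hW n).mul_right _).mul_left _).mul_right _
  · rw [derivative_mul]
    refine dvd_add ?_ ?_
    · rw [derivative_X_sub_C_pow]
      exact ((pow_dvd_pow _ (by omega : n ≤ N - 1)).mul_left _).mul_right _
    · exact (pow_dvd_pow _ hn.le).mul_right _

end Pool.Agent.TWN
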