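import Pool.Agent.Lib.TW_NFG.RC

/-!
# NFG, `s = 2`: cleaning

`clean_step`: removing a class monomial of the index `τ` by a change of the centre of `Z`;
`exists_clean_of`: the cleaned representation.
-/

set_option autoImplicit false

open Polynomial

namespace Pool.Agent.TWN

open Pool.Agent.H15JM (RVal)
open Pool.Agent.LU1 (VPos)
open Pool.Agent.D2 (Ctx0)
open Pool.Agent.TWM (MS TL cadj VG)

universe u

variable {k Ω : Type u} [Field k] [Field Ω] [Algebra k Ω] {v : RVal Ω} {G G' : AddSubgroup ℝ}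
  {M M' : ℝ → Ω} {w t : Ω} {m : ℕ} {j : ℝ → ℤ → ℤ} {F K : IntermediateField k Ω}

/-- The coefficients at the new centre, when only the top source contributes. -/
theorem coeff_rc_two {q : ℕ} {c : k} {y : ℝ} {n₀ : ℕ} {P : ℕ → ℝ →₀ k[X]} {i : ℕ} (hi : i < q)
    {g : ℝ} {n : ℕ} (h : ∀ l, i < l → l < q → (l.choose i : k) ≠ 0 → ∀ x' ∈ terms (P l),
      ¬ (g = x'.1 + ((l : ℝ) - i) * y ∧ n = x'.2 + (l - i) * n₀)) :
    (rc q c y n₀ P i g).coeff n = (P i g).coeff n +
      (sh ((q.choose i : k) * c ^ (q - i)) (((q : ℝ) - i) * y) ((q - i) * n₀) (P q) g).coeff n := by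
  unfold rc
  rw [Finsupp.finset_sum_apply, finsetSum_coeff, Finset.sum_eq_add i q hi.ne]
  · rw [Nat.choose_self, Nat.cast_one, one_mul, Nat.sub_self, pow_zero, sub_self, zero_mul,
      Nat.zero_mul, sh_one]
  · intro l hl hli
    rw [Finset.mem_Icc] at hl
    by_contra hcon
    obtain ⟨h1, x', hx', h2, h3⟩ := mem_terms_sh (x := (g, n)) (mem_terms.2 hcon)
    exact h l (lt_of_le_of_ne hl.1 (Ne.symm hli.1)) (lt_of_le_of_ne hl.2 hli.2)
      (left_ne_zero_of_mul h1) x' hx' ⟨h2, h3⟩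
  · intro h1
    exact absurd (Finset.mem_Icc.2 ⟨le_rfl, hi.le⟩) h1
  · intro h1
    exact absurd (Finset.mem_Icc.2 ⟨hi.le, le_rfl⟩) h1

theorem Ix.sr {p i l : ℕ} (hp : p.Prime) (h : Sr p i l) (hl : Ix p l) : Ix p i := by
  rcases hl with hl | hl
  · exact Or.inl (h.dvd hp hl)
  · have h1 := h.1
    have h2 : i = 0 := by omega
    exact Or.inl (by rw [h2]; exact dvd_zero p)

theorem ext_of_lt {q : ℕ} {lam : ℝ} {nA : ℕ} {P : ℕ → ℝ →₀ k[X]} {i : ℕ} (hi : i < q) :
    ext q lam nA P i = P i := if_neg hi.ne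

theorem ext_self {q : ℕ} {lam : ℝ} {nA : ℕ} {P : ℕ → ℝ →₀ k[X]} :
    ext q lam nA P q = Finsupp.single lam (X ^ nA) := if_pos rfl

theorem mem_terms_single {lam : ℝ} {nA : ℕ} {x : ℝ × ℕ}
    (hx : x ∈ terms (Finsupp.single lam (X ^ nA : k[X]))) : x.1 = lam ∧ x.2 = nA := by
  classical
  rw [mem_terms, Finsupp.single_apply] at hx
  split_ifs at hx with h1
  · rw [coeff_X_pow] at hx
    split_ifs at hx with h2
    · exact ⟨h1.symm, h2⟩
    · exact absurd rfl hx
  · exact absurd (coeff_zero _) hx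

section char

variable {p q τ Q : ℕ} [hp : Fact p.Prime] [CharP k p] [CharP Ω p]

omit [CharP k p] [CharP Ω p] in
theorem mem_terms_shP {lam : ℝ} {nA : ℕ} {c : k} {y : ℝ} {n₀ : ℕ} {P : ℕ → ℝ →₀ k[X]} {i : ℕ}
    {x : ℝ × ℕ} (hx : x ∈ terms (shP p G q lam nA c y n₀ P i)) :
    x ∈ terms (rc q c y n₀ (ext q lam nA P) i) := by
  unfold shP at hx
  split_ifs at hx
  · exact (mem_terms_rst.1 hx).1
  · exact hx

/-- **Removing a class monomial.** -/
theorem clean_step [IsAlgClosed k] (hk : ∀ b : k, v.Ge 0 (algebraMap k Ω b))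
    (hprm : Prm p q τ Q) {a : Ω} {s D A₀ B : ℝ} {Z : Ω}
    {P : ℕ → ℝ →₀ k[X]} {lam : ℝ} {nA : ℕ}
    (hr : Rp p q v F K a s D A₀ (EC k v G M w Z (wM B A₀ (v w))) G M w Z P lam nA) {A : ℝ}
    {Mb : ℕ} {Lam : ℕ → ℝ} (hmk : Mk p q τ Q lam A s Mb Lam P) {ρ : ℝ}
    (htm : TM p q τ Q G lam nA A s Mb Lam P ρ) {x : ℝ × ℕ} (hx : x ∈ terms (P τ)) {y : ℝ}
    (hy : y ∈ G) {l : ℕ} (hx1 : x.1 = lam + Q * y) (hx2 : x.2 = nA + Q * l) {β : ℝ}
    (hhigh : ∀ i, τ < i → i < q → ∀ x' ∈ terms (P i),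
      lam + nA * β + ((q : ℝ) - i) * (y + l * β) < vm β x') :
    ∃ (Z₁ : Ω) (P₁ : ℕ → ℝ →₀ k[X]),
      Rp p q v F K a s D A₀ (EC k v G M w Z₁ (wM B A₀ (v w))) G M w Z₁ P₁ lam nA ∧
      Mk p q τ Q lam A s Mb Lam P₁ ∧ TM p q τ Q G lam nA A s Mb Lam P₁ ρ ∧
      ∀ i, τ ≤ i → i < q → ∀ x₁ ∈ terms (P₁ i), (x₁ ∈ terms (P i) ∧ (i = τ → x₁ ≠ x)) ∨
        ∃ l', i < l' ∧ l' < q ∧ ∃ x' ∈ terms (P l'),
          x₁ = (x'.1 + ((l' : ℝ) - i) * y, x'.2 + (l' - i) * l) := by
  classical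
  have hτq : τ < q := by have := hprm.hq; have := hprm.hQ; omega
  have hq : (q : ℝ) = τ + Q := by rw [hprm.hq]; push_cast; ring
  have hQ0 : (0 : ℝ) < Q := by
    have h1 := hprm.hQ
    exact_mod_cast (by omega : 0 < Q)
  have hqτ : q - τ = Q := by have := hprm.hq; omega
  have hpτ : p ∣ τ := by
    have h1 : τ = q - Q := by have := hprm.hq; omega
    rw [h1]
    exact Nat.dvd_sub hprm.hpq hprm.hpQ
  have hixP : ∀ i < q, P i ≠ 0 → Ix p i := fun i hi h0 => by
    by_contra h1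
    exact h0 (hr.ix i hi h1)
  -- the content
  have hyA : A ≤ y := by
    have h1 := (hmk.ct τ hτq).terms hx
    rw [hmk.tau, hx1] at h1
    have h2 : (Q : ℝ) * A ≤ Q * y := by linarith
    exact le_of_mul_le_mul_left h2 hQ0
  -- the coefficient
  have hch : (q.choose τ : k) ≠ 0 := fun h0 =>
    hprm.sq.2 ((CharP.cast_eq_zero_iff k p _).1 h0)
  obtain ⟨c, hc⟩ := IsAlgClosed.exists_pow_nat_eq (- (P τ x.1).coeff x.2 / (q.choose τ : k))
    (n := Q) (by have := hprm.hQ; omega)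
  have hc' : (q.choose τ : k) * c ^ Q = - (P τ x.1).coeff x.2 := by
    rw [hc, mul_div_cancel₀ _ hch]
  set P₁ := shP p G q lam nA c y l P with hP₁
  -- sources
  have hsrc : ∀ i, i < q → ∀ x₁ ∈ terms (rc q c y l (ext q lam nA P) i), x₁ ∈ terms (P i) ∨
      (∃ l', Sr p i l' ∧ l' < q ∧ ∃ x' ∈ terms (P l'), x₁.1 = x'.1 + ((l' : ℝ) - i) * y ∧
        x₁.2 = x'.2 + (l' - i) * l) ∨
      (Sr p i q ∧ x₁.1 = lam + ((q : ℝ) - i) * y ∧ x₁.2 = nA + (q - i) * l) := by
    intro i hi x₁ hx₁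
    obtain ⟨l', h1, h2, h3, x', hx', h4, h5⟩ := mem_terms_rc hx₁
    rcases h1.eq_or_lt with rfl | h1
    · rw [ext_of_lt hi] at hx'
      rw [sub_self, zero_mul, add_zero] at h4
      rw [Nat.sub_self, Nat.zero_mul, add_zero] at h5
      have h6 : x₁ = x' := Prod.ext h4 h5
      exact Or.inl (h6 ▸ hx')
    · rcases h2.eq_or_lt with rfl | h2
      · rw [ext_self] at hx'
        obtain ⟨h6, h7⟩ := mem_terms_single hx'
        rw [h6] at h4
        rw [h7] at h5
        exact Or.inr (Or.inr ⟨sr_of_cast p h1 h3, h4, h5⟩)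
      · rw [ext_of_lt h2] at hx'
        exact Or.inr (Or.inl ⟨l', sr_of_cast p h1 h3, h2, x', hx', h4, h5⟩)
  -- the contents
  have hct : ∀ i < q, Ct (Lam i) (P₁ i) := by
    intro i hi
    refine Ct.of_terms fun x₁ hx₁ => ?_
    rcases hsrc i hi x₁ (mem_terms_shP hx₁) with h1 | ⟨l', h1, h2, x', hx', h3, -⟩ | ⟨h1, h2, -⟩
    · exact (hmk.ct i hi).terms h1
    · have h4 := (hmk.ct l' h2).terms hx'
      have h5 := hixP l' h2 (ne_zero_of_coeff (mem_terms.1 hx'))
      have h6 := hmk.le i l' h1 h2 (Ix.sr hp.out h1 h5) h5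
      have h7 : (i : ℝ) < l' := by exact_mod_cast h1.1
      have h8 : ((l' : ℝ) - i) * A ≤ (l' - i) * y := mul_le_mul_of_nonneg_left hyA (by linarith)
      rw [h3]
      linarith
    · have h6 := hmk.leq i hi h1
      have h7 : (i : ℝ) < q := by exact_mod_cast hi
      have h8 : ((q : ℝ) - i) * A ≤ (q - i) * y := mul_le_mul_of_nonneg_left hyA (by linarith)
      rw [h2]
      linarith
  -- the coefficients which do not change
  have hkeep : ∀ i < q, ∀ g n, (P i g).coeff n ≠ 0 →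
      (∀ l', i < l' → l' ≤ q → (l'.choose i : k) ≠ 0 → ∀ x' ∈ terms (ext q lam nA P l'),
        ¬ (g = x'.1 + ((l' : ℝ) - i) * y ∧ n = x'.2 + (l' - i) * l)) →
      (P₁ i g).coeff n ≠ 0 := by
    intro i hi g n hn h1
    have h2 := coeff_rc_of (q := q) (c := c) (y := y) (n₀ := l) (P := ext q lam nA P) hi.le h1
    rw [ext_of_lt hi] at h2
    rw [hP₁]
    unfold shP
    split_ifs with hpi
    · rw [coeff_rst, if_pos, h2]
      · exact hn
      · exact hr.npd i hi hpi (g, n) (mem_terms.2 hn)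
    · rw [h2]
      exact hn
  have hlt : lam < D := by
    have h1 := hr.lam_lt hp.out.ne_zero
    have h2 : 0 ≤ (nA : ℝ) * v w := mul_nonneg (Nat.cast_nonneg _) hr.frm.wpos.le
    linarith
  have hlowx := (hr.low τ hτq).terms hx
  have hya : A₀ < y := by
    rw [hx1, hq] at hlowx
    have h1 : (Q : ℝ) * A₀ < Q * y := by linarith
    exact lt_of_mul_lt_mul_left h1 hQ0.le
  have hZ := hr.shift hprm.hpq (EC.shiftZ hr.frm.ms (c := c) hy (n₀ := l) (by
      have h1 : 0 ≤ (l : ℝ) * v w := mul_nonneg (Nat.cast_nonneg _) hr.frm.wpos.le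
      linarith)) c hy l hya (fun i hi hs => by
      have hiτ : i ≤ τ := by
        by_contra hcon
        exact hprm.nsq i (by omega) hi hs
      have h1 : (i : ℝ) ≤ τ := by exact_mod_cast hiτ
      rw [hx1, hq] at hlowx
      have h2 : 0 ≤ ((τ : ℝ) - i) * (y - A₀) := mul_nonneg (by linarith) (by linarith)
      rw [hq]
      nlinarith) hk
  refine ⟨_, P₁, hZ, hmk.of hct ?_, htm.of ?_, ?_⟩
  · -- the markers
    intro i hiτ hown n hn
    refine hkeep i hown.lt _ n hn fun l' h1 h2 h3 x' hx' h4 => ?_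
    obtain ⟨h4, -⟩ := h4
    rcases h2.eq_or_lt with rfl | h2
    · rw [ext_self] at hx'
      obtain ⟨h6, -⟩ := mem_terms_single hx'
      have h7 := hown.frq (sr_of_cast p h1 h3)
      have h8 : (i : ℝ) < l' := by exact_mod_cast h1
      have h9 : ((l' : ℝ) - i) * A ≤ (l' - i) * y := mul_le_mul_of_nonneg_left hyA (by linarith)
      rw [h6] at h4
      linarith
    · rw [ext_of_lt h2] at hx'
      have h6 := (hmk.ct l' h2).terms hx'
      have h7 := hown.fr l' (sr_of_cast p h1 h3) h2 (hixP l' h2 (ne_zero_of_coeff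
        (mem_terms.1 hx')))
      have h8 : (i : ℝ) < l' := by exact_mod_cast h1
      have h9 : ((l' : ℝ) - i) * A ≤ (l' - i) * y := mul_le_mul_of_nonneg_left hyA (by linarith)
      linarith
  · -- the edge
    intro hedge n hn hncl
    refine hkeep τ hτq _ n hn fun l' h1 h2 h3 x' hx' h4 => ?_
    rcases h2.eq_or_lt with rfl | h2
    · rw [ext_self] at hx'
      obtain ⟨h6, h7⟩ := mem_terms_single hx'
      refine hncl ⟨⟨y, hy, ?_⟩, l, ?_⟩
      · rw [h4.1, h6, hq]
        ring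
      · show n = _
        rw [h4.2, h7, hqτ]
    · rw [ext_of_lt h2] at hx'
      have h6 := (hmk.ct l' h2).terms hx'
      have h7 := hedge l' h1 h2 (hixP l' h2 (ne_zero_of_coeff (mem_terms.1 hx')))
      have h8 : (τ : ℝ) < l' := by exact_mod_cast h1
      have h9 : ((l' : ℝ) - τ) * A ≤ (l' - τ) * y := mul_le_mul_of_nonneg_left hyA (by linarith)
      have h10 := h4.1
      rw [hq] at h7
      linarith
  · -- the terms
    have hx0 : (rc q c y l (ext q lam nA P) τ x.1).coeff x.2 = 0 := by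
      rw [coeff_rc_two hτq]
      · have h1 : ((q : ℝ) - τ) = Q := by rw [hq]; ring
        rw [ext_of_lt hτq, ext_self, hqτ, h1, hc']
        have h2 : x.2 = nA + Q * l := hx2
        conv_lhs =>
          arg 2
          rw [h2]
        rw [coeff_sh, hx1, add_sub_cancel_right, Finsupp.single_eq_same, coeff_X_pow, if_pos rfl,
          mul_one]
        rw [← hx1, ← h2, add_neg_cancel]
      · intro l' h1 h2 h3 x' hx' h4
        rw [ext_of_lt h2] at hx'
        have h5 := hhigh l' h1 h2 x' hx'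
        have h6 : vm β x = vm β x' + ((l' : ℝ) - τ) * (y + l * β) := by
          have h7 : ((l' - τ : ℕ) : ℝ) = l' - τ := Nat.cast_sub h1.le
          unfold vm
          rw [h4.1, h4.2]
          push_cast
          rw [h7]
          ring
        have h7 : vm β x = lam + nA * β + Q * (y + l * β) := by
          unfold vm
          rw [hx1, hx2]
          push_cast
          ring
        rw [hq] at h5
        nlinarith
    intro i hi1 hi2 x₁ hx₁
    have hx₁' := mem_terms_shP hx₁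
    have hne : i = τ → x₁ ≠ x := by
      rintro rfl rfl
      exact mem_terms.1 hx₁' hx0
    rcases hsrc i hi2 x₁ hx₁' with h1 | ⟨l', h1, h2, x', hx', h3, h4⟩ | ⟨h1, h2, h3⟩
    · exact Or.inl ⟨h1, hne⟩
    · exact Or.inr ⟨l', h1.1, h2, x', hx', Prod.ext h3 h4⟩
    · exfalso
      have h4 : i = τ := by
        by_contra h4
        exact hprm.nsq i (lt_of_le_of_ne hi1 (Ne.symm h4)) hi2 h1
      subst h4
      refine hne rfl (Prod.ext ?_ ?_)
      · rw [h2, hx1, hq]
        ring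
      · rw [h3, hx2, hqτ]

/-- **Cleaning.** -/
theorem exists_clean_of [IsAlgClosed k] (hk : ∀ b : k, v.Ge 0 (algebraMap k Ω b))
    (hprm : Prm p q τ Q) {a : Ω} {s D A₀ B : ℝ} {lam : ℝ}
    {nA : ℕ} {A : ℝ} {Mb : ℕ} {Lam : ℕ → ℝ} {ρ : ℝ} {E : ℕ → Finset (ℝ × ℕ)}
    (hE : ∀ x ∈ E τ, ∀ y ∈ G, ∀ nA l : ℕ, x.1 = lam + Q * y → x.2 = nA + Q * l →
      ∀ i l' : ℕ, τ ≤ i → i < l' → l' < q → ∀ x' ∈ E l',
        (x'.1 + ((l' : ℝ) - i) * y, x'.2 + (l' - i) * l) ∈ E i) (N : ℕ) :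
    ∀ (Z : Ω) (P : ℕ → ℝ →₀ k[X]),
    Rp p q v F K a s D A₀ (EC k v G M w Z (wM B A₀ (v w))) G M w Z P lam nA →
    Mk p q τ Q lam A s Mb Lam P → TM p q τ Q G lam nA A s Mb Lam P ρ →
    (∀ i, τ ≤ i → i < q → terms (P i) ⊆ E i) →
    (open Classical in ((E τ).filter fun x => x ∈ terms (P τ) ∨
      ∃ y ∈ terms (P τ), vm (v w) y < vm (v w) x).card ≤ N) →
    ∃ (Z₁ : Ω) (P₁ : ℕ → ℝ →₀ k[X]),
      Rp p q v F K a s D A₀ (EC k v G M w Z₁ (wM B A₀ (v w))) G M w Z₁ P₁ lam nA ∧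
      Mk p q τ Q lam A s Mb Lam P₁ ∧ TM p q τ Q G lam nA A s Mb Lam P₁ ρ ∧
      Clean q τ Q G lam nA s (v w) P₁ := by
  classical
  have hτq : τ < q := by have := hprm.hq; have := hprm.hQ; omega
  have hq : (q : ℝ) = τ + Q := by rw [hprm.hq]; push_cast; ring
  have hQ0 : (0 : ℝ) < Q := by
    have h1 := hprm.hQ
    exact_mod_cast (by omega : 0 < Q)
  induction N with
  | zero =>
    intro Z P hr hmk htm hPE hN
    refine ⟨Z, P, hr, hmk, htm, fun x hx => ?_⟩
    exfalso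
    rw [Nat.le_zero, Finset.card_eq_zero] at hN
    have h1 : x ∈ (E τ).filter fun x => x ∈ terms (P τ) ∨
        ∃ y ∈ terms (P τ), vm (v w) y < vm (v w) x :=
      Finset.mem_filter.2 ⟨hPE τ le_rfl hτq hx, Or.inl hx⟩
    rw [hN] at h1
    simp at h1
  | succ N ih =>
    intro Z P hr hmk htm hPE hN
    by_cases hcl : Clean q τ Q G lam nA s (v w) P
    · exact ⟨Z, P, hr, hmk, htm, hcl⟩
    · unfold Clean at hcl
      push Not at hcl
      obtain ⟨x, hx, ⟨⟨y, hy, hx1⟩, l, hx2⟩, hlow, a₀, ha₀, -, hhigh⟩ := hcl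
      have hvx : vm (v w) x = lam + nA * v w + Q * (y + l * v w) := by
        unfold vm
        rw [hx1, hx2]
        push_cast
        ring
      have ha₀' : a₀ = y + l * v w := by
        rw [hvx] at ha₀
        have h1 : (Q : ℝ) * a₀ = Q * (y + l * v w) := by linarith
        exact mul_left_cancel₀ hQ0.ne' h1
      subst ha₀'
      obtain ⟨Z₁, P₁, hr₁, hmk₁, htm₁, hterms⟩ := clean_step hk hprm hr hmk htm hx hy hx1 hx2
        (β := v w) (fun i h1 h2 x' hx' => hhigh i h1 h2 x' hx')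
      have hxE := hPE τ le_rfl hτq hx
      -- new terms are higher
      have hτt : ∀ x₁ ∈ terms (P₁ τ), (x₁ ∈ terms (P τ) ∧ x₁ ≠ x) ∨ vm (v w) x < vm (v w) x₁ := by
        intro x₁ hx₁
        rcases hterms τ le_rfl hτq x₁ hx₁ with ⟨h1, h2⟩ | ⟨l', h1, h2, x', hx', h3⟩
        · exact Or.inl ⟨h1, h2 rfl⟩
        · right
          have h4 := hhigh l' h1 h2 x' hx'
          have h5 : vm (v w) x₁ = vm (v w) x' + ((l' : ℝ) - τ) * (y + l * v w) := by
            have h7 : ((l' - τ : ℕ) : ℝ) = l' - τ := Nat.cast_sub h1.le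
            rw [h3]
            unfold vm
            push_cast
            rw [h7]
            ring
          rw [hvx, h5]
          rw [hq] at h4
          nlinarith
      refine ih Z₁ P₁ hr₁ hmk₁ htm₁ ?_ ?_
      · intro i h1 h2 x₁ hx₁
        rcases hterms i h1 h2 x₁ hx₁ with ⟨h3, -⟩ | ⟨l', h3, h4, x', hx', h5⟩
        · exact hPE i h1 h2 h3
        · rw [h5]
          exact hE x hxE y hy nA l hx1 hx2 i l' h1 h3 h4 x' (hPE l' (h1.trans h3.le) h4 hx')
      · have hsub : (E τ).filter (fun z => z ∈ terms (P₁ τ) ∨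
            ∃ z' ∈ terms (P₁ τ), vm (v w) z' < vm (v w) z) ⊂
            (E τ).filter (fun z => z ∈ terms (P τ) ∨
              ∃ z' ∈ terms (P τ), vm (v w) z' < vm (v w) z) := by
          rw [Finset.ssubset_iff_of_subset]
          · refine ⟨x, Finset.mem_filter.2 ⟨hxE, Or.inl hx⟩, fun h1 => ?_⟩
            rcases (Finset.mem_filter.1 h1).2 with h2 | ⟨z', hz', h2⟩
            · rcases hτt x h2 with h3 | h3
              · exact h3.2 rfl
              · exact lt_irrefl _ h3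
            · rcases hτt z' hz' with h3 | h3
              · exact absurd (hlow z' h3.1) (not_le.2 h2)
              · exact absurd h3 (not_lt.2 h2.le)
          · intro z hz
            obtain ⟨hzE, hz⟩ := Finset.mem_filter.1 hz
            refine Finset.mem_filter.2 ⟨hzE, ?_⟩
            rcases hz with h2 | ⟨z', hz', h2⟩
            · rcases hτt z h2 with h3 | h3
              · exact Or.inl h3.1
              · exact Or.inr ⟨x, hx, h3⟩
            · rcases hτt z' hz' with h3 | h3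
              · exact Or.inr ⟨z', h3.1, h2⟩
              · exact Or.inr ⟨x, hx, h3.trans h2⟩
        have := Finset.card_lt_card hsub
        omega

end char

end Pool.Agent.TWN
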