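import Pool.Agent.Lib.TW_NFG.SH

/-!
# NFG, `s = 2`: the errors

* `EC h G M w Z S`: limits of sums of monomials `M g * w ^ n * Z ^ i`, `(g, n) ∈ S i`;
* `wM B A₀ β`, `wF q B A₀ P`, `wC B A₀`: the sets of monomials: of value `≥ B`, at `Z = A₀`; of
  content `≥ B` or order `≥ q`; of content `≥ B`;
* `Apx.dvd`: different precisions;
* `EC.step`, `EC.trunc`: the errors at the next frame; `EC.shiftZ`: at the new centre.
-/

set_option autoImplicit false

open Polynomial

namespace Pool.Agent.TWN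

open Pool.Agent.H15JM (RVal)
open Pool.Agent.D2 (Ctx0)
open Pool.Agent.TWM (MS TL cadj VG)

universe u

variable {k Ω : Type u} [Field k] [Field Ω] [Algebra k Ω] {v : RVal Ω} {G G' : AddSubgroup ℝ}
  {M M' : ℝ → Ω} {w t : Ω} {m : ℕ} {j : ℝ → ℤ → ℤ}

theorem mem_terms_add {P Q : ℝ →₀ k[X]} {x : ℝ × ℕ} (hx : x ∈ terms (P + Q)) :
    x ∈ terms P ∨ x ∈ terms Q := by
  rw [mem_terms, Finsupp.add_apply, coeff_add] at hx
  by_contra hcon
  push Not at hcon
  rw [mem_terms, mem_terms] at hcon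
  push Not at hcon
  rw [hcon.1, hcon.2, add_zero] at hx
  exact hx rfl

theorem mem_terms_neg {P : ℝ →₀ k[X]} {x : ℝ × ℕ} (hx : x ∈ terms (-P)) : x ∈ terms P := by
  rw [mem_terms, Finsupp.neg_apply, coeff_neg] at hx
  rw [mem_terms]
  exact fun h => hx (by rw [h, neg_zero])

theorem terms_zero {x : ℝ × ℕ} (hx : x ∈ terms (0 : ℝ →₀ k[X])) : False :=
  mem_terms.1 hx rfl

theorem mem_terms_single' {g : ℝ} {f : k[X]} {x : ℝ × ℕ}
    (hx : x ∈ terms (Finsupp.single g f)) : x.1 = g ∧ f.coeff x.2 ≠ 0 := by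
  classical
  rw [mem_terms, Finsupp.single_apply] at hx
  split_ifs at hx with h1
  · exact ⟨h1.symm, hx⟩
  · exact absurd (coeff_zero _) hx

variable (k v) in
/-- Limits of sums of monomials. -/
def EC (G : AddSubgroup ℝ) (M : ℝ → Ω) (w Z : Ω) (S : ℕ → Set (ℝ × ℕ)) : AddSubgroup Ω where
  carrier := {f | ∀ C : ℝ, ∃ (n₀ : ℕ) (E : ℕ → ℝ →₀ k[X]), (∀ i, InP G (E i)) ∧
    (∀ i, ∀ x ∈ terms (E i), x ∈ S i) ∧
    v.Ge C (f - ∑ i ∈ Finset.range n₀, evP M w (E i) * Z ^ i)}
  zero_mem' := fun C => ⟨0, 0, fun _ => InP.zero, fun _ _ hx => (terms_zero hx).elim, by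
    rw [Finset.range_zero, Finset.sum_empty, sub_zero]
    exact RVal.Ge.zero⟩
  add_mem' := by
    classical
    intro f g hf hg C
    obtain ⟨n₁, E₁, h1, h2, h3⟩ := hf C
    obtain ⟨n₂, E₂, h4, h5, h6⟩ := hg C
    refine ⟨max n₁ n₂, fun i => (if i < n₁ then E₁ i else 0) + (if i < n₂ then E₂ i else 0),
      fun i => ?_, fun i x hx => ?_, ?_⟩
    · refine InP.add ?_ ?_
      · split_ifs
        · exact h1 i
        · exact InP.zero
      · split_ifs
        · exact h4 i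
        · exact InP.zero
    · rcases mem_terms_add hx with h7 | h7
      · split_ifs at h7
        · exact h2 i x h7
        · exact (terms_zero h7).elim
      · split_ifs at h7
        · exact h5 i x h7
        · exact (terms_zero h7).elim
    · have key : ∀ (n : ℕ) (E : ℕ → ℝ →₀ k[X]), n ≤ max n₁ n₂ →
          ∑ i ∈ Finset.range n, evP M w (E i) * Z ^ i =
          ∑ i ∈ Finset.range (max n₁ n₂), evP M w (if i < n then E i else 0) * Z ^ i := by
        intro n E hn
        rw [← Finset.sum_subset (s₁ := Finset.range n) (s₂ := Finset.range (max n₁ n₂))]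
        · refine Finset.sum_congr rfl fun i hi => ?_
          rw [if_pos (Finset.mem_range.1 hi)]
        · intro i hi
          rw [Finset.mem_range] at hi ⊢
          omega
        · intro i _ hi
          rw [Finset.mem_range] at hi
          rw [if_neg hi, evP_zero, zero_mul]
      rw [key n₁ E₁ (le_max_left _ _)] at h3
      rw [key n₂ E₂ (le_max_right _ _)] at h6
      have h7 := h3.add h6
      have e : ∑ i ∈ Finset.range (max n₁ n₂), evP M w ((if i < n₁ then E₁ i else 0) +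
          (if i < n₂ then E₂ i else 0)) * Z ^ i =
          ∑ i ∈ Finset.range (max n₁ n₂), evP M w (if i < n₁ then E₁ i else 0) * Z ^ i +
          ∑ i ∈ Finset.range (max n₁ n₂), evP M w (if i < n₂ then E₂ i else 0) * Z ^ i := by
        rw [← Finset.sum_add_distrib]
        refine Finset.sum_congr rfl fun i _ => ?_
        rw [evP_add, add_mul]
      rw [e]
      convert h7 using 1
      ring
  neg_mem' := by
    intro f hf C
    obtain ⟨n₁, E₁, h1, h2, h3⟩ := hf C
    refine ⟨n₁, fun i => - E₁ i, fun i => (h1 i).neg, fun i x hx => h2 i x (mem_terms_neg hx), ?_⟩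
    have e : -f - ∑ i ∈ Finset.range n₁, evP M w (-E₁ i) * Z ^ i =
        -(f - ∑ i ∈ Finset.range n₁, evP M w (E₁ i) * Z ^ i) := by
      rw [neg_sub, sub_eq_add_neg, ← Finset.sum_neg_distrib, add_comm]
      rw [sub_eq_add_neg]
      congr 1
      refine Finset.sum_congr rfl fun i _ => ?_
      rw [evP_neg]
      ring
    rw [e]
    exact h3.neg

namespace EC

variable {Z : Ω} {S S' : ℕ → Set (ℝ × ℕ)}

theorem mono (h : ∀ i, S i ⊆ S' i) : EC k v G M w Z S ≤ EC k v G M w Z S' := by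
  intro f hf C
  obtain ⟨n, E, h1, h2, h3⟩ := hf C
  exact ⟨n, E, h1, fun i x hx => h i (h2 i x hx), h3⟩

theorem single {P : ℝ →₀ k[X]} (hP : InP G P) {i : ℕ} (hS : ∀ x ∈ terms P, x ∈ S i) :
    evP M w P * Z ^ i ∈ EC k v G M w Z S := by
  classical
  intro C
  refine ⟨i + 1, fun l => if l = i then P else 0, fun l => ?_, fun l x hx => ?_, ?_⟩
  · dsimp only
    split_ifs
    · exact hP
    · exact InP.zero
  · dsimp only at hx
    split_ifs at hx with h1
    · rw [h1]
      exact hS x hx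
    · exact (terms_zero hx).elim
  · rw [Finset.sum_eq_single i]
    · dsimp only
      rw [if_pos rfl, sub_self]
      exact RVal.Ge.zero
    · intro l _ hl
      dsimp only
      rw [if_neg hl, evP_zero, zero_mul]
    · intro h1
      exact absurd (Finset.mem_range.2 (Nat.lt_succ_self i)) h1

theorem lim {f : Ω} (h : ∀ C : ℝ, ∃ g ∈ EC k v G M w Z S, v.Ge C (f - g)) :
    f ∈ EC k v G M w Z S := by
  intro C
  obtain ⟨g, hg, h1⟩ := h C
  obtain ⟨n, E, h2, h3, h4⟩ := hg C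
  refine ⟨n, E, h2, h3, ?_⟩
  have h5 := h1.add h4
  rwa [sub_add_sub_cancel] at h5

theorem smul (hk : ∀ a : k, v.Ge 0 (algebraMap k Ω a)) (c : k) {f : Ω}
    (hf : f ∈ EC k v G M w Z S) : algebraMap k Ω c * f ∈ EC k v G M w Z S := by
  intro r
  obtain ⟨n, E, h1, h2, h3⟩ := hf r
  refine ⟨n, fun i => sh c 0 0 (E i), fun i => (h1 i).sh G.zero_mem, fun i x hx => ?_, ?_⟩
  · obtain ⟨-, y, hy, h4, h5⟩ := mem_terms_sh hx
    rw [add_zero] at h4 h5
    have h6 : x = y := Prod.ext h4 h5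
    rw [h6]
    exact h2 i y hy
  · have h4 := (hk c).mul h3
    rw [zero_add] at h4
    have e : algebraMap k Ω c * f - ∑ i ∈ Finset.range n, evP M w (sh c 0 0 (E i)) * Z ^ i =
        algebraMap k Ω c * (f - ∑ i ∈ Finset.range n, evP M w (E i) * Z ^ i) := by
      rw [mul_sub, Finset.mul_sum]
      congr 1
      refine Finset.sum_congr rfl fun i _ => ?_
      have h5 : evP M w (sh c 0 0 (E i)) = algebraMap k Ω c * evP M w (E i) := by
        rw [evP_eq_terms, evP_eq_terms]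
        have h6 : ∀ g, sh c 0 0 (E i) g = C c * E i g := fun g => by
          rw [sh_apply, pow_zero, mul_one, sub_zero]
        by_cases hc : c = 0
        · subst hc
          have h7 : sh (0 : k) 0 0 (E i) = 0 := by
            ext g n
            rw [h6]
            simp
          rw [h7]
          simp
        · have h7 : (sh c 0 0 (E i)).support = (E i).support := by
            ext g
            rw [Finsupp.mem_support_iff, Finsupp.mem_support_iff, h6]
            constructor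
            · intro h8 h9
              exact h8 (by rw [h9, mul_zero])
            · intro h8 h9
              rcases mul_eq_zero.1 h9 with h10 | h10
              · exact hc (C_eq_zero.1 h10)
              · exact h8 h10
          rw [h7, Finset.mul_sum]
          refine Finset.sum_congr rfl fun g _ => ?_
          have h8 : (sh c 0 0 (E i) g).support = (E i g).support := by
            ext n
            rw [mem_support_iff, mem_support_iff, h6, coeff_C_mul]
            constructor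
            · intro h8 h9
              exact h8 (by rw [h9, mul_zero])
            · intro h8 h9
              rcases mul_eq_zero.1 h9 with h10 | h10
              · exact hc h10
              · exact h8 h10
          rw [h8, Finset.mul_sum]
          refine Finset.sum_congr rfl fun n _ => ?_
          rw [h6, coeff_C_mul, map_mul]
          ring
      rw [h5]
      ring
    rw [e]
    exact h4

/-- Multiplication, monomial by monomial. -/
theorem map (hk : ∀ a : k, v.Ge 0 (algebraMap k Ω a)) {a : Ω} (ha : v.Ge 0 a)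
    {M' : ℝ → Ω} {w' Z' : Ω}
    (h : ∀ i, ∀ x ∈ S i, x.1 ∈ G → M x.1 * w ^ x.2 * Z ^ i * a ∈ EC k v G' M' w' Z' S') {f : Ω}
    (hf : f ∈ EC k v G M w Z S) : f * a ∈ EC k v G' M' w' Z' S' := by
  refine lim fun C => ?_
  obtain ⟨n, E, h1, h2, h3⟩ := hf C
  refine ⟨(∑ i ∈ Finset.range n, evP M w (E i) * Z ^ i) * a, ?_, ?_⟩
  · rw [Finset.sum_mul]
    refine AddSubgroup.sum_mem _ fun i _ => ?_
    rw [evP_terms, Finset.sum_mul, Finset.sum_mul]
    refine AddSubgroup.sum_mem _ fun x hx => ?_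
    have h4 := smul hk ((E i x.1).coeff x.2) (h i x (h2 i x hx) ((h1 i).terms hx))
    have e : algebraMap k Ω ((E i x.1).coeff x.2) * (M x.1 * w ^ x.2) * Z ^ i * a =
        algebraMap k Ω ((E i x.1).coeff x.2) * (M x.1 * w ^ x.2 * Z ^ i * a) := by ring
    rw [e]
    exact h4
  · rw [← sub_mul]
    have h4 := h3.mul ha
    rwa [add_zero] at h4

end EC

/-! ### Different precisions -/

theorem dvd_of_comp {c : k} {W : k[X]} (hW : W.eval c = 0) (hW' : (derivative W).eval c ≠ 0)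
    {N : ℕ} {f : k[X]} (h : (X - C c) ^ N ∣ f.comp W) : X ^ N ∣ f := by
  by_cases hf : f = 0
  · rw [hf]
    exact dvd_zero _
  obtain ⟨W₁, hW₁⟩ : X - C c ∣ W := dvd_iff_isRoot.2 hW
  have h1 : W₁.eval c ≠ 0 := by
    rw [hW₁, derivative_mul, derivative_sub, derivative_X, derivative_C, sub_zero, one_mul,
      eval_add, eval_mul, eval_sub, eval_X, eval_C, sub_self, zero_mul, add_zero] at hW'
    exact hW'
  obtain ⟨g, hg⟩ : X ^ f.natTrailingDegree ∣ f := by
    rw [X_pow_dvd_iff]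
    intro d hd
    exact coeff_eq_zero_of_lt_natTrailingDegree hd
  set n := f.natTrailingDegree with hn
  have hg0 : g.eval 0 ≠ 0 := by
    have h2 : f.coeff n ≠ 0 := trailingCoeff_nonzero_iff_nonzero.2 hf
    rw [hg] at h2
    have h3 : (X ^ n * g).coeff (0 + n) = g.coeff 0 := coeff_X_pow_mul g n 0
    rw [zero_add] at h3
    rw [h3] at h2
    rwa [← coeff_zero_eq_eval_zero]
  by_cases hlt : n < N
  · exfalso
    have h2 : f.comp W = (X - C c) ^ n * (W₁ ^ n * g.comp W) := by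
      conv_lhs => rw [hg]
      rw [mul_comp, X_pow_comp]
      conv_lhs => rw [hW₁, mul_pow]
      rw [← hW₁]
      ring
    rw [h2] at h
    have h3 : (X - C c) ^ (n + 1) ∣ (X - C c) ^ n * (W₁ ^ n * g.comp W) :=
      (pow_dvd_pow _ hlt).trans h
    rw [pow_succ] at h3
    have h4 := (mul_dvd_mul_iff_left (pow_ne_zero n (X_sub_C_ne_zero c))).1 h3
    have h5 := dvd_iff_isRoot.1 h4
    rw [IsRoot, eval_mul, eval_pow, eval_comp, hW] at h5
    exact mul_ne_zero (pow_ne_zero _ h1) hg0 h5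
  · rw [hg]
    exact (pow_dvd_pow X (not_lt.1 hlt)).mul_right _

theorem Apx.dvd {c : k} {W : k[X]} (hc : c ≠ 0) (hW : W.eval c = 0)
    (hW' : (derivative W).eval c ≠ 0) {N N₁ : ℕ} (hN : N ≤ N₁) {i : ℤ} {R R₁ : k[X]}
    (h : Apx c W N i R) (h₁ : Apx c W N₁ i R₁) : X ^ N ∣ R₁ - R := by
  obtain ⟨K, hK⟩ : ∃ K : ℕ, 0 ≤ i + K := ⟨(-i).toNat, by omega⟩
  have h1 := h K hK
  have h2 := (pow_dvd_pow (X - C c) hN).trans (h₁ K hK)
  have h3 : (X - C c) ^ N ∣ X ^ K * (R₁ - R).comp W := by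
    have h4 := dvd_sub h2 h1
    have e : X ^ K * R₁.comp W - X ^ (i + K).toNat - (X ^ K * R.comp W - X ^ (i + K).toNat) =
        X ^ K * (R₁ - R).comp W := by
      rw [sub_comp]
      ring
    rwa [e] at h4
  exact dvd_of_comp hW hW' ((isCoprime_X hc N K).dvd_of_dvd_mul_left h3)

/-! ### The sets of monomials -/

/-- The monomials of value `≥ B`, at `Z = A₀`. -/
def wM (B A₀ β : ℝ) (i : ℕ) : Set (ℝ × ℕ) := {x | B ≤ x.1 + x.2 * β + i * A₀}

/-- The monomials of content `≥ B`, or of order `≥ q` and of content at least the one of `P i`. -/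
def wF (q : ℕ) (B A₀ : ℝ) (P : ℕ → ℝ →₀ k[X]) (i : ℕ) : Set (ℝ × ℕ) :=
  {x | B ≤ x.1 + i * A₀ ∨ (i < q ∧ q ≤ x.2 ∧ ∀ L, Ct L (P i) → L ≤ x.1)}

/-- The monomials of content `≥ B`. -/
def wC (B A₀ : ℝ) (i : ℕ) : Set (ℝ × ℕ) := {x | B ≤ x.1 + i * A₀}

theorem wC_le_wM {B A₀ β : ℝ} (hβ : 0 ≤ β) (i : ℕ) : wC B A₀ i ⊆ wM B A₀ β i := by
  intro x (hx : B ≤ x.1 + i * A₀)
  show B ≤ x.1 + x.2 * β + i * A₀
  have h1 : 0 ≤ (x.2 : ℝ) * β := by positivity
  linarith

theorem wC_le_wF {q : ℕ} {B A₀ : ℝ} (P : ℕ → ℝ →₀ k[X]) (i : ℕ) : wC B A₀ i ⊆ wF q B A₀ P i :=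
  fun _ hx => Or.inl hx

/-- The errors at the next frame. -/
theorem EC.step {Z : Ω} {c : k} {b : ℝ} {W : k[X]} (h : SD v G M w G' M' t m j c b W) (σ : ℤ)
    {B A₀ : ℝ} {f : Ω} (hf : f ∈ EC k v G M w Z (wM B A₀ (v w))) :
    f * t ^ σ ∈ EC k v G' M' (aeval t W) Z (wC B A₀) := by
  have ht0 := h.ts.t_ne
  have htv : ∀ i : ℤ, v.Ge 0 (t ^ i) := fun i _ => by
    rw [v.map_zpow ht0, h.ts.t_val, mul_zero]
  refine EC.map h.hk (htv σ) (fun i x hx hxG => EC.lim fun C => ?_) hf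
  have h1 := h.ts.mon x.1 hxG (x.2 : ℤ)
  rw [zpow_natCast, Int.cast_natCast] at h1
  have hν : x.1 + x.2 * v w ∈ G' := by
    have h2 := h.ts.mem' hxG (x.2 : ℤ)
    rwa [Int.cast_natCast] at h2
  set ν := x.1 + x.2 * v w with hνdef
  -- the precision
  obtain ⟨N, hN⟩ : ∃ N : ℕ, C ≤ ν + N * b + i * v Z := by
    obtain ⟨n, hn⟩ := exists_nat_gt ((C - ν - i * v Z) / b)
    rw [div_lt_iff₀ h.bpos] at hn
    exact ⟨n, by linarith⟩
  obtain ⟨R, hR⟩ := exists_apx h.cne h.W0 h.W1 N (j x.1 x.2 + σ)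
  refine ⟨evP M' (aeval t W) (Finsupp.single ν R) * Z ^ i, ?_, ?_⟩
  · refine EC.single (InP.single hν R) fun y hy => ?_
    show B ≤ y.1 + i * A₀
    rw [(mem_terms_single' hy).1]
    exact hx
  · rw [h1, evP_single]
    have e : M' ν * t ^ j x.1 x.2 * Z ^ i * t ^ σ - M' ν * aeval (aeval t W) R * Z ^ i =
        M' ν * (t ^ (j x.1 x.2 + σ) - aeval (aeval t W) R) * Z ^ i := by
      rw [zpow_add₀ ht0]
      ring
    rw [e]
    have h2 : v.Ge ν (M' ν) := fun _ => by rw [h.ts.ms'.val _ hν]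
    exact ((h2.mul (hR.ge h.hk ht0 h.ts.t_val h.near)).mul
      (TWM.ge_pow (RVal.ge_self Z) i)).mono hN

/-- The truncation errors at the next frame. -/
theorem EC.trunc {Z : Ω} {c : k} {b : ℝ} {W : k[X]} (h : SD v G M w G' M' t m j c b W) (σ : ℤ)
    {N : ℕ} {R : ℤ → k[X]} (hR : ∀ i, Apx c W N i (R i)) {P : ℝ →₀ k[X]} (hP : InP G P) (i : ℕ)
    {S : ℕ → Set (ℝ × ℕ)} (hS : ∀ x ∈ terms P, ∀ n, N ≤ n → (vm (v w) x, n) ∈ S i) :
    (evP M w P * t ^ (-σ) - evP M' (aeval t W) (tr (v w) (fun g n => j g n - σ) R P)) * Z ^ i ∈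
      EC k v G' M' (aeval t W) Z S := by
  have ht0 := h.ts.t_ne
  unfold TWN.tr
  rw [evP_terms, evP_sum, Finset.sum_mul, ← Finset.sum_sub_distrib, Finset.sum_mul]
  refine AddSubgroup.sum_mem _ fun x hx => EC.lim fun C => ?_
  have hxG : x.1 ∈ G := hP.terms hx
  have h1 := h.ts.mon x.1 hxG (x.2 : ℤ)
  rw [zpow_natCast, Int.cast_natCast] at h1
  have hν : x.1 + x.2 * v w ∈ G' := by
    have h2 := h.ts.mem' hxG (x.2 : ℤ)
    rwa [Int.cast_natCast] at h2
  set ν := x.1 + x.2 * v w with hνdef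
  -- the precision
  obtain ⟨N₁, hN₁, hN⟩ : ∃ N₁ : ℕ, C ≤ ν + N₁ * b + i * v Z ∧ N ≤ N₁ := by
    obtain ⟨n, hn⟩ := exists_nat_gt ((C - ν - i * v Z) / b)
    rw [div_lt_iff₀ h.bpos] at hn
    refine ⟨max n N, ?_, le_max_right _ _⟩
    have h3 : (n : ℝ) ≤ (max n N : ℕ) := by exact_mod_cast le_max_left _ _
    nlinarith [h.bpos]
  obtain ⟨R₁, hR₁⟩ := exists_apx h.cne h.W0 h.W1 N₁ (j x.1 x.2 - σ)
  have hdvd := Apx.dvd h.cne h.W0 h.W1 hN (hR _) hR₁
  set co := (P x.1).coeff x.2 with hco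
  refine ⟨algebraMap k Ω co * (evP M' (aeval t W) (Finsupp.single ν (R₁ - R (j x.1 x.2 - σ))) *
    Z ^ i), ?_, ?_⟩
  · refine EC.smul h.hk co (EC.single (InP.single hν _) fun y hy => ?_)
    obtain ⟨h2, h3⟩ := mem_terms_single' hy
    have h4 : N ≤ y.2 := by
      by_contra h4
      exact h3 (X_pow_dvd_iff.1 hdvd y.2 (not_le.1 h4))
    have h5 : y = (vm (v w) x, y.2) := Prod.ext h2 rfl
    rw [h5]
    exact hS x hx y.2 h4
  · rw [h1, evP_single, evP_single, map_mul, aeval_C, map_sub]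
    have e : (algebraMap k Ω co * (M' ν * t ^ j x.1 x.2) * t ^ (-σ) -
        M' ν * (algebraMap k Ω co * aeval (aeval t W) (R (j x.1 x.2 - σ)))) * Z ^ i -
        algebraMap k Ω co * (M' ν * (aeval (aeval t W) R₁ -
          aeval (aeval t W) (R (j x.1 x.2 - σ))) * Z ^ i) =
        algebraMap k Ω co * (M' ν * (t ^ (j x.1 x.2 - σ) - aeval (aeval t W) R₁) * Z ^ i) := by
      rw [sub_eq_add_neg (j x.1 x.2) σ, zpow_add₀ ht0]
      ring
    rw [e]
    have h2 : v.Ge ν (M' ν) := fun _ => by rw [h.ts.ms'.val _ hν]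
    have h3 := (h.hk co).mul ((h2.mul (hR₁.ge h.hk ht0 h.ts.t_val h.near)).mul
      (TWM.ge_pow (RVal.ge_self Z) i))
    rw [zero_add] at h3
    exact h3.mono hN₁

/-- The errors at the new centre. -/
theorem EC.shiftZ (hM : MS v G M) {Z : Ω} {c : k} {y : ℝ} (hy : y ∈ G) {n₀ : ℕ} {B A₀ β : ℝ}
    (hya : A₀ ≤ y + n₀ * β) :
    EC k v G M w Z (wM B A₀ β) ≤
      EC k v G M w (Z - algebraMap k Ω c * M y * w ^ n₀) (wM B A₀ β) := by
  intro f hf
  refine EC.lim fun C => ?_
  obtain ⟨n, E, h1, h2, h3⟩ := hf C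
  refine ⟨∑ i ∈ Finset.range n, evP M w (E i) * Z ^ i, ?_, h3⟩
  rcases n with _ | n
  · rw [Finset.range_zero, Finset.sum_empty]
    exact zero_mem _
  · rw [sum_rc hM hy (c := c) (n₀ := n₀) (fun l _ => h1 l) Z]
    refine AddSubgroup.sum_mem _ fun i _ => EC.single (InP.rc hy (fun l _ => h1 l) i) ?_
    intro x hx
    obtain ⟨l, h4, h5, -, x', hx', h6, h7⟩ := mem_terms_rc hx
    have h8 : B ≤ x'.1 + x'.2 * β + l * A₀ := h2 l x' hx'
    show B ≤ x.1 + x.2 * β + i * A₀
    have h9 : ((l - i : ℕ) : ℝ) = l - i := Nat.cast_sub h4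
    rw [h6, h7]
    push_cast
    rw [h9]
    have h10 : 0 ≤ ((l : ℝ) - i) * (y + n₀ * β - A₀) :=
      mul_nonneg (by rw [← h9]; exact Nat.cast_nonneg _) (by linarith)
    nlinarith

end Pool.Agent.TWN
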