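import Pool.Agent.Lib.TW_NFG.RC

/-!
# NFG, `s = 2`: the initial state

* `exists_init`: the first scale, contents and markers;
* `Rp.fill`: all the indices are used; `Rp.init`: the initial state of the chain.
-/

set_option autoImplicit false

open Polynomial

namespace Pool.Agent.TWN

open Pool.Agent.H15JM (RVal)
open Pool.Agent.LU1 (VPos)
open Pool.Agent.D2 (Ctx0)
open Pool.Agent.TWM (MS TL cadj VG)

universe u

section

variable {k : Type u} [Field k]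

theorem vm_zero (x : ℝ × ℕ) : vm 0 x = x.1 := by
  unfold vm
  rw [mul_zero, add_zero]

/-- **The first markers.** -/
theorem exists_init {p q τ Q : ℕ} {G : AddSubgroup ℝ} {nA : ℕ} {lam s β : ℝ}
    {P : ℕ → ℝ →₀ k[X]} (hprm : Prm p q τ Q) (hβ : 0 < β) (hix : ∀ i < q, P i ≠ 0 → Ix p i)
    (hne : ∀ i < q, Ix p i → P i ≠ 0) :
    ∃ (A : ℝ) (Lam : ℕ → ℝ) (Mb : ℕ), 1 ≤ Mb ∧ Mk p q τ Q lam A s Mb Lam P ∧
      TM p q τ Q G lam nA A s Mb Lam P (((Mb : ℝ) - 1) * β) := by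
  classical
  obtain ⟨Phi, hPhi⟩ := exists_LD 0 q P
  obtain ⟨A, hA, hA', hedge⟩ := exists_scale lam s P Phi τ q
  obtain ⟨n₀, hn₀⟩ := exists_nat_ge ((s - A) / β)
  obtain ⟨E, hE⟩ : ∃ E : ℕ, ∀ i < q, ∀ x ∈ terms (P i), x.2 ≤ E := by
    refine ⟨(Finset.range q).sup fun i => (terms (P i)).sup fun x => x.2, fun i hi x hx => ?_⟩
    exact (Finset.le_sup (f := fun x : ℝ × ℕ => x.2) hx).trans
      (Finset.le_sup (f := fun i => (terms (P i)).sup fun x : ℝ × ℕ => x.2)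
        (Finset.mem_range.2 hi))
  have hτq : τ < q := by have := hprm.hq; have := hprm.hQ; omega
  set Mb : ℕ := n₀ + E + 1 with hMb
  have hbd : ∀ i < q, ∀ d, 1 ≤ d → ∀ x ∈ terms (P i), x.2 + 1 ≤ d * Mb := by
    intro i hi d hd x hx
    have h1 := hE i hi x hx
    have h2 : 1 * Mb ≤ d * Mb := Nat.mul_le_mul_right _ hd
    omega
  have hbound : Bd p q τ Q lam A 0 Mb Phi P :=
    ⟨fun i hi _ _ _ _ x hx _ => hbd i hi (q - i) (by omega) x hx,
      fun _ x hx _ => hbd τ hτq Q (by have := hprm.hQ; omega) x hx⟩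
  obtain ⟨Lam, hN⟩ := exists_Nx hprm hix hA hA' hedge
    (fun i hi h1 h2 => Or.inl ⟨i, Or.inl rfl, hi, h1, h2, hne i hi h1⟩) hbound
  have hown : ∀ i, Own2 p q lam A Mb 0 Lam Phi P i → Own p q lam A Mb Lam P i := by
    intro i hi
    obtain ⟨x, hx, hxν⟩ := (hPhi i hi.lt hi.ne).2
    refine ⟨hi.lt, hi.ix, ⟨x.2, hi.bd x hx hxν, ?_⟩, hi.fr, hi.frq⟩
    rw [hi.eq, ← hxν, vm_zero]
    exact mem_terms.1 hx
  refine ⟨A, Lam, Mb, by omega, ⟨?_, hN.tau, hN.le, hN.leq, ?_, hN.top, hN.cap⟩, Or.inl ?_⟩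
  · intro i hi
    by_cases h0 : P i = 0
    · rw [h0]
      exact Ct.zero
    · refine Ct.of_terms fun x hx => ?_
      have h1 := (hPhi i hi h0).1 x hx
      rw [vm_zero] at h1
      exact (hN.ph i hi (hix i hi h0) h0).trans h1
  · intro i hi h1 h2
    rcases hN.mark i hi h1 h2 with h3 | ⟨l, h3, h4, h5, h6⟩ | h3
    · exact Or.inl (hown i h3)
    · exact Or.inr (Or.inl ⟨l, h3, h4, hown l h5, h6⟩)
    · exact Or.inr (Or.inr h3)
  · rw [div_le_iff₀ hβ] at hn₀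
    have h1 : (n₀ : ℝ) ≤ (Mb : ℝ) - 1 := by
      rw [hMb]
      push_cast
      have : (0 : ℝ) ≤ E := Nat.cast_nonneg _
      linarith
    exact hn₀.trans (mul_le_mul_of_nonneg_right h1 hβ.le)

end

variable {k Ω : Type u} [Field k] [Field Ω] [Algebra k Ω] {v : RVal Ω} {G G' : AddSubgroup ℝ}
  {M M' : ℝ → Ω} {w t : Ω} {F K : IntermediateField k Ω}

/-- The group of a frame is unbounded. -/
theorem Frm.exists_ge (hf : Frm v G M w F) (C : ℝ) : ∃ g ∈ G, C ≤ g := by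
  obtain ⟨m, hm, h1⟩ := hf.full w hf.w_mem hf.wne
  have h2 : 0 < (m : ℝ) * v w := mul_pos (by exact_mod_cast hm) hf.wpos
  obtain ⟨n, hn⟩ := exists_nat_ge (C / (m * v w))
  rw [div_le_iff₀ h2] at hn
  refine ⟨n • (m * v w), G.nsmul_mem h1 n, ?_⟩
  rw [nsmul_eq_mul]
  exact hn

section char

variable {p q τ Q : ℕ} [hp : Fact p.Prime] [CharP k p] [CharP Ω p]

omit [CharP k p] [CharP Ω p] in
/-- All the indices are used. -/
theorem Rp.fill {a : Ω} {s D A₀ B : ℝ} {Z : Ω} {P : ℕ → ℝ →₀ k[X]} {lam : ℝ} {nA : ℕ}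
    (hr : Rp p q v F K a s D A₀ (EC k v G M w Z (wM B A₀ (v w))) G M w Z P lam nA) :
    ∃ P₀ : ℕ → ℝ →₀ k[X],
      Rp p q v F K a s D A₀ (EC k v G M w Z (wM B A₀ (v w))) G M w Z P₀ lam nA ∧
      ∀ i < q, Ix p i → P₀ i ≠ 0 := by
  classical
  have hg : ∀ i : ℕ, ∃ g ∈ G, D + ((q : ℝ) - i) * A₀ ≤ g ∧ B ≤ g + i * A₀ := by
    intro i
    obtain ⟨g, hg, h1⟩ := hr.frm.exists_ge (max (D + ((q : ℝ) - i) * A₀) (B - i * A₀))
    refine ⟨g, hg, (le_max_left _ _).trans h1, ?_⟩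
    have h2 := (le_max_right _ _).trans h1
    linarith
  choose g hg hg1 hg2 using hg
  set P₀ : ℕ → ℝ →₀ k[X] := fun i => if P i = 0 ∧ Ix p i then Finsupp.single (g i) X else P i
    with hP₀
  have hP₁ : ∀ i, P i = 0 → Ix p i → P₀ i = Finsupp.single (g i) X := fun i h1 h2 => by
    simp only [hP₀]
    rw [if_pos ⟨h1, h2⟩]
  have hP₂ : ∀ i, ¬ (P i = 0 ∧ Ix p i) → P₀ i = P i := fun i h1 => by
    simp only [hP₀]
    rw [if_neg h1]
  refine ⟨P₀, ⟨hr.frm, hr.far, hr.vZ, hr.gen, hr.typ, ?_, ?_, ?_, ?_, ?_, hr.dq⟩, ?_⟩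
  · intro i hi
    by_cases h1 : P i = 0 ∧ Ix p i
    · rw [hP₁ i h1.1 h1.2]
      exact InP.single (hg i) X
    · rw [hP₂ i h1]
      exact hr.inP i hi
  · intro i hi hpi
    by_cases h1 : P i = 0 ∧ Ix p i
    · rw [hP₁ i h1.1 h1.2]
      rintro x hx ⟨-, h2⟩
      obtain ⟨-, h3⟩ := mem_terms_single' hx
      rw [coeff_X] at h3
      split_ifs at h3 with h4
      · rw [← h4] at h2
        have := hp.out.one_lt
        have := Nat.le_of_dvd one_pos h2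
        omega
      · exact h3 rfl
    · rw [hP₂ i h1]
      exact hr.npd i hi hpi
  · intro i hi hix
    rw [hP₂ i fun h => hix h.2]
    exact hr.ix i hi hix
  · intro i hi
    by_cases h1 : P i = 0 ∧ Ix p i
    · rw [hP₁ i h1.1 h1.2]
      exact Ct.single (hg1 i) X
    · rw [hP₂ i h1]
      exact hr.low i hi
  · obtain ⟨h, hF, hh0, hv, g', hg', h1⟩ := hr.rep
    refine ⟨h, hF, hh0, hv, g', hg', ?_⟩
    have h2 : ∑ i ∈ Finset.range q, (evP M w (P₀ i) * Z ^ i - evP M w (P i) * Z ^ i) ∈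
        EC k v G M w Z (wM B A₀ (v w)) := by
      refine AddSubgroup.sum_mem _ fun i _ => ?_
      by_cases h1 : P i = 0 ∧ Ix p i
      · rw [hP₁ i h1.1 h1.2, h1.1, evP_zero, zero_mul, sub_zero]
        refine EC.single (InP.single (hg i) X) fun x hx => ?_
        obtain ⟨h2, -⟩ := mem_terms_single' hx
        show B ≤ x.1 + x.2 * v w + i * A₀
        rw [h2]
        have h3 : 0 ≤ (x.2 : ℝ) * v w := mul_nonneg (Nat.cast_nonneg _) hr.frm.wpos.le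
        have h4 := hg2 i
        linarith
      · rw [hP₂ i h1, sub_self]
        exact zero_mem _
    rw [Finset.sum_sub_distrib] at h2
    have h3 := AddSubgroup.sub_mem _ h1 h2
    convert h3 using 1
    ring
  · intro i hi hix
    by_cases h1 : P i = 0 ∧ Ix p i
    · rw [hP₁ i h1.1 h1.2]
      exact Finsupp.single_ne_zero.2 X_ne_zero
    · rw [hP₂ i h1]
      exact fun h0 => h1 ⟨h0, hix⟩

/-- **The initial state.** -/
theorem Rp.init [IsAlgClosed k] [IsAlgClosed Ω] (h : Ctx0 k v) (hn : NFG v F)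
    (hprm : Prm p q τ Q) {a : Ω} {s D A₀ B : ℝ} {Z : Ω} {P : ℕ → ℝ →₀ k[X]} {lam : ℝ} {nA : ℕ}
    (hr : Rp p q v F K a s D A₀ (EC k v G M w Z (wM B A₀ (v w))) G M w Z P lam nA) :
    ∃ (w₁ : Ω) (P₁ : ℕ → ℝ →₀ k[X]) (A : ℝ) (Lam : ℕ → ℝ) (Mb : ℕ), 1 ≤ Mb ∧
      Rp p q v F K a s D A₀ (EC k v G M w₁ Z (wM B A₀ (v w₁))) G M w₁ Z P₁ lam nA ∧
      (v w₁ ∉ G ∨ (nA = 1 ∧ v w₁ ∈ G ∧ ¬ pdv p G (v w₁))) ∧
      Mk p q τ Q lam A s Mb Lam P₁ ∧
      TM p q τ Q G lam nA A s Mb Lam P₁ (((Mb : ℝ) - 1) * v w₁) := by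
  classical
  obtain ⟨P₀, hr₀, hne₀⟩ := hr.fill
  obtain ⟨w₁, P₁, hr₁, hw₁, hkeep⟩ := hr₀.recentre h hn hprm.hpq
  have hne₁ : ∀ i < q, Ix p i → P₁ i ≠ 0 := by
    intro i hi hix
    obtain ⟨μ, hμ, hmin⟩ := (P₀ i).support.exists_min_image id
      (Finsupp.support_nonempty_iff.2 (hne₀ i hi hix))
    rw [Finsupp.mem_support_iff] at hμ
    obtain ⟨n, hn⟩ : ∃ n, (P₀ i μ).coeff n ≠ 0 := by
      by_contra hcon
      push Not at hcon
      exact hμ (by ext n; rw [hcon n]; simp)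
    exact ne_zero_of_coeff ((hkeep i hi μ fun g hg =>
      hmin g (Finsupp.mem_support_iff.2 hg)).2 n hn)
  obtain ⟨A, Lam, Mb, h1, h2, h3⟩ := exists_init (G := G) (nA := nA) (lam := lam) (s := s)
    hprm hr₁.frm.wpos (P := P₁) (fun i hi h0 => by
      by_contra hix
      exact h0 (hr₁.ix i hi hix)) hne₁
  exact ⟨w₁, P₁, A, Lam, Mb, h1, hr₁, hw₁, h2, h3⟩

end char

end Pool.Agent.TWN
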