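import Pool.Agent.Lib.TW_NFG.AS
import Pool.Agent.Lib.TW_NFG.IN

/-!
# NFG, `s = 2`: the theorem

`nfg_chain`: if the value group of `F` is not finitely generated, `a` has a representation, and
every fine representation satisfies the conclusion of the order constraint, then `False`.
-/

set_option autoImplicit false

open Polynomial

namespace Pool.Agent.TWN

open Pool.Agent.H15JM (RVal)
open Pool.Agent.D2 (Ctx0)
open Pool.Agent.TWM (MS TL cadj VG)

universe u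

variable {k Ω : Type u} [Field k] [Field Ω] [Algebra k Ω] {v : RVal Ω} {G : AddSubgroup ℝ}
  {M : ℝ → Ω} {w : Ω} {F K : IntermediateField k Ω}

/-- **The chain.** -/
theorem nfg_chain [IsAlgClosed k] [IsAlgClosed Ω] {p : ℕ} [hp : Fact p.Prime] [CharP k p]
    [CharP Ω p] (h : Ctx0 k v) (hn : NFG v F) {q τ j₀ : ℕ} (hj : 1 ≤ j₀)
    (hprm : Prm p q τ (p ^ j₀)) {a : Ω} {s D A₀ B : ℝ} {Z : Ω} {P : ℕ → ℝ →₀ k[X]} {lam : ℝ}
    {nA : ℕ}
    (hr : Rp p q v F K a s D A₀ (EC k v G M w Z (wM B A₀ (v w))) G M w Z P lam nA)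
    (hcon : ∀ (G : AddSubgroup ℝ) (M : ℝ → Ω) (w Z : Ω) (P : ℕ → ℝ →₀ k[X]) (lam : ℝ) (nA : ℕ),
      Rp p q v F K a s D A₀ (EC k v G M w Z (wF q B A₀ P)) G M w Z P lam nA →
      Con p q τ v G Z P lam nA ∨ Con2 p q τ v A₀ G Z P lam nA) : False := by
  obtain ⟨w₁, P₁, A, Lam, Mb, hMb, hr₁, hw₁, hmk, htm⟩ := Rp.init h hn hprm hr
  exact chain_aux h hn hj hprm hcon _ G M w₁ Z P₁ lam nA A Lam Mb hMb le_rfl hr₁ hw₁ hmk htm

end Pool.Agent.TWN
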