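import Pool.Agent.Lib.TWM.Free
import Pool.Agent.Lib.TWM.A2
import Pool.Agent.Lib.TWM.NNx

/-!
# NFG, row N1: recentring

`N` is the closure of `k(x)`, `x` a system of elements with rationally independent values. If `w`
has positive value and the values of `N⟨w⟩` are not all in `G = v(N)`, there is a Laurent polynomial
`L` in `x` with positive exponents such that `v(w - L) ∉ G` (`exists_recentre`).

* `nr_of_rel_ld`: if `w` is a limit of `N` up to `s` and a homogeneous operator `Q ≠ 0` sends `w` to an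
  element of `N + O(R)`, then `w ∈ N + O(s)`;
* `TL.of_lim`: a limit of `N` up to `s` at distance `< s` of `N` is at distance `< s` of the
  algebraic closure of `N`.
-/

set_option autoImplicit false

open Polynomial Finset

namespace Pool.Agent.TWM

open Pool.Agent.H15JM (RVal)
open Pool.Agent.LU1 (VPos adj)
open Pool.Agent.D2 (Ctx0)
open Pool.Agent.D2P (hen clI mem_clI)

universe u

variable {k Ω : Type u} [Field k] [Field Ω] [Algebra k Ω] {v : RVal Ω}
  {p : ℕ} {G : AddSubgroup ℝ} {M : ℝ → Ω} {N : IntermediateField k Ω} {s r : ℝ}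

/-- A limit with finitely many coefficients. -/
theorem IsCoef.nr (h : Ctx0 k v) (hM : MS v G M) (hMN : ∀ g ∈ G, M g ∈ N)
    {w : Ω} {A : ℝ → k} (hA : IsCoef v G M r w A) (hfin : {g | A g ≠ 0}.Finite) :
    Nr v N r w := by
  classical
  set L₀ : ℝ →₀ k := Finsupp.onFinset hfin.toFinset A fun g hg => by
    rw [Set.Finite.mem_toFinset]; exact hg with hL₀
  have hL₀A : ∀ g, L₀ g = A g := fun g => rfl
  have hL₀G : InG G L₀ := fun g hg => (hA.mem g hg).1
  have hL₀N : evL M L₀ ∈ N := by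
    rw [evL, Finsupp.sum]
    exact sum_mem fun g hg => mul_mem (N.algebraMap_mem _)
      (hMN _ (hL₀G g (Finsupp.mem_support_iff.mp hg)))
  refine ⟨_, hL₀N, fun hne => le_of_forall_lt fun b hb => ?_⟩
  obtain ⟨b', hb1, hb2⟩ := exists_between hb
  obtain ⟨L, hL1, hL2, hL3⟩ := hA.app b' hb2
  have h2 : v.Ge b' (evL M (L - L₀)) := by
    refine evL_ge h hM (hL1.sub hL₀G) fun g hg => ?_
    by_contra hlt
    rw [not_le] at hlt
    rw [Finsupp.sub_apply, hL3 g hlt, hL₀A, sub_self] at hg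
    exact hg rfl
  have h3 := hL2.add h2
  rw [evL_sub, sub_add_sub_cancel] at h3
  exact hb1.trans_le (h3 hne)

/-- A single relation, up to `O(R)`. -/
theorem nr_of_rel_ld [Fact p.Prime] [CharP Ω p] (h : Ctx0 k v) (hM : MS v G M)
    (hMN : ∀ g ∈ G, M g ∈ N) (hN : LDense v G M N) (hG : G.FG) {w : Ω} (hw : Lim v N s w)
    {R : ℝ} {Q : k[X]} (hQ : IsOp p G s R Q) (hQ0 : Q ≠ 0)
    (hrel : Nr v N R (ev p M s R Q w)) : Nr v N s w := by
  classical
  obtain ⟨H, hH⟩ := exists_hgt hG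
  have hp0 : (0 : ℝ) < p := by exact_mod_cast (Fact.out : p.Prime).pos
  have hp1 : (1 : ℝ) < p := by exact_mod_cast (Fact.out : p.Prime).one_lt
  obtain ⟨A, hA⟩ := exists_coef h hM hN hw
  obtain ⟨C, hC⟩ := hA.bdd
  obtain ⟨a, ha, h1⟩ := hrel
  obtain ⟨Ln, hLn, h2⟩ := hN a ha R
  have h3 : v.Ge R (ev p M s R Q w - evL M Ln) := by
    have := h1.add h2
    rwa [sub_add_sub_cancel] at this
  have hfin := finite_of_gap (k := k) hH ({()} : Finset Unit) (fun _ => s) R (fun _ => Q)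
    (fun _ _ => hQ) (fun i _ j _ hij => absurd (Subsingleton.elim i j) hij) (fun _ => A)
    (fun _ g hg => hA.mem g hg) |C| (fun _ _ g hg => by
      have e1 := hC g hg
      have e3 := le_abs_self C
      linarith) Ln.support ?_ () (Finset.mem_singleton_self _) hQ0
  · exact hA.nr h hM hMN hfin
  · intro δ hδ hδF
    rw [Finset.sum_singleton]
    set D := Q.natDegree with hD
    set η : ℝ := (R - δ) / (2 * (p : ℝ) ^ D) with hη
    have hη0 : 0 < η := div_pos (by linarith) (by positivity)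
    have hηD : (p : ℝ) ^ D * η = (R - δ) / 2 := by rw [hη]; field_simp
    have hpj : ∀ j, j ≤ D → (p : ℝ) ^ j * η ≤ (R - δ) / 2 := by
      intro j hj
      rw [← hηD]
      exact mul_le_mul_of_nonneg_right (pow_le_pow_right₀ hp1.le hj) hη0.le
    obtain ⟨L, hL1, hL2, hL3⟩ := hA.app (s - η) (by linarith)
    have h4 : v.Ge ((R + δ) / 2) (evL M (opL p s R Q L - Ln)) := by
      rw [evL_sub]
      have e : evL M (opL p s R Q L) - evL M Ln =
          (ev p M s R Q w - evL M Ln) - ev p M s R Q (w - evL M L) := by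
        rw [evL_opL hM hQ hL1, ev_sub_right]
        ring
      rw [e]
      refine (h3.mono (by linarith)).sub ?_
      have e2 := ev_ge h hM hQ hL2 (c := (R - δ) / 2) (fun j hj =>
        hpj j (le_natDegree_of_ne_zero hj))
      refine e2.mono ?_
      linarith
    have hInG : InG G (opL p s R Q L - Ln) := InG.sub (opL_inG hQ hL1) hLn
    have h5 := eq_zero_of_ge h hM hInG h4 (g := δ) (by linarith)
    rw [Finsupp.sub_apply, Finsupp.notMem_support_iff.mp hδF, sub_zero] at h5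
    rw [← h5, opL_apply]
    refine Finset.sum_congr rfl fun j hj => ?_
    have hj' : j ≤ D := le_natDegree_of_ne_zero (mem_support_iff.mp hj)
    rw [hL3]
    have hpj0 : (0 : ℝ) < (p : ℝ) ^ j := by positivity
    have e1 := hpj j hj'
    have e2 : η < (R - δ) / (p : ℝ) ^ j := by
      rw [lt_div_iff₀ hpj0, mul_comm]
      linarith
    linarith

/-- The leading term of an element of `N`. -/
theorem exists_term (h : Ctx0 k v) (hM : MS v G M) (hN : LDense v G M N) {a : Ω} (ha : a ∈ N)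
    (h0 : a ≠ 0) : v a ∈ G ∧ ∃ c : k, c ≠ 0 ∧ Gt v (v a) (a - algebraMap k Ω c * M (v a)) := by
  classical
  obtain ⟨L, hL, h1⟩ := hN a ha (v a + 1)
  have h2 : Gt v (v a) (a - evL M L) := Gt.of_ge h1 (by linarith)
  obtain ⟨h3, h4⟩ := h2.val_eq h0
  have hL0 : L ≠ 0 := by rintro rfl; exact h3 evL_zero
  obtain ⟨m, hm, hmin, -, h5⟩ := evL_lead h hM hL hL0
  have hma : m = v a := by rw [← h4, h5]
  subst hma
  refine ⟨hL _ hm, L (v a), hm, ?_⟩
  have h6 : evL M L - algebraMap k Ω (L (v a)) * M (v a) = evL M (L.erase (v a)) := by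
    rw [← evL_single, ← evL_sub]
    congr 1
    rw [← Finsupp.single_add_erase (v a) L]
    simp
  have h7 : Gt v (v a) (evL M (L.erase (v a))) := by
    refine evL_gt h hM ?_ fun g hg => ?_
    · intro g hg
      refine hL g fun h6 => hg ?_
      rw [Finsupp.erase_apply]
      split_ifs
      · rfl
      · exact h6
    · rw [Finsupp.erase_apply] at hg
      split_ifs at hg with h6
      · exact absurd rfl hg
      · exact lt_of_le_of_ne (hmin g hg) (Ne.symm h6)
  rw [← h6] at h7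
  have h8 := h2.add h7
  rwa [sub_add_sub_cancel] at h8

/-- **Lemma K.** A limit of `N` up to `s`, at distance `< s` of `N`, is at distance `< s` of the
algebraic closure of `N`. -/
theorem TL.of_lim [IsAlgClosed Ω] [Fact p.Prime] [CharP Ω p] (h : Ctx0 k v) (hM : MS v G M)
    (hMN : ∀ g ∈ G, M g ∈ N) (hN : LDense v G M N) (hG : G.FG) {w : Ω} (hw : Lim v N s w)
    (hfar : ∀ a ∈ N, w ≠ a ∧ v (w - a) < s) : TL v N w s := by
  classical
  refine ⟨hw, ?_⟩
  by_contra hcon
  push Not at hcon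
  -- a polynomial of minimal degree with a root near `w`
  let P : ℕ → Prop := fun d => ∃ f ∈ PI N, f ≠ 0 ∧ f.natDegree = d ∧
    ∃ θ, f.eval θ = 0 ∧ v.Ge s (w - θ)
  have hex : ∃ d, P d := by
    obtain ⟨θ, hθ, h1⟩ := hcon
    obtain ⟨g, hg0, hg⟩ := hθ
    refine ⟨_, g.map (algebraMap N Ω), fun i => ?_, ?_, rfl, θ, ?_, fun h2 => ?_⟩
    · rw [coeff_map]
      exact (g.coeff i).2
    · rwa [Ne, Polynomial.map_eq_zero]
    · rw [eval_map, ← aeval_def, hg]
    · exact h1 (sub_ne_zero.1 h2)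
  set d := Nat.find hex with hd
  obtain ⟨f, hf, hf0, hfd, θ, hθ, hθw⟩ := Nat.find_spec hex
  have hfd' : f.natDegree = d := hfd
  have hmin : ∀ g ∈ PI N, g ≠ 0 → g.natDegree < d → Str v s (taylor w g) := by
    intro g hg hg0 hgd
    have h1 := (IsAlgClosed.splits g).eq_prod_roots
    rw [h1, taylor_mul, taylor_C]
    refine Str.mul (Str.C (leadingCoeff_ne_zero.2 hg0)) (Str.multiset _ fun θ hθ => ?_)
    rw [mem_roots hg0] at hθ
    have h2 := Nat.find_min hex hgd
    by_contra h3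
    refine h2 ⟨g, hg, hg0, rfl, θ, hθ, fun h4 => ?_⟩
    by_contra h5
    exact h3 ⟨sub_ne_zero.1 h4, not_le.1 h5⟩
  have hd1 : 1 ≤ d := by
    by_contra h1
    have h2 : f.natDegree = 0 := by omega
    rw [natDegree_eq_zero] at h2
    obtain ⟨c, hc⟩ := h2
    rw [← hc, eval_C] at hθ
    rw [hθ, C_0] at hc
    exact hf0 hc.symm
  set F := taylor w f with hF
  have hFd : F.natDegree = d := by rw [hF, natDegree_taylor, hfd']
  have hhd : ∀ l, 1 ≤ l → (hasseDeriv l f).natDegree < d := by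
    intro l hl
    have h1 := natDegree_hasseDeriv_le f l
    omega
  have hhe : ∀ l, (hasseDeriv l f).eval w = F.coeff l := fun l => (taylor_coeff _ _ _).symm
  have hh0 : ∀ l, F.coeff l ≠ 0 → hasseDeriv l f ≠ 0 := by
    intro l hl h1
    rw [← hhe, h1, eval_zero] at hl
    exact hl rfl
  have hFlc : F.coeff d ≠ 0 := by
    rw [← hFd, coeff_natDegree]
    refine leadingCoeff_ne_zero.2 fun h1 => hf0 ?_
    rw [hF] at h1
    exact (taylor_injective w) (by rw [h1, map_zero])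
  -- the radius
  set S : Finset ℕ := (Finset.Icc 1 d).filter fun l => F.coeff l ≠ 0 with hS
  have hSne : S.Nonempty := ⟨d, Finset.mem_filter.2 ⟨Finset.mem_Icc.2 ⟨hd1, le_rfl⟩, hFlc⟩⟩
  obtain ⟨l₀, hl₀, hl₀min⟩ := S.exists_min_image (fun l => v (F.coeff l) + l * s) hSne
  set R := v (F.coeff l₀) + l₀ * s with hR
  obtain ⟨hl₀1, hl₀2⟩ := Finset.mem_filter.1 hl₀
  have hge : ∀ l : ℕ, 1 ≤ l → v.Ge (R - l * s) (F.coeff l) := by
    intro l hl hne
    have h1 : l ∈ S := by
      refine Finset.mem_filter.2 ⟨Finset.mem_Icc.2 ⟨hl, ?_⟩, hne⟩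
      rw [← hFd]
      exact le_natDegree_of_ne_zero hne
    have h2 := hl₀min l h1
    linarith
  -- `f(w) ∈ O(R)`
  have hfw : v.Ge R (f.eval w) := by
    have h1 : f.eval w = -∑ l ∈ Finset.Icc 1 F.natDegree, F.coeff l * (θ - w) ^ l := by
      have h2 : f.eval θ - f.eval w =
          ∑ l ∈ Finset.Icc 1 F.natDegree, F.coeff l * (θ - w) ^ l := by
        rw [eval_eq_taylor f w θ, ← hF, ← taylor_coeff_zero w f, ← hF, eval_eq_sum_range,
          Finset.sum_range_eq_add_Ico _ (Nat.succ_pos _)]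
        rw [pow_zero, mul_one, add_sub_cancel_left]
        rfl
      rw [← h2, hθ]
      ring
    rw [h1]
    refine RVal.Ge.neg (RVal.Ge.sum _ _ fun l hl => ?_)
    have hl1 := (Finset.mem_Icc.1 hl).1
    refine (RVal.Ge.mul (hge l hl1) (ge_pow (ge_sub_comm hθw) l)).mono ?_
    linarith
  -- non `p`-powers
  have hnp : ∀ l : ℕ, 1 ≤ l → (∀ i, l ≠ p ^ i) → Gt v (R - l * s) (F.coeff l) := by
    intro l hl1 hlp h0
    obtain ⟨j, hj0, hjl, hj⟩ := exists_choose (Fact.out : p.Prime) hl1 hlp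
    set g := hasseDeriv j f with hg
    have hgm : g ∈ PI N := hasse_mem_PI hf j
    have hgc : (taylor w g).coeff (l - j) = (l.choose j : Ω) * F.coeff l := by
      rw [hF, taylor_coeff, taylor_coeff, hg]
      have h1 := congrArg (fun L => L f) (hasseDeriv_comp (R := Ω) (l - j) j)
      simp only [LinearMap.comp_apply, LinearMap.smul_apply] at h1
      rw [h1, show l - j + j = l by omega, eval_smul, nsmul_eq_mul, ← Nat.choose_symm (by omega)]
      congr 3
      omega
    obtain ⟨h1, h2⟩ := val_natCast (Ω := Ω) (v := v) p hj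
    have h3 : (taylor w g).coeff (l - j) ≠ 0 := by
      rw [hgc]; exact mul_ne_zero h1 h0
    have hg0 : g ≠ 0 := by
      intro h4
      rw [h4, map_zero, coeff_zero] at h3
      exact h3 rfl
    have hstr := hmin g hgm hg0 (hhd j hj0)
    have h5 := hstr.gt (l - j) (by omega) h3
    have h6 : (taylor w g).coeff 0 = F.coeff j := by rw [taylor_coeff_zero, hg, hhe]
    have h7 := hge j hj0 (by rw [← h6]; exact hstr.ne)
    rw [hgc, v.map_mul h1 h0, h2, zero_add, h6] at h5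
    have h8 : ((l - j : ℕ) : ℝ) = l - j := by rw [Nat.cast_sub hjl.le]
    rw [h8] at h5
    nlinarith
  have hpp : ∀ i, 1 ≤ p ^ i := fun i => Nat.one_le_pow _ _ (Fact.out : p.Prime).pos
  -- representatives
  set γ : ℕ → Ω := fun i => F.coeff (p ^ i) with hγ
  have hrep : ∀ i, γ i ≠ 0 → v (γ i) ∈ G ∧
      ∃ c : k, c ≠ 0 ∧ Gt v (v (γ i)) (γ i - algebraMap k Ω c * M (v (γ i))) := by
    intro i hi
    have hgi : hasseDeriv (p ^ i) f ∈ PI N := hasse_mem_PI hf _
    have hev : (hasseDeriv (p ^ i) f).eval w = γ i := hhe _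
    have hstr := hmin _ hgi (hh0 _ hi) (hhd _ (hpp i))
    obtain ⟨δ, hδ, h2⟩ := hstr.near
    obtain ⟨ψ, hψ, h3⟩ := hw δ hδ
    have h4 := h2 (ψ - w) (ge_sub_comm h3)
    rw [taylor_coeff_zero, ← eval_eq_taylor, hev] at h4
    have h4' : Gt v (v (γ i)) (γ i - (hasseDeriv (p ^ i) f).eval ψ) :=
      (Gt.of_ge h4 (by linarith)).sub_comm'
    obtain ⟨h5, h6⟩ := Gt.val_eq hi h4'
    obtain ⟨h7, c, hc, h8⟩ := exists_term h hM hN (eval_mem hgi hψ) h5
    rw [h6] at h7 h8
    refine ⟨h7, c, hc, ?_⟩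
    have h9 := h4'.add h8
    rwa [sub_add_sub_cancel] at h9
  let lam : ℕ → k := fun i =>
    if hi : γ i ≠ 0 ∧ v (γ i) + (p ^ i : ℕ) * s = R then (hrep i hi.1).2.choose else 0
  have hlam1 : ∀ i, (γ i ≠ 0 ∧ v (γ i) + (p ^ i : ℕ) * s = R) →
      lam i ≠ 0 ∧ R - (p : ℝ) ^ i * s ∈ G ∧
        Gt v (v (γ i)) (γ i - algebraMap k Ω (lam i) * M (R - (p : ℝ) ^ i * s)) := by
    intro i hi
    have h2 : lam i = (hrep i hi.1).2.choose := dif_pos hi
    obtain ⟨h3, h4⟩ := (hrep i hi.1).2.choose_spec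
    have h5 : R - (p : ℝ) ^ i * s = v (γ i) := by rw [← hi.2]; push_cast; ring
    rw [← h2] at h3 h4
    rw [h5]
    exact ⟨h3, (hrep i hi.1).1, h4⟩
  have hlam0 : ∀ i, ¬ (γ i ≠ 0 ∧ v (γ i) + (p ^ i : ℕ) * s = R) → lam i = 0 :=
    fun i hi => dif_neg hi
  set c : ℕ → Ω := fun i => algebraMap k Ω (lam i) * M (R - (p : ℝ) ^ i * s) with hc
  have hcN : ∀ i, c i ∈ N := by
    intro i
    by_cases hi : γ i ≠ 0 ∧ v (γ i) + (p ^ i : ℕ) * s = R
    · exact mul_mem (N.algebraMap_mem _) (hMN _ (hlam1 i hi).2.1)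
    · rw [hc]
      dsimp only
      rw [hlam0 i hi, map_zero, zero_mul]
      exact zero_mem _
  set e := F.natDegree + 1 with he
  have hcoefP : ∀ i, (taylor w (addP p e c)).coeff (p ^ i) = c i := by
    intro i
    rw [coeff_taylor_addP_pow]
    split_ifs with h3
    · rfl
    · have h4 : lam i = 0 := by
        apply hlam0
        rintro ⟨h4, -⟩
        refine h4 (coeff_eq_zero_of_natDegree_lt ?_)
        have h5 : i < p ^ i := Nat.lt_pow_self (Fact.out : p.Prime).one_lt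
        omega
      rw [hc]
      dsimp only
      rw [h4, map_zero, zero_mul]
  set g' := f - addP p e c with hg'
  have hg'm : g' ∈ PI N := sub_mem hf (addP_mem hcN)
  have hcoef : ∀ l : ℕ, 1 ≤ l → Gt v (R - l * s) ((taylor w g').coeff l) := by
    intro l hl1
    rw [hg', map_sub, coeff_sub]
    by_cases hlp : ∀ i, l ≠ p ^ i
    · have h2 : (taylor w (addP p e c)).coeff l = 0 := by
        rw [coeff_taylor_addP p e c w hl1]
        exact Finset.sum_eq_zero fun i _ => if_neg (hlp i)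
      rw [h2, sub_zero]
      exact hnp l hl1 hlp
    · rw [not_forall] at hlp
      obtain ⟨i, hi⟩ := hlp
      rw [not_not] at hi
      subst hi
      rw [hcoefP i]
      by_cases hi : γ i ≠ 0 ∧ v (γ i) + (p ^ i : ℕ) * s = R
      · refine (hlam1 i hi).2.2.mono ?_
        linarith [hi.2]
      · rw [hc]
        dsimp only
        rw [hlam0 i hi, map_zero, zero_mul, sub_zero]
        intro h4
        have h5 := hge (p ^ i) (hpp i) h4
        refine lt_of_le_of_ne h5 fun h6 => hi ⟨h4, ?_⟩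
        show v (F.coeff (p ^ i)) + _ = _
        rw [← h6]
        ring
  -- the operator
  set Q : k[X] := ∑ i ∈ Finset.range e, Polynomial.C (lam i) * X ^ i with hQ
  have hQop : IsOp p G s R Q := by
    refine IsOp.sum fun i _ => IsOp.mono fun h1 => ?_
    by_cases hi : γ i ≠ 0 ∧ v (γ i) + (p ^ i : ℕ) * s = R
    · exact (hlam1 i hi).2.1
    · exact absurd (hlam0 i hi) h1
  have hQc : ∀ i, i < e → Q.coeff i = lam i := by
    intro i hi
    rw [hQ, finsetSum_coeff, Finset.sum_eq_single i]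
    · rw [coeff_C_mul_X_pow, if_pos rfl]
    · intro j _ hj
      rw [coeff_C_mul_X_pow, if_neg hj.symm]
    · intro h1
      exact absurd (Finset.mem_range.2 hi) h1
  have hQ0 : Q ≠ 0 := by
    -- `l₀` is a `p`-power
    have h1 : ∃ i, l₀ = p ^ i := by
      by_contra h1
      push Not at h1
      have h2 := hnp l₀ (Finset.mem_Icc.1 hl₀1).1 h1 hl₀2
      rw [hR] at h2
      linarith
    obtain ⟨i, hi⟩ := h1
    have h2 : γ i ≠ 0 ∧ v (γ i) + (p ^ i : ℕ) * s = R := by
      rw [hγ]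
      dsimp only
      rw [← hi]
      exact ⟨hl₀2, rfl⟩
    have h3 : i < e := by
      have h4 : i < p ^ i := Nat.lt_pow_self (Fact.out : p.Prime).one_lt
      have h5 := (Finset.mem_Icc.1 hl₀1).2
      omega
    intro h4
    have h5 := hQc i h3
    rw [h4, coeff_zero] at h5
    exact (hlam1 i h2).1 h5.symm
  have hQev : ev p M s R Q w = (addP p e c).eval w := by
    rw [hQ, ev_sum, addP_eval]
    exact Finset.sum_congr rfl fun i _ => ev_mono _ _ _
  obtain ⟨δ, hδ, h2⟩ := var_bound' g' w s R hcoef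
  obtain ⟨ψ, hψ, h3⟩ := hw δ hδ
  have h4 := h2 ψ h3
  have hrel : Nr v N R (ev p M s R Q w) := by
    refine ⟨-(g'.eval ψ), neg_mem (eval_mem hg'm hψ), ?_⟩
    have h5 : ev p M s R Q w - -(g'.eval ψ) = f.eval w - (g'.eval w - g'.eval ψ) := by
      rw [hQev, hg', eval_sub, eval_sub]
      ring
    rw [h5]
    exact hfw.sub h4.ge
  obtain ⟨a, ha, h5⟩ := nr_of_rel_ld h hM hMN hN hG hw hQop hQ0 hrel
  obtain ⟨h6, h7⟩ := hfar a ha
  have h8 := h5 (sub_ne_zero.2 h6)
  linarith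

/-! ### Recentring -/

/-- **N1**, for an abstract frame. -/
theorem exists_recentre_ms [IsAlgClosed Ω] (p : ℕ) [Fact p.Prime] [CharP Ω p] (h : Ctx0 k v)
    (hM : MS v G M) (hMN : ∀ g ∈ G, M g ∈ N) (hN : LDense v G M N) (hG : G.FG) (hcl : Cld v N)
    {w : Ω} (hw : 0 < v w) (hV : ¬ VG v G (cadj v N w)) :
    ∃ L : ℝ →₀ k, InG G L ∧ (∀ g, L g ≠ 0 → 0 < g) ∧ w ≠ evL M L ∧ v (w - evL M L) ∉ G := by
  classical
  by_contra hcon
  push Not at hcon
  -- `w ∉ N`
  have hwN : w ∉ N := by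
    intro h1
    refine hV fun b hb hb0 => ?_
    exact (exists_term h hM hN (cadj_le hcl le_rfl h1 hb) hb0).1
  have hne : ∀ a ∈ N, w ≠ a := by
    rintro a ha rfl
    exact hwN ha
  have hw0 : w ≠ 0 := hne 0 (zero_mem _)
  -- the values `v(w - a)` are in `G`
  have hval : ∀ a ∈ N, v (w - a) ∈ G := by
    intro a ha
    obtain ⟨L, hL, h1⟩ := hN a ha (v (w - a) + 1)
    have h2 : Gt v (v (w - a)) ((w - a) - (w - evL M L)) := by
      refine Gt.of_ge (r' := v (w - a) + 1) ?_ (by linarith)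
      have e : (w - a) - (w - evL M L) = -(a - evL M L) := by ring
      rw [e]
      exact h1.neg
    obtain ⟨h3, h4⟩ := h2.val_eq (sub_ne_zero.2 (hne a ha))
    rw [← h4]
    by_cases hpos : ∀ g, L g ≠ 0 → 0 < g
    · exact hcon L hL hpos (sub_ne_zero.1 h3)
    · push Not at hpos
      obtain ⟨g, hg, hg0⟩ := hpos
      have hL0 : L ≠ 0 := by rintro rfl; exact hg rfl
      obtain ⟨m, hm, hmin, h5, h6⟩ := evL_lead h hM hL hL0
      have h7 : m ≤ 0 := (hmin g hg).trans hg0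
      have h8 : Gt v (v (-(evL M L)))
          (-(evL M L) - (w - evL M L)) := by
        have e : -(evL M L) - (w - evL M L) = -w := by ring
        rw [e, v.map_neg _ h5, h6]
        refine Gt.neg fun _ => ?_
        linarith
      obtain ⟨-, h9⟩ := h8.val_eq (neg_ne_zero.2 h5)
      rw [h9, v.map_neg _ h5, h6]
      exact hL m hm
  -- the distance
  let S : Set ℝ := {y | ∃ a ∈ N, y = v (w - a)}
  have hSne : S.Nonempty := ⟨_, 0, zero_mem _, rfl⟩
  have hSb : BddAbove S := by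
    by_contra hcon
    apply hwN
    apply hcl
    intro b
    rw [not_bddAbove_iff] at hcon
    obtain ⟨y, ⟨a, ha, rfl⟩, hy⟩ := hcon b
    exact ⟨a, ha, RVal.Ge.of_le hy.le⟩
  have hl : Lim v N (sSup S) w := by
    intro ε hε
    obtain ⟨y, ⟨a, ha, rfl⟩, hy⟩ := exists_lt_of_lt_csSup hSne (sub_lt_self (sSup S) hε)
    exact ⟨a, ha, RVal.Ge.of_le hy.le⟩
  have hfar : ∀ a ∈ N, w ≠ a ∧ v (w - a) < sSup S := by
    intro a ha
    refine ⟨hne a ha, lt_of_le_of_ne (le_csSup hSb ⟨a, ha, rfl⟩) fun heq => ?_⟩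
    have hs := hval a ha
    set g := v (w - a) with hg
    have hMg := hM.ne g hs
    have hwa := sub_ne_zero.2 (hne a ha)
    have h1 : v ((w - a) * (M g)⁻¹) = 0 := by
      rw [v.map_mul hwa (inv_ne_zero hMg), v.map_inv hMg, hM.val g hs, ← hg, add_neg_cancel]
    obtain ⟨c, -, hc⟩ := h.res _ (mul_ne_zero hwa (inv_ne_zero hMg)) h1
    have ha' : a + algebraMap k Ω c * M g ∈ N :=
      add_mem ha (mul_mem (N.algebraMap_mem _) (hMN g hs))
    have e : w - (a + algebraMap k Ω c * M g) =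
        ((w - a) * (M g)⁻¹ - algebraMap k Ω c) * M g := by
      field_simp
      ring
    have h2 := sub_ne_zero.2 (hne _ ha')
    have h3 : (w - a) * (M g)⁻¹ - algebraMap k Ω c ≠ 0 := by
      intro h4
      rw [e, h4, zero_mul] at h2
      exact h2 rfl
    have h4 : v (w - (a + algebraMap k Ω c * M g)) =
        v ((w - a) * (M g)⁻¹ - algebraMap k Ω c) + g := by
      rw [e, v.map_mul h3 hMg, hM.val g hs]
    have h5 : 0 < v ((w - a) * (M g)⁻¹ - algebraMap k Ω c) := hc h3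
    have h6 := le_csSup hSb (show _ ∈ S from ⟨_, ha', rfl⟩)
    rw [h4] at h6
    linarith
  have hTL := TL.of_lim h hM hMN hN hG hl hfar
  exact hV fun b hb h0 => val_mem h hM hN hTL.imm hb h0

variable {n : ℕ} {x : Fin n → Ω}

/-- **N1.** -/
theorem exists_recentre [IsAlgClosed Ω] (p : ℕ) [Fact p.Prime] [CharP Ω p] (h : Ctx0 k v)
    (hx : ∀ i, x i ≠ 0) (hind : LinearIndependent ℚ fun i => v (x i)) {w : Ω}
    (hw : 0 < v w) (hV : ¬ VG v (GG v x) (cadj v (NN k v x) w)) :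
    ∃ L : ℝ →₀ k, InG (GG v x) L ∧ (∀ g, L g ≠ 0 → 0 < g) ∧ w ≠ evL (MM v x) L ∧
      v (w - evL (MM v x) L) ∉ GG v x :=
  exists_recentre_ms p h (MS_MM hx hind) (MM_mem hind fun i => x_mem_NN x i)
    (NN_dense h hx hind) (GG_fg x) (NN_cld x) hw hV

/-! ### The field of the monomials of an abstract frame -/

theorem mem_LF (h : Ctx0 k v) {hM : MS v G M} {a : Ω} :
    a ∈ LF h hM ↔ ∀ b : ℝ, ∃ L : ℝ →₀ k, InG G L ∧ v.Ge b (a - evL M L) := by
  constructor
  · intro ha b
    obtain ⟨l, ⟨L, hL, rfl⟩, h1⟩ := ha b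
    exact ⟨L, hL, h1⟩
  · intro ha b
    obtain ⟨L, hL, h1⟩ := ha b
    exact ⟨_, ⟨L, hL, rfl⟩, h1⟩

theorem LF_dense (h : Ctx0 k v) (hM : MS v G M) : LDense v G M (LF h hM) :=
  fun _ ha => (mem_LF h).1 ha

theorem LF_cld (h : Ctx0 k v) (hM : MS v G M) : Cld v (LF h hM) := by
  intro a ha
  refine ClR_ClR (A := LR k hM) fun c => ?_
  obtain ⟨a', ha', h2⟩ := (mem_clI.1 ha) c
  exact ⟨a', ha', h2⟩

theorem LF_mon (h : Ctx0 k v) (hM : MS v G M) {g : ℝ} (hg : g ∈ G) : M g ∈ LF h hM := by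
  refine le_ClR _ ?_
  have h1 := mono_mem_LG (k := k) (M := M) hg 1
  rwa [map_one, one_mul] at h1

theorem LF_le (h : Ctx0 k v) (hM : MS v G M) {F : IntermediateField k Ω} (hF : Cld v F)
    (hmon : ∀ g ∈ G, M g ∈ F) : LF h hM ≤ F := by
  intro a ha
  refine hF ?_
  rw [mem_clI]
  intro c
  obtain ⟨L, hL, h1⟩ := (mem_LF h).1 ha c
  refine ⟨evL M L, ?_, h1⟩
  rw [evL, Finsupp.sum]
  exact sum_mem fun g hg => mul_mem (F.algebraMap_mem _)
    (hmon _ (hL g (Finsupp.mem_support_iff.mp hg)))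

/-- **N1** for the closure of the field of the monomials. -/
theorem exists_recentre_LF [IsAlgClosed Ω] (p : ℕ) [Fact p.Prime] [CharP Ω p] (h : Ctx0 k v)
    (hM : MS v G M) (hG : G.FG) {w : Ω} (hw : 0 < v w) (hV : ¬ VG v G (cadj v (LF h hM) w)) :
    ∃ L : ℝ →₀ k, InG G L ∧ (∀ g, L g ≠ 0 → 0 < g) ∧ w ≠ evL M L ∧ v (w - evL M L) ∉ G :=
  exists_recentre_ms p h hM (fun _ hg => LF_mon h hM hg) (LF_dense h hM) hG (LF_cld h hM) hw hV

end Pool.Agent.TWM
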