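import Pool.Agent.Lib.TW_NFG.TS3
import Pool.Agent.Lib.TW_NFG.N1

/-!
# NFG, `s = 2`: frames, leading coefficients

* `Frm v G M w F`: `F` is the closure of `k(M g, w)`, `g ∈ G`; `NFG v F`: the value group of `F` is
  not finitely generated;
* `Lt k G M w μ f₀ f`: `f` is the value of a Laurent polynomial of content `≥ μ`, with the
  coefficient `f₀ ∈ k[X]` at `μ`;
* `PD p G x`: the monomial `x = (g, n)` is a `p`-th power; `NPD p G P`: `P` has no such monomials;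
* `Uni p G P L`: `P` is unimodular of content `L`, modulo `p`-th powers.
-/

set_option autoImplicit false

open Polynomial

namespace Pool.Agent.TWN

open Pool.Agent.H15JM (RVal)
open Pool.Agent.TWM (MS TL cadj VG)
open Pool.Agent.D2P (clI mem_clI)

universe u

variable {k Ω : Type u} [Field k] [Field Ω] [Algebra k Ω] {v : RVal Ω} {G G' : AddSubgroup ℝ}
  {M M' : ℝ → Ω} {w t : Ω}

/-- A frame of `F`. -/
structure Frm (v : RVal Ω) (G : AddSubgroup ℝ) (M : ℝ → Ω) (w : Ω)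
    (F : IntermediateField k Ω) : Prop where
  ms : MS v G M
  fg : G.FG
  wne : w ≠ 0
  wpos : 0 < v w
  full : ∀ f ∈ F, f ≠ 0 → ∃ m : ℕ, 0 < m ∧ (m : ℝ) * v f ∈ G
  eq : F = clI v (IntermediateField.adjoin k (M '' G ∪ {w}))

/-- The value group is not finitely generated. -/
def NFG (v : RVal Ω) (F : IntermediateField k Ω) : Prop :=
  ∀ G : AddSubgroup ℝ, G.FG → ¬ VG v G F

/-- `f` has content `≥ μ`, and the coefficient `f₀` at `μ`. -/
def Lt (k : Type u) {Ω : Type u} [Field k] [Field Ω] [Algebra k Ω] (G : AddSubgroup ℝ) (M : ℝ → Ω)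
    (w : Ω) (μ : ℝ) (f₀ : k[X]) (f : Ω) : Prop :=
  ∃ P : ℝ →₀ k[X], InP G P ∧ Ct μ P ∧ P μ = f₀ ∧ f = evP M w P

/-- The monomial `x = (g, n)` is a `p`-th power. -/
def PD (p : ℕ) (G : AddSubgroup ℝ) (x : ℝ × ℕ) : Prop := (∃ d ∈ G, x.1 = p * d) ∧ p ∣ x.2

/-- No monomial is a `p`-th power. -/
def NPD (p : ℕ) (G : AddSubgroup ℝ) (P : ℝ →₀ k[X]) : Prop := ∀ x ∈ terms P, ¬ PD p G x

/-- The order of a form in terms of the order of a function. -/
def phi (p e : ℕ) : ℕ := if p ∣ e then e else e - 1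

/-- `P` is unimodular of content `L`, modulo `p`-th powers. -/
structure Uni (p : ℕ) (G : AddSubgroup ℝ) (P : ℝ →₀ k[X]) (L : ℝ) : Prop where
  inP : InP G P
  npd : NPD p G P
  ct : Ct L P
  uni : ∃ e ≤ 1, (P L).coeff e ≠ 0

/-- `P` is unimodular of content `L`. -/
structure Uni1 (G : AddSubgroup ℝ) (P : ℝ →₀ k[X]) (L : ℝ) : Prop where
  inP : InP G P
  ct : Ct L P
  uni : (P L).coeff 0 ≠ 0

/-! ### `Lt` -/

theorem Lt.rg {μ : ℝ} {f₀ : k[X]} {f : Ω} (h : Lt k G M w μ f₀ f) : Rg k G M w μ f := by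
  obtain ⟨P, h1, h2, -, h3⟩ := h
  exact ⟨P, h1, h2, h3⟩

theorem Rg.lt {μ ν : ℝ} (hμν : μ < ν) {f : Ω} (h : Rg k G M w ν f) : Lt k G M w μ 0 f := by
  obtain ⟨P, h1, h2, h3⟩ := h
  refine ⟨P, h1, h2.mono hμν.le, ?_, h3⟩
  by_contra h4
  exact absurd (h2 μ h4) (not_le.2 hμν)

theorem Rg.exists_lt {μ : ℝ} {f : Ω} (h : Rg k G M w μ f) : ∃ f₀, Lt k G M w μ f₀ f := by
  obtain ⟨P, h1, h2, h3⟩ := h
  exact ⟨_, P, h1, h2, rfl, h3⟩

theorem Lt.zero {μ : ℝ} : Lt k G M w μ 0 0 := ⟨0, InP.zero, Ct.zero, rfl, evP_zero.symm⟩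

theorem Lt.add {μ : ℝ} {f₀ g₀ : k[X]} {f g : Ω} (hf : Lt k G M w μ f₀ f)
    (hg : Lt k G M w μ g₀ g) : Lt k G M w μ (f₀ + g₀) (f + g) := by
  obtain ⟨P, h1, h2, h3, rfl⟩ := hf
  obtain ⟨Q, h4, h5, h6, rfl⟩ := hg
  exact ⟨P + Q, h1.add h4, h2.add h5, by rw [Finsupp.add_apply, h3, h6], (evP_add P Q).symm⟩

theorem Lt.neg {μ : ℝ} {f₀ : k[X]} {f : Ω} (hf : Lt k G M w μ f₀ f) :
    Lt k G M w μ (-f₀) (-f) := by
  obtain ⟨P, h1, h2, h3, rfl⟩ := hf
  exact ⟨-P, h1.neg, h2.neg, by rw [Finsupp.neg_apply, h3], (evP_neg P).symm⟩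

theorem Lt.sub {μ : ℝ} {f₀ g₀ : k[X]} {f g : Ω} (hf : Lt k G M w μ f₀ f)
    (hg : Lt k G M w μ g₀ g) : Lt k G M w μ (f₀ - g₀) (f - g) := by
  rw [sub_eq_add_neg, sub_eq_add_neg]
  exact hf.add hg.neg

theorem Lt.sum {ι : Type*} {μ : ℝ} {s : Finset ι} {f₀ : ι → k[X]} {f : ι → Ω}
    (h : ∀ i ∈ s, Lt k G M w μ (f₀ i) (f i)) :
    Lt k G M w μ (∑ i ∈ s, f₀ i) (∑ i ∈ s, f i) := by
  classical
  induction s using Finset.induction_on with
  | empty => rw [Finset.sum_empty, Finset.sum_empty]; exact Lt.zero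
  | insert a s ha ih =>
    rw [Finset.sum_insert ha, Finset.sum_insert ha]
    exact (h a (Finset.mem_insert_self a s)).add
      (ih fun i hi => h i (Finset.mem_insert_of_mem hi))

theorem Lt.term {g : ℝ} (hg : g ∈ G) (f : k[X]) : Lt k G M w g f (M g * aeval w f) := by
  classical
  exact ⟨Finsupp.single g f, InP.single hg f, Ct.single le_rfl f, by
    rw [Finsupp.single_apply, if_pos rfl], (evP_single g f).symm⟩

/-- The leading coefficient and the rest. -/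
theorem Lt.split {μ : ℝ} (hμ : μ ∈ G) {f₀ : k[X]} {f : Ω} (h : Lt k G M w μ f₀ f) :
    ∃ δ > 0, Rg k G M w (μ + δ) (f - M μ * aeval w f₀) := by
  classical
  obtain ⟨P, h1, h2, h3, rfl⟩ := h
  have hP : evP M w P - M μ * aeval w f₀ = evP M w (P.erase μ) := by
    rw [← evP_single, ← h3]
    conv_lhs => rw [← Finsupp.single_add_erase μ P]
    rw [evP_add]
    simp
  have h4 : InP G (P.erase μ) := by
    intro g hg
    refine h1 g fun h0 => hg ?_
    rw [Finsupp.erase_apply]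
    split_ifs
    · rfl
    · exact h0
  have h5 : ∀ g, P.erase μ g ≠ 0 → μ < g := by
    intro g hg
    rw [Finsupp.erase_apply] at hg
    split_ifs at hg with h6
    · exact absurd rfl hg
    · exact lt_of_le_of_ne (h2 g hg) (Ne.symm h6)
  rcases (P.erase μ).support.eq_empty_or_nonempty with h6 | h6
  · refine ⟨1, one_pos, P.erase μ, h4, ?_, hP⟩
    rw [Finsupp.support_eq_empty] at h6
    rw [h6]
    exact Ct.zero
  · obtain ⟨g₀, hg₀, hmin⟩ := (P.erase μ).support.exists_min_image id h6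
    refine ⟨g₀ - μ, sub_pos.2 (h5 g₀ (Finsupp.mem_support_iff.1 hg₀)), P.erase μ, h4, ?_, hP⟩
    intro g hg
    rw [add_sub_cancel]
    exact hmin g (Finsupp.mem_support_iff.2 hg)

theorem Lt.of_sub {μ δ : ℝ} (hμ : μ ∈ G) (hδ : 0 < δ) {f₀ : k[X]} {f : Ω}
    (h : Rg k G M w (μ + δ) (f - M μ * aeval w f₀)) : Lt k G M w μ f₀ f := by
  have h1 := (Lt.term (k := k) (M := M) (w := w) hμ f₀).add (h.lt (by linarith : μ < μ + δ))
  rwa [add_zero, add_sub_cancel] at h1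

theorem Lt.mul (hM : MS v G M) {μ ν : ℝ} (hμ : μ ∈ G) (hν : ν ∈ G) {f₀ g₀ : k[X]} {f g : Ω}
    (hf : Lt k G M w μ f₀ f) (hg : Lt k G M w ν g₀ g) :
    Lt k G M w (μ + ν) (f₀ * g₀) (f * g) := by
  obtain ⟨δ, hδ, h1⟩ := hf.split hμ
  obtain ⟨ε, hε, h2⟩ := hg.split hν
  have hm : 0 < min δ ε := lt_min hδ hε
  refine Lt.of_sub (G.add_mem hμ hν) hm ?_
  have e : f * g - M (μ + ν) * aeval w (f₀ * g₀) =
      (f - M μ * aeval w f₀) * g + M μ * aeval w f₀ * (g - M ν * aeval w g₀) := by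
    rw [hM.mul μ hμ ν hν, map_mul]
    ring
  rw [e]
  refine Rg.add ?_ ?_
  · refine (h1.mul hM hg.rg).mono ?_
    have := min_le_left δ ε
    linarith
  · refine ((Rg.term hμ f₀).mul hM h2).mono ?_
    have := min_le_right δ ε
    linarith

theorem Lt.pow (hM : MS v G M) {μ : ℝ} (hμ : μ ∈ G) {f₀ : k[X]} {f : Ω}
    (hf : Lt k G M w μ f₀ f) (n : ℕ) : Lt k G M w (n * μ) (f₀ ^ n) (f ^ n) := by
  induction n with
  | zero =>
    have h := Lt.term (k := k) (M := M) (w := w) G.zero_mem 1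
    rw [hM.zero, map_one, one_mul] at h
    rw [Nat.cast_zero, zero_mul, pow_zero, pow_zero]
    exact h
  | succ n ih =>
    rw [pow_succ, pow_succ, Nat.cast_succ, add_mul, one_mul]
    refine ih.mul hM ?_ hμ hf
    rw [← nsmul_eq_mul]
    exact G.nsmul_mem hμ n

/-- A change of the parameter, with the same leading coefficients. -/
theorem Lt.reparam (hM : MS v G M) {w₁ : Ω} {δ : ℝ} (hδ : 0 < δ) (hw : Rg k G M w₁ δ (w - w₁))
    {μ : ℝ} (hμ : μ ∈ G) {f₀ : k[X]} {f : Ω} (h : Lt k G M w μ f₀ f) : Lt k G M w₁ μ f₀ f := by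
  classical
  -- the powers of `w`
  have hw1 : Lt k G M w₁ 0 X w := by
    refine Lt.of_sub G.zero_mem hδ ?_
    rwa [hM.zero, one_mul, aeval_X, zero_add]
  have hpow : ∀ n : ℕ, Lt k G M w₁ 0 (X ^ n) (w ^ n) := by
    intro n
    have h1 := hw1.pow hM G.zero_mem n
    rwa [mul_zero] at h1
  have hterm : ∀ g ∈ G, ∀ f₁ : k[X], Lt k G M w₁ g f₁ (M g * aeval w f₁) := by
    intro g hg f₁
    have h1 : Lt k G M w₁ 0 f₁ (aeval w f₁) := by
      rw [aeval_eq_sum_range]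
      conv =>
        arg 6
        rw [f₁.as_sum_range_C_mul_X_pow]
      refine Lt.sum fun i _ => ?_
      have h2 := (Lt.term (k := k) (M := M) (w := w₁) G.zero_mem (C (f₁.coeff i))).mul hM
        G.zero_mem G.zero_mem (hpow i)
      rw [hM.zero, aeval_C, one_mul, add_zero] at h2
      rwa [Algebra.smul_def]
    have h2 := (Lt.term (k := k) (M := M) (w := w₁) hg 1).mul hM hg G.zero_mem h1
    rwa [map_one, mul_one, add_zero, one_mul] at h2
  obtain ⟨P, h1, h2, h3, rfl⟩ := h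
  have hP : ∀ g, P g ≠ 0 → μ < g → Lt k G M w₁ μ 0 (M g * aeval w (P g)) := fun g hg hlt =>
    (hterm g (h1 g hg) (P g)).rg.lt hlt
  have h4 : evP M w P = M μ * aeval w (P μ) + evP M w (P.erase μ) := by
    rw [← evP_single]
    conv_lhs => rw [← Finsupp.single_add_erase μ P]
    rw [evP_add]
  rw [h4, ← h3, ← add_zero (P μ)]
  conv =>
    arg 7
    rw [add_zero]
  refine (hterm μ hμ (P μ)).add ?_
  rw [evP_eq_sum]
  have h5 : Lt k G M w₁ μ (∑ g ∈ (P.erase μ).support, (0 : k[X]))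
      (∑ g ∈ (P.erase μ).support, M g * aeval w ((P.erase μ) g)) := by
    refine Lt.sum fun g hg => ?_
    rw [Finsupp.mem_support_iff] at hg
    have h6 : g ≠ μ := by
      rintro rfl
      exact hg Finsupp.erase_same
    rw [Finsupp.erase_ne h6] at hg ⊢
    exact hP g hg (lt_of_le_of_ne (h2 g hg) (Ne.symm h6))
  rwa [Finset.sum_const_zero] at h5

end Pool.Agent.TWN
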