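import Pool.Agent.Lib.TWM.S3a
import Pool.Agent.Lib.TWM.S4
import Pool.Agent.Lib.TW.Vol

/-!
# TANK W, SEC1: the polynomial heart of the jump theorem

`F` a field with a `p`-basis `t` of distortion `≤ ε`, `A` a polynomial over `F` with first slope
index `S` modulo `p`-th powers at the radius `c` (`SL`), `Q` monic of degree `m` over `F` with all
roots nearer than `c' > c`. Then, for every polynomial `g` over `F`, the part of the `Q`-expansion
of `A - g^p` of index `< p (S / (p m) + 1)` has Gauss value `≤ κ + e + ε` at the radius `c`.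

Method: the `p`-components `f_{αj}` of a polynomial `f = ∑ f_{αj}^p t^α Z^j`.

* `pc p F t u α`: the `p`-coordinates of `u ∈ F`; `cmp p F t f α j`: the `p`-components of `f`;
* `cmp_mul`: `(h^p f)_{αj} = h f_{αj}`;
* `slope_core`.
-/

set_option autoImplicit false

open Polynomial

namespace Pool.Agent.TWJ

open Pool.Agent.H15JM (RVal)
open Pool.Agent.TW (PBasis Orth pcomb mon)
open Pool.Agent.TWM (PI mem_PI GB SL)

universe u

variable {k Ω : Type u} [Field k] [Field Ω] [Algebra k Ω] {v : RVal Ω}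

/-! ### `p`-coordinates -/

section Coord

open Classical in
/-- The `p`-coordinates of `u`. -/
noncomputable def pc (p : ℕ) (F : IntermediateField k Ω) {n : ℕ} (t : Fin n → Ω) (u : Ω) :
    (Fin n → Fin p) → Ω :=
  if h : ∃ c : (Fin n → Fin p) → Ω, (∀ α, c α ∈ F) ∧ u = pcomb t c then h.choose else 0

variable {p : ℕ} [hp : Fact p.Prime] [CharP Ω p] {F : IntermediateField k Ω} {n : ℕ} {t : Fin n → Ω}

omit hp [CharP Ω p] in
theorem pc_mem (u : Ω) (α : Fin n → Fin p) : pc p F t u α ∈ F := by
  rw [pc]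
  split_ifs with h
  · exact h.choose_spec.1 α
  · exact zero_mem F

omit hp [CharP Ω p] in
theorem pc_eq (ht : PBasis p F t) {u : Ω} (hu : u ∈ F) : u = pcomb t (pc p F t u) := by
  have h := ht.span u hu
  rw [pc, dif_pos h]
  exact h.choose_spec.2

theorem pc_unique (ht : PBasis p F t) {c : (Fin n → Fin p) → Ω} (hc : ∀ α, c α ∈ F) :
    pc p F t (pcomb t c) = c := by
  have hmem : pcomb t c ∈ F := by
    rw [pcomb]
    refine sum_mem fun α _ => mul_mem (pow_mem (hc α) p) ?_
    rw [mon]
    exact prod_mem fun i _ => pow_mem (ht.mem i) _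
  have h1 := pc_eq ht hmem
  have h2 : pcomb t (fun α => pc p F t (pcomb t c) α - c α) = 0 := by
    have h3 : pcomb t (fun α => pc p F t (pcomb t c) α - c α) =
        pcomb t (pc p F t (pcomb t c)) - pcomb t c := by
      rw [pcomb, pcomb, pcomb, ← Finset.sum_sub_distrib]
      refine Finset.sum_congr rfl fun α _ => ?_
      rw [sub_pow_char, sub_mul]
    rw [h3, ← h1, sub_self]
  funext α
  exact sub_eq_zero.1 (ht.ind _ (fun β => sub_mem (pc_mem _ β) (hc β)) h2 α)

theorem pc_zero (ht : PBasis p F t) : pc p F t 0 = 0 := by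
  have h1 : (0 : Ω) = pcomb t (0 : (Fin n → Fin p) → Ω) := by
    rw [pcomb]
    symm
    refine Finset.sum_eq_zero fun α _ => ?_
    rw [Pi.zero_apply, zero_pow hp.out.ne_zero, zero_mul]
  rw [h1]
  exact pc_unique ht fun α => zero_mem F

theorem pc_add (ht : PBasis p F t) {u w : Ω} (hu : u ∈ F) (hw : w ∈ F) (α : Fin n → Fin p) :
    pc p F t (u + w) α = pc p F t u α + pc p F t w α := by
  have h1 : u + w = pcomb t (fun α => pc p F t u α + pc p F t w α) := by
    conv_lhs => rw [pc_eq ht hu, pc_eq ht hw]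
    rw [pcomb, pcomb, pcomb, ← Finset.sum_add_distrib]
    refine Finset.sum_congr rfl fun α _ => ?_
    rw [add_pow_char, add_mul]
  rw [h1, pc_unique ht fun β => add_mem (pc_mem _ β) (pc_mem _ β)]

theorem pc_sum (ht : PBasis p F t) {ι : Type*} (s : Finset ι) (f : ι → Ω) (hf : ∀ i ∈ s, f i ∈ F)
    (α : Fin n → Fin p) : pc p F t (∑ i ∈ s, f i) α = ∑ i ∈ s, pc p F t (f i) α := by
  classical
  induction s using Finset.induction_on with
  | empty =>
    rw [Finset.sum_empty, Finset.sum_empty, pc_zero ht]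
    rfl
  | insert a s ha ih =>
    rw [Finset.sum_insert ha, Finset.sum_insert ha, pc_add ht (hf a (Finset.mem_insert_self a s))
      (sum_mem fun i hi => hf i (Finset.mem_insert_of_mem hi)),
      ih fun i hi => hf i (Finset.mem_insert_of_mem hi)]

theorem pc_pow_mul (ht : PBasis p F t) {h u : Ω} (hh : h ∈ F) (hu : u ∈ F) (α : Fin n → Fin p) :
    pc p F t (h ^ p * u) α = h * pc p F t u α := by
  have h1 : h ^ p * u = pcomb t (fun α => h * pc p F t u α) := by
    conv_lhs => rw [pc_eq ht hu]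
    rw [pcomb, pcomb, Finset.mul_sum]
    refine Finset.sum_congr rfl fun α _ => ?_
    rw [mul_pow, mul_assoc]
  rw [h1, pc_unique ht fun β => mul_mem hh (pc_mem _ β)]

/-- The index `0`. -/
def ix0 (p n : ℕ) [Fact p.Prime] : Fin n → Fin p := fun _ => ⟨0, (Fact.out : p.Prime).pos⟩

omit [CharP Ω p] in
theorem mon_ix0 (t : Fin n → Ω) : mon t (ix0 p n) = 1 := by
  rw [mon]
  exact Finset.prod_eq_one fun i _ => pow_zero _

theorem pc_pow (ht : PBasis p F t) {h : Ω} (hh : h ∈ F) (α : Fin n → Fin p) :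
    pc p F t (h ^ p) α = if α = ix0 p n then h else 0 := by
  classical
  have h1 : h ^ p = pcomb t (fun α => if α = ix0 p n then h else 0) := by
    rw [pcomb, Finset.sum_eq_single (ix0 p n)]
    · rw [if_pos rfl, mon_ix0, mul_one]
    · intro β _ hβ
      rw [if_neg hβ, zero_pow hp.out.ne_zero, zero_mul]
    · intro h2
      exact absurd (Finset.mem_univ _) h2
  rw [h1, pc_unique ht fun β => by
    split_ifs
    exacts [hh, zero_mem F]]

end Coord

/-! ### `p`-components of polynomials -/

section Comp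

/-- The `p`-component of index `(α, j)` of the polynomial `f`. -/
noncomputable def cmp (p : ℕ) (F : IntermediateField k Ω) {n : ℕ} (t : Fin n → Ω)
    (f : Polynomial Ω) (α : Fin n → Fin p) (j : ℕ) : Polynomial Ω :=
  ∑ l ∈ Finset.range (f.natDegree + 1), monomial l (pc p F t (f.coeff (p * l + j)) α)

variable {p : ℕ} [hp : Fact p.Prime] [CharP Ω p] {F : IntermediateField k Ω} {n : ℕ} {t : Fin n → Ω}

theorem coeff_cmp (ht : PBasis p F t) (f : Polynomial Ω) (α : Fin n → Fin p) (j l : ℕ) :
    (cmp p F t f α j).coeff l = pc p F t (f.coeff (p * l + j)) α := by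
  classical
  rw [cmp, finsetSum_coeff]
  simp only [coeff_monomial]
  rw [Finset.sum_ite_eq']
  split_ifs with h
  · rfl
  · have h1 : f.natDegree < p * l + j := by
      rw [Finset.mem_range, not_lt] at h
      have := Nat.le_mul_of_pos_left l hp.out.pos
      omega
    rw [coeff_eq_zero_of_natDegree_lt h1, pc_zero ht]
    rfl

theorem cmp_mem (ht : PBasis p F t) (f : Polynomial Ω) (α : Fin n → Fin p) (j : ℕ) :
    cmp p F t f α j ∈ PI F := by
  intro l
  rw [coeff_cmp ht]
  exact pc_mem _ _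

theorem cmp_add (ht : PBasis p F t) {f g : Polynomial Ω} (hf : f ∈ PI F) (hg : g ∈ PI F)
    (α : Fin n → Fin p) (j : ℕ) : cmp p F t (f + g) α j = cmp p F t f α j + cmp p F t g α j := by
  ext l
  rw [coeff_cmp ht, coeff_add, coeff_add, coeff_cmp ht, coeff_cmp ht, pc_add ht (hf _) (hg _)]

theorem cmp_sub (ht : PBasis p F t) {f g : Polynomial Ω} (hf : f ∈ PI F) (hg : g ∈ PI F)
    (α : Fin n → Fin p) (j : ℕ) : cmp p F t (f - g) α j = cmp p F t f α j - cmp p F t g α j := by
  rw [eq_sub_iff_add_eq, ← cmp_add ht (sub_mem hf hg) hg, sub_add_cancel]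

/-- `(h^p f)_{αj} = h f_{αj}`. -/
theorem cmp_mul (ht : PBasis p F t) {h f : Polynomial Ω} (hh : h ∈ PI F) (hf : f ∈ PI F)
    (α : Fin n → Fin p) {j : ℕ} (hj : j < p) :
    cmp p F t (h ^ p * f) α j = h * cmp p F t f α j := by
  classical
  have hp0 := hp.out.pos
  ext l
  rw [coeff_cmp ht, coeff_mul, coeff_mul]
  have h1 : ∑ x ∈ Finset.HasAntidiagonal.antidiagonal (p * l + j), (h ^ p).coeff x.1 * f.coeff x.2 =
      ∑ y ∈ Finset.HasAntidiagonal.antidiagonal l, h.coeff y.1 ^ p * f.coeff (p * y.2 + j) := by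
    symm
    refine Finset.sum_of_injOn (fun y : ℕ × ℕ => (p * y.1, p * y.2 + j)) ?_ ?_ ?_ ?_
    · intro y _ y' _ hyy
      simp only [Prod.mk.injEq] at hyy
      have h2 := Nat.eq_of_mul_eq_mul_left hp0 hyy.1
      have h3 : p * y.2 = p * y'.2 := by omega
      exact Prod.ext h2 (Nat.eq_of_mul_eq_mul_left hp0 h3)
    · intro y hy
      have hy' : y.1 + y.2 = l := by simpa using hy
      have : p * y.1 + (p * y.2 + j) = p * l + j := by rw [← hy']; ring
      simpa using this
    · intro x hx hx'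
      have hx1 : x.1 + x.2 = p * l + j := by simpa using hx
      have h2 : ¬ p ∣ x.1 := by
        rintro ⟨a, ha⟩
        refine hx' ⟨(a, l - a), ?_, ?_⟩
        · have hal : a ≤ l := by
            by_contra hcon
            have h3 : l + 1 ≤ a := by omega
            have h4 : p * (l + 1) ≤ p * a := Nat.mul_le_mul_left p h3
            rw [mul_add, mul_one] at h4
            omega
          simp [Nat.add_sub_cancel' hal]
        · have hal : a ≤ l := by
            by_contra hcon
            have h3 : l + 1 ≤ a := by omega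
            have h4 : p * (l + 1) ≤ p * a := Nat.mul_le_mul_left p h3
            rw [mul_add, mul_one] at h4
            omega
          have h5 : p * (l - a) + p * a = p * l := by
            rw [← mul_add, Nat.sub_add_cancel hal]
          refine Prod.ext ha.symm ?_
          change p * (l - a) + j = x.2
          omega
      rw [Pool.Agent.TWM.coeff_pow_ite, if_neg h2, zero_mul]
    · intro y _
      rw [Pool.Agent.TWM.coeff_pow_ite, if_pos (Dvd.intro _ rfl), Nat.mul_div_cancel_left _ hp0]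
  rw [h1, pc_sum ht _ _ fun y _ => mul_mem (pow_mem (hh _) p) (hf _)]
  refine Finset.sum_congr rfl fun y _ => ?_
  rw [pc_pow_mul ht (hh _) (hf _), coeff_cmp ht]

/-- The components of a `p`-th power. -/
theorem cmp_pow (ht : PBasis p F t) {g : Polynomial Ω} (hg : g ∈ PI F) (α : Fin n → Fin p) {j : ℕ}
    (hj : j < p) : cmp p F t (g ^ p) α j = if α = ix0 p n ∧ j = 0 then g else 0 := by
  classical
  have hp0 := hp.out.pos
  ext l
  rw [coeff_cmp ht, Pool.Agent.TWM.coeff_pow_ite]
  by_cases hj0 : j = 0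
  · subst hj0
    rw [add_zero, if_pos (Dvd.intro _ rfl), Nat.mul_div_cancel_left _ hp0, pc_pow ht (hg _)]
    by_cases hα : α = ix0 p n
    · rw [if_pos hα, if_pos ⟨hα, rfl⟩]
    · rw [if_neg hα, if_neg fun h => hα h.1, coeff_zero]
  · have h1 : ¬ p ∣ p * l + j := by
      intro h2
      have h3 := (Nat.dvd_add_right (Dvd.intro l rfl)).1 h2
      exact hj0 (Nat.eq_zero_of_dvd_of_lt h3 hj)
    rw [if_neg h1, if_neg fun h => hj0 h.2, coeff_zero, pc_zero ht]
    rfl

/-- The components are orthogonal up to `ε`. -/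
theorem cmp_ge (ht : PBasis p F t) {ε : ℝ} (ho : Orth p v F t ε) {f : Polynomial Ω}
    (hf : f ∈ PI F) {L c : ℝ} (hL : ∀ n : ℕ, v.Ge (L - n * c) (f.coeff n)) (α : Fin n → Fin p)
    (j l : ℕ) : v.Ge (L - ε - ((p * l + j : ℕ) : ℝ) * c)
      ((cmp p F t f α j).coeff l ^ p * mon t α) := by
  rw [coeff_cmp ht]
  by_cases h0 : f.coeff (p * l + j) = 0
  · rw [h0, pc_zero ht, Pi.zero_apply, zero_pow hp.out.ne_zero, zero_mul]
    exact RVal.Ge.zero
  · have h1 := pc_eq ht (hf (p * l + j))
    have h2 : pcomb t (pc p F t (f.coeff (p * l + j))) ≠ 0 := by rwa [← h1]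
    have h3 := ho _ (fun β => pc_mem _ β) h2 α
    rw [← h1] at h3
    refine h3.mono ?_
    have := hL (p * l + j) h0
    linarith

/-- A coefficient from the components. -/
theorem ge_of_cmp (ht : PBasis p F t) {f : Polynomial Ω} (hf : f ∈ PI F) {d : ℝ} {j l : ℕ}
    (h : ∀ α, v.Ge d ((cmp p F t f α j).coeff l ^ p * mon t α)) :
    v.Ge d (f.coeff (p * l + j)) := by
  rw [pc_eq ht (hf (p * l + j)), pcomb]
  refine RVal.Ge.sum _ _ fun α _ => ?_
  have := h α
  rwa [coeff_cmp ht] at this

end Comp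

/-! ### multiplication by a monic polynomial -/

section Monic

variable {c c' L : ℝ} {W U : Polynomial Ω}

/-- Division by a monic polynomial. -/
theorem ge_of_mul_monic (hW : W.Monic) (hWc : ∀ i : ℕ, v.Ge ((W.natDegree - i) * c) (W.coeff i))
    (h : ∀ l : ℕ, v.Ge (L - l * c) ((W * U).coeff l)) (l : ℕ) :
    v.Ge (L - W.natDegree * c - l * c) (U.coeff l) := by
  classical
  set D := W.natDegree with hD
  have key : ∀ N : ℕ, ∀ l, U.natDegree < l + N → v.Ge (L - D * c - l * c) (U.coeff l) := by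
    intro N
    induction N with
    | zero =>
      intro l hl
      rw [coeff_eq_zero_of_natDegree_lt (by omega)]
      exact RVal.Ge.zero
    | succ N ih =>
      intro l hl
      have h1 : (W * U).coeff (D + l) = U.coeff l +
          ∑ x ∈ (Finset.HasAntidiagonal.antidiagonal (D + l)).erase (D, l), W.coeff x.1 * U.coeff x.2 := by
        have hm : (D, l) ∈ Finset.HasAntidiagonal.antidiagonal (D + l) := by simp
        rw [coeff_mul, ← Finset.add_sum_erase _ _ hm]
        have h2 : W.coeff D = 1 := hW.coeff_natDegree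
        rw [h2, one_mul]
      have h2 : U.coeff l = (W * U).coeff (D + l) -
          ∑ x ∈ (Finset.HasAntidiagonal.antidiagonal (D + l)).erase (D, l), W.coeff x.1 * U.coeff x.2 := by
        rw [h1]
        ring
      rw [h2]
      refine RVal.Ge.sub ((h (D + l)).mono ?_) (RVal.Ge.sum _ _ fun x hx => ?_)
      · push_cast
        linarith
      · obtain ⟨hx1, hx2⟩ := Finset.mem_erase.1 hx
        have hx3 : x.1 + x.2 = D + l := by simpa using hx2
        rcases lt_trichotomy x.1 D with h3 | h3 | h3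
        · have h4 : U.natDegree < x.2 + N := by omega
          refine (RVal.Ge.mul (hWc x.1) (ih x.2 h4)).mono ?_
          have h5 : ((x.1 : ℕ) : ℝ) + x.2 = D + l := by exact_mod_cast hx3
          have h6 : (x.2 : ℝ) = D + l - x.1 := by linarith
          rw [h6]
          linarith
        · exfalso
          apply hx1
          refine Prod.ext h3 ?_
          change x.2 = l
          omega
        · rw [coeff_eq_zero_of_natDegree_lt h3, zero_mul]
          exact RVal.Ge.zero
  exact key (U.natDegree + 1) l (by omega)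

/-- The coefficients of index `< deg W` of `W U`, if the roots of `W` are nearer than `c' > c`. -/
theorem ge_mul_low (hcc : c ≤ c') (hWc : ∀ i : ℕ, v.Ge ((W.natDegree - i) * c') (W.coeff i))
    (hU : ∀ l : ℕ, v.Ge (L - l * c) (U.coeff l)) {l : ℕ} (hl : l < W.natDegree) :
    v.Ge (L + W.natDegree * c - l * c + (c' - c)) ((W * U).coeff l) := by
  rw [coeff_mul]
  refine RVal.Ge.sum _ _ fun x hx => ?_
  have hx3 : x.1 + x.2 = l := by simpa using hx
  refine (RVal.Ge.mul (hWc x.1) (hU x.2)).mono ?_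
  have h5 : ((x.1 : ℕ) : ℝ) + x.2 = l := by exact_mod_cast hx3
  have h6 : (x.2 : ℝ) = l - x.1 := by linarith
  have h7 : (x.1 : ℝ) + 1 ≤ W.natDegree := by
    have : x.1 + 1 ≤ W.natDegree := by omega
    exact_mod_cast this
  rw [h6]
  nlinarith

end Monic

/-! ### the core of the jump theorem -/

/-- A polynomial over `F` with first slope index `S` modulo `p`-th powers at the radius `c`, divided
by the powers of a monic `Q` whose roots are nearer than `c' > c`: for every `g`, the part of index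
`< p (S / (p m) + 1)` of the `Q`-expansion of `A - g^p` has Gauss value `≤ κ + e + ε` at `c`. -/
theorem slope_core {p : ℕ} [hp : Fact p.Prime] [CharP Ω p] {F : IntermediateField k Ω} {n : ℕ}
    {t : Fin n → Ω} (ht : PBasis p F t) {ε : ℝ} (ho : Orth p v F t ε) {z : Ω} {c κ : ℝ} {S : ℕ}
    {A : Polynomial Ω} (h : SL p v F z c κ S A) {Q : Polynomial Ω} (hQ : Q ∈ PI F) (hm : Q.Monic)
    (hd : 0 < Q.natDegree) {c' : ℝ} (hcc : c < c')
    (hQc : ∀ j < Q.natDegree, v.Ge ((Q.natDegree - j) * c') (Q.coeff j)) {e e₁ : ℝ} (he0 : 0 < e)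
    (he1 : 0 < e₁) (he : e + ε + e₁ ≤ p * (c' - c)) {g Φ'' Φ' : Polynomial Ω} (hg : g ∈ PI F)
    (hΦ'' : Φ'' ∈ PI F) (hΦ' : Φ' ∈ PI F)
    (heq : A - g ^ p = Φ'' + Q ^ (p * (S / (p * Q.natDegree) + 1)) * Φ') :
    ∃ n : ℕ, ¬ v.Ge (κ + e + ε - n * c) (Φ''.coeff n) := by
  classical
  by_contra hcon
  push Not at hcon
  have hp0 := hp.out.pos
  have hpR : (0 : ℝ) < p := by exact_mod_cast hp0
  set m := Q.natDegree with hmdef
  set D' := S / (p * m) + 1 with hD'
  set W := Q ^ D' with hW
  have hWPI : W ∈ PI F := pow_mem hQ _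
  have hWm : W.Monic := hm.pow _
  have hWd : W.natDegree = D' * m := by rw [hW, hm.natDegree_pow]
  have hWpow : Q ^ (p * D') = W ^ p := by rw [hW, ← pow_mul, mul_comm]
  -- the coefficients of `W`
  have hWc : ∀ i : ℕ, v.Ge ((W.natDegree - i) * c') (W.coeff i) := by
    have h1 : GB v c' (m * c') Q := by
      intro i
      rcases lt_trichotomy i m with h2 | h2 | h2
      · refine (hQc i h2).mono (le_of_eq ?_)
        ring
      · subst h2
        rw [hm.coeff_natDegree]
        intro _
        rw [v.map_one]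
        simp
      · rw [coeff_eq_zero_of_natDegree_lt h2]
        exact RVal.Ge.zero
    have h2 := GB.pow h1 D'
    intro i
    refine (h2 i).mono (le_of_eq ?_)
    rw [hWd]
    push_cast
    ring
  have hWc' : ∀ i : ℕ, v.Ge ((W.natDegree - i) * c) (W.coeff i) := by
    intro i
    by_cases hi : i ≤ W.natDegree
    · refine (hWc i).mono ?_
      have : (i : ℝ) ≤ W.natDegree := by exact_mod_cast hi
      nlinarith
    · rw [coeff_eq_zero_of_natDegree_lt (not_le.1 hi)]
      exact RVal.Ge.zero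
  -- the best `p`-th power
  set g₀ := cmp p F t A (ix0 p n) 0 with hg₀
  have hg₀m : g₀ ∈ PI F := cmp_mem ht _ _ _
  have hAm := h.mem
  obtain ⟨N, hNS, hN⟩ := h.hi e he0 g₀ hg₀m
  obtain ⟨g₁, hg₁m, hg₁⟩ := h.lo e₁ he1
  apply hN
  -- `N = p l + j`
  set l := N / p with hl
  set j := N % p with hj
  have hjp : j < p := Nat.mod_lt _ hp0
  have hNe : N = p * l + j := (Nat.div_add_mod N p).symm
  have hlD : l < W.natDegree := by
    rw [hWd]
    have h1 : l ≤ S / p := Nat.div_le_div_right hNS
    have h2 : S / p < D' * m := by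
      rw [hD', ← Nat.div_div_eq_div_mul, mul_comm]
      exact Nat.lt_mul_div_succ (S / p) hd
    omega
  rw [hNe]
  refine ge_of_cmp ht (sub_mem hAm (pow_mem hg₀m p)) fun α => ?_
  rw [cmp_sub ht hAm (pow_mem hg₀m p), cmp_pow ht hg₀m α hjp]
  by_cases h0 : α = ix0 p n ∧ j = 0
  · rw [if_pos h0]
    have h1 : cmp p F t A α j - g₀ = 0 := by
      rw [h0.1, h0.2, hg₀, sub_self]
    rw [h1, coeff_zero, zero_pow hp.out.ne_zero, zero_mul]
    exact RVal.Ge.zero
  rw [if_neg h0, sub_zero]
  -- the component of `A` is the one of `Φ'' + W^p Φ'`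
  have hA1 : cmp p F t A α j = cmp p F t Φ'' α j + W * cmp p F t Φ' α j := by
    have h1 : cmp p F t (A - g ^ p) α j = cmp p F t A α j := by
      rw [cmp_sub ht hAm (pow_mem hg p), cmp_pow ht hg α hjp, if_neg h0, sub_zero]
    rw [← h1, heq, hWpow, cmp_add ht hΦ'' (mul_mem (pow_mem hWPI p) hΦ'), cmp_mul ht hWPI hΦ' α hjp]
  have hA2 : ∀ i : ℕ, v.Ge (κ - e₁ - ε - ((p * i + j : ℕ) : ℝ) * c)
      ((cmp p F t A α j).coeff i ^ p * mon t α) := by
    intro i
    have h1 : cmp p F t (A - g₁ ^ p) α j = cmp p F t A α j := by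
      rw [cmp_sub ht hAm (pow_mem hg₁m p), cmp_pow ht hg₁m α hjp, if_neg h0, sub_zero]
    have h2 := cmp_ge ht ho (sub_mem hAm (pow_mem hg₁m p)) hg₁ α j i
    rwa [h1] at h2
  have hΦ2 : ∀ i : ℕ, v.Ge (κ + e - ((p * i + j : ℕ) : ℝ) * c)
      ((cmp p F t Φ'' α j).coeff i ^ p * mon t α) := by
    intro i
    refine (cmp_ge ht ho hΦ'' hcon α j i).mono (le_of_eq ?_)
    ring
  have hε : 0 ≤ ε := by
    have h1 : pcomb t (fun β => if β = ix0 p n then (1 : Ω) else 0) = 1 := by
      rw [pcomb, Finset.sum_eq_single (ix0 p n)]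
      · rw [if_pos rfl, mon_ix0, one_pow, mul_one]
      · intro β _ hβ
        rw [if_neg hβ, zero_pow hp.out.ne_zero, zero_mul]
      · intro h2
        exact absurd (Finset.mem_univ _) h2
    have h2 := ho (fun β => if β = ix0 p n then (1 : Ω) else 0) (fun β => by
      split_ifs
      exacts [one_mem F, zero_mem F]) (by rw [h1]; exact one_ne_zero) (ix0 p n)
    simp only [if_true, one_pow, one_mul, mon_ix0] at h2
    rw [h1] at h2
    have h3 := h2 one_ne_zero
    linarith
  set U := cmp p F t Φ' α j with hU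
  have hmon : mon t α ≠ 0 := ht.mon_ne_zero α
  set μ := v (mon t α) with hμ
  set L := (κ - e₁ - ε - μ - j * c) / p with hL
  have hpL : p * L = κ - e₁ - ε - μ - j * c := by
    rw [hL]
    field_simp
  -- the coefficients of `W U`
  have hWU : ∀ i : ℕ, v.Ge (L - i * c) ((W * U).coeff i) := by
    intro i
    have h1 : (W * U).coeff i = (cmp p F t A α j).coeff i - (cmp p F t Φ'' α j).coeff i := by
      rw [hA1, coeff_add]
      ring
    have h3 : v.Ge (κ - e₁ - ε - ((p * i + j : ℕ) : ℝ) * c) ((W * U).coeff i ^ p * mon t α) := by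
      rw [h1, sub_pow_char, sub_mul]
      exact RVal.Ge.sub (hA2 i) ((hΦ2 i).mono (by linarith))
    intro h0'
    have h4 := h3 (mul_ne_zero (pow_ne_zero p h0') hmon)
    rw [v.map_mul (pow_ne_zero p h0') hmon, v.map_pow h0'] at h4
    push_cast at h4
    have h5 : p * (L - i * c) ≤ p * v ((W * U).coeff i) := by
      rw [mul_sub, hpL]
      linarith
    exact le_of_mul_le_mul_left h5 hpR
  have hUc : ∀ i : ℕ, v.Ge (L - W.natDegree * c - i * c) (U.coeff i) :=
    ge_of_mul_monic hWm hWc' hWU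
  have hlow := ge_mul_low hcc.le hWc hUc hlD
  -- the coefficient of index `l` of the component of `A`
  rw [hA1, coeff_add, add_pow_char, add_mul]
  refine RVal.Ge.add (hΦ2 l) ?_
  intro h1
  have h2 : (W * U).coeff l ≠ 0 := by
    intro h3
    apply h1
    rw [h3, zero_pow hp.out.ne_zero, zero_mul]
  rw [v.map_mul (pow_ne_zero p h2) hmon, v.map_pow h2]
  have h3 := hlow h2
  have h4 : p * (L - l * c + (c' - c)) ≤ p * v ((W * U).coeff l) := by
    refine mul_le_mul_of_nonneg_left ?_ hpR.le
    linarith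
  rw [mul_add, mul_sub, hpL] at h4
  push_cast
  linarith

end Pool.Agent.TWJ
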