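import Pool.Agent.Lib.TW.E5
import Pool.Agent.Lib.TW.E3
import Pool.Agent.Lib.TW_NFG.JC

/-!
# TANK W, SEC1: regular functions and polynomials

* `exists_poly`: a regular function near `η` is a polynomial over `F`, up to a function of large
  Gauss value;
* `GN.centre`: change of the centre; `GN.radius`: change of the radius;
* `slope_core'`: the core of the jump theorem for `F[X]`;
* `jump_bound`: the bound at a radius `b > ρ` around `η`.
-/

set_option autoImplicit false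

open Polynomial

namespace Pool.Agent.TWJ

open Pool.Agent.H15JM (RVal)
open Pool.Agent.LU1 (adj)
open Pool.Agent.D2 (Ctx0)
open Pool.Agent.TW
open Pool.Agent.TWM (PI GB SL)

universe u

variable {k Ω : Type u} [Field k] [Field Ω] [Algebra k Ω] {v : RVal Ω}
  {F : IntermediateField k Ω} {z η : Ω} {ρ b₁ b : ℝ}

/-! ### approximation of regular functions by polynomials -/

theorem GN.of_eps {c : ℝ} {A : F[X]} (h : ∀ ε : ℝ, 0 < ε → GN v F η b (c - ε) A) :
    GN v F η b c A := fun j => Pool.Agent.TWM.ge_of_eps fun ε hε => (h ε hε j).mono (by linarith)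

theorem GN.pow {c : ℝ} {A : F[X]} (h : GN v F η b c A) (n : ℕ) : GN v F η b (n * c) (A ^ n) := by
  induction n with
  | zero =>
    rw [pow_zero, Nat.cast_zero, zero_mul]
    exact TW.GN.one
  | succ n ih =>
    rw [pow_succ]
    refine TW.GN.mono (le_of_eq ?_) (TW.GN.mul ih h)
    push_cast
    ring

theorem GN.zero {c : ℝ} : GN v F η b c (0 : F[X]) := fun j => by
  have h1 : tc F η (0 : F[X]) j = 0 := by simp [tc]
  rw [h1]
  exact RVal.Ge.zero

theorem GN.neg {c : ℝ} {A : F[X]} (h : GN v F η b c A) : GN v F η b c (-A) := fun j => by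
  have h1 : tc F η (-A) j = -tc F η A j := by simp [tc]
  rw [h1]
  exact (h j).neg

theorem GN.sub {c : ℝ} {A B : F[X]} (hA : GN v F η b c A) (hB : GN v F η b c B) :
    GN v F η b c (A - B) := by
  rw [sub_eq_add_neg]
  exact TW.GN.add hA (GN.neg hB)

theorem GN.sum {ι : Type*} {c : ℝ} (s : Finset ι) (f : ι → F[X])
    (h : ∀ i ∈ s, GN v F η b c (f i)) : GN v F η b c (∑ i ∈ s, f i) := fun j => by
  rw [tc_sum]
  exact RVal.Ge.sum _ _ fun i hi => h i hi j

/-- The inverse of a polynomial without zeros near `η`, up to a function of positive Gauss value. -/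
theorem exists_inv (hint : IsIntegral F η)
    (htb : ∀ P : F[X], P ≠ 0 → P.natDegree < (minpoly F η).natDegree → RB v F η ρ P)
    (hρ : ρ ≤ b₁) (hb : b₁ < b) {B : F[X]} (hB : RB v F η b₁ B) :
    ∃ C : F[X], GN v F η b (-v (aeval η B)) C ∧ GN v F η b (b - b₁) (1 - B * C) := by
  have hmon := minpoly.monic hint
  have hdeg := minpoly.natDegree_pos hint
  have hco : IsCoprime B (minpoly F η) := by
    rw [isCoprime_comm]
    refine (minpoly.irreducible hint).isCoprime_or_dvd B |>.resolve_right fun h => hB.1 ?_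
    obtain ⟨D, rfl⟩ := h
    rw [_root_.map_mul, minpoly.aeval, zero_mul]
  obtain ⟨C₀, C₁, h1⟩ := hco
  set C := C₀ %ₘ minpoly F η with hC
  have hCdeg : C.natDegree < (minpoly F η).natDegree := natDegree_modByMonic_lt _ hmon (by
    intro h2
    rw [h2, natDegree_one] at hdeg
    exact lt_irrefl _ hdeg)
  have hCη : aeval η C * aeval η B = 1 := by
    have h2 : aeval η C = aeval η C₀ := by
      rw [hC]
      exact aeval_modByMonic_eq_self_of_root (minpoly.aeval F η)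
    have h3 := congrArg (aeval η) h1
    rw [_root_.map_add, _root_.map_mul, _root_.map_mul, minpoly.aeval, mul_zero, add_zero,
      _root_.map_one] at h3
    rw [h2, h3]
  have hCη0 : aeval η C ≠ 0 := left_ne_zero_of_mul_eq_one hCη
  have hC0 : C ≠ 0 := by
    rintro h2
    rw [h2, _root_.map_zero] at hCη0
    exact hCη0 rfl
  have hCv : v (aeval η C) = -v (aeval η B) := by
    have h2 := v.map_mul hCη0 hB.1
    rw [hCη, v.map_one] at h2
    linarith
  have hCr := htb C hC0 hCdeg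
  have hCr' : RB v F η b₁ C := ⟨hCr.1, fun j => (hCr.2 j).mono (by
    have : (j : ℝ) * ρ ≤ j * b₁ := mul_le_mul_of_nonneg_left hρ (Nat.cast_nonneg j)
    linarith)⟩
  refine ⟨C, ?_, ?_⟩
  · rw [← hCv]
    exact hCr'.gn hb.le
  · have hBC := (hB.mul hCr').2
    have h2 : aeval η (B * C) = 1 := by rw [_root_.map_mul, mul_comm, hCη]
    rw [h2, v.map_one] at hBC
    intro j
    rw [tc_sub, tc_one]
    rcases Nat.eq_zero_or_pos j with rfl | hj
    · rw [if_pos rfl, tc_zero, h2, sub_self]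
      exact RVal.Ge.zero
    · rw [if_neg hj.ne', zero_sub]
      refine ((hBC j).neg).mono ?_
      have hj' : (1 : ℝ) ≤ j := by exact_mod_cast hj
      nlinarith

/-- A regular function near `η` is a polynomial, up to a function of large Gauss value. -/
theorem exists_poly (hint : IsIntegral F η)
    (htb : ∀ P : F[X], P ≠ 0 → P.natDegree < (minpoly F η).natDegree → RB v F η ρ P)
    (hρ : ρ ≤ b₁) (hb : b₁ < b) {c : ℝ} {f : Ω} (hf : Reg v F z η b₁ b c f) (N : ℝ) :
    ∃ P : F[X], GN v F η b c P ∧ Reg v F z η b₁ b N (f - aeval z P) := by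
  obtain ⟨A, B, hB, hA, hBz, rfl⟩ := hf
  obtain ⟨C, hC, hu⟩ := exists_inv hint htb hρ hb hB
  have hδ : 0 < b - b₁ := sub_pos.2 hb
  obtain ⟨n, hn⟩ := exists_nat_gt ((N - c) / (b - b₁))
  have hn' : N ≤ c + n * (b - b₁) := by
    rw [div_lt_iff₀ hδ] at hn
    linarith
  set u := 1 - B * C with hu'
  have hpow : ∀ i : ℕ, GN v F η b 0 (u ^ i) := fun i => TW.GN.mono (by positivity) (GN.pow hu i)
  refine ⟨A * C * ∑ i ∈ Finset.range n, u ^ i, ?_, A * u ^ n, B, hB, ?_, hBz, ?_⟩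
  · refine TW.GN.mono (le_of_eq ?_) (TW.GN.mul (TW.GN.mul hA hC) (GN.sum _ _ fun i _ => hpow i))
    ring
  · refine TW.GN.mono ?_ (TW.GN.mul hA (GN.pow hu n))
    linarith
  · have h1 : (1 - u) * ∑ i ∈ Finset.range n, u ^ i = 1 - u ^ n := by
      have := mul_neg_geom_sum u n
      exact this
    have h2 : B * C = 1 - u := by rw [hu']; ring
    have h3 : aeval z A - aeval z B * aeval z (A * C * ∑ i ∈ Finset.range n, u ^ i) =
        aeval z (A * u ^ n) := by
      rw [← _root_.map_mul, ← _root_.map_sub]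
      congr 1
      calc A - B * (A * C * ∑ i ∈ Finset.range n, u ^ i)
          = A - A * ((B * C) * ∑ i ∈ Finset.range n, u ^ i) := by ring
        _ = A * u ^ n := by rw [h2, h1]; ring
    rw [eq_div_iff hBz, sub_mul, div_mul_cancel₀ _ hBz, mul_comm (aeval z _) (aeval z B), h3]

/-! ### centres and radii -/

theorem GN.centre {c L : ℝ} {θ : Ω} (hθ : v.Ge c (θ - η)) {P : F[X]} (h : GN v F η c L P) :
    GN v F θ c L P := by
  have h1 : GB v c L (taylor η (P.map (algebraMap F Ω))) := fun j => h j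
  exact fun j => Pool.Agent.TWM.GB.centre hθ h1 j

theorem GN.radius {c L : ℝ} {D : ℕ} (hc : c ≤ ρ) {P : F[X]} (hD : P.natDegree ≤ D)
    (h : GN v F η ρ L P) : GN v F η c (L - D * (ρ - c)) P := by
  intro j
  by_cases hj : j ≤ P.natDegree
  · refine (h j).mono ?_
    have h1 : (j : ℝ) ≤ D := by exact_mod_cast hj.trans hD
    nlinarith
  · rw [tc_eq_zero (not_le.1 hj)]
    exact RVal.Ge.zero

/-! ### the core for `F[X]` -/

theorem exists_lift {g : Polynomial Ω} (hg : g ∈ PI F) :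
    ∃ G : F[X], G.map (algebraMap F Ω) = g := by
  have h1 : g ∈ lifts (algebraMap F Ω) := by
    rw [lifts_iff_coeff_lifts]
    exact fun n => ⟨⟨_, hg n⟩, rfl⟩
  exact (mem_lifts _).1 h1

theorem map_mem_PI (P : F[X]) : P.map (algebraMap F Ω) ∈ PI F := fun n => by
  rw [coeff_map]
  exact (P.coeff n).2

theorem taylor_mem_PI {g : Polynomial Ω} (hg : g ∈ PI F) {θ : Ω} (hθ : θ ∈ F) :
    taylor θ g ∈ PI F := by
  obtain ⟨G, rfl⟩ := exists_lift hg
  have h1 : taylor θ (G.map (algebraMap F Ω)) =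
      (taylor (⟨θ, hθ⟩ : F) G).map (algebraMap F Ω) := by
    rw [taylor_apply, taylor_apply, Polynomial.map_comp, Polynomial.map_add, map_X, map_C]
    rfl
  rw [h1]
  exact map_mem_PI _

/-- The core of the jump theorem, around a centre in `F`. -/
theorem slope_core' {p : ℕ} [hp : Fact p.Prime] [CharP Ω p] {n : ℕ} {t : Fin n → Ω}
    (ht : PBasis p F t) {ε : ℝ} (ho : Orth p v F t ε) {θ : Ω} (hθ : θ ∈ F) {A : F[X]} {z₀ : Ω}
    {c κ : ℝ} {S : ℕ} (h : SL p v F z₀ c κ S (taylor θ (A.map (algebraMap F Ω)))) {Q : F[X]}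
    (hm : Q.Monic) (hd : 0 < Q.natDegree) {c' : ℝ} (hcc : c < c')
    (hQc : ∀ j < Q.natDegree, v.Ge ((Q.natDegree - j) * c') (tc F θ Q j)) {e e₁ : ℝ}
    (he0 : 0 < e) (he1 : 0 < e₁) (he : e + ε + e₁ ≤ p * (c' - c)) {g Φ'' Φ' : F[X]}
    (heq : A - g ^ p = Φ'' + Q ^ (p * (S / (p * Q.natDegree) + 1)) * Φ') :
    ¬ GN v F θ c (κ + e + ε) Φ'' := by
  intro hG
  have hT : ∀ P : F[X], taylor θ (P.map (algebraMap F Ω)) ∈ PI F := fun P =>
    taylor_mem_PI (map_mem_PI P) hθ
  have hQd : (taylor θ (Q.map (algebraMap F Ω))).natDegree = Q.natDegree := by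
    rw [natDegree_taylor, natDegree_map]
  have hQm : (taylor θ (Q.map (algebraMap F Ω))).Monic := by
    rw [Monic, leadingCoeff, hQd]
    have h1 := (hm.map (algebraMap F Ω))
    have h2 : (taylor θ (Q.map (algebraMap F Ω))).leadingCoeff = 1 := by
      rw [taylor_apply, leadingCoeff_comp (by rw [natDegree_X_add_C]; exact one_ne_zero),
        leadingCoeff_X_add_C, one_pow, mul_one]
      exact h1
    rw [leadingCoeff, hQd] at h2
    exact h2
  have heq' : taylor θ (A.map (algebraMap F Ω)) - taylor θ (g.map (algebraMap F Ω)) ^ p =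
      taylor θ (Φ''.map (algebraMap F Ω)) + taylor θ (Q.map (algebraMap F Ω)) ^
        (p * (S / (p * (taylor θ (Q.map (algebraMap F Ω))).natDegree) + 1)) *
          taylor θ (Φ'.map (algebraMap F Ω)) := by
    rw [hQd, ← taylor_pow, ← taylor_pow, ← taylor_mul, ← _root_.map_add, ← _root_.map_sub,
      ← Polynomial.map_pow, ← Polynomial.map_sub, ← Polynomial.map_pow, ← Polynomial.map_mul,
      ← Polynomial.map_add, heq]
  obtain ⟨N, hN⟩ := slope_core ht ho h (hT Q) hQm (by rw [hQd]; exact hd) hcc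
    (fun j hj => by
      rw [hQd] at hj ⊢
      exact hQc j hj) he0 he1 he (hT g) (hT Φ'') (hT Φ') heq'
  exact hN (hG N)

/-- The `Q`-expansion is orthogonal for the Gauss norm at a radius `b > ρ`. -/
theorem key_poly' {cQ : ℝ} (hρb : ρ < b)
    (htb : ∀ P : F[X], P ≠ 0 → P.natDegree < (minpoly F η).natDegree → RB v F η ρ P)
    (hQ : IsGV v F η b cQ (minpoly F η)) {m : ℕ}
    (a : Fin m → F[X]) (ha : ∀ i, (a i).natDegree < (minpoly F η).natDegree) {c : ℝ}
    (hA : GN v F η b c (∑ i, a i * minpoly F η ^ (i : ℕ))) (i : Fin m) (hi : a i ≠ 0) :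
    c ≤ v (aeval η (a i)) + i * cQ := by
  classical
  by_contra hcon
  push Not at hcon
  obtain ⟨J, hJ, hGT⟩ := hQ.gt
  let S := Finset.univ.filter fun i => a i ≠ 0
  let f : Fin m → ℝ := fun i => v (aeval η (a i)) + i * cQ
  have hmemS : ∀ i, a i ≠ 0 → i ∈ S := fun i hi => Finset.mem_filter.mpr ⟨Finset.mem_univ i, hi⟩
  obtain ⟨i₁, hi₁, hmin⟩ := S.exists_min_image f ⟨i, hmemS i hi⟩
  let T := S.filter fun i => f i = f i₁
  obtain ⟨i₀, hi₀, hmax⟩ := T.exists_max_image (fun i => i) ⟨i₁, Finset.mem_filter.mpr ⟨hi₁, rfl⟩⟩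
  have hi₀' := Finset.mem_filter.mp hi₀
  have hi₀a : a i₀ ≠ 0 := (Finset.mem_filter.mp hi₀'.1).2
  have hc₀ : f i₀ < c := by
    rw [hi₀'.2]
    exact (hmin i (hmemS i hi)).trans_lt hcon
  have hterm : ∀ i, a i ≠ 0 → GT v F η b (f i) (i * J) (a i * minpoly F η ^ (i : ℕ)) := by
    intro i hi
    have h1 := (GT.of_RB hρb (htb (a i) hi (ha i))).mul (hGT.pow (i : ℕ))
    rw [zero_add] at h1
    exact h1
  have hco : tc F η (∑ i, a i * minpoly F η ^ (i : ℕ)) (i₀ * J) ≠ 0 ∧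
      v (tc F η (∑ i, a i * minpoly F η ^ (i : ℕ)) (i₀ * J)) =
        f i₀ - ((i₀ * J : ℕ) : ℝ) * b := by
    rw [tc_sum, ← Finset.add_sum_erase _ _ (Finset.mem_univ i₀)]
    refine Sg.add_eq (hterm i₀ hi₀a).ne (hterm i₀ hi₀a).eq (Sg.sum _ _ fun i hi => ?_)
    have hne : i ≠ i₀ := (Finset.mem_erase.mp hi).1
    by_cases hai : a i = 0
    · rw [hai, zero_mul]
      have : tc F η (0 : F[X]) (i₀ * J) = 0 := by simp [tc]
      rw [this]
      exact Sg.zero
    have hle : f i₀ ≤ f i := by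
      rw [hi₀'.2]
      exact hmin i (hmemS i hai)
    rcases hle.lt_or_eq with hlt | heq
    · exact Sg.of_ge (by linarith) ((hterm i hai).ge (i₀ * J))
    · have hiT : i ∈ T := Finset.mem_filter.mpr ⟨hmemS i hai, by rw [← heq, hi₀'.2]⟩
      have hlt : i < i₀ := lt_of_le_of_ne (hmax i hiT) hne
      have hlt' : (i : ℕ) * J < i₀ * J := Nat.mul_lt_mul_of_pos_right hlt hJ
      rw [heq]
      exact (hterm i hai).gt _ hlt'
  have h1 := hA (i₀ * J) hco.1
  rw [hco.2] at h1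
  linarith

/-- The bound at a radius `b > ρ` around `η`. -/
theorem jump_bound [IsAlgClosed Ω] {p : ℕ} [hp : Fact p.Prime] [CharP Ω p] {n : ℕ}
    {t : Fin n → Ω} (ht : PBasis p F t) {ε : ℝ} (ho : Orth p v F t ε) {θ : Ω} (hθ : θ ∈ F)
    {A : F[X]} {z₀ : Ω} {c κ : ℝ} {S : ℕ}
    (h : SL p v F z₀ c κ S (taylor θ (A.map (algebraMap F Ω)))) (hint : IsIntegral F η)
    (hρb : ρ < b)
    (htb : ∀ P : F[X], P ≠ 0 → P.natDegree < (minpoly F η).natDegree → RB v F η ρ P)
    {c' : ℝ} (hcc : c < c')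
    (hQc : ∀ j < (minpoly F η).natDegree, v.Ge (((minpoly F η).natDegree - j) * c')
      (tc F θ (minpoly F η) j)) (hcρ : c ≤ ρ) (hθη : v.Ge c (θ - η))
    (hQρ : GN v F η ρ ((minpoly F η).natDegree * ρ) (minpoly F η)) {γ : ℝ}
    (hQ : IsGV v F η b γ (minpoly F η)) (hγ : (minpoly F η).natDegree * ρ ≤ γ) {e e₁ : ℝ}
    (he0 : 0 < e) (he1 : 0 < e₁) (he : e + ε + e₁ ≤ p * (c' - c)) {S₁ : ℕ}
    (hS₁ : S₁ + 1 = p * (S / (p * (minpoly F η).natDegree) + 1)) {L : ℝ}
    (hL : κ + e + ε + S₁ * (γ - (minpoly F η).natDegree * ρ) +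
      ((S₁ + 1) * (minpoly F η).natDegree : ℕ) * (ρ - c) ≤ L) {g G H : F[X]}
    (heq : A - g ^ p = G + minpoly F η ^ (S₁ + 1) * H) : ¬ GN v F η b L G := by
  classical
  intro hG
  set Q := minpoly F η with hQdef
  set m := Q.natDegree with hmdef
  have hmon : Q.Monic := minpoly.monic hint
  have hdeg : 0 < m := minpoly.natDegree_pos hint
  obtain ⟨M, a, ha, hGa⟩ := exists_expansion F hmon hdeg G
  -- the two parts
  set Φ'' := ∑ i ∈ (Finset.univ : Finset (Fin M)).filter (fun i : Fin M => (i : ℕ) ≤ S₁),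
    a i * Q ^ (i : ℕ) with hΦ''
  set Φ₁ := ∑ i ∈ (Finset.univ : Finset (Fin M)).filter (fun i : Fin M => ¬ (i : ℕ) ≤ S₁),
    a i * Q ^ ((i : ℕ) - (S₁ + 1)) with hΦ₁
  have hsplit : G = Φ'' + Q ^ (S₁ + 1) * Φ₁ := by
    rw [hGa, ← Finset.sum_filter_add_sum_filter_not _ (fun i : Fin M => (i : ℕ) ≤ S₁), hΦ'', hΦ₁,
      Finset.mul_sum]
    congr 1
    refine Finset.sum_congr rfl fun i hi => ?_
    have h1 : ¬ (i : ℕ) ≤ S₁ := (Finset.mem_filter.1 hi).2
    have h2 : (i : ℕ) = S₁ + 1 + ((i : ℕ) - (S₁ + 1)) := by omega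
    conv_lhs => rw [h2, pow_add]
    ring
  have heq' : A - g ^ p = Φ'' + Q ^ (p * (S / (p * m) + 1)) * (Φ₁ + H) := by
    rw [← hS₁, heq, hsplit]
    ring
  refine slope_core' ht ho hθ h hmon hdeg hcc hQc he0 he1 he heq' ?_
  -- the bound for `Φ''`
  refine GN.sum _ _ fun i hi => ?_
  have hiS : (i : ℕ) ≤ S₁ := (Finset.mem_filter.1 hi).2
  by_cases hai : a i = 0
  · rw [hai, zero_mul]
    exact GN.zero
  have h1 : L ≤ v (aeval η (a i)) + i * γ := by
    refine key_poly' hρb htb hQ a ha ?_ i hai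
    rw [← hGa]
    exact hG
  have h2 : GN v F η ρ (v (aeval η (a i))) (a i) := (htb (a i) hai (ha i)).gn le_rfl
  have h3 : GN v F η ρ (v (aeval η (a i)) + (i : ℕ) * (m * ρ)) (a i * Q ^ (i : ℕ)) :=
    TW.GN.mul h2 (GN.pow hQρ i)
  have hd1 : (a i * Q ^ (i : ℕ)).natDegree ≤ (S₁ + 1) * m := by
    refine natDegree_mul_le.trans ?_
    rw [hmon.natDegree_pow, ← hmdef]
    have h4 : (i : ℕ) * m ≤ S₁ * m := Nat.mul_le_mul_right m hiS
    have h5 : (a i).natDegree < m := ha i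
    rw [add_mul, one_mul]
    omega
  have h4 := GN.radius hcρ hd1 h3
  refine GN.centre hθη (TW.GN.mono ?_ h4)
  have h5 : (i : ℝ) * (γ - m * ρ) ≤ S₁ * (γ - m * ρ) :=
    mul_le_mul_of_nonneg_right (by exact_mod_cast hiS) (by linarith)
  nlinarith

end Pool.Agent.TWJ
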