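import Pool.Agent.Lib.TW_NFG.J2

/-!
# TANK W, SEC1: transfer to the field of the star data

`d : SD`, `E = d.S'.K`, `X = Q(z)/q`.

* `exists_rep`: a regular function is a polynomial in `X` over `E`, up to a function of large Gauss
  value;
* `transfer`: a bound modulo `p`-th powers for polynomials over `F` gives the bound for polynomials
  over `E`.
-/

set_option autoImplicit false

open Polynomial

namespace Pool.Agent.TWJ

open Pool.Agent.H15JM (RVal)
open Pool.Agent.LU1 (adj)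
open Pool.Agent.TW
open Pool.Agent.TWM (PI GB SL)

universe u

variable {k Ω : Type u} [Field k] [Field Ω] [Algebra k Ω] {v : RVal Ω}
  {F : IntermediateField k Ω} {z η : Ω} {ρ b₁ b : ℝ}

/-- Division by a polynomial without zeros near `η`. -/
theorem GN.of_mul_RB {L : ℝ} (hb : b₁ ≤ b) {T B : F[X]} (hB : RB v F η b₁ B)
    (h : GN v F η b (L + v (aeval η B)) (T * B)) : GN v F η b L T := by
  intro j
  induction j using Nat.strong_induction_on with
  | _ j ih =>
    have hm : (j, 0) ∈ Finset.HasAntidiagonal.antidiagonal j := by simp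
    have h1 := h j
    rw [tc_mul, ← Finset.add_sum_erase _ _ hm] at h1
    have h2 : v.Ge (L + v (aeval η B) - j * b) (∑ x ∈ (Finset.HasAntidiagonal.antidiagonal j).erase
        (j, 0), tc F η T x.1 * tc F η B x.2) := by
      refine RVal.Ge.sum _ _ fun x hx => ?_
      obtain ⟨hx1, hx2⟩ := Finset.mem_erase.1 hx
      have hx3 : x.1 + x.2 = j := by simpa using hx2
      have hx4 : x.1 < j := by
        rcases Nat.lt_or_ge x.1 j with h3 | h3
        · exact h3
        · exact absurd (Prod.ext (by change x.1 = j; omega) (by change x.2 = 0; omega)) hx1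
      refine (RVal.Ge.mul (ih x.1 hx4) (hB.2 x.2)).mono ?_
      have h5 : ((x.1 : ℕ) : ℝ) + x.2 = j := by exact_mod_cast hx3
      have h6 : (x.1 : ℝ) = j - x.2 := by linarith
      have h7 : (x.2 : ℝ) * b₁ ≤ x.2 * b := mul_le_mul_of_nonneg_left hb (Nat.cast_nonneg _)
      rw [h6]
      linarith
    have h3 : v.Ge (L + v (aeval η B) - j * b) (tc F η T j * tc F η B 0) := by
      have := h1.sub h2
      rwa [add_sub_cancel_right] at this
    intro h0
    have h4 := h3 (mul_ne_zero h0 (by rw [tc_zero]; exact hB.1))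
    rw [tc_zero, v.map_mul h0 hB.1] at h4
    linarith

theorem Reg.radius {c : ℝ} {f : Ω} {b' : ℝ} (hb : b ≤ b') (hf : Reg v F z η b₁ b c f) :
    Reg v F z η b₁ b' c f := by
  obtain ⟨A, B, hB, hA, hBz, hf⟩ := hf
  refine ⟨A, B, hB, fun j => (hA j).mono ?_, hBz, hf⟩
  have : (j : ℝ) * b ≤ j * b' := mul_le_mul_of_nonneg_left hb (Nat.cast_nonneg j)
  linarith

theorem Reg.neg' {c : ℝ} {f : Ω} (hf : Reg v F z η b₁ b c f) : Reg v F z η b₁ b c (-f) := by
  obtain ⟨A, B, hB, hA, hBz, rfl⟩ := hf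
  refine ⟨-A, B, hB, GN.neg hA, hBz, ?_⟩
  rw [_root_.map_neg, neg_div]

theorem Reg.sub' {c : ℝ} (hb : b₁ ≤ b) {f g : Ω} (hf : Reg v F z η b₁ b c f)
    (hg : Reg v F z η b₁ b c g) : Reg v F z η b₁ b c (f - g) := by
  rw [sub_eq_add_neg]
  exact hf.add (Reg.neg' hg) hb

theorem Reg.one' : Reg v F z η b₁ b 0 (1 : Ω) := by
  have h1 := Reg.of_GN (z := z) (b₁ := b₁) (TW.GN.one (v := v) (F := F) (η := η) (b := b))
  rwa [_root_.map_one] at h1

theorem Reg.pow' {c : ℝ} {f : Ω} (hf : Reg v F z η b₁ b c f) (n : ℕ) :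
    Reg v F z η b₁ b (n * c) (f ^ n) := by
  induction n with
  | zero =>
    rw [pow_zero, Nat.cast_zero, zero_mul]
    exact Reg.one'
  | succ n ih =>
    rw [pow_succ]
    refine Reg.mono (le_of_eq ?_) (ih.mul hf)
    push_cast
    ring

/-- A regular function which is a polynomial. -/
theorem GN.of_Reg (hz : Transcendental F z) (hb : b₁ ≤ b) {c : ℝ} {P : F[X]}
    (h : Reg v F z η b₁ b c (aeval z P)) : GN v F η b c P := by
  obtain ⟨A, B, hB, hA, hBz, h1⟩ := h
  rw [eq_div_iff hBz, ← _root_.map_mul] at h1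
  have h2 : P * B = A := by
    have hinj : Function.Injective (aeval z : F[X] →ₐ[F] Ω) :=
      transcendental_iff_injective.1 hz
    exact hinj h1
  refine GN.of_mul_RB hb hB ?_
  rw [h2]
  exact hA

theorem Reg.zero' {c : ℝ} : Reg v F z η b₁ b c (0 : Ω) := by
  have h1 := Reg.of_GN (z := z) (b₁ := b₁) (GN.zero (v := v) (F := F) (η := η) (b := b) (c := c))
  rwa [_root_.map_zero] at h1

theorem Reg.sum' {ι : Type*} (hb : b₁ ≤ b) (s : Finset ι) {c : ℝ} (f : ι → Ω)
    (hf : ∀ i ∈ s, Reg v F z η b₁ b c (f i)) : Reg v F z η b₁ b c (∑ i ∈ s, f i) := by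
  classical
  induction s using Finset.induction_on with
  | empty => simpa using Reg.zero'
  | insert a s ha ih =>
    rw [Finset.sum_insert ha]
    exact (hf a (Finset.mem_insert_self a s)).add
      (ih fun i hi => hf i (Finset.mem_insert_of_mem hi)) hb

section

variable {p : ℕ} {r D : ℕ} {ε : ℝ} [Fact p.Prime] [CharP k p] [CharP Ω p] [IsAlgClosed Ω]
  [IsAlgClosed k]

theorem reg_mem' (h : Ctx k v r) (d : SD p k v r D F z η ρ b₁ b ε) {b' : ℝ} (hb' : b ≤ b') {m : Ω}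
    (hm : m ∈ d.S'.K) (hm0 : m ≠ 0) : Reg v F z η b₁ b' (v m) m :=
  Reg.radius hb' (d.reg_mem h hm hm0)

theorem reg_ge (h : Ctx k v r) (d : SD p k v r D F z η ρ b₁ b ε) {b' : ℝ} (hb' : b ≤ b') {m : Ω}
    (hm : m ∈ d.S'.K) {c : ℝ} (hc : v.Ge c m) : Reg v F z η b₁ b' c m := by
  by_cases hm0 : m = 0
  · rw [hm0]
    exact Reg.zero'
  · exact Reg.mono (hc hm0) (reg_mem' h d hb' hm hm0)

theorem reg_X (h : Ctx k v r) (d : SD p k v r D F z η ρ b₁ b ε) {b' : ℝ} (hb' : b ≤ b') {γ : ℝ}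
    (hγ : GN v F η b' γ (minpoly F η)) : Reg v F z η b₁ b' (γ - v d.q) d.X := by
  have h1 : Reg v F z η b₁ b' γ (aeval z (minpoly F η)) := Reg.of_GN hγ
  have h2 := reg_mem' h d hb' (inv_mem d.q_mem) (inv_ne_zero d.q_ne)
  rw [v.map_inv d.q_ne] at h2
  have h3 := h1.mul h2
  rwa [← div_eq_mul_inv, ← sub_eq_add_neg] at h3

/-- the polynomials in `X` with coefficients in `OV` -/
theorem exists_of_closure (d : SD p k v r D F z η ρ b₁ b ε) {τ : Ω}
    (hτ : τ ∈ Subring.closure d.gA) :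
    ∃ P : Polynomial Ω, (∀ i, P.coeff i ∈ OV v d.S'.K) ∧ τ = P.eval d.X := by
  have h1 : Subring.closure d.gA ≤
      ((mapRingHom (OV v d.S'.K).subtype).range.map (evalRingHom d.X)) := by
    rw [Subring.closure_le]
    rintro x (hx | hx)
    · refine ⟨C x, ⟨C ⟨x, hx⟩, ?_⟩, ?_⟩
      · simp
      · simp
    · rw [Set.mem_singleton_iff.1 hx]
      exact ⟨X, ⟨X, by simp⟩, by simp⟩
  obtain ⟨P, ⟨P', hP'⟩, hP⟩ := h1 hτ
  refine ⟨P, fun i => ?_, hP.symm⟩
  rw [← hP', coe_mapRingHom, coeff_map]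
  exact (P'.coeff i).2

/-- A regular function is a polynomial in `X` over `E`, up to a function of large Gauss value. -/
theorem exists_rep (h : Ctx k v r) (d : SD p k v r D F z η ρ b₁ b ε) {f w : Ω} (hw : w ∈ d.S'.K)
    (hw0 : w ≠ 0) (hf : Reg v F z η b₁ b (v w) f) (N : ℝ) :
    ∃ A' ∈ PI d.S'.K, (∀ i, v.Ge (v w) (A'.coeff i)) ∧
      Reg v F z η b₁ b N (f - A'.eval d.X) := by
  have h1 : Reg v F z η b₁ b 0 (w⁻¹ * f) := by
    have h2 := (d.reg_mem h (inv_mem hw) (inv_ne_zero hw0)).mul hf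
    rw [v.map_inv hw0, neg_add_cancel] at h2
    exact h2
  obtain ⟨τ, hτ, f₁, hf₁, h2⟩ := d.apx h h1 (N - v w)
  obtain ⟨P, hP, rfl⟩ := exists_of_closure d hτ
  refine ⟨C w * P, fun i => ?_, fun i => ?_, ?_⟩
  · rw [coeff_C_mul]
    exact mul_mem hw (hP i).1
  · rw [coeff_C_mul]
    have h3 : v.Ge (v w + 0) (w * P.coeff i) := RVal.Ge.mul (fun _ => le_rfl) (hP i).2
    rwa [add_zero] at h3
  · have h3 : f - (C w * P).eval d.X = w * f₁ := by
      rw [eval_mul, eval_C]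
      have h4 : f = w * (w⁻¹ * f) := by rw [mul_inv_cancel_left₀ hw0]
      rw [h4, h2]
      ring
    rw [h3]
    have h4 := (d.reg_mem h hw hw0).mul hf₁
    refine Reg.mono (le_of_eq ?_) h4
    ring

/-- The transfer of the bound. -/
theorem transfer (h : Ctx k v r) (d : SD p k v r D F z η ρ b₁ b ε) {b' : ℝ}
    (hbb : b ≤ b') {γ : ℝ} (hQ' : GN v F η b' γ (minpoly F η)) {A g₀ : F[X]}
    {A' : Polynomial Ω} (hA' : A' ∈ PI d.S'.K) {L : ℝ}
    (hrep : Reg v F z η b₁ b' L (aeval z (A - g₀ ^ p) - A'.eval d.X)) {S₁ : ℕ}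
    (bound : ∀ g G H : F[X], A - g ^ p = G + minpoly F η ^ (S₁ + 1) * H → ¬ GN v F η b' L G)
    (g' : Polynomial Ω) (hg' : g' ∈ PI d.S'.K) :
    ∃ i ≤ S₁, ¬ v.Ge (L - i * (γ - v d.q)) ((A' - g' ^ p).coeff i) := by
  classical
  by_contra hcon
  push Not at hcon
  have hb : b₁ < b' := lt_of_lt_of_le d.lt₂ hbb
  have hz := d.cen.tr
  have hint : IsIntegral F η := d.cen.sep.isIntegral
  have hρ : ρ ≤ b₁ := by
    have h1 := d.lt₁
    have h2 : (0 : ℝ) ≤ p * ε := mul_nonneg (Nat.cast_nonneg p) d.ε_nonneg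
    linarith
  have hp0 : 0 < p := (Fact.out : p.Prime).pos
  have hpR : (0 : ℝ) < p := by exact_mod_cast hp0
  have hXr := reg_X h d hbb hQ'
  -- polynomials in `X` over `E` are regular
  have hreg : ∀ P ∈ PI d.S'.K, ∃ c : ℝ, Reg v F z η b₁ b' c (P.eval d.X) := by
    intro P hP
    obtain ⟨c, hc⟩ : ∃ c : ℝ, ∀ i ∈ Finset.range (P.natDegree + 1),
        Reg v F z η b₁ b' c (P.coeff i * d.X ^ i) := by
      have h1 : ∀ i : ℕ, ∃ c : ℝ, Reg v F z η b₁ b' c (P.coeff i * d.X ^ i) := by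
        intro i
        by_cases hi : P.coeff i = 0
        · rw [hi, zero_mul]
          exact ⟨0, Reg.zero'⟩
        · exact ⟨_, (reg_mem' h d hbb (hP i) hi).mul (Reg.pow' hXr i)⟩
      choose c hc using h1
      have hne : (Finset.range (P.natDegree + 1)).Nonempty := ⟨0, by simp⟩
      refine ⟨(Finset.range (P.natDegree + 1)).inf' hne c, fun i hi => Reg.mono ?_ (hc i)⟩
      exact Finset.inf'_le _ hi
    refine ⟨c, ?_⟩
    rw [eval_eq_sum_range]
    exact Reg.sum' hb.le _ _ hc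
  -- a polynomial near `g'(X)`
  obtain ⟨cg, hcg⟩ := hreg g' hg'
  obtain ⟨P₁, -, hP₁⟩ := exists_poly hint d.cen.tb hρ hb hcg (L / p)
  -- the two parts of `A' - g'^p`
  set R := A' - g' ^ p with hR
  have hRm : R ∈ PI d.S'.K := sub_mem hA' (pow_mem hg' p)
  set Rh : Polynomial Ω := ∑ i ∈ Finset.range (R.natDegree + 1),
    monomial i (R.coeff (i + (S₁ + 1))) with hRh
  have hRhm : Rh ∈ PI d.S'.K := by
    refine sum_mem fun i _ n => ?_
    rw [coeff_monomial]
    split_ifs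
    exacts [hRm _, zero_mem _]
  have hRhc : ∀ i, Rh.coeff i = R.coeff (i + (S₁ + 1)) := by
    intro i
    rw [hRh, finsetSum_coeff]
    simp only [coeff_monomial]
    rw [Finset.sum_ite_eq']
    split_ifs with h1
    · rfl
    · rw [Finset.mem_range, not_lt] at h1
      rw [coeff_eq_zero_of_natDegree_lt (by omega)]
  have hRe : R = ∑ i ∈ Finset.range (S₁ + 1), monomial i (R.coeff i) + X ^ (S₁ + 1) * Rh := by
    ext n
    rw [coeff_add, finsetSum_coeff, coeff_X_pow_mul', hRhc]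
    simp only [coeff_monomial]
    rw [Finset.sum_ite_eq']
    by_cases hn : n < S₁ + 1
    · rw [if_pos (Finset.mem_range.2 hn), if_neg (by omega), add_zero]
    · rw [if_neg (by simpa using hn), if_pos (by omega), zero_add]
      congr 1
      omega
  obtain ⟨cr, hcr⟩ := hreg Rh hRhm
  have hq1 := reg_mem' h d hbb (inv_mem (pow_mem d.q_mem (S₁ + 1)))
    (inv_ne_zero (pow_ne_zero (S₁ + 1) d.q_ne))
  obtain ⟨H₁, -, hH₁⟩ := exists_poly hint d.cen.tb hρ hb (hq1.mul hcr) (L - (S₁ + 1 : ℕ) * γ)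
  -- the polynomial identity
  set G := A - (g₀ + P₁) ^ p - minpoly F η ^ (S₁ + 1) * H₁ with hG
  refine bound (g₀ + P₁) G H₁ (by rw [hG]; ring) (GN.of_Reg hz hb.le ?_)
  have e1 : aeval z G = (aeval z (A - g₀ ^ p) - A'.eval d.X) +
      ((g'.eval d.X - aeval z P₁) ^ p + (∑ i ∈ Finset.range (S₁ + 1), R.coeff i * d.X ^ i +
        aeval z (minpoly F η) ^ (S₁ + 1) *
          (((d.q ^ (S₁ + 1))⁻¹ * Rh.eval d.X) - aeval z H₁))) := by
    have h1 : A'.eval d.X = g'.eval d.X ^ p + R.eval d.X := by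
      rw [hR, eval_sub, eval_pow]
      ring
    have h2 : R.eval d.X = ∑ i ∈ Finset.range (S₁ + 1), R.coeff i * d.X ^ i +
        d.X ^ (S₁ + 1) * Rh.eval d.X := by
      conv_lhs => rw [hRe]
      rw [eval_add, eval_finsetSum, eval_mul, eval_pow, eval_X]
      simp only [eval_monomial]
    have h3 : d.X ^ (S₁ + 1) * Rh.eval d.X =
        aeval z (minpoly F η) ^ (S₁ + 1) * ((d.q ^ (S₁ + 1))⁻¹ * Rh.eval d.X) := by
      rw [SD.X, div_pow]
      field_simp
    rw [h1, h2, h3, hG, sub_pow_char, add_pow_char]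
    simp only [_root_.map_sub, _root_.map_add, _root_.map_mul, _root_.map_pow]
    ring
  rw [e1]
  refine hrep.add (Reg.add ?_ (Reg.add ?_ ?_ hb.le) hb.le) hb.le
  · refine Reg.mono (le_of_eq ?_) (Reg.pow' hP₁ p)
    field_simp
  · refine Reg.sum' hb.le _ _ fun i hi => ?_
    have hi' : i ≤ S₁ := by
      have := Finset.mem_range.1 hi
      omega
    refine Reg.mono (le_of_eq ?_) ((reg_ge h d hbb (hRm i) (hcon i hi')).mul (Reg.pow' hXr i))
    ring
  · have h1 : Reg v F z η b₁ b' ((S₁ + 1 : ℕ) * γ) (aeval z (minpoly F η) ^ (S₁ + 1)) :=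
      Reg.pow' (Reg.of_GN hQ') (S₁ + 1)
    refine Reg.mono (le_of_eq ?_) (h1.mul hH₁)
    ring

end

end Pool.Agent.TWJ
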