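import Pool.Agent.Lib.TW.E1
import Pool.Agent.Lib.TW_NFG.J3

/-!
# TANK W, SEC1: the minimal centre

`ρ` is a radius such that some algebraic element is nearer than `ρ` to `z`.

* `exists_min`: there is a separable `η` of minimal degree nearer than `ρ` to `z`;
* `cen_of_min`: it is a centre;
* `val_roots`: the roots of its minimal polynomial have the same distances from the elements of `F`;
* `GB_minpoly`: the Gauss values of the minimal polynomial.
-/

set_option autoImplicit false

open Polynomial

namespace Pool.Agent.TWJ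

open Pool.Agent.H15JM (RVal)
open Pool.Agent.LU1 (adj)
open Pool.Agent.D2 (Ctx0)
open Pool.Agent.D2P (hen)
open Pool.Agent.LUC (Cl)
open Pool.Agent.TW
open Pool.Agent.TWM (PI GB SL)

universe u

variable {k Ω : Type u} [Field k] [Field Ω] [Algebra k Ω] {v : RVal Ω}
  {F : IntermediateField k Ω} {z η : Ω} {ρ : ℝ}

/-- `η` is separable, nearer than `ρ` to `z`, of minimal degree. -/
structure IsMin (v : RVal Ω) (F : IntermediateField k Ω) (z η : Ω) (ρ : ℝ) : Prop where
  sep : IsSeparable F η
  lt : ρ < v (z - η)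
  min : ∀ α : Ω, IsAlgebraic F α → ρ < v (z - α) →
    (minpoly F η).natDegree ≤ (minpoly F α).natDegree

/-- There is a minimal centre. -/
theorem exists_min [IsAlgClosed Ω] (hd : Dns v F) (hz : Transcendental F z) {θ : Ω}
    (hθ : IsAlgebraic F θ) (hθv : ρ < v (z - θ)) : ∃ η : Ω, IsMin v F z η ρ := by
  classical
  have hneal : ∀ α : Ω, IsAlgebraic F α → z - α ≠ 0 := by
    intro α hα h0
    exact hz (by rw [sub_eq_zero.mp h0]; exact hα)
  have hex : ∃ n : ℕ, ∃ α : Ω, IsAlgebraic F α ∧ ρ < v (z - α) ∧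
      (minpoly F α).natDegree = n := ⟨_, θ, hθ, hθv, rfl⟩
  obtain ⟨η₀, hη₀, hη₀v, hη₀n⟩ := Nat.find_spec hex
  have hmin : ∀ α : Ω, IsAlgebraic F α → ρ < v (z - α) →
      (minpoly F η₀).natDegree ≤ (minpoly F α).natDegree := by
    intro α hα hαv
    rw [hη₀n]
    exact Nat.find_min' hex ⟨α, hα, hαv, rfl⟩
  -- a separable one
  by_cases hder : derivative (minpoly F η₀) = 0
  swap
  · exact ⟨η₀, (separable_iff_derivative_ne_zero (minpoly.irreducible hη₀.isIntegral)).mpr hder,
      hη₀v, hmin⟩
  set f := minpoly F η₀ with hf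
  have hfm : f.Monic := minpoly.monic hη₀.isIntegral
  have hfpos : 0 < f.natDegree := minpoly.natDegree_pos hη₀.isIntegral
  have hf1 : 1 < f.natDegree := by
    by_contra hcon
    have h1 : f.natDegree = 1 := by omega
    have h2 := hfm.eq_X_add_C h1
    rw [h2] at hder
    simp at hder
  have hη0 : η₀ ≠ 0 := by
    intro h0
    rw [h0, minpoly.zero] at hf
    rw [hf, natDegree_X] at hf1
    omega
  obtain ⟨c, hcF, hc0, hc1, -⟩ := hd (f.natDegree * ρ - v η₀)
    (f.natDegree * ρ - v η₀ + 1) (by linarith)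
  let c' : F := ⟨c, hcF⟩
  have hc'0 : c' ≠ 0 := fun h0 => hc0 (congrArg Subtype.val h0)
  have hdeg : (C c' * X : F[X]).degree < f.degree := by
    rw [degree_C_mul_X hc'0, degree_eq_natDegree hfm.ne_zero]
    exact_mod_cast hf1
  have hgm : (f + C c' * X).Monic := hfm.add_of_left hdeg
  have hgn : (f + C c' * X).natDegree = f.natDegree := natDegree_add_eq_left_of_degree_lt hdeg
  have hgev : aeval η₀ (f + C c' * X) = c * η₀ := by
    rw [_root_.map_add, _root_.map_mul, aeval_X, aeval_C, hf, minpoly.aeval, zero_add]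
    rfl
  have hgev0 : aeval η₀ (f + C c' * X) ≠ 0 := by
    rw [hgev]
    exact mul_ne_zero hc0 hη0
  obtain ⟨β, hβ1, hβ2, hβ3⟩ := exists_near_root (v := v) hgm hgev0 (ρ := ρ) (by
    rw [hgn, hgev, v.map_mul hc0 hη0]
    linarith)
  have hβa : IsAlgebraic F β := ⟨_, hgm.ne_zero, hβ1⟩
  have hβv : ρ < v (z - β) := by
    have h1 := v.map_add (hneal η₀ hη₀) hβ2 (by
      rw [sub_add_sub_cancel]
      exact hneal β hβa)
    rw [sub_add_sub_cancel] at h1
    exact (lt_min hη₀v hβ3).trans_le h1
  have hdvd : minpoly F β ∣ f + C c' * X := minpoly.dvd F β hβ1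
  have hle := hmin β hβa hβv
  have heq : minpoly F β = f + C c' * X := by
    refine (eq_of_monic_of_dvd_of_natDegree_le (minpoly.monic hβa.isIntegral) hgm hdvd ?_).symm
    rw [hgn]
    exact hle
  refine ⟨β, ?_, hβv, fun α hα hαv => ?_⟩
  · refine (separable_iff_derivative_ne_zero (minpoly.irreducible hβa.isIntegral)).mpr ?_
    rw [heq, derivative_add, hder, zero_add, derivative_C_mul_X]
    exact C_ne_zero.mpr hc'0
  · rw [heq, hgn]
    exact hmin α hα hαv

/-- The minimal centre is a centre. -/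
theorem cen_of_min [IsAlgClosed Ω] (hz : Transcendental F z) (h : IsMin v F z η ρ) {π : Ω}
    (hπ : π ∈ F) (hπ0 : π ≠ 0) (h1 : ρ < v π) (h2 : v π < v (z - η)) :
    Cen v F z η ρ (v π) := by
  have hneal : ∀ α : Ω, IsAlgebraic F α → z - α ≠ 0 := by
    intro α hα h0
    exact hz (by rw [sub_eq_zero.mp h0]; exact hα)
  have hη : IsAlgebraic F η := h.sep.isIntegral.isAlgebraic
  refine ⟨hz, h.sep, h1, h2, ⟨π, (D2P.mem_adj_self F η).2 hπ, hπ0, rfl⟩, ?_⟩
  intro P hP0 hPn
  refine RB.of_roots hP0 fun β hβ => ?_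
  have hβa : IsAlgebraic F β := ⟨P, hP0, hβ⟩
  have hβn : (minpoly F β).natDegree < (minpoly F η).natDegree :=
    (natDegree_le_of_dvd (minpoly.dvd F β hβ) hP0).trans_lt hPn
  have hβv : v (z - β) ≤ ρ := by
    by_contra hcon
    push Not at hcon
    have := h.min β hβa hcon
    omega
  refine ⟨fun h0 => by rw [h0] at hβn; exact lt_irrefl _ hβn, ?_⟩
  have h3 := v.add_of_lt (hneal β hβa) (neg_ne_zero.mpr (hneal η hη)) (by
    rw [v.map_neg _ (hneal η hη)]
    linarith [h.lt])
  rw [show z - β + -(z - η) = η - β by ring] at h3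
  rw [h3.2]
  exact hβv

/-! ### the henselization -/

/-- A monic polynomial over `F` near to a polynomial over the henselization. -/
theorem exists_near_poly (g : (hen v F)[X]) (hg : g.Monic) (η : Ω) (B : ℝ) :
    ∃ g' : F[X], g'.Monic ∧ g'.natDegree = g.natDegree ∧ v.Ge B (aeval η g' - aeval η g) := by
  classical
  set m := g.natDegree with hm
  set c : ℝ := B + m * |v η| with hc
  have h1 : ∀ i : ℕ, ∃ b : F, v.Ge c ((g.coeff i : Ω) - b) := by
    intro i
    obtain ⟨b, hb, h2⟩ := (D2P.mem_hen.1 (g.coeff i).2).1 c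
    exact ⟨⟨b, hb⟩, h2⟩
  choose b hb using h1
  set r : F[X] := ∑ i ∈ Finset.range m, C (b i) * X ^ i with hr
  have hrd : r.degree < m := by
    refine (degree_sum_le _ _).trans_lt ?_
    rw [Finset.sup_lt_iff (by exact_mod_cast WithBot.bot_lt_coe m)]
    intro i hi
    refine (degree_C_mul_X_pow_le i (b i)).trans_lt ?_
    exact_mod_cast Finset.mem_range.1 hi
  refine ⟨X ^ m + r, monic_X_pow_add hrd, ?_, ?_⟩
  · rw [natDegree_add_eq_left_of_degree_lt, natDegree_X_pow]
    rwa [degree_X_pow]
  · have h2 : aeval η g = η ^ m + ∑ i ∈ Finset.range m, (g.coeff i : Ω) * η ^ i := by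
      rw [aeval_eq_sum_range, Finset.sum_range_succ, add_comm]
      congr 1
      have h3 : g.coeff g.natDegree = 1 := hg
      rw [← hm] at h3 ⊢
      rw [h3, one_smul]
    have h3 : aeval η (X ^ m + r) = η ^ m + ∑ i ∈ Finset.range m, (b i : Ω) * η ^ i := by
      rw [_root_.map_add, _root_.map_pow, aeval_X, hr, map_sum]
      congr 1
      refine Finset.sum_congr rfl fun i _ => ?_
      rw [_root_.map_mul, aeval_C, _root_.map_pow, aeval_X]
      rfl
    rw [h2, h3, add_sub_add_left_eq_sub, ← Finset.sum_sub_distrib]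
    refine RVal.Ge.sum _ _ fun i hi => ?_
    have h4 : (b i : Ω) * η ^ i - (g.coeff i : Ω) * η ^ i =
        -(((g.coeff i : Ω) - b i) * η ^ i) := by ring
    rw [h4]
    have h5 : v.Ge (i * v η) (η ^ i) := by
      by_cases h0 : η = 0
      · rcases Nat.eq_zero_or_pos i with rfl | hi0
        · rw [pow_zero, Nat.cast_zero, zero_mul]
          exact RVal.Ge.of_le (by rw [v.map_one])
        · rw [h0, zero_pow hi0.ne']
          exact RVal.Ge.zero
      · exact RVal.Ge.of_le (by rw [v.map_pow h0])
    refine ((hb i).mul h5).neg.mono ?_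
    have h6 : (i : ℝ) ≤ m := by exact_mod_cast (Finset.mem_range.1 hi).le
    have h7 : -|v η| ≤ v η := neg_abs_le _
    have h8 : (i : ℝ) * |v η| ≤ m * |v η| := mul_le_mul_of_nonneg_right h6 (abs_nonneg _)
    have h9 : -((i : ℝ) * |v η|) ≤ i * v η := by
      have := mul_le_mul_of_nonneg_left h7 (Nat.cast_nonneg (α := ℝ) i)
      linarith
    linarith

/-- The minimal polynomial of the minimal centre stays irreducible over the henselization. -/
theorem aeval_minpoly_hen [IsAlgClosed Ω] (hz : Transcendental F z) (h : IsMin v F z η ρ) {β : Ω}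
    (hβ : aeval β (minpoly F η) = 0) : aeval β (minpoly (hen v F) η) = 0 := by
  classical
  have hneal : ∀ α : Ω, IsAlgebraic F α → z - α ≠ 0 := by
    intro α hα h0
    exact hz (by rw [sub_eq_zero.mp h0]; exact hα)
  have hηa : IsAlgebraic F η := h.sep.isIntegral.isAlgebraic
  let _ : Algebra F (hen v F) := (IntermediateField.inclusion (D2P.le_hen F)).toRingHom.toAlgebra
  have _ : IsScalarTower F (hen v F) Ω := IsScalarTower.of_algebraMap_eq fun _ => rfl
  have hint : IsIntegral (hen v F) η := h.sep.isIntegral.tower_top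
  have hmM := minpoly.monic hint
  have hmF := minpoly.monic h.sep.isIntegral
  have hdvd := minpoly.dvd_map_of_isScalarTower F (hen v F) η
  have hdeg : (minpoly F η).natDegree ≤ (minpoly (hen v F) η).natDegree := by
    by_contra hcon
    push Not at hcon
    set m' := (minpoly (hen v F) η).natDegree with hm'
    obtain ⟨g', hg1, hg2, hg3⟩ := exists_near_poly (minpoly (hen v F) η) hmM η (m' * ρ + 1)
    rw [minpoly.aeval, sub_zero] at hg3
    by_cases h0 : aeval η g' = 0
    · have h1 := natDegree_le_of_dvd (minpoly.dvd F η h0) hg1.ne_zero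
      omega
    · obtain ⟨β', hβ1, hβ2, hβ3⟩ := exists_near_root (v := v) hg1 h0 (ρ := ρ) (by
        rw [hg2]
        have := hg3 h0
        linarith)
      have hβa : IsAlgebraic F β' := ⟨_, hg1.ne_zero, hβ1⟩
      have hβv : ρ < v (z - β') := by
        have h1 := v.map_add (hneal η hηa) hβ2 (by
          rw [sub_add_sub_cancel]
          exact hneal β' hβa)
        rw [sub_add_sub_cancel] at h1
        exact (lt_min h.lt hβ3).trans_le h1
      have h1 := h.min β' hβa hβv
      have h2 := natDegree_le_of_dvd (minpoly.dvd F β' hβ1) hg1.ne_zero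
      omega
  have heq : (minpoly F η).map (algebraMap F (hen v F)) = minpoly (hen v F) η := by
    refine eq_of_monic_of_dvd_of_natDegree_le hmM (hmF.map _) hdvd ?_
    rw [hmF.natDegree_map]
    exact hdeg
  rw [← heq, aeval_map_algebraMap]
  exact hβ

/-- The roots of the minimal polynomial of the minimal centre have the same distances from the
elements of `F`. -/
theorem val_roots [IsAlgClosed Ω] (hc : Ctx0 k v) (hz : Transcendental F z)
    (h : IsMin v F z η ρ) {β : Ω} (hβ : aeval β (minpoly F η) = 0) {θ : Ω} (hθ : θ ∈ F) :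
    v (β - θ) = v (η - θ) := by
  have h1 := aeval_minpoly_hen hz h hβ
  have hsep : IsSeparable (hen v F) η := D2P.isSeparable_mono (D2P.le_hen F) h.sep
  have hθM : θ ∈ hen v F := D2P.le_hen F hθ
  have hsep' : IsSeparable (hen v F) (η - θ) :=
    Field.isSeparable_sub hsep (isSeparable_algebraMap (F := hen v F) (⟨θ, hθM⟩ : hen v F))
  refine D2P.val_root_sep hc (D2P.hen_hen F) hsep' ?_
  have h2 : minpoly (hen v F) η ∣ (minpoly (hen v F) (η - θ)).comp (X - C (⟨θ, hθM⟩ : hen v F)) := by
    refine minpoly.dvd _ _ ?_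
    rw [aeval_comp, _root_.map_sub, aeval_X, aeval_C]
    exact minpoly.aeval (hen v F) (η - θ)
  obtain ⟨D, hD⟩ := h2
  have h3 := congrArg (aeval β) hD
  rw [aeval_comp, _root_.map_sub, aeval_X, aeval_C, _root_.map_mul, h1, zero_mul] at h3
  exact h3

/-! ### Gauss values of the minimal polynomial -/

theorem GB_X_sub_C {c : ℝ} {x : Ω} (hx : v.Ge c x) : GB v c c (X - C x) :=
  TWM.GB.X.sub (TWM.GB.C hx)

theorem GB_prod {c : ℝ} (s : Multiset Ω) (hs : ∀ x ∈ s, v.Ge c x) :
    GB v c (Multiset.card s * c) (s.map fun x => X - C x).prod := by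
  induction s using Multiset.induction_on with
  | empty =>
    rw [Multiset.map_zero, Multiset.prod_zero, Multiset.card_zero, Nat.cast_zero, zero_mul]
    exact TWM.GB.one
  | cons x s ih =>
    rw [Multiset.map_cons, Multiset.prod_cons, Multiset.card_cons]
    have h1 := (GB_X_sub_C (hs x (Multiset.mem_cons_self x s))).mul
      (ih fun y hy => hs y (Multiset.mem_cons_of_mem hy))
    refine h1.mono (le_of_eq ?_)
    push_cast
    ring

/-- The Gauss value of a monic polynomial whose roots are near to the centre. -/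
theorem GN_of_roots [IsAlgClosed Ω] {Q : F[X]} (hQ : Q.Monic) {θ : Ω} {c : ℝ}
    (hr : ∀ β : Ω, aeval β Q = 0 → v.Ge c (β - θ)) : GN v F θ c (Q.natDegree * c) Q := by
  classical
  have hs : (Q.map (algebraMap F Ω)).Splits := IsAlgClosed.splits _
  have hmon : (Q.map (algebraMap F Ω)).Monic := hQ.map _
  have hfac := hs.eq_prod_roots
  rw [hmon.leadingCoeff, C_1, one_mul] at hfac
  have hcard : Multiset.card (Q.map (algebraMap F Ω)).roots = Q.natDegree := by
    rw [← hs.natDegree_eq_card_roots, natDegree_map]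
  have h1 : taylor θ (Q.map (algebraMap F Ω)) =
      (((Q.map (algebraMap F Ω)).roots.map fun β => β - θ).map fun x => X - C x).prod := by
    conv_lhs => rw [hfac]
    rw [Multiset.map_map]
    have h2 : ∀ s : Multiset Ω, taylor θ (s.map fun β => X - C β).prod =
        (s.map fun β => X - C (β - θ)).prod := by
      intro s
      induction s using Multiset.induction_on with
      | empty => simp
      | cons x s ih =>
        rw [Multiset.map_cons, Multiset.prod_cons, taylor_mul, ih, Multiset.map_cons,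
          Multiset.prod_cons, _root_.map_sub, taylor_X, taylor_C, C_sub]
        congr 1
        ring
    exact h2 _
  intro j
  rw [tc, h1]
  have h3 := GB_prod (v := v) (c := c) ((Q.map (algebraMap F Ω)).roots.map fun β => β - θ) (by
    intro x hx
    obtain ⟨β, hβ, rfl⟩ := Multiset.mem_map.1 hx
    refine hr β ?_
    have h4 := (mem_roots hmon.ne_zero).mp hβ
    rwa [IsRoot.def, eval_map_algebraMap] at h4)
  rw [Multiset.card_map, hcard] at h3
  exact h3 j

/-- The minimal polynomial around a point of `F`. -/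
theorem minpoly_centre [IsAlgClosed Ω] (hc : Ctx0 k v) (hz : Transcendental F z)
    (h : IsMin v F z η ρ) {θ : Ω} (hθ : θ ∈ F) {c : ℝ} (hcv : c ≤ v (η - θ)) :
    GN v F θ c ((minpoly F η).natDegree * c) (minpoly F η) := by
  refine GN_of_roots (minpoly.monic h.sep.isIntegral) fun β hβ => RVal.Ge.of_le ?_
  rw [val_roots hc hz h hβ hθ]
  exact hcv

/-- The minimal polynomial around `η`. -/
theorem minpoly_radius [IsAlgClosed Ω] (hc : Ctx0 k v) (hz : Transcendental F z)
    (h : IsMin v F z η ρ) (hη : η ∉ F)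
    (hlim : ∀ c < ρ, ∃ θ ∈ F, v.Ge c (η - θ)) :
    GN v F η ρ ((minpoly F η).natDegree * ρ) (minpoly F η) := by
  refine GN_of_roots (minpoly.monic h.sep.isIntegral) fun β hβ => ?_
  refine Pool.Agent.TWM.ge_of_eps fun ε hε => ?_
  obtain ⟨θ, hθ, h1⟩ := hlim (ρ - ε) (by linarith)
  have hne : η - θ ≠ 0 := by
    intro h0
    apply hη
    rw [sub_eq_zero.1 h0]
    exact hθ
  have h2 : v.Ge (ρ - ε) (β - θ) := RVal.Ge.of_le (by
    rw [val_roots hc hz h hβ hθ]
    exact h1 hne)
  have h3 := h2.sub h1
  rwa [sub_sub_sub_cancel_right] at h3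

end Pool.Agent.TWJ
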