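import Pool.Agent.Lib.TW.E10a
import Pool.Agent.Lib.TW.Estar
import Pool.Agent.Lib.TW_NFG.J4
import Pool.Agent.Lib.TW_NFG.J6a

/-!
# TANK W, SEC1: the jump theorem

`F` f.g., full, with bounded distortion, `z` transcendental over `F`, at distance `ρ` of `F`, and
some algebraic element is not farther than `ρ` from `z`. If `A ∈ F[X]` has the first slope index
`≤ S` modulo `p`-th powers, then there are `E`, `X` with `E(X)^h = F(z)^h` (`E` of the same kind),
such that `A(z)` is `A'(X)` modulo `p`-th powers and elements of large value, and the first slope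
index of `A'` is `≤ p ⌊S/(p m)⌋ + p - 1`, `m ≥ 2`.
-/

set_option autoImplicit false

open Polynomial

namespace Pool.Agent.TWJ

open Pool.Agent.H15JM (RVal)
open Pool.Agent.LU1 (adj)
open Pool.Agent.D2 (Ctx0)
open Pool.Agent.D2P (hen)
open Pool.Agent.TW
open Pool.Agent.TWM (PI GB SL Gt Lim)

universe u

variable {k Ω : Type u} [Field k] [Field Ω] [Algebra k Ω] {v : RVal Ω}
  {F : IntermediateField k Ω} {z η : Ω} {ρ b₁ b : ℝ}

/-- The value of a regular function at `z`. -/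
theorem Reg.ge {c : ℝ} {f : Ω} (hzη : z ≠ η) (hb : b < v (z - η)) (hb₁ : b₁ < b)
    (hf : Reg v F z η b₁ b c f) : v.Ge c f := by
  obtain ⟨A, B, hB, hA, hBz, rfl⟩ := hf
  have h1 := hB.near (x := z) fun _ => hb₁.trans hb
  have h2 : v.Ge (c + v (aeval η B)) (aeval z A) := by
    rw [aeval_eq_tc (η := η) A z]
    refine RVal.Ge.sum _ _ fun j _ => ?_
    have h3 : v.Ge (j * v (z - η)) ((z - η) ^ j) :=
      RVal.Ge.of_le (by rw [v.map_pow (sub_ne_zero.2 hzη)])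
    refine ((hA j).mul h3).mono ?_
    have h4 : (j : ℝ) * b ≤ j * v (z - η) := mul_le_mul_of_nonneg_left hb.le (Nat.cast_nonneg j)
    linarith
  intro h0
  have h5 : aeval z A ≠ 0 := fun h => h0 (by rw [h, zero_div])
  have h6 := h2 h5
  rw [v.map_div h5 hBz, h1.2.1]
  linarith

/-- Every polynomial has a Gauss value. -/
theorem GN.exists (G : F[X]) : ∃ c : ℝ, GN v F η b c G := by
  classical
  have hne : (Finset.range (G.natDegree + 1)).Nonempty := ⟨0, by simp⟩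
  refine ⟨(Finset.range (G.natDegree + 1)).inf' hne fun j => v (tc F η G j) + j * b, fun j => ?_⟩
  rcases Nat.lt_or_ge j (G.natDegree + 1) with hj | hj
  · intro _
    have h1 := Finset.inf'_le (f := fun j : ℕ => v (tc F η G j) + j * b)
      (Finset.mem_range.2 hj)
    linarith
  · rw [tc_eq_zero (by omega)]
    exact RVal.Ge.zero

/-- The value of `Q(z)`. -/
theorem IsGV.lt {γ : ℝ} {Q : F[X]} (hQ : IsGV v F η b γ Q) (h0 : aeval η Q = 0) (hzη : z ≠ η)
    (hb : b < v (z - η)) : v.Ge (γ + (v (z - η) - b)) (aeval z Q) := by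
  rw [aeval_eq_tc (η := η) Q z]
  refine RVal.Ge.sum _ _ fun j _ => ?_
  rcases Nat.eq_zero_or_pos j with rfl | hj
  · rw [tc_zero, h0, zero_mul]
    exact RVal.Ge.zero
  have h3 : v.Ge (j * v (z - η)) ((z - η) ^ j) :=
    RVal.Ge.of_le (by rw [v.map_pow (sub_ne_zero.2 hzη)])
  refine ((hQ.1 j).mul h3).mono ?_
  have h4 : (1 : ℝ) * (v (z - η) - b) ≤ j * (v (z - η) - b) :=
    mul_le_mul_of_nonneg_right (by exact_mod_cast hj) (by linarith)
  linarith

section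

variable {p : ℕ} {r D : ℕ} {ε : ℝ} [Fact p.Prime] [CharP k p] [CharP Ω p] [IsAlgClosed Ω]
  [IsAlgClosed k]

omit [CharP k p] [CharP Ω p] [Fact p.Prime] [IsAlgClosed k] in
/-- The field `E(X)` and the field `F(z)` have the same henselization. -/
theorem hen_eq (h : Ctx k v r) (d : SD p k v r D F z η ρ b₁ b ε) (hX : 0 < v d.X)
    (hfrac : ∀ f ∈ adj F z, InFrac d.A f) : hen v (adj d.S'.K d.X) = hen v (adj F z) := by
  have hXA : d.X ∈ adj F z := by
    refine div_mem (E10.aeval_mem_adj _) (E10.K_le_adj d d.q_mem)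
  refine le_antisymm (D2P.hen_mono (D2P.adj_le (E10.K_le_adj d) hXA)) ?_
  refine D2P.hen_le (D2P.hen_hen _) fun f hf => ?_
  have hA : d.A ≤ OV v (hen v (adj d.S'.K d.X)) := by
    refine hensA_le ?_ (H2aux.hclosed_OV_hen h.toCtx0 _)
    rw [Subring.closure_le]
    rintro a (ha | ha)
    · exact ⟨D2P.le_hen _ ((D2P.mem_adj_self _ _).2 ha.1), ha.2⟩
    · rw [Set.mem_singleton_iff.1 ha]
      exact ⟨D2P.le_hen _ (D2P.mem_adj_self _ _).1, fun _ => hX.le⟩
  obtain ⟨a, ha, c, hc, -, rfl⟩ := hfrac f hf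
  exact div_mem (hA ha).1 (hA hc).1

omit [CharP Ω p] in
/-- The values of `F` are values of `k(S')`. -/
theorem dns_K (h : Ctx k v r) (hd : Dns v F) (d : SD p k v r D F z η ρ b₁ b ε) :
    Dns v d.S'.K := by
  intro a c hac
  obtain ⟨x, hx, hx0, h1, h2⟩ := hd a c hac
  have hxN : x ∈ hen v d.S.K := by
    rw [← d.fr.hen_eq p h]
    exact D2P.le_hen _ ((D2P.mem_adj_self F η).2 hx)
  obtain ⟨m, hm, hm0, hmv⟩ := E4.exists_of_cl (D2P.mem_hen.1 hxN).1 hx0
  rw [P1.K_eq] at hm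
  obtain ⟨m', hm', hm0', hmv'⟩ := E4.near_exists d.near hm hm0
  exact ⟨m', by rw [P1.K_eq]; exact hm', hm0', by rw [hmv', hmv]; exact h1, by rw [hmv', hmv]; exact h2⟩

end

/-- The jump theorem. -/
theorem jump [IsAlgClosed Ω] [IsAlgClosed k] (p : ℕ) [hp : Fact p.Prime] [CharP k p] [CharP Ω p]
    {r D : ℕ} (h : Ctx k v r) (hF : F.FG) (hfull : Full v F) (hBD : BD p v F)
    (htr : Algebra.trdeg k F = (r + D : ℕ))
    (hLU : ∀ E : IntermediateField k Ω, E.FG → Full v E →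
      Algebra.trdeg k E = (r + D : ℕ) → BD p v E → LU p v r E)
    (hd : Dns v F) (hz : Transcendental F z) (hlim : Lim v F ρ z)
    (hfar : ∀ θ ∈ F, v (z - θ) ≤ ρ) (hα : ∃ α : Ω, IsAlgebraic F α ∧ ρ ≤ v (z - α))
    {c κ : ℝ} (hcρ : c < ρ) {S : ℕ} {A : Polynomial Ω} (hSL : SL p v F z c κ S A) :
    ∃ (m : ℕ) (R : Fr k v r D) (X' : Ω) (g₀ : Polynomial Ω), 2 ≤ m ∧ (∀ i, R.s i ∈ adj F z) ∧
      X' ∈ adj F z ∧ X' ≠ 0 ∧ 0 < v X' ∧ BD p v R.K ∧ Dns v R.K ∧ Transcendental R.K X' ∧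
      hen v (adj R.K X') = hen v (adj F z) ∧ g₀ ∈ PI F ∧
      (∀ N : ℝ, ∃ g₁ ∈ PI R.K, v.Ge N (g₀.eval z - g₁.eval X')) ∧
      ∀ N : ℝ, ∃ A' ∈ PI R.K, ∃ c' κ' : ℝ, 0 ≤ c' ∧
        SL p v R.K X' c' κ' (p * (S / (p * m)) + p - 1) A' ∧
        v.Ge N (A.eval z - g₀.eval z ^ p - A'.eval X') := by
  classical
  have hp0 : 0 < p := hp.out.pos
  have hpR : (0 : ℝ) < p := by exact_mod_cast hp0
  have hneal : ∀ α : Ω, IsAlgebraic F α → z - α ≠ 0 := by
    intro α hα h0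
    exact hz (by rw [sub_eq_zero.mp h0]; exact hα)
  have hnF : ∀ θ ∈ F, z - θ ≠ 0 := fun θ hθ =>
    hneal θ (isAlgebraic_algebraMap (⟨θ, hθ⟩ : F))
  -- the minimal centre
  obtain ⟨α, hα1, hα2⟩ := hα
  obtain ⟨α', hα'1, hα'2⟩ := exists_closer h.toCtx0 hfull hz hα1
  obtain ⟨η, hη⟩ := exists_min hd hz hα'1 (hα2.trans_lt hα'2)
  have hηF : η ∉ F := fun h1 => absurd hη.lt (not_lt.2 (hfar η h1))
  have hint : IsIntegral F η := hη.sep.isIntegral
  have hzη : z - η ≠ 0 := hneal η hint.isAlgebraic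
  have hQm := minpoly.monic hint
  set m := (minpoly F η).natDegree with hm
  have hm2 : 2 ≤ m := by
    have h1 : 0 < m := minpoly.natDegree_pos hint
    have h2 : m ≠ 1 := by
      intro h2
      rw [hm, minpoly.natDegree_eq_one_iff] at h2
      obtain ⟨a, ha⟩ := h2
      exact hηF (by rw [← ha]; exact a.2)
    omega
  set S₁ := p * (S / (p * m)) + p - 1 with hS₁
  have hS₁' : S₁ + 1 = p * (S / (p * m) + 1) := by
    rw [mul_add, mul_one]
    omega
  -- the distances from the elements of `F`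
  have hdist : ∀ θ ∈ F, η - θ ≠ 0 ∧ v (η - θ) = v (z - θ) := by
    intro θ hθ
    have h1 := v.add_of_lt (hnF θ hθ) (neg_ne_zero.2 hzη) (by
      rw [v.map_neg _ hzη]
      linarith [hfar θ hθ, hη.lt])
    rwa [show z - θ + -(z - η) = η - θ by ring] at h1
  -- the radii
  obtain ⟨π', hπ'F, hπ'0, hb'1, hb'2⟩ := hd ρ (v (z - η)) hη.lt
  set b' := v π' with hb'
  set Δ := b' - ρ with hΔ
  have hΔ0 : 0 < Δ := sub_pos.2 hb'1
  set M : ℝ := (((S₁ + 1) * m : ℕ) : ℝ) with hM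
  have hM1 : (1 : ℝ) ≤ M := by
    rw [hM]
    exact_mod_cast Nat.mul_pos (Nat.succ_pos S₁) (by omega : 0 < m)
  have hM0 : (0 : ℝ) < M := by linarith
  have hMe : M = (S₁ + 1) * m := by rw [hM]; push_cast; ring
  obtain ⟨π, hπF, hπ0, hb1, hb2⟩ := hd ρ (ρ + Δ / (8 * M)) (by
    have : 0 < Δ / (8 * M) := by positivity
    linarith)
  have hMb : M * (v π - ρ) < Δ / 8 := by
    have h1 : v π - ρ < Δ / (8 * M) := by linarith
    calc M * (v π - ρ) < M * (Δ / (8 * M)) := mul_lt_mul_of_pos_left h1 hM0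
      _ = Δ / 8 := by field_simp
  have hbρ : v π - ρ < Δ / 8 := by
    have h1 : 1 * (v π - ρ) ≤ M * (v π - ρ) := mul_le_mul_of_nonneg_right hM1 (by linarith)
    linarith
  have hbb' : v π < b' := by linarith
  obtain ⟨b₁, ε, ⟨d⟩⟩ := exists_SD p h hF hfull hBD htr hLU hd
    (cen_of_min hz hη hπF hπ0 hb1 (hbb'.trans hb'2))
  -- the Gauss value at the radius `b'`
  obtain ⟨cγ, -, -, hγ⟩ := E4.exists_isGV hη.sep ((D2P.mem_adj_self F η).2 hπ'F) hπ'0 hb'.symm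
  set γ := v cγ with hγdef
  have hQρ := minpoly_radius h.toCtx0 hz hη hηF (fun c hc => by
    obtain ⟨θ, hθ, h1⟩ := hlim (ρ - c) (by linarith)
    refine ⟨θ, hθ, RVal.Ge.of_le ?_⟩
    rw [(hdist θ hθ).2]
    have := h1 (hnF θ hθ)
    linarith)
  rw [← hm] at hQρ
  have hγ1 : m * ρ ≤ γ := by
    obtain ⟨j, hj, hj0, hjv⟩ := hγ.2
    have h1 := hQρ j hj0
    have h2 : (0 : ℝ) ≤ j * (b' - ρ) := mul_nonneg (Nat.cast_nonneg j) hΔ0.le
    have h3 : (j : ℝ) * (b' - ρ) = j * b' - j * ρ := by ring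
    linarith
  have htop : tc F η (minpoly F η) m = 1 := by
    have hdeg : (taylor η ((minpoly F η).map (algebraMap F Ω))).natDegree = m := by
      rw [natDegree_taylor, hQm.natDegree_map]
    rw [tc, ← hdeg, natDegree_taylor, coeff_taylor_natDegree]
    exact hQm.map _
  have hq1 : v d.q ≤ m * v π := by
    have h1 := d.q_val.1 m
    rw [htop] at h1
    have h2 := h1 one_ne_zero
    rw [v.map_one] at h2
    linarith
  have hγ2 : v d.q + (b' - v π) ≤ γ := by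
    obtain ⟨j, hj, hj0, hjv⟩ := hγ.2
    have h1 := d.q_val.1 j hj0
    have h2 : (1 : ℝ) * (b' - v π) ≤ j * (b' - v π) :=
      mul_le_mul_of_nonneg_right (by exact_mod_cast hj) (by linarith)
    linarith
  -- the radius around the point of `F`
  set c₁ := max c (ρ - Δ / (16 * M)) with hc₁
  have hcc₁ : c ≤ c₁ := le_max_left _ _
  have hc₁ρ : c₁ < ρ := max_lt hcρ (by
    have : 0 < Δ / (16 * M) := by positivity
    linarith)
  have hMc : M * (ρ - c₁) ≤ Δ / 16 := by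
    have h1 : ρ - c₁ ≤ Δ / (16 * M) := by
      have := le_max_right c (ρ - Δ / (16 * M))
      rw [← hc₁] at this
      linarith
    calc M * (ρ - c₁) ≤ M * (Δ / (16 * M)) := mul_le_mul_of_nonneg_left h1 hM0.le
      _ = Δ / 16 := by field_simp
  set c' := (c₁ + ρ) / 2 with hc'
  have hc₁c' : c₁ < c' := by rw [hc']; linarith
  have hc'ρ : c' < ρ := by rw [hc']; linarith
  obtain ⟨θ, hθ, hθ1⟩ := hlim (ρ - c') (by linarith)
  have hθz : c' ≤ v (z - θ) := by
    have := hθ1 (hnF θ hθ)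
    linarith
  have hθη : c' ≤ v (η - θ) := by rw [(hdist θ hθ).2]; exact hθz
  have hgt : Gt v c₁ (z - θ) := fun _ => hc₁c'.trans_le hθz
  have hcθ : Gt v c θ := by
    have h1 : Gt v c (z - θ) := fun h0 => hcc₁.trans_lt (hgt h0)
    have h2 := hSL.gt.sub h1
    rwa [sub_sub_cancel] at h2
  have hor : ∀ ε : ℝ, 0 < ε → ∃ (n : ℕ) (t : Fin n → Ω), PBasis p F t ∧ Orth p v F t ε := by
    intro ε hε
    obtain ⟨t, ht⟩ := exists_pbasis p hF htr
    obtain ⟨S, -, -, -, hpb, ho⟩ := exists_orth_frame p h F hF hfull hBD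
      (hLU F hF hfull htr hBD) t ht ∅ (fun z hz => absurd hz (Finset.notMem_empty _)) hε
    exact ⟨_, S.s, hpb, ho⟩
  obtain ⟨κ₁, -, hSL₁⟩ := SL_radius hor (SL_centre hSL hθ hcθ) hcc₁ hgt
  obtain ⟨A₀, rfl⟩ := exists_lift hSL.mem
  -- the small constants
  set ε₀ := min (p * (c' - c₁) / 3) (Δ / 32) with hε₀
  have hε₀0 : 0 < ε₀ := lt_min (by
    have : 0 < c' - c₁ := by linarith
    positivity) (by positivity)
  have hε₀1 : ε₀ ≤ p * (c' - c₁) / 3 := min_le_left _ _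
  have hε₀2 : ε₀ ≤ Δ / 32 := min_le_right _ _
  obtain ⟨n, t, ht, ho⟩ := hor ε₀ hε₀0
  set L := κ₁ + ε₀ + ε₀ + S₁ * (γ - m * ρ) + M * (ρ - c₁) with hL
  have bound : ∀ g G H : F[X], A₀ - g ^ p = G + minpoly F η ^ (S₁ + 1) * H →
      ¬ GN v F η b' L G := fun g G H heq =>
    jump_bound ht ho hθ hSL₁ hint hb'1 d.cen.tb hc₁c' (by
      intro j hj
      have h1 := minpoly_centre h.toCtx0 hz hη hθ hθη j
      refine h1.mono (le_of_eq ?_)
      ring) hc₁ρ.le (RVal.Ge.of_le (by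
        have h1 : θ - η = -(η - θ) := by ring
        rw [h1, v.map_neg _ (hdist θ hθ).1]
        linarith)) hQρ hγ hγ1 hε₀0 hε₀0 (by linarith) hS₁' (le_of_eq (by rw [hL])) heq
  -- the polynomial `A'`
  obtain ⟨g, hg, hg1⟩ := hSL₁.lo (Δ / 32) (by positivity)
  obtain ⟨G, hG⟩ := exists_lift (taylor_mem_PI hg (neg_mem hθ))
  have hGN : GN v F η (v π) (κ₁ - Δ / 32) (A₀ - G ^ p) := by
    have h1 : GN v F θ c₁ (κ₁ - Δ / 32) (A₀ - G ^ p) := by
      intro j
      have h2 : taylor θ ((A₀ - G ^ p).map (algebraMap F Ω)) =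
          taylor θ (A₀.map (algebraMap F Ω)) - g ^ p := by
        rw [Polynomial.map_sub, Polynomial.map_pow, hG, _root_.map_sub, taylor_pow, taylor_taylor,
          add_neg_cancel, taylor_zero]
      rw [tc, h2]
      exact hg1 j
    have h2 : GN v F η c₁ (κ₁ - Δ / 32) (A₀ - G ^ p) :=
      GN.centre (RVal.Ge.of_le (by linarith)) h1
    intro j
    refine (h2 j).mono ?_
    have h3 : (j : ℝ) * c₁ ≤ j * v π :=
      mul_le_mul_of_nonneg_left (by linarith) (Nat.cast_nonneg j)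
    linarith
  obtain ⟨w, hw, hw0, hw1, hw2⟩ := dns_K h hd d (κ₁ - 2 * (Δ / 32)) (κ₁ - Δ / 32) (by linarith)
  have hreg : Reg v F z η b₁ (v π) (v w) (aeval z (A₀ - G ^ p)) :=
    Reg.mono hw2.le (Reg.of_GN hGN)
  have hXp := d.X_pos h
  have hGtX : Gt v (γ - v d.q) d.X := by
    intro _
    have h1 := IsGV.lt hγ (minpoly.aeval F η) (sub_ne_zero.1 hzη) hb'2
    have h2 : aeval z (minpoly F η) ≠ 0 := by
      intro h3
      exact hz ⟨minpoly F η, minpoly.ne_zero hint, h3⟩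
    have h3 := h1 h2
    rw [SD.X, v.map_div h2 d.q_ne]
    linarith
  have hK8 := E10.K_le_adj d
  refine ⟨m, d.S', d.X, G.map (algebraMap F Ω), hm2, fun i => hK8 (d.pb'.mem i),
    div_mem (E10.aeval_mem_adj _) (hK8 d.q_mem), hXp.1, hXp.2, ⟨_, _, d.pb', _, d.orth'⟩,
    dns_K h hd d, d.e8_X_tr h, hen_eq h d hXp.2 (d.frac h), map_mem_PI G, fun N => ?_,
    fun N => ?_⟩
  · obtain ⟨cG, hcG⟩ := GN.exists (v := v) (η := η) (b := v π) G
    obtain ⟨w', hw', hw'0, -, hw'2⟩ := dns_K h hd d (cG - 1) cG (by linarith)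
    obtain ⟨g₁, hg₁, -, h1⟩ := exists_rep h d hw' hw'0
      (Reg.mono hw'2.le (Reg.of_GN (z := z) hcG)) N
    refine ⟨g₁, hg₁, ?_⟩
    have h2 := Reg.ge (sub_ne_zero.1 hzη) (hbb'.trans hb'2) d.lt₂ h1
    rwa [← eval_map_algebraMap] at h2
  obtain ⟨A', hA', hA'w, hrep⟩ := exists_rep h d hw hw0 hreg (max L N)
  have hrep' := Reg.radius hbb'.le hrep
  have htrans := transfer h d hbb'.le hγ.1 hA' (Reg.mono (le_max_left L N) hrep') bound
  -- the first slope
  obtain ⟨r', κ', hr', -, -, hSL'⟩ := exists_SL hA' hS₁' (r₀ := 0) (r₁ := γ - v d.q) (K₀ := v w)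
    (L₁ := L) (by linarith) ⟨0, zero_mem _, fun i => by
      rw [zero_pow hp.out.ne_zero, sub_zero, mul_zero, sub_zero]
      exact hA'w i⟩ (by
      have h1 : (S₁ : ℝ) * (v d.q - m * ρ) ≤ M * (v π - ρ) := by
        have h2 : v d.q - m * ρ ≤ m * (v π - ρ) := by linarith
        have h3 : (S₁ : ℝ) * (v d.q - m * ρ) ≤ S₁ * (m * (v π - ρ)) :=
          mul_le_mul_of_nonneg_left h2 (Nat.cast_nonneg _)
        have h4 : (0 : ℝ) ≤ m * (v π - ρ) := mul_nonneg (Nat.cast_nonneg _) (by linarith)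
        have h5 : M * (v π - ρ) = S₁ * (m * (v π - ρ)) + m * (v π - ρ) := by rw [hMe]; ring
        linarith
      have h6 : ((S₁ : ℝ) + 1) * (γ - v d.q - 0) =
          S₁ * (γ - m * ρ) - S₁ * (v d.q - m * ρ) + (γ - v d.q) := by ring
      rw [h6]
      linarith) htrans hGtX
  refine ⟨A', hA', r', κ', hr', hSL', ?_⟩
  have h1 := Reg.ge (sub_ne_zero.1 hzη) (hbb'.trans hb'2) d.lt₂ (Reg.mono (le_max_right L N) hrep)
  rwa [_root_.map_sub, _root_.map_pow, ← eval_map_algebraMap, ← eval_map_algebraMap] at h1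

end Pool.Agent.TWJ
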