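import Pool.Agent.Lib.TWM.Lau
import Pool.Agent.Lib.TW_NFG.Alg2

/-!
# NFG, `s = 2`: Laurent polynomials in a frame

A frame is given by monomials `M g`, `g ∈ G` (`MS v G M` of `TWM/Op`), and a parameter `w`.

* `evP M w P = ∑ M(g) * P_g(w)` for `P : ℝ →₀ k[X]`; `InP G P`, `Ct μ P`: exponents in `G`, `≥ μ`;
* `Rg G M w μ f`: `f` is the value of a Laurent polynomial of content `≥ μ`;
* `TStep`: a step of the value group, `G' = G + ℤ v(w)`.
-/

set_option autoImplicit false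

open Polynomial

namespace Pool.Agent.TWN

open Pool.Agent.H15JM (RVal)
open Pool.Agent.TWM (MS)

universe u

variable {k Ω : Type u} [Field k] [Field Ω] [Algebra k Ω] {v : RVal Ω} {G : AddSubgroup ℝ}
  {M : ℝ → Ω} {w : Ω}

/-- The value of a Laurent polynomial. -/
noncomputable def evP (M : ℝ → Ω) (w : Ω) (P : ℝ →₀ k[X]) : Ω := P.sum fun g f => M g * aeval w f

/-- The exponents are in `G`. -/
def InP (G : AddSubgroup ℝ) (P : ℝ →₀ k[X]) : Prop := ∀ g, P g ≠ 0 → g ∈ G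

/-- The content is `≥ μ`. -/
def Ct (μ : ℝ) (P : ℝ →₀ k[X]) : Prop := ∀ g, P g ≠ 0 → μ ≤ g

@[simp] theorem evP_zero : evP M w (0 : ℝ →₀ k[X]) = 0 := Finsupp.sum_zero_index

theorem evP_add (P Q : ℝ →₀ k[X]) : evP M w (P + Q) = evP M w P + evP M w Q := by
  classical
  rw [evP, Finsupp.sum_add_index']
  · rfl
  · intro g; rw [map_zero, mul_zero]
  · intro g a b; rw [map_add, mul_add]

theorem evP_neg (P : ℝ →₀ k[X]) : evP M w (-P) = - evP M w P := by
  have h := evP_add (M := M) (w := w) P (-P)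
  rw [add_neg_cancel, evP_zero] at h
  exact (neg_eq_of_add_eq_zero_right h.symm).symm

theorem evP_sub (P Q : ℝ →₀ k[X]) : evP M w (P - Q) = evP M w P - evP M w Q := by
  rw [sub_eq_add_neg, evP_add, evP_neg, sub_eq_add_neg]

theorem evP_single (g : ℝ) (f : k[X]) : evP M w (Finsupp.single g f) = M g * aeval w f := by
  rw [evP, Finsupp.sum_single_index]
  rw [map_zero, mul_zero]

theorem evP_sum {ι : Type*} (s : Finset ι) (P : ι → ℝ →₀ k[X]) :
    evP M w (∑ i ∈ s, P i) = ∑ i ∈ s, evP M w (P i) := by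
  classical
  induction s using Finset.induction_on with
  | empty => rw [Finset.sum_empty, Finset.sum_empty, evP_zero]
  | insert a s ha ih => rw [Finset.sum_insert ha, Finset.sum_insert ha, evP_add, ih]

theorem evP_eq_sum (P : ℝ →₀ k[X]) : evP M w P = ∑ g ∈ P.support, M g * aeval w (P g) := rfl

theorem InP.zero : InP G (0 : ℝ →₀ k[X]) := fun _ h => (h rfl).elim

theorem InP.add {P Q : ℝ →₀ k[X]} (h : InP G P) (h' : InP G Q) : InP G (P + Q) := by
  intro g hg
  by_cases h0 : P g = 0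
  · refine h' g fun h1 => hg ?_
    rw [Finsupp.add_apply, h0, h1, add_zero]
  · exact h g h0

theorem InP.neg {P : ℝ →₀ k[X]} (h : InP G P) : InP G (-P) := by
  intro g hg
  exact h g fun h1 => hg (by rw [Finsupp.neg_apply, h1, neg_zero])

theorem InP.sub {P Q : ℝ →₀ k[X]} (h : InP G P) (h' : InP G Q) : InP G (P - Q) := by
  rw [sub_eq_add_neg]
  exact h.add h'.neg

theorem InP.sum {ι : Type*} {s : Finset ι} {P : ι → ℝ →₀ k[X]} (h : ∀ i ∈ s, InP G (P i)) :
    InP G (∑ i ∈ s, P i) := by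
  classical
  induction s using Finset.induction_on with
  | empty => rw [Finset.sum_empty]; exact InP.zero
  | insert a s ha ih =>
    rw [Finset.sum_insert ha]
    exact (h a (Finset.mem_insert_self a s)).add
      (ih fun i hi => h i (Finset.mem_insert_of_mem hi))

theorem InP.single {g : ℝ} (hg : g ∈ G) (f : k[X]) : InP G (Finsupp.single g f) := by
  classical
  intro g' hg'
  rw [Finsupp.single_apply] at hg'
  split_ifs at hg' with h
  · rwa [← h]
  · exact (hg' rfl).elim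

theorem InP.mono {G' : AddSubgroup ℝ} (h : G ≤ G') {P : ℝ →₀ k[X]} (hP : InP G P) : InP G' P :=
  fun g hg => h (hP g hg)

theorem Ct.zero {μ : ℝ} : Ct μ (0 : ℝ →₀ k[X]) := fun _ h => (h rfl).elim

theorem Ct.add {μ : ℝ} {P Q : ℝ →₀ k[X]} (h : Ct μ P) (h' : Ct μ Q) : Ct μ (P + Q) := by
  intro g hg
  by_cases h0 : P g = 0
  · refine h' g fun h1 => hg ?_
    rw [Finsupp.add_apply, h0, h1, add_zero]
  · exact h g h0

theorem Ct.neg {μ : ℝ} {P : ℝ →₀ k[X]} (h : Ct μ P) : Ct μ (-P) := by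
  intro g hg
  exact h g fun h1 => hg (by rw [Finsupp.neg_apply, h1, neg_zero])

theorem Ct.sub {μ : ℝ} {P Q : ℝ →₀ k[X]} (h : Ct μ P) (h' : Ct μ Q) : Ct μ (P - Q) := by
  rw [sub_eq_add_neg]
  exact h.add h'.neg

theorem Ct.sum {ι : Type*} {μ : ℝ} {s : Finset ι} {P : ι → ℝ →₀ k[X]}
    (h : ∀ i ∈ s, Ct μ (P i)) : Ct μ (∑ i ∈ s, P i) := by
  classical
  induction s using Finset.induction_on with
  | empty => rw [Finset.sum_empty]; exact Ct.zero
  | insert a s ha ih =>
    rw [Finset.sum_insert ha]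
    exact (h a (Finset.mem_insert_self a s)).add
      (ih fun i hi => h i (Finset.mem_insert_of_mem hi))

theorem Ct.single {μ g : ℝ} (hg : μ ≤ g) (f : k[X]) : Ct μ (Finsupp.single g f) := by
  classical
  intro g' hg'
  rw [Finsupp.single_apply] at hg'
  split_ifs at hg' with h
  · rwa [← h]
  · exact (hg' rfl).elim

theorem Ct.mono {μ μ' : ℝ} (h : μ' ≤ μ) {P : ℝ →₀ k[X]} (hP : Ct μ P) : Ct μ' P :=
  fun g hg => h.trans (hP g hg)

/-- `f` is the value of a Laurent polynomial of content `≥ μ`. -/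
def Rg (k : Type u) {Ω : Type u} [Field k] [Field Ω] [Algebra k Ω] (G : AddSubgroup ℝ) (M : ℝ → Ω)
    (w : Ω) (μ : ℝ) (f : Ω) : Prop :=
  ∃ P : ℝ →₀ k[X], InP G P ∧ Ct μ P ∧ f = evP M w P

theorem Rg.zero {μ : ℝ} : Rg k G M w μ 0 := ⟨0, InP.zero, Ct.zero, evP_zero.symm⟩

theorem Rg.add {μ : ℝ} {f g : Ω} (hf : Rg k G M w μ f) (hg : Rg k G M w μ g) :
    Rg k G M w μ (f + g) := by
  obtain ⟨P, h1, h2, rfl⟩ := hf
  obtain ⟨Q, h3, h4, rfl⟩ := hg
  exact ⟨P + Q, h1.add h3, h2.add h4, (evP_add P Q).symm⟩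

theorem Rg.neg {μ : ℝ} {f : Ω} (hf : Rg k G M w μ f) : Rg k G M w μ (-f) := by
  obtain ⟨P, h1, h2, rfl⟩ := hf
  exact ⟨-P, h1.neg, h2.neg, (evP_neg P).symm⟩

theorem Rg.sub {μ : ℝ} {f g : Ω} (hf : Rg k G M w μ f) (hg : Rg k G M w μ g) :
    Rg k G M w μ (f - g) := by
  rw [sub_eq_add_neg]
  exact hf.add hg.neg

theorem Rg.sum {ι : Type*} {μ : ℝ} {s : Finset ι} {f : ι → Ω}
    (h : ∀ i ∈ s, Rg k G M w μ (f i)) : Rg k G M w μ (∑ i ∈ s, f i) := by
  classical
  induction s using Finset.induction_on with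
  | empty => rw [Finset.sum_empty]; exact Rg.zero
  | insert a s ha ih =>
    rw [Finset.sum_insert ha]
    exact (h a (Finset.mem_insert_self a s)).add
      (ih fun i hi => h i (Finset.mem_insert_of_mem hi))

theorem Rg.mono {μ μ' : ℝ} (h : μ' ≤ μ) {f : Ω} (hf : Rg k G M w μ f) : Rg k G M w μ' f := by
  obtain ⟨P, h1, h2, h3⟩ := hf
  exact ⟨P, h1, h2.mono h, h3⟩

theorem Rg.term {g : ℝ} (hg : g ∈ G) (f : k[X]) : Rg k G M w g (M g * aeval w f) :=
  ⟨Finsupp.single g f, InP.single hg f, Ct.single le_rfl f, (evP_single g f).symm⟩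

theorem Rg.mul (hM : MS v G M) {μ ν : ℝ} {f g : Ω} (hf : Rg k G M w μ f)
    (hg : Rg k G M w ν g) : Rg k G M w (μ + ν) (f * g) := by
  obtain ⟨P, h1, h2, rfl⟩ := hf
  obtain ⟨Q, h3, h4, rfl⟩ := hg
  rw [evP_eq_sum, evP_eq_sum, Finset.sum_mul_sum]
  refine Rg.sum fun a ha => Rg.sum fun b hb => ?_
  rw [Finsupp.mem_support_iff] at ha hb
  have e : M a * aeval w (P a) * (M b * aeval w (Q b)) =
      M (a + b) * aeval w (P a * Q b) := by
    rw [hM.mul a (h1 a ha) b (h3 b hb), map_mul]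
    ring
  rw [e]
  exact (Rg.term (G.add_mem (h1 a ha) (h3 b hb)) _).mono (add_le_add (h2 a ha) (h4 b hb))

theorem Rg.aeval (hM : MS v G M) (f : k[X]) : Rg k G M w 0 (Polynomial.aeval w f) := by
  have h := Rg.term (k := k) (M := M) (w := w) G.zero_mem f
  rwa [hM.zero, one_mul] at h

theorem Rg.const (hM : MS v G M) (c : k) : Rg k G M w 0 (algebraMap k Ω c) := by
  have h := Rg.aeval (w := w) hM (C c)
  rwa [aeval_C] at h

theorem Rg.one (hM : MS v G M) : Rg k G M w 0 1 := by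
  have h := Rg.const (w := w) hM (1 : k)
  rwa [map_one] at h

theorem Rg.pow (hM : MS v G M) {μ : ℝ} {f : Ω} (hf : Rg k G M w μ f) (n : ℕ) :
    Rg k G M w (n * μ) (f ^ n) := by
  induction n with
  | zero =>
    rw [Nat.cast_zero, zero_mul, pow_zero]
    exact Rg.one hM
  | succ n ih =>
    rw [pow_succ, Nat.cast_succ, add_mul, one_mul]
    exact ih.mul hM hf

theorem Rg.nsmul {μ : ℝ} {f : Ω} (hf : Rg k G M w μ f) (n : ℕ) : Rg k G M w μ (n • f) := by
  induction n with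
  | zero => rw [zero_smul]; exact Rg.zero
  | succ n ih => rw [add_smul, one_smul]; exact ih.add hf

/-! ### The monomials `M g * w ^ n` -/

/-- The terms of a Laurent polynomial: its value is the sum of `c * M g * w ^ n`. -/
theorem evP_eq_terms (P : ℝ →₀ k[X]) :
    evP M w P = ∑ g ∈ P.support, ∑ n ∈ (P g).support,
      algebraMap k Ω ((P g).coeff n) * (M g * w ^ n) := by
  rw [evP_eq_sum]
  refine Finset.sum_congr rfl fun g _ => ?_
  rw [aeval_eq_sum_range' (n := (P g).natDegree + 1) (Nat.lt_succ_self _), Finset.mul_sum]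
  rw [← Finset.sum_subset (s₁ := (P g).support) (s₂ := Finset.range ((P g).natDegree + 1))]
  · refine Finset.sum_congr rfl fun n _ => ?_
    rw [Algebra.smul_def]
    ring
  · intro n hn
    rw [Finset.mem_range]
    exact Nat.lt_succ_of_le (le_natDegree_of_mem_supp n hn)
  · intro n _ hn
    rw [notMem_support_iff] at hn
    rw [hn, zero_smul, mul_zero]

end Pool.Agent.TWN
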