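import Pool.Agent.Lib.TW_NFG.RM

/-!
# NFG, `s = 2`: a step divides the orders

* `SD.n4`: modulo `p`-th powers; `SD.n4'`: functions.
* `SD.uni`, `SD.uni1`: unimodular elements remain unimodular.
-/

set_option autoImplicit false

open Polynomial

namespace Pool.Agent.TWN

open Pool.Agent.H15JM (RVal)
open Pool.Agent.TWM (MS TL cadj VG)

universe u

variable {k Ω : Type u} [Field k] [Field Ω] [Algebra k Ω] {v : RVal Ω} {G G' : AddSubgroup ℝ}
  {M M' : ℝ → Ω} {w t : Ω} {m : ℕ} {j : ℝ → ℤ → ℤ}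

theorem phi_le {p : ℕ} (hp : p.Prime) {m n e : ℕ} (hm : 0 < m) (h : n * m ≤ e) :
    phi p n ≤ phi p e / m := by
  rw [Nat.le_div_iff_mul_le hm]
  unfold phi
  by_cases h1 : p ∣ n
  · rw [if_pos h1]
    by_cases h2 : p ∣ e
    · rwa [if_pos h2]
    · rw [if_neg h2]
      have h3 : n * m ≠ e := fun h3 => h2 (h3 ▸ h1.mul_right m)
      omega
  · rw [if_neg h1]
    have h3 : (n - 1) * m = n * m - m := by rw [Nat.sub_mul, one_mul]
    split_ifs <;> omega

theorem phi_eq_zero {p e : ℕ} (hp : p.Prime) : phi p e = 0 ↔ e ≤ 1 := by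
  unfold phi
  have := hp.one_lt
  split_ifs with h
  · constructor
    · omega
    · intro h1
      by_contra h2
      have := Nat.le_of_dvd (by omega) h
      omega
  · omega

/-- The minimum of the values on a Laurent polynomial. -/
theorem exists_nu {β L : ℝ} {e : ℕ} {P : ℝ →₀ k[X]} (he : (P L).coeff e ≠ 0) :
    ∃ ν, (∀ x ∈ terms P, ν ≤ vm β x) ∧ (∃ x ∈ terms P, vm β x = ν) ∧ ν ≤ L + e * β := by
  have h1 : ((L, e) : ℝ × ℕ) ∈ terms P := mem_terms.2 he
  obtain ⟨x, hx, hmin⟩ := (terms P).exists_min_image (vm β) ⟨_, h1⟩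
  exact ⟨vm β x, hmin, ⟨x, hx, rfl⟩, hmin _ h1⟩

theorem snd_le {β L ν : ℝ} (hβ : 0 < β) {e : ℕ} {P : ℝ →₀ k[X]} (hP : Ct L P)
    (hν : ν ≤ L + e * β) {x : ℝ × ℕ} (hx : x ∈ terms P) (hxν : vm β x = ν) : x.2 ≤ e := by
  have h1 := hP.terms hx
  unfold vm at hxν
  have h2 : (x.2 : ℝ) * β ≤ e * β := by linarith
  exact_mod_cast le_of_mul_le_mul_right h2 hβ

/-- **A step divides the orders**, functions. -/
theorem SD.n4' {c : k} {b : ℝ} {W : k[X]} (h : SD v G M w G' M' t m j c b W)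
    (hw : 0 < v w) {P : ℝ →₀ k[X]} (hP : InP G P) {L : ℝ} (hct : Ct L P) {e : ℕ}
    (he : (P L).coeff e ≠ 0) (σ : ℤ) (B : ℝ) :
    ∃ (P' : ℝ →₀ k[X]) (L' : ℝ), InP G' P' ∧ Ct L' P' ∧
      (∃ e', (P' L').coeff e' ≠ 0 ∧ e' ≤ e / m) ∧ (∀ x ∈ terms P, L' ≤ vm (v w) x) ∧
      (∃ x ∈ terms P, vm (v w) x = L') ∧
      v.Ge B (evP M w P * t ^ (-σ) - evP M' (aeval t W) P') := by
  obtain ⟨ν, hν1, hν2, hν3⟩ := exists_nu (β := v w) he
  obtain ⟨N, hN1, hN2⟩ : ∃ N : ℕ, e + 1 < N ∧ B ≤ ν + N * b := by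
    obtain ⟨n, hn⟩ := exists_nat_gt ((B - ν) / b)
    refine ⟨max n (e + 2), by omega, ?_⟩
    have h1 : (n : ℝ) ≤ (max n (e + 2) : ℕ) := by exact_mod_cast le_max_left _ _
    rw [div_lt_iff₀ h.bpos] at hn
    nlinarith [h.bpos]
  choose R hR using fun i => exists_apx h.cne h.W0 h.W1 N i
  obtain ⟨K, hK⟩ := exists_K (terms P) (fun g n => j g n - σ) one_pos
  rw [one_mul] at hK
  have hK' : ∀ x ∈ terms P, vm (v w) x = ν → 0 ≤ j x.1 x.2 - σ + K := fun x hx _ => hK x hx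
  obtain ⟨a, H, hH1, hH2, hH3⟩ := exists_line' h.ts σ hP hK' (l := 0) (e := e)
    (fun x hx hxν => ⟨Nat.zero_le _, snd_le hw hct hν3 hx hxν⟩) hν2
  rw [Nat.sub_zero] at hH2
  have hline := line_eq (c := c) (W := W) (N := N) (R := R) (β := v w) (j := fun g n => j g n - σ)
    (P := P) (ν := ν) (K := K) (fun x _ _ => hR _) hK'
  rw [hH1] at hline
  set P' := tr (v w) (fun g n => j g n - σ) R P with hP'
  have hdeg : H.natDegree < N := by
    have := Nat.div_le_self e m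
    omega
  have hord : ∀ n ≤ N, X ^ n ∣ P' ν → n ≤ H.natDegree := fun n hn hdvd =>
    order_le h.cne hH3 (dvd_of_order (a := a) h.dvd hn hline hdvd)
  have hf0 : P' ν ≠ 0 := by
    intro h0
    have := hord N le_rfl (by rw [h0]; exact dvd_zero _)
    omega
  have hf1 : X ^ (P' ν).natTrailingDegree ∣ P' ν := by
    rw [X_pow_dvd_iff]
    intro d hd
    exact coeff_eq_zero_of_lt_natTrailingDegree hd
  refine ⟨P', ν, ?_, Ct.tr hν1 R, ⟨(P' ν).natTrailingDegree, trailingCoeff_nonzero_iff_nonzero.2 hf0,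
    ?_⟩, hν1, hν2, ?_⟩
  · refine InP.sum fun x hx => InP.single ?_ _
    have h2 := h.ts.mem' (hP.terms hx) (x.2 : ℤ)
    exact_mod_cast h2
  · refine le_trans ?_ hH2
    refine hord _ ?_ hf1
    by_contra hcon
    have := hord N le_rfl ((pow_dvd_pow X (by omega)).trans hf1)
    omega
  · exact (h.tr_ge σ hP (fun x _ => hR _) hν1).mono hN2

/-- An element of `G` which is divisible by `p` in `G'` is so in `G`, when `p` does not divide
`m`. -/
theorem TStep.dvd_down (h : TStep v G M w G' M' t m j) {p : ℕ} (hp : p.Prime) (hm : ¬ p ∣ m) {g : ℝ}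
    (hg : g ∈ G) (hg' : ∃ d ∈ G', g = p * d) : ∃ d ∈ G, g = p * d := by
  obtain ⟨d, hd, hgd⟩ := hg'
  have hmd : (m : ℝ) * d ∈ G := by
    rw [h.eqG] at hd
    obtain ⟨a, ha, z, hz, rfl⟩ := AddSubgroup.mem_sup.1 hd
    obtain ⟨n, rfl⟩ := AddSubgroup.mem_zmultiples_iff.1 hz
    rw [mul_add]
    refine G.add_mem ?_ ?_
    · rw [← nsmul_eq_mul]
      exact G.nsmul_mem ha m
    · have h1 : (m : ℝ) * (n • v w) = n • ((m : ℝ) * v w) := by
        rw [zsmul_eq_mul, zsmul_eq_mul]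
        ring
      rw [h1]
      exact G.zsmul_mem h.mem n
  have hcop : IsCoprime (m : ℤ) (p : ℤ) := by
    rw [Nat.isCoprime_iff_coprime]
    exact ((Nat.Prime.coprime_iff_not_dvd hp).2 hm).symm
  obtain ⟨a, b, hab⟩ := hcop
  refine ⟨a * (m * d) + b * g, G.add_mem ?_ ?_, ?_⟩
  · rw [← zsmul_eq_mul]
    exact G.zsmul_mem hmd a
  · rw [← zsmul_eq_mul]
    exact G.zsmul_mem hg b
  · have h1 : ((a * m + b * p : ℤ) : ℝ) = 1 := by rw [hab]; norm_num
    push_cast at h1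
    calc g = (a * m + b * p) * g := by rw [h1, one_mul]
      _ = p * (a * (m * d) + b * g) := by
        rw [mul_add]
        have : (a : ℝ) * m * g = p * (a * (m * d)) := by rw [hgd]; ring
        linear_combination this

/-- The exponents of a line whose value is divisible by `p`. -/
theorem SD.line_npd {c : k} {b : ℝ} {W : k[X]} (h : SD v G M w G' M' t m j c b W)
    {p : ℕ} {P : ℝ →₀ k[X]} (hP : InP G P) (hnpd : NPD p G P) {ν : ℝ}
    (hν : ∃ d ∈ G', ν = p * d) {σ : ℤ} (hσ : (p : ℤ) ∣ σ) {K : ℕ} (hK : p ∣ K)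
    (hK' : ∀ x ∈ terms P, vm (v w) x = ν → 0 ≤ j x.1 x.2 - σ + K) {n : ℕ} (hn : p ∣ n) :
    (lineP (v w) (fun g n => j g n - σ) P ν K).coeff n = 0 := by
  by_contra hcon
  obtain ⟨x, hx, hxν, (hxn : n = (j x.1 x.2 - σ + K).toNat)⟩ := coeff_lineP_ne hcon
  have h1 := hK' x hx hxν
  have h2 : (p : ℤ) ∣ j x.1 x.2 := by
    have h3 : (p : ℤ) ∣ (n : ℤ) := Int.natCast_dvd_natCast.2 hn
    have h4 : (p : ℤ) ∣ (K : ℤ) := Int.natCast_dvd_natCast.2 hK
    have h5 : j x.1 x.2 = n + σ - K := by omega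
    rw [h5]
    exact dvd_sub (dvd_add h3 hσ) h4
  obtain ⟨d, hd, hνd⟩ := hν
  have h3 := h.ts.dvd (hP.terms hx) (n := x.2) ⟨d, hd, by
    push_cast
    rw [← hνd]
    exact hxν⟩ h2
  exact hnpd x hx ⟨h3.1, by exact_mod_cast h3.2⟩

/-- **A step divides the orders**, modulo `p`-th powers. -/
theorem SD.n4 [IsAlgClosed k] (p : ℕ) [hp : Fact p.Prime] [CharP k p] [CharP Ω p] {c : k} {b : ℝ}
    {W : k[X]} (h : SD v G M w G' M' t m j c b W) (hw : 0 < v w) {P : ℝ →₀ k[X]} (hP : InP G P)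
    (hnpd : NPD p G P) {L : ℝ} (hct : Ct L P) {e : ℕ} (he : (P L).coeff e ≠ 0) {σ : ℤ}
    (hσ : (p : ℤ) ∣ σ) (B : ℝ) :
    ∃ (P' Q : ℝ →₀ k[X]) (L' : ℝ), InP G' P' ∧ InP G' Q ∧ NPD p G' P' ∧ Ct L' P' ∧
      (∃ e', (P' L').coeff e' ≠ 0 ∧ phi p e' ≤ phi p e / m) ∧
      (∀ x ∈ terms P, L' ≤ vm (v w) x) ∧ (∃ x ∈ terms P, vm (v w) x = L') ∧
      v.Ge B (evP M w P * t ^ (-σ) -
        (evP M' (aeval t W) Q ^ p + evP M' (aeval t W) P')) := by
  classical
  obtain ⟨ν, hν1, hν2, hν3⟩ := exists_nu (β := v w) he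
  obtain ⟨N, hN1, hN2⟩ : ∃ N : ℕ, e + 1 < N ∧ B ≤ ν + N * b := by
    obtain ⟨n, hn⟩ := exists_nat_gt ((B - ν) / b)
    refine ⟨max n (e + 2), by omega, ?_⟩
    have h1 : (n : ℝ) ≤ (max n (e + 2) : ℕ) := by exact_mod_cast le_max_left _ _
    rw [div_lt_iff₀ h.bpos] at hn
    nlinarith [h.bpos]
  choose R hR using fun i => exists_apx h.cne h.W0 h.W1 N i
  obtain ⟨K₀, hK⟩ := exists_K (terms P) (fun g n => j g n - σ) hp.out.pos
  set K := p * K₀ with hKdef
  have hK' : ∀ x ∈ terms P, vm (v w) x = ν → 0 ≤ j x.1 x.2 - σ + K := fun x hx _ => hK x hx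
  have hsnd : ∀ x ∈ terms P, vm (v w) x = ν → x.2 ≤ e := fun x hx hxν =>
    snd_le hw hct hν3 hx hxν
  have hline := line_eq (c := c) (W := W) (N := N) (R := R) (β := v w) (j := fun g n => j g n - σ)
    (P := P) (ν := ν) (K := K) (fun x _ _ => hR _) hK'
  set T := tr (v w) (fun g n => j g n - σ) R P with hT
  have hTG : InP G' T := by
    refine InP.sum fun x hx => InP.single ?_ _
    have h2 := h.ts.mem' (hP.terms hx) (x.2 : ℤ)
    exact_mod_cast h2
  have hTν : Ct ν T := Ct.tr hν1 R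
  obtain ⟨Q, hQ1, hQ2, -⟩ := exists_rm (w := aeval t W) p h.ts.ms' T
  have hval := (h.tr_ge σ hP (fun x _ => hR _) hν1).mono hN2
  rw [← hT, hQ2] at hval
  refine ⟨rst {x | ¬ PD p G' x} T, Q, ν, hTG.rst _, hQ1, npd_rst p T, hTν.rst _, ?_, hν1, hν2, hval⟩
  by_cases hνp : ∃ d ∈ G', ν = p * d
  · -- the value is divisible by `p`
    obtain ⟨l, hl1, hl2⟩ : ∃ l, (∀ x ∈ terms P, vm (v w) x = ν → l ≤ x.2 ∧ x.2 ≤ e) ∧
        ∀ n, n ≤ (e - l) / m → n ≤ phi p e / m := by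
      by_cases hpe : p ∣ e
      · refine ⟨0, fun x hx hxν => ⟨Nat.zero_le _, hsnd x hx hxν⟩, fun n hn => ?_⟩
        unfold phi
        rwa [if_pos hpe]
      · by_cases hpm : p ∣ m
        · refine ⟨0, fun x hx hxν => ⟨Nat.zero_le _, hsnd x hx hxν⟩, fun n hn => ?_⟩
          rw [Nat.sub_zero, Nat.le_div_iff_mul_le h.ts.mpos] at hn
          unfold phi
          rw [if_neg hpe, Nat.le_div_iff_mul_le h.ts.mpos]
          have h3 : n * m ≠ e := fun h3 => hpe (h3 ▸ hpm.mul_left n)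
          omega
        · refine ⟨1, fun x hx hxν => ⟨?_, hsnd x hx hxν⟩, fun n hn => ?_⟩
          · by_contra hcon
            have h0 : x.2 = 0 := by omega
            have h1 : x.1 = ν := by
              unfold vm at hxν
              rw [h0, Nat.cast_zero, zero_mul, add_zero] at hxν
              exact hxν
            exact hnpd x hx ⟨h.ts.dvd_down hp.out hpm (hP.terms hx) (by rw [h1]; exact hνp),
              by rw [h0]; exact dvd_zero _⟩
          · unfold phi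
            rwa [if_neg hpe]
    obtain ⟨a, H, hH1, hH2, hH3⟩ := exists_line' h.ts σ hP hK' hl1 hν2
    have hF : ∀ n, p ∣ n → (X ^ a * H).coeff n = 0 := fun n hn => by
      rw [← hH1]
      exact h.line_npd hP hnpd hνp hσ (Dvd.intro _ rfl) hK' hn
    rw [hH1] at hline
    have hdeg : H.natDegree ≤ e := hH2.trans ((Nat.div_le_self _ _).trans (Nat.sub_le _ _))
    have hord : ∀ n < N, X ^ n ∣ derivative (T ν) → n ≤ H.natDegree := fun n hn hdvd =>
      order_deriv_le p h.cne hH3 hF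
        (dvd_of_order_deriv p h.dvd hn (Dvd.intro _ rfl) hline hdvd)
    set D := derivative (T ν) with hD
    have hD0 : D ≠ 0 := by
      intro h0
      have := hord (N - 1) (by omega) (by rw [h0]; exact dvd_zero _)
      omega
    have hD1 : X ^ D.natTrailingDegree ∣ D := by
      rw [X_pow_dvd_iff]
      intro d hd
      exact coeff_eq_zero_of_lt_natTrailingDegree hd
    have hn1 : D.natTrailingDegree ≤ H.natDegree := by
      by_cases hcon : D.natTrailingDegree < N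
      · exact hord _ hcon hD1
      · have := hord (N - 1) (by omega) ((pow_dvd_pow X (by omega)).trans hD1)
        omega
    set n := D.natTrailingDegree with hn
    have hc : D.coeff n ≠ 0 := trailingCoeff_nonzero_iff_nonzero.2 hD0
    rw [hD, coeff_derivative] at hc
    have hc1 := left_ne_zero_of_mul hc
    have hc2 : ¬ p ∣ n + 1 := by
      intro h1
      apply right_ne_zero_of_mul hc
      have h2 : ((n : k) + 1) = ((n + 1 : ℕ) : k) := by push_cast; ring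
      rw [h2, (CharP.cast_eq_zero_iff k p (n + 1)).2 h1]
    refine ⟨n + 1, ?_, ?_⟩
    · rw [coeff_rst, if_pos]
      · exact hc1
      · intro h1
        exact hc2 h1.2
    · have h1 : phi p (n + 1) = n := by
        unfold phi
        rw [if_neg hc2, Nat.add_sub_cancel]
      rw [h1]
      exact hl2 n (hn1.trans hH2)
  · -- the value is not divisible by `p`
    obtain ⟨a, H, hH1, hH2, hH3⟩ := exists_line' h.ts σ hP hK' (l := 0) (e := e)
      (fun x hx hxν => ⟨Nat.zero_le _, hsnd x hx hxν⟩) hν2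
    rw [Nat.sub_zero] at hH2
    rw [hH1] at hline
    have hdeg : H.natDegree < N := by
      have := Nat.div_le_self e m
      omega
    have hord : ∀ n ≤ N, X ^ n ∣ T ν → n ≤ H.natDegree := fun n hn hdvd =>
      order_le h.cne hH3 (dvd_of_order (a := a) h.dvd hn hline hdvd)
    have hf0 : T ν ≠ 0 := by
      intro h0
      have := hord N le_rfl (by rw [h0]; exact dvd_zero _)
      omega
    have hf1 : X ^ (T ν).natTrailingDegree ∣ T ν := by
      rw [X_pow_dvd_iff]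
      intro d hd
      exact coeff_eq_zero_of_lt_natTrailingDegree hd
    refine ⟨(T ν).natTrailingDegree, ?_, ?_⟩
    · rw [coeff_rst, if_pos]
      · exact trailingCoeff_nonzero_iff_nonzero.2 hf0
      · intro h1
        exact hνp h1.1
    · refine phi_le hp.out h.ts.mpos ?_
      rw [← Nat.le_div_iff_mul_le h.ts.mpos]
      refine le_trans ?_ hH2
      refine hord _ ?_ hf1
      by_contra hcon
      have := hord N le_rfl ((pow_dvd_pow X (by omega)).trans hf1)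
      omega

/-- A unimodular element remains unimodular. -/
theorem SD.uni [IsAlgClosed k] (p : ℕ) [hp : Fact p.Prime] [CharP k p] [CharP Ω p] {c : k} {b : ℝ}
    {W : k[X]} (h : SD v G M w G' M' t m j c b W) (hw : 0 < v w) {P : ℝ →₀ k[X]} {L : ℝ}
    (hP : Uni p G P L) {σ : ℤ} (hσ : (p : ℤ) ∣ σ) (B : ℝ) :
    ∃ (P' Q : ℝ →₀ k[X]) (L' : ℝ), Uni p G' P' L' ∧ InP G' Q ∧
      (∀ x ∈ terms P, L' ≤ vm (v w) x) ∧
      v.Ge B (evP M w P * t ^ (-σ) -
        (evP M' (aeval t W) Q ^ p + evP M' (aeval t W) P')) := by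
  obtain ⟨e, he1, he2⟩ := hP.uni
  obtain ⟨P', Q, L', h1, h2, h3, h4, ⟨e', h5, h6⟩, h7, -, h8⟩ :=
    h.n4 p hw hP.inP hP.npd hP.ct he2 hσ B
  rw [(phi_eq_zero hp.out).2 he1, Nat.zero_div, Nat.le_zero, phi_eq_zero hp.out] at h6
  exact ⟨P', Q, L', ⟨h1, h3, h4, e', h6, h5⟩, h2, h7, h8⟩

/-- A unimodular function remains unimodular. -/
theorem SD.uni1 {c : k} {b : ℝ} {W : k[X]} (h : SD v G M w G' M' t m j c b W)
    (hw : 0 < v w) {P : ℝ →₀ k[X]} {L : ℝ} (hP : Uni1 G P L) (σ : ℤ) (B : ℝ) :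
    ∃ (P' : ℝ →₀ k[X]) (L' : ℝ), Uni1 G' P' L' ∧ (∀ x ∈ terms P, L' ≤ vm (v w) x) ∧
      v.Ge B (evP M w P * t ^ (-σ) - evP M' (aeval t W) P') := by
  obtain ⟨P', L', h1, h2, ⟨e', h3, h4⟩, h5, -, h6⟩ := h.n4' hw hP.inP hP.ct hP.uni σ B
  rw [Nat.zero_div, Nat.le_zero] at h4
  subst h4
  exact ⟨P', L', ⟨h1, h2, h3⟩, h5, h6⟩

end Pool.Agent.TWN
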