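import Pool.Agent.Lib.TW_NFG.NX

/-!
# NFG, `s = 2`: the markers after a step

* `trP`: the transformed family; `SS`: the data of a step, with the family;
* `Nx.mk'`, `Nx.tm'`: the markers and the `T`-edge at the new frame;
* `Nx.not_con`: the end of the chain.
-/

set_option autoImplicit false

open Polynomial

namespace Pool.Agent.TWN

open Pool.Agent.H15JM (RVal)
open Pool.Agent.TWM (MS TL cadj VG)

universe u

variable {k Ω : Type u} [Field k] [Field Ω] [Algebra k Ω] {v : RVal Ω} {G G' : AddSubgroup ℝ}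
  {M M' : ℝ → Ω} {w t : Ω} {m : ℕ} {j : ℝ → ℤ → ℤ} {c : k} {b : ℝ} {W : k[X]}

theorem rst_zero (S : Set (ℝ × ℕ)) : rst S (0 : ℝ →₀ k[X]) = 0 := by
  classical
  ext g n
  rw [coeff_rst]
  split_ifs <;> rfl

/-- The transformed family. -/
noncomputable def trP (p : ℕ) (G' : AddSubgroup ℝ) (β : ℝ) (j : ℝ → ℤ → ℤ) (σ : ℤ) (R : ℤ → k[X])
    (P : ℕ → ℝ →₀ k[X]) (i : ℕ) : ℝ →₀ k[X] :=
  open Classical in if p ∣ i then rst {x | ¬ PD p G' x} (tr β (fun g n => j g n - σ) R (P i))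
  else tr β (fun g n => j g n - σ) R (P i)

theorem trP_zero {p : ℕ} {β : ℝ} {σ : ℤ} {R : ℤ → k[X]} {P : ℕ → ℝ →₀ k[X]} {i : ℕ}
    (h : P i = 0) : trP p G' β j σ R P i = 0 := by
  unfold trP
  rw [h, tr_zero, rst_zero, ite_self]

theorem trP_ct {p : ℕ} {β : ℝ} {σ : ℤ} {R : ℤ → k[X]} {P : ℕ → ℝ →₀ k[X]} {i : ℕ} {μ : ℝ}
    (h : ∀ x ∈ terms (P i), μ ≤ vm β x) : Ct μ (trP p G' β j σ R P i) := by
  unfold trP
  split_ifs
  · exact (Ct.tr h R).rst _
  · exact Ct.tr h R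

theorem trP_npd {p : ℕ} {β : ℝ} {σ : ℤ} {R : ℤ → k[X]} {P : ℕ → ℝ →₀ k[X]} {i : ℕ}
    (h : p ∣ i) : NPD p G' (trP p G' β j σ R P i) := by
  unfold trP
  rw [if_pos h]
  exact npd_rst p _

theorem num_le {p d Mb m E e : ℕ} (hm : 0 < m) (hE : E + 1 ≤ d * Mb)
    (he : e ≤ E / m ∨ (p ∣ d ∧ ¬ p ∣ e ∧ e ≤ E / m + 1)) :
    e + 1 ≤ d * ((Mb - 1) / m + 1) := by
  have h1 : E / m < d * ((Mb - 1) / m + 1) := by
    apply Nat.div_lt_of_lt_mul
    have h2 : Mb - 1 < m * ((Mb - 1) / m + 1) := Nat.lt_mul_div_succ _ hm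
    have h3 : Mb ≤ m * ((Mb - 1) / m + 1) := by omega
    have h4 : d * Mb ≤ d * (m * ((Mb - 1) / m + 1)) := Nat.mul_le_mul_left _ h3
    have h5 : m * (d * ((Mb - 1) / m + 1)) = d * (m * ((Mb - 1) / m + 1)) := by ring
    omega
  rcases he with he | ⟨h2, h3, h4⟩
  · omega
  · have h5 : e ≠ d * ((Mb - 1) / m + 1) := fun h5 => h3 (h5 ▸ h2.mul_right _)
    omega

theorem num_cl {Q Mb m E n : ℕ} (hQ : 0 < Q) (hE : E + 1 ≤ Q * Mb)
    (hn : n < Q * (E / m / Q + 1)) : n + 1 ≤ Q * ((Mb - 1) / m + 1) := by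
  have h1 : E / m / Q ≤ (Mb - 1) / m := by
    rw [Nat.div_div_eq_div_mul, mul_comm m Q, ← Nat.div_div_eq_div_mul]
    apply Nat.div_le_div_right
    have h2 : E / Q < Mb := Nat.div_lt_of_lt_mul (by omega)
    omega
  have h2 : Q * (E / m / Q + 1) ≤ Q * ((Mb - 1) / m + 1) := Nat.mul_le_mul_left _ (by omega)
  omega

/-- The class monomials of the index `τ` do not matter. -/
def Clean (q τ Q : ℕ) (G : AddSubgroup ℝ) (lam : ℝ) (nA : ℕ) (s β : ℝ) (P : ℕ → ℝ →₀ k[X]) : Prop :=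
  ∀ x ∈ terms (P τ), Cl Q G lam nA x → (∀ y ∈ terms (P τ), vm β x ≤ vm β y) →
    ∀ a : ℝ, vm β x = lam + nA * β + Q * a → s ≤ a ∨
      ∃ i, τ < i ∧ i < q ∧ ∃ y ∈ terms (P i), vm β y ≤ lam + nA * β + ((q : ℝ) - i) * a

/-- The data of a step, with the family. -/
structure SS (p q τ Q j₀ : ℕ) (v : RVal Ω) (G : AddSubgroup ℝ) (M : ℝ → Ω) (w : Ω)
    (G' : AddSubgroup ℝ) (M' : ℝ → Ω) (t : Ω) (m : ℕ) (j : ℝ → ℤ → ℤ) (c : k) (b : ℝ) (W : k[X])
    (lam : ℝ) (nA nA' e : ℕ) (r : ℤ) (P : ℕ → ℝ →₀ k[X]) (N : ℕ) (R : ℤ → k[X]) (Mb : ℕ) :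
    Prop where
  sd : SD v G M w G' M' t m j c b W
  prm : Prm p q τ Q
  hQ : Q = p ^ j₀
  hj : 1 ≤ j₀
  lamG : lam ∈ G
  nA1 : nA ≤ 1
  hr : j lam nA = e + (p ^ j₀ : ℕ) * r
  ty : Ty p G' (lam + nA * v w) nA' e c W
  inP : ∀ i < q, InP G (P i)
  npd : ∀ i < q, p ∣ i → NPD p G (P i)
  hix : ∀ i < q, P i ≠ 0 → Ix p i
  apx : ∀ i, Apx c W N i (R i)
  nb : 2 * (q * Mb) + 2 ≤ N
  nx : ∀ i < q, ∀ x ∈ terms (P i), x.2 + 2 < N
  mb : 1 ≤ Mb

section char

variable {p q τ Q j₀ : ℕ} [hp : Fact p.Prime] [CharP k p] {lam : ℝ} {nA nA' e : ℕ} {r : ℤ}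
  {P : ℕ → ℝ →₀ k[X]} {N : ℕ} {R : ℤ → k[X]} {Mb : ℕ}

namespace SS

omit [CharP k p] in
theorem hσ (h : SS p q τ Q j₀ v G M w G' M' t m j c b W lam nA nA' e r P N R Mb) :
    (p : ℤ) ∣ (p ^ j₀ : ℕ) * r :=
  (Int.natCast_dvd_natCast.2 (dvd_pow_self p (by have := h.hj; omega))).mul_right r

omit hp [CharP k p] in
theorem pq (h : SS p q τ Q j₀ v G M w G' M' t m j c b W lam nA nA' e r P N R Mb) {i : ℕ}
    (hpi : p ∣ i) : p ∣ q - i := Nat.dvd_sub h.prm.hpq hpi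

/-- A small exponent. -/
theorem ex (h : SS p q τ Q j₀ v G M w G' M' t m j c b W lam nA nA' e r P N R Mb) {i : ℕ}
    (hi : i < q) {ν : ℝ} {E : ℕ} (hEN : E + 1 < N)
    (hE : ∀ x ∈ terms (P i), vm (v w) x = ν → x.2 ≤ E)
    (hne : ∃ x ∈ terms (P i), vm (v w) x = ν) :
    ∃ n, (trP p G' (v w) j ((p ^ j₀ : ℕ) * r) R P i ν).coeff n ≠ 0 ∧
      (n ≤ E / m ∨ (p ∣ q - i ∧ ¬ p ∣ n ∧ n ≤ E / m + 1)) := by
  unfold trP
  by_cases hpi : p ∣ i
  · rw [if_pos hpi]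
    obtain ⟨n, h1, h2⟩ := h.sd.exF p h.hσ h.apx (h.inP i hi) (h.npd i hi hpi) hEN hE hne
    exact ⟨n, h1, h2.imp id fun h3 => ⟨h.pq hpi, h3.1, h3.2⟩⟩
  · rw [if_neg hpi]
    obtain ⟨n, h1, h2⟩ := h.sd.exf h.apx (h.inP i hi) (by omega) hE hne
      (σ := (p ^ j₀ : ℕ) * r)
    exact ⟨n, h1, Or.inl h2⟩

/-- The coefficient at the lowest line. -/
theorem ne (h : SS p q τ Q j₀ v G M w G' M' t m j c b W lam nA nA' e r P N R Mb) {i : ℕ}
    (hi : i < q) {ν : ℝ} (hne : ∃ x ∈ terms (P i), vm (v w) x = ν) :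
    trP p G' (v w) j ((p ^ j₀ : ℕ) * r) R P i ν ≠ 0 := by
  have hN : 2 < N := by
    obtain ⟨x, hx, -⟩ := hne
    have := h.nx i hi x hx
    omega
  obtain ⟨n, h1, -⟩ := h.ex hi (E := N - 2) (by omega) (fun x hx _ => by
    have := h.nx i hi x hx
    omega) hne
  intro h0
  rw [h0, coeff_zero] at h1
  exact h1 rfl

end SS

/-- **The markers at the new frame.** -/
theorem Nx.mk' (h : SS p q τ Q j₀ v G M w G' M' t m j c b W lam nA nA' e r P N R Mb)
    {lam' A' s : ℝ} {Lam' Phi : ℕ → ℝ} (hN : Nx p q τ Q lam' A' s Mb (v w) Lam' Phi P)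
    (hL : LD (v w) q P Phi) :
    Mk p q τ Q lam' A' s ((Mb - 1) / m + 1) Lam'
      (trP p G' (v w) j ((p ^ j₀ : ℕ) * r) R P) := by
  have hown : ∀ i, Own2 p q lam' A' Mb (v w) Lam' Phi P i → Own p q lam' A' ((Mb - 1) / m + 1)
      Lam' (trP p G' (v w) j ((p ^ j₀ : ℕ) * r) R P) i := by
    intro i hi
    refine ⟨hi.lt, hi.ix, ?_, hi.fr, hi.frq⟩
    have hlt := hi.lt
    have hpos : 1 ≤ (q - i) * Mb := Nat.mul_pos (by omega) h.mb
    have hle : (q - i) * Mb ≤ q * Mb := Nat.mul_le_mul_right _ (Nat.sub_le _ _)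
    obtain ⟨n, h1, h2⟩ := h.ex hi.lt (ν := Phi i) (E := (q - i) * Mb - 1)
      (by have := h.nb; omega) (fun x hx hxν => by have := hi.bd x hx hxν; omega)
      (hL i hi.lt hi.ne).2
    refine ⟨n, num_le h.sd.ts.mpos (by omega) h2, ?_⟩
    rw [hi.eq]
    exact h1
  refine ⟨?_, hN.tau, hN.le, hN.leq, ?_, hN.top, hN.cap⟩
  · intro i hi
    by_cases h0 : P i = 0
    · rw [trP_zero h0]
      exact Ct.zero
    · exact trP_ct fun x hx => (hN.ph i hi (h.hix i hi h0) h0).trans ((hL i hi h0).1 x hx)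
  · intro i hi hix hiτ
    rcases hN.mark i hi hix hiτ with h1 | ⟨l, h1, h2, h3, h4⟩ | h1
    · exact Or.inl (hown i h1)
    · exact Or.inr (Or.inl ⟨l, h1, h2, hown l h3, h4⟩)
    · exact Or.inr (Or.inr h1)

/-- **The `T`-edge at the new frame.** -/
theorem Nx.tm' [IsAlgClosed k]
    (h : SS p q τ Q j₀ v G M w G' M' t m j c b W lam nA nA' e r P N R Mb)
    {A' s : ℝ} {Lam' Phi : ℕ → ℝ} (hN : Nx p q τ Q (lam + nA * v w) A' s Mb (v w) Lam' Phi P)
    (hL : LD (v w) q P Phi) (hcl : Clean q τ Q G lam nA s (v w) P) :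
    TM p q τ Q G' (lam + nA * v w) nA' A' s ((Mb - 1) / m + 1) Lam'
      (trP p G' (v w) j ((p ^ j₀ : ℕ) * r) R P) 0 := by
  have hτq : τ < q := by have := h.prm.hq; have := h.prm.hQ; omega
  have hpτ : p ∣ τ := by
    have h1 : τ = q - Q := by have := h.prm.hq; omega
    rw [h1]
    exact Nat.dvd_sub h.prm.hpq h.prm.hpQ
  by_cases hs : A' = s
  · exact Or.inl (by rw [hs, sub_self])
  rcases hN.edge with h1 | h1 | ⟨h1, h2, h3, h4, h5⟩
  · exact absurd h1 hs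
  · exact Or.inr (Or.inl h1)
  · refine Or.inr (Or.inr ⟨h1, ?_⟩)
    have hQ0 : 0 < Q := by have := h.prm.hQ; omega
    have hlt : A' < s := lt_of_le_of_ne hN.cap hs
    have hcl' : ∀ x ∈ terms (P τ), vm (v w) x = Phi τ → ¬ Cl (p ^ j₀) G lam nA x := by
      intro x hx hxν hxc
      rw [← h.hQ] at hxc
      rcases hcl x hx hxc (fun y hy => by rw [hxν]; exact (hL τ hτq h3).1 y hy) A'
        (by rw [hxν, h4]) with h6 | ⟨i, h6, h7, y, hy, h8⟩
      · linarith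
      · have h9 : P i ≠ 0 := ne_zero_of_coeff (mem_terms.1 hy)
        have h10 := h2 i h6 h7 (h.hix i h7 h9) h9
        have h11 := (hL i h7 h9).1 y hy
        linarith
    have hpos : 1 ≤ Q * Mb := Nat.mul_pos hQ0 h.mb
    have hle : Q * Mb ≤ q * Mb := Nat.mul_le_mul_right _ (by have := h.prm.hq; omega)
    have hnb := h.nb
    have hEN : p ^ j₀ * ((Q * Mb - 1) / m / p ^ j₀ + 1) ≤ N := by
      rw [← h.hQ, mul_add, mul_one]
      have h6 : Q * ((Q * Mb - 1) / m / Q) ≤ Q * Mb - 1 :=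
        (Nat.mul_div_le _ _).trans (Nat.div_le_self _ _)
      have h7 : Q ≤ Q * Mb := Nat.le_mul_of_pos_right _ h.mb
      omega
    obtain ⟨n, h6, h7, h8⟩ := h.sd.exC p h.hj h.lamG h.nA1 h.hr h.ty h.apx (h.inP τ hτq)
      (h.npd τ hτq hpτ) (ν := Phi τ) hcl' (E := Q * Mb - 1) hEN
      (fun x hx hxν => by have := h5 x hx hxν; omega) (hL τ hτq h3).2
    rw [← h.hQ] at h6
    refine ⟨n, num_cl hQ0 (by omega) h6, ?_, ?_⟩
    · unfold trP
      rw [if_pos hpτ, ← h4]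
      exact h8
    · rw [← h4, h.hQ]
      exact h7

/-- **The end of the chain.** -/
theorem Nx.not_con [IsAlgClosed k]
    (h : SS p q τ Q j₀ v G M w G' M' t m j c b W lam nA nA' e r P N R 1)
    {A' s : ℝ} {Lam' Phi : ℕ → ℝ} (hN : Nx p q τ Q (lam + nA * v w) A' s 1 (v w) Lam' Phi P)
    (hL : LD (v w) q P Phi) (hcl : Clean q τ Q G lam nA s (v w) P) (hm : 2 ≤ m) {Z : Ω}
    (hZ : v Z < s)
    (hbd : Bd p q τ Q (lam + nA * v w) A' (v w) 1 Phi P) :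
    ¬ Con p q τ v G' Z (trP p G' (v w) j ((p ^ j₀ : ℕ) * r) R P) (lam + nA * v w) nA' := by
  classical
  rintro ⟨c₀, hc₀, hct, hcon⟩
  have hτq : τ < q := by have := h.prm.hq; have := h.prm.hQ; omega
  have hq : (q : ℝ) = τ + Q := by rw [h.prm.hq]; push_cast; ring
  have hpτ : p ∣ τ := by
    have h1 : τ = q - Q := by have := h.prm.hq; omega
    rw [h1]
    exact Nat.dvd_sub h.prm.hpq h.prm.hpQ
  have hnb := h.nb
  have hmpos := h.sd.ts.mpos
  set lam' := lam + nA * v w with hlam'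
  set P' := trP p G' (v w) j ((p ^ j₀ : ℕ) * r) R P with hP'
  -- the lowest coefficients
  have hlow : ∀ i < q, P i ≠ 0 → P' i (Phi i) ≠ 0 := fun i hi h0 => h.ne hi (hL i hi h0).2
  have hmu : ∀ i < q, P i ≠ 0 → mu q lam' c₀ i ≤ Phi i := fun i hi h0 =>
    hct i hi _ (hlow i hi h0)
  have hP0 : ∀ i, P' i (mu q lam' c₀ i) ≠ 0 → P i ≠ 0 := fun i h1 h0 => h1 (by
    rw [hP', trP_zero h0]
    rfl)
  have hctP : ∀ i < q, P i ≠ 0 → Ct (Phi i) (P' i) := fun i hi h0 => trP_ct (hL i hi h0).1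
  have heq : ∀ i < q, P' i (mu q lam' c₀ i) ≠ 0 → mu q lam' c₀ i = Phi i := fun i hi h1 =>
    le_antisymm (hmu i hi (hP0 i h1)) (hctP i hi (hP0 i h1) _ h1)
  -- the slope
  have hcA : c₀ ≤ A' := by
    have key : ∀ i, τ ≤ i → i < q → P i ≠ 0 → Phi i = lam' + ((q : ℝ) - i) * A' → c₀ ≤ A' := by
      intro i h1 h2 h3 h4
      have h5 := hmu i h2 h3
      rw [h4, mu] at h5
      have h6 : (i : ℝ) < q := by exact_mod_cast h2
      have h7 : ((q : ℝ) - i) * c₀ ≤ (q - i) * A' := by linarith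
      exact le_of_mul_le_mul_left h7 (by linarith)
    rcases hN.edge with h1 | ⟨i, h1, h2, h3, h4⟩ | ⟨-, -, h3, h4, -⟩
    · linarith
    · rcases hN.mark i h2 h3 (by omega) with h5 | ⟨l, h5, -, h7, h8⟩ | ⟨h5, -⟩
      · exact key i h1.le h2 h5.ne (by rw [← h5.eq, h4])
      · refine key l (h1.le.trans h5.1.le) h7.lt h7.ne ?_
        rw [← h7.eq]
        rw [h4] at h8
        linarith
      · exact absurd h5 (h.prm.nsq i h1 h2)
    · refine key τ le_rfl hτq h3 ?_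
      rw [h4, hq]
      ring
  -- the exponents on a line
  have hexp : ∀ i < q, P' i (mu q lam' c₀ i) ≠ 0 → ∀ x ∈ terms (P i),
      vm (v w) x = Phi i → x.2 ≤ q - i - 1 := by
    intro i hi h1 x hx hxν
    have h2 := heq i hi h1
    have h0 := hP0 i h1
    by_cases hiτ : i = τ
    · subst hiτ
      have h3 : Phi i ≤ lam' + Q * A' := by
        rw [← h2, mu, hq]
        have h4 : (Q : ℝ) * c₀ ≤ Q * A' := mul_le_mul_of_nonneg_left hcA (Nat.cast_nonneg _)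
        linarith
      have h4 := hbd.2 h3 x hx hxν
      have := h.prm.hq
      omega
    · have h3 := hbd.1 i hi (h.hix i hi h0) hiτ (fun l h3 h4 _ _ h6 => by
        have h7 := hmu l h4 h6
        rw [← h2, mu]
        rw [mu] at h7
        have h8 : (i : ℝ) < l := by exact_mod_cast h3.1
        have h9 : ((l : ℝ) - i) * c₀ ≤ (l - i) * A' := mul_le_mul_of_nonneg_left hcA (by linarith)
        linarith) (fun _ => by
        rw [← h2, mu]
        have h8 : (i : ℝ) < q := by exact_mod_cast hi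
        have h9 : ((q : ℝ) - i) * c₀ ≤ (q - i) * A' := mul_le_mul_of_nonneg_left hcA (by linarith)
        linarith) x hx hxν
      omega
  rcases hcon with ⟨i, hi, hpi, h1, h2⟩ | ⟨hq1, h1, h2⟩ | ⟨hcG, h1, b₀, hb₀, h2⟩ |
    ⟨hq2, hpd, h1, h2⟩
  · -- an index divisible by `p`
    have h0 := hP0 i h1
    have h3 := heq i hi h1
    rw [h3, hP'] at h2
    unfold trP at h2
    rw [if_pos hpi] at h2
    have h4 := h.sd.ordF p h.hσ h.apx (h.inP i hi) (h.npd i hi hpi) (E := q - i - 1)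
      (fun x hx hxν => hexp i hi h1 x hx hxν) (hL i hi h0).2 (n := q - 1 - i) (by omega)
      (by
        have h5 : q - 1 - i + 1 = q - i := by omega
        rw [h5]
        exact h.pq hpi) h2
    have h5 : (q - i - 1) / m ≤ q - i - 1 := Nat.div_le_self _ _
    omega
  · -- the index `1`
    by_cases hp1 : p ∣ 1
    · have := hp.out.one_lt
      have := Nat.le_of_dvd one_pos hp1
      omega
    have h0 := hP0 1 h1
    have h3 := heq 1 hq1 h1
    rw [h3, hP'] at h2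
    unfold trP at h2
    rw [if_neg hp1] at h2
    have h4 := h.sd.ord h.apx (h.inP 1 hq1) (σ := (p ^ j₀ : ℕ) * r) (E := q - 1 - 1)
      (fun x hx hxν => hexp 1 hq1 h1 x hx hxν) (hL 1 hq1 h0).2 (n := q - 1) (by omega) h2
    have h5 : (q - 1 - 1) / m ≤ q - 1 - 1 := Nat.div_le_self _ _
    omega
  · -- the obstruction
    have hmuτ : mu q lam' c₀ τ = lam' + (p ^ j₀ : ℕ) * c₀ := by
      rw [mu, hq, ← h.hQ]
      ring
    have hQ1 : q - 1 - τ = p ^ j₀ - 1 := by rw [← h.hQ]; have := h.prm.hq; omega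
    rw [hQ1, hP'] at h2
    unfold trP at h2
    rw [if_pos hpτ] at h2
    refine h.sd.obs p h.hj h.lamG h.nA1 h.hr h.ty h.apx (h.inP τ hτq) (ν := mu q lam' c₀ τ) ?_
      (by rw [← h.hQ]; have := h.prm.hq; have := h.prm.hQ; omega) ⟨c₀, hcG, hmuτ⟩ hb₀ h2
    intro x hx hxν hxc
    have h0 : P τ ≠ 0 := ne_zero_of_coeff (mem_terms.1 hx)
    have h3 := hmu τ hτq h0
    have h4 : mu q lam' c₀ τ = Phi τ := le_antisymm h3 (by
      rw [← hxν]
      exact (hL τ hτq h0).1 x hx)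
    -- the slope is `A'`
    have h5 : c₀ = A' := by
      refine le_antisymm hcA ?_
      have h6 := hN.sc τ le_rfl hτq h0
      rw [← h4, mu] at h6
      have h7 : (0 : ℝ) < q - τ := by
        rw [hq]
        have : (0 : ℝ) < Q := by
          have := h.prm.hQ
          exact_mod_cast (by omega : 0 < Q)
        linarith
      have h8 : ((q : ℝ) - τ) * A' ≤ (q - τ) * c₀ := by linarith
      exact le_of_mul_le_mul_left h8 h7
    rw [← h.hQ] at hxc hmuτ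
    rcases hcl x hx hxc (fun y hy => by
        rw [hxν, h4]
        exact (hL τ hτq h0).1 y hy) c₀ (by rw [hxν, hmuτ]) with h6 | ⟨i, h6, h7, y, hy, h8⟩
    · linarith
    · have h9 : P i ≠ 0 := ne_zero_of_coeff (mem_terms.1 hy)
      have h10 := hmu i h7 h9
      have h11 := (hL i h7 h9).1 y hy
      have h12 : mu q lam' c₀ i = Phi i := le_antisymm h10 (by rw [mu]; linarith)
      refine hlow i h7 h9 ?_
      rw [← h12]
      exact h1 i h6 h7
  · -- `q = 2`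
    subst hq2
    have hτ0 : 0 < 2 := by norm_num
    have h0 := hP0 0 h1
    have h3 := heq 0 hτ0 h1
    rw [h3] at h2 hpd
    rw [hP'] at h2
    unfold trP at h2
    rw [if_pos (dvd_zero p), SD.rst_of_not p _ hpd] at h2
    have h4 := h.sd.ord h.apx (h.inP 0 hτ0) (σ := (p ^ j₀ : ℕ) * r) (E := 1)
      (fun x hx hxν => hexp 0 hτ0 h1 x hx hxν) (hL 0 hτ0 h0).2 (n := 1) (by omega) (by
        rw [pow_one]
        exact X_dvd_iff.2 h2)
    have h5 : 1 / m = 0 := Nat.div_eq_of_lt (by omega)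
    omega

end char

end Pool.Agent.TWN
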