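import Pool.Agent.Lib.TW_NFG.ST

/-!
# NFG, `s = 2`: the new scale and the new contents

`Nx`: the data at the next frame, in terms of the lowest lines `Phi`; `Mk.next`: existence.
-/

set_option autoImplicit false

open Polynomial

namespace Pool.Agent.TWN

universe u

variable {k : Type u} [Field k]

/-- The index `i` is a marker at the next frame. -/
structure Own2 (p q : ℕ) (lam' A' : ℝ) (Mb : ℕ) (β : ℝ) (Lam' Phi : ℕ → ℝ) (P : ℕ → ℝ →₀ k[X])
    (i : ℕ) : Prop where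
  lt : i < q
  ix : Ix p i
  ne : P i ≠ 0
  eq : Lam' i = Phi i
  bd : ∀ x ∈ terms (P i), vm β x = Phi i → x.2 + 1 ≤ (q - i) * Mb
  fr : ∀ l, Sr p i l → l < q → Ix p l → Lam' i < Lam' l + ((l : ℝ) - i) * A'
  frq : Sr p i q → Lam' i < lam' + ((q : ℝ) - i) * A'

/-- The data at the next frame. -/
structure Nx (p q τ Q : ℕ) (lam' A' s : ℝ) (Mb : ℕ) (β : ℝ) (Lam' Phi : ℕ → ℝ)
    (P : ℕ → ℝ →₀ k[X]) : Prop where
  cap : A' ≤ s
  tau : Lam' τ = lam' + Q * A'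
  ph : ∀ i < q, Ix p i → P i ≠ 0 → Lam' i ≤ Phi i
  sc : ∀ i, τ ≤ i → i < q → P i ≠ 0 → lam' + ((q : ℝ) - i) * A' ≤ Phi i
  le : ∀ i l, Sr p i l → l < q → Ix p i → Ix p l → Lam' i ≤ Lam' l + ((l : ℝ) - i) * A'
  leq : ∀ i < q, Sr p i q → Lam' i ≤ lam' + ((q : ℝ) - i) * A'
  mark : ∀ i < q, Ix p i → i ≠ τ → Own2 p q lam' A' Mb β Lam' Phi P i ∨
    (∃ l, Sr p i l ∧ l ≠ τ ∧ Own2 p q lam' A' Mb β Lam' Phi P l ∧
      Lam' i = Lam' l + ((l : ℝ) - i) * A') ∨ (Sr p i q ∧ Lam' i = lam' + ((q : ℝ) - i) * A')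
  top : ∀ i, τ < i → i < q → Ix p i → lam' + ((q : ℝ) - i) * A' ≤ Lam' i
  edge : A' = s ∨ (∃ i, τ < i ∧ i < q ∧ Ix p i ∧ Lam' i = lam' + ((q : ℝ) - i) * A') ∨
    ((∀ i, τ < i → i < q → Ix p i → lam' + ((q : ℝ) - i) * A' < Lam' i) ∧
      (∀ i, τ < i → i < q → Ix p i → P i ≠ 0 → lam' + ((q : ℝ) - i) * A' < Phi i) ∧
      P τ ≠ 0 ∧ Phi τ = lam' + Q * A' ∧
      ∀ x ∈ terms (P τ), vm β x = Phi τ → x.2 + 1 ≤ Q * Mb)

section

variable {p q τ Q : ℕ} {G : AddSubgroup ℝ} {lam lam' : ℝ} {nA : ℕ} {A A' s β : ℝ} {Mb : ℕ}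
  {Lam : ℕ → ℝ} {P : ℕ → ℝ →₀ k[X]} {Phi : ℕ → ℝ}

theorem exists_scale (lam' s : ℝ) (P : ℕ → ℝ →₀ k[X]) (Phi : ℕ → ℝ) (τ q : ℕ) :
    ∃ A' ≤ s, (∀ i, τ ≤ i → i < q → P i ≠ 0 → lam' + ((q : ℝ) - i) * A' ≤ Phi i) ∧
      (A' = s ∨ ∃ i, τ ≤ i ∧ i < q ∧ P i ≠ 0 ∧ lam' + ((q : ℝ) - i) * A' = Phi i) := by
  classical
  set S := (Finset.Ico τ q).filter (fun i => P i ≠ 0) with hS
  have hmem : ∀ i, i ∈ S ↔ (τ ≤ i ∧ i < q) ∧ P i ≠ 0 := fun i => by
    rw [hS, Finset.mem_filter, Finset.mem_Ico]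
  rcases S.eq_empty_or_nonempty with h0 | h0
  · refine ⟨s, le_rfl, fun i h1 h2 h3 => ?_, Or.inl rfl⟩
    have : i ∈ S := (hmem i).2 ⟨⟨h1, h2⟩, h3⟩
    rw [h0] at this
    simp at this
  · obtain ⟨i₀, hi₀, hmin⟩ := S.exists_min_image (fun i => (Phi i - lam') / ((q : ℝ) - i)) h0
    have hpos : ∀ i, i < q → (0 : ℝ) < q - i := fun i hi => by
      have : (i : ℝ) < q := by exact_mod_cast hi
      linarith
    have hle : ∀ i ∈ S, ∀ a : ℝ, a ≤ (Phi i₀ - lam') / ((q : ℝ) - i₀) →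
        lam' + ((q : ℝ) - i) * a ≤ Phi i := by
      intro i hi a ha
      have h1 := hpos i ((hmem i).1 hi).1.2
      have h2 : a ≤ (Phi i - lam') / ((q : ℝ) - i) := ha.trans (hmin i hi)
      rw [le_div_iff₀ h1] at h2
      linarith
    rcases le_total s ((Phi i₀ - lam') / ((q : ℝ) - i₀)) with h1 | h1
    · exact ⟨s, le_rfl, fun i h2 h3 h4 => hle i ((hmem i).2 ⟨⟨h2, h3⟩, h4⟩) s h1, Or.inl rfl⟩
    · refine ⟨_, h1, fun i h2 h3 h4 => hle i ((hmem i).2 ⟨⟨h2, h3⟩, h4⟩) _ le_rfl, Or.inr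
        ⟨i₀, ((hmem i₀).1 hi₀).1.1, ((hmem i₀).1 hi₀).1.2, ((hmem i₀).1 hi₀).2, ?_⟩⟩
      have h2 := hpos i₀ ((hmem i₀).1 hi₀).1.2
      rw [mul_div_cancel₀ _ h2.ne']
      ring

/-- The candidates for the content of the index `i`. -/
def InC (p q τ : ℕ) (P : ℕ → ℝ →₀ k[X]) (i l : ℕ) : Prop :=
  (l = i ∨ Sr p i l) ∧ l < q ∧ Ix p l ∧ l ≠ τ ∧ P l ≠ 0

theorem exists_Lam (p q τ : ℕ) (lam' A' : ℝ) (P : ℕ → ℝ →₀ k[X]) (Phi : ℕ → ℝ) (i : ℕ)
    (hne : (∃ l, InC p q τ P i l) ∨ Sr p i q) :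
    ∃ L : ℝ, (∀ l, InC p q τ P i l → L ≤ Phi l + ((l : ℝ) - i) * A') ∧
      (Sr p i q → L ≤ lam' + ((q : ℝ) - i) * A') ∧
      ((Sr p i q ∧ L = lam' + ((q : ℝ) - i) * A') ∨
        (∃ l, InC p q τ P i l ∧ L = Phi l + ((l : ℝ) - i) * A' ∧
          (∀ l', InC p q τ P i l' → l < l' → L < Phi l' + ((l' : ℝ) - i) * A') ∧
          (Sr p i q → L < lam' + ((q : ℝ) - i) * A'))) := by
  classical
  set S := (Finset.range q).filter (fun l => InC p q τ P i l) with hS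
  have hmem : ∀ l, l ∈ S ↔ InC p q τ P i l := fun l => by
    rw [hS, Finset.mem_filter, Finset.mem_range]
    exact ⟨fun h => h.2, fun h => ⟨h.2.1, h⟩⟩
  rcases S.eq_empty_or_nonempty with h0 | h0
  · have h1 : ∀ l, ¬ InC p q τ P i l := fun l hl => by
      rw [← hmem, h0] at hl
      simp at hl
    have h2 : Sr p i q := by
      rcases hne with ⟨l, hl⟩ | h
      · exact absurd hl (h1 l)
      · exact h
    exact ⟨_, fun l hl => absurd hl (h1 l), fun _ => le_rfl, Or.inl ⟨h2, rfl⟩⟩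
  · obtain ⟨l₀, hl₀, hmin⟩ := S.exists_min_image (fun l => Phi l + ((l : ℝ) - i) * A') h0
    by_cases hq : Sr p i q ∧ lam' + ((q : ℝ) - i) * A' ≤ Phi l₀ + ((l₀ : ℝ) - i) * A'
    · exact ⟨_, fun l hl => hq.2.trans (hmin l ((hmem l).2 hl)), fun _ => le_rfl,
        Or.inl ⟨hq.1, rfl⟩⟩
    · have hq' : Sr p i q → Phi l₀ + ((l₀ : ℝ) - i) * A' < lam' + ((q : ℝ) - i) * A' := fun h => by
        by_contra hcon
        exact hq ⟨h, not_lt.1 hcon⟩
      set S' := S.filter (fun l => Phi l + ((l : ℝ) - i) * A' = Phi l₀ + ((l₀ : ℝ) - i) * A')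
        with hS'
      have hne' : S'.Nonempty := ⟨l₀, Finset.mem_filter.2 ⟨hl₀, rfl⟩⟩
      obtain ⟨l₁, hl₁, hmax⟩ := S'.exists_max_image id hne'
      rw [hS', Finset.mem_filter] at hl₁
      refine ⟨Phi l₀ + ((l₀ : ℝ) - i) * A', fun l hl => hmin l ((hmem l).2 hl),
        fun h => (hq' h).le, Or.inr ⟨l₁, (hmem l₁).1 hl₁.1, hl₁.2.symm, ?_, hq'⟩⟩
      intro l' hl' hlt
      refine lt_of_le_of_ne (hmin l' ((hmem l').2 hl')) fun h => ?_
      have h1 : l' ∈ S' := Finset.mem_filter.2 ⟨(hmem l').2 hl', h.symm⟩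
      have h2 := hmax l' h1
      simp only [id] at h2
      omega

/-- The bounds for the exponents on the lowest lines. -/
def Bd (p q τ Q : ℕ) (lam' A' β : ℝ) (Mb : ℕ) (Phi : ℕ → ℝ) (P : ℕ → ℝ →₀ k[X]) : Prop :=
  (∀ i < q, Ix p i → i ≠ τ →
    (∀ l, Sr p i l → l < q → Ix p l → l ≠ τ → P l ≠ 0 → Phi i ≤ Phi l + ((l : ℝ) - i) * A') →
    (Sr p i q → Phi i ≤ lam' + ((q : ℝ) - i) * A') →
    ∀ x ∈ terms (P i), vm β x = Phi i → x.2 + 1 ≤ (q - i) * Mb) ∧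
  (Phi τ ≤ lam' + Q * A' → ∀ x ∈ terms (P τ), vm β x = Phi τ → x.2 + 1 ≤ Q * Mb)

/-- **The new contents.** -/
theorem exists_Nx (hp : Prm p q τ Q) (hix : ∀ i < q, P i ≠ 0 → Ix p i) (hA's : A' ≤ s)
    (hA' : ∀ i, τ ≤ i → i < q → P i ≠ 0 → lam' + ((q : ℝ) - i) * A' ≤ Phi i)
    (hedge : A' = s ∨ ∃ i, τ ≤ i ∧ i < q ∧ P i ≠ 0 ∧ lam' + ((q : ℝ) - i) * A' = Phi i)
    (hne : ∀ i < q, Ix p i → i ≠ τ → (∃ l, InC p q τ P i l) ∨ Sr p i q)
    (hbound : Bd p q τ Q lam' A' β Mb Phi P) :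
    ∃ Lam' : ℕ → ℝ, Nx p q τ Q lam' A' s Mb β Lam' Phi P := by
  classical
  have hτq : τ < q := by have := hp.hq; have := hp.hQ; omega
  have hq : (q : ℝ) = τ + Q := by rw [hp.hq]; push_cast; ring
  have hex : ∀ i, ∃ L : ℝ, (i = τ → L = lam' + Q * A') ∧
      (i ≠ τ → ((∃ l, InC p q τ P i l) ∨ Sr p i q) →
      (∀ l, InC p q τ P i l → L ≤ Phi l + ((l : ℝ) - i) * A') ∧
      (Sr p i q → L ≤ lam' + ((q : ℝ) - i) * A') ∧
      ((Sr p i q ∧ L = lam' + ((q : ℝ) - i) * A') ∨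
        (∃ l, InC p q τ P i l ∧ L = Phi l + ((l : ℝ) - i) * A' ∧
          (∀ l', InC p q τ P i l' → l < l' → L < Phi l' + ((l' : ℝ) - i) * A') ∧
          (Sr p i q → L < lam' + ((q : ℝ) - i) * A')))) := by
    intro i
    by_cases hi : i = τ
    · exact ⟨lam' + Q * A', fun _ => rfl, fun h => absurd hi h⟩
    · by_cases h1 : (∃ l, InC p q τ P i l) ∨ Sr p i q
      · obtain ⟨L, hL⟩ := exists_Lam p q τ lam' A' P Phi i h1
        exact ⟨L, fun h => absurd h hi, fun _ _ => hL⟩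
      · exact ⟨0, fun h => absurd h hi, fun _ h => absurd h h1⟩
  choose Lam' hLamτ hLam using hex
  have htau : Lam' τ = lam' + Q * A' := hLamτ τ rfl
  -- upper bounds
  have hup : ∀ i < q, Ix p i → i ≠ τ → ∀ l, InC p q τ P i l →
      Lam' i ≤ Phi l + ((l : ℝ) - i) * A' := fun i hi hix' hiτ l hl =>
    (hLam i hiτ (hne i hi hix' hiτ)).1 l hl
  have hupq : ∀ i < q, i ≠ τ → Sr p i q → Lam' i ≤ lam' + ((q : ℝ) - i) * A' :=
    fun i hi hiτ hs => (hLam i hiτ (Or.inr hs)).2.1 hs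
  have hph : ∀ i < q, Ix p i → P i ≠ 0 → Lam' i ≤ Phi i := by
    intro i hi hix' hPi
    by_cases hiτ : i = τ
    · subst hiτ
      rw [htau]
      have h1 := hA' i le_rfl hi hPi
      rw [hq] at h1
      linarith
    · have h1 := hup i hi hix' hiτ i ⟨Or.inl rfl, hi, hix', hiτ, hPi⟩
      rw [sub_self, zero_mul, add_zero] at h1
      exact h1
  have htop : ∀ i, τ < i → i < q → Ix p i → lam' + ((q : ℝ) - i) * A' ≤ Lam' i := by
    intro i h1 h2 h3
    rcases (hLam i h1.ne' (hne i h2 h3 h1.ne')).2.2 with ⟨h4, -⟩ | ⟨l, h4, h5, -, -⟩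
    · exact absurd h4 (hp.nsq i h1 h2)
    · obtain ⟨h6, h7, h8, h9, h10⟩ := h4
      have hτl : τ ≤ l := by
        rcases h6 with rfl | h6
        · exact h1.le
        · exact h1.le.trans h6.1.le
      have h11 := hA' l hτl h7 h10
      rw [h5]
      linarith
  -- attained values are compatible with the sources
  have hle : ∀ i l, Sr p i l → l < q → Ix p i → Ix p l →
      Lam' i ≤ Lam' l + ((l : ℝ) - i) * A' := by
    intro i l hil hlq hii hli
    have hiq : i < q := hil.1.trans hlq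
    by_cases hiτ : i = τ
    · subst hiτ
      have h1 := htop l hil.1 hlq hli
      rw [htau, hq] at *
      linarith
    · by_cases hlτ : l = τ
      · subst hlτ
        have h1 := hupq i hiq hiτ (hil.trans hp.pp hp.sq)
        rw [htau]
        rw [hq] at h1
        linarith
      · rcases (hLam l hlτ (hne l hlq hli hlτ)).2.2 with ⟨h4, h5⟩ | ⟨l', h4, h5, -, -⟩
        · have h1 := hupq i hiq hiτ (hil.trans hp.pp h4)
          rw [h5]
          linarith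
        · obtain ⟨h6, h7, h8, h9, h10⟩ := h4
          have h11 : InC p q τ P i l' := by
            refine ⟨Or.inr ?_, h7, h8, h9, h10⟩
            rcases h6 with rfl | h6
            · exact hil
            · exact hil.trans hp.pp h6
          have h12 := hup i hiq hii hiτ l' h11
          rw [h5]
          linarith
  have hleq : ∀ i < q, Sr p i q → Lam' i ≤ lam' + ((q : ℝ) - i) * A' := by
    intro i hi hs
    by_cases hiτ : i = τ
    · subst hiτ
      rw [htau, hq]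
      linarith
    · exact hupq i hi hiτ hs
  -- the markers
  have hown : ∀ i < q, Ix p i → i ≠ τ → ∀ l, InC p q τ P i l →
      Lam' i = Phi l + ((l : ℝ) - i) * A' →
      (∀ l', InC p q τ P i l' → l < l' → Lam' i < Phi l' + ((l' : ℝ) - i) * A') →
      (Sr p i q → Lam' i < lam' + ((q : ℝ) - i) * A') →
      Own2 p q lam' A' Mb β Lam' Phi P l := by
    intro i hi hix' hiτ l hl h1 h2 h3
    obtain ⟨hil, hlq, hli, hlτ, hPl⟩ := hl
    -- a source of `l` is a source of `i`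
    have htr : ∀ l', Sr p l l' → Sr p i l' := by
      intro l' hl'
      rcases hil with rfl | hil
      · exact hl'
      · exact hil.trans hp.pp hl'
    have h4 : ∀ l', Sr p l l' → l' < q → Ix p l' → l' ≠ τ → P l' ≠ 0 →
        Phi l < Phi l' + ((l' : ℝ) - l) * A' := by
      intro l' h5 h6 h7 h8 h9
      have h10 := h2 l' ⟨Or.inr (htr l' h5), h6, h7, h8, h9⟩ h5.1
      rw [h1] at h10
      linarith
    have h5 : Sr p l q → Phi l < lam' + ((q : ℝ) - l) * A' := by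
      intro h6
      have h7 := h3 (htr q h6)
      rw [h1] at h7
      linarith
    have h6 : Lam' l = Phi l := by
      refine le_antisymm (hph l hlq hli hPl) ?_
      rcases (hLam l hlτ (hne l hlq hli hlτ)).2.2 with ⟨h7, h8⟩ | ⟨l', h7, h8, -, -⟩
      · rw [h8]
        exact (h5 h7).le
      · obtain ⟨h9, h10, h11, h12, h13⟩ := h7
        rw [h8]
        rcases h9 with rfl | h9
        · rw [sub_self, zero_mul, add_zero]
        · exact (h4 l' h9 h10 h11 h12 h13).le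
    refine ⟨hlq, hli, hPl, h6, ?_, ?_, ?_⟩
    · exact hbound.1 l hlq hli hlτ (fun l' h7 h8 h9 h10 h11 =>
        (h4 l' h7 h8 h9 h10 h11).le) (fun h7 => (h5 h7).le)
    · intro l' h7 h8 h9
      rw [h6]
      by_cases hl'τ : l' = τ
      · subst hl'τ
        have h10 := h5 (h7.trans hp.pp hp.sq)
        rw [htau]
        rw [hq] at h10
        linarith
      · rcases (hLam l' hl'τ (hne l' h8 h9 hl'τ)).2.2 with ⟨h10, h11⟩ | ⟨l'', h10, h11, -, -⟩
        · have h12 := h5 (h7.trans hp.pp h10)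
          rw [h11]
          linarith
        · obtain ⟨h12, h13, h14, h15, h16⟩ := h10
          have h17 : Sr p l l'' := by
            rcases h12 with rfl | h12
            · exact h7
            · exact h7.trans hp.pp h12
          have h18 := h4 l'' h17 h13 h14 h15 h16
          rw [h11]
          linarith
    · intro h7
      rw [h6]
      exact h5 h7
  refine ⟨Lam', hA's, htau, hph, hA', hle, hleq, ?_, htop, ?_⟩
  · intro i hi hix' hiτ
    rcases (hLam i hiτ (hne i hi hix' hiτ)).2.2 with ⟨h1, h2⟩ | ⟨l, h1, h2, h3, h4⟩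
    · exact Or.inr (Or.inr ⟨h1, h2⟩)
    · have h5 := hown i hi hix' hiτ l h1 h2 h3 h4
      rcases h1.1 with rfl | h6
      · exact Or.inl h5
      · refine Or.inr (Or.inl ⟨l, h6, h1.2.2.2.1, h5, ?_⟩)
        rw [h5.eq]
        exact h2
  · -- the edge
    rcases hedge with h1 | ⟨i₀, h1, h2, h3, h4⟩
    · exact Or.inl h1
    · right
      by_cases h5 : ∃ i, τ < i ∧ i < q ∧ P i ≠ 0 ∧ lam' + ((q : ℝ) - i) * A' = Phi i
      · obtain ⟨i, h6, h7, h8, h9⟩ := h5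
        refine Or.inl ⟨i, h6, h7, hix i h7 h8, le_antisymm ?_ (htop i h6 h7 (hix i h7 h8))⟩
        rw [h9]
        exact hph i h7 (hix i h7 h8) h8
      · right
        have hi₀ : i₀ = τ := by
          by_contra hcon
          exact h5 ⟨i₀, by omega, h2, h3, h4⟩
        subst hi₀
        have h6 : ∀ i, i₀ < i → i < q → P i ≠ 0 → lam' + ((q : ℝ) - i) * A' < Phi i :=
          fun i h7 h8 h9 => lt_of_le_of_ne (hA' i h7.le h8 h9) fun h10 => h5 ⟨i, h7, h8, h9, h10⟩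
        have h7 : Phi i₀ = lam' + Q * A' := by
          rw [← h4, hq]
          ring
        refine ⟨?_, fun i h8 h9 _ h10 => h6 i h8 h9 h10, h3, h7, ?_⟩
        · intro i h8 h9 h10
          rcases (hLam i h8.ne' (hne i h9 h10 h8.ne')).2.2 with ⟨h11, -⟩ | ⟨l, h11, h12, -, -⟩
          · exact absurd h11 (hp.nsq i h8 h9)
          · obtain ⟨h13, h14, h15, h16, h17⟩ := h11
            have hτl : i₀ < l := by
              rcases h13 with rfl | h13
              · exact h8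
              · exact h8.trans h13.1
            have h18 := h6 l hτl h14 h17
            rw [h12]
            linarith
        · intro x hx hxν
          exact hbound.2 (by rw [h7]) x hx hxν

/-- **The new scale and the new contents.** -/
theorem Mk.next (hp : Prm p q τ Q) (h : Mk p q τ Q lam A s Mb Lam P) (hβ : 0 < β) (hnA : nA ≤ 1)
    (hMb : 1 ≤ Mb) (hT : TM p q τ Q G lam nA A s Mb Lam P (((Mb : ℝ) - 1) * β))
    (hix : ∀ i < q, P i ≠ 0 → Ix p i) (hL : LD β q P Phi) :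
    ∃ (A' : ℝ) (Lam' : ℕ → ℝ), Nx p q τ Q (lam + nA * β) A' s Mb β Lam' Phi P ∧
      Bd p q τ Q (lam + nA * β) A' β Mb Phi P := by
  obtain ⟨A', hA's, hA', hedge⟩ := exists_scale (lam + nA * β) s P Phi τ q
  have hrho := h.rho hp hβ hnA hMb hT hL hA's hA'
  have hbound : Bd p q τ Q (lam + nA * β) A' β Mb Phi P :=
    ⟨fun i hi hix' hiτ h1 h2 x hx hxν =>
      h.bound hp hβ hrho hL hi hix' hiτ (fun _ _ => le_rfl) h1 h2 hx hxν,
    fun h1 x hx hxν => h.bound_tau hp hβ hrho h1 hx hxν⟩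
  have hne : ∀ i < q, Ix p i → i ≠ τ → (∃ l, InC p q τ P i l) ∨ Sr p i q := by
    intro i hi hix' hiτ
    rcases h.mark i hi hix' hiτ with h1 | ⟨l, h1, h2, h3, -⟩ | ⟨h1, -⟩
    · obtain ⟨n, -, hn⟩ := h1.ex
      exact Or.inl ⟨i, Or.inl rfl, hi, hix', hiτ, ne_zero_of_coeff hn⟩
    · obtain ⟨n, -, hn⟩ := h3.ex
      exact Or.inl ⟨l, Or.inr h1, h3.lt, h3.ix, h2, ne_zero_of_coeff hn⟩
    · exact Or.inr h1
  obtain ⟨Lam', hN⟩ := exists_Nx hp hix hA's hA' hedge hne hbound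
  exact ⟨A', Lam', hN, hbound⟩

end

end Pool.Agent.TWN
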