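import Pool.Agent.Lib.TW_NFG.P1

/-!
# NFG, row P2: change of the frame with the same value group

* `change`, `change_lt`: a Laurent polynomial of the old frame is, up to `O(B)`, a Laurent
  polynomial of the new frame, with the same content and known first coefficients;
* `Frm.unit`, `Lt.unit`: `M' g = M g * η ^ κ g`, `η = 1 + …` a unit;
* `Frm.coord`, `Lt.coord`: `w₁ = h(w) + …`, `h = h₁ X + …`, `h₁ ≠ 0`.
-/

set_option autoImplicit false

open Polynomial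

namespace Pool.Agent.TWN

open Pool.Agent.H15JM (RVal)
open Pool.Agent.LU1 (VPos)
open Pool.Agent.D2 (Ctx0)
open Pool.Agent.D2P (clI mem_clI)
open Pool.Agent.TWM (MS LF cadj Cld VG InG evL Gt)

universe u

variable {k Ω : Type u} [Field k] [Field Ω] [Algebra k Ω] {v : RVal Ω} {G : AddSubgroup ℝ}
  {M M' : ℝ → Ω} {w w' w₁ : Ω} {F : IntermediateField k Ω}

/-! ### Values -/

theorem aeval_ge (h : Ctx0 k v) (hw : v.Ge 0 w) (f : k[X]) : v.Ge 0 (aeval w f) := by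
  rw [aeval_eq_sum_range]
  refine RVal.Ge.sum _ _ fun i _ => ?_
  rw [Algebra.smul_def]
  have h2 := (h.ge (f.coeff i)).mul (TWM.ge_pow hw i)
  rwa [mul_zero, add_zero] at h2

theorem aeval_ge_of_coeff (h : Ctx0 k v) {b : ℝ} (hb : 0 ≤ b) (hw : v.Ge b w) {f : k[X]}
    (hf : f.coeff 0 = 0) : v.Ge b (aeval w f) := by
  have h1 : f = X * f.divX := by
    conv_lhs => rw [← divX_mul_X_add f, hf, C_0, add_zero]
    rw [mul_comm]
  rw [h1, map_mul, aeval_X]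
  have h2 := hw.mul (aeval_ge h (hw.mono hb) f.divX)
  rwa [add_zero] at h2

theorem Rg.ge (h : Ctx0 k v) (hM : MS v G M) (hw : v.Ge 0 w) {μ : ℝ} {f : Ω}
    (hf : Rg k G M w μ f) : v.Ge μ f := by
  obtain ⟨P, h1, h2, rfl⟩ := hf
  rw [evP_eq_sum]
  refine RVal.Ge.sum _ _ fun g hg => ?_
  have hg' := Finsupp.mem_support_iff.1 hg
  have h3 : v.Ge g (M g) := fun _ => (hM.val g (h1 g hg')).ge
  have h4 := h3.mul (aeval_ge h hw (P g))
  rw [add_zero] at h4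
  exact h4.mono (h2 g hg')

theorem Frm.wge (hf : Frm v G M w F) : v.Ge 0 w := fun _ => hf.wpos.le

theorem Frm.rg_mem_of {F' : IntermediateField k Ω} (hM : ∀ g ∈ G, M g ∈ F') (hw : w ∈ F')
    {μ : ℝ} {f : Ω} (h1 : Rg k G M w μ f) : f ∈ F' := by
  obtain ⟨P, h1, h2, rfl⟩ := h1
  rw [evP_eq_sum]
  refine sum_mem fun g hg => mul_mem (hM g (h1 g (Finsupp.mem_support_iff.1 hg))) ?_
  rw [aeval_eq_sum_range]
  refine sum_mem fun l _ => ?_
  rw [Algebra.smul_def]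
  exact mul_mem (F'.algebraMap_mem _) (pow_mem hw l)

theorem Frm.rg_mem (hf : Frm v G M w F) {μ : ℝ} {f : Ω} (h1 : Rg k G M w μ f) : f ∈ F :=
  Frm.rg_mem_of (fun _ hg => hf.mon_mem hg) hf.w_mem h1

/-! ### The general change of frame -/

/-- The terms of the old frame are terms of the new frame, up to a content gain `d`. -/
def Chg (k : Type u) {Ω : Type u} [Field k] [Field Ω] [Algebra k Ω] (v : RVal Ω)
    (G : AddSubgroup ℝ) (M : ℝ → Ω) (w : Ω) (M' : ℝ → Ω) (w' : Ω) (d : ℝ)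
    (J : ℝ → k[X] → k[X] → Prop) : Prop :=
  ∀ g ∈ G, ∀ (f : k[X]) (B : ℝ), ∃ (f₁ : k[X]) (ρ : Ω), J g f f₁ ∧ Rg k G M w (g + d) ρ ∧
    v.Ge B (M g * aeval w f - M' g * aeval w' f₁ - ρ)

variable {d : ℝ} {J : ℝ → k[X] → k[X] → Prop}

/-- One step. -/
theorem Chg.step (hC : Chg k v G M w M' w' d J) {ν : ℝ} {f : Ω} (hf : Rg k G M w ν f) (B : ℝ) :
    ∃ f' f'' : Ω, Rg k G M' w' ν f' ∧ Rg k G M w (ν + d) f'' ∧ v.Ge B (f - f' - f'') := by
  obtain ⟨P, h1, h2, rfl⟩ := hf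
  rw [evP_eq_sum]
  have h3 : ∀ g, ∃ f' f'' : Ω, g ∈ P.support → Rg k G M' w' ν f' ∧ Rg k G M w (ν + d) f'' ∧
      v.Ge B (M g * aeval w (P g) - f' - f'') := by
    intro g
    by_cases hg : g ∈ P.support
    · have hg' := Finsupp.mem_support_iff.1 hg
      obtain ⟨f₁, ρ, -, h4, h5⟩ := hC g (h1 g hg') (P g) B
      refine ⟨M' g * aeval w' f₁, ρ, fun _ => ⟨(Rg.term (h1 g hg') f₁).mono (h2 g hg'),
        h4.mono ?_, h5⟩⟩
      have := h2 g hg'
      linarith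
    · exact ⟨0, 0, fun h => absurd h hg⟩
  choose f' f'' h4 using h3
  refine ⟨∑ g ∈ P.support, f' g, ∑ g ∈ P.support, f'' g, Rg.sum fun g hg => (h4 g hg).1,
    Rg.sum fun g hg => (h4 g hg).2.1, ?_⟩
  rw [← Finset.sum_sub_distrib, ← Finset.sum_sub_distrib]
  exact RVal.Ge.sum _ _ fun g hg => (h4 g hg).2.2

/-- The change of frame. -/
theorem Chg.rg (hC : Chg k v G M w M' w' d J) (h : Ctx0 k v) (hM : MS v G M) (hw : v.Ge 0 w)
    (hd : 0 < d) {ν : ℝ} {f : Ω} (hf : Rg k G M w ν f) (B : ℝ) :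
    ∃ f' : Ω, Rg k G M' w' ν f' ∧ v.Ge B (f - f') := by
  have h1 : ∀ n : ℕ, ∃ f' f'' : Ω, Rg k G M' w' ν f' ∧ Rg k G M w (ν + n * d) f'' ∧
      v.Ge B (f - f' - f'') := by
    intro n
    induction n with
    | zero =>
      refine ⟨0, f, Rg.zero, ?_, ?_⟩
      · rwa [Nat.cast_zero, zero_mul, add_zero]
      · rw [sub_zero, sub_self]
        exact RVal.Ge.zero
    | succ n ih =>
      obtain ⟨f', f'', h1, h2, h3⟩ := ih
      obtain ⟨g', g'', h4, h5, h6⟩ := hC.step h2 B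
      refine ⟨f' + g', g'', h1.add (h4.mono ?_), h5.mono ?_, ?_⟩
      · have : (0 : ℝ) ≤ n * d := by positivity
        linarith
      · push_cast
        linarith
      · have h7 := h3.add h6
        rwa [show f - f' - f'' + (f'' - g' - g'') = f - (f' + g') - g'' by ring] at h7
  obtain ⟨n, hn⟩ := exists_nat_ge ((B - ν) / d)
  rw [div_le_iff₀ hd] at hn
  obtain ⟨f', f'', h2, h3, h4⟩ := h1 n
  refine ⟨f', h2, ?_⟩
  have h5 := h4.add ((Rg.ge h hM hw h3).mono (by linarith : B ≤ ν + n * d))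
  rwa [sub_add_cancel] at h5

/-- The change of frame, with the leading coefficient. -/
theorem Chg.lt (hC : Chg k v G M w M' w' d J) (h : Ctx0 k v) (hM : MS v G M) (hw : v.Ge 0 w)
    (hd : 0 < d) {μ : ℝ} (hμ : μ ∈ G) {f₀ : k[X]} {f : Ω} (hf : Lt k G M w μ f₀ f) (B : ℝ) :
    ∃ (f' : Ω) (f₁ : k[X]), v.Ge B (f - f') ∧ Lt k G M' w' μ f₁ f' ∧ J μ f₀ f₁ := by
  obtain ⟨ε, hε, h1⟩ := hf.split hμ
  obtain ⟨f₁, ρ, hJ, h2, h3⟩ := hC μ hμ f₀ B
  have hm : 0 < min ε d := lt_min hε hd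
  have h4 : Rg k G M w (μ + min ε d) (f - M μ * aeval w f₀ + ρ) := by
    refine Rg.add (h1.mono ?_) (h2.mono ?_)
    · have := min_le_left ε d
      linarith
    · have := min_le_right ε d
      linarith
  obtain ⟨f'', h5, h6⟩ := hC.rg h hM hw hd h4 B
  refine ⟨M' μ * aeval w' f₁ + f'', f₁, ?_, ?_, hJ⟩
  · have h7 := h3.add h6
    rwa [show M μ * aeval w f₀ - M' μ * aeval w' f₁ - ρ +
      (f - M μ * aeval w f₀ + ρ - f'') = f - (M' μ * aeval w' f₁ + f'') by ring] at h7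
  · refine Lt.of_sub hμ hm ?_
    rwa [add_sub_cancel_left]

/-- The monomials and the parameter of the old frame are limits in the new frame. -/
theorem Chg.mem (hC : Chg k v G M w M' w' d J) (h : Ctx0 k v) (hM : MS v G M) (hw : v.Ge 0 w)
    (hd : 0 < d) {F' : IntermediateField k Ω} (hF' : Cld v F') (hM' : ∀ g ∈ G, M' g ∈ F')
    (hw' : w' ∈ F') {ν : ℝ} {f : Ω} (hf : Rg k G M w ν f) : f ∈ F' := by
  refine hF' ?_
  rw [mem_clI]
  intro B
  obtain ⟨f', h1, h2⟩ := hC.rg h hM hw hd hf B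
  exact ⟨f', Frm.rg_mem_of hM' hw' h1, h2⟩

/-! ### Jets -/

/-- `a` is `u(w) + ρ`, up to `O(B)`, `ρ` of content `≥ d` and `u = a₀ + a₁ X + …`. -/
def Jt (v : RVal Ω) (G : AddSubgroup ℝ) (M : ℝ → Ω) (w : Ω) (d : ℝ) (a₀ a₁ : k) (a : Ω) : Prop :=
  v.Ge 0 a ∧ ∀ B : ℝ, ∃ (u : k[X]) (ρ : Ω), u.coeff 0 = a₀ ∧ u.coeff 1 = a₁ ∧
    Rg k G M w d ρ ∧ v.Ge B (a - aeval w u - ρ)

variable {a₀ a₁ b₀ b₁ : k} {a b : Ω}

theorem Jt.add (ha : Jt v G M w d a₀ a₁ a) (hb : Jt v G M w d b₀ b₁ b) :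
    Jt v G M w d (a₀ + b₀) (a₁ + b₁) (a + b) := by
  refine ⟨ha.1.add hb.1, fun B => ?_⟩
  obtain ⟨u, ρ, h1, h2, h3, h4⟩ := ha.2 B
  obtain ⟨u', ρ', h5, h6, h7, h8⟩ := hb.2 B
  refine ⟨u + u', ρ + ρ', by rw [coeff_add, h1, h5], by rw [coeff_add, h2, h6], h3.add h7, ?_⟩
  have h9 := h4.add h8
  rwa [show a - aeval w u - ρ + (b - aeval w u' - ρ') =
    a + b - aeval w (u + u') - (ρ + ρ') by rw [map_add]; ring] at h9

theorem Jt.neg (ha : Jt v G M w d a₀ a₁ a) : Jt v G M w d (-a₀) (-a₁) (-a) := by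
  refine ⟨ha.1.neg, fun B => ?_⟩
  obtain ⟨u, ρ, h1, h2, h3, h4⟩ := ha.2 B
  refine ⟨-u, -ρ, by rw [coeff_neg, h1], by rw [coeff_neg, h2], h3.neg, ?_⟩
  have h9 := h4.neg
  rwa [show -(a - aeval w u - ρ) = -a - aeval w (-u) - -ρ by rw [map_neg]; ring] at h9

theorem Jt.one : Jt v G M w d (1 : k) 0 1 := by
  refine ⟨fun _ => by rw [v.map_one], fun B => ⟨1, 0, ?_, ?_, Rg.zero, ?_⟩⟩
  · rw [coeff_one_zero]
  · rw [coeff_one, if_neg one_ne_zero]
  · rw [map_one, sub_self, sub_zero]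
    exact RVal.Ge.zero

theorem Jt.mul (h : Ctx0 k v) (hM : MS v G M) (hw : v.Ge 0 w) (hd : 0 ≤ d)
    (ha : Jt v G M w d a₀ a₁ a) (hb : Jt v G M w d b₀ b₁ b) :
    Jt v G M w d (a₀ * b₀) (a₀ * b₁ + a₁ * b₀) (a * b) := by
  refine ⟨?_, fun B => ?_⟩
  · have h1 := ha.1.mul hb.1
    rwa [add_zero] at h1
  obtain ⟨u, ρ, h1, h2, h3, h4⟩ := ha.2 B
  obtain ⟨u', ρ', h5, h6, h7, h8⟩ := hb.2 B
  refine ⟨u * u', aeval w u * ρ' + ρ * aeval w u' + ρ * ρ', by rw [mul_coeff_zero, h1, h5],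
    by rw [mul_coeff_one, h1, h2, h5, h6], ?_, ?_⟩
  · refine Rg.add (Rg.add ?_ ?_) ?_
    · have h9 := (Rg.aeval hM u).mul hM h7
      rwa [zero_add] at h9
    · have h9 := h3.mul hM (Rg.aeval hM u')
      rwa [add_zero] at h9
    · exact (h3.mul hM h7).mono (by linarith)
  · have h9 : v.Ge 0 (aeval w u' + ρ') :=
      (aeval_ge h hw u').add ((Rg.ge h hM hw h7).mono hd)
    have h10 := (ha.1.mul h8).add (((h4.mul h9).mono (by linarith : 0 + B ≤ B + 0)))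
    rw [zero_add] at h10
    rwa [show a * (b - aeval w u' - ρ') + (a - aeval w u - ρ) * (aeval w u' + ρ') =
      a * b - aeval w (u * u') - (aeval w u * ρ' + ρ * aeval w u' + ρ * ρ') by
        rw [map_mul]; ring] at h10

theorem Jt.pow (h : Ctx0 k v) (hM : MS v G M) (hw : v.Ge 0 w) (hd : 0 ≤ d)
    (ha : Jt v G M w d (1 : k) a₁ a) (n : ℕ) : Jt v G M w d (1 : k) (n * a₁) (a ^ n) := by
  induction n with
  | zero =>
    rw [Nat.cast_zero, zero_mul, pow_zero]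
    exact Jt.one
  | succ n ih =>
    have h1 := Jt.mul h hM hw hd ih ha
    rw [pow_succ]
    have e : ((n + 1 : ℕ) : k) * a₁ = 1 * a₁ + n * a₁ * 1 := by push_cast; ring
    rw [e]
    rw [mul_one] at h1
    exact h1

/-- A limit of elements with the same jets. -/
theorem Jt.of_lim (h0 : v.Ge 0 a)
    (hl : ∀ B : ℝ, ∃ b : Ω, Jt v G M w d a₀ a₁ b ∧ v.Ge B (a - b)) : Jt v G M w d a₀ a₁ a := by
  refine ⟨h0, fun B => ?_⟩
  obtain ⟨b, hb, h1⟩ := hl B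
  obtain ⟨u, ρ, h2, h3, h4, h5⟩ := hb.2 B
  refine ⟨u, ρ, h2, h3, h4, ?_⟩
  have h6 := h1.add h5
  rwa [show a - b + (b - aeval w u - ρ) = a - aeval w u - ρ by ring] at h6

/-- The inverse of a unit. -/
theorem Jt.inv (h : Ctx0 k v) (hM : MS v G M) (hw : v.Ge 0 w) (hd : 0 ≤ d) {z : ℝ} (hz : 0 < z)
    (hz' : v.Ge z (1 - a)) (ha0 : a ≠ 0) (hav : v a = 0) (ha : Jt v G M w d (1 : k) a₁ a) :
    Jt v G M w d (1 : k) (-a₁) a⁻¹ := by
  have hζ : Jt v G M w d (0 : k) (-a₁) (1 - a) := by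
    have h1 := (Jt.one (v := v) (k := k) (G := G) (M := M) (w := w) (d := d)).add ha.neg
    rwa [add_neg_cancel, zero_add, ← sub_eq_add_neg] at h1
  -- the partial sums of the geometric series
  obtain ⟨s, hs0, hs⟩ : ∃ s : ℕ → Ω, s 0 = 1 ∧ ∀ n, s (n + 1) = 1 + (1 - a) * s n :=
    ⟨fun n => Nat.rec 1 (fun _ x => 1 + (1 - a) * x) n, rfl, fun _ => rfl⟩
  have h1 : ∀ n, a * s n = 1 - (1 - a) ^ (n + 1) := by
    intro n
    induction n with
    | zero => rw [hs0]; ring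
    | succ n ih =>
      rw [hs, mul_add, mul_one, mul_left_comm, ih]
      ring
  have h2 : ∀ n, ∃ b₁ : k, Jt v G M w d (1 : k) b₁ (s n) := by
    intro n
    induction n with
    | zero => rw [hs0]; exact ⟨0, Jt.one⟩
    | succ n ih =>
      obtain ⟨b₁, hb⟩ := ih
      have h3 := (Jt.one (v := v) (k := k) (G := G) (M := M) (w := w) (d := d)).add (Jt.mul h hM hw hd hζ hb)
      rw [hs]
      rw [zero_mul, add_zero] at h3
      exact ⟨_, h3⟩
  have h3 : ∀ n, Jt v G M w d (1 : k) (-a₁) (s (n + 1)) := by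
    intro n
    obtain ⟨b₁, hb⟩ := h2 n
    have h3 := (Jt.one (v := v) (k := k) (G := G) (M := M) (w := w) (d := d)).add (Jt.mul h hM hw hd hζ hb)
    rw [hs]
    rw [zero_mul, add_zero, zero_mul, zero_add, zero_add, mul_one] at h3
    exact h3
  refine Jt.of_lim (fun _ => by rw [v.map_inv ha0, hav, neg_zero]) fun B => ?_
  obtain ⟨n, hn⟩ := exists_nat_ge (B / z)
  rw [div_le_iff₀ hz] at hn
  refine ⟨s (n + 1), h3 n, ?_⟩
  have h4 : a⁻¹ - s (n + 1) = a⁻¹ * (1 - a) ^ (n + 1 + 1) := by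
    have h5 := h1 (n + 1)
    field_simp
    rw [h5]
    ring
  rw [h4]
  have h5 : v.Ge 0 a⁻¹ := fun _ => by rw [v.map_inv ha0, hav, neg_zero]
  refine (h5.mul (TWM.ge_pow hz' (n + 1 + 1))).mono ?_
  push_cast
  nlinarith

theorem Jt.zpow (h : Ctx0 k v) (hM : MS v G M) (hw : v.Ge 0 w) (hd : 0 ≤ d) {z : ℝ} (hz : 0 < z)
    (hz' : v.Ge z (1 - a)) (ha0 : a ≠ 0) (hav : v a = 0) (ha : Jt v G M w d (1 : k) a₁ a)
    (i : ℤ) : Jt v G M w d (1 : k) (i * a₁) (a ^ i) := by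
  cases i with
  | ofNat n =>
    have h1 := Jt.pow h hM hw hd ha n
    rwa [Int.ofNat_eq_natCast, Int.cast_natCast, zpow_natCast]
  | negSucc n =>
    have h1 := Jt.pow h hM hw hd (Jt.inv h hM hw hd hz hz' ha0 hav ha) (n + 1)
    rw [zpow_negSucc, ← inv_pow]
    have e : ((Int.negSucc n : ℤ) : k) * a₁ = ((n + 1 : ℕ) : k) * -a₁ := by
      rw [Int.cast_negSucc]; push_cast; ring
    rw [e]
    exact h1

/-! ### (L): change of the monomials by a unit -/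

/-- The data of a unit `η = 1 + …`. -/
theorem unit_data (h : Ctx0 k v) (hM : MS v G M) (hw : 0 < v w) {η : Ω} {h₀ : k[X]}
    (hη : Lt k G M w 0 h₀ η) (h1 : h₀.coeff 0 = 1) :
    ∃ δ > 0, ∃ z > 0, v.Ge z (1 - η) ∧ η ≠ 0 ∧ v η = 0 ∧
      Jt v G M w δ (1 : k) (h₀.coeff 1) η := by
  obtain ⟨δ, hδ, h2⟩ := hη.split G.zero_mem
  rw [hM.zero, one_mul, zero_add] at h2
  have hwg : v.Ge 0 w := fun _ => hw.le
  have h3 := Rg.ge h hM hwg h2
  have hz : 0 < min (v w) δ := lt_min hw hδ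
  have h4 : v.Ge (min (v w) δ) (1 - η) := by
    have h5 : v.Ge (v w) (aeval w (1 - h₀)) :=
      aeval_ge_of_coeff h hw.le (RVal.ge_self w) (by
        rw [coeff_sub, coeff_one_zero, h1, sub_self])
    have h6 := (h5.mono (min_le_left _ δ)).sub (h3.mono (min_le_right (v w) _))
    rwa [show aeval w (1 - h₀) - (η - aeval w h₀) = 1 - η by
      rw [map_sub, map_one]; ring] at h6
  have h5 : Gt v (v (1 : Ω)) (1 - η) := by
    rw [v.map_one]
    exact Gt.of_ge h4 hz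
  obtain ⟨h6, h7⟩ := h5.val_eq one_ne_zero
  rw [v.map_one] at h7
  refine ⟨δ, hδ, _, hz, h4, h6, h7, fun _ => h7.ge, fun B => ⟨h₀, η - aeval w h₀, h1, rfl, h2, ?_⟩⟩
  rw [sub_self]
  exact RVal.Ge.zero

variable {κ : ℝ → ℤ} {η : Ω}

theorem ms_unit (hM : MS v G M) (hη0 : η ≠ 0) (hηv : v η = 0)
    (hκ : ∀ g ∈ G, ∀ g' ∈ G, κ (g + g') = κ g + κ g') :
    MS v G (fun g => M g * η ^ κ g) where
  ne g hg := mul_ne_zero (hM.ne g hg) (zpow_ne_zero _ hη0)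
  val g hg := by
    rw [v.map_mul (hM.ne g hg) (zpow_ne_zero _ hη0), v.map_zpow hη0, hηv, mul_zero, add_zero,
      hM.val g hg]
  mul g hg g' hg' := by
    rw [hM.mul g hg g' hg', hκ g hg g' hg', zpow_add₀ hη0]
    ring

theorem chg_unit (h : Ctx0 k v) (hM : MS v G M) (hw : v.Ge 0 w) (hd : 0 ≤ d) {z : ℝ}
    (hz : 0 < z) (hz' : v.Ge z (1 - η)) (hη0 : η ≠ 0) (hηv : v η = 0)
    (hη : Jt v G M w d (1 : k) a₁ η) :
    Chg k v G M w (fun g => M g * η ^ κ g) w d fun g f f₁ => f₁.coeff 0 = f.coeff 0 ∧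
      f₁.coeff 1 = f.coeff 1 - κ g * a₁ * f.coeff 0 := by
  intro g hg f B
  have hJ := Jt.zpow h hM hw hd hz hz' hη0 hηv hη
  obtain ⟨u, ρ, h1, h2, h3, h4⟩ := (hJ (-κ g)).2 (B - g)
  obtain ⟨u', ρ', -, -, h5, h6⟩ := (hJ (κ g)).2 (B - g)
  refine ⟨u * f, M g * aeval w f * ((aeval w u' + ρ') * ρ), ⟨?_, ?_⟩, ?_, ?_⟩
  · rw [mul_coeff_zero, h1, one_mul]
  · rw [mul_coeff_one, h1, h2]
    push_cast
    ring
  · have h7 : Rg k G M w 0 (aeval w u' + ρ') := (Rg.aeval hM u').add (h5.mono hd)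
    have h8 := (Rg.term (k := k) (M := M) (w := w) hg f).mul hM (h7.mul hM h3)
    rwa [zero_add] at h8
  · have hMg : v.Ge g (M g) := fun _ => (hM.val g hg).ge
    have hf := aeval_ge h hw f
    have hηκ : v.Ge 0 (η ^ κ g) := fun _ => by rw [v.map_zpow hη0, hηv, mul_zero]
    have hρ : v.Ge 0 ρ := (Rg.ge h hM hw h3).mono hd
    have e0 : η ^ κ g * η ^ (-κ g) = 1 := by
      rw [← zpow_add₀ hη0, add_neg_cancel, zpow_zero]
    -- the difference
    have e : M g * aeval w f - M g * η ^ κ g * aeval w (u * f) -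
        M g * aeval w f * ((aeval w u' + ρ') * ρ) =
        M g * aeval w f * (η ^ κ g * (η ^ (-κ g) - aeval w u - ρ)) +
        M g * aeval w f * ((η ^ κ g - aeval w u' - ρ') * ρ) := by
      rw [map_mul]
      linear_combination (M g * aeval w f) * (-e0)
    rw [e]
    have h7 := (hMg.mul hf).mul (hηκ.mul h4)
    have h8 := (hMg.mul hf).mul (h6.mul hρ)
    refine (h7.mono ?_).add (h8.mono ?_) <;> linarith

/-- **P2 (L), the frame.** -/
theorem Frm.unit (h : Ctx0 k v) (hf : Frm v G M w F) {h₀ : k[X]} (hη : Lt k G M w 0 h₀ η)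
    (h1 : h₀.coeff 0 = 1) (hκ : ∀ g ∈ G, ∀ g' ∈ G, κ (g + g') = κ g + κ g') :
    Frm v G (fun g => M g * η ^ κ g) w F := by
  obtain ⟨δ, hδ, z, hz, h2, h3, h4, h5⟩ := unit_data h hf.ms hf.wpos hη h1
  have hηF : η ∈ F := hf.rg_mem hη.rg
  refine Frm.of_le (ms_unit hf.ms h3 h4 hκ) hf.fg hf.wne hf.wpos hf.full hf.cld
    (fun g hg => mul_mem (hf.mon_mem hg) (zpow_mem hηF _)) hf.w_mem fun F' hF' hM hw => ?_
  have hC := chg_unit (κ := κ) h hf.ms hf.wge hδ.le hz h2 h3 h4 h5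
  refine hf.le_of hF' (fun g hg => ?_) hw
  have h6 := Rg.term (k := k) (M := M) (w := w) hg 1
  rw [map_one, mul_one] at h6
  exact hC.mem h hf.ms hf.wge hδ hF' hM hw h6

/-- **P2 (L), the leading coefficients.** -/
theorem Lt.unit (h : Ctx0 k v) (hf : Frm v G M w F) {h₀ : k[X]} (hη : Lt k G M w 0 h₀ η)
    (h1 : h₀.coeff 0 = 1) {μ : ℝ} (hμ : μ ∈ G) {f₀ : k[X]} {f : Ω} (hl : Lt k G M w μ f₀ f)
    (B : ℝ) : ∃ (f' : Ω) (f₁ : k[X]), v.Ge B (f - f') ∧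
      Lt k G (fun g => M g * η ^ κ g) w μ f₁ f' ∧ f₁.coeff 0 = f₀.coeff 0 ∧
      f₁.coeff 1 = f₀.coeff 1 - κ μ * h₀.coeff 1 * f₀.coeff 0 := by
  obtain ⟨δ, hδ, z, hz, h2, h3, h4, h5⟩ := unit_data h hf.ms hf.wpos hη h1
  have hC := chg_unit (κ := κ) h hf.ms hf.wge hδ.le hz h2 h3 h4 h5
  exact hC.lt h hf.ms hf.wge hδ hμ hl B

/-- **P2 (L), contents.** -/
theorem Rg.unit (h : Ctx0 k v) (hf : Frm v G M w F) {h₀ : k[X]} (hη : Lt k G M w 0 h₀ η)
    (h1 : h₀.coeff 0 = 1) {ν : ℝ} {f : Ω} (hl : Rg k G M w ν f) (B : ℝ) :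
    ∃ f' : Ω, Rg k G (fun g => M g * η ^ κ g) w ν f' ∧ v.Ge B (f - f') := by
  obtain ⟨δ, hδ, z, hz, h2, h3, h4, h5⟩ := unit_data h hf.ms hf.wpos hη h1
  have hC := chg_unit (κ := κ) h hf.ms hf.wge hδ.le hz h2 h3 h4 h5
  exact hC.rg h hf.ms hf.wge hδ hl B

/-! ### (B): change of the parameter -/

/-- A polynomial at two near points. -/
theorem rg_aeval_sub (hM : MS v G M) {δ : ℝ} {x y : Ω} (hx : Rg k G M w 0 x)
    (hy : Rg k G M w 0 y) (hxy : Rg k G M w δ (x - y)) (f : k[X]) :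
    Rg k G M w δ (aeval x f - aeval y f) := by
  have h1 : ∀ n : ℕ, Rg k G M w δ (x ^ n - y ^ n) := by
    intro n
    induction n with
    | zero => rw [pow_zero, pow_zero, sub_self]; exact Rg.zero
    | succ n ih =>
      have e : x ^ (n + 1) - y ^ (n + 1) = x ^ n * (x - y) + (x ^ n - y ^ n) * y := by ring
      rw [e]
      have h2 := (hx.pow hM n).mul hM hxy
      have h3 := ih.mul hM hy
      rw [mul_zero, zero_add] at h2
      rw [add_zero] at h3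
      exact h2.add h3
  rw [aeval_eq_sum_range, aeval_eq_sum_range, ← Finset.sum_sub_distrib]
  refine Rg.sum fun i _ => ?_
  rw [← smul_sub, Algebra.smul_def]
  have h2 := (Rg.const (w := w) hM (f.coeff i)).mul hM (h1 i)
  rwa [zero_add] at h2

theorem chg_coord (h : Ctx0 k v) (hM : MS v G M) (hw : 0 < v w) (hd : 0 ≤ d) {h₀ : k[X]}
    (h0 : h₀.coeff 0 = 0) (h1 : h₀.coeff 1 ≠ 0) (hw₁ : Rg k G M w d (w₁ - aeval w h₀)) :
    Chg k v G M w M w₁ d fun _ f f₁ => f₁.coeff 0 = f.coeff 0 ∧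
      f₁.coeff 1 = f.coeff 1 / h₀.coeff 1 := by
  intro g hg f B
  obtain ⟨n, hn⟩ := exists_nat_ge ((B - g) / v w)
  rw [div_le_iff₀ hw] at hn
  have e0 : h₀.eval 0 = 0 := by rw [← coeff_zero_eq_eval_zero, h0]
  have e1 : (derivative h₀).eval 0 ≠ 0 := by
    rw [← coeff_zero_eq_eval_zero, coeff_derivative]
    simpa using h1
  obtain ⟨R, Q, hQ⟩ := exists_comp e0 e1 f (n + 2)
  rw [C_0, sub_zero] at hQ
  have hR0 : R.coeff 0 = f.coeff 0 := by
    have h2 := congrArg (fun P => coeff P 0) hQ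
    simp only [coeff_sub, pow_succ', mul_assoc, coeff_X_mul_zero] at h2
    rw [coeff_zero_eq_eval_zero (R.comp h₀), eval_comp, e0, ← coeff_zero_eq_eval_zero] at h2
    exact (sub_eq_zero.1 h2).symm
  have hR1 : R.coeff 1 = f.coeff 1 / h₀.coeff 1 := by
    have h2 := congrArg (fun P => (derivative P).eval 0) hQ
    simp only [derivative_sub, eval_sub, derivative_comp, eval_mul, eval_comp, e0,
      derivative_mul, eval_add, derivative_X_pow, eval_pow, eval_X, eval_C] at h2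
    rw [show n + 2 - 1 = n + 1 by omega, zero_pow (Nat.succ_ne_zero _),
      zero_pow (Nat.succ_ne_zero _), mul_zero, zero_mul, zero_mul, add_zero,
      sub_eq_zero] at h2
    have h3 : ∀ P : k[X], (derivative P).eval 0 = P.coeff 1 := by
      intro P
      rw [← coeff_zero_eq_eval_zero, coeff_derivative]
      simp
    rw [h3, h3, h3] at h2
    rw [h2]
    field_simp
  have hwR : Rg k G M w 0 w := by
    have h2 := Rg.aeval (w := w) hM (X : k[X])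
    rwa [aeval_X] at h2
  have hhR : Rg k G M w 0 (aeval w h₀) := Rg.aeval hM h₀
  have hw₁R : Rg k G M w 0 w₁ := by
    have h2 := (hw₁.mono hd).add hhR
    rwa [sub_add_cancel] at h2
  have h2 := rg_aeval_sub hM hw₁R hhR hw₁ R
  refine ⟨R, -(M g * (aeval w₁ R - aeval (aeval w h₀) R)), ⟨hR0, hR1⟩, ?_, ?_⟩
  · have h3 := Rg.term (k := k) (M := M) (w := w) hg 1
    rw [map_one, mul_one] at h3
    exact (h3.mul hM h2).neg
  · have h3 : aeval w f = aeval (aeval w h₀) R + w ^ (n + 2) * aeval w Q := by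
      have h4 := congrArg (aeval w) hQ
      rw [map_sub, aeval_comp, map_mul, map_pow, aeval_X] at h4
      linear_combination h4
    have e : M g * aeval w f - M g * aeval w₁ R -
        -(M g * (aeval w₁ R - aeval (aeval w h₀) R)) =
        M g * (w ^ (n + 2) * aeval w Q) := by
      rw [h3]; ring
    rw [e]
    have hwg : v.Ge 0 w := fun _ => hw.le
    have hMg : v.Ge g (M g) := fun _ => (hM.val g hg).ge
    refine (hMg.mul ((TWM.ge_pow (RVal.ge_self w) (n + 2)).mul (aeval_ge h hwg Q))).mono ?_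
    push_cast
    nlinarith

/-- The new parameter has positive value. -/
theorem coord_pos (h : Ctx0 k v) (hM : MS v G M) (hw : 0 < v w) (hd : 0 < d) {h₀ : k[X]}
    (h0 : h₀.coeff 0 = 0) (hw₁ : Rg k G M w d (w₁ - aeval w h₀)) (hne : w₁ ≠ 0) : 0 < v w₁ := by
  have hwg : v.Ge 0 w := fun _ => hw.le
  have h1 := (aeval_ge_of_coeff h hw.le (RVal.ge_self w) h0).mono (min_le_left (v w) d)
  have h2 := (Rg.ge h hM hwg hw₁).mono (min_le_right (v w) d)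
  have h3 := h2.add h1
  rw [sub_add_cancel] at h3
  exact (lt_min hw hd).trans_le (h3 hne)

/-- **P2 (B), the frame.** -/
theorem Frm.coord (h : Ctx0 k v) (hf : Frm v G M w F) {h₀ : k[X]} (hl : Lt k G M w 0 h₀ w₁)
    (h0 : h₀.coeff 0 = 0) (h1 : h₀.coeff 1 ≠ 0) (hne : w₁ ≠ 0) : Frm v G M w₁ F := by
  obtain ⟨δ, hδ, h2⟩ := hl.split G.zero_mem
  rw [hf.ms.zero, one_mul, zero_add] at h2
  refine Frm.of_le hf.ms hf.fg hne (coord_pos h hf.ms hf.wpos hδ h0 h2 hne) hf.full hf.cld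
    (fun g hg => hf.mon_mem hg) (hf.rg_mem hl.rg) fun F' hF' hM hw => ?_
  have hC := chg_coord h hf.ms hf.wpos hδ.le h0 h1 h2
  refine hf.le_of hF' hM ?_
  have h6 := Rg.term (k := k) (M := M) (w := w) G.zero_mem X
  rw [hf.ms.zero, one_mul, aeval_X] at h6
  exact hC.mem h hf.ms hf.wge hδ hF' hM hw h6

/-- The new parameter is not zero if the value group is not finitely generated. -/
theorem Frm.coord_ne (h : Ctx0 k v) (hf : Frm v G M w F) (hn : NFG v F) {h₀ : k[X]}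
    (hl : Lt k G M w 0 h₀ w₁) (h0 : h₀.coeff 0 = 0) (h1 : h₀.coeff 1 ≠ 0) : w₁ ≠ 0 := by
  intro hw₁
  obtain ⟨δ, hδ, h2⟩ := hl.split G.zero_mem
  rw [hf.ms.zero, one_mul, zero_add] at h2
  have hC := chg_coord h hf.ms hf.wpos hδ.le h0 h1 h2
  have h6 := Rg.term (k := k) (M := M) (w := w) G.zero_mem X
  rw [hf.ms.zero, one_mul, aeval_X] at h6
  have hcl := TWM.LF_cld h hf.ms
  have hM : ∀ g ∈ G, M g ∈ LF h hf.ms := fun g hg => TWM.LF_mon h hf.ms hg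
  have hw : w ∈ LF h hf.ms :=
    hC.mem h hf.ms hf.wge hδ hcl hM (by rw [hw₁]; exact zero_mem _) h6
  have hle : F ≤ LF h hf.ms := hf.le_of hcl hM hw
  exact hn G hf.fg fun b hb hb0 =>
    (TWM.exists_term h hf.ms (TWM.LF_dense h hf.ms) (hle hb) hb0).1

/-- **P2 (B), the leading coefficients.** -/
theorem Lt.coord (h : Ctx0 k v) (hf : Frm v G M w F) {h₀ : k[X]} (hl : Lt k G M w 0 h₀ w₁)
    (h0 : h₀.coeff 0 = 0) (h1 : h₀.coeff 1 ≠ 0) {μ : ℝ} (hμ : μ ∈ G) {f₀ : k[X]} {f : Ω}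
    (hf₀ : Lt k G M w μ f₀ f) (B : ℝ) : ∃ (f' : Ω) (f₁ : k[X]), v.Ge B (f - f') ∧
      Lt k G M w₁ μ f₁ f' ∧ f₁.coeff 0 = f₀.coeff 0 ∧ f₁.coeff 1 = f₀.coeff 1 / h₀.coeff 1 := by
  obtain ⟨δ, hδ, h2⟩ := hl.split G.zero_mem
  rw [hf.ms.zero, one_mul, zero_add] at h2
  have hC := chg_coord h hf.ms hf.wpos hδ.le h0 h1 h2
  exact hC.lt h hf.ms hf.wge hδ hμ hf₀ B

/-- **P2 (B), contents.** -/
theorem Rg.coord (h : Ctx0 k v) (hf : Frm v G M w F) {h₀ : k[X]} (hl : Lt k G M w 0 h₀ w₁)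
    (h0 : h₀.coeff 0 = 0) (h1 : h₀.coeff 1 ≠ 0) {ν : ℝ} {f : Ω}
    (hf₀ : Rg k G M w ν f) (B : ℝ) : ∃ f' : Ω, Rg k G M w₁ ν f' ∧ v.Ge B (f - f') := by
  obtain ⟨δ, hδ, h2⟩ := hl.split G.zero_mem
  rw [hf.ms.zero, one_mul, zero_add] at h2
  have hC := chg_coord h hf.ms hf.wpos hδ.le h0 h1 h2
  exact hC.rg h hf.ms hf.wge hδ hf₀ B

end Pool.Agent.TWN
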