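import Pool.Agent.Lib.TW_NFG.RP
import Pool.Agent.Lib.TW_NFG.PR
import Pool.Agent.Lib.TW_NFG.P2
import Pool.Agent.Lib.TWM.D1
import Pool.Agent.Lib.TWJ.Defs

/-!
# NFG, `s = 2`: the order constraint at the frames of `K`

* `OG p q v K a`: the order constraint at the frames of `K`, for families of Laurent polynomials;
* `FR`: a fine representation; `FR.scale`: the constraint at the frames of scale `b ≤ v(Z)`.
-/

set_option autoImplicit false

open Polynomial

namespace Pool.Agent.TWN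

open Pool.Agent.H15JM (RVal)
open Pool.Agent.LU1 (VPos)
open Pool.Agent.D2 (Ctx0)
open Pool.Agent.TWM (MS TL cadj VG Cld)
open Pool.Agent.D2P (clI mem_clI)
open Pool.Agent.TWJ (Frk evQ InCt)

universe u

variable {k Ω : Type u} [Field k] [Field Ω] [Algebra k Ω] {v : RVal Ω} {G G' : AddSubgroup ℝ}
  {M M' : ℝ → Ω} {w t : Ω} {F K : IntermediateField k Ω}

/-- The order constraint at the frames of `K`: in a representation of `a` with the content `μ` the
monomials `w ^ i T ^ j` of the content `μ` of degree `< q` are `p`-th powers. -/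
def OG (p q : ℕ) (v : RVal Ω) (K : IntermediateField k Ω) (a : Ω) : Prop :=
  ∀ (G : AddSubgroup ℝ) (M : ℝ → Ω) (w T : Ω), Frk v G M w T K → ∀ μ ∈ G, ∀ Qf : ℕ → k[X],
    (∀ C : ℝ, ∃ h ∈ K, h ≠ 0 ∧ v h = 0 ∧ ∃ g ∈ K, ∃ (d : ℕ) (A : ℕ → ℝ →₀ k[X]),
      (∀ i < d, InP G (A i)) ∧ (∀ i < d, Ct μ (A i)) ∧ (∀ i, d ≤ i → A i = 0) ∧
      (∀ i j, i + j < q → ((A j) μ).coeff i = (Qf j).coeff i) ∧
      v.Ge C (a * h ^ p - (g ^ p + ∑ i ∈ Finset.range d, evP M w (A i) * T ^ i))) →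
    ∀ i j, i + j < q → (pdv p G μ ∧ p ∣ i ∧ p ∣ j) ∨ (Qf j).coeff i = 0

/-! ### Families and polynomials in two variables -/

theorem evQ_zero (M : ℝ → Ω) (w T : Ω) : evQ (k := k) M w T 0 = 0 := Finsupp.sum_zero_index

theorem evQ_add (M : ℝ → Ω) (w T : Ω) (P Q : ℝ →₀ k[X][X]) :
    evQ M w T (P + Q) = evQ M w T P + evQ M w T Q := by
  classical
  unfold evQ
  rw [Finsupp.sum_add_index']
  · intro g
    rw [Polynomial.map_zero, evalEval_zero, mul_zero]
  · intro g a b
    rw [Polynomial.map_add, evalEval_add, mul_add]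

theorem evQ_sum {ι : Type*} (M : ℝ → Ω) (w T : Ω) (s : Finset ι) (P : ι → ℝ →₀ k[X][X]) :
    evQ M w T (∑ i ∈ s, P i) = ∑ i ∈ s, evQ M w T (P i) := by
  classical
  induction s using Finset.induction_on with
  | empty => rw [Finset.sum_empty, Finset.sum_empty, evQ_zero]
  | insert a s ha ih => rw [Finset.sum_insert ha, Finset.sum_insert ha, evQ_add, ih]

theorem evQ_single (M : ℝ → Ω) (w T : Ω) (g : ℝ) (j : ℕ) (f : k[X]) :
    evQ M w T (Finsupp.single g (monomial j f)) = M g * aeval w f * T ^ j := by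
  unfold evQ
  rw [Finsupp.sum_single_index]
  · rw [Polynomial.map_monomial, coe_mapRingHom, evalEval, eval_monomial, eval_mul, eval_pow, eval_C,
      eval_map_algebraMap, mul_assoc]
  · rw [Polynomial.map_zero, evalEval_zero, mul_zero]

/-- The Laurent polynomial of a family. -/
noncomputable def fam (d : ℕ) (A : ℕ → ℝ →₀ k[X]) : ℝ →₀ k[X][X] :=
  ∑ j ∈ Finset.range d, ∑ g ∈ (A j).support, Finsupp.single g (monomial j ((A j) g))

theorem evQ_fam (M : ℝ → Ω) (w T : Ω) (d : ℕ) (A : ℕ → ℝ →₀ k[X]) :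
    evQ M w T (fam d A) = ∑ i ∈ Finset.range d, evP M w (A i) * T ^ i := by
  unfold fam
  rw [evQ_sum]
  refine Finset.sum_congr rfl fun j _ => ?_
  rw [evQ_sum, evP_eq_sum, Finset.sum_mul]
  exact Finset.sum_congr rfl fun g _ => evQ_single M w T g j _

theorem fam_apply (d : ℕ) (A : ℕ → ℝ →₀ k[X]) (g : ℝ) :
    fam d A g = ∑ j ∈ Finset.range d, monomial j ((A j) g) := by
  classical
  unfold fam
  rw [Finsupp.finsetSum_apply]
  refine Finset.sum_congr rfl fun j _ => ?_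
  rw [Finsupp.finsetSum_apply, Finset.sum_eq_single g]
  · rw [Finsupp.single_eq_same]
  · intro g' _ hg'
    rw [Finsupp.single_eq_of_ne (Ne.symm hg')]
  · intro hg
    rw [Finsupp.notMem_support_iff] at hg
    rw [hg, monomial_zero_right, Finsupp.single_zero]
    rfl

theorem coeff_fam (d : ℕ) (A : ℕ → ℝ →₀ k[X]) (g : ℝ) (j : ℕ) :
    (fam d A g).coeff j = if j < d then (A j) g else 0 := by
  rw [fam_apply, finsetSum_coeff]
  split_ifs with h
  · rw [Finset.sum_eq_single j]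
    · rw [coeff_monomial, if_pos rfl]
    · intro i _ hi
      rw [coeff_monomial, if_neg hi]
    · intro h1
      exact absurd (Finset.mem_range.2 h) h1
  · refine Finset.sum_eq_zero fun i hi => ?_
    rw [Finset.mem_range] at hi
    rw [coeff_monomial, if_neg (by omega)]

theorem inCt_fam {d : ℕ} {A : ℕ → ℝ →₀ k[X]} {μ : ℝ} (h1 : ∀ i < d, InP G (A i))
    (h2 : ∀ i < d, Ct μ (A i)) : InCt G μ (fam d A) := by
  intro g hg
  rw [fam_apply] at hg
  obtain ⟨j, hj, h3⟩ := Finset.exists_ne_zero_of_sum_ne_zero hg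
  rw [Finset.mem_range] at hj
  have h4 : (A j) g ≠ 0 := fun h0 => h3 (by rw [h0, monomial_zero_right])
  exact ⟨h1 j hj g h4, h2 j hj g h4⟩

/-- From Laurent polynomials in two variables to families. -/
theorem OG.of {p q : ℕ} {a : Ω}
    (h : ∀ (G : AddSubgroup ℝ) (M : ℝ → Ω) (w T : Ω), Frk v G M w T K → ∀ μ ∈ G,
      ∀ Q : k[X][X], (∀ C : ℝ, ∃ h ∈ K, h ≠ 0 ∧ v h = 0 ∧ ∃ g ∈ K, ∃ P : ℝ →₀ k[X][X],
        InCt G μ P ∧ (∀ i j, i + j < q → ((P μ).coeff j).coeff i = (Q.coeff j).coeff i) ∧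
        v.Ge C (a * h ^ p - (g ^ p + evQ M w T P))) →
      ∀ i j, i + j < q → (pdv p G μ ∧ p ∣ i ∧ p ∣ j) ∨ (Q.coeff j).coeff i = 0) :
    OG p q v K a := by
  intro G M w T hF μ hμ Qf hrep i j hij
  have h1 := h G M w T hF μ hμ (∑ l ∈ Finset.range q, monomial l (Qf l)) (fun C => by
    obtain ⟨b, hb, hb0, hvb, g, hg, d, A, h2, h3, h4, h5, h6⟩ := hrep C
    refine ⟨b, hb, hb0, hvb, g, hg, fam d A, inCt_fam h2 h3, fun i j hij => ?_, ?_⟩
    · rw [coeff_fam, finsetSum_coeff, Finset.sum_eq_single j]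
      · rw [coeff_monomial, if_pos rfl]
        split_ifs with h7
        · exact h5 i j hij
        · rw [← h5 i j hij, h4 j (by omega)]
          rfl
      · intro l _ hl
        rw [coeff_monomial, if_neg hl]
      · intro h7
        exact absurd (Finset.mem_range.2 (by omega)) h7
    · rw [evQ_fam]
      exact h6) i j hij
  rcases h1 with h1 | h1
  · exact Or.inl h1
  · right
    rw [finsetSum_coeff, Finset.sum_eq_single j] at h1
    · rwa [coeff_monomial, if_pos rfl] at h1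
    · intro l _ hl
      rw [coeff_monomial, if_neg hl]
    · intro h7
      exact absurd (Finset.mem_range.2 (by omega)) h7

/-! ### Fine representations -/

/-- The monomials of the error: content type, or of high order. -/
def Fine (q : ℕ) (A0 B : ℝ) (P : ℕ → ℝ →₀ k[X]) (i : ℕ) (x : ℝ × ℕ) : Prop :=
  B ≤ x.1 + i * A0 ∨ (i < q ∧ q ≤ x.2 ∧ ∀ L, Ct L (P i) → L ≤ x.1)

/-- A fine representation of `a`. -/
structure FR (p q : ℕ) (v : RVal Ω) (F K : IntermediateField k Ω) (a : Ω) (A0 B : ℝ)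
    (G : AddSubgroup ℝ) (M : ℝ → Ω) (w Z : Ω) (P : ℕ → ℝ →₀ k[X]) (lam : ℝ) (nA : ℕ) : Prop where
  frm : Frm v G M w F
  far : ∀ f ∈ F, Z ≠ f
  gen : K = cadj v F Z
  lamG : lam ∈ G
  inP : ∀ i < q, InP G (P i)
  rep : ∀ C : ℝ, ∃ h ∈ F, h ≠ 0 ∧ v h = 0 ∧ ∃ g ∈ K, ∃ (n₀ : ℕ) (E : ℕ → ℝ →₀ k[X]),
    (∀ i < n₀, InP G (E i)) ∧ (∀ i < n₀, ∀ x ∈ terms (E i), Fine q A0 B P i x) ∧
    v.Ge C (a * h ^ p - (g ^ p + ∑ i ∈ Finset.range q, evP M w (P i) * Z ^ i +
      M lam * w ^ nA * Z ^ q + ∑ i ∈ Finset.range n₀, evP M w (E i) * Z ^ i))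
  top : lam + q * v Z < B
  A0Z : A0 ≤ v Z

section char

variable {p q τ Q : ℕ} {a : Ω} {s A0 B D : ℝ} {Z : Ω} {P : ℕ → ℝ →₀ k[X]} {lam : ℝ} {nA : ℕ}

theorem ext_q : ext q lam nA P q = Finsupp.single lam (X ^ nA) := by
  unfold ext
  rw [if_pos rfl]

theorem ext_lt {i : ℕ} (hi : i < q) : ext q lam nA P i = P i := by
  unfold ext
  rw [if_neg (by omega)]

namespace FR

theorem le (hr : FR p q v F K a A0 B G M w Z P lam nA) : F ≤ K := by
  rw [hr.gen]
  exact TWM.le_cadj _ _ _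

theorem Z_mem (hr : FR p q v F K a A0 B G M w Z P lam nA) : Z ∈ K := by
  rw [hr.gen]
  exact TWM.self_mem_cadj _ _ _

/-- The frame generates `K`. -/
theorem frk_eq (hr : FR p q v F K a A0 B G M w Z P lam nA) {T : Ω}
    (h1 : ∀ g ∈ G', M' g ∈ K) (hT : T ∈ K)
    (h2 : ∀ R : IntermediateField k Ω, (∀ g ∈ G', M' g ∈ R) → T ∈ R →
      (∀ g ∈ G, M g ∈ R) ∧ Z ∈ R) :
    K = clI v (IntermediateField.adjoin k (M' '' G' ∪ {w, T})) := by
  set R := IntermediateField.adjoin k (M' '' (G' : Set ℝ) ∪ {w, T}) with hR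
  have hRR : R ≤ clI v R := fun x hx => by
    rw [mem_clI]
    exact LUC.Cl.subset hx
  obtain ⟨h3, h4⟩ := h2 R (fun g hg => IntermediateField.subset_adjoin k _ (Or.inl ⟨g, hg, rfl⟩))
    (IntermediateField.subset_adjoin k _ (Or.inr (Or.inr rfl)))
  have hw : w ∈ R := IntermediateField.subset_adjoin k _ (Or.inr (Or.inl rfl))
  apply le_antisymm
  · conv_lhs => rw [hr.gen]
    refine TWM.cadj_le (TWM.cld_clI v _) ?_ (hRR h4)
    exact hr.frm.le_of (TWM.cld_clI v _) (fun g hg => hRR (h3 g hg)) (hRR hw)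
  · have hK : Cld v K := by
      rw [hr.gen]
      exact TWM.cld_cadj v F Z
    refine TWM.clI_le hK ?_
    rw [hR, IntermediateField.adjoin_le_iff]
    rintro _ (⟨g, hg, rfl⟩ | rfl | rfl)
    · exact h1 g hg
    · exact hr.le hr.frm.w_mem
    · exact hT

/-- The whole family: the representation, the top coefficient and the error. -/
noncomputable def tot (q : ℕ) (lam : ℝ) (nA : ℕ) (P : ℕ → ℝ →₀ k[X]) (n₀ : ℕ)
    (E : ℕ → ℝ →₀ k[X]) (i : ℕ) : ℝ →₀ k[X] :=
  (if i ≤ q then ext q lam nA P i else 0) + (if i < n₀ then E i else 0)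

theorem tot_sum {n₀ N : ℕ} {E : ℕ → ℝ →₀ k[X]} (h1 : q ≤ N) (h2 : n₀ ≤ N + 1) :
    ∑ i ∈ Finset.range (N + 1), evP M w (tot q lam nA P n₀ E i) * Z ^ i =
      ∑ i ∈ Finset.range q, evP M w (P i) * Z ^ i + M lam * w ^ nA * Z ^ q +
        ∑ i ∈ Finset.range n₀, evP M w (E i) * Z ^ i := by
  unfold tot
  have h3 : ∑ i ∈ Finset.range (N + 1), evP M w ((if i ≤ q then ext q lam nA P i else 0) +
      (if i < n₀ then E i else 0)) * Z ^ i =
      ∑ i ∈ Finset.range (N + 1), (if i < q + 1 then evP M w (ext q lam nA P i) * Z ^ i else 0) +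
      ∑ i ∈ Finset.range (N + 1), (if i < n₀ then evP M w (E i) * Z ^ i else 0) := by
    rw [← Finset.sum_add_distrib]
    refine Finset.sum_congr rfl fun i _ => ?_
    rw [evP_add, add_mul]
    congr 1
    · by_cases h : i ≤ q
      · rw [if_pos h, if_pos (by omega)]
      · rw [if_neg h, if_neg (by omega), evP_zero, zero_mul]
    · by_cases h : i < n₀
      · rw [if_pos h, if_pos h]
      · rw [if_neg h, if_neg h, evP_zero, zero_mul]
  have h4 : ∀ (n : ℕ) (f : ℕ → Ω), n ≤ N + 1 →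
      ∑ i ∈ Finset.range (N + 1), (if i < n then f i else 0) = ∑ i ∈ Finset.range n, f i := by
    intro n f hn
    rw [← Finset.sum_filter]
    refine Finset.sum_congr ?_ fun _ _ => rfl
    ext i
    rw [Finset.mem_filter, Finset.mem_range, Finset.mem_range]
    omega
  rw [h3, h4 _ _ (by omega), h4 _ _ h2, Finset.sum_range_succ, ext_q, evP_single, map_pow,
    aeval_X]
  congr 2
  refine Finset.sum_congr rfl fun i hi => ?_
  rw [ext_lt (Finset.mem_range.1 hi)]

theorem tot_inP (hr : FR p q v F K a A0 B G M w Z P lam nA) {n₀ : ℕ} {E : ℕ → ℝ →₀ k[X]}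
    (hE : ∀ i < n₀, InP G (E i)) (l : ℕ) : InP G (tot q lam nA P n₀ E l) := by
  unfold tot
  refine InP.add ?_ ?_
  · split_ifs with h1
    · rcases h1.lt_or_eq with h1 | rfl
      · rw [ext_lt h1]
        exact hr.inP l h1
      · rw [ext_q]
        exact InP.single hr.lamG _
    · exact InP.zero
  · split_ifs with h1
    · exact hE l h1
    · exact InP.zero

/-- The contents of the whole family. -/
theorem tot_ct {n₀ : ℕ} {E : ℕ → ℝ →₀ k[X]}
    (hE : ∀ i < n₀, ∀ x ∈ terms (E i), Fine q A0 B P i x) {κ b : ℝ} (hb : A0 ≤ b) (hκB : κ < B)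
    (hκq : κ ≤ lam + q * b) (hκ : ∀ i < q, Ct (κ - i * b) (P i)) (l : ℕ) :
    Ct (κ - l * b) (tot q lam nA P n₀ E l) := by
  unfold tot
  refine Ct.add ?_ ?_
  · split_ifs with h1
    · rcases h1.lt_or_eq with h1 | rfl
      · rw [ext_lt h1]
        exact hκ l h1
      · rw [ext_q]
        exact Ct.single (by linarith) _
    · exact Ct.zero
  · split_ifs with h1
    · intro g hg
      obtain ⟨n, hn⟩ : ∃ n, ((E l) g).coeff n ≠ 0 := by
        by_contra hcon
        push Not at hcon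
        exact hg (by ext n; rw [hcon n]; simp)
      have h3 : (0 : ℝ) ≤ l * (b - A0) := mul_nonneg (Nat.cast_nonneg l) (by linarith)
      rcases hE l h1 (g, n) (mem_terms.2 hn) with h2 | ⟨h2, -, h4⟩
      · have h5 : B ≤ g + l * A0 := h2
        linarith
      · exact h4 _ (hκ l h2)
    · exact Ct.zero

/-- The error does not contribute to the coefficients. -/
theorem tot_coeff {n₀ : ℕ} {E : ℕ → ℝ →₀ k[X]}
    (hE : ∀ i < n₀, ∀ x ∈ terms (E i), Fine q A0 B P i x) {κ b : ℝ} (hb : A0 ≤ b) (hκB : κ < B)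
    (l : ℕ) {n : ℕ} (hn : n < q) : ((tot q lam nA P n₀ E l) (κ - l * b)).coeff n =
      if l ≤ q then ((ext q lam nA P l) (κ - l * b)).coeff n else 0 := by
  have h1 : ((if l < n₀ then E l else 0 : ℝ →₀ k[X]) (κ - l * b)).coeff n = 0 := by
    split_ifs with h1
    · by_contra hcon
      have h3 : (0 : ℝ) ≤ l * (b - A0) := mul_nonneg (Nat.cast_nonneg l) (by linarith)
      rcases hE l h1 (κ - l * b, n) (mem_terms.2 hcon) with h2 | ⟨-, h2, -⟩
      · have h5 : B ≤ κ - l * b + l * A0 := h2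
        linarith
      · have h5 : q ≤ n := h2
        omega
    · rfl
  unfold tot
  rw [Finsupp.add_apply, coeff_add, h1, add_zero]
  split_ifs with h2
  · rfl
  · rfl

/-- **The order constraint at the frames of scale `b`.** -/
theorem scale (hr : FR p q v F K a A0 B G M w Z P lam nA) (hog : OG p q v K a)
    {b : ℝ} (hb : b ∈ G) (hbA : A0 ≤ b) (hbZ : b ≤ v Z) {t₀ : k}
    (ht : VPos v (Z * (M b)⁻¹ - algebraMap k Ω t₀)) {κ : ℝ} (hκG : κ ∈ G)
    (hκq : κ ≤ lam + q * b) (hκ : ∀ i < q, Ct (κ - i * b) (P i)) {n j : ℕ} (hnj : n + j < q) :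
    (pdv p G κ ∧ p ∣ n ∧ p ∣ j) ∨ ∑ l ∈ Finset.Icc j q,
      (l.choose j : k) * t₀ ^ (l - j) * ((ext q lam nA P l) (κ - l * b)).coeff n = 0 := by
  have hκB : κ < B := by
    have h1 := hr.top
    have h2 : (0 : ℝ) ≤ q * (v Z - b) := mul_nonneg (Nat.cast_nonneg q) (by linarith)
    linarith
  set T := Z * (M b)⁻¹ - algebraMap k Ω t₀ with hT
  have hMb := hr.frm.ms.ne b hb
  have hMbF : M b ∈ F := hr.frm.mon_mem hb
  have hZT : Z = (T + algebraMap k Ω t₀) * M b := by
    rw [hT]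
    field_simp
    ring
  have hT0 : T ≠ 0 := by
    intro h0
    rw [h0, zero_add] at hZT
    exact hr.far _ (mul_mem (F.algebraMap_mem t₀) hMbF) hZT
  have hKF : Frk v G M w T K := by
    refine ⟨hr.frm.ms, hr.frm.fg, hr.frm.wne, hr.frm.wpos, hT0, ht hT0, ?_⟩
    refine hr.frk_eq (fun g hg => hr.le (hr.frm.mon_mem hg)) ?_ fun R h1 h2 => ⟨h1, ?_⟩
    · rw [hT]
      exact sub_mem (mul_mem hr.Z_mem (inv_mem (hr.le hMbF))) (K.algebraMap_mem t₀)
    · rw [hZT]
      exact mul_mem (add_mem h2 (R.algebraMap_mem t₀)) (h1 b hb)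
  have hjb : ∀ j : ℕ, (j : ℝ) * b ∈ G := fun j => by
    rw [← nsmul_eq_mul]
    exact G.nsmul_mem hb _
  have key := hog G M w T hKF κ hκG (fun j => ∑ l ∈ Finset.Icc j q,
      C ((l.choose j : k) * t₀ ^ (l - j)) * ext q lam nA P l (κ - l * b)) (fun C₀ => by
    obtain ⟨h, hh, h0, hv, g, hg, n₀, E, hE1, hE2, h1⟩ := hr.rep C₀
    set N := max q n₀ with hN
    have hNq : q ≤ N := le_max_left _ _
    have hNn : n₀ ≤ N := le_max_right _ _
    set Et := tot q lam nA P n₀ E with hEt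
    set A : ℕ → ℝ →₀ k[X] := fun j => sh 1 (j * b) 0 (rc N t₀ b 0 Et j) with hA
    have hAg : ∀ (j : ℕ) (g : ℝ), A j g = ∑ l ∈ Finset.Icc j N,
        C ((l.choose j : k) * t₀ ^ (l - j)) * Et l (g - l * b) := by
      intro j g
      rw [hA]
      show sh 1 (j * b) 0 (rc N t₀ b 0 Et j) g = _
      rw [sh_apply, C_1, one_mul, pow_zero, one_mul, rc, Finsupp.finsetSum_apply]
      refine Finset.sum_congr rfl fun l _ => ?_
      rw [sh_apply, Nat.mul_zero, pow_zero, mul_one]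
      congr 2
      ring
    have hEin : ∀ l ≤ N, InP G (Et l) := fun l _ => hr.tot_inP hE1 l
    refine ⟨h, hr.le hh, h0, hv, g, hg, N + 1, A,
      fun i _ => (InP.rc hb hEin i).sh (hjb i), fun i _ g hg => ?_, fun i hi => ?_,
      fun n j hnj => ?_, ?_⟩
    · rw [hAg i g] at hg
      obtain ⟨l, hl, h6⟩ := Finset.exists_ne_zero_of_sum_ne_zero hg
      have h7 := tot_ct (lam := lam) (nA := nA) hE2 hbA hκB hκq hκ l _ (right_ne_zero_of_mul h6)
      linarith
    · ext g n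
      rw [hAg i g, Finset.Icc_eq_empty (by omega), Finset.sum_empty]
      rfl
    · rw [hAg j κ, finsetSum_coeff, finsetSum_coeff]
      have h2 : ∀ l ∈ Finset.Icc j N, (C ((l.choose j : k) * t₀ ^ (l - j)) *
          Et l (κ - l * b)).coeff n = if l ≤ q then (C ((l.choose j : k) * t₀ ^ (l - j)) *
          ext q lam nA P l (κ - l * b)).coeff n else 0 := by
        intro l _
        rw [coeff_C_mul, coeff_C_mul, hEt, tot_coeff hE2 hbA hκB l (by omega)]
        split_ifs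
        · rfl
        · rw [mul_zero]
      rw [Finset.sum_congr rfl h2, ← Finset.sum_filter]
      refine Finset.sum_congr ?_ fun _ _ => rfl
      ext l
      rw [Finset.mem_filter, Finset.mem_Icc, Finset.mem_Icc]
      omega
    · have h2 := sum_rc (w := w) (c := t₀) (n₀ := 0) hr.frm.ms hb hEin Z
      have h3 : ∑ i ∈ Finset.range (N + 1), evP M w (A i) * T ^ i =
          ∑ i ∈ Finset.range q, evP M w (P i) * Z ^ i + M lam * w ^ nA * Z ^ q +
            ∑ i ∈ Finset.range n₀, evP M w (E i) * Z ^ i := by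
        rw [← tot_sum hNq (by omega), h2]
        refine Finset.sum_congr rfl fun i _ => ?_
        rw [hA]
        show evP M w (sh 1 (i * b) 0 (rc N t₀ b 0 Et i)) * T ^ i = _
        rw [evP_sh hr.frm.ms (hjb i) (InP.rc hb hEin i), map_one, pow_zero, mul_one, one_mul,
          hr.frm.ms.pow hb, mul_one]
        have h4 : Z - algebraMap k Ω t₀ * M b = M b * T := by
          rw [hZT]
          ring
        rw [h4, mul_pow]
        ring
      rw [h3, ← add_assoc, ← add_assoc]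
      exact h1) n j hnj
  rcases key with h1 | h1
  · exact Or.inl h1
  · right
    rw [finsetSum_coeff] at h1
    rw [← h1]
    refine Finset.sum_congr rfl fun l _ => ?_
    rw [coeff_C_mul]

end FR

end char

end Pool.Agent.TWN
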