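import Pool.Agent.Lib.TW_NFG.OG1
import Pool.Agent.Lib.TW_NFG.ER

/-!
# NFG, `s = 2`: the order constraint at the frame of the value of `Z`

`v(Z) ∉ G`, `t = Z ^ m / M (m v(Z))`: the frame `(G', M', w, t - c)`.
-/

set_option autoImplicit false

open Polynomial

namespace Pool.Agent.TWN

open Pool.Agent.H15JM (RVal)
open Pool.Agent.LU1 (VPos)
open Pool.Agent.D2 (Ctx0)
open Pool.Agent.TWM (MS TL cadj VG Cld)
open Pool.Agent.D2P (clI mem_clI)
open Pool.Agent.TWJ (Frk evQ InCt)

universe u

variable {k Ω : Type u} [Field k] [Field Ω] [Algebra k Ω] {v : RVal Ω} {G G' : AddSubgroup ℝ}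
  {M M' : ℝ → Ω} {w t : Ω} {F K : IntermediateField k Ω} {m : ℕ} {j : ℝ → ℤ → ℤ}

/-- The polynomial of a line in the direction of `Z`. -/
noncomputable def zl (q : ℕ) (E : ℕ → ℝ →₀ k[X]) (j : ℝ → ℤ → ℤ) (κ α : ℝ) (n K : ℕ) : k[X] :=
  ∑ i ∈ Finset.range (q + 1), C (((E i) (κ - i * α)).coeff n) * X ^ (j (κ - i * α) i + K).toNat

section char

variable {p q : ℕ} {a : Ω} {A0 B : ℝ} {Z : Ω} {P : ℕ → ℝ →₀ k[X]} {lam : ℝ} {nA : ℕ}

/-- The frame `(G', M', w, t - c)` of `K`. -/
theorem FR.frk_ram (hr : FR p q v F K a A0 B G M w Z P lam nA) (hT : TStep v G M Z G' M' t m j)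
    {c : k} (ht : VPos v (t - algebraMap k Ω c)) (hne : t - algebraMap k Ω c ≠ 0) :
    Frk v G' M' w (t - algebraMap k Ω c) K := by
  have hMK : ∀ g ∈ G, M g ∈ K := fun g hg => hr.le (hr.frm.mon_mem hg)
  refine ⟨hT.ms', hT.fg, hr.frm.wne, hr.frm.wpos, hne, ht hne, hr.frk_eq (fun g hg => ?_) ?_
    fun R h1 h2 => ?_⟩
  · obtain ⟨g₀, hg₀, n, -, -, h3⟩ := hT.gen hg 0
    rw [zpow_zero, mul_one] at h3
    rw [h3]
    exact mul_mem (hMK g₀ hg₀) (zpow_mem hr.Z_mem n)
  · refine sub_mem ?_ (K.algebraMap_mem c)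
    rw [hT.t_eq]
    exact mul_mem (pow_mem hr.Z_mem m) (inv_mem (hMK _ hT.mem))
  · have htR : t ∈ R := by
      have h3 := add_mem h2 (R.algebraMap_mem c)
      rwa [sub_add_cancel] at h3
    refine ⟨fun g hg => ?_, ?_⟩
    · have h3 := hT.mon g hg 0
      rw [zpow_zero, mul_one] at h3
      rw [h3]
      exact mul_mem (h1 _ (hT.mem' hg 0)) (zpow_mem htR _)
    · have h3 := hT.mon 0 G.zero_mem 1
      rw [zpow_one, hT.ms.zero, one_mul] at h3
      rw [h3]
      exact mul_mem (h1 _ (hT.mem' G.zero_mem 1)) (zpow_mem htR _)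

/-- **The order constraint at the frame of the value of `Z`.** -/
theorem FR.ram [CharP k p] (h : Ctx0 k v) (hr : FR p q v F K a A0 B G M w Z P lam nA)
    (hog : OG p q v K a) (hT : TStep v G M Z G' M' t m j) {c : k} (hc : c ≠ 0)
    (ht : VPos v (t - algebraMap k Ω c)) (hne : t - algebraMap k Ω c ≠ 0) {κ : ℝ} (hκG : κ ∈ G')
    (hκq : κ ≤ lam + q * v Z) (hκ : ∀ i < q, Ct (κ - i * v Z) (P i)) {Kx : ℕ} (hpK : p ∣ Kx)
    (hK : ∀ i ≤ q, (ext q lam nA P i) (κ - i * v Z) ≠ 0 → 0 ≤ j (κ - i * v Z) i + Kx) {n : ℕ}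
    (hn : n < q) :
    (¬ (pdv p G' κ ∧ p ∣ n) → (X - C c) ^ (q - n) ∣ zl q (ext q lam nA P) j κ (v Z) n Kx) ∧
      (X - C c) ^ (q - n - 1) ∣ derivative (zl q (ext q lam nA P) j κ (v Z) n Kx) := by
  classical
  set α := v Z with hα
  set T := t - algebraMap k Ω c with hTdef
  have hκB : κ < B := hκq.trans_lt hr.top
  have hF : Frk v G' M' w T K := hr.frk_ram hT ht hne
  have hW : (X - C c : k[X]).eval c = 0 := by rw [eval_sub, eval_X, eval_C, sub_self]
  have hW' : (derivative (X - C c : k[X])).eval c ≠ 0 := by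
    rw [derivative_sub, derivative_X, derivative_C, sub_zero, eval_one]
    exact one_ne_zero
  have hTW : aeval t (X - C c : k[X]) = T := by rw [map_sub, aeval_X, aeval_C]
  choose R₀ hR₀ using fun i : ℤ => exists_apx hc hW hW' q i
  have key := hog G' M' w T hF κ hκG (fun l => ∑ i ∈ Finset.range (q + 1),
      C ((R₀ (j (κ - i * α) i)).coeff l) * (ext q lam nA P i) (κ - i * α)) (fun C₀ => by
    obtain ⟨b, hb, hb0, hvb, g, hg, n₀, E, hE1, hE2, h1⟩ := hr.rep C₀
    set N := max q n₀ with hN
    have hNq : q ≤ N := le_max_left _ _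
    have hNn : n₀ ≤ N := le_max_right _ _
    set Et := FR.tot q lam nA P n₀ E with hEt
    have hTpos : 0 < v T := ht hne
    obtain ⟨N₁, hN₁⟩ : ∃ N₁ : ℕ, C₀ ≤ κ + N₁ * v T := by
      obtain ⟨N₁, hN₁⟩ := exists_nat_ge ((C₀ - κ) / v T)
      refine ⟨N₁, ?_⟩
      rw [div_le_iff₀ hTpos] at hN₁
      linarith
    set N₂ := max q N₁ with hN₂
    have hN₂q : q ≤ N₂ := le_max_left _ _
    have hN₂C : C₀ ≤ κ + N₂ * v T := by
      refine hN₁.trans ?_
      have h2 : (N₁ : ℝ) ≤ N₂ := by exact_mod_cast le_max_right _ _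
      have := mul_le_mul_of_nonneg_right h2 hTpos.le
      linarith
    choose R hR using fun i : ℤ => exists_apx hc hW hW' N₂ i
    have hEin : ∀ l, InP G (Et l) := fun l => hr.tot_inP hE1 l
    have hEct : ∀ l : ℕ, Ct (κ - l * α) (Et l) := fun l =>
      FR.tot_ct hE2 hr.A0Z hκB hκq hκ l
    set d := 1 + ∑ i ∈ Finset.range (N + 1), ∑ g ∈ (Et i).support, (R (j g i)).natDegree with hd
    have hdeg : ∀ i ∈ Finset.range (N + 1), ∀ g ∈ (Et i).support, (R (j g i)).natDegree < d := by
      intro i hi g hg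
      have h2 := Finset.single_le_sum (f := fun g => (R (j g i)).natDegree)
        (fun _ _ => Nat.zero_le _) hg
      have h3 := Finset.single_le_sum (f := fun i : ℕ => ∑ g ∈ (Et i).support,
        (R (j g i)).natDegree) (fun _ _ => Nat.zero_le _) hi
      have h4 : (R (j g i)).natDegree ≤ ∑ i ∈ Finset.range (N + 1), ∑ g ∈ (Et i).support,
        (R (j g i)).natDegree := h2.trans h3
      omega
    set A : ℕ → ℝ →₀ k[X] := fun l => ∑ i ∈ Finset.range (N + 1), ∑ g ∈ (Et i).support,
      Finsupp.single (g + i * α) (C ((R (j g i)).coeff l) * (Et i) g) with hA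
    have hmem : ∀ (i : ℕ) (g : ℝ), g ∈ (Et i).support → g + i * α ∈ G' := by
      intro i g hg
      have h2 := hT.mem' (hEin i g (Finsupp.mem_support_iff.1 hg)) (i : ℤ)
      rwa [Int.cast_natCast] at h2
    have hcon : ∀ (i : ℕ) (g : ℝ), g ∈ (Et i).support → κ ≤ g + i * α := by
      intro i g hg
      have h2 := hEct i g (Finsupp.mem_support_iff.1 hg)
      linarith
    refine ⟨b, hr.le hb, hb0, hvb, g, hg, d, A, fun l _ => ?_, fun l _ => ?_, fun l hl => ?_,
      fun n l hnl => ?_, ?_⟩
    · exact InP.sum fun i _ => InP.sum fun g hg => InP.single (hmem i g hg) _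
    · exact Ct.sum fun i _ => Ct.sum fun g hg => Ct.single (hcon i g hg) _
    · refine Finset.sum_eq_zero fun i hi => Finset.sum_eq_zero fun g hg => ?_
      rw [coeff_eq_zero_of_natDegree_lt ((hdeg i hi g hg).trans_le hl), C_0, zero_mul,
        Finsupp.single_zero]
    · have h2 : (A l) κ = ∑ i ∈ Finset.range (N + 1),
          C ((R (j (κ - i * α) i)).coeff l) * (Et i) (κ - i * α) := by
        rw [hA]
        show (∑ i ∈ Finset.range (N + 1), ∑ g ∈ (Et i).support,
          Finsupp.single (g + i * α) (C ((R (j g i)).coeff l) * (Et i) g)) κ = _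
        rw [Finsupp.finsetSum_apply]
        refine Finset.sum_congr rfl fun i _ => ?_
        rw [Finsupp.finsetSum_apply, Finset.sum_eq_single (κ - i * α)]
        · rw [sub_add_cancel, Finsupp.single_eq_same]
        · intro g' _ hg'
          rw [Finsupp.single_eq_of_ne]
          intro h3
          exact hg' (by rw [h3]; ring)
        · intro h3
          rw [Finsupp.notMem_support_iff] at h3
          rw [h3, mul_zero, Finsupp.single_zero]
          rfl
      rw [h2, finsetSum_coeff, finsetSum_coeff]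
      have h3 : ∀ i ∈ Finset.range (N + 1), (C ((R (j (κ - i * α) i)).coeff l) *
          (Et i) (κ - i * α)).coeff n = if i < q + 1 then (C ((R₀ (j (κ - i * α) i)).coeff l) *
          (ext q lam nA P i) (κ - i * α)).coeff n else 0 := by
        intro i _
        have h4 : (R (j (κ - i * α) i)).coeff l = (R₀ (j (κ - i * α) i)).coeff l := by
          have h5 := Apx.dvd hc hW hW' hN₂q (hR₀ (j (κ - i * α) i)) (hR (j (κ - i * α) i))
          rw [X_pow_dvd_iff] at h5
          have h6 := h5 l (by omega)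
          rw [coeff_sub, sub_eq_zero] at h6
          exact h6
        rw [coeff_C_mul, coeff_C_mul, hEt, FR.tot_coeff hE2 hr.A0Z hκB i (by omega), h4]
        by_cases h5 : i ≤ q
        · rw [if_pos h5, if_pos (by omega)]
        · rw [if_neg h5, if_neg (by omega), mul_zero]
      rw [Finset.sum_congr rfl h3, ← Finset.sum_filter]
      refine Finset.sum_congr ?_ fun _ _ => rfl
      ext i
      rw [Finset.mem_filter, Finset.mem_range, Finset.mem_range]
      omega
    · -- the value
      have hA1 : ∑ l ∈ Finset.range d, evP M' w (A l) * T ^ l = ∑ i ∈ Finset.range (N + 1),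
          ∑ g ∈ (Et i).support, M' (g + i * α) * aeval w ((Et i) g) *
            aeval (aeval t (X - C c : k[X])) (R (j g i)) := by
        have h2 : ∀ l ∈ Finset.range d, evP M' w (A l) * T ^ l = ∑ i ∈ Finset.range (N + 1),
            ∑ g ∈ (Et i).support, M' (g + i * α) * aeval w ((Et i) g) *
              (algebraMap k Ω ((R (j g i)).coeff l) * T ^ l) := by
          intro l _
          rw [hA]
          show evP M' w (∑ i ∈ Finset.range (N + 1), ∑ g ∈ (Et i).support,
            Finsupp.single (g + i * α) (C ((R (j g i)).coeff l) * (Et i) g)) * T ^ l = _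
          rw [evP_sum, Finset.sum_mul]
          refine Finset.sum_congr rfl fun i _ => ?_
          rw [evP_sum, Finset.sum_mul]
          refine Finset.sum_congr rfl fun g _ => ?_
          rw [evP_single, map_mul, aeval_C]
          ring
        rw [Finset.sum_congr rfl h2, Finset.sum_comm]
        refine Finset.sum_congr rfl fun i hi => ?_
        rw [Finset.sum_comm]
        refine Finset.sum_congr rfl fun g hg => ?_
        rw [← Finset.mul_sum, hTW, aeval_eq_sum_range' (hdeg i hi g hg)]
        congr 1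
        refine Finset.sum_congr rfl fun l _ => ?_
        rw [Algebra.smul_def]
      have hZ1 : ∑ i ∈ Finset.range (N + 1), evP M w (Et i) * Z ^ i =
          ∑ i ∈ Finset.range (N + 1), ∑ g ∈ (Et i).support,
            M' (g + i * α) * aeval w ((Et i) g) * t ^ j g i := by
        refine Finset.sum_congr rfl fun i _ => ?_
        rw [evP_eq_sum, Finset.sum_mul]
        refine Finset.sum_congr rfl fun g hg => ?_
        have h2 := hT.mon g (hEin i g (Finsupp.mem_support_iff.1 hg)) (i : ℤ)
        rw [zpow_natCast, Int.cast_natCast] at h2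
        calc M g * aeval w ((Et i) g) * Z ^ i = aeval w ((Et i) g) * (M g * Z ^ i) := by ring
          _ = _ := by rw [h2]; ring
      have hsub : v.Ge C₀ (∑ i ∈ Finset.range (N + 1), evP M w (Et i) * Z ^ i -
          ∑ l ∈ Finset.range d, evP M' w (A l) * T ^ l) := by
        rw [hA1, hZ1, ← Finset.sum_sub_distrib]
        refine RVal.Ge.sum _ _ fun i _ => ?_
        rw [← Finset.sum_sub_distrib]
        refine RVal.Ge.sum _ _ fun g hg => ?_
        rw [← mul_sub]
        have h2 : v.Ge κ (M' (g + i * α)) := fun _ => by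
          rw [hT.ms'.val _ (hmem i g hg)]
          exact hcon i g hg
        have h3 := (hR (j g i)).ge (fun x => h.ge x) hT.t_ne hT.t_val (b := v T)
          (fun _ => le_rfl)
        have h4 := (h2.mul (aeval_ge h (fun _ => hr.frm.wpos.le) ((Et i) g))).mul h3
        rw [add_zero] at h4
        exact h4.mono hN₂C
      have h3 := FR.tot_sum (M := M) (w := w) (Z := Z) (lam := lam) (nA := nA) (P := P) (E := E)
        hNq (n₀ := n₀) (by omega)
      have e : a * b ^ p - (g ^ p + ∑ l ∈ Finset.range d, evP M' w (A l) * T ^ l) =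
          (a * b ^ p - (g ^ p + ∑ i ∈ Finset.range q, evP M w (P i) * Z ^ i +
            M lam * w ^ nA * Z ^ q + ∑ i ∈ Finset.range n₀, evP M w (E i) * Z ^ i)) +
          (∑ i ∈ Finset.range (N + 1), evP M w (Et i) * Z ^ i -
            ∑ l ∈ Finset.range d, evP M' w (A l) * T ^ l) := by
        rw [hEt, h3]
        ring
      rw [e]
      exact h1.add hsub)
  -- the polynomial
  set Φ : k[X] := ∑ i ∈ Finset.range (q + 1),
    C (((ext q lam nA P i) (κ - i * α)).coeff n) * R₀ (j (κ - i * α) i) with hΦ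
  have hΦc : ∀ l, Φ.coeff l = (∑ i ∈ Finset.range (q + 1),
      C ((R₀ (j (κ - i * α) i)).coeff l) * (ext q lam nA P i) (κ - i * α)).coeff n := by
    intro l
    rw [hΦ, finsetSum_coeff, finsetSum_coeff]
    refine Finset.sum_congr rfl fun i _ => ?_
    rw [coeff_C_mul, coeff_C_mul, mul_comm]
  have hzl : (X - C c) ^ q ∣ X ^ Kx * Φ.comp (X - C c) - zl q (ext q lam nA P) j κ α n Kx := by
    unfold zl
    rw [hΦ, Polynomial.sum_comp, Finset.mul_sum, ← Finset.sum_sub_distrib]
    refine Finset.dvd_sum fun i hi => ?_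
    rw [Finset.mem_range] at hi
    by_cases h0 : (ext q lam nA P i) (κ - i * α) = 0
    · rw [h0, coeff_zero, C_0, zero_mul, zero_comp, mul_zero, zero_mul, sub_zero]
      exact dvd_zero _
    · rw [mul_comp, C_comp]
      have h1 : X ^ Kx * (C (((ext q lam nA P i) (κ - i * α)).coeff n) *
          (R₀ (j (κ - i * α) i)).comp (X - C c)) -
          C (((ext q lam nA P i) (κ - i * α)).coeff n) * X ^ (j (κ - i * α) i + Kx).toNat =
          C (((ext q lam nA P i) (κ - i * α)).coeff n) *
          (X ^ Kx * (R₀ (j (κ - i * α) i)).comp (X - C c) -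
            X ^ (j (κ - i * α) i + Kx).toNat) := by ring
      rw [h1]
      exact (hR₀ (j (κ - i * α) i) Kx (hK i (by omega) h0)).mul_left _
  constructor
  · intro hnp
    have h1 : X ^ (q - n) ∣ Φ := by
      rw [X_pow_dvd_iff]
      intro l hl
      rw [hΦc]
      rcases key n l (by omega) with h2 | h2
      · exact absurd ⟨h2.1, h2.2.1⟩ hnp
      · exact h2
    obtain ⟨Ψ, hΨ⟩ := h1
    have h2 : (X - C c) ^ (q - n) ∣ X ^ Kx * Φ.comp (X - C c) := by
      rw [hΨ, mul_comp, pow_comp, X_comp]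
      exact (Dvd.intro _ rfl).mul_left _
    have h3 := (pow_dvd_pow (X - C c) (Nat.sub_le q n)).trans hzl
    have h4 := dvd_sub h2 h3
    rwa [sub_sub_cancel] at h4
  · have h1 : X ^ (q - n - 1) ∣ derivative Φ := by
      rw [X_pow_dvd_iff]
      intro l hl
      rw [coeff_derivative, hΦc]
      rcases key n (l + 1) (by omega) with h2 | h2
      · have h3 : ((l + 1 : ℕ) : k) = 0 := (CharP.cast_eq_zero_iff k p _).2 h2.2.2
        push_cast at h3
        rw [h3, mul_zero]
      · rw [h2, zero_mul]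
    obtain ⟨Ψ, hΨ⟩ := h1
    have hKder : derivative (X ^ Kx : k[X]) = 0 := by
      rw [derivative_X_pow]
      have h3 : ((Kx : ℕ) : k) = 0 := (CharP.cast_eq_zero_iff k p _).2 hpK
      rw [h3, C_0, zero_mul]
    have h2 : (X - C c) ^ (q - n - 1) ∣ derivative (X ^ Kx * Φ.comp (X - C c)) := by
      rw [derivative_mul, hKder, zero_mul, zero_add, derivative_comp, derivative_sub, derivative_X,
        derivative_C, sub_zero, one_mul, hΨ, mul_comp, pow_comp, X_comp]
      exact (Dvd.intro _ rfl).mul_left _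
    obtain ⟨S, hS⟩ := hzl
    have h3 : (X - C c) ^ (q - n - 1) ∣ derivative ((X - C c) ^ q * S) := by
      rw [derivative_mul]
      refine dvd_add ?_ ((pow_dvd_pow _ (by omega)).mul_right _)
      refine Dvd.dvd.mul_right ?_ _
      rw [derivative_X_sub_C_pow]
      exact (pow_dvd_pow _ (by omega)).mul_left _
    have h4 : zl q (ext q lam nA P) j κ α n Kx =
        X ^ Kx * Φ.comp (X - C c) - (X - C c) ^ q * S := by
      rw [← hS]
      ring
    rw [h4, derivative_sub]
    exact dvd_sub h2 h3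

end char

end Pool.Agent.TWN
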