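import Pool.Agent.Lib.TW_NFG.OG2

/-!
# NFG, `s = 2`: the order constraint, the consequences for the coefficients

* `zl_coeff`, `zl_form`: the polynomial of a line in the direction of `Z`;
* `FR.con2G`: the scales `b ∈ G`; `FR.con2Z`: the scale `b = v(Z) ∉ G`.
-/

set_option autoImplicit false

open Polynomial

namespace Pool.Agent.TWN

open Pool.Agent.H15JM (RVal)
open Pool.Agent.LU1 (VPos)
open Pool.Agent.D2 (Ctx0)
open Pool.Agent.TWM (MS TL cadj VG Cld)
open Pool.Agent.D2P (clI mem_clI)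
open Pool.Agent.TWJ (Frk evQ InCt)

universe u

variable {k Ω : Type u} [Field k] [Field Ω] [Algebra k Ω] {v : RVal Ω} {G G' : AddSubgroup ℝ}
  {M M' : ℝ → Ω} {w t : Ω} {F K : IntermediateField k Ω} {m : ℕ} {j : ℝ → ℤ → ℤ}

/-! ### The polynomial of a line -/

section line

variable {q : ℕ} {E : ℕ → ℝ →₀ k[X]} {κ : ℝ} {Z : Ω} {n Kx : ℕ}

omit [Algebra k Ω] in
/-- The exponents of two indices on a line. -/
theorem zl_line (hT : TStep v G M Z G' M' t m j) (hE : ∀ i ≤ q, InP G (E i)) {i i' : ℕ}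
    (hi : i ≤ q) (hi' : i' ≤ q) (h : (E i) (κ - i * v Z) ≠ 0) (h' : (E i') (κ - i' * v Z) ≠ 0) :
    (i : ℤ) - i' = m * (j (κ - i * v Z) i - j (κ - i' * v Z) i') :=
  hT.line _ (hE i hi _ h) _ (hE i' hi' _ h') i i' (by push_cast; ring)

omit [Algebra k Ω] in
theorem zl_coeff (hT : TStep v G M Z G' M' t m j) (hE : ∀ i ≤ q, InP G (E i))
    (hK : ∀ i ≤ q, (E i) (κ - i * v Z) ≠ 0 → 0 ≤ j (κ - i * v Z) i + Kx) {i : ℕ} (hi : i ≤ q)
    (h : (E i) (κ - i * v Z) ≠ 0) : (zl q E j κ (v Z) n Kx).coeff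
      (j (κ - i * v Z) i + Kx).toNat = ((E i) (κ - i * v Z)).coeff n := by
  unfold zl
  rw [finsetSum_coeff, Finset.sum_eq_single i]
  · rw [coeff_C_mul_X_pow, if_pos rfl]
  · intro l hl hli
    rw [Finset.mem_range] at hl
    by_cases h0 : (E l) (κ - l * v Z) = 0
    · rw [h0, coeff_zero, C_0, zero_mul, coeff_zero]
    · rw [coeff_C_mul_X_pow, if_neg]
      intro h1
      apply hli
      have h2 := zl_line hT hE hi (by omega) h h0
      have h3 := hK i hi h
      have h4 := hK l (by omega) h0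
      have h5 : j (κ - i * v Z) i = j (κ - l * v Z) l := by omega
      rw [h5, sub_self, mul_zero] at h2
      omega
  · intro h1
    exact absurd (Finset.mem_range.2 (by omega)) h1

omit [Algebra k Ω] in
theorem zl_coeff_ne {e : ℕ} (he : (zl q E j κ (v Z) n Kx).coeff e ≠ 0) :
    ∃ i ≤ q, (E i) (κ - i * v Z) ≠ 0 ∧ e = (j (κ - i * v Z) i + Kx).toNat := by
  unfold zl at he
  rw [finsetSum_coeff] at he
  obtain ⟨i, hi, h1⟩ := Finset.exists_ne_zero_of_sum_ne_zero he
  rw [Finset.mem_range] at hi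
  rw [coeff_C_mul_X_pow] at h1
  refine ⟨i, by omega, fun h0 => ?_, ?_⟩
  · rw [h0, coeff_zero] at h1
    split_ifs at h1 <;> exact h1 rfl
  · by_contra hcon
    rw [if_neg hcon] at h1
    exact h1 rfl

omit [Algebra k Ω] in
/-- The exponents are in a small interval. -/
theorem zl_form (hT : TStep v G M Z G' M' t m j) (hE : ∀ i ≤ q, InP G (E i))
    (hK : ∀ i ≤ q, (E i) (κ - i * v Z) ≠ 0 → 0 ≤ j (κ - i * v Z) i + Kx) {i₀ : ℕ}
    (hi₀ : ∀ l, i₀ < l → l ≤ q → (E l) (κ - l * v Z) = 0) (n : ℕ) :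
    ∃ (a : ℕ) (H : k[X]), zl q E j κ (v Z) n Kx = X ^ a * H ∧ H.natDegree * m ≤ i₀ := by
  by_cases h0 : zl q E j κ (v Z) n Kx = 0
  · exact ⟨0, 0, by rw [h0, mul_zero], by simp⟩
  set F₁ := zl q E j κ (v Z) n Kx with hF
  obtain ⟨H, hH⟩ : X ^ F₁.natTrailingDegree ∣ F₁ := by
    rw [X_pow_dvd_iff]
    intro d hd
    exact coeff_eq_zero_of_lt_natTrailingDegree hd
  refine ⟨F₁.natTrailingDegree, H, hH, ?_⟩
  obtain ⟨x, hx, hxν, hx1⟩ := zl_coeff_ne (e := F₁.natDegree) (by
    rw [← hF]; exact leadingCoeff_ne_zero.2 h0)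
  obtain ⟨y, hy, hyν, hy1⟩ := zl_coeff_ne (e := F₁.natTrailingDegree) (by
    rw [← hF]; exact trailingCoeff_nonzero_iff_nonzero.2 h0)
  have h1 := zl_line hT hE hx hy hxν hyν
  have h2 := hK x hx hxν
  have h3 := hK y hy hyν
  have h4 : H.natDegree + F₁.natTrailingDegree = F₁.natDegree := by
    have hH0 : H ≠ 0 := by
      rintro rfl
      rw [mul_zero] at hH
      exact h0 hH
    conv_rhs => rw [hH]
    rw [natDegree_mul (pow_ne_zero _ X_ne_zero) hH0, natDegree_X_pow, add_comm]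
  have h5 : x ≤ i₀ := by
    by_contra hcon
    exact hxν (hi₀ x (by omega) hx)
  have h6 : (H.natDegree : ℤ) = j (κ - x * v Z) x - j (κ - y * v Z) y := by omega
  have h7 : ((H.natDegree * m : ℕ) : ℤ) = x - y := by
    rw [h1]
    push_cast
    rw [h6]
    ring
  omega

/-- The order of a nonzero derivative. -/
theorem order_deriv_le' {c : k} (hc : c ≠ 0) {a n : ℕ} {H : k[X]}
    (h0 : derivative (X ^ a * H) ≠ 0) (h : (X - C c) ^ n ∣ derivative (X ^ a * H)) :
    n ≤ H.natDegree := by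
  have h1 : X * derivative (X ^ a * H) = X ^ a * ((a : k[X]) * H + X * derivative H) := by
    rcases a with _ | a
    · rw [pow_zero, one_mul]
      simp
    · rw [derivative_mul, derivative_X_pow, C_eq_natCast, Nat.add_sub_cancel, pow_succ]
      push_cast
      ring
  have h2 : (X - C c) ^ n ∣ X ^ a * ((a : k[X]) * H + X * derivative H) := by
    rw [← h1]
    exact h.mul_left _
  have h3 : ((a : k[X]) * H + X * derivative H) ≠ 0 := by
    intro h4
    rw [h4, mul_zero] at h1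
    exact h0 ((mul_eq_zero.1 h1).resolve_left X_ne_zero)
  refine (order_le hc h3 h2).trans ?_
  refine (natDegree_add_le _ _).trans (max_le ?_ ?_)
  · rw [← C_eq_natCast]
    exact natDegree_C_mul_le _ _
  · by_cases h5 : derivative H = 0
    · rw [h5, mul_zero, natDegree_zero]
      omega
    · rw [natDegree_X_mul h5]
      have h6 := natDegree_derivative_lt (p := H) (by
        intro h7
        apply h5
        rw [eq_C_of_natDegree_eq_zero h7, derivative_C])
      omega

end line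

section char

variable {p q τ Q : ℕ} {a : Ω} {A0 B : ℝ} {Z : Ω} {P : ℕ → ℝ →₀ k[X]} {lam : ℝ} {nA : ℕ}

/-- The first alternative. -/
def Alt1 (p q : ℕ) (G : AddSubgroup ℝ) (P : ℕ → ℝ →₀ k[X]) (κ b : ℝ) : Prop :=
  ∃ i < q, (∀ l, i < l → l < q → P l (κ - l * b) = 0) ∧ P i (κ - i * b) ≠ 0 ∧
    ((p ∣ i ∧ FO p G (κ - i * b) (q - 1 - i) (P i (κ - i * b))) ∨
      (i = 1 ∧ X ^ (q - 1) ∣ P 1 (κ - 1 * b)))

/-- The largest index with a property. -/
theorem exists_largest {q : ℕ} {S : ℕ → Prop} (h : ∃ i < q, S i) :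
    ∃ i < q, S i ∧ ∀ l, i < l → l < q → ¬ S l := by
  classical
  obtain ⟨i, hi, h1⟩ := h
  have hne : ((Finset.range q).filter S).Nonempty :=
    ⟨i, Finset.mem_filter.2 ⟨Finset.mem_range.2 hi, h1⟩⟩
  obtain ⟨x, hx, hmax⟩ := ((Finset.range q).filter S).exists_max_image id hne
  rw [Finset.mem_filter, Finset.mem_range] at hx
  refine ⟨x, hx.1, hx.2, fun l hl1 hl2 hl3 => ?_⟩
  have h2 := hmax l (Finset.mem_filter.2 ⟨Finset.mem_range.2 hl2, hl3⟩)
  simp only [id] at h2
  omega

theorem pdv_sub {b κ : ℝ} (hb : b ∈ G) {i : ℕ} (hi : p ∣ i) (h : pdv p G κ) :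
    pdv p G (κ - i * b) := by
  obtain ⟨d, hd, rfl⟩ := h
  obtain ⟨i', rfl⟩ := hi
  refine ⟨d - i' * b, G.sub_mem hd ?_, by push_cast; ring⟩
  rw [← nsmul_eq_mul]
  exact G.nsmul_mem hb _

/-- The first alternative from the vanishing of the coefficients. -/
theorem alt1_of (hix : ∀ i < q, ¬ Ix p i → P i = 0) {κ b : ℝ} {i : ℕ} (hi : i < q)
    (hl : ∀ l, i < l → l < q → P l (κ - l * b) = 0) (h0 : P i (κ - i * b) ≠ 0)
    (h1 : ∀ n, p ∣ i → n + i + 1 < q → (P i (κ - i * b)).coeff n = 0)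
    (h2 : ∀ n, p ∣ i → n + i < q → ¬ p ∣ n → (P i (κ - i * b)).coeff n = 0)
    (h3 : ∀ n, i = 1 → n + 1 < q → (P i (κ - i * b)).coeff n = 0) [CharP k p] :
    Alt1 p q G P κ b := by
  refine ⟨i, hi, hl, h0, ?_⟩
  have h4 : Ix p i := by
    by_contra hcon
    exact h0 (by rw [hix i hi hcon]; rfl)
  rcases h4 with h4 | h4
  · left
    refine ⟨h4, ?_, Or.inr ?_⟩
    · rw [X_pow_dvd_iff]
      intro n hn
      rw [coeff_derivative]
      by_cases h5 : p ∣ n + 1
      · have h6 : ((n + 1 : ℕ) : k) = 0 := (CharP.cast_eq_zero_iff k p _).2 h5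
        push_cast at h6
        rw [h6, mul_zero]
      · rw [h2 (n + 1) h4 (by omega) h5, zero_mul]
    · rw [X_pow_dvd_iff]
      intro n hn
      exact h1 n h4 (by omega)
  · right
    refine ⟨h4, ?_⟩
    rw [X_pow_dvd_iff]
    intro n hn
    have h5 := h3 n h4 (by omega)
    rwa [h4, Nat.cast_one] at h5

/-- The scales `b ∈ G`. -/
theorem FR.con2G [CharP k p] (h : Ctx0 k v) (hr : FR p q v F K a A0 B G M w Z P lam nA)
    (hog : OG p q v K a) (hprm : Prm p q τ Q) (hnpd : ∀ i < q, p ∣ i → NPD p G (P i))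
    (hix : ∀ i < q, ¬ Ix p i → P i = 0) {b : ℝ} (hb : b ∈ G) (hbA : A0 ≤ b) (hbZ : b ≤ v Z)
    {κ : ℝ} (hκq : κ ≤ lam + q * b) (hκ : ∀ i < q, Ct (κ - i * b) (P i))
    (hyp : (κ = lam + q * b ∧ b = v Z) ∨ ∃ i < q, P i (κ - i * b) ≠ 0) :
    Alt1 p q G P κ b ∨
    (κ = lam + q * b ∧ b ∈ G ∧ (∀ i, τ < i → i < q → P i (κ - i * b) = 0) ∧
      ∃ b₀ : k, b₀ ≠ 0 ∧ FO p G (κ - τ * b) (q - 1 - τ) (P τ (κ - τ * b) + C b₀ * X ^ nA)) := by
  have hnb : ∀ n : ℕ, (n : ℝ) * b ∈ G := fun n => by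
    rw [← nsmul_eq_mul]
    exact G.nsmul_mem hb _
  have hZ0 : Z ≠ 0 := hr.far 0 (zero_mem _)
  have hMb := hr.frm.ms.ne b hb
  have hvZM : v (Z * (M b)⁻¹) = v Z - b := by
    rw [v.map_mul hZ0 (inv_ne_zero hMb), v.map_inv hMb, hr.frm.ms.val b hb, sub_eq_add_neg]
  have hκG : κ ∈ G := by
    rcases hyp with ⟨h1, -⟩ | ⟨i, hi, h1⟩
    · rw [h1]
      exact G.add_mem hr.lamG (hnb q)
    · have h2 := G.add_mem (hr.inP i hi _ h1) (hnb i)
      rwa [sub_add_cancel] at h2
  obtain ⟨t₀, ht, ht0⟩ : ∃ t₀ : k, VPos v (Z * (M b)⁻¹ - algebraMap k Ω t₀) ∧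
      ((b < v Z ∧ t₀ = 0) ∨ (b = v Z ∧ t₀ ≠ 0)) := by
    rcases hbZ.lt_or_eq with h1 | h1
    · refine ⟨0, ?_, Or.inl ⟨h1, rfl⟩⟩
      rw [map_zero, sub_zero]
      intro _
      rw [hvZM]
      linarith
    · obtain ⟨c, hc, h2⟩ := h.res (Z * (M b)⁻¹) (mul_ne_zero hZ0 (inv_ne_zero hMb))
        (by rw [hvZM, h1, sub_self])
      exact ⟨c, h2, Or.inr ⟨h1, hc⟩⟩
  have key := fun (n l : ℕ) (hnl : n + l < q) => hr.scale hog hb hbA hbZ ht hκG hκq hκ hnl
  -- the index `i`, nothing above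
  have step : ∀ i < q, (∀ l, i < l → l < q → P l (κ - l * b) = 0) → P i (κ - i * b) ≠ 0 →
      ((q.choose i : k) * t₀ ^ (q - i) = 0 ∨ κ ≠ lam + q * b) → Alt1 p q G P κ b := by
    intro i hi hl h0 hq
    have h1 : ∀ n, n + i < q → (P i (κ - i * b)).coeff n = 0 := by
      intro n hn
      have h2 : ∑ l ∈ Finset.Icc i q, (l.choose i : k) * t₀ ^ (l - i) *
          ((ext q lam nA P l) (κ - l * b)).coeff n = (P i (κ - i * b)).coeff n := by
        rw [Finset.sum_eq_single i]
        · rw [Nat.choose_self, Nat.cast_one, Nat.sub_self, pow_zero, mul_one, one_mul, ext_lt hi]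
        · intro l hl' hli
          rw [Finset.mem_Icc] at hl'
          rcases hl'.2.lt_or_eq with h3 | rfl
          · rw [ext_lt h3, hl l (by omega) h3, coeff_zero, mul_zero]
          · rcases hq with hq | hq
            · rw [hq, zero_mul]
            · rw [ext_q, Finsupp.single_eq_of_ne, coeff_zero, mul_zero]
              intro h3
              exact hq (by rw [← h3]; ring)
        · intro h3
          exact absurd (Finset.mem_Icc.2 ⟨le_rfl, hi.le⟩) h3
      rcases key n i hn with ⟨h3, h4, h5⟩ | h3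
      · by_contra hcon
        exact hnpd i hi h5 (κ - i * b, n) (mem_terms.2 hcon)
          ⟨pdv_sub hb h5 h3, h4⟩
      · rwa [h2] at h3
    exact alt1_of hix hi hl h0 (fun n _ hn => h1 n (by omega)) (fun n _ hn _ => h1 n hn)
      (fun n h1' hn => h1 n (by omega))
  by_cases hcase : κ = lam + q * b ∧ b = v Z
  · obtain ⟨hκ1, hbv⟩ := hcase
    have ht0' : t₀ ≠ 0 := by
      rcases ht0 with h1 | h1
      · exact absurd h1.1 (by rw [hbv]; exact lt_irrefl _)
      · exact h1.2
    by_cases hex : ∃ i < q, τ < i ∧ P i (κ - i * b) ≠ 0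
    · obtain ⟨i, hi, ⟨h1, h2⟩, h3⟩ := exists_largest hex
      left
      refine step i hi (fun l hl1 hl2 => ?_) h2 (Or.inl ?_)
      · by_contra hcon
        exact h3 l hl1 hl2 ⟨by omega, hcon⟩
      · have h4 : p ∣ q.choose i := by
          by_contra hcon
          exact hprm.nsq i h1 hi ⟨hi, hcon⟩
        rw [(CharP.cast_eq_zero_iff k p _).2 h4, zero_mul]
    · push Not at hex
      right
      have hτq : τ < q := hprm.sq.1
      have hpτ : p ∣ τ := by
        have h1 := hprm.hpq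
        rw [hprm.hq] at h1
        exact (Nat.dvd_add_left hprm.hpQ).1 h1
      have hb0 : (q.choose τ : k) * t₀ ^ (q - τ) ≠ 0 :=
        mul_ne_zero (fun h1 => hprm.sq.2 ((CharP.cast_eq_zero_iff k p _).1 h1))
          (pow_ne_zero _ ht0')
      refine ⟨hκ1, hb, fun i h1 h2 => hex i h2 h1, (q.choose τ : k) * t₀ ^ (q - τ), hb0, ?_⟩
      have h1 : ∀ n, n + τ < q → (pdv p G κ ∧ p ∣ n) ∨
          (P τ (κ - τ * b) + C ((q.choose τ : k) * t₀ ^ (q - τ)) * X ^ nA).coeff n = 0 := by
        intro n hn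
        have h2 : ∑ l ∈ Finset.Icc τ q, (l.choose τ : k) * t₀ ^ (l - τ) *
            ((ext q lam nA P l) (κ - l * b)).coeff n =
            (P τ (κ - τ * b) + C ((q.choose τ : k) * t₀ ^ (q - τ)) * X ^ nA).coeff n := by
          rw [← Finset.sum_subset (s₁ := {τ, q})]
          · rw [Finset.sum_pair hτq.ne, Nat.choose_self, Nat.cast_one, Nat.sub_self, pow_zero,
              mul_one, one_mul, ext_lt hτq, ext_q, coeff_add, coeff_C_mul]
            congr 3
            rw [hκ1, add_sub_cancel_right, Finsupp.single_eq_same]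
          · intro x hx
            rw [Finset.mem_insert, Finset.mem_singleton] at hx
            rw [Finset.mem_Icc]
            omega
          · intro x hx hx'
            rw [Finset.mem_insert, Finset.mem_singleton] at hx'
            rw [Finset.mem_Icc] at hx
            push Not at hx'
            rw [ext_lt (by omega), hex x (by omega) (by omega), coeff_zero, mul_zero]
        rcases key n τ hn with ⟨h3, h4, -⟩ | h3
        · exact Or.inl ⟨h3, h4⟩
        · right
          rwa [h2] at h3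
      constructor
      · rw [X_pow_dvd_iff]
        intro n hn
        rw [coeff_derivative]
        rcases h1 (n + 1) (by omega) with ⟨-, h2⟩ | h2
        · have h6 : ((n + 1 : ℕ) : k) = 0 := (CharP.cast_eq_zero_iff k p _).2 h2
          push_cast at h6
          rw [h6, mul_zero]
        · rw [h2, zero_mul]
      · by_cases h2 : pdv p G κ
        · exact Or.inl (pdv_sub hb hpτ h2)
        · right
          rw [X_pow_dvd_iff]
          intro n hn
          rcases h1 n (by omega) with h3 | h3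
          · exact absurd h3.1 h2
          · exact h3
  · left
    have hex : ∃ i < q, P i (κ - i * b) ≠ 0 := hyp.resolve_left hcase
    obtain ⟨i, hi, h2, h3⟩ := exists_largest hex
    refine step i hi (fun l hl1 hl2 => ?_) h2 ?_
    · by_contra hcon
      exact h3 l hl1 hl2 hcon
    · rcases ht0 with ⟨h4, h5⟩ | ⟨h4, h5⟩
      · left
        rw [h5, zero_pow (by omega), mul_zero]
      · right
        intro h6
        exact hcase ⟨h6, h4⟩

/-- The number of exponents bounds the order, `i₀` the largest index. -/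
theorem FR.ord_ram [CharP k p] (h : Ctx0 k v)
    (hr : FR p q v F K a A0 B G M w Z P lam nA) (hog : OG p q v K a)
    (hT : TStep v G M Z G' M' t m j) {c : k} (hc : c ≠ 0)
    (ht : VPos v (t - algebraMap k Ω c)) (hne : t - algebraMap k Ω c ≠ 0) {κ : ℝ} (hκG : κ ∈ G')
    (hκq : κ ≤ lam + q * v Z) (hκ : ∀ i < q, Ct (κ - i * v Z) (P i)) {Kx : ℕ} (hpK : p ∣ Kx)
    (hK : ∀ i ≤ q, (ext q lam nA P i) (κ - i * v Z) ≠ 0 → 0 ≤ j (κ - i * v Z) i + Kx) {i₀ : ℕ}
    (hi₀q : i₀ ≤ q) (hi₀ : ∀ l, i₀ < l → l ≤ q → (ext q lam nA P l) (κ - l * v Z) = 0)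
    {n : ℕ} (hn : n < q) (h0 : ((ext q lam nA P i₀) (κ - i₀ * v Z)).coeff n ≠ 0) :
    (¬ (pdv p G' κ ∧ p ∣ n) → (q - n) * m ≤ i₀) ∧
    (¬ (pdv p G (κ - i₀ * v Z) ∧ p ∣ n ∧ p ∣ i₀) → (q - n - 1) * m ≤ i₀) := by
  have hEin : ∀ i ≤ q, InP G (ext q lam nA P i) := by
    intro i hi
    rcases hi.lt_or_eq with h1 | rfl
    · rw [ext_lt h1]
      exact hr.inP i h1
    · rw [ext_q]
      exact InP.single hr.lamG _
  have hne0 : (ext q lam nA P i₀) (κ - i₀ * v Z) ≠ 0 := fun h1 => h0 (by rw [h1, coeff_zero])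
  obtain ⟨h1, h2⟩ := hr.ram h hog hT hc ht hne hκG hκq hκ hpK hK hn
  obtain ⟨a₁, H, hH, hdeg⟩ := zl_form hT hEin hK hi₀ n
  have hco := zl_coeff (n := n) hT hEin hK hi₀q hne0
  have hH0 : H ≠ 0 := by
    rintro rfl
    rw [hH, mul_zero, coeff_zero] at hco
    exact h0 hco.symm
  have hA : ¬ (pdv p G' κ ∧ p ∣ n) → (q - n) * m ≤ i₀ := by
    intro h3
    have h4 := h1 h3
    rw [hH] at h4
    exact (Nat.mul_le_mul_right m (order_le hc hH0 h4)).trans hdeg
  refine ⟨hA, fun h3 => ?_⟩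
  by_cases h4 : pdv p G' κ ∧ p ∣ n
  · have hpj : ¬ (p : ℤ) ∣ j (κ - i₀ * v Z) i₀ := by
      intro h5
      have h6 := hT.dvd (hEin i₀ hi₀q _ hne0) (n := (i₀ : ℤ)) (q := p) (by
        obtain ⟨d, hd, h6⟩ := h4.1
        exact ⟨d, hd, by rw [← h6]; push_cast; ring⟩) h5
      exact h3 ⟨h6.1, h4.2, by exact_mod_cast h6.2⟩
    have h5 := h2
    rw [hH] at h5
    have h6 : derivative (X ^ a₁ * H) ≠ 0 := by
      intro h7
      rw [← hH] at h7
      have h8 := hK i₀ hi₀q hne0
      set e := (j (κ - i₀ * v Z) i₀ + Kx).toNat with he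
      have h9 : ¬ p ∣ e := by
        intro h10
        apply hpj
        have h11 : (p : ℤ) ∣ (e : ℤ) := by exact_mod_cast h10
        rw [he, Int.toNat_of_nonneg h8] at h11
        have h12 : (p : ℤ) ∣ (Kx : ℤ) := by exact_mod_cast hpK
        exact (dvd_add_left h12).1 h11
      obtain ⟨e', he'⟩ : ∃ e', e = e' + 1 := by
        refine ⟨e - 1, ?_⟩
        have : e ≠ 0 := fun h10 => h9 (by rw [h10]; exact dvd_zero p)
        omega
      have h10 := congrArg (fun f => f.coeff e') h7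
      simp only [coeff_derivative, coeff_zero] at h10
      rw [← he', hco] at h10
      rcases mul_eq_zero.1 h10 with h11 | h11
      · exact h0 h11
      · apply h9
        rw [he', ← CharP.cast_eq_zero_iff k p]
        push_cast
        exact h11
    exact (Nat.mul_le_mul_right m (order_deriv_le' hc h6 h5)).trans hdeg
  · refine le_trans (Nat.mul_le_mul_right m ?_) (hA h4)
    omega

/-- The scale `b = v(Z)`, not in `G`. -/
theorem FR.con2Z [CharP k p] (h : Ctx0 k v) (hr : FR p q v F K a A0 B G M w Z P lam nA)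
    (hog : OG p q v K a) (hprm : Prm p q τ Q) (hnpd : ∀ i < q, p ∣ i → NPD p G (P i))
    (hix : ∀ i < q, ¬ Ix p i → P i = 0)
    (htyp : (nA = 0 ∧ ¬ pdv p G lam) ∨ (nA = 1 ∧ pdv p G lam))
    (hvZ : ∃ m : ℕ, 0 < m ∧ (m : ℝ) * v Z ∈ G) (hZF : ∀ m : ℕ, 0 < m → Z ^ m ∉ F)
    (hbG : v Z ∉ G) {κ : ℝ} (hκq : κ ≤ lam + q * v Z) (hκ : ∀ i < q, Ct (κ - i * v Z) (P i))
    (hyp : κ = lam + q * v Z ∨ ∃ i < q, P i (κ - i * v Z) ≠ 0) :
    Alt1 p q G P κ (v Z) ∨
    (q = 2 ∧ κ = lam + q * v Z ∧ ¬ pdv p G κ ∧ P 0 κ ≠ 0 ∧ (P 0 κ).coeff 0 = 0) := by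
  have hp := hprm.pp
  have hq2 : 2 ≤ q := by
    have h1 := hprm.hq
    have h2 := hprm.hQ
    omega
  have hZ0 : Z ≠ 0 := hr.far 0 (zero_mem _)
  obtain ⟨G', M', t, m, j, hT⟩ := exists_tstep hr.frm.ms hr.frm.fg hZ0 hvZ
  have hm2 : 2 ≤ m := hT.two_le hbG
  obtain ⟨c, hc, ht⟩ := h.res t hT.t_ne hT.t_val
  have hne : t - algebraMap k Ω c ≠ 0 := by
    intro h1
    rw [sub_eq_zero, hT.t_eq] at h1
    have hMm := hr.frm.ms.ne _ hT.mem
    apply hZF m (by omega)
    have h2 : Z ^ m = algebraMap k Ω c * M (m * v Z) := by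
      rw [← h1, mul_assoc, inv_mul_cancel₀ hMm, mul_one]
    rw [h2]
    exact mul_mem (F.algebraMap_mem c) (hr.frm.mon_mem hT.mem)
  have hEin : ∀ i ≤ q, InP G (ext q lam nA P i) := by
    intro i hi
    rcases hi.lt_or_eq with h1 | rfl
    · rw [ext_lt h1]
      exact hr.inP i h1
    · rw [ext_q]
      exact InP.single hr.lamG _
  have hκG : κ ∈ G' := by
    rcases hyp with h1 | ⟨i, hi, h1⟩
    · rw [h1]
      have h2 := hT.mem' hr.lamG (q : ℤ)
      rwa [Int.cast_natCast] at h2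
    · have h2 := hT.mem' (hr.inP i hi _ h1) (i : ℤ)
      rwa [Int.cast_natCast, sub_add_cancel] at h2
  -- the shift
  obtain ⟨Kx, hpK, hK0⟩ : ∃ Kx : ℕ, p ∣ Kx ∧ ∀ i ≤ q, 0 ≤ j (κ - i * v Z) i + Kx := by
    set S := ∑ i ∈ Finset.range (q + 1), (j (κ - i * v Z) i).natAbs with hS
    refine ⟨p * S, Dvd.intro _ rfl, fun i hi => ?_⟩
    have h1 : (j (κ - i * v Z) i).natAbs ≤ S := by
      rw [hS]
      exact Finset.single_le_sum (f := fun i : ℕ => (j (κ - i * v Z) i).natAbs)
        (fun _ _ => Nat.zero_le _) (Finset.mem_range.2 (by omega))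
    have h2 : S ≤ p * S := Nat.le_mul_of_pos_left _ hp.pos
    have h3 : (j (κ - i * v Z) i).natAbs ≤ p * S := h1.trans h2
    omega
  have hK : ∀ i ≤ q, (ext q lam nA P i) (κ - i * v Z) ≠ 0 → 0 ≤ j (κ - i * v Z) i + Kx :=
    fun i hi _ => hK0 i hi
  by_cases hcase : κ = lam + q * v Z
  · right
    have htop : (ext q lam nA P q) (κ - q * v Z) = X ^ nA := by
      rw [ext_q, hcase, add_sub_cancel_right, Finsupp.single_eq_same]
    have hno : ∀ l, q < l → l ≤ q → (ext q lam nA P l) (κ - l * v Z) = 0 := fun l h1 h2 => by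
      omega
    -- the order at the coefficient `nA`
    have hnA : nA < q := by rcases htyp with h1 | h1 <;> omega
    have h0 : ((ext q lam nA P q) (κ - q * v Z)).coeff nA ≠ 0 := by
      rw [htop, coeff_X_pow, if_pos rfl]
      exact one_ne_zero
    obtain ⟨h1, h2⟩ := hr.ord_ram h hog hT hc ht hne hκG hκq hκ hpK hK le_rfl hno hnA h0
    have hnotpd : ¬ (pdv p G (κ - q * v Z) ∧ p ∣ nA ∧ p ∣ q) := by
      rw [hcase, add_sub_cancel_right]
      rintro ⟨h3, h4, -⟩
      rcases htyp with h5 | h5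
      · exact h5.2 h3
      · rw [h5.1] at h4
        exact hp.one_lt.ne' (Nat.dvd_one.1 h4)
    have hq : q = 2 ∧ m = 2 := by
      rcases htyp with h5 | h5
      · have h6 := h2 hnotpd
        rw [h5.1, Nat.sub_zero] at h6
        have h7 : (q - 1) * 2 ≤ (q - 1) * m := Nat.mul_le_mul_left _ hm2
        have h8 : q = 2 := by omega
        subst h8
        omega
      · have h6 := h1 (by
          rintro ⟨-, h7⟩
          rw [h5.1] at h7
          exact hp.one_lt.ne' (Nat.dvd_one.1 h7))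
        rw [h5.1] at h6
        have h7 : (q - 1) * 2 ≤ (q - 1) * m := Nat.mul_le_mul_left _ hm2
        have h8 : q = 2 := by omega
        subst h8
        omega
    obtain ⟨hq, hm⟩ := hq
    have hp2 : p = 2 := by
      have h3 := hprm.hpq
      rw [hq] at h3
      exact (Nat.prime_dvd_prime_iff_eq hp Nat.prime_two).1 h3
    -- the index `1` is not on the line
    have hone : (ext q lam nA P 1) (κ - ((1 : ℕ) : ℝ) * v Z) = 0 := by
      by_contra hcon
      have h3 := hEin 1 (by omega) _ hcon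
      apply hbG
      have h4 := G.sub_mem h3 hr.lamG
      rw [hcase, hq] at h4
      have h5 : lam + ((2 : ℕ) : ℝ) * v Z - ((1 : ℕ) : ℝ) * v Z - lam = v Z := by
        push_cast
        ring
      rwa [h5] at h4
    -- the exponents
    set e₂ := (j (κ - (q : ℝ) * v Z) q + Kx).toNat with he₂
    set e₀ := (j (κ - ((0 : ℕ) : ℝ) * v Z) (0 : ℕ) + Kx).toNat with he₀
    have hzl : ∀ n, zl q (ext q lam nA P) j κ (v Z) n Kx =
        C (((X : k[X]) ^ nA).coeff n) * X ^ e₂ + C ((P 0 κ).coeff n) * X ^ e₀ := by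
      intro n
      unfold zl
      have h3 : Finset.range (q + 1) = {0, 1, 2} := by
        rw [hq]
        rfl
      rw [h3, Finset.sum_insert (by decide), Finset.sum_insert (by decide),
        Finset.sum_singleton, hone, coeff_zero, C_0, zero_mul, zero_add]
      rw [add_comm]
      congr 1
      · have h4 : (ext q lam nA P 2) (κ - ((2 : ℕ) : ℝ) * v Z) = X ^ nA := by
          rw [← htop, hq]
        rw [h4, he₂, hq]
      · have h4 : (ext q lam nA P 0) (κ - ((0 : ℕ) : ℝ) * v Z) = P 0 κ := by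
          rw [ext_lt (by omega), Nat.cast_zero, zero_mul, sub_zero]
        rw [h4]
    -- the values
    have hlam : κ - (q : ℝ) * v Z = lam := by
      rw [hcase]
      ring
    have h20 : P 0 κ ≠ 0 → e₀ + 1 = e₂ := by
      intro h3
      have h4 : (ext q lam nA P 0) (κ - ((0 : ℕ) : ℝ) * v Z) ≠ 0 := by
        rwa [ext_lt (by omega), Nat.cast_zero, zero_mul, sub_zero]
      have h5 : (ext q lam nA P q) (κ - (q : ℝ) * v Z) ≠ 0 := by
        rw [htop]
        exact pow_ne_zero _ X_ne_zero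
      have h6 := zl_line hT hEin le_rfl (Nat.zero_le q) h5 h4
      have h7 := hK0 q le_rfl
      have h8 := hK0 0 (Nat.zero_le q)
      rw [hm] at h6
      have h9 : (q : ℤ) = 2 := by exact_mod_cast hq
      push_cast at h6
      rw [h9] at h6
      rw [he₂, he₀]
      push_cast at h7 h8 ⊢
      rw [h9] at h7 ⊢
      omega
    have hodd : ∀ e : ℕ, (e : k) = 0 ↔ 2 ∣ e := by
      intro e
      rw [CharP.cast_eq_zero_iff k p, hp2]
    have hKx : 2 ∣ Kx := by rwa [hp2] at hpK
    have hq1 : q - 0 - 1 = 1 := by omega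
    -- the derivative of the line at `c`
    have hd0 : (e₂ : k) * ((X : k[X]) ^ nA).coeff 0 * c ^ (e₂ - 1) +
        (e₀ : k) * (P 0 κ).coeff 0 * c ^ (e₀ - 1) = 0 := by
      have h3 := (hr.ram h hog hT hc ht hne hκG hκq hκ hpK hK (n := 0) (by omega)).2
      rw [hq1, pow_one, dvd_iff_isRoot, IsRoot, hzl 0] at h3
      rw [derivative_add, derivative_C_mul, derivative_C_mul, derivative_X_pow, derivative_X_pow,
        eval_add, eval_mul, eval_mul, eval_mul, eval_mul, eval_C, eval_C, eval_C, eval_C, eval_pow,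
        eval_pow, eval_X] at h3
      linear_combination h3
    rcases htyp with ⟨hn0, hnp⟩ | ⟨hn1, hpd⟩
    · exfalso
      rw [hn0, pow_zero, coeff_one_zero, mul_one] at hd0
      have hpG' : pdv p G' κ := by
        by_contra hcon
        have h3 := h1 (fun h4 => hcon h4.1)
        rw [hn0, hq, hm] at h3
        omega
      have hj : ¬ (p : ℤ) ∣ j (κ - (q : ℝ) * v Z) q := by
        intro h5
        have h6 := hT.dvd (g := κ - (q : ℝ) * v Z) (by rw [hlam]; exact hr.lamG) (n := (q : ℤ))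
          (q := p) (by
          obtain ⟨d, hd, h6⟩ := hpG'
          exact ⟨d, hd, by rw [← h6]; push_cast; ring⟩) h5
        rw [hlam] at h6
        exact hnp h6.1
      have he2 : ¬ 2 ∣ e₂ := by
        intro h3
        apply hj
        rw [hp2]
        have h7 := hK0 q le_rfl
        rw [he₂] at h3
        push_cast
        omega
      have h3 : (e₀ : k) * (P 0 κ).coeff 0 = 0 := by
        by_cases h4 : P 0 κ = 0
        · rw [h4, coeff_zero, mul_zero]
        · have h5 := h20 h4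
          rw [(hodd e₀).2 (by omega), zero_mul]
      rw [h3, zero_mul, add_zero] at hd0
      rcases mul_eq_zero.1 hd0 with h4 | h4
      · exact he2 ((hodd e₂).1 h4)
      · exact pow_ne_zero _ hc h4
    · -- the coefficient of `w`
      have h3 := (hr.ram h hog hT hc ht hne hκG hκq hκ hpK hK (n := 1) (by omega)).1 (by
        rintro ⟨-, h4⟩
        exact hp.one_lt.ne' (Nat.dvd_one.1 h4))
      have hq1' : q - 1 = 1 := by omega
      rw [hq1', pow_one, dvd_iff_isRoot, IsRoot, hzl 1, hn1, pow_one, coeff_X_one, eval_add,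
        eval_mul, eval_mul, eval_C, eval_C, eval_pow, eval_pow, eval_X, one_mul] at h3
      have hP0 : P 0 κ ≠ 0 := by
        intro h4
        rw [h4, coeff_zero, zero_mul, add_zero] at h3
        exact pow_ne_zero _ hc h3
      refine ⟨hq, hcase, ?_, hP0, ?_⟩
      · rintro ⟨g, hg, h4⟩
        obtain ⟨d, hd, h5⟩ := hpd
        apply hbG
        have h6 : v Z = g - d := by
          rw [hcase, hq, h5, hp2] at h4
          push_cast at h4
          linarith
        rw [h6]
        exact G.sub_mem hg hd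
      · have h5 := h20 hP0
        have he2 : 2 ∣ e₂ := by
          obtain ⟨d, hd, h6⟩ := hpd
          have h7 := hT.j_nmul hd 1 2
          have h8 : j (κ - (q : ℝ) * v Z) q = 2 * j d 1 := by
            rw [hlam, h6, hp2, hq]
            exact_mod_cast h7
          have h9 := hK0 q le_rfl
          rw [he₂, h8]
          rw [h8] at h9
          omega
        rw [hn1, pow_one, coeff_X_zero, mul_zero, zero_mul, zero_add] at hd0
        rcases mul_eq_zero.1 hd0 with h6 | h6
        · rcases mul_eq_zero.1 h6 with h7 | h7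
          · exfalso
            have h8 := (hodd e₀).1 h7
            omega
          · exact h7
        · exact absurd h6 (pow_ne_zero _ hc)
  · left
    have hex : ∃ i < q, P i (κ - i * v Z) ≠ 0 := hyp.resolve_left hcase
    obtain ⟨i, hi, h2, h3⟩ := exists_largest hex
    have hl : ∀ l, i < l → l < q → P l (κ - l * v Z) = 0 := fun l hl1 hl2 => by
      by_contra hcon
      exact h3 l hl1 hl2 hcon
    have hl' : ∀ l, i < l → l ≤ q → (ext q lam nA P l) (κ - l * v Z) = 0 := by
      intro l hl1 hl2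
      rcases hl2.lt_or_eq with h4 | rfl
      · rw [ext_lt h4, hl l hl1 h4]
      · rw [ext_q, Finsupp.single_eq_of_ne]
        intro h5
        exact hcase (by rw [← h5]; ring)
    have key : ∀ n, n < q → (P i (κ - i * v Z)).coeff n ≠ 0 →
        (¬ (pdv p G' κ ∧ p ∣ n) → (q - n) * m ≤ i) ∧ (q - n - 1) * m ≤ i := by
      intro n hn hn0
      obtain ⟨h4, h5⟩ := hr.ord_ram h hog hT hc ht hne hκG hκq hκ hpK hK hi.le hl' hn
        (by rwa [ext_lt hi])
      refine ⟨h4, h5 ?_⟩
      rintro ⟨h6, h7, h8⟩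
      exact hnpd i hi h8 (κ - i * v Z, n) (mem_terms.2 hn0) ⟨h6, h7⟩
    have hmul : ∀ x, x * 2 ≤ x * m := fun x => Nat.mul_le_mul_left _ hm2
    refine alt1_of hix hi hl h2 (fun n _ hn => ?_) (fun n hpi hn hpn => ?_) (fun n hi1 hn => ?_)
    · by_contra hcon
      have h4 := (key n (by omega) hcon).2
      have h5 := hmul (q - n - 1)
      omega
    · by_contra hcon
      have h4 := (key n (by omega) hcon).1 (fun h5 => hpn h5.2)
      have h5 := hmul (q - n)
      omega
    · by_contra hcon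
      have h4 := (key n (by omega) hcon).2
      have h5 := hmul (q - n - 1)
      omega

end char

end Pool.Agent.TWN
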