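import Pool.Agent.Lib.TW_NFG.OG3
import Pool.Agent.Lib.TW_NFG.FIN

/-!
# NFG, `s = 2`: from the order constraint to a contradiction

* `Rp.con2`: a fine representation satisfies `Con2`;
* `nfg_false`: `nfg_chain` and the order constraint.
-/

set_option autoImplicit false

open Polynomial

namespace Pool.Agent.TWN

open Pool.Agent.H15JM (RVal)
open Pool.Agent.LU1 (VPos)
open Pool.Agent.D2 (Ctx0)
open Pool.Agent.TWM (MS TL cadj VG Cld)
open Pool.Agent.D2P (clI mem_clI)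

universe u

variable {k Ω : Type u} [Field k] [Field Ω] [Algebra k Ω] {v : RVal Ω} {G : AddSubgroup ℝ}
  {M : ℝ → Ω} {w : Ω} {F K : IntermediateField k Ω}
  {p q τ Q : ℕ} {a : Ω} {s D A₀ B : ℝ} {Z : Ω} {P : ℕ → ℝ →₀ k[X]} {lam : ℝ} {nA : ℕ}

theorem Rp.fr (hr : Rp p q v F K a s D A₀ (EC k v G M w Z (wF q B A₀ P)) G M w Z P lam nA)
    (hp : p ≠ 0) (hq : 0 < q) (hB : D + q * s ≤ B) : FR p q v F K a A₀ B G M w Z P lam nA where
  frm := hr.frm
  far := fun f hf => (hr.far f hf).1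
  gen := hr.gen
  lamG := hr.typ.1
  inP := hr.inP
  rep := by
    intro C
    obtain ⟨b, hb, hb0, hvb, g, hg, h1⟩ := hr.rep
    obtain ⟨n₀, E, h2, h3, h4⟩ := h1 C
    refine ⟨b, hb, hb0, hvb, g, hg, n₀, E, fun i _ => h2 i, fun i _ x hx => h3 i x hx, ?_⟩
    have e : a * b ^ p - (g ^ p + ∑ i ∈ Finset.range q, evP M w (P i) * Z ^ i +
        M lam * w ^ nA * Z ^ q + ∑ i ∈ Finset.range n₀, evP M w (E i) * Z ^ i) =
        a * b ^ p - (g ^ p + ∑ i ∈ Finset.range q, evP M w (P i) * Z ^ i +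
          M lam * w ^ nA * Z ^ q) - ∑ i ∈ Finset.range n₀, evP M w (E i) * Z ^ i := by ring
    rw [e]
    exact h4
  top := by
    have h1 := hr.lam_lt hp
    have h2 := (hr.far 0 (zero_mem _)).2
    rw [sub_zero] at h2
    have h3 : (0 : ℝ) ≤ nA * v w := mul_nonneg (Nat.cast_nonneg _) hr.frm.wpos.le
    have h4 : (0 : ℝ) < q := by exact_mod_cast hq
    nlinarith
  A0Z := hr.vZ.le

/-- **A fine representation satisfies the conclusion of the order constraint.** -/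
theorem Rp.con2 [CharP k p] (h : Ctx0 k v) (hog : OG p q v K a) (hprm : Prm p q τ Q)
    (hr : Rp p q v F K a s D A₀ (EC k v G M w Z (wF q B A₀ P)) G M w Z P lam nA)
    (hB : D + q * s ≤ B) (hvZ : ∃ m : ℕ, 0 < m ∧ (m : ℝ) * v Z ∈ G)
    (hZF : ∀ m : ℕ, 0 < m → Z ^ m ∉ F) : Con2 p q τ v A₀ G Z P lam nA := by
  have hq : 0 < q := by
    have h1 := hprm.hq
    have h2 := hprm.hQ
    omega
  have hfr := hr.fr hprm.pp.ne_zero hq hB
  intro b hbA hbZ hb κ hκq hκ hyp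
  by_cases hbG : b ∈ G
  · rcases hfr.con2G h hog hprm hr.npd hr.ix hbG hbA hbZ hκq hκ hyp with h1 | h1
    · exact Or.inl h1
    · exact Or.inr (Or.inl h1)
  · have hbv : b = v Z := hb.resolve_left hbG
    subst hbv
    rcases hfr.con2Z h hog hprm hr.npd hr.ix hr.typ.2 hvZ hZF hbG hκq hκ
      (hyp.imp (fun h1 => h1.1) id) with h1 | h1
    · exact Or.inl h1
    · exact Or.inr (Or.inr h1)

/-- **The chain and the order constraint.** -/
theorem nfg_false [IsAlgClosed k] [IsAlgClosed Ω] [hp : Fact p.Prime] [CharP k p] [CharP Ω p]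
    (h : Ctx0 k v) (hn : NFG v F) (hq : 0 < q) (hpq : p ∣ q)
    (hr : Rp p q v F K a s D A₀ (EC k v G M w Z (wM B A₀ (v w))) G M w Z P lam nA)
    (hB : D + q * s ≤ B) (hog : OG p q v K a)
    (hval : ∀ f ∈ K, f ≠ 0 → ∃ g ∈ F, g ≠ 0 ∧ ∃ m : ℕ, 0 < m ∧ (m : ℝ) * v f = v g)
    (halg : ∀ f ∈ K, ∀ m : ℕ, 0 < m → f ^ m ∈ F → f ∈ F) : False := by
  obtain ⟨τ, j₀, hj, hprm⟩ := exists_prm hp.out hq hpq
  refine nfg_chain h hn hj hprm hr fun G M w Z P lam nA hr' => Or.inr ?_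
  have hZ0 : Z ≠ 0 := (hr'.far 0 (zero_mem _)).1
  refine hr'.con2 h hog hprm hB ?_ fun m hm h1 => ?_
  · obtain ⟨g, hg, hg0, m, hm, h1⟩ := hval Z hr'.Z_mem hZ0
    obtain ⟨m', hm', h2⟩ := hr'.frm.full g hg hg0
    refine ⟨m' * m, Nat.mul_pos hm' hm, ?_⟩
    rw [Nat.cast_mul, mul_assoc, h1]
    exact h2
  · exact (hr'.far Z (halg Z hr'.Z_mem m hm h1)).1 rfl

end Pool.Agent.TWN
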