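import Pool.Agent.Lib.TW_NFG.ER

/-!
# NFG, `s = 2`: recentring and the errors

* `Frm.exists_recentreW`, `Frm.exists_recentrePW`: recentring, with bounds for the exponents;
* `EC.reparam`: the errors at the recentred frame.
-/

set_option autoImplicit false

open Polynomial

namespace Pool.Agent.TWN

open Pool.Agent.H15JM (RVal)
open Pool.Agent.LU1 (VPos)
open Pool.Agent.D2 (Ctx0)
open Pool.Agent.TWM (MS LF NN GG MM vl cadj Cld VG InG evL Gt)

universe u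

variable {k Ω : Type u} [Field k] [Field Ω] [Algebra k Ω] {v : RVal Ω} {G G' : AddSubgroup ℝ}
  {M M' : ℝ → Ω} {w t : Ω} {m : ℕ} {j : ℝ → ℤ → ℤ} {F : IntermediateField k Ω}

/-! ### Laurent polynomials with weights -/

/-- `f` is the value of a Laurent polynomial of weight `≥ ρ`. -/
def WG (k : Type u) {Ω : Type u} [Field k] [Field Ω] [Algebra k Ω] (G : AddSubgroup ℝ) (M : ℝ → Ω)
    (w : Ω) (θ ρ : ℝ) (f : Ω) : Prop :=
  ∃ P : ℝ →₀ k[X], InP G P ∧ (∀ x ∈ terms P, ρ ≤ vm θ x) ∧ f = evP M w P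

theorem WG.zero {θ ρ : ℝ} : WG k G M w θ ρ 0 :=
  ⟨0, InP.zero, fun _ hx => (terms_zero hx).elim, evP_zero.symm⟩

theorem WG.add {θ ρ : ℝ} {f g : Ω} (hf : WG k G M w θ ρ f) (hg : WG k G M w θ ρ g) :
    WG k G M w θ ρ (f + g) := by
  obtain ⟨P, h1, h2, rfl⟩ := hf
  obtain ⟨Q, h3, h4, rfl⟩ := hg
  refine ⟨P + Q, h1.add h3, fun x hx => ?_, (evP_add P Q).symm⟩
  rcases mem_terms_add hx with h5 | h5
  · exact h2 x h5
  · exact h4 x h5

theorem WG.sum {ι : Type*} {θ ρ : ℝ} {s : Finset ι} {f : ι → Ω}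
    (h : ∀ i ∈ s, WG k G M w θ ρ (f i)) : WG k G M w θ ρ (∑ i ∈ s, f i) := by
  classical
  induction s using Finset.induction_on with
  | empty => rw [Finset.sum_empty]; exact WG.zero
  | insert a s ha ih =>
    rw [Finset.sum_insert ha]
    exact (h a (Finset.mem_insert_self a s)).add
      (ih fun i hi => h i (Finset.mem_insert_of_mem hi))

theorem WG.mono {θ ρ ρ' : ℝ} (hρ : ρ' ≤ ρ) {f : Ω} (hf : WG k G M w θ ρ f) :
    WG k G M w θ ρ' f := by
  obtain ⟨P, h1, h2, h3⟩ := hf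
  exact ⟨P, h1, fun x hx => hρ.trans (h2 x hx), h3⟩

theorem WG.mon {θ g : ℝ} (hg : g ∈ G) (n : ℕ) (c : k) :
    WG k G M w θ (g + n * θ) (algebraMap k Ω c * (M g * w ^ n)) := by
  refine ⟨Finsupp.single g (C c * X ^ n), InP.single hg _, fun x hx => ?_, ?_⟩
  · obtain ⟨h1, h2⟩ := mem_terms_single' hx
    rw [coeff_C_mul, coeff_X_pow] at h2
    split_ifs at h2 with h3
    · unfold vm
      rw [h1, h3]
    · exact absurd (mul_zero _) h2
  · rw [evP_single, map_mul, aeval_C, map_pow, aeval_X]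
    ring

theorem WG.mul (hM : MS v G M) {θ ρ ρ' : ℝ} {f g : Ω} (hf : WG k G M w θ ρ f)
    (hg : WG k G M w θ ρ' g) : WG k G M w θ (ρ + ρ') (f * g) := by
  obtain ⟨P, h1, h2, rfl⟩ := hf
  obtain ⟨Q, h3, h4, rfl⟩ := hg
  rw [evP_terms, evP_terms, Finset.sum_mul_sum]
  refine WG.sum fun x hx => WG.sum fun y hy => ?_
  have h5 := WG.mon (k := k) (M := M) (w := w) (θ := θ)
    (G.add_mem (h1.terms hx) (h3.terms hy)) (x.2 + y.2)
    ((P x.1).coeff x.2 * (Q y.1).coeff y.2)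
  have e : algebraMap k Ω ((P x.1).coeff x.2) * (M x.1 * w ^ x.2) *
      (algebraMap k Ω ((Q y.1).coeff y.2) * (M y.1 * w ^ y.2)) =
      algebraMap k Ω ((P x.1).coeff x.2 * (Q y.1).coeff y.2) *
        (M (x.1 + y.1) * w ^ (x.2 + y.2)) := by
    rw [hM.mul _ (h1.terms hx) _ (h3.terms hy), map_mul, pow_add]
    ring
  rw [e]
  refine h5.mono ?_
  have h6 := h2 x hx
  have h7 := h4 y hy
  unfold vm at h6 h7
  push_cast
  linarith

theorem WG.pow (hM : MS v G M) {θ ρ : ℝ} {f : Ω} (hf : WG k G M w θ ρ f) (n : ℕ) :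
    WG k G M w θ (n * ρ) (f ^ n) := by
  induction n with
  | zero =>
    have h1 := WG.mon (k := k) (M := M) (w := w) (θ := θ) G.zero_mem 0 1
    rw [hM.zero, map_one, pow_zero, mul_one, mul_one, Nat.cast_zero, zero_mul, add_zero] at h1
    rw [Nat.cast_zero, zero_mul, pow_zero]
    exact h1
  | succ n ih =>
    rw [pow_succ, Nat.cast_succ, add_mul, one_mul]
    exact ih.mul hM hf

theorem WG.evL {θ ρ : ℝ} {L : ℝ →₀ k} (hL : InG G L) (hd : ∀ g, L g ≠ 0 → ρ ≤ g) :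
    WG k G M w θ ρ (TWM.evL M L) := by
  rw [TWM.evL, Finsupp.sum]
  refine WG.sum fun g hg => ?_
  have hg' := Finsupp.mem_support_iff.1 hg
  have h1 := WG.mon (k := k) (M := M) (w := w) (θ := θ) (hL g hg') 0 (L g)
  rw [pow_zero, mul_one, Nat.cast_zero, zero_mul, add_zero] at h1
  exact h1.mono (hd g hg')

/-- The expansion at the new parameter, with weights. -/
theorem WG.reparam (hM : MS v G M) {w₁ : Ω} {θ θ₁ : ℝ} (hw : WG k G M w₁ θ₁ θ w) {ρ : ℝ}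
    {P : ℝ →₀ k[X]} (hP : InP G P) (hρ : ∀ x ∈ terms P, ρ ≤ vm θ x) :
    WG k G M w₁ θ₁ ρ (evP M w P) := by
  rw [evP_terms]
  refine WG.sum fun x hx => ?_
  have h1 := WG.mon (k := k) (M := M) (w := w₁) (θ := θ₁) (hP.terms hx) 0 ((P x.1).coeff x.2)
  have h2 := h1.mul hM (hw.pow hM x.2)
  rw [pow_zero, mul_one, Nat.cast_zero, zero_mul, add_zero] at h2
  have e : algebraMap k Ω ((P x.1).coeff x.2) * (M x.1 * w ^ x.2) =
      algebraMap k Ω ((P x.1).coeff x.2) * M x.1 * w ^ x.2 := by ring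
  rw [e]
  exact h2.mono (hρ x hx)

/-- The errors at the recentred frame. -/
theorem EC.reparam (hM : MS v G M) {w₁ Z : Ω} {θ θ₁ B A₀ : ℝ} (hw : WG k G M w₁ θ₁ θ w) :
    EC k v G M w Z (wM B A₀ θ) ≤ EC k v G M w₁ Z (wM B A₀ θ₁) := by
  intro f hf
  refine EC.lim fun C => ?_
  obtain ⟨n, E, h1, h2, h3⟩ := hf C
  refine ⟨∑ i ∈ Finset.range n, evP M w (E i) * Z ^ i, ?_, h3⟩
  refine AddSubgroup.sum_mem _ fun i _ => ?_
  obtain ⟨P, h4, h5, h6⟩ := WG.reparam hM hw (h1 i) (ρ := B - i * A₀) (fun x hx => by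
    have h7 : B ≤ x.1 + x.2 * θ + i * A₀ := h2 i x hx
    unfold vm
    linarith)
  rw [h6]
  refine EC.single h4 fun x hx => ?_
  have h7 := h5 x hx
  unfold vm at h7
  show B ≤ x.1 + x.2 * θ₁ + i * A₀
  linarith

/-! ### Recentring -/

theorem recentre_bound (h : Ctx0 k v) (hM : MS v G M) {L : ℝ →₀ k} (hL : InG G L)
    (hne : w ≠ TWM.evL M L) (hv : v (w - TWM.evL M L) ∉ G) (hw : w ≠ 0) :
    ∀ g, L g ≠ 0 → v w ≤ g := by
  intro g hg
  obtain ⟨μ, hμ, hμmin, h5, h6⟩ := TWM.evL_lead h hM hL (fun h0 => hg (by rw [h0]; rfl))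
  refine le_trans ?_ (hμmin g hg)
  by_contra hcon
  push Not at hcon
  have h7 := v.add_of_lt (x := - TWM.evL M L) (y := w) (neg_ne_zero.2 h5) hw
    (by rw [v.map_neg _ h5, h6]; exact hcon)
  apply hv
  have h8 : - TWM.evL M L + w = w - TWM.evL M L := by ring
  rw [← h8, h7.2, v.map_neg _ h5, h6]
  exact hL μ hμ

/-- The parameter at the recentred frame. -/
theorem recentre_WG {L : ℝ →₀ k} (hM : MS v G M) (hL : InG G L) (hb : ∀ g, L g ≠ 0 → v w ≤ g)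
    (hv : v w ≤ v (w - TWM.evL M L)) :
    WG k G M (w - TWM.evL M L) (v (w - TWM.evL M L)) (v w) w := by
  have h1 := WG.mon (k := k) (M := M) (w := w - TWM.evL M L) (θ := v (w - TWM.evL M L))
    G.zero_mem 1 1
  rw [hM.zero, map_one, one_mul, one_mul, pow_one, Nat.cast_one, one_mul, zero_add] at h1
  have h2 := (h1.mono hv).add (WG.evL (w := w - TWM.evL M L) (θ := v (w - TWM.evL M L)) hL hb)
  rwa [sub_add_cancel] at h2

theorem recentre_val (h : Ctx0 k v) (hM : MS v G M) {L : ℝ →₀ k} (hL : InG G L)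
    (hb : ∀ g, L g ≠ 0 → v w ≤ g) (hne : w ≠ TWM.evL M L) : v w ≤ v (w - TWM.evL M L) := by
  have h1 : v.Ge (v w) (TWM.evL M L) := TWM.evL_ge h hM hL hb
  exact (RVal.ge_self w |>.sub h1) (sub_ne_zero.2 hne)

namespace Frm

theorem exists_recentreW [IsAlgClosed Ω] (p : ℕ) [Fact p.Prime] [CharP Ω p] (h : Ctx0 k v)
    (hf : Frm v G M w F) (hn : NFG v F) :
    ∃ w₁ : Ω, Frm v G M w₁ F ∧ v w₁ ∉ G ∧ (∃ d > 0, Rg k G M w₁ d (w - w₁)) ∧
      WG k G M w₁ (v w₁) (v w) w := by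
  obtain ⟨L, h1, h2, h3, h4⟩ := TWM.exists_recentre_LF p h hf.ms hf.fg hf.wpos (by
    rw [← hf.eq_cadj h]
    exact hn G hf.fg)
  obtain ⟨d, hd, h5⟩ := exists_bound h2
  have h6 := recentre_bound h hf.ms h1 h3 h4 hf.wne
  refine ⟨w - evL M L, hf.sub_evL h h1 h2 h3, h4, ⟨d, hd, ?_⟩,
    recentre_WG hf.ms h1 h6 (recentre_val h hf.ms h1 h6 h3)⟩
  rw [sub_sub_cancel]
  exact rg_evL h1 h5

theorem exists_recentrePW [IsAlgClosed k] [IsAlgClosed Ω] (p : ℕ) [Fact p.Prime] [CharP k p]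
    [CharP Ω p] (h : Ctx0 k v) (hf : Frm v G M w F) (hn : NFG v F) :
    ∃ w₁ : Ω, Frm v G M w₁ F ∧ (∃ ψ ∈ F, w - w₁ = ψ ^ p) ∧
      (v w₁ ∉ G ∨ (v w₁ ∈ G ∧ ¬ ∃ d ∈ G, v w₁ = p * d)) ∧
      (∃ d > 0, Rg k G M w₁ d (w - w₁)) ∧ WG k G M w₁ (v w₁) (v w) w := by
  classical
  obtain ⟨L, h1, h2, h3, h4⟩ := TWM.exists_recentre_LF p h hf.ms hf.fg hf.wpos (by
    rw [← hf.eq_cadj h]
    exact hn G hf.fg)
  have hbL := recentre_bound h hf.ms h1 h3 h4 hf.wne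
  have hp0 : p ≠ 0 := (Fact.out : p.Prime).ne_zero
  -- a Laurent polynomial with exponents in `pG` is a `p`-th power
  have key : ∀ L' : ℝ →₀ k, InG G L' → (∀ g, L' g ≠ 0 → ∃ d ∈ G, g = p * d) →
      ∃ ψ ∈ F, evL M L' = ψ ^ p := by
    intro L' hL' hpd
    have hrt : ∀ b : k, ∃ c : k, c ^ p = b := fun b =>
      IsAlgClosed.exists_pow_nat_eq b (Nat.pos_of_ne_zero hp0)
    choose rt hrt using hrt
    have hd' : ∀ g, ∃ d : ℝ, L' g ≠ 0 → d ∈ G ∧ g = p * d := by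
      intro g
      by_cases hg : L' g = 0
      · exact ⟨0, fun h => absurd hg h⟩
      · obtain ⟨d, hd, hd'⟩ := hpd g hg
        exact ⟨d, fun _ => ⟨hd, hd'⟩⟩
    choose d hd using hd'
    refine ⟨∑ g ∈ L'.support, algebraMap k Ω (rt (L' g)) * M (d g), ?_, ?_⟩
    · exact sum_mem fun g hg => mul_mem (F.algebraMap_mem _)
        (hf.mon_mem (hd g (Finsupp.mem_support_iff.1 hg)).1)
    · rw [sum_pow_char, evL, Finsupp.sum]
      refine Finset.sum_congr rfl fun g hg => ?_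
      obtain ⟨h5, h6⟩ := hd g (Finsupp.mem_support_iff.1 hg)
      rw [mul_pow, ← map_pow, hrt, ← hf.ms.pow h5 p, ← h6]
  by_cases hall : ∀ g, L g ≠ 0 → ∃ d ∈ G, g = p * d
  · obtain ⟨d, hd, h5⟩ := exists_bound h2
    refine ⟨w - evL M L, hf.sub_evL h h1 h2 h3, ?_, Or.inl h4, ⟨d, hd, ?_⟩,
      recentre_WG hf.ms h1 hbL (recentre_val h hf.ms h1 hbL h3)⟩
    · rw [sub_sub_cancel]
      exact key L h1 hall
    · rw [sub_sub_cancel]
      exact rg_evL h1 h5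
  · push Not at hall
    -- the first exponent which is not in `pG`
    set S : Finset ℝ := L.support.filter fun g => ¬ ∃ d ∈ G, g = p * d with hS
    obtain ⟨g₀, hg₀, hmin⟩ := S.exists_min_image id (by
      obtain ⟨g, hg, hg'⟩ := hall
      refine ⟨g, Finset.mem_filter.2 ⟨Finsupp.mem_support_iff.2 hg, ?_⟩⟩
      rintro ⟨d, hd, hd'⟩
      exact hg' d hd hd')
    obtain ⟨hg₁, hg₂⟩ := Finset.mem_filter.1 hg₀
    set L₁ := L.filter fun g => g < g₀ with hL₁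
    set L₂ := L.filter fun g => ¬ g < g₀ with hL₂
    have hL12 : evL M L = evL M L₁ + evL M L₂ := by
      rw [← TWM.evL_add, hL₁, hL₂, Finsupp.filter_add_filter_not]
    have hL₁G : InG G L₁ := fun g hg => h1 g (TWM.filter_ne hg).2
    have hL₂G : InG G L₂ := fun g hg => h1 g (TWM.filter_ne hg).2
    have hL₁p : ∀ g, L₁ g ≠ 0 → 0 < g := fun g hg => h2 g (TWM.filter_ne hg).2
    have hL₁b : ∀ g, L₁ g ≠ 0 → v w ≤ g := fun g hg => hbL g (TWM.filter_ne hg).2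
    -- the value of the second part
    have hL₂0 : L₂ g₀ ≠ 0 := by
      rw [hL₂, Finsupp.filter_apply_pos (fun g => ¬ g < g₀) L (lt_irrefl g₀)]
      exact Finsupp.mem_support_iff.1 hg₁
    obtain ⟨μ, hμ, hμmin, h5, h6⟩ := TWM.evL_lead h hf.ms hL₂G (fun h0 => hL₂0 (by
      rw [h0]; rfl))
    have hμg : μ = g₀ := le_antisymm (hμmin g₀ hL₂0) (not_lt.1 (TWM.filter_ne hμ).1)
    rw [hμg] at h6
    have hg₀G : g₀ ∈ G := h1 g₀ (Finsupp.mem_support_iff.1 hg₁)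
    have hw1 : w - evL M L₁ = (w - evL M L) + evL M L₂ := by rw [hL12]; ring
    have h7 := sub_ne_zero.2 h3
    have hne : v (w - evL M L) ≠ g₀ := fun h0 => h4 (by rw [h0]; exact hg₀G)
    have hval : w - evL M L₁ ≠ 0 ∧ (v (w - evL M L₁) ∉ G ∨ v (w - evL M L₁) = g₀) := by
      rcases lt_or_gt_of_ne hne with h8 | h8
      · have h9 := v.add_of_lt h7 h5 (by rw [h6]; exact h8)
        rw [← hw1] at h9
        exact ⟨h9.1, Or.inl (by rw [h9.2]; exact h4)⟩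
      · have h9 := v.add_of_lt h5 h7 (by rw [h6]; exact h8)
        rw [add_comm, ← hw1] at h9
        exact ⟨h9.1, Or.inr (by rw [h9.2]; exact h6)⟩
    obtain ⟨d, hd, h8⟩ := exists_bound hL₁p
    have hne₁ : w ≠ evL M L₁ := sub_ne_zero.1 hval.1
    refine ⟨w - evL M L₁, hf.sub_evL h hL₁G hL₁p hne₁, ?_, ?_, ⟨d, hd, ?_⟩,
      recentre_WG hf.ms hL₁G hL₁b (recentre_val h hf.ms hL₁G hL₁b hne₁)⟩
    · rw [sub_sub_cancel]
      refine key L₁ hL₁G fun g hg => ?_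
      by_contra hcon
      obtain ⟨h9, h10⟩ := TWM.filter_ne hg
      have h11 : g₀ ≤ g := hmin g (Finset.mem_filter.2 ⟨Finsupp.mem_support_iff.2 h10, hcon⟩)
      exact absurd h9 (not_lt.2 h11)
    · rcases hval.2 with h9 | h9
      · exact Or.inl h9
      · exact Or.inr ⟨by rw [h9]; exact hg₀G, by rw [h9]; exact hg₂⟩
    · rw [sub_sub_cancel]
      exact rg_evL hL₁G h8

end Frm

end Pool.Agent.TWN
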