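import Pool.Agent.Lib.TW_NFG.RS
import Pool.Agent.Lib.TW_NFG.RW

/-!
# NFG, row P3 (a): exact Laurent polynomials along the frames

With the new parameter `t - c` the monomials of the old frame, multiplied by a power of `t`, are
polynomials in the new frame. So finitely many Laurent polynomials, multiplied by the `p`-th power
of a unit, remain Laurent polynomials.

* `tr_exact`: the transformation is exact;
* `SD.ex1`, `SD.ex2`: a step divides the orders, exactly;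
* `Tr`, `TrQ`: `f` is a Laurent polynomial of order `≤ e`, modulo a `p`-th power for `TrQ`;
* `exists_deep`: a frame in which all the orders are `0`.
-/

set_option autoImplicit false

open Polynomial

namespace Pool.Agent.TWN

open Pool.Agent.H15JM (RVal)
open Pool.Agent.LU1 (VPos)
open Pool.Agent.D2 (Ctx0)
open Pool.Agent.TWM (MS LF NN GG MM vl cadj Cld VG InG evL Gt)

universe u

variable {k Ω : Type u} [Field k] [Field Ω] [Algebra k Ω] {v : RVal Ω} {G G' : AddSubgroup ℝ}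
  {M M' : ℝ → Ω} {w t : Ω} {m : ℕ} {j : ℝ → ℤ → ℤ} {F : IntermediateField k Ω}

/-! ### Exact steps -/

/-- The power `X ^ i` in the coordinate `X - c`. -/
noncomputable def Rx (c : k) (i : ℤ) : k[X] := (X + C c) ^ i.toNat

theorem apx_Rx (c : k) {i : ℤ} (hi : 0 ≤ i) (N : ℕ) : Apx c (X - C c) N i (Rx c i) := by
  intro K hK
  have h1 : (Rx c i).comp (X - C c) = X ^ i.toNat := by
    rw [Rx, pow_comp, add_comp, X_comp, C_comp, sub_add_cancel]
  have h2 : (i + K).toNat = K + i.toNat := by omega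
  rw [h1, h2, pow_add, sub_self]
  exact dvd_zero _

/-- The transformed Laurent polynomial is exact. -/
theorem tr_exact (h : TStep v G M w G' M' t m j) (c : k) (σ : ℤ) {P : ℝ →₀ k[X]} (hP : InP G P)
    (hσ : ∀ x ∈ terms P, 0 ≤ j x.1 x.2 - σ) :
    evP M w P * t ^ (-σ) =
      evP M' (aeval t (X - C c)) (tr (v w) (fun g n => j g n - σ) (Rx c) P) := by
  unfold TWN.tr
  rw [evP_terms, evP_sum, Finset.sum_mul]
  refine Finset.sum_congr rfl fun x hx => ?_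
  have hxG : x.1 ∈ G := hP.terms hx
  have h1 := h.mon x.1 hxG (x.2 : ℤ)
  rw [zpow_natCast, Int.cast_natCast] at h1
  have h2 := hσ x hx
  have h3 : aeval (aeval t (X - C c : k[X])) (X + C c : k[X]) = t := by
    rw [map_add, map_sub, aeval_X, aeval_X, aeval_C, aeval_C, sub_add_cancel]
  have h4 : t ^ (j x.1 x.2 - σ).toNat = t ^ j x.1 x.2 * t ^ (-σ) := by
    rw [← zpow_natCast, Int.toNat_of_nonneg h2, sub_eq_add_neg, zpow_add₀ h.t_ne]
  rw [evP_single, map_mul, aeval_C, h1, Rx, map_pow, h3]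
  show _ = M' (x.1 + x.2 * v w) * (algebraMap k Ω ((P x.1).coeff x.2) *
    t ^ (j x.1 x.2 - σ).toNat)
  rw [h4]
  ring

/-- **A step divides the orders**, exactly. -/
theorem SD.ex1 {c : k} {b : ℝ} (h : SD v G M w G' M' t m j c b (X - C c)) (hw : 0 < v w)
    {P : ℝ →₀ k[X]} (hP : InP G P) {L : ℝ} (hct : Ct L P) {e : ℕ} (he : (P L).coeff e ≠ 0) {σ : ℤ}
    (hσ : ∀ x ∈ terms P, 0 ≤ j x.1 x.2 - σ) :
    ∃ (P' : ℝ →₀ k[X]) (L' : ℝ), InP G' P' ∧ Ct L' P' ∧
      (∃ e', (P' L').coeff e' ≠ 0 ∧ e' ≤ e / m) ∧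
      evP M w P * t ^ (-σ) = evP M' (aeval t (X - C c)) P' := by
  obtain ⟨ν, hν1, hν2, hν3⟩ := exists_nu (β := v w) he
  set N := e + 2 with hN
  obtain ⟨K, hK⟩ := exists_K (terms P) (fun g n => j g n - σ) one_pos
  rw [one_mul] at hK
  have hK' : ∀ x ∈ terms P, vm (v w) x = ν → 0 ≤ j x.1 x.2 - σ + K := fun x hx _ => hK x hx
  obtain ⟨a, H, hH1, hH2, hH3⟩ := exists_line' h.ts σ hP hK' (l := 0) (e := e)
    (fun x hx hxν => ⟨Nat.zero_le _, snd_le hw hct hν3 hx hxν⟩) hν2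
  rw [Nat.sub_zero] at hH2
  have hline := line_eq (c := c) (W := X - C c) (N := N) (R := Rx c) (β := v w)
    (j := fun g n => j g n - σ) (P := P) (ν := ν) (K := K)
    (fun x hx _ => apx_Rx c (hσ x hx) N) hK'
  rw [hH1] at hline
  set P' := tr (v w) (fun g n => j g n - σ) (Rx c) P with hP'
  have hdeg : H.natDegree < N := by
    have := Nat.div_le_self e m
    omega
  have hord : ∀ n ≤ N, X ^ n ∣ P' ν → n ≤ H.natDegree := fun n hn hdvd =>
    order_le h.cne hH3 (dvd_of_order (a := a) h.dvd hn hline hdvd)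
  have hf0 : P' ν ≠ 0 := by
    intro h0
    have := hord N le_rfl (by rw [h0]; exact dvd_zero _)
    omega
  have hf1 : X ^ (P' ν).natTrailingDegree ∣ P' ν := by
    rw [X_pow_dvd_iff]
    intro d hd
    exact coeff_eq_zero_of_lt_natTrailingDegree hd
  refine ⟨P', ν, ?_, Ct.tr hν1 _, ⟨(P' ν).natTrailingDegree, trailingCoeff_nonzero_iff_nonzero.2 hf0,
    ?_⟩, tr_exact h.ts c σ hP hσ⟩
  · refine InP.sum fun x hx => InP.single ?_ _
    have h2 := h.ts.mem' (hP.terms hx) (x.2 : ℤ)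
    exact_mod_cast h2
  · refine le_trans ?_ hH2
    refine hord _ ?_ hf1
    by_contra hcon
    have := hord N le_rfl ((pow_dvd_pow X (by omega)).trans hf1)
    omega

/-- **A step divides the orders**, modulo `p`-th powers, exactly. -/
theorem SD.ex2 [IsAlgClosed k] (p : ℕ) [hp : Fact p.Prime] [CharP k p] [CharP Ω p] {c : k} {b : ℝ}
    (h : SD v G M w G' M' t m j c b (X - C c)) (hw : 0 < v w) {P : ℝ →₀ k[X]} (hP : InP G P)
    (hnpd : NPD p G P) {L : ℝ} (hct : Ct L P) {e : ℕ} (he : (P L).coeff e ≠ 0) {σ : ℤ}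
    (hσp : (p : ℤ) ∣ σ) (hσ : ∀ x ∈ terms P, 0 ≤ j x.1 x.2 - σ) :
    ∃ (P' Q : ℝ →₀ k[X]) (L' : ℝ), InP G' P' ∧ InP G' Q ∧ NPD p G' P' ∧ Ct L' P' ∧ L' ∈ G' ∧
      (∃ e', (P' L').coeff e' ≠ 0 ∧ phi p e' ≤ phi p e / m ∧
        ((¬ ∃ d ∈ G', L' = p * d) → e' ≤ e / m)) ∧
      evP M w P * t ^ (-σ) =
        evP M' (aeval t (X - C c)) Q ^ p + evP M' (aeval t (X - C c)) P' := by
  classical
  obtain ⟨ν, hν1, hν2, hν3⟩ := exists_nu (β := v w) he
  have hνG : ν ∈ G' := by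
    obtain ⟨x, hx, hxν⟩ := hν2
    rw [← hxν]
    have h2 := h.ts.mem' (hP.terms hx) (x.2 : ℤ)
    exact_mod_cast h2
  set N := e + 2 with hN
  obtain ⟨K₀, hK⟩ := exists_K (terms P) (fun g n => j g n - σ) hp.out.pos
  set K := p * K₀ with hKdef
  have hK' : ∀ x ∈ terms P, vm (v w) x = ν → 0 ≤ j x.1 x.2 - σ + K := fun x hx _ => hK x hx
  have hsnd : ∀ x ∈ terms P, vm (v w) x = ν → x.2 ≤ e := fun x hx hxν =>
    snd_le hw hct hν3 hx hxν
  have hline := line_eq (c := c) (W := X - C c) (N := N) (R := Rx c) (β := v w)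
    (j := fun g n => j g n - σ) (P := P) (ν := ν) (K := K)
    (fun x hx _ => apx_Rx c (hσ x hx) N) hK'
  set T := tr (v w) (fun g n => j g n - σ) (Rx c) P with hT
  have hTG : InP G' T := by
    refine InP.sum fun x hx => InP.single ?_ _
    have h2 := h.ts.mem' (hP.terms hx) (x.2 : ℤ)
    exact_mod_cast h2
  have hTν : Ct ν T := Ct.tr hν1 _
  obtain ⟨Q, hQ1, hQ2, -⟩ := exists_rm (w := aeval t (X - C c)) p h.ts.ms' T
  have hval := tr_exact h.ts c σ hP hσ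
  rw [← hT, hQ2] at hval
  refine ⟨rst {x | ¬ PD p G' x} T, Q, ν, hTG.rst _, hQ1, npd_rst p T, hTν.rst _, hνG, ?_, hval⟩
  by_cases hνp : ∃ d ∈ G', ν = p * d
  · -- the value is divisible by `p`
    obtain ⟨l, hl1, hl2⟩ : ∃ l, (∀ x ∈ terms P, vm (v w) x = ν → l ≤ x.2 ∧ x.2 ≤ e) ∧
        ∀ n, n ≤ (e - l) / m → n ≤ phi p e / m := by
      by_cases hpe : p ∣ e
      · refine ⟨0, fun x hx hxν => ⟨Nat.zero_le _, hsnd x hx hxν⟩, fun n hn => ?_⟩
        unfold phi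
        rwa [if_pos hpe]
      · by_cases hpm : p ∣ m
        · refine ⟨0, fun x hx hxν => ⟨Nat.zero_le _, hsnd x hx hxν⟩, fun n hn => ?_⟩
          rw [Nat.sub_zero, Nat.le_div_iff_mul_le h.ts.mpos] at hn
          unfold phi
          rw [if_neg hpe, Nat.le_div_iff_mul_le h.ts.mpos]
          have h3 : n * m ≠ e := fun h3 => hpe (h3 ▸ hpm.mul_left n)
          omega
        · refine ⟨1, fun x hx hxν => ⟨?_, hsnd x hx hxν⟩, fun n hn => ?_⟩
          · by_contra hcon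
            have h0 : x.2 = 0 := by omega
            have h1 : x.1 = ν := by
              unfold vm at hxν
              rw [h0, Nat.cast_zero, zero_mul, add_zero] at hxν
              exact hxν
            exact hnpd x hx ⟨h.ts.dvd_down hp.out hpm (hP.terms hx) (by rw [h1]; exact hνp),
              by rw [h0]; exact dvd_zero _⟩
          · unfold phi
            rwa [if_neg hpe]
    obtain ⟨a, H, hH1, hH2, hH3⟩ := exists_line' h.ts σ hP hK' hl1 hν2
    have hF : ∀ n, p ∣ n → (X ^ a * H).coeff n = 0 := fun n hn => by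
      rw [← hH1]
      exact h.line_npd hP hnpd hνp hσp (Dvd.intro _ rfl) hK' hn
    rw [hH1] at hline
    have hdeg : H.natDegree ≤ e := hH2.trans ((Nat.div_le_self _ _).trans (Nat.sub_le _ _))
    have hord : ∀ n < N, X ^ n ∣ derivative (T ν) → n ≤ H.natDegree := fun n hn hdvd =>
      order_deriv_le p h.cne hH3 hF
        (dvd_of_order_deriv p h.dvd hn (Dvd.intro _ rfl) hline hdvd)
    set D := derivative (T ν) with hD
    have hD0 : D ≠ 0 := by
      intro h0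
      have := hord (N - 1) (by omega) (by rw [h0]; exact dvd_zero _)
      omega
    have hD1 : X ^ D.natTrailingDegree ∣ D := by
      rw [X_pow_dvd_iff]
      intro d hd
      exact coeff_eq_zero_of_lt_natTrailingDegree hd
    have hn1 : D.natTrailingDegree ≤ H.natDegree := by
      by_cases hcon : D.natTrailingDegree < N
      · exact hord _ hcon hD1
      · have := hord (N - 1) (by omega) ((pow_dvd_pow X (by omega)).trans hD1)
        omega
    set n := D.natTrailingDegree with hn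
    have hc : D.coeff n ≠ 0 := trailingCoeff_nonzero_iff_nonzero.2 hD0
    rw [hD, coeff_derivative] at hc
    have hc1 := left_ne_zero_of_mul hc
    have hc2 : ¬ p ∣ n + 1 := by
      intro h1
      apply right_ne_zero_of_mul hc
      have h2 : ((n : k) + 1) = ((n + 1 : ℕ) : k) := by push_cast; ring
      rw [h2, (CharP.cast_eq_zero_iff k p (n + 1)).2 h1]
    refine ⟨n + 1, ?_, ?_, fun hcon => absurd hνp hcon⟩
    · rw [coeff_rst, if_pos]
      · exact hc1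
      · intro h1
        exact hc2 h1.2
    · have h1 : phi p (n + 1) = n := by
        unfold phi
        rw [if_neg hc2, Nat.add_sub_cancel]
      rw [h1]
      exact hl2 n (hn1.trans hH2)
  · -- the value is not divisible by `p`
    obtain ⟨a, H, hH1, hH2, hH3⟩ := exists_line' h.ts σ hP hK' (l := 0) (e := e)
      (fun x hx hxν => ⟨Nat.zero_le _, hsnd x hx hxν⟩) hν2
    rw [Nat.sub_zero] at hH2
    rw [hH1] at hline
    have hdeg : H.natDegree < N := by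
      have := Nat.div_le_self e m
      omega
    have hord : ∀ n ≤ N, X ^ n ∣ T ν → n ≤ H.natDegree := fun n hn hdvd =>
      order_le h.cne hH3 (dvd_of_order (a := a) h.dvd hn hline hdvd)
    have hf0 : T ν ≠ 0 := by
      intro h0
      have := hord N le_rfl (by rw [h0]; exact dvd_zero _)
      omega
    have hf1 : X ^ (T ν).natTrailingDegree ∣ T ν := by
      rw [X_pow_dvd_iff]
      intro d hd
      exact coeff_eq_zero_of_lt_natTrailingDegree hd
    have hle : (T ν).natTrailingDegree ≤ e / m := by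
      refine le_trans ?_ hH2
      refine hord _ ?_ hf1
      by_contra hcon
      have := hord N le_rfl ((pow_dvd_pow X (by omega)).trans hf1)
      omega
    refine ⟨(T ν).natTrailingDegree, ?_, ?_, fun _ => hle⟩
    · rw [coeff_rst, if_pos]
      · exact trailingCoeff_nonzero_iff_nonzero.2 hf0
      · intro h1
        exact hνp h1.1
    · refine phi_le hp.out h.ts.mpos ?_
      rw [← Nat.le_div_iff_mul_le h.ts.mpos]
      exact hle

/-! ### The tracked elements -/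

/-- `f` is a Laurent polynomial of order `≤ e` (at its content). -/
def Tr (k : Type u) {Ω : Type u} [Field k] [Field Ω] [Algebra k Ω] (G : AddSubgroup ℝ)
    (M : ℝ → Ω) (w : Ω) (f : Ω) (e : ℕ) : Prop :=
  ∃ μ ∈ G, ∃ f₀ : k[X], Lt k G M w μ f₀ f ∧ ∃ e' ≤ e, f₀.coeff e' ≠ 0

/-- Modulo a `p`-th power, `f` is a Laurent polynomial without `p`-th powers, and its content and
order have the property `T`. -/
def TrQ (p : ℕ) (F : IntermediateField k Ω) (G : AddSubgroup ℝ) (M : ℝ → Ω) (w : Ω) (f : Ω)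
    (T : ℝ → ℕ → Prop) : Prop :=
  ∃ g ∈ F, ∃ μ ∈ G, ∃ P : ℝ →₀ k[X], InP G P ∧ NPD p G P ∧ Ct μ P ∧ f = g ^ p + evP M w P ∧
    ∃ e, (P μ).coeff e ≠ 0 ∧ T μ e

theorem TrQ.mono {p : ℕ} {f : Ω} {T T' : ℝ → ℕ → Prop} (hT : ∀ μ e, T μ e → T' μ e)
    (h : TrQ p F G M w f T) : TrQ p F G M w f T' := by
  obtain ⟨g, hg, μ, hμ, P, h1, h2, h3, h4, e, h5, h6⟩ := h
  exact ⟨g, hg, μ, hμ, P, h1, h2, h3, h4, e, h5, hT _ _ h6⟩

/-- Recentring keeps the tracked elements. -/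
theorem Tr.reparam (hM : MS v G M) {w₁ : Ω} {δ : ℝ} (hδ : 0 < δ) (hw : Rg k G M w₁ δ (w - w₁))
    {f : Ω} {e : ℕ} (h : Tr k G M w f e) : Tr k G M w₁ f e := by
  obtain ⟨μ, hμ, f₀, h1, e', h2, h3⟩ := h
  exact ⟨μ, hμ, f₀, h1.reparam hM hδ hw hμ, e', h2, h3⟩

theorem TrQ.reparam [IsAlgClosed k] (p : ℕ) [hp : Fact p.Prime] [CharP Ω p] {w₁ : Ω}
    (hf : Frm v G M w₁ F) {δ : ℝ} (hδ : 0 < δ) (hw : Rg k G M w₁ δ (w - w₁))
    {f : Ω} {T : ℝ → ℕ → Prop} (h : TrQ p F G M w f T) : TrQ p F G M w₁ f T := by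
  classical
  obtain ⟨g, hg, μ, hμ, P, h1, h2, h3, h4, e, h5, h6⟩ := h
  obtain ⟨P₁, h7, h8, h9, h10⟩ : Lt k G M w₁ μ (P μ) (evP M w P) :=
    Lt.reparam hf.ms hδ hw hμ ⟨P, h1, h3, rfl, rfl⟩
  obtain ⟨Q, h11, h12, -⟩ := exists_rm (w := w₁) p hf.ms P₁
  refine ⟨g + evP M w₁ Q, add_mem hg (hf.evP_mem h11), μ, hμ, rst {x | ¬ PD p G x} P₁, h7.rst _,
    npd_rst p P₁, h8.rst _, ?_, e, ?_, h6⟩
  · rw [h4, h10, h12, add_pow_char]
    ring
  · rw [coeff_rst, if_pos, h9]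
    · exact h5
    · exact h2 (μ, e) (mem_terms.2 h5)

/-- **The macro step.** -/
theorem exists_step [IsAlgClosed k] [IsAlgClosed Ω] (p : ℕ) [hp : Fact p.Prime] [CharP k p]
    [CharP Ω p] (h : Ctx0 k v) (hf : Frm v G M w F) (hn : NFG v F) {ι : Type*} (s : Finset ι)
    (f : ι → Ω) {e : ℕ} (hs : ∀ i ∈ s, Tr k G M w (f i) e) {fq : Ω}
    (hq : TrQ p F G M w fq fun _ e' => phi p e' ≤ e) :
    ∃ (G' : AddSubgroup ℝ) (M' : ℝ → Ω) (w' : Ω), G ≤ G' ∧ Frm v G' M' w' F ∧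
      ∃ τ ∈ F, τ ≠ 0 ∧ v τ = 0 ∧ (∀ i ∈ s, Tr k G' M' w' (τ ^ p * f i) (e / 2)) ∧
        TrQ p F G' M' w' (τ ^ p * fq) fun μ e' => phi p e' ≤ e / 2 ∧
          ((¬ ∃ d ∈ G', μ = p * d) → e' ≤ (e + 1) / 2) := by
  classical
  obtain ⟨w₁, hf₁, hw₁, δ, hδ, hR⟩ := hf.exists_recentre p h hn
  have hs₁ := fun i hi => (hs i hi).reparam hf.ms hδ hR
  obtain ⟨g, hg, μ, hμ, Pq, h1, h2, h3, h4, eq, h5, h6⟩ := hq.reparam p hf₁ hδ hR
  obtain ⟨G', M', t, m, j, c, hT, hc, hv⟩ := hf₁.exists_tstep h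
  obtain ⟨b, hb, hnear⟩ := exists_near hv
  have hW0 : (X - C c : k[X]).eval c = 0 := by rw [eval_sub, eval_X, eval_C, sub_self]
  have hW1 : (derivative (X - C c : k[X])).eval c ≠ 0 := by
    rw [derivative_sub, derivative_X, derivative_C, sub_zero, eval_one]
    exact one_ne_zero
  have hsd : SD v G M w₁ G' M' t m j c b (X - C c) := ⟨hT, h.ge, hc, hb, hnear, hW0, hW1⟩
  have hm := hT.two_le hw₁
  have hne := hf₁.aeval_ne h hn hT hc hv hW0 hW1
  have hf' := hf₁.step_coord h hT hc hv hW0 hW1 hne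
  have htF : t ∈ F := by
    rw [hT.t_eq]
    exact mul_mem (pow_mem hf₁.w_mem _) (inv_mem (hf₁.mon_mem hT.mem))
  have hdiv : ∀ n : ℕ, n / m ≤ n / 2 := fun n => Nat.div_le_div_left hm two_pos
  -- the polynomials
  have key : ∀ i, ∃ (P : ℝ →₀ k[X]) (μ : ℝ) (e' : ℕ), i ∈ s → InP G P ∧ Ct μ P ∧
      (P μ).coeff e' ≠ 0 ∧ e' ≤ e ∧ f i = evP M w₁ P := by
    intro i
    by_cases hi : i ∈ s
    · obtain ⟨μ, hμ, f₀, ⟨P, h7, h8, h9, h10⟩, e', h11, h12⟩ := hs₁ i hi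
      exact ⟨P, μ, e', fun _ => ⟨h7, h8, by rw [h9]; exact h12, h11, h10⟩⟩
    · exact ⟨0, 0, 0, fun h => absurd h hi⟩
  choose P ν e' hP using key
  obtain ⟨K, hK⟩ := exists_K (s.biUnion (fun i => terms (P i)) ∪ terms Pq) j hp.out.pos
  set σ : ℤ := -((p * K : ℕ) : ℤ) with hσ
  have hσp : (p : ℤ) ∣ σ := by
    rw [hσ, dvd_neg]
    exact Int.natCast_dvd_natCast.2 (Dvd.intro _ rfl)
  have hτ : ∀ x : Ω, (t ^ K) ^ p * x = x * t ^ (-σ) := by
    intro x
    rw [hσ, neg_neg, zpow_natCast, ← pow_mul, mul_comm K p, mul_comm]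
  refine ⟨G', M', aeval t (X - C c), hT.le, hf', t ^ K, pow_mem htF K, pow_ne_zero _ hT.t_ne, ?_,
    fun i hi => ?_, ?_⟩
  · rw [v.map_pow hT.t_ne, hT.t_val, mul_zero]
  · obtain ⟨h7, h8, h9, h10, h11⟩ := hP i hi
    obtain ⟨P', L', h12, h13, ⟨e'', h14, h15⟩, h16⟩ := hsd.ex1 hf₁.wpos h7 h8 h9 (σ := σ)
      (fun x hx => by
        have h12 := hK x (Finset.mem_union_left _ (Finset.mem_biUnion.2 ⟨i, hi, hx⟩))
        rw [hσ]
        omega)
    refine ⟨L', h12 L' (fun h0 => h14 (by rw [h0, coeff_zero])), P' L', ⟨P', h12, h13, rfl, ?_⟩,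
      e'', ?_, h14⟩
    · rw [hτ, h11, h16]
    · exact h15.trans ((hdiv _).trans (Nat.div_le_div_right h10))
  · obtain ⟨P', Q, L', h12, h13, h14, h15, h16, ⟨e'', h17, h18, h19⟩, h20⟩ :=
      hsd.ex2 p hf₁.wpos h1 h2 h3 h5 hσp (fun x hx => by
        have h12 := hK x (Finset.mem_union_right _ hx)
        rw [hσ]
        omega)
    have heq : eq ≤ e + 1 := by
      unfold phi at h6
      split_ifs at h6 <;> omega
    refine ⟨g * t ^ K + evP M' (aeval t (X - C c)) Q,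
      add_mem (mul_mem hg (pow_mem htF K)) (hf'.evP_mem h13), L', h16, P', h12, h14, h15, ?_, e'',
      h17, ?_, fun hL => ?_⟩
    · rw [add_pow_char, mul_pow, h4, mul_add, hτ (evP M w₁ Pq), h20]
      ring
    · exact h18.trans ((hdiv _).trans (Nat.div_le_div_right h6))
    · exact (h19 hL).trans ((hdiv _).trans (Nat.div_le_div_right heq))

/-- **A deep frame.** -/
theorem exists_deep [IsAlgClosed k] [IsAlgClosed Ω] (p : ℕ) [hp : Fact p.Prime] [CharP k p]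
    [CharP Ω p] (h : Ctx0 k v) (hn : NFG v F) {ι : Type*} (s : Finset ι) (n : ℕ) :
    ∀ {G : AddSubgroup ℝ} {M : ℝ → Ω} {w : Ω}, Frm v G M w F → ∀ (f : ι → Ω),
    (∀ i ∈ s, Tr k G M w (f i) (2 ^ n)) → ∀ {fq : Ω},
    (TrQ p F G M w fq fun _ e' => phi p e' ≤ 2 ^ n) →
    ∃ (G' : AddSubgroup ℝ) (M' : ℝ → Ω) (w' : Ω), G ≤ G' ∧ Frm v G' M' w' F ∧
      ∃ τ ∈ F, τ ≠ 0 ∧ v τ = 0 ∧ (∀ i ∈ s, Tr k G' M' w' (τ ^ p * f i) 0) ∧
        TrQ p F G' M' w' (τ ^ p * fq) fun μ e' =>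
          ((∃ d ∈ G', μ = p * d) ∧ e' = 1) ∨ ((¬ ∃ d ∈ G', μ = p * d) ∧ e' = 0) := by
  have mulp : ∀ a b x : Ω, (b * a) ^ p * x = b ^ p * (a ^ p * x) := fun a b x => by ring
  induction n with
  | zero =>
    intro G M w hf f hs fq hq
    rw [pow_zero] at hs hq
    obtain ⟨G₁, M₁, w₁, hG₁, hf₁, τ₁, hτ₁, h1, h2, h3, h4⟩ := exists_step p h hf hn s f hs hq
    obtain ⟨G₂, M₂, w₂, hG₂, hf₂, τ₂, hτ₂, h5, h6, h7, g, hg, μ, hμ, P, h8, h9, h10, h11, e, h12,
      h13⟩ := exists_step p h hf₁ hn s (fun i => τ₁ ^ p * f i) h3 (h4.mono fun _ _ h5 => h5.1)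
    refine ⟨G₂, M₂, w₂, hG₁.trans hG₂, hf₂, τ₂ * τ₁, mul_mem hτ₂ hτ₁, mul_ne_zero h5 h1, ?_,
      fun i hi => ?_, g, hg, μ, hμ, P, h8, h9, h10, ?_, e, h12, ?_⟩
    · rw [v.map_mul h5 h1, h2, h6, add_zero]
    · rw [mulp]
      exact h7 i hi
    · rw [mulp]
      exact h11
    · have h14 : phi p e ≤ 0 := h13.1
      rw [Nat.le_zero, phi_eq_zero hp.out] at h14
      by_cases hL : ∃ d ∈ G₂, μ = p * d
      · refine Or.inl ⟨hL, ?_⟩
        by_contra h15
        have h16 : e = 0 := by omega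
        subst h16
        exact h9 (μ, 0) (mem_terms.2 h12) ⟨hL, dvd_zero _⟩
      · exact Or.inr ⟨hL, Nat.le_zero.1 (h13.2 hL)⟩
  | succ n ih =>
    intro G M w hf f hs fq hq
    obtain ⟨G₁, M₁, w₁, hG₁, hf₁, τ₁, hτ₁, h1, h2, h3, h4⟩ := exists_step p h hf hn s f hs hq
    have hd : 2 ^ (n + 1) / 2 = 2 ^ n := by rw [pow_succ, Nat.mul_div_cancel _ two_pos]
    rw [hd] at h3 h4
    obtain ⟨G₂, M₂, w₂, hG₂, hf₂, τ₂, hτ₂, h5, h6, h7, h8⟩ :=
      ih hf₁ (fun i => τ₁ ^ p * f i) h3 (h4.mono fun _ _ h5 => h5.1)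
    refine ⟨G₂, M₂, w₂, hG₁.trans hG₂, hf₂, τ₂ * τ₁, mul_mem hτ₂ hτ₁, mul_ne_zero h5 h1, ?_,
      fun i hi => ?_, ?_⟩
    · rw [v.map_mul h5 h1, h2, h6, add_zero]
    · rw [mulp]
      exact h7 i hi
    · rw [mulp]
      exact h8

end Pool.Agent.TWN
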