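import Pool.Agent.Lib.TW_NFG.P3a
import Pool.Agent.Lib.TW_NFG.P2
import Pool.Agent.Lib.TW.T1
import Pool.Agent.Lib.TWM.X2

/-!
# NFG, row P3 (b): a deep frame for finitely many elements of the field of a frame

* `frm_base`: the first frame;
* `LR`: the ring of the Laurent polynomials; `exists_den`: a common denominator;
* `deep_frame`: a frame in which finitely many elements of `R.K` are monomials times a unit, and
  one element has a leading form which is not a `p`-th power.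
-/

set_option autoImplicit false

open Polynomial

namespace Pool.Agent.TWN

open Pool.Agent.H15JM (RVal)
open Pool.Agent.LU1 (VPos)
open Pool.Agent.D2 (Ctx0)
open Pool.Agent.D2P (clI mem_clI)
open Pool.Agent.TW (Ctx Fr mx)
open Pool.Agent.TWM (MS LF NN GG MM vl cadj Cld VG InG evL Gt)

universe u

variable {k Ω : Type u} [Field k] [Field Ω] [Algebra k Ω] {v : RVal Ω} {G G' : AddSubgroup ℝ}
  {M M' : ℝ → Ω} {w t : Ω} {F : IntermediateField k Ω}

/-- The first frame. -/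
theorem frm_base {r : ℕ} (h : Ctx k v r) (R : Fr k v r 1) :
    Frm v (GG v R.x) (MM v R.x) (R.y 0) (clI v R.K) where
  ms := TWM.MS_MM R.x_ne R.x_ind
  fg := TWM.GG_fg R.x
  wne := R.y_ne 0
  wpos := R.y_pos 0
  full := by
    intro f _ hf0
    obtain ⟨m, hm, c, hc, hc0, h1⟩ := TWM.full_of_ind h R.x_ne R.x_ind
      (E := IntermediateField.adjoin k (Set.range R.x))
      (fun i => IntermediateField.subset_adjoin k _ ⟨i, rfl⟩) f hf0
    refine ⟨m, hm, ?_⟩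
    obtain ⟨l, hl⟩ := TWM.val_NN h.toCtx0 R.x_ne R.x_ind (mem_clI.2 (LUC.Cl.subset hc)) hc0
    rw [← h1, hl]
    exact ⟨l, TWM.vl_apply _ _⟩
  eq := by
    congr 1
    apply le_antisymm
    · rw [Fr.K, IntermediateField.adjoin_le_iff]
      rintro _ (⟨i, rfl⟩ | ⟨i, rfl⟩)
      · refine IntermediateField.subset_adjoin k _ (Or.inl ⟨v (R.x i), TWM.vx_mem _ _, ?_⟩)
        exact TWM.MM_x R.x_ind i
      · rw [Subsingleton.elim i 0]
        exact IntermediateField.subset_adjoin k _ (Or.inr rfl)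
    · rw [IntermediateField.adjoin_le_iff]
      rintro _ (⟨g, hg, rfl⟩ | rfl)
      · exact TWM.MM_mem R.x_ind (fun i =>
          IntermediateField.subset_adjoin k _ (Or.inl ⟨i, rfl⟩)) g hg
      · exact IntermediateField.subset_adjoin k _ (Or.inr ⟨0, rfl⟩)

/-! ### The ring of the Laurent polynomials -/

/-- The ring of the Laurent polynomials. -/
def LR (k : Type u) {Ω : Type u} [Field k] [Field Ω] [Algebra k Ω] {v : RVal Ω}
    {G : AddSubgroup ℝ} {M : ℝ → Ω} (hM : MS v G M) (w : Ω) : Subalgebra k Ω where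
  carrier := {f | ∃ μ, Rg k G M w μ f}
  mul_mem' := by
    rintro f g ⟨μ, hf⟩ ⟨ν, hg⟩
    exact ⟨_, hf.mul hM hg⟩
  add_mem' := by
    rintro f g ⟨μ, hf⟩ ⟨ν, hg⟩
    exact ⟨min μ ν, (hf.mono (min_le_left _ _)).add (hg.mono (min_le_right _ _))⟩
  algebraMap_mem' := fun c => ⟨0, Rg.const hM c⟩

theorem mem_LR {hM : MS v G M} {f : Ω} : f ∈ LR k hM w ↔ ∃ μ, Rg k G M w μ f := Iff.rfl

/-- The elements of the field generated by the frame are quotients. -/
theorem exists_div (hM : MS v G M) {S : Set Ω} (hS : ∀ x ∈ S, x ∈ LR k hM w) {f : Ω}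
    (hf : f ∈ IntermediateField.adjoin k S) :
    ∃ D ∈ LR k hM w, D ≠ 0 ∧ D * f ∈ LR k hM w := by
  have hle : Algebra.adjoin k S ≤ LR k hM w := Algebra.adjoin_le hS
  obtain ⟨a, ha, b, hb, h1⟩ := IntermediateField.mem_adjoin_iff_div.1 hf
  by_cases hb0 : b = 0
  · refine ⟨1, one_mem _, one_ne_zero, ?_⟩
    rw [h1, hb0, div_zero, mul_zero]
    exact zero_mem _
  · refine ⟨b, hle hb, hb0, ?_⟩
    rw [h1, mul_div_cancel₀ _ hb0]
    exact hle ha

/-- A common denominator. -/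
theorem exists_den (hM : MS v G M) {S : Set Ω} (hS : ∀ x ∈ S, x ∈ LR k hM w) (s : Finset Ω)
    (hs : ∀ f ∈ s, f ∈ IntermediateField.adjoin k S) :
    ∃ D ∈ LR k hM w, D ≠ 0 ∧ ∀ f ∈ s, D * f ∈ LR k hM w := by
  classical
  induction s using Finset.induction_on with
  | empty => exact ⟨1, one_mem _, one_ne_zero, fun f hf => absurd hf (Finset.notMem_empty f)⟩
  | insert a s ha ih =>
    obtain ⟨D, hD, hD0, h1⟩ := ih fun f hf => hs f (Finset.mem_insert_of_mem hf)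
    obtain ⟨D', hD', hD0', h2⟩ := exists_div hM hS (hs a (Finset.mem_insert_self a s))
    refine ⟨D' * D, mul_mem hD' hD, mul_ne_zero hD0' hD0, fun f hf => ?_⟩
    rcases Finset.mem_insert.1 hf with rfl | hf
    · rw [show D' * D * f = D * (D' * f) by ring]
      exact mul_mem hD h2
    · rw [mul_assoc]
      exact mul_mem hD' (h1 f hf)

/-! ### The tracked elements -/

theorem exists_ct {P : ℝ →₀ k[X]} (hP : P ≠ 0) : ∃ μ, Ct μ P ∧ ∃ e, (P μ).coeff e ≠ 0 := by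
  obtain ⟨g₀, hg₀, hmin⟩ := P.support.exists_min_image id
    (by rwa [Finsupp.support_nonempty_iff])
  refine ⟨g₀, fun g hg => hmin g (Finsupp.mem_support_iff.2 hg), ?_⟩
  by_contra hcon
  push Not at hcon
  exact Finsupp.mem_support_iff.1 hg₀ (by ext n; rw [hcon n, coeff_zero])

theorem exists_tr (hM : MS v G M) {f : Ω} (hf : f ∈ LR k hM w) (hf0 : f ≠ 0) :
    ∃ e, Tr k G M w f e := by
  obtain ⟨-, P, h1, -, rfl⟩ := hf
  obtain ⟨μ, h2, e, h3⟩ := exists_ct (P := P) (by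
    rintro rfl
    exact hf0 evP_zero)
  exact ⟨e, μ, h1 μ (fun h0 => h3 (by rw [h0, coeff_zero])), P μ, ⟨P, h1, h2, rfl, rfl⟩, e, le_rfl,
    h3⟩

theorem exists_trQ [IsAlgClosed k] (p : ℕ) [hp : Fact p.Prime] [CharP Ω p] (hf : Frm v G M w F)
    {f : Ω} (hfL : f ∈ LR k hf.ms w) (hfp : ∀ g ∈ F, f ≠ g ^ p) :
    ∃ e, TrQ p F G M w f fun _ e' => phi p e' ≤ e := by
  classical
  obtain ⟨-, P, h1, -, rfl⟩ := hfL
  obtain ⟨Q, h2, h3, -⟩ := exists_rm (w := w) p hf.ms P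
  obtain ⟨μ, h4, e, h5⟩ := exists_ct (P := rst {x | ¬ PD p G x} P) (by
    intro h0
    rw [h0, evP_zero, add_zero] at h3
    exact hfp _ (hf.evP_mem h2) h3)
  exact ⟨phi p e, _, hf.evP_mem h2, μ, h1.rst _ μ (fun h0 => h5 (by rw [h0, coeff_zero])), _,
    h1.rst _, npd_rst p P, h4, h3, e, h5, le_rfl⟩

theorem Tr.mono {f : Ω} {e e' : ℕ} (he : e ≤ e') (h : Tr k G M w f e) : Tr k G M w f e' := by
  obtain ⟨μ, hμ, f₀, h1, e₁, h2, h3⟩ := h
  exact ⟨μ, hμ, f₀, h1, e₁, h2.trans he, h3⟩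

theorem Tr.monomial_mul (hM : MS v G M) {f : Ω} {e : ℕ} (h : Tr k G M w f e) {γ : ℝ}
    (hγ : γ ∈ G) : Tr k G M w (M γ * f) e := by
  obtain ⟨μ, hμ, f₀, h1, e₁, h2, h3⟩ := h
  have h4 := (Lt.term (k := k) (M := M) (w := w) hγ 1).mul hM hγ hμ h1
  rw [map_one, mul_one, one_mul] at h4
  exact ⟨γ + μ, G.add_mem hγ hμ, f₀, h4, e₁, h2, h3⟩

theorem TrQ.monomial_mul {p : ℕ} (hf : Frm v G M w F) {f : Ω} {T : ℝ → ℕ → Prop}
    (h : TrQ p F G M w f T) {γ : ℝ} (hγ : γ ∈ G) :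
    TrQ p F G M w (M γ ^ p * f) fun μ e => T (μ - p * γ) e := by
  obtain ⟨g, hg, μ, hμ, P, h1, h2, h3, h4, e, h5, h6⟩ := h
  have hpγ : (p : ℝ) * γ ∈ G := by
    rw [← nsmul_eq_mul]
    exact G.nsmul_mem hγ p
  refine ⟨M γ * g, mul_mem (hf.mon_mem hγ) hg, μ + p * γ, G.add_mem hμ hpγ, sh 1 (p * γ) 0 P,
    h1.sh hpγ, fun x hx hx' => ?_, ?_, ?_, e, ?_, ?_⟩
  · obtain ⟨-, y, hy, h7, h8⟩ := mem_terms_sh hx
    obtain ⟨⟨d, hd, h9⟩, h10⟩ := hx'
    refine h2 y hy ⟨⟨d - γ, G.sub_mem hd hγ, by linear_combination h9 - h7⟩, ?_⟩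
    rwa [h8, add_zero] at h10
  · refine Ct.of_terms fun x hx => ?_
    obtain ⟨-, y, hy, h7, h8⟩ := mem_terms_sh hx
    have := h3.terms hy
    linarith
  · rw [evP_sh hf.ms hpγ h1, map_one, one_mul, pow_zero, mul_one, hf.ms.pow hγ p, h4]
    ring
  · have h7 := coeff_sh (1 : k) (p * γ) 0 P (μ + p * γ) e
    rw [add_zero] at h7
    rw [h7, one_mul, add_sub_cancel_right]
    exact h5
  · show T (μ + p * γ - p * γ) e
    rwa [add_sub_cancel_right]

/-- The value of a tracked element of order `0`. -/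
theorem Tr.val (h : Ctx0 k v) (hM : MS v G M) (hw : 0 < v w) {f : Ω} (hf : Tr k G M w f 0) :
    f ≠ 0 ∧ v f ∈ G ∧ ∃ f₀ : k[X], Lt k G M w (v f) f₀ f ∧ f₀.coeff 0 ≠ 0 := by
  obtain ⟨μ, hμ, f₀, h1, e, he, h2⟩ := hf
  rw [Nat.le_zero] at he
  subst he
  obtain ⟨δ, hδ, h3⟩ := h1.split hμ
  have hwg : v.Ge 0 w := fun _ => hw.le
  have h4 := Rg.ge h hM hwg h3
  set c := f₀.coeff 0 with hc
  have hc0 : algebraMap k Ω c ≠ 0 := by
    rw [Ne, FaithfulSMul.algebraMap_eq_zero_iff]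
    exact h2
  have h5 : v.Ge (v w) (aeval w (f₀ - C c)) :=
    aeval_ge_of_coeff h hw.le (RVal.ge_self w) (by rw [coeff_sub, coeff_C_zero, hc, sub_self])
  have hMμ := hM.ne μ hμ
  have h6 : M μ * algebraMap k Ω c ≠ 0 := mul_ne_zero hMμ hc0
  have h7 : v (M μ * algebraMap k Ω c) = μ := by
    rw [v.map_mul hMμ hc0, hM.val μ hμ, h.triv c h2, add_zero]
  have hz : 0 < min (v w) δ := lt_min hw hδ
  have h8 : v.Ge (μ + min (v w) δ) (f - M μ * algebraMap k Ω c) := by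
    have h9 : v.Ge μ (M μ) := fun _ => by rw [hM.val μ hμ]
    have h10 := ((h9.mul h5).mono (by have := min_le_left (v w) δ; linarith :
      μ + min (v w) δ ≤ μ + v w)).add (h4.mono (by have := min_le_right (v w) δ; linarith :
      μ + min (v w) δ ≤ μ + δ))
    rwa [map_sub, aeval_C, show M μ * (aeval w f₀ - algebraMap k Ω c) + (f - M μ * aeval w f₀) =
      f - M μ * algebraMap k Ω c by ring] at h10
  have h9 : Gt v (v (M μ * algebraMap k Ω c)) (M μ * algebraMap k Ω c - f) := by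
    have h10 := h8.neg
    rw [neg_sub] at h10
    exact Gt.of_ge h10 (by rw [h7]; linarith)
  obtain ⟨h10, h11⟩ := h9.val_eq h6
  rw [h7] at h11
  refine ⟨h10, by rw [h11]; exact hμ, f₀, ?_, h2⟩
  rw [h11]
  exact h1

/-- **A deep frame.** -/
theorem deep_frame [IsAlgClosed k] [IsAlgClosed Ω] (p : ℕ) [hp : Fact p.Prime] [CharP k p]
    [CharP Ω p] (h : Ctx0 k v) (hf : Frm v G M w F) (hn : NFG v F) {S : Set Ω}
    (hS : ∀ x ∈ S, x ∈ LR k hf.ms w) (s : Finset Ω)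
    (hs : ∀ f ∈ s, f ∈ IntermediateField.adjoin k S ∧ f ≠ 0) {fq : Ω}
    (hq : fq ∈ IntermediateField.adjoin k S) (hqp : ∀ g ∈ F, fq ≠ g ^ p) :
    ∃ (G' : AddSubgroup ℝ) (M' : ℝ → Ω) (w' : Ω), Frm v G' M' w' F ∧
      ∃ η ∈ F, η ≠ 0 ∧ v η = 0 ∧ (∀ f ∈ s, Tr k G' M' w' (η ^ p * f) 0) ∧
        TrQ p F G' M' w' (η ^ p * fq) fun μ e' =>
          ((∃ d ∈ G', μ = p * d) ∧ e' = 1) ∨ ((¬ ∃ d ∈ G', μ = p * d) ∧ e' = 0) := by
  classical
  obtain ⟨D, hD, hD0, hDf⟩ := exists_den hf.ms hS (insert fq s) (fun f hf' => by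
    rcases Finset.mem_insert.1 hf' with rfl | hf'
    · exact hq
    · exact (hs f hf').1)
  have hpp := hp.out.pos
  have hDp : ∀ f ∈ insert fq s, D ^ p * f ∈ LR k hf.ms w := fun f hf' => by
    obtain ⟨n, hn'⟩ : ∃ n, p = n + 1 := ⟨p - 1, by omega⟩
    rw [hn', pow_succ, mul_assoc]
    exact mul_mem (pow_mem hD n) (hDf f hf')
  have hDF : D ∈ F := by
    obtain ⟨μ, h1⟩ := hD
    exact hf.rg_mem h1
  -- the family
  set s' : Finset Ω := insert D (s.image fun f => D ^ p * f) with hs'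
  have h1 : ∀ f ∈ s', f ∈ LR k hf.ms w ∧ f ≠ 0 := by
    intro f hf'
    rcases Finset.mem_insert.1 hf' with rfl | hf'
    · exact ⟨hD, hD0⟩
    · obtain ⟨f', hf1, rfl⟩ := Finset.mem_image.1 hf'
      exact ⟨hDp f' (Finset.mem_insert_of_mem hf1), mul_ne_zero (pow_ne_zero _ hD0) (hs f' hf1).2⟩
  have h2 : ∀ f, ∃ e, f ∈ s' → Tr k G M w f e := by
    intro f
    by_cases hf' : f ∈ s'
    · obtain ⟨e, he⟩ := exists_tr hf.ms (h1 f hf').1 (h1 f hf').2
      exact ⟨e, fun _ => he⟩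
    · exact ⟨0, fun h => absurd h hf'⟩
  choose e he using h2
  obtain ⟨eq, heq⟩ := exists_trQ p hf (f := D ^ p * fq) (hDp fq (Finset.mem_insert_self _ _))
    (fun g hg h3 => hqp (g / D) (div_mem hg hDF) (by
      rw [div_pow, ← h3, mul_div_cancel_left₀ _ (pow_ne_zero _ hD0)]))
  set n := max (s'.sup e) eq with hn'
  have hn2 : n ≤ 2 ^ n := Nat.lt_two_pow_self.le
  obtain ⟨G', M', w', -, hf', τ, hτ, hτ0, hτv, h3, h4⟩ := exists_deep p h hn s' n hf id
    (fun i hi => (he i hi).mono (((Finset.le_sup (f := e) hi).trans (le_max_left _ _)).trans hn2))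
    (fq := D ^ p * fq) (heq.mono fun _ _ h5 => h5.trans ((le_max_right _ _).trans hn2))
  have hτD : τ ^ p ≠ 0 := pow_ne_zero _ hτ0
  obtain ⟨-, h5, -⟩ := (h3 D (Finset.mem_insert_self _ _)).val h hf'.ms hf'.wpos
  have h6 : v (τ ^ p * id D) = v D := by
    show v (τ ^ p * D) = v D
    rw [v.map_mul hτD hD0, v.map_pow hτ0, hτv, mul_zero, zero_add]
  rw [h6] at h5
  have hγ : -v D ∈ G' := G'.neg_mem h5
  have hpγ : (p : ℝ) * -v D ∈ G' := by
    rw [← nsmul_eq_mul]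
    exact G'.nsmul_mem hγ p
  have hMγ := hf'.ms.ne _ hγ
  have e1 : ∀ x : Ω, (M' (-v D) * (τ * D)) ^ p * x = M' (-v D) ^ p * (τ ^ p * (D ^ p * x)) :=
    fun x => by ring
  refine ⟨G', M', w', hf', M' (-v D) * (τ * D),
    mul_mem (hf'.mon_mem hγ) (mul_mem hτ hDF), mul_ne_zero hMγ (mul_ne_zero hτ0 hD0), ?_,
    fun f hfs => ?_, ?_⟩
  · rw [v.map_mul hMγ (mul_ne_zero hτ0 hD0), v.map_mul hτ0 hD0, hf'.ms.val _ hγ, hτv]
    ring
  · rw [e1, ← hf'.ms.pow hγ p]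
    exact (h3 (D ^ p * f) (Finset.mem_insert_of_mem (Finset.mem_image_of_mem _ hfs))).monomial_mul
      hf'.ms hpγ
  · rw [e1]
    refine (h4.monomial_mul hf' hγ).mono fun μ e' h7 => ?_
    have h8 : (∃ d ∈ G', μ - p * -v D = p * d) ↔ ∃ d ∈ G', μ = p * d := by
      constructor
      · rintro ⟨d, hd, h8⟩
        exact ⟨d + -v D, G'.add_mem hd hγ, by linear_combination h8⟩
      · rintro ⟨d, hd, h8⟩
        exact ⟨d - -v D, G'.sub_mem hd hγ, by linear_combination h8⟩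
    rwa [h8] at h7

end Pool.Agent.TWN
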