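import Pool.Agent.Lib.TW_NFG.P3b

/-!
# NFG, row P3 (c): the exact frame

A Laurent polynomial whose leading form is a constant (its exponent is not divisible by `p`) or a
parameter (its exponent is divisible by `p`) becomes a monomial of a new frame; the other Laurent
polynomials become series in the new frame.

* `Ser k v G M w μ f`: `f` is the value of a convergent series of content `≥ μ`;
* `TT`: sums of products of a monomial of the new frame and an element of `A`, with weights;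
* `TT.ser`: the elements of `TT` are series;
* `exact_frame`.
-/

set_option autoImplicit false

open Polynomial

namespace Pool.Agent.TWN

open Pool.Agent.H15JM (RVal)
open Pool.Agent.LU1 (VPos)
open Pool.Agent.D2 (Ctx0)
open Pool.Agent.D2P (clI mem_clI)
open Pool.Agent.TWM (MS LF NN GG MM vl cadj Cld VG InG evL Gt)

universe u

variable {k Ω : Type u} [Field k] [Field Ω] [Algebra k Ω] {v : RVal Ω} {G G' : AddSubgroup ℝ}
  {M M' : ℝ → Ω} {w t : Ω} {F : IntermediateField k Ω}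

/-- `f` is a series of content `≥ μ`: a Laurent polynomial of content `≥ μ`, up to limits of
Laurent polynomials whose monomials have arbitrarily large values. -/
def Ser (k : Type u) {Ω : Type u} [Field k] [Field Ω] [Algebra k Ω] (v : RVal Ω)
    (G : AddSubgroup ℝ) (M : ℝ → Ω) (w : Ω) (μ : ℝ) (f : Ω) : Prop :=
  ∀ C : ℝ, ∃ P : ℝ →₀ k[X], InP G P ∧ Ct μ P ∧ ∀ B : ℝ, ∃ Q : ℝ →₀ k[X], InP G Q ∧
    (∀ x ∈ terms Q, C ≤ vm (v w) x) ∧ v.Ge B (f - evP M w P - evP M w Q)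

/-! ### Weights -/

/-- Sums of products of monomials of the frame and elements of `A`, of weight `≥ ρ`. -/
def TT (k : Type u) {Ω : Type u} [Field k] [Field Ω] [Algebra k Ω] (G : AddSubgroup ℝ)
    (M : ℝ → Ω) (w : Ω) (g₀ : ℝ) (A : Set (Ω × ℝ)) (ρ : ℝ) : AddSubgroup Ω :=
  AddSubgroup.closure {x | ∃ (c : k) (g : ℝ) (b : ℕ) (y : Ω) (ω : ℝ), g ∈ G ∧ 0 ≤ g ∧
    (y, ω) ∈ A ∧ ρ ≤ g / g₀ + b + ω ∧ x = algebraMap k Ω c * (M g * w ^ b * y)}

namespace TT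

variable {g₀ : ℝ} {A : Set (Ω × ℝ)}

theorem gen {c : k} {g : ℝ} {b : ℕ} {y : Ω} {ω ρ : ℝ} (hg : g ∈ G) (hg0 : 0 ≤ g)
    (hy : (y, ω) ∈ A) (hρ : ρ ≤ g / g₀ + b + ω) :
    algebraMap k Ω c * (M g * w ^ b * y) ∈ TT k G M w g₀ A ρ :=
  AddSubgroup.subset_closure ⟨c, g, b, y, ω, hg, hg0, hy, hρ, rfl⟩

theorem mono {ρ ρ' : ℝ} (hρ : ρ' ≤ ρ) : TT k G M w g₀ A ρ ≤ TT k G M w g₀ A ρ' := by
  refine AddSubgroup.closure_mono ?_
  rintro x ⟨c, g, b, y, ω, h1, h2, h3, h4, h5⟩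
  exact ⟨c, g, b, y, ω, h1, h2, h3, hρ.trans h4, h5⟩

theorem mul (hM : MS v G M) (hA : ∀ x ∈ A, ∀ y ∈ A, (x.1 * y.1, x.2 + y.2) ∈ A) {ρ σ : ℝ}
    {x y : Ω} (hx : x ∈ TT k G M w g₀ A ρ) (hy : y ∈ TT k G M w g₀ A σ) :
    x * y ∈ TT k G M w g₀ A (ρ + σ) := by
  suffices H : ∀ y ∈ TT k G M w g₀ A σ, x * y ∈ TT k G M w g₀ A (ρ + σ) from H y hy
  refine AddSubgroup.closure_induction (p := fun x _ => ∀ y ∈ TT k G M w g₀ A σ,
    x * y ∈ TT k G M w g₀ A (ρ + σ)) ?_ ?_ ?_ ?_ hx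
  · rintro _ ⟨c, g, b, y, ω, h1, h2, h3, h4, rfl⟩ y' hy'
    refine AddSubgroup.closure_induction (p := fun y' _ =>
      algebraMap k Ω c * (M g * w ^ b * y) * y' ∈ TT k G M w g₀ A (ρ + σ)) ?_ ?_ ?_ ?_ hy'
    · rintro _ ⟨c', g', b', y', ω', h1', h2', h3', h4', rfl⟩
      have e : algebraMap k Ω c * (M g * w ^ b * y) * (algebraMap k Ω c' * (M g' * w ^ b' * y')) =
          algebraMap k Ω (c * c') * (M (g + g') * w ^ (b + b') * (y * y')) := by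
        rw [hM.mul g h1 g' h1', map_mul, pow_add]
        ring
      rw [e]
      refine gen (G.add_mem h1 h1') (add_nonneg h2 h2') (hA _ h3 _ h3') ?_
      push_cast
      rw [add_div]
      linarith
    · rw [mul_zero]
      exact zero_mem _
    · intro x y _ _ h1 h2
      rw [mul_add]
      exact add_mem h1 h2
    · intro x _ h1
      rw [mul_neg]
      exact neg_mem h1
  · intro y _
    rw [zero_mul]
    exact zero_mem _
  · intro x y _ _ h1 h2 z hz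
    rw [add_mul]
    exact add_mem (h1 z hz) (h2 z hz)
  · intro x _ h1 z hz
    rw [neg_mul]
    exact neg_mem (h1 z hz)

/-- The Laurent polynomials of weight `≥ ρ`. -/
def Wt (G : AddSubgroup ℝ) (g₀ ρ : ℝ) (P : ℝ →₀ k[X]) : Prop :=
  InP G P ∧ ∀ x ∈ terms P, 0 ≤ x.1 ∧ ρ ≤ x.1 / g₀ + x.2

theorem Wt.add {ρ : ℝ} {P Q : ℝ →₀ k[X]} (hP : Wt G g₀ ρ P) (hQ : Wt G g₀ ρ Q) :
    Wt G g₀ ρ (P + Q) := by
  refine ⟨hP.1.add hQ.1, fun x hx => ?_⟩
  rcases mem_terms_add hx with h1 | h1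
  · exact hP.2 x h1
  · exact hQ.2 x h1

/-- One more term. -/
theorem next (hM : MS v G M) (hA : ∀ x ∈ A, ∀ y ∈ A, (x.1 * y.1, x.2 + y.2) ∈ A)
    (hA1 : ((1 : Ω), (0 : ℝ)) ∈ A)
    (hap : ∀ y ω, (y, ω) ∈ A → ∃ (c₀ : k) (b₀ : ℕ), ω ≤ b₀ ∧
      y - algebraMap k Ω c₀ * w ^ b₀ ∈ TT k G M w g₀ A (ω + 1)) {ρ : ℝ} {x : Ω}
    (hx : x ∈ TT k G M w g₀ A ρ) :
    ∃ P : ℝ →₀ k[X], Wt G g₀ ρ P ∧ x - evP M w P ∈ TT k G M w g₀ A (ρ + 1) := by
  refine AddSubgroup.closure_induction (p := fun x _ => ∃ P : ℝ →₀ k[X], Wt G g₀ ρ P ∧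
    x - evP M w P ∈ TT k G M w g₀ A (ρ + 1)) ?_ ?_ ?_ ?_ hx
  · rintro _ ⟨c, g, b, y, ω, h1, h2, h3, h4, rfl⟩
    obtain ⟨c₀, b₀, h5, h6⟩ := hap y ω h3
    refine ⟨Finsupp.single g (C (c * c₀) * X ^ (b + b₀)), ⟨InP.single h1 _, fun x hx => ?_⟩, ?_⟩
    · obtain ⟨h7, h8⟩ := mem_terms_single' hx
      rw [coeff_C_mul, coeff_X_pow] at h8
      split_ifs at h8 with h9
      · rw [h7, h9]
        refine ⟨h2, h4.trans ?_⟩
        push_cast
        linarith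
      · exact absurd (mul_zero _) h8
    · rw [evP_single, map_mul, aeval_C, map_pow, aeval_X]
      have e : algebraMap k Ω c * (M g * w ^ b * y) -
          M g * (algebraMap k Ω (c * c₀) * w ^ (b + b₀)) =
          algebraMap k Ω c * (M g * w ^ b * 1) * (y - algebraMap k Ω c₀ * w ^ b₀) := by
        rw [map_mul, pow_add]
        ring
      rw [e]
      have h7 : algebraMap k Ω c * (M g * w ^ b * 1) ∈ TT k G M w g₀ A (g / g₀ + b) :=
        gen h1 h2 hA1 (by rw [add_zero])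
      refine mono ?_ (mul hM hA h7 h6)
      linarith
  · exact ⟨0, ⟨InP.zero, fun x hx => (terms_zero hx).elim⟩, by
      rw [evP_zero, sub_zero]
      exact zero_mem _⟩
  · rintro x y _ _ ⟨P, h1, h2⟩ ⟨Q, h3, h4⟩
    refine ⟨P + Q, h1.add h3, ?_⟩
    rw [evP_add, add_sub_add_comm]
    exact add_mem h2 h4
  · rintro x _ ⟨P, h1, h2⟩
    refine ⟨-P, ⟨h1.1.neg, fun y hy => h1.2 y (mem_terms_neg hy)⟩, ?_⟩
    rw [evP_neg, show -x - -evP M w P = -(x - evP M w P) by ring]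
    exact neg_mem h2

theorem ge (h : Ctx0 k v) (hM : MS v G M) (hg₀ : 0 < g₀) {δ : ℝ}
    (hδ : 0 < δ) (hδ1 : δ ≤ g₀) (hδ2 : δ ≤ v w)
    (hAv : ∀ y ω, (y, ω) ∈ A → v.Ge (δ * ω) y) {ρ : ℝ} {x : Ω}
    (hx : x ∈ TT k G M w g₀ A ρ) : v.Ge (δ * ρ) x := by
  refine AddSubgroup.closure_induction (p := fun x _ => v.Ge (δ * ρ) x) ?_ ?_ ?_ ?_ hx
  · rintro _ ⟨c, g, b, y, ω, h1, h2, h3, h4, rfl⟩
    have h5 : v.Ge g (M g) := fun _ => (hM.val g h1).ge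
    have h6 := (h.ge c).mul ((h5.mul (TWM.ge_pow (RVal.ge_self w) b)).mul (hAv y ω h3))
    refine h6.mono ?_
    have h7 : δ * (g / g₀) ≤ g := by
      rw [mul_div_assoc', div_le_iff₀ hg₀, mul_comm g g₀]
      exact mul_le_mul_of_nonneg_right hδ1 h2
    have h8 : δ * b ≤ b * v w := by
      rw [mul_comm]
      exact mul_le_mul_of_nonneg_left hδ2 (Nat.cast_nonneg b)
    have h9 : δ * ρ ≤ δ * (g / g₀ + b + ω) := mul_le_mul_of_nonneg_left h4 hδ.le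
    linarith
  · exact RVal.Ge.zero
  · intro x y _ _ h1 h2
    exact h1.add h2
  · intro x _ h1
    exact h1.neg

/-- The elements of `TT` are series. -/
theorem ser (h : Ctx0 k v) (hM : MS v G M) (hg₀ : 0 < g₀) {δ : ℝ}
    (hδ : 0 < δ) (hδ1 : δ ≤ g₀) (hδ2 : δ ≤ v w)
    (hAv : ∀ y ω, (y, ω) ∈ A → v.Ge (δ * ω) y)
    (hA : ∀ x ∈ A, ∀ y ∈ A, (x.1 * y.1, x.2 + y.2) ∈ A) (hA1 : ((1 : Ω), (0 : ℝ)) ∈ A)
    (hap : ∀ y ω, (y, ω) ∈ A → ∃ (c₀ : k) (b₀ : ℕ), ω ≤ b₀ ∧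
      y - algebraMap k Ω c₀ * w ^ b₀ ∈ TT k G M w g₀ A (ω + 1)) {x : Ω}
    (hx : x ∈ TT k G M w g₀ A 0) {μ : ℝ} (hμ : μ ∈ G) : Ser k v G M w μ (M μ * x) := by
  have key : ∀ (n : ℕ) (ρ : ℝ) (x : Ω), x ∈ TT k G M w g₀ A ρ →
      ∃ P : ℝ →₀ k[X], Wt G g₀ ρ P ∧ x - evP M w P ∈ TT k G M w g₀ A (ρ + n) := by
    intro n
    induction n with
    | zero =>
      intro ρ x hx
      refine ⟨0, ⟨InP.zero, fun x hx => (terms_zero hx).elim⟩, ?_⟩
      rwa [evP_zero, sub_zero, Nat.cast_zero, add_zero]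
    | succ n ih =>
      intro ρ x hx
      obtain ⟨P, h1, h2⟩ := ih ρ x hx
      obtain ⟨Q, h3, h4⟩ := next hM hA hA1 hap h2
      refine ⟨P + Q, h1.add ⟨h3.1, fun y hy => ⟨(h3.2 y hy).1, ?_⟩⟩, ?_⟩
      · have h5 := (h3.2 y hy).2
        have h6 : (0 : ℝ) ≤ n := Nat.cast_nonneg n
        linarith
      · rw [evP_add, ← sub_sub, Nat.cast_succ, ← add_assoc]
        exact h4
  have hshift : ∀ P : ℝ →₀ k[X], InP G P → evP M w (sh 1 μ 0 P) = M μ * evP M w P := by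
    intro P hP
    rw [evP_sh hM hμ hP, map_one, one_mul, pow_zero, mul_one]
  intro C
  obtain ⟨N, hN⟩ := exists_nat_ge ((C - μ) / δ)
  rw [div_le_iff₀ hδ] at hN
  obtain ⟨P, h1, h2⟩ := key N 0 x hx
  rw [zero_add] at h2
  refine ⟨sh 1 μ 0 P, h1.1.sh hμ, Ct.of_terms fun y hy => ?_, fun B => ?_⟩
  · obtain ⟨-, z, hz, h3, -⟩ := mem_terms_sh hy
    have := (h1.2 z hz).1
    linarith
  · obtain ⟨N', hN'⟩ := exists_nat_ge ((B - μ) / δ)
    rw [div_le_iff₀ hδ] at hN'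
    obtain ⟨Q, h3, h4⟩ := key N' N _ h2
    refine ⟨sh 1 μ 0 Q, h3.1.sh hμ, fun y hy => ?_, ?_⟩
    · obtain ⟨-, z, hz, h5, h6⟩ := mem_terms_sh hy
      obtain ⟨h7, h8⟩ := h3.2 z hz
      unfold vm
      rw [h5, h6, add_zero]
      have h9 : δ * (z.1 / g₀) ≤ z.1 := by
        rw [mul_div_assoc', div_le_iff₀ hg₀, mul_comm z.1 g₀]
        exact mul_le_mul_of_nonneg_right hδ1 h7
      have h10 : δ * z.2 ≤ z.2 * v w := by
        rw [mul_comm]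
        exact mul_le_mul_of_nonneg_left hδ2 (Nat.cast_nonneg _)
      have h11 : δ * N ≤ δ * (z.1 / g₀ + z.2) := mul_le_mul_of_nonneg_left h8 hδ.le
      linarith
    · rw [hshift P h1.1, hshift Q h3.1, show M μ * x - M μ * evP M w P - M μ * evP M w Q =
        M μ * (x - evP M w P - evP M w Q) by ring]
      have h5 := ge h hM hg₀ hδ hδ1 hδ2 hAv h4
      have h6 : v.Ge μ (M μ) := fun _ => (hM.val μ hμ).ge
      refine (h6.mul h5).mono ?_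
      have h7 : (0 : ℝ) ≤ N := Nat.cast_nonneg N
      nlinarith
end TT

end Pool.Agent.TWN
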