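import Pool.Agent.Lib.TW_NFG.P3c

/-!
# NFG, row P3 (d): the exact frame

`exact_frame`: the leading form becomes a monomial of a new frame, the Laurent polynomials are
series in the new frame.
-/

set_option autoImplicit false

open Polynomial

namespace Pool.Agent.TWN

open Pool.Agent.H15JM (RVal)
open Pool.Agent.LU1 (VPos)
open Pool.Agent.D2 (Ctx0)
open Pool.Agent.D2P (clI mem_clI)
open Pool.Agent.TWM (MS LF NN GG MM vl cadj Cld VG InG evL Gt)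

universe u

variable {k Ω : Type u} [Field k] [Field Ω] [Algebra k Ω] {v : RVal Ω} {G G' : AddSubgroup ℝ}
  {M M' : ℝ → Ω} {w t : Ω} {F : IntermediateField k Ω}

/-- A bound for the positive exponents. -/
theorem exists_gap (P : ℝ →₀ k[X]) (hP : Ct 0 P) :
    ∃ g₀ > 0, ∀ x ∈ terms P, x.1 = 0 ∨ 2 * g₀ ≤ x.1 := by
  classical
  set S := (terms P).filter fun x => x.1 ≠ 0 with hS
  rcases S.eq_empty_or_nonempty with h1 | h1
  · refine ⟨1, one_pos, fun x hx => Or.inl ?_⟩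
    by_contra h2
    have h3 : x ∈ S := Finset.mem_filter.2 ⟨hx, h2⟩
    rw [h1] at h3
    exact Finset.notMem_empty _ h3
  · obtain ⟨y, hy, hmin⟩ := S.exists_min_image (fun x => x.1) h1
    obtain ⟨hy1, hy2⟩ := Finset.mem_filter.1 hy
    have h2 : 0 < y.1 := lt_of_le_of_ne (hP.terms hy1) (Ne.symm hy2)
    refine ⟨y.1 / 2, half_pos h2, fun x hx => ?_⟩
    by_cases h3 : x.1 = 0
    · exact Or.inl h3
    · right
      have := hmin x (Finset.mem_filter.2 ⟨hx, h3⟩)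
      linarith

/-- The leading form is a constant. -/
theorem exact_L [IsAlgClosed k] (p : ℕ) [hp : Fact p.Prime] [CharP k p] [CharP Ω p]
    (h : Ctx0 k v) (hf : Frm v G M w F) {μ : ℝ} (hμ : μ ∈ G) {P : ℝ →₀ k[X]} (hP : InP G P)
    (hct : Ct μ P) (hpd : ¬ ∃ d ∈ G, μ = p * d) (hc : (P μ).coeff 0 ≠ 0) :
    ∃ M' : ℝ → Ω, Frm v G M' w F ∧ ∃ η ∈ F, η ≠ 0 ∧ v η = 0 ∧ η ^ p * evP M w P = M' μ ∧
      ∀ ν ∈ G, ∀ f, Rg k G M w ν f → Ser k v G M' w ν (η ^ p * f) := by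
  classical
  set c := (P μ).coeff 0 with hcdef
  have hcΩ : algebraMap k Ω c ≠ 0 := by
    rw [Ne, FaithfulSMul.algebraMap_eq_zero_iff]
    exact hc
  have hMμ := hf.ms.ne μ hμ
  obtain ⟨c₁, hc₁⟩ := IsAlgClosed.exists_pow_nat_eq c hp.out.pos
  have hc₁0 : c₁ ≠ 0 := by
    rintro rfl
    rw [zero_pow hp.out.ne_zero] at hc₁
    exact hc hc₁.symm
  have hc₁Ω : algebraMap k Ω c₁ ≠ 0 := by
    rw [Ne, FaithfulSMul.algebraMap_eq_zero_iff]
    exact hc₁0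
  -- the unit
  set η₀ : Ω := evP M w P * (M (-μ) * algebraMap k Ω c⁻¹) with hη₀
  have hl : Lt k G M w 0 (P μ * C c⁻¹) η₀ := by
    have h1 := (show Lt k G M w μ (P μ) (evP M w P) from ⟨P, hP, hct, rfl, rfl⟩).mul hf.ms hμ
      (G.neg_mem hμ) (Lt.term (k := k) (M := M) (w := w) (G.neg_mem hμ) (C c⁻¹))
    rw [add_neg_cancel, aeval_C] at h1
    exact h1
  have hl1 : (P μ * C c⁻¹).coeff 0 = 1 := by
    rw [coeff_mul_C, ← hcdef, mul_inv_cancel₀ hc]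
  obtain ⟨δ₀, -, z, hz, h2, hη0, hηv, -⟩ := unit_data h hf.ms hf.wpos hl hl1
  have hηF : η₀ ∈ F := hf.rg_mem hl.rg
  obtain ⟨κ, hκ, hκμ⟩ := exists_kappa hf.fg hp.out hμ hpd 1 1
  obtain ⟨l, hl'⟩ := hκμ
  rw [pow_one] at hl'
  have hf' := hf.unit (κ := κ) h hl hl1 hκ
  set M' : ℝ → Ω := fun g => M g * η₀ ^ κ g with hM'
  have hMM : ∀ g, M g = M' g * η₀ ^ (-κ g) := fun g => by
    rw [hM']
    show M g = M g * η₀ ^ κ g * η₀ ^ (-κ g)
    rw [mul_assoc, ← zpow_add₀ hη0, add_neg_cancel, zpow_zero, mul_one]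
  have hevP : evP M w P = algebraMap k Ω c * M μ * η₀ := by
    rw [hη₀, hf.ms.neg hμ, map_inv₀]
    field_simp
  -- the series
  obtain ⟨Q, hQ1, hQ2, hQ3, hQ4⟩ := hl
  obtain ⟨g₁, hg₁, hgap⟩ := exists_gap Q hQ2
  set A : Set (Ω × ℝ) := {x | ∃ a : ℤ, x = (η₀ ^ a, 0)} with hA
  have hηge : ∀ a : ℤ, v.Ge 0 (η₀ ^ a) := fun a _ => by rw [v.map_zpow hη0, hηv, mul_zero]
  have hAmul : ∀ x ∈ A, ∀ y ∈ A, (x.1 * y.1, x.2 + y.2) ∈ A := by
    rintro _ ⟨a, rfl⟩ _ ⟨b, rfl⟩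
    exact ⟨a + b, by rw [zpow_add₀ hη0, add_zero]⟩
  have hA1 : ((1 : Ω), (0 : ℝ)) ∈ A := ⟨0, by rw [zpow_zero]⟩
  have hmem : ∀ (c : k) (g : ℝ) (b : ℕ) (a : ℤ) (ρ : ℝ), g ∈ G → 0 ≤ g → ρ ≤ g / g₁ + b →
      algebraMap k Ω c * (M' g * w ^ b * η₀ ^ a) ∈ TT k G M' w g₁ A ρ :=
    fun c g b a ρ h1 h2 h3 => TT.gen h1 h2 ⟨a, rfl⟩ (by rwa [add_zero])
  -- `η₀ - 1`
  have hη1 : η₀ - 1 ∈ TT k G M' w g₁ A 1 := by
    have h3 : ((0 : ℝ), 0) ∈ terms Q := by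
      rw [mem_terms]
      show (Q 0).coeff 0 ≠ 0
      rw [hQ3, hl1]
      exact one_ne_zero
    have h4 : η₀ - 1 = ∑ x ∈ (terms Q).erase (0, 0),
        algebraMap k Ω ((Q x.1).coeff x.2) * (M x.1 * w ^ x.2) := by
      conv_lhs => rw [hQ4]
      rw [evP_terms, ← Finset.add_sum_erase _ _ h3]
      show algebraMap k Ω ((Q 0).coeff 0) * (M 0 * w ^ 0) + _ - 1 = _
      rw [hQ3, hl1, hf.ms.zero, map_one, pow_zero]
      ring
    rw [h4]
    refine AddSubgroup.sum_mem _ fun x hx => ?_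
    obtain ⟨hx0, hx1⟩ := Finset.mem_erase.1 hx
    rw [hMM x.1, show M' x.1 * η₀ ^ (-κ x.1) * w ^ x.2 = M' x.1 * w ^ x.2 * η₀ ^ (-κ x.1) by ring]
    refine hmem _ _ _ _ _ (hQ1.terms hx1) (hQ2.terms hx1) ?_
    rcases hgap x hx1 with h5 | h5
    · rw [h5, zero_div, zero_add]
      have h6 : x.2 ≠ 0 := fun h6 => hx0 (Prod.ext h5 h6)
      exact_mod_cast Nat.one_le_iff_ne_zero.2 h6
    · have h6 : 1 ≤ x.1 / g₁ := by
        rw [le_div_iff₀ hg₁]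
        linarith
      have h7 : (0 : ℝ) ≤ x.2 := Nat.cast_nonneg _
      linarith
  have hη0' : ∀ a : ℤ, η₀ ^ a ∈ TT k G M' w g₁ A 0 := fun a => by
    have h3 := hmem 1 0 0 a 0 G.zero_mem le_rfl (by simp)
    rw [map_one, one_mul, pow_zero, mul_one, hf'.ms.zero, one_mul] at h3
    exact h3
  have hnat : ∀ n : ℕ, η₀ ^ n - 1 ∈ TT k G M' w g₁ A 1 := by
    intro n
    induction n with
    | zero => rw [pow_zero, sub_self]; exact zero_mem _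
    | succ n ih =>
      have h3 := TT.mul hf'.ms hAmul ih (hη0' 1)
      rw [add_zero, zpow_one] at h3
      rw [show η₀ ^ (n + 1) - 1 = (η₀ ^ n - 1) * η₀ + (η₀ - 1) by ring]
      exact add_mem h3 hη1
  have hint : ∀ a : ℤ, η₀ ^ a - 1 ∈ TT k G M' w g₁ A 1 := by
    intro a
    cases a with
    | ofNat n =>
      rw [Int.ofNat_eq_natCast, zpow_natCast]
      exact hnat n
    | negSucc n =>
      have h3 := TT.mul hf'.ms hAmul (hnat (n + 1)) (hη0' (Int.negSucc n))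
      rw [add_zero] at h3
      have h4 : η₀ ^ (n + 1) * η₀ ^ (Int.negSucc n) = 1 := by
        rw [zpow_negSucc, mul_inv_cancel₀ (pow_ne_zero _ hη0)]
      rw [show η₀ ^ (Int.negSucc n) - 1 = -((η₀ ^ (n + 1) - 1) * η₀ ^ (Int.negSucc n)) by
        linear_combination h4]
      exact neg_mem h3
  have hδ : 0 < min g₁ (v w) := lt_min hg₁ hf.wpos
  have hser : ∀ x ∈ TT k G M' w g₁ A 0, ∀ ν ∈ G, Ser k v G M' w ν (M' ν * x) :=
    fun x hx ν hν => TT.ser h hf'.ms hg₁ hδ (min_le_left _ _) (min_le_right _ _)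
      (fun y ω hy => by
        obtain ⟨a, ha⟩ := hy
        obtain ⟨rfl, rfl⟩ := Prod.ext_iff.1 ha
        show v.Ge (min g₁ (v w) * 0) (η₀ ^ a)
        rw [mul_zero]
        exact hηge a) hAmul hA1 (fun y ω hy => by
        obtain ⟨a, ha⟩ := hy
        obtain ⟨rfl, rfl⟩ := Prod.ext_iff.1 ha
        refine ⟨1, 0, by simp, ?_⟩
        rw [map_one, pow_zero, mul_one]
        show η₀ ^ a - 1 ∈ TT k G M' w g₁ A (0 + 1)
        rw [zero_add]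
        exact hint a) hx hν
  -- the factor
  refine ⟨M', hf', algebraMap k Ω c₁⁻¹ * η₀ ^ (-l), mul_mem (F.algebraMap_mem _)
    (zpow_mem hηF _), mul_ne_zero ?_ (zpow_ne_zero _ hη0), ?_, ?_, fun ν hν f hfR => ?_⟩
  · rw [map_inv₀]
    exact inv_ne_zero hc₁Ω
  · rw [v.map_mul (by rw [map_inv₀]; exact inv_ne_zero hc₁Ω) (zpow_ne_zero _ hη0),
      h.triv _ (inv_ne_zero hc₁0), v.map_zpow hη0, hηv, mul_zero, add_zero]
  · rw [hevP, mul_pow, ← map_pow, inv_pow, hc₁, map_inv₀, hM']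
    show (algebraMap k Ω c)⁻¹ * (η₀ ^ (-l)) ^ p * (algebraMap k Ω c * M μ * η₀) = M μ * η₀ ^ κ μ
    have h3 : η₀ ^ κ μ = (η₀ ^ (-l)) ^ p * η₀ := by
      rw [← zpow_natCast, ← zpow_mul, ← zpow_add_one₀ hη0]
      congr 1
      linarith
    rw [h3]
    field_simp
  · obtain ⟨Pf, h3, h4, rfl⟩ := hfR
    have hM'ν := hf'.ms.ne ν hν
    have h5 : (algebraMap k Ω c₁⁻¹ * η₀ ^ (-l)) ^ p * evP M w Pf = M' ν *
        ∑ x ∈ terms Pf, algebraMap k Ω (c₁⁻¹ ^ p * (Pf x.1).coeff x.2) *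
          (M' (x.1 - ν) * w ^ x.2 * η₀ ^ (-κ x.1 + -l * p)) := by
      rw [evP_terms, Finset.mul_sum, Finset.mul_sum]
      refine Finset.sum_congr rfl fun x hx => ?_
      rw [hMM x.1, MS.sub hf'.ms (h3.terms hx) hν, zpow_add₀ hη0, zpow_mul, zpow_natCast, map_mul,
        map_pow, mul_pow]
      linear_combination (-((algebraMap k Ω c₁⁻¹) ^ p * algebraMap k Ω ((Pf x.1).coeff x.2) *
        M' x.1 * w ^ x.2 * η₀ ^ (-κ x.1) * (η₀ ^ (-l)) ^ p)) * mul_inv_cancel₀ hM'ν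
    rw [h5]
    refine hser _ (AddSubgroup.sum_mem _ fun x hx => hmem _ _ _ _ _ (G.sub_mem (h3.terms hx) hν)
      (sub_nonneg.2 (h4.terms hx)) ?_) ν hν
    have h6 : 0 ≤ (x.1 - ν) / g₁ := div_nonneg (sub_nonneg.2 (h4.terms hx)) hg₁.le
    have h7 : (0 : ℝ) ≤ x.2 := Nat.cast_nonneg _
    linarith

/-- The leading form is a parameter. -/
theorem exact_P
    (h : Ctx0 k v) (hf : Frm v G M w F) (hn : NFG v F) {μ : ℝ} (hμ : μ ∈ G) {P : ℝ →₀ k[X]}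
    (hP : InP G P) (hct : Ct μ P) (hc0 : (P μ).coeff 0 = 0) (hc1 : (P μ).coeff 1 ≠ 0) :
    ∃ w' : Ω, Frm v G M w' F ∧ evP M w P = M μ * w' ∧
      ∀ ν ∈ G, ∀ f, Rg k G M w ν f → Ser k v G M w' ν f := by
  classical
  set c := (P μ).coeff 1 with hcdef
  have hcΩ : algebraMap k Ω c ≠ 0 := by
    rw [Ne, FaithfulSMul.algebraMap_eq_zero_iff]
    exact hc1
  have hMμ := hf.ms.ne μ hμ
  -- the parameter
  set w₁ : Ω := evP M w P * M (-μ) with hw₁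
  have hl : Lt k G M w 0 (P μ) w₁ := by
    have h1 := (show Lt k G M w μ (P μ) (evP M w P) from ⟨P, hP, hct, rfl, rfl⟩).mul hf.ms hμ
      (G.neg_mem hμ) (Lt.term (k := k) (M := M) (w := w) (G.neg_mem hμ) 1)
    rw [add_neg_cancel, map_one, mul_one, mul_one] at h1
    exact h1
  have hne := hf.coord_ne h hn hl hc0 (by rw [← hcdef]; exact hc1)
  have hf' := hf.coord h hl hc0 (by rw [← hcdef]; exact hc1) hne
  have hevP : evP M w P = M μ * w₁ := by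
    rw [hw₁, hf.ms.neg hμ]
    field_simp
  -- the series
  obtain ⟨Q, hQ1, hQ2, hQ3, hQ4⟩ := hl
  obtain ⟨g₁, hg₁, hgap⟩ := exists_gap Q hQ2
  set A : Set (Ω × ℝ) := {x | ∃ a : ℕ, x = (w ^ a, (a : ℝ))} with hA
  have hAmul : ∀ x ∈ A, ∀ y ∈ A, (x.1 * y.1, x.2 + y.2) ∈ A := by
    rintro _ ⟨a, rfl⟩ _ ⟨b, rfl⟩
    exact ⟨a + b, by rw [pow_add, Nat.cast_add]⟩
  have hA1 : ((1 : Ω), (0 : ℝ)) ∈ A := ⟨0, by rw [pow_zero, Nat.cast_zero]⟩
  have hmem : ∀ (c : k) (g : ℝ) (b a : ℕ) (ρ : ℝ), g ∈ G → 0 ≤ g → ρ ≤ g / g₁ + b + a →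
      algebraMap k Ω c * (M g * w₁ ^ b * w ^ a) ∈ TT k G M w₁ g₁ A ρ :=
    fun c g b a ρ h1 h2 h3 => TT.gen h1 h2 ⟨a, rfl⟩ h3
  -- `w - c⁻¹ w₁`
  set u : Ω := algebraMap k Ω c⁻¹ * w₁ with hu
  have hw2 : w - u ∈ TT k G M w₁ g₁ A 2 := by
    have h3 : ((0 : ℝ), 1) ∈ terms Q := by
      rw [mem_terms]
      show (Q 0).coeff 1 ≠ 0
      rw [hQ3, ← hcdef]
      exact hc1
    have h4 : w - u = ∑ x ∈ (terms Q).erase (0, 1),
        algebraMap k Ω (-c⁻¹ * (Q x.1).coeff x.2) * (M x.1 * w₁ ^ 0 * w ^ x.2) := by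
      have h5 : w₁ = algebraMap k Ω c * w + ∑ x ∈ (terms Q).erase (0, 1),
          algebraMap k Ω ((Q x.1).coeff x.2) * (M x.1 * w ^ x.2) := by
        conv_lhs => rw [hQ4]
        rw [evP_terms, ← Finset.add_sum_erase _ _ h3]
        show algebraMap k Ω ((Q 0).coeff 1) * (M 0 * w ^ 1) + _ = _
        rw [hQ3, ← hcdef, hf.ms.zero, one_mul, pow_one]
      have h6 : w - u = -(algebraMap k Ω c⁻¹ * (w₁ - algebraMap k Ω c * w)) := by
        rw [hu, map_inv₀]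
        field_simp
        ring
      have h7 : w₁ - algebraMap k Ω c * w = ∑ x ∈ (terms Q).erase (0, 1),
          algebraMap k Ω ((Q x.1).coeff x.2) * (M x.1 * w ^ x.2) := by
        linear_combination h5
      rw [h6, h7, Finset.mul_sum, ← Finset.sum_neg_distrib]
      refine Finset.sum_congr rfl fun x _ => ?_
      rw [map_mul, map_neg, pow_zero]
      ring
    rw [h4]
    refine AddSubgroup.sum_mem _ fun x hx => ?_
    obtain ⟨hx0, hx1⟩ := Finset.mem_erase.1 hx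
    refine hmem _ _ _ _ _ (hQ1.terms hx1) (hQ2.terms hx1) ?_
    rcases hgap x hx1 with h5 | h5
    · rw [h5, zero_div, zero_add, Nat.cast_zero, zero_add]
      have h6 : x.2 ≠ 1 := fun h6 => hx0 (Prod.ext h5 h6)
      have h7 : x.2 ≠ 0 := by
        intro h7
        have h8 := mem_terms.1 hx1
        rw [h5, h7, hQ3] at h8
        exact h8 hc0
      have h8 : 2 ≤ x.2 := by omega
      exact_mod_cast h8
    · have h6 : 2 ≤ x.1 / g₁ := by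
        rw [le_div_iff₀ hg₁]
        exact h5
      have h7 : (0 : ℝ) ≤ x.2 := Nat.cast_nonneg _
      push_cast
      linarith
  have hu1 : u ∈ TT k G M w₁ g₁ A 1 := by
    have h3 := hmem c⁻¹ 0 1 0 1 G.zero_mem le_rfl (by simp)
    rwa [hf.ms.zero, one_mul, pow_one, pow_zero, mul_one] at h3
  have hwa : ∀ a : ℕ, w ^ a ∈ TT k G M w₁ g₁ A a := fun a => by
    have h3 := hmem 1 0 0 a a G.zero_mem le_rfl (by simp)
    rwa [hf.ms.zero, map_one, one_mul, pow_zero, one_mul, one_mul] at h3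
  have hpow : ∀ a : ℕ, w ^ a - u ^ a ∈ TT k G M w₁ g₁ A (a + 1) := by
    intro a
    induction a with
    | zero => rw [pow_zero, pow_zero, sub_self]; exact zero_mem _
    | succ a ih =>
      have h3 := TT.mul hf.ms hAmul (hwa a) hw2
      have h4 := TT.mul hf.ms hAmul ih hu1
      rw [show w ^ (a + 1) - u ^ (a + 1) = w ^ a * (w - u) + (w ^ a - u ^ a) * u by ring]
      refine add_mem (TT.mono ?_ h3) (TT.mono ?_ h4)
      · push_cast
        linarith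
      · push_cast
        linarith
  have hδ : 0 < min g₁ (min (v w) (v w₁)) := lt_min hg₁ (lt_min hf.wpos hf'.wpos)
  have hδw : min g₁ (min (v w) (v w₁)) ≤ v w := (min_le_right _ _).trans (min_le_left _ _)
  have hser : ∀ x ∈ TT k G M w₁ g₁ A 0, ∀ ν ∈ G, Ser k v G M w₁ ν (M ν * x) :=
    fun x hx ν hν => TT.ser h hf.ms hg₁ hδ (min_le_left _ _)
      ((min_le_right _ _).trans (min_le_right _ _))
      (fun y ω hy => by
        obtain ⟨a, ha⟩ := hy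
        obtain ⟨rfl, rfl⟩ := Prod.ext_iff.1 ha
        show v.Ge (min g₁ (min (v w) (v w₁)) * (a : ℝ)) (w ^ a)
        refine (TWM.ge_pow (RVal.ge_self w) a).mono ?_
        rw [mul_comm]
        exact mul_le_mul_of_nonneg_left hδw (Nat.cast_nonneg a)) hAmul hA1 (fun y ω hy => by
        obtain ⟨a, ha⟩ := hy
        obtain ⟨rfl, rfl⟩ := Prod.ext_iff.1 ha
        refine ⟨c⁻¹ ^ a, a, le_rfl, ?_⟩
        show w ^ a - algebraMap k Ω (c⁻¹ ^ a) * w₁ ^ a ∈ TT k G M w₁ g₁ A (a + 1)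
        rw [map_pow, ← mul_pow]
        exact hpow a) hx hν
  refine ⟨w₁, hf', hevP, fun ν hν f hfR => ?_⟩
  obtain ⟨Pf, h3, h4, rfl⟩ := hfR
  have hMν := hf.ms.ne ν hν
  have h5 : evP M w Pf = M ν * ∑ x ∈ terms Pf, algebraMap k Ω ((Pf x.1).coeff x.2) *
      (M (x.1 - ν) * w₁ ^ 0 * w ^ x.2) := by
    rw [evP_terms, Finset.mul_sum]
    refine Finset.sum_congr rfl fun x hx => ?_
    rw [MS.sub hf.ms (h3.terms hx) hν, pow_zero]
    field_simp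
  rw [h5]
  refine hser _ (AddSubgroup.sum_mem _ fun x hx => hmem _ _ _ _ _ (G.sub_mem (h3.terms hx) hν)
    (sub_nonneg.2 (h4.terms hx)) ?_) ν hν
  have h6 : 0 ≤ (x.1 - ν) / g₁ := div_nonneg (sub_nonneg.2 (h4.terms hx)) hg₁.le
  have h7 : (0 : ℝ) ≤ x.2 := Nat.cast_nonneg _
  push_cast
  linarith

/-- **The exact frame.** -/
theorem exact_frame [IsAlgClosed k] (p : ℕ) [hp : Fact p.Prime] [CharP k p] [CharP Ω p]
    (h : Ctx0 k v) (hf : Frm v G M w F) (hn : NFG v F) {fq : Ω}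
    (hq : TrQ p F G M w fq fun μ e' =>
      ((∃ d ∈ G, μ = p * d) ∧ e' = 1) ∨ ((¬ ∃ d ∈ G, μ = p * d) ∧ e' = 0)) :
    ∃ (M' : ℝ → Ω) (w' : Ω) (lam : ℝ) (nA : ℕ), Frm v G M' w' F ∧
      (lam ∈ G ∧ ((nA = 0 ∧ ¬ pdv p G lam) ∨ (nA = 1 ∧ pdv p G lam))) ∧
      ∃ η ∈ F, η ≠ 0 ∧ v η = 0 ∧ (∃ g ∈ F, η ^ p * fq = g ^ p + M' lam * w' ^ nA) ∧
        ∀ ν ∈ G, ∀ f, Rg k G M w ν f → Ser k v G M' w' ν (η ^ p * f) := by
  obtain ⟨g, hg, μ, hμ, P, h1, h2, h3, h4, e, h5, h6⟩ := hq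
  rcases h6 with ⟨hd, rfl⟩ | ⟨hd, rfl⟩
  · have hc0 : (P μ).coeff 0 = 0 := by
      by_contra h7
      exact h2 (μ, 0) (mem_terms.2 h7) ⟨hd, dvd_zero _⟩
    obtain ⟨w', h7, h8, h9⟩ := exact_P h hf hn hμ h1 h3 hc0 h5
    refine ⟨M, w', μ, 1, h7, ⟨hμ, Or.inr ⟨rfl, hd⟩⟩, 1, one_mem _, one_ne_zero, v.map_one,
      ⟨g, hg, ?_⟩, fun ν hν f hfR => ?_⟩
    · rw [h4, h8, one_pow, one_mul, pow_one]
    · rw [one_pow, one_mul]
      exact h9 ν hν f hfR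
  · obtain ⟨M', h7, η, hη, h8, h9, h10, h11⟩ := exact_L p h hf hμ h1 h3 hd h5
    refine ⟨M', w, μ, 0, h7, ⟨hμ, Or.inl ⟨rfl, hd⟩⟩, η, hη, h8, h9, ⟨η * g, mul_mem hη hg, ?_⟩, h11⟩
    rw [h4, mul_add, h10, pow_zero, mul_one, mul_pow]

end Pool.Agent.TWN
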