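import Pool.Agent.Lib.TW_NFG.RS

/-!
# NFG, `s = 2`: recentring a representation

* `exists_reparam`: the expansion of a Laurent polynomial at a new parameter;
* `Mk.of`, `TM.of`: the markers depend only on the coefficients at the contents;
* `Rp.recentre`: the representation at a recentred frame.
-/

set_option autoImplicit false

open Polynomial

namespace Pool.Agent.TWN

open Pool.Agent.H15JM (RVal)
open Pool.Agent.LU1 (VPos)
open Pool.Agent.D2 (Ctx0)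
open Pool.Agent.TWM (MS TL cadj VG)

universe u

variable {k Ω : Type u} [Field k] [Field Ω] [Algebra k Ω] {v : RVal Ω} {G G' : AddSubgroup ℝ}
  {M M' : ℝ → Ω} {w t : Ω} {m : ℕ} {j : ℝ → ℤ → ℤ} {F K : IntermediateField k Ω}

/-- The expansion at a new parameter. -/
theorem exists_reparam (hM : MS v G M) {w₁ : Ω} {δ : ℝ} (hδ : 0 < δ)
    (hw : Rg k G M w₁ δ (w - w₁)) {P : ℝ →₀ k[X]} (hP : InP G P) :
    ∃ P₁ : ℝ →₀ k[X], InP G P₁ ∧ (∀ μ, Ct μ P → Ct μ P₁ ∧ P₁ μ = P μ) ∧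
      evP M w P = evP M w₁ P₁ := by
  by_cases h0 : P = 0
  · subst h0
    exact ⟨0, InP.zero, fun μ _ => ⟨Ct.zero, rfl⟩, by rw [evP_zero, evP_zero]⟩
  · obtain ⟨g₀, hg₀, hmin⟩ := P.support.exists_min_image id
      (Finset.nonempty_iff_ne_empty.2 fun h1 => h0 (Finsupp.support_eq_empty.1 h1))
    rw [Finsupp.mem_support_iff] at hg₀
    obtain ⟨P₁, h1, h2, h3, h4⟩ := Lt.reparam (k := k) hM hδ hw (hP g₀ hg₀)
      ⟨P, hP, fun g hg => hmin g (Finsupp.mem_support_iff.2 hg), rfl, rfl⟩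
    refine ⟨P₁, h1, fun μ hμ => ?_, h4⟩
    have h5 := hμ g₀ hg₀
    refine ⟨h2.mono h5, ?_⟩
    rcases h5.eq_or_lt with rfl | h5
    · exact h3
    · have h6 : P μ = 0 := by
        by_contra h6
        exact absurd (hmin μ (Finsupp.mem_support_iff.2 h6)) (not_le.2 h5)
      have h7 : P₁ μ = 0 := by
        by_contra h7
        exact absurd (h2 μ h7) (not_le.2 h5)
      rw [h6, h7]

section

variable {p q τ Q : ℕ} {lam : ℝ} {nA : ℕ} {A s : ℝ} {Mb : ℕ} {Lam : ℕ → ℝ}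
  {P P₁ : ℕ → ℝ →₀ k[X]}

theorem Mk.of (h : Mk p q τ Q lam A s Mb Lam P) (hct : ∀ i < q, Ct (Lam i) (P₁ i))
    (hco : ∀ i, i ≠ τ → Own p q lam A Mb Lam P i → ∀ n, (P i (Lam i)).coeff n ≠ 0 →
      (P₁ i (Lam i)).coeff n ≠ 0) : Mk p q τ Q lam A s Mb Lam P₁ := by
  have hown : ∀ i, i ≠ τ → Own p q lam A Mb Lam P i → Own p q lam A Mb Lam P₁ i := by
    intro i hiτ hi
    obtain ⟨n, h1, h2⟩ := hi.ex
    exact ⟨hi.lt, hi.ix, ⟨n, h1, hco i hiτ hi n h2⟩, hi.fr, hi.frq⟩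
  refine ⟨hct, h.tau, h.le, h.leq, ?_, h.top, h.cap⟩
  intro i hi hix hiτ
  rcases h.mark i hi hix hiτ with h1 | ⟨l, h1, h2, h3, h4⟩ | h1
  · exact Or.inl (hown i hiτ h1)
  · exact Or.inr (Or.inl ⟨l, h1, h2, hown l h2 h3, h4⟩)
  · exact Or.inr (Or.inr h1)

theorem TM.of {ρ : ℝ} (h : TM p q τ Q G lam nA A s Mb Lam P ρ)
    (hco : (∀ i, τ < i → i < q → Ix p i → lam + ((q : ℝ) - i) * A < Lam i) →
      ∀ e, (P τ (lam + Q * A)).coeff e ≠ 0 → ¬ Cl Q G lam nA (lam + Q * A, e) →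
      (P₁ τ (lam + Q * A)).coeff e ≠ 0) : TM p q τ Q G lam nA A s Mb Lam P₁ ρ := by
  rcases h with h | h | ⟨h1, e, h2, h3, h4⟩
  · exact Or.inl h
  · exact Or.inr (Or.inl h)
  · exact Or.inr (Or.inr ⟨h1, e, h2, hco h1 e h3 h4, h4⟩)

theorem TM.mono {ρ ρ' : ℝ} (hρ : ρ ≤ ρ') (h : TM p q τ Q G lam nA A s Mb Lam P ρ) :
    TM p q τ Q G lam nA A s Mb Lam P ρ' := by
  rcases h with h | h | h
  · exact Or.inl (h.trans hρ)
  · exact Or.inr (Or.inl h)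
  · exact Or.inr (Or.inr h)

end

section char

variable {p q : ℕ} [hp : Fact p.Prime] [CharP k p] [CharP Ω p]

omit [CharP k p] in
/-- The representation at a new parameter of the frame. -/
theorem Rp.reparam [IsAlgClosed k] (hpq : p ∣ q) {a : Ω} {s D A₀ : ℝ} {Er Er' : AddSubgroup Ω}
    (hEr : Er ≤ Er') {Z : Ω}
    {P : ℕ → ℝ →₀ k[X]} {lam : ℝ} {nA : ℕ} (hr : Rp p q v F K a s D A₀ Er G M w Z P lam nA)
    {w₁ : Ω} (hf : Frm v G M w₁ F) {δ : ℝ}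
    (hδ : 0 < δ) (hw : Rg k G M w₁ δ (w - w₁)) (hnA : nA = 1 → ∃ ψ ∈ F, w - w₁ = ψ ^ p) :
    ∃ P₁ : ℕ → ℝ →₀ k[X], Rp p q v F K a s D A₀ Er' G M w₁ Z P₁ lam nA ∧
      ∀ i < q, ∀ μ, Ct μ (P i) → Ct μ (P₁ i) ∧
        ∀ n, (P i μ).coeff n ≠ 0 → (P₁ i μ).coeff n ≠ 0 := by
  classical
  have h1 : ∀ i, ∃ P₁ : ℝ →₀ k[X], i < q → InP G P₁ ∧
      (∀ μ, Ct μ (P i) → Ct μ P₁ ∧ P₁ μ = P i μ) ∧ evP M w (P i) = evP M w₁ P₁ := by
    intro i
    by_cases hi : i < q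
    · obtain ⟨P₁, h1⟩ := exists_reparam hr.frm.ms hδ hw (hr.inP i hi)
      exact ⟨P₁, fun _ => h1⟩
    · exact ⟨0, fun h => absurd h hi⟩
  choose T hT using h1
  set P₁ : ℕ → ℝ →₀ k[X] := fun i => if Ix p i then
    (if p ∣ i then rst {x | ¬ PD p G x} (T i) else T i) else 0 with hP₁
  have hP₁p : ∀ i, p ∣ i → P₁ i = rst {x | ¬ PD p G x} (T i) := fun i hi => by
    simp only [hP₁]
    rw [if_pos (show Ix p i from Or.inl hi), if_pos hi]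
  have hP₁f : ∀ i, Ix p i → ¬ p ∣ i → P₁ i = T i := fun i hi hpi => by
    simp only [hP₁]
    rw [if_pos hi, if_neg hpi]
  have hP₁0 : ∀ i, ¬ Ix p i → P₁ i = 0 := fun i hi => by
    simp only [hP₁]
    rw [if_neg hi]
  have hkeep : ∀ i < q, ∀ μ, Ct μ (P i) → Ct μ (P₁ i) ∧
      ∀ n, (P i μ).coeff n ≠ 0 → (P₁ i μ).coeff n ≠ 0 := by
    intro i hi μ hμ
    obtain ⟨h1, h2⟩ := (hT i hi).2.1 μ hμ
    refine ⟨?_, fun n hn => ?_⟩
    · by_cases hpi : p ∣ i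
      · rw [hP₁p i hpi]
        exact h1.rst _
      · by_cases hix : Ix p i
        · rw [hP₁f i hix hpi]
          exact h1
        · rw [hP₁0 i hix]
          exact Ct.zero
    · have hix : Ix p i := by
        by_contra h0
        rw [hr.ix i hi h0] at hn
        exact hn rfl
      by_cases hpi : p ∣ i
      · rw [hP₁p i hpi, coeff_rst, if_pos, h2]
        · exact hn
        · exact hr.npd i hi hpi (μ, n) (mem_terms.2 hn)
      · rw [hP₁f i hix hpi, h2]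
        exact hn
  refine ⟨P₁, ?_, hkeep⟩
  refine hr.trans (u := 1) hpq hf (one_mem F) one_ne_zero v.map_one ?_ hr.typ ?_ ?_ ?_ ?_ ?_ ?_
  · intro f hf
    rw [one_pow, mul_one]
    exact hEr hf
  · intro i hi
    by_cases hpi : p ∣ i
    · rw [hP₁p i hpi]
      exact (hT i hi).1.rst _
    · by_cases hix : Ix p i
      · rw [hP₁f i hix hpi]
        exact (hT i hi).1
      · rw [hP₁0 i hix]
        exact InP.zero
  · intro i hi hpi
    rw [hP₁p i hpi]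
    exact npd_rst p _
  · intro i hi hix
    exact hP₁0 i hix
  · intro i hi
    exact (hkeep i hi _ (hr.low i hi)).1
  · intro i hi
    by_cases hpi : p ∣ i
    · obtain ⟨S, hS1, hS2, -⟩ := exists_rm (w := w₁) p hf.ms (T i)
      refine ⟨_, hf.evP_mem hS1, ?_⟩
      rw [if_pos hpi, hP₁p i hpi, ← hS2, (hT i hi).2.2, one_pow, mul_one, sub_self, zero_mul]
      exact zero_mem _
    · refine ⟨0, zero_mem _, ?_⟩
      rw [if_neg hpi, zero_add, one_pow, mul_one]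
      by_cases hix : Ix p i
      · rw [hP₁f i hix hpi, (hT i hi).2.2, sub_self, zero_mul]
        exact zero_mem _
      · rw [hP₁0 i hix, hr.ix i hi hix, evP_zero, evP_zero, sub_self, zero_mul]
        exact zero_mem _
  · rcases hr.typ.2 with ⟨h0, -⟩ | ⟨h0, d, hd, hd'⟩
    · refine ⟨0, zero_mem _, ?_⟩
      rw [h0, pow_zero, pow_zero, one_pow, zero_pow hp.out.ne_zero, zero_add, mul_one]
    · obtain ⟨ψ, hψ, hψ'⟩ := hnA h0
      refine ⟨M d * ψ, mul_mem (hf.mon_mem hd) hψ, ?_⟩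
      rw [h0, pow_one, pow_one, one_pow, mul_one, mul_pow, ← hf.ms.pow hd, ← hd', ← hψ']
      ring

/-- **Recentring.** -/
theorem Rp.recentre [IsAlgClosed k] [IsAlgClosed Ω] (h : Ctx0 k v) (hn : NFG v F) (hpq : p ∣ q)
    {a : Ω} {s D A₀ B : ℝ} {Z : Ω} {P : ℕ → ℝ →₀ k[X]} {lam : ℝ} {nA : ℕ}
    (hr : Rp p q v F K a s D A₀ (EC k v G M w Z (wM B A₀ (v w))) G M w Z P lam nA) :
    ∃ (w₁ : Ω) (P₁ : ℕ → ℝ →₀ k[X]),
      Rp p q v F K a s D A₀ (EC k v G M w₁ Z (wM B A₀ (v w₁))) G M w₁ Z P₁ lam nA ∧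
      (v w₁ ∉ G ∨ (nA = 1 ∧ v w₁ ∈ G ∧ ¬ pdv p G (v w₁))) ∧
      ∀ i < q, ∀ μ, Ct μ (P i) → Ct μ (P₁ i) ∧
        ∀ n, (P i μ).coeff n ≠ 0 → (P₁ i μ).coeff n ≠ 0 := by
  rcases hr.typ.2 with ⟨h0, -⟩ | ⟨h0, -⟩
  · obtain ⟨w₁, hf, hw, ⟨δ, hδ, h1⟩, h2⟩ := hr.frm.exists_recentreW p h hn
    obtain ⟨P₁, h3, h4⟩ := hr.reparam hpq (EC.reparam hr.frm.ms h2) hf hδ h1
      (fun h => absurd (h0.symm.trans h) zero_ne_one)
    exact ⟨w₁, P₁, h3, Or.inl hw, h4⟩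
  · obtain ⟨w₁, hf, hψ, hw, ⟨δ, hδ, h1⟩, h2⟩ := hr.frm.exists_recentrePW p h hn
    obtain ⟨P₁, h3, h4⟩ := hr.reparam hpq (EC.reparam hr.frm.ms h2) hf hδ h1 (fun _ => hψ)
    refine ⟨w₁, P₁, h3, ?_, h4⟩
    rcases hw with hw | ⟨hw1, hw2⟩
    · exact Or.inl hw
    · exact Or.inr ⟨h0, hw1, hw2⟩

end char

end Pool.Agent.TWN
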