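import Pool.Agent.Lib.TW_NFG.FR
import Pool.Agent.Lib.TW_NFG.Alg3

/-!
# NFG, `s = 2`: removing `p`-th powers, the lines of a step

* `rst S P`: the part of `P` with the monomials in `S`;
* `exists_rm`: `P = Q ^ p + P₁`, `P₁` without `p`-th powers;
* `SD`: the data of a step, with the new parameter `W(t)`;
* `SD.line`: the new leading coefficient in the coordinate `X`.
-/

set_option autoImplicit false

open Polynomial

namespace Pool.Agent.TWN

open Pool.Agent.H15JM (RVal)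
open Pool.Agent.TWM (MS TL cadj VG)
open Pool.Agent.D2P (clI mem_clI)

universe u

variable {k Ω : Type u} [Field k] [Field Ω] [Algebra k Ω] {v : RVal Ω} {G G' : AddSubgroup ℝ}
  {M M' : ℝ → Ω} {w t : Ω} {m : ℕ} {j : ℝ → ℤ → ℤ}

/-- The part of `P` with the monomials in `S`. -/
noncomputable def rst (S : Set (ℝ × ℕ)) (P : ℝ →₀ k[X]) : ℝ →₀ k[X] :=
  Finsupp.onFinset P.support (fun g => part {n | (g, n) ∈ S} (P g)) (by
    intro g hg
    rw [Finsupp.mem_support_iff]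
    intro h0
    apply hg
    rw [h0]
    exact part_eq_zero fun n _ => coeff_zero n)

theorem rst_apply (S : Set (ℝ × ℕ)) (P : ℝ →₀ k[X]) (g : ℝ) :
    rst S P g = part {n | (g, n) ∈ S} (P g) := rfl

open Classical in
theorem coeff_rst (S : Set (ℝ × ℕ)) (P : ℝ →₀ k[X]) (g : ℝ) (n : ℕ) :
    (rst S P g).coeff n = if (g, n) ∈ S then (P g).coeff n else 0 := by
  rw [rst_apply, coeff_part]
  rfl

theorem rst_add_compl (S : Set (ℝ × ℕ)) (P : ℝ →₀ k[X]) : rst S P + rst Sᶜ P = P := by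
  classical
  ext g n
  rw [Finsupp.add_apply, coeff_add, coeff_rst, coeff_rst]
  by_cases h : (g, n) ∈ S
  · rw [if_pos h, if_neg (fun h' => h' h), add_zero]
  · rw [if_neg h, if_pos (show (g, n) ∈ Sᶜ from h), zero_add]

theorem mem_terms_rst {S : Set (ℝ × ℕ)} {P : ℝ →₀ k[X]} {x : ℝ × ℕ} :
    x ∈ terms (rst S P) ↔ x ∈ terms P ∧ x ∈ S := by
  classical
  rw [mem_terms, mem_terms, coeff_rst]
  constructor
  · intro h
    split_ifs at h with h1
    · exact ⟨h, h1⟩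
    · exact absurd rfl h
  · rintro ⟨h1, h2⟩
    rwa [if_pos h2]

theorem InP.of_terms {P : ℝ →₀ k[X]} (h : ∀ x ∈ terms P, x.1 ∈ G) : InP G P := by
  intro g hg
  obtain ⟨n, hn⟩ : ∃ n, (P g).coeff n ≠ 0 := by
    by_contra hcon
    push Not at hcon
    exact hg (by ext n; rw [hcon n, coeff_zero])
  exact h (g, n) (mem_terms.2 hn)

theorem InP.terms {P : ℝ →₀ k[X]} (h : InP G P) {x : ℝ × ℕ} (hx : x ∈ terms P) : x.1 ∈ G :=
  h x.1 (fun h0 => mem_terms.1 hx (by rw [h0, coeff_zero]))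

theorem Ct.of_terms {μ : ℝ} {P : ℝ →₀ k[X]} (h : ∀ x ∈ terms P, μ ≤ x.1) : Ct μ P := by
  intro g hg
  obtain ⟨n, hn⟩ : ∃ n, (P g).coeff n ≠ 0 := by
    by_contra hcon
    push Not at hcon
    exact hg (by ext n; rw [hcon n, coeff_zero])
  exact h (g, n) (mem_terms.2 hn)

theorem Ct.terms {μ : ℝ} {P : ℝ →₀ k[X]} (h : Ct μ P) {x : ℝ × ℕ} (hx : x ∈ terms P) : μ ≤ x.1 :=
  h x.1 (fun h0 => mem_terms.1 hx (by rw [h0, coeff_zero]))

theorem InP.rst {P : ℝ →₀ k[X]} (h : InP G P) (S : Set (ℝ × ℕ)) : InP G (rst S P) :=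
  InP.of_terms fun _ hx => h.terms (mem_terms_rst.1 hx).1

theorem Ct.rst {μ : ℝ} {P : ℝ →₀ k[X]} (h : Ct μ P) (S : Set (ℝ × ℕ)) : Ct μ (rst S P) :=
  Ct.of_terms fun _ hx => h.terms (mem_terms_rst.1 hx).1

/-- A Laurent polynomial whose monomials are `p`-th powers is a `p`-th power. -/
theorem exists_root [IsAlgClosed k] (p : ℕ) [hp : Fact p.Prime] [CharP Ω p] (hM : MS v G M)
    {P : ℝ →₀ k[X]} (hP : ∀ x ∈ terms P, PD p G x) :
    ∃ Q : ℝ →₀ k[X], InP G Q ∧ evP M w P = evP M w Q ^ p ∧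
      (∀ μ, Ct (p * μ) P → Ct μ Q) := by
  classical
  have hp0 : (0 : ℝ) < p := by exact_mod_cast hp.out.pos
  choose! d hd using fun x hx => (hP x hx).1
  choose! r hr using fun x : ℝ × ℕ => IsAlgClosed.exists_pow_nat_eq ((P x.1).coeff x.2) hp.out.pos
  refine ⟨∑ x ∈ terms P, Finsupp.single (d x) (monomial (x.2 / p) (r x)), ?_, ?_, ?_⟩
  · exact InP.sum fun x hx => InP.single (hd x hx).1 _
  · rw [evP_sum, sum_pow_char, evP_terms]
    refine Finset.sum_congr rfl fun x hx => ?_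
    obtain ⟨h1, h2⟩ := hd x hx
    rw [evP_single, aeval_monomial, mul_pow, mul_pow, ← hM.pow h1, ← pow_mul,
      Nat.div_mul_cancel (hP x hx).2, ← h2, ← map_pow, hr]
    ring
  · intro μ hμ
    refine Ct.sum fun x hx => Ct.single ?_ _
    have h1 := hμ.terms hx
    rw [(hd x hx).2] at h1
    exact le_of_mul_le_mul_left h1 hp0

/-- Removing the `p`-th powers. -/
theorem exists_rm [IsAlgClosed k] (p : ℕ) [hp : Fact p.Prime] [CharP Ω p] (hM : MS v G M)
    (P : ℝ →₀ k[X]) :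
    ∃ Q : ℝ →₀ k[X], InP G Q ∧
      evP M w P = evP M w Q ^ p + evP M w (rst {x | ¬ PD p G x} P) ∧
      (∀ μ, Ct (p * μ) P → Ct μ Q) := by
  obtain ⟨Q, h1, h2, h3⟩ := exists_root (w := w) p hM (P := rst {x | ¬ PD p G x}ᶜ P) (by
    intro x hx
    have h := (mem_terms_rst.1 hx).2
    simpa using h)
  refine ⟨Q, h1, ?_, fun μ hμ => h3 μ (hμ.rst _)⟩
  conv_lhs => rw [← rst_add_compl {x | ¬ PD p G x} P, evP_add]
  rw [h2]
  ring

theorem npd_rst (p : ℕ) (P : ℝ →₀ k[X]) : NPD p G (rst {x | ¬ PD p G x} P) :=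
  fun _ hx => (mem_terms_rst.1 hx).2

theorem rst_eq_self {S : Set (ℝ × ℕ)} {P : ℝ →₀ k[X]} (h : ∀ x ∈ terms P, x ∈ S) :
    rst S P = P := by
  classical
  ext g n
  rw [coeff_rst]
  split_ifs with h1
  · rfl
  · by_contra h2
    exact h1 (h (g, n) (mem_terms.2 (Ne.symm h2)))

/-! ### The data of a step -/

/-- The data of a step: `t` is near `c`, the new parameter is `W(t)`. -/
structure SD (v : RVal Ω) (G : AddSubgroup ℝ) (M : ℝ → Ω) (w : Ω) (G' : AddSubgroup ℝ)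
    (M' : ℝ → Ω) (t : Ω) (m : ℕ) (j : ℝ → ℤ → ℤ) (c : k) (b : ℝ) (W : k[X]) : Prop where
  ts : TStep v G M w G' M' t m j
  hk : ∀ a : k, v.Ge 0 (algebraMap k Ω a)
  cne : c ≠ 0
  bpos : 0 < b
  near : v.Ge b (t - algebraMap k Ω c)
  W0 : W.eval c = 0
  W1 : (derivative W).eval c ≠ 0

theorem SD.dvd {c : k} {b : ℝ} {W : k[X]} (h : SD v G M w G' M' t m j c b W) : X - C c ∣ W :=
  dvd_iff_isRoot.2 h.W0

/-- `K` is divisible by `D` and makes the exponents non negative. -/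
theorem exists_K (S : Finset (ℝ × ℕ)) (J : ℝ → ℤ → ℤ) {D : ℕ} (hD : 0 < D) :
    ∃ K : ℕ, ∀ x ∈ S, 0 ≤ J x.1 x.2 + (D * K : ℕ) := by
  refine ⟨∑ x ∈ S, (J x.1 x.2).natAbs, fun x hx => ?_⟩
  have h1 : (J x.1 x.2).natAbs ≤ ∑ x ∈ S, (J x.1 x.2).natAbs :=
    Finset.single_le_sum (f := fun x : ℝ × ℕ => (J x.1 x.2).natAbs) (fun _ _ => Nat.zero_le _) hx
  have h2 : ∑ x ∈ S, (J x.1 x.2).natAbs ≤ D * ∑ x ∈ S, (J x.1 x.2).natAbs :=
    Nat.le_mul_of_pos_left _ hD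
  omega

/-- The value of the transformed Laurent polynomial, times a power of `t`. -/
theorem SD.tr_ge {c : k} {b : ℝ} {W : k[X]} (h : SD v G M w G' M' t m j c b W) (σ : ℤ) {N : ℕ}
    {R : ℤ → k[X]} {P : ℝ →₀ k[X]} (hP : InP G P)
    (hR : ∀ x ∈ terms P, Apx c W N (j x.1 x.2 - σ) (R (j x.1 x.2 - σ))) {μ : ℝ}
    (hμ : ∀ x ∈ terms P, μ ≤ vm (v w) x) :
    v.Ge (μ + N * b) (evP M w P * t ^ (-σ) -
      evP M' (aeval t W) (tr (v w) (fun g n => j g n - σ) R P)) := by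
  unfold TWN.tr
  rw [evP_terms, evP_sum, Finset.sum_mul, ← Finset.sum_sub_distrib]
  refine RVal.Ge.sum _ _ fun x hx => ?_
  have hxG : x.1 ∈ G := hP.terms hx
  have h1 := h.ts.mon x.1 hxG (x.2 : ℤ)
  rw [zpow_natCast, Int.cast_natCast] at h1
  rw [evP_single, map_mul, aeval_C, h1]
  have ht := h.ts.t_ne
  have h2 : algebraMap k Ω ((P x.1).coeff x.2) * (M' (x.1 + x.2 * v w) * t ^ j x.1 x.2) * t ^ (-σ) -
      M' (x.1 + x.2 * v w) * (algebraMap k Ω ((P x.1).coeff x.2) *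
        aeval (aeval t W) (R (j x.1 x.2 - σ))) =
      algebraMap k Ω ((P x.1).coeff x.2) * (M' (x.1 + x.2 * v w) *
        (t ^ (j x.1 x.2 - σ) - aeval (aeval t W) (R (j x.1 x.2 - σ)))) := by
    rw [sub_eq_add_neg (j x.1 x.2) σ, zpow_add₀ ht]
    ring
  rw [h2]
  have h3 : v.Ge μ (M' (x.1 + x.2 * v w)) := fun _ => by
    have h4 := h.ts.mem' hxG (x.2 : ℤ)
    rw [Int.cast_natCast] at h4
    rw [h.ts.ms'.val _ h4]
    exact hμ x hx
  have h5 := (h.hk ((P x.1).coeff x.2)).mul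
    (h3.mul ((hR x hx).ge h.hk h.ts.t_ne h.ts.t_val h.near))
  rwa [zero_add] at h5

/-- The coefficients of the polynomial of a line. -/
theorem coeff_lineP' (h : TStep v G M w G' M' t m j) (σ : ℤ) {P : ℝ →₀ k[X]} (hP : InP G P) {ν : ℝ}
    {K : ℕ} (hK : ∀ x ∈ terms P, vm (v w) x = ν → 0 ≤ j x.1 x.2 - σ + K) {x : ℝ × ℕ}
    (hx : x ∈ terms P) (hxν : vm (v w) x = ν) :
    (lineP (v w) (fun g n => j g n - σ) P ν K).coeff (j x.1 x.2 - σ + K).toNat =
      (P x.1).coeff x.2 := by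
  classical
  unfold lineP
  rw [finsetSum_coeff, Finset.sum_eq_single x]
  · rw [coeff_C_mul_X_pow, if_pos rfl]
  · intro y hy hyx
    rw [Finset.mem_filter] at hy
    rw [coeff_C_mul_X_pow, if_neg]
    intro h1
    apply hyx
    have h2 : j x.1 x.2 = j y.1 y.2 := by
      have h3 := hK x hx hxν
      have h4 := hK y hy.1 hy.2
      have h5 : (j x.1 x.2 - σ + K).toNat = (j y.1 y.2 - σ + K).toNat := h1
      omega
    have h3 : x.1 + ((x.2 : ℤ) : ℝ) * v w = y.1 + ((y.2 : ℤ) : ℝ) * v w := by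
      push_cast
      exact hxν.trans hy.2.symm
    have h4 := h.inj (hP.terms hx) (hP.terms hy.1) h3 h2
    exact Prod.ext h4.1.symm (by exact_mod_cast h4.2.symm)
  · intro h1
    exact (h1 (Finset.mem_filter.2 ⟨hx, hxν⟩)).elim

/-- The exponents of the polynomial of a line are in a small interval. -/
theorem exists_line' (h : TStep v G M w G' M' t m j) (σ : ℤ) {P : ℝ →₀ k[X]} (hP : InP G P)
    {ν : ℝ} {K : ℕ} (hK : ∀ x ∈ terms P, vm (v w) x = ν → 0 ≤ j x.1 x.2 - σ + K) {l e : ℕ}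
    (he : ∀ x ∈ terms P, vm (v w) x = ν → l ≤ x.2 ∧ x.2 ≤ e) (hne : ∃ x ∈ terms P, vm (v w) x = ν) :
    ∃ (a : ℕ) (H : k[X]), lineP (v w) (fun g n => j g n - σ) P ν K = X ^ a * H ∧
      H.natDegree ≤ (e - l) / m ∧ H ≠ 0 := by
  classical
  set F := lineP (v w) (fun g n => j g n - σ) P ν K with hF
  have h0 : F ≠ 0 := by
    obtain ⟨x, hx, hxν⟩ := hne
    intro h0
    have h1 := coeff_lineP' h σ hP hK hx hxν
    rw [← hF, h0, coeff_zero] at h1
    exact mem_terms.1 hx h1.symm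
  obtain ⟨H, hH⟩ : X ^ F.natTrailingDegree ∣ F := by
    rw [X_pow_dvd_iff]
    intro d hd
    exact coeff_eq_zero_of_lt_natTrailingDegree hd
  have hH0 : H ≠ 0 := by
    rintro rfl
    rw [mul_zero] at hH
    exact h0 hH
  refine ⟨F.natTrailingDegree, H, hH, ?_, hH0⟩
  obtain ⟨x, hx, hxν, (hx1 : _ = (j x.1 x.2 - σ + K).toNat)⟩ := coeff_lineP_ne (i := F.natDegree) (β := v w)
    (j := fun g n => j g n - σ) (P := P)
    (ν := ν) (K := K) (by rw [← hF]; exact leadingCoeff_ne_zero.2 h0)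
  obtain ⟨y, hy, hyν, (hy1 : _ = (j y.1 y.2 - σ + K).toNat)⟩ := coeff_lineP_ne (i := F.natTrailingDegree) (β := v w)
    (j := fun g n => j g n - σ) (P := P)
    (ν := ν) (K := K) (by rw [← hF]; exact trailingCoeff_nonzero_iff_nonzero.2 h0)
  have h1 := h.line x.1 (hP.terms hx) y.1 (hP.terms hy) x.2 y.2 (by
    push_cast
    exact hxν.trans hyν.symm)
  have h2 := hK x hx hxν
  have h3 := hK y hy hyν
  have h4 : H.natDegree + F.natTrailingDegree = F.natDegree := by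
    conv_rhs => rw [hH]
    rw [natDegree_mul (pow_ne_zero _ X_ne_zero) hH0, natDegree_X_pow, add_comm]
  rw [Nat.le_div_iff_mul_le h.mpos]
  have h5 := he x hx hxν
  have h5' := he y hy hyν
  have h6 : (H.natDegree : ℤ) = j x.1 x.2 - j y.1 y.2 := by omega
  have h7 : ((H.natDegree * m : ℕ) : ℤ) = x.2 - y.2 := by
    rw [h1]
    push_cast
    rw [h6]
    ring
  omega

end Pool.Agent.TWN
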