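import Pool.Agent.Lib.TW_NFG.SH

/-!
# NFG, `s = 2`: transformations of a representation

* `absorb`: `p`-th powers of coefficients of indices divisible by `p` are absorbed;
* `Rp.trans`: change of the frame; `Rp.shift`: change of the centre of `Z`.
-/

set_option autoImplicit false

open Polynomial

namespace Pool.Agent.TWN

open Pool.Agent.H15JM (RVal)
open Pool.Agent.TWM (MS TL cadj VG)
open Pool.Agent.D2P (clI mem_clI)

universe u

variable {k Ω : Type u} [Field k] [Field Ω] [Algebra k Ω] {v : RVal Ω} {G G' : AddSubgroup ℝ}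
  {M M' : ℝ → Ω} {w t : Ω} {F K : IntermediateField k Ω}

theorem Frm.evP_mem (hf : Frm v G M w F) {P : ℝ →₀ k[X]} (hP : InP G P) : evP M w P ∈ F := by
  rw [evP_eq_sum]
  refine sum_mem fun g hg => ?_
  rw [Finsupp.mem_support_iff] at hg
  refine mul_mem (hf.mon_mem (hP g hg)) ?_
  rw [aeval_eq_sum_range]
  exact sum_mem fun i _ => F.smul_mem (pow_mem hf.w_mem i)

section char

variable (p : ℕ) [hp : Fact p.Prime] [CharP k p] [CharP Ω p]

omit [CharP k p] in
/-- The `p`-th powers are absorbed. -/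
theorem absorb {q : ℕ} {Er : AddSubgroup Ω} {Z : Ω} (hF : F ≤ K) (hZ : Z ∈ K) {e e' g : ℕ → Ω}
    (hg : ∀ i < q, g i ∈ F)
    (h : ∀ i < q, (e i - ((if p ∣ i then g i ^ p else 0) + e' i)) * Z ^ i ∈ Er) :
    ∃ g₁ ∈ K, ∑ i ∈ Finset.range q, e i * Z ^ i -
      (g₁ ^ p + ∑ i ∈ Finset.range q, e' i * Z ^ i) ∈ Er := by
  classical
  refine ⟨∑ i ∈ (Finset.range q).filter (fun i => p ∣ i), g i * Z ^ (i / p), ?_, ?_⟩
  · refine sum_mem fun i hi => ?_
    rw [Finset.mem_filter, Finset.mem_range] at hi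
    exact mul_mem (hF (hg i hi.1)) (pow_mem hZ _)
  · have h1 : (∑ i ∈ (Finset.range q).filter (fun i => p ∣ i), g i * Z ^ (i / p)) ^ p =
        ∑ i ∈ Finset.range q, (if p ∣ i then g i ^ p else 0) * Z ^ i := by
      rw [sum_pow_char, Finset.sum_filter]
      refine Finset.sum_congr rfl fun i _ => ?_
      by_cases hi : p ∣ i
      · rw [if_pos hi, if_pos hi, mul_pow, ← pow_mul, Nat.div_mul_cancel hi]
      · rw [if_neg hi, if_neg hi, zero_mul]
    rw [h1, ← Finset.sum_add_distrib, ← Finset.sum_sub_distrib]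
    refine AddSubgroup.sum_mem _ fun i hi => ?_
    have h2 := h i (Finset.mem_range.1 hi)
    have h3 : e i * Z ^ i - ((if p ∣ i then g i ^ p else 0) * Z ^ i + e' i * Z ^ i) =
        (e i - ((if p ∣ i then g i ^ p else 0) + e' i)) * Z ^ i := by ring
    rwa [h3]

variable {p}

omit hp [CharP k p] [CharP Ω p] in
theorem Rp.le {q : ℕ} {a : Ω} {s D A₀ : ℝ} {Er : AddSubgroup Ω} {Z : Ω} {P : ℕ → ℝ →₀ k[X]}
    {lam : ℝ} {nA : ℕ} (h : Rp p q v F K a s D A₀ Er G M w Z P lam nA) : F ≤ K := by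
  rw [h.gen]
  exact TWM.le_cadj _ _ _

omit hp [CharP k p] [CharP Ω p] in
theorem Rp.Z_mem {q : ℕ} {a : Ω} {s D A₀ : ℝ} {Er : AddSubgroup Ω} {Z : Ω} {P : ℕ → ℝ →₀ k[X]}
    {lam : ℝ} {nA : ℕ} (h : Rp p q v F K a s D A₀ Er G M w Z P lam nA) : Z ∈ K := by
  rw [h.gen]
  exact TWM.self_mem_cadj _ _ _

omit hp [CharP k p] [CharP Ω p] in
theorem Rp.mono {q : ℕ} {a : Ω} {s D A₀ : ℝ} {Er Er' : AddSubgroup Ω} (hE : Er ≤ Er') {Z : Ω}
    {P : ℕ → ℝ →₀ k[X]} {lam : ℝ} {nA : ℕ} (h : Rp p q v F K a s D A₀ Er G M w Z P lam nA) :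
    Rp p q v F K a s D A₀ Er' G M w Z P lam nA := by
  obtain ⟨b, hb, hb0, hvb, g, hg, hrep⟩ := h.rep
  exact ⟨h.frm, h.far, h.vZ, h.gen, h.typ, h.inP, h.npd, h.ix, h.low,
    ⟨b, hb, hb0, hvb, g, hg, hE hrep⟩, h.dq⟩

omit [CharP k p] in
/-- Change of the frame. -/
theorem Rp.trans {q : ℕ} (hq : p ∣ q) {a : Ω} {s D A₀ : ℝ} {Er : AddSubgroup Ω} {Z : Ω}
    {P : ℕ → ℝ →₀ k[X]} {lam : ℝ} {nA : ℕ} (h : Rp p q v F K a s D A₀ Er G M w Z P lam nA)
    {w' : Ω} (hf : Frm v G' M' w' F) {u : Ω}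
    (hu : u ∈ F) (hu0 : u ≠ 0) (hvu : v u = 0) {Er' : AddSubgroup Ω}
    (hEr : ∀ f ∈ Er, f * u ^ p ∈ Er') {P' : ℕ → ℝ →₀ k[X]} {lam' : ℝ} {nA' : ℕ}
    (typ' : lam' ∈ G' ∧ ((nA' = 0 ∧ ¬ pdv p G' lam') ∨ (nA' = 1 ∧ pdv p G' lam')))
    (inP' : ∀ i < q, InP G' (P' i)) (npd' : ∀ i < q, p ∣ i → NPD p G' (P' i))
    (ix' : ∀ i < q, ¬ Ix p i → P' i = 0)
    (low' : ∀ i < q, Ct (D + ((q : ℝ) - i) * A₀) (P' i))
    (hP : ∀ i < q, ∃ g ∈ F, (evP M w (P i) * u ^ p -
      ((if p ∣ i then g ^ p else 0) + evP M' w' (P' i))) * Z ^ i ∈ Er')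
    (htop : ∃ g ∈ F, M lam * w ^ nA * u ^ p = g ^ p + M' lam' * w' ^ nA') :
    Rp p q v F K a s D A₀ Er' G' M' w' Z P' lam' nA' := by
  obtain ⟨g₀, hg₀, htop⟩ := htop
  refine ⟨hf, h.far, h.vZ, h.gen, typ', inP', npd', ix', low', ?_, ?_⟩
  · obtain ⟨b, hb, hb0, hvb, g, hg, hrep⟩ := h.rep
    choose! g' hg' using hP
    obtain ⟨g₁, hg₁, h1⟩ := absorb p (K := K) (Z := Z) h.le h.Z_mem
      (e := fun i => evP M w (P i) * u ^ p) (e' := fun i => evP M' w' (P' i))
      (fun i hi => (hg' i hi).1) (fun i hi => (hg' i hi).2)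
    obtain ⟨q', rfl⟩ := hq
    refine ⟨b * u, mul_mem hb hu, mul_ne_zero hb0 hu0, by rw [v.map_mul hb0 hu0, hvb, hvu, add_zero],
      g * u + g₁ + g₀ * Z ^ q', ?_, ?_⟩
    · exact add_mem (add_mem (mul_mem hg (h.le hu)) hg₁) (mul_mem (h.le hg₀) (pow_mem h.Z_mem _))
    · have h2 := add_mem (hEr _ hrep) h1
      have e : a * (b * u) ^ p - ((g * u + g₁ + g₀ * Z ^ q') ^ p +
          ∑ i ∈ Finset.range (p * q'), evP M' w' (P' i) * Z ^ i +
          M' lam' * w' ^ nA' * Z ^ (p * q')) =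
          (a * b ^ p - (g ^ p + ∑ i ∈ Finset.range (p * q'), evP M w (P i) * Z ^ i +
          M lam * w ^ nA * Z ^ (p * q'))) * u ^ p +
          (∑ i ∈ Finset.range (p * q'), evP M w (P i) * u ^ p * Z ^ i -
            (g₁ ^ p + ∑ i ∈ Finset.range (p * q'), evP M' w' (P' i) * Z ^ i)) := by
        rw [add_pow_char, add_pow_char]
        have h3 : ∑ i ∈ Finset.range (p * q'), evP M w (P i) * u ^ p * Z ^ i =
            (∑ i ∈ Finset.range (p * q'), evP M w (P i) * Z ^ i) * u ^ p := by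
          rw [Finset.sum_mul]
          exact Finset.sum_congr rfl fun i _ => by ring
        rw [h3]
        have h4 : M' lam' * w' ^ nA' = M lam * w ^ nA * u ^ p - g₀ ^ p := by
          rw [htop]; ring
        rw [h4, pow_mul Z p q', ← pow_mul Z, mul_pow g₀, ← pow_mul Z q' p, mul_comm q' p]
        ring
      rw [e]
      exact h2
  · intro f hf' hcon
    refine h.dq ((g₀ + f) * u⁻¹) (mul_mem (add_mem hg₀ hf') (inv_mem hu)) ?_
    have h1 : M lam * w ^ nA - ((g₀ + f) * u⁻¹) ^ p =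
        (M' lam' * w' ^ nA' - f ^ p) * (u⁻¹) ^ p := by
      have h4 : M' lam' * w' ^ nA' = M lam * w ^ nA * u ^ p - g₀ ^ p := by
        rw [htop]; ring
      rw [h4, mul_pow, add_pow_char]
      have h5 : u ^ p * (u⁻¹) ^ p = 1 := by
        rw [← mul_pow, mul_inv_cancel₀ hu0, one_pow]
      linear_combination (- (M lam * w ^ nA)) * h5
    rw [h1]
    have h2 : v.Ge 0 ((u⁻¹) ^ p) := fun _ => by
      rw [v.map_pow (inv_ne_zero hu0), v.map_inv hu0, hvu, neg_zero, mul_zero]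
    have h3 := hcon.mul h2
    rwa [add_zero] at h3

/-- The family with the top coefficient. -/
noncomputable def ext (q : ℕ) (lam : ℝ) (nA : ℕ) (P : ℕ → ℝ →₀ k[X]) (i : ℕ) : ℝ →₀ k[X] :=
  if i = q then Finsupp.single lam (X ^ nA) else P i

/-- The family at the new centre, without `p`-th powers. -/
noncomputable def shP (p : ℕ) (G : AddSubgroup ℝ) (q : ℕ) (lam : ℝ) (nA : ℕ) (c : k) (y : ℝ)
    (n₀ : ℕ) (P : ℕ → ℝ →₀ k[X]) (i : ℕ) : ℝ →₀ k[X] :=
  open Classical in if p ∣ i then rst {x | ¬ PD p G x} (rc q c y n₀ (ext q lam nA P) i)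
  else rc q c y n₀ (ext q lam nA P) i

omit hp [CharP Ω p] in
theorem rc_eq_zero {q : ℕ} {c : k} {y : ℝ} {n₀ : ℕ} {P : ℕ → ℝ →₀ k[X]}
    {i : ℕ} (h : ∀ l, i ≤ l → l ≤ q → (l.choose i : k) ≠ 0 → P l = 0) : rc q c y n₀ P i = 0 := by
  unfold rc
  refine Finset.sum_eq_zero fun l hl => ?_
  rw [Finset.mem_Icc] at hl
  by_cases h1 : (l.choose i : k) = 0
  · rw [h1, zero_mul, zero_sh]
  · rw [h l hl.1 hl.2 h1, sh_zero]

/-- Change of the centre. -/
theorem Rp.shift [IsAlgClosed k] {q : ℕ} (hq : p ∣ q) {a : Ω} {s D A₀ : ℝ}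
    {Er Er' : AddSubgroup Ω} (hEr : Er ≤ Er') {Z : Ω}
    {P : ℕ → ℝ →₀ k[X]} {lam : ℝ} {nA : ℕ} (h : Rp p q v F K a s D A₀ Er G M w Z P lam nA) (c : k)
    {y : ℝ} (hy : y ∈ G) (n₀ : ℕ) (hya : A₀ < y)
    (hyq : ∀ i < q, Sr p i q → D + ((q : ℝ) - i) * A₀ ≤ lam + ((q : ℝ) - i) * y)
    (hk : ∀ b : k, v.Ge 0 (algebraMap k Ω b)) :
    Rp p q v F K a s D A₀ Er' G M w (Z - algebraMap k Ω c * M y * w ^ n₀)
      (shP p G q lam nA c y n₀ P) lam nA := by
  classical
  set m : Ω := algebraMap k Ω c * M y * w ^ n₀ with hm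
  have hmF : m ∈ F := mul_mem (mul_mem (F.algebraMap_mem c) (h.frm.mon_mem hy))
    (pow_mem h.frm.w_mem n₀)
  have hext : ∀ l ≤ q, InP G (ext q lam nA P l) := by
    intro l hl
    unfold ext
    split_ifs with h1
    · exact InP.single h.typ.1 _
    · exact h.inP l (by omega)
  have hcast : ∀ {i l : ℕ}, (l.choose i : k) ≠ 0 → p ∣ l → i ≤ l → p ∣ i := by
    intro i l h1 h2 h3
    rcases h3.eq_or_lt with rfl | h3
    · exact h2
    · exact (sr_of_cast p h3 h1).dvd hp.out h2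
  refine ⟨h.frm, ?_, ?_, ?_, h.typ, ?_, ?_, ?_, ?_, ?_, h.dq⟩
  · intro f hf
    obtain ⟨h1, h2⟩ := h.far (m + f) (add_mem hmF hf)
    refine ⟨fun h3 => h1 (by rw [← h3]; ring), ?_⟩
    rwa [sub_sub]
  · -- the value
    have hm1 : v.Ge y m := by
      have h1 : v.Ge y (M y) := fun _ => by rw [h.frm.ms.val _ hy]
      have h2 := ((hk c).mul h1).mul (TWM.ge_pow (fun _ => h.frm.wpos.le : v.Ge 0 w) n₀)
      rwa [zero_add, mul_zero, add_zero] at h2
    have h1 : v.Ge (min (v Z) y) (Z - m) :=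
      ((RVal.ge_self Z).mono (min_le_left _ _)).sub (hm1.mono (min_le_right _ _))
    have h2 : Z - m ≠ 0 := sub_ne_zero.2 (h.far m hmF).1
    exact lt_of_lt_of_le (lt_min h.vZ hya) (h1 h2)
  · rw [h.gen]
    have h1 := TWM.cadj_affine (v := v) (z := Z) (one_mem F) one_ne_zero (neg_mem hmF)
    rw [one_mul, ← sub_eq_add_neg] at h1
    exact h1.symm
  · intro i hi
    unfold shP
    split_ifs
    · exact (InP.rc hy hext i).rst _
    · exact InP.rc hy hext i
  · intro i hi hpi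
    unfold shP
    rw [if_pos hpi]
    exact npd_rst p _
  · intro i hi hix
    unfold shP
    rw [if_neg (fun h1 => hix (Or.inl h1))]
    refine rc_eq_zero fun l hl1 hl2 hl3 => ?_
    by_cases hlq : l = q
    · subst hlq
      exact absurd (Or.inl (hcast hl3 hq hl1)) hix
    · unfold ext
      rw [if_neg hlq]
      refine h.ix l (by omega) fun h1 => hix ?_
      rcases h1 with h1 | h1
      · exact Or.inl (hcast hl3 h1 hl1)
      · subst h1
        by_cases h2 : i = 1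
        · exact Or.inr h2
        · have h3 : i = 0 := by omega
          exact Or.inl (by rw [h3]; exact dvd_zero p)
  · -- the contents
    intro i hi
    have hct : Ct (D + ((q : ℝ) - i) * A₀) (rc q c y n₀ (ext q lam nA P) i) := by
      refine Ct.of_terms fun x hx => ?_
      obtain ⟨l, h1, h2, h3, x', hx', h4, -⟩ := mem_terms_rc hx
      rcases h2.eq_or_lt with rfl | h2
      · have h5 : x'.1 = lam := by
          unfold ext at hx'
          rw [if_pos rfl, mem_terms, Finsupp.single_apply] at hx'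
          by_contra h5
          rw [if_neg (Ne.symm h5)] at hx'
          exact hx' (coeff_zero _)
        rw [h4, h5]
        exact hyq i hi (sr_of_cast p hi h3)
      · have h5 : x' ∈ terms (P l) := by
          unfold ext at hx'
          rwa [if_neg h2.ne] at hx'
        have h6 := (h.low l h2).terms h5
        have h7 : (i : ℝ) ≤ l := by exact_mod_cast h1
        have h8 : ((l : ℝ) - i) * A₀ ≤ (l - i) * y :=
          mul_le_mul_of_nonneg_left hya.le (by linarith)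
        rw [h4]
        linarith
    unfold shP
    split_ifs
    · exact hct.rst _
    · exact hct
  · obtain ⟨b, hb, hb0, hvb, g, hg, hrep⟩ := h.rep
    have h1 : ∀ i, ∃ g' ∈ F, evP M w (rc q c y n₀ (ext q lam nA P) i) =
        (if p ∣ i then g' ^ p else 0) + evP M w (shP p G q lam nA c y n₀ P i) := by
      intro i
      unfold shP
      by_cases hpi : p ∣ i
      · obtain ⟨Q, hQ1, hQ2, -⟩ := exists_rm (w := w) p h.frm.ms (rc q c y n₀ (ext q lam nA P) i)
        refine ⟨evP M w Q, h.frm.evP_mem hQ1, ?_⟩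
        rw [if_pos hpi, if_pos hpi]
        exact hQ2
      · exact ⟨0, zero_mem _, by rw [if_neg hpi, if_neg hpi, zero_add]⟩
    choose g' hg' h1 using h1
    have hmK : m ∈ K := h.le hmF
    obtain ⟨g₁, hg₁, h2⟩ := absorb p (Er := Er') (q := q) (K := K) (Z := Z - m) h.le
      (sub_mem h.Z_mem hmK)
      (e := fun i => evP M w (rc q c y n₀ (ext q lam nA P) i))
      (e' := fun i => evP M w (shP p G q lam nA c y n₀ P i)) (fun i _ => hg' i)
      (fun i _ => by
        show (evP M w (rc q c y n₀ (ext q lam nA P) i) - _) * _ ∈ Er'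
        rw [h1 i, sub_self, zero_mul]
        exact zero_mem _)
    refine ⟨b, hb, hb0, hvb, g + g₁, add_mem hg hg₁, ?_⟩
    have h3 := sum_rc (w := w) (c := c) (n₀ := n₀) h.frm.ms hy hext Z
    rw [Finset.sum_range_succ, Finset.sum_range_succ, ← hm] at h3
    have h4 : evP M w (ext q lam nA P q) = M lam * w ^ nA := by
      unfold ext
      rw [if_pos rfl, evP_single, map_pow, aeval_X]
    have h5 : rc q c y n₀ (ext q lam nA P) q = ext q lam nA P q := by
      unfold rc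
      rw [Finset.Icc_self, Finset.sum_singleton, Nat.choose_self, Nat.cast_one, one_mul,
        Nat.sub_self, pow_zero, sub_self, zero_mul, Nat.zero_mul, sh_one]
    have h6 : ∑ i ∈ Finset.range q, evP M w (ext q lam nA P i) * Z ^ i =
        ∑ i ∈ Finset.range q, evP M w (P i) * Z ^ i := by
      refine Finset.sum_congr rfl fun i hi => ?_
      rw [Finset.mem_range] at hi
      unfold ext
      rw [if_neg (by omega)]
    rw [h5, h4, h6] at h3
    have h7 := add_mem (hEr hrep) h2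
    have e : a * b ^ p - ((g + g₁) ^ p + ∑ i ∈ Finset.range q,
        evP M w (shP p G q lam nA c y n₀ P i) * (Z - m) ^ i + M lam * w ^ nA * (Z - m) ^ q) =
        a * b ^ p - (g ^ p + ∑ i ∈ Finset.range q, evP M w (P i) * Z ^ i +
          M lam * w ^ nA * Z ^ q) +
        (∑ i ∈ Finset.range q, evP M w (rc q c y n₀ (ext q lam nA P) i) * (Z - m) ^ i -
          (g₁ ^ p + ∑ i ∈ Finset.range q,
            evP M w (shP p G q lam nA c y n₀ P i) * (Z - m) ^ i)) := by
      rw [add_pow_char]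
      linear_combination h3
    rw [e]
    exact h7

end char

end Pool.Agent.TWN
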