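import Pool.Agent.Lib.TW_NFG.NS
import Pool.Agent.Lib.TW_NFG.RP
import Pool.Agent.Lib.TW_NFG.RW

/-!
# NFG, `s = 2`: the step of a representation

`Rp.step`: the representation at the next frame.
-/

set_option autoImplicit false

open Polynomial

namespace Pool.Agent.TWN

open Pool.Agent.H15JM (RVal)
open Pool.Agent.LU1 (VPos)
open Pool.Agent.D2 (Ctx0)
open Pool.Agent.TWM (MS TL cadj VG)

universe u

variable {k Ω : Type u} [Field k] [Field Ω] [Algebra k Ω] {v : RVal Ω} {G G' : AddSubgroup ℝ}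
  {M M' : ℝ → Ω} {w t : Ω} {m : ℕ} {j : ℝ → ℤ → ℤ} {F K : IntermediateField k Ω}

theorem exists_near {x : Ω} (hx : VPos v x) : ∃ b > 0, v.Ge b x := by
  by_cases h0 : x = 0
  · exact ⟨1, one_pos, fun h => absurd h0 h⟩
  · exact ⟨v x, hx h0, fun _ => le_rfl⟩

section char

variable {p q τ Q j₀ : ℕ} [hp : Fact p.Prime] [CharP k p] [CharP Ω p]

omit [CharP Ω p] in
/-- The coordinate of the new frame. -/
theorem exists_ty [IsAlgClosed k] (h : Ctx0 k v) (hf : Frm v G M w F) (hn : NFG v F)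
    (hj : 1 ≤ j₀) {lam : ℝ} {nA : ℕ} (hlam : lam ∈ G)
    (typ : (nA = 0 ∧ ¬ pdv p G lam) ∨ (nA = 1 ∧ pdv p G lam)) (hT : TStep v G M w G' M' t m j)
    {c : k} (hc : c ≠ 0) (ht : VPos v (t - algebraMap k Ω c)) :
    ∃ (M'' : ℝ → Ω) (j'' : ℝ → ℤ → ℤ) (nA' e : ℕ) (r : ℤ) (W : k[X]),
      TStep v G M w G' M'' t m j'' ∧ W.eval c = 0 ∧ (derivative W).eval c ≠ 0 ∧
      j'' lam nA = e + (p ^ j₀ : ℕ) * r ∧ Ty p G' (lam + nA * v w) nA' e c W ∧
      Frm v G' M'' (aeval t W) F ∧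
      ((nA' = 0 ∧ ¬ pdv p G' (lam + nA * v w)) ∨ (nA' = 1 ∧ pdv p G' (lam + nA * v w))) ∧
      ∃ g ∈ F, M lam * w ^ nA * t ^ (-((p ^ j₀ : ℕ) * r : ℤ)) =
        g ^ p + M'' (lam + nA * v w) * (aeval t W) ^ nA' := by
  have hp2 := hp.out.two_le
  have hQ0 : 0 < p ^ j₀ := pow_pos hp.out.pos _
  have hpQ : p ∣ p ^ j₀ := dvd_pow_self p (by omega)
  have hlam' : lam + nA * v w ∈ G' := by
    have h1 := hT.mem' hlam (nA : ℤ)
    exact_mod_cast h1
  have ht0 := hT.t_ne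
  by_cases hpd : pdv p G' (lam + nA * v w)
  · -- type B
    have hpj : ¬ (p : ℤ) ∣ j lam nA := by
      intro h1
      have h2 := hT.dvd hlam (n := (nA : ℤ)) (by exact_mod_cast hpd) h1
      rcases typ with ⟨-, h3⟩ | ⟨h3, -⟩
      · exact h3 h2.1
      · rw [h3] at h2
        have h4 : p ∣ 1 := by exact_mod_cast h2.2
        have := Nat.le_of_dvd one_pos h4
        omega
    set r := j lam nA / (p ^ j₀ : ℕ) with hr
    set e := (j lam nA % (p ^ j₀ : ℕ)).toNat with he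
    have hQZ : ((p ^ j₀ : ℕ) : ℤ) ≠ 0 := by omega
    have he' : (e : ℤ) = j lam nA % (p ^ j₀ : ℕ) :=
      Int.toNat_of_nonneg (Int.emod_nonneg _ hQZ)
    have hje : j lam nA = e + (p ^ j₀ : ℕ) * r := by
      rw [he', hr, Int.emod_add_mul_ediv]
    have hpe : ¬ p ∣ e := by
      intro h1
      apply hpj
      rw [hje]
      exact dvd_add (Int.natCast_dvd_natCast.2 h1) ((Int.natCast_dvd_natCast.2 hpQ).mul_right r)
    obtain ⟨h1, h2, h3⟩ := hf.step p h hn hT hc ht hpe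
    have e1 : aeval t (X ^ e - C (c ^ e) : k[X]) = t ^ e - algebraMap k Ω c ^ e := by
      rw [map_sub, map_pow, aeval_X, aeval_C, map_pow]
    obtain ⟨d, hd, hd'⟩ := id hpd
    obtain ⟨γ, hγ⟩ := IsAlgClosed.exists_pow_nat_eq (c ^ e) hp.out.pos
    refine ⟨M', j, 1, e, r, X ^ e - C (c ^ e), hT, ?_, ?_, hje, Or.inr ⟨hpd, rfl, hpe, rfl⟩,
      by rw [e1]; exact h3, Or.inr ⟨rfl, hpd⟩, M' d * algebraMap k Ω γ,
      mul_mem (h3.mon_mem hd) (F.algebraMap_mem _), ?_⟩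
    · rw [eval_sub, eval_pow, eval_X, eval_C, sub_self]
    · rw [derivative_sub, derivative_X_pow, derivative_C, sub_zero, eval_mul, eval_C, eval_pow,
        eval_X]
      exact mul_ne_zero (fun h0 => hpe ((CharP.cast_eq_zero_iff k p e).1 h0)) (pow_ne_zero _ hc)
    · have h4 := hT.mon lam hlam (nA : ℤ)
      rw [zpow_natCast, Int.cast_natCast] at h4
      rw [e1, pow_one, h4, mul_assoc, ← zpow_add₀ ht0, mul_pow, ← hT.ms'.pow hd, ← hd', ← map_pow,
        hγ, map_pow]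
      have h5 : j lam nA + -(((p ^ j₀ : ℕ) : ℤ) * r) = e := by rw [hje]; ring
      rw [h5, zpow_natCast]
      ring
  · -- type L
    obtain ⟨κ, hκ, hκ'⟩ := exists_kappa hT.fg hp.out hlam' hpd j₀ (j lam nA)
    have hT' := hT.twist κ hκ
    obtain ⟨r, hr⟩ := hκ'
    have hp1 : ¬ p ∣ 1 := fun h1 => by have := Nat.le_of_dvd one_pos h1; omega
    obtain ⟨h1, h2, h3⟩ := hf.step p h hn hT' hc ht hp1
    have e1 : aeval t (X - C c : k[X]) = t ^ 1 - algebraMap k Ω c ^ 1 := by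
      rw [map_sub, aeval_X, aeval_C, pow_one, pow_one]
    refine ⟨_, _, 0, 0, r, X - C c, hT', ?_, ?_, ?_, Or.inl ⟨hpd, rfl, rfl, rfl⟩,
      by rw [e1]; exact h3, Or.inl ⟨rfl, hpd⟩, 0, zero_mem _, ?_⟩
    · rw [eval_sub, eval_X, eval_C, sub_self]
    · rw [derivative_sub, derivative_X, derivative_C, sub_zero, eval_one]
      exact one_ne_zero
    · rw [Nat.cast_zero, zero_add, ← hr, Int.cast_natCast]
    · have h4 := hT'.mon lam hlam (nA : ℤ)
      rw [zpow_natCast, Int.cast_natCast] at h4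
      rw [h4, mul_assoc, ← zpow_add₀ ht0, hr, add_neg_cancel, zpow_zero, zero_pow hp.out.ne_zero,
        zero_add, pow_zero]

/-- **The representation at the next frame**, with a fine error. -/
theorem Rp.step [IsAlgClosed k] (h : Ctx0 k v) (hn : NFG v F) (hprm : Prm p q τ Q)
    (hQ : Q = p ^ j₀) (hj : 1 ≤ j₀) {a : Ω} {s D A₀ B : ℝ} {Z : Ω} {P : ℕ → ℝ →₀ k[X]} {lam : ℝ}
    {nA : ℕ}
    (hr : Rp p q v F K a s D A₀ (EC k v G M w Z (wM B A₀ (v w))) G M w Z P lam nA) {Mb : ℕ}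
    (hMb : 1 ≤ Mb) :
    ∃ (G' : AddSubgroup ℝ) (M' : ℝ → Ω) (t : Ω) (m : ℕ) (j : ℝ → ℤ → ℤ) (c : k) (b : ℝ) (W : k[X])
      (nA' e : ℕ) (r : ℤ) (N : ℕ) (R : ℤ → k[X]),
      SS p q τ Q j₀ v G M w G' M' t m j c b W lam nA nA' e r P N R Mb ∧
      Rp p q v F K a s D A₀ (EC k v G' M' (aeval t W) Z (wM B A₀ (v (aeval t W)))) G' M'
        (aeval t W) Z (trP p G' (v w) j ((p ^ j₀ : ℕ) * r) R P) (lam + nA * v w) nA' ∧
      Rp p q v F K a s D A₀ (EC k v G' M' (aeval t W) Z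
        (wF q B A₀ (trP p G' (v w) j ((p ^ j₀ : ℕ) * r) R P))) G' M'
        (aeval t W) Z (trP p G' (v w) j ((p ^ j₀ : ℕ) * r) R P) (lam + nA * v w) nA' ∧
      (v w ∉ G → 2 ≤ m) ∧ (v w ∈ G → ¬ pdv p G (v w) → nA = 1 → nA' = 0) := by
  classical
  obtain ⟨G', M₀, t, m, j₁, c, hT₀, hc, ht⟩ := hr.frm.exists_tstep h
  obtain ⟨M', j, nA', e, r, W, hT, hW0, hW1, hje, hty, hf', typ', g₀, hg₀, htop⟩ :=
    exists_ty h hr.frm hn hj hr.typ.1 hr.typ.2 hT₀ hc ht
  obtain ⟨b, hb, hb'⟩ := exists_near ht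
  have hsd : SD v G M w G' M' t m j c b W := ⟨hT, h.ge, hc, hb, hb', hW0, hW1⟩
  have ht0 := hT.t_ne
  have hw' := hf'.wpos
  have hpQ : p ∣ p ^ j₀ := dvd_pow_self p (by omega)
  -- the precision
  have hμ : ∀ i, ∃ μ : ℝ, ∀ x ∈ terms (P i), μ ≤ vm (v w) x := by
    intro i
    rcases (terms (P i)).eq_empty_or_nonempty with h0 | h0
    · exact ⟨0, fun x hx => by rw [h0] at hx; simp at hx⟩
    · obtain ⟨x, -, hx⟩ := (terms (P i)).exists_min_image (vm (v w)) h0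
      exact ⟨_, hx⟩
  choose μ hμ using hμ
  have hn' : ∀ i : ℕ, ∃ n : ℕ, B ≤ μ i + n * v (aeval t W) + i * A₀ := by
    intro i
    obtain ⟨n, hn⟩ := exists_nat_gt ((B - μ i - i * A₀) / v (aeval t W))
    rw [div_lt_iff₀ hw'] at hn
    exact ⟨n, by linarith⟩
  choose n₁ hn₁ using hn'
  set N := (∑ i ∈ Finset.range q, n₁ i) + (∑ i ∈ Finset.range q, ∑ x ∈ terms (P i), x.2) +
    2 * (q * Mb) + 3 with hN
  have hN1 : ∀ i < q, n₁ i ≤ N := fun i hi => by
    have h1 : n₁ i ≤ ∑ i ∈ Finset.range q, n₁ i :=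
      Finset.single_le_sum (f := n₁) (fun _ _ => Nat.zero_le _) (Finset.mem_range.2 hi)
    omega
  have hN2 : ∀ i < q, ∀ x ∈ terms (P i), x.2 + 2 < N := fun i hi x hx => by
    have h1 : ∑ x ∈ terms (P i), x.2 ≤ ∑ i ∈ Finset.range q, ∑ x ∈ terms (P i), x.2 :=
      Finset.single_le_sum (f := fun i => ∑ x ∈ terms (P i), x.2) (fun _ _ => Nat.zero_le _)
        (Finset.mem_range.2 hi)
    have h2 : x.2 ≤ ∑ x ∈ terms (P i), x.2 :=
      Finset.single_le_sum (f := fun x : ℝ × ℕ => x.2) (fun _ _ => Nat.zero_le _) hx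
    omega
  have hNq : q ≤ N := by
    have h1 : q ≤ q * Mb := Nat.le_mul_of_pos_right _ hMb
    omega
  choose R hR using fun i => exists_apx hc hW0 hW1 N i
  have hnA : nA ≤ 1 := by rcases hr.typ.2 with h1 | h1 <;> omega
  have hixP : ∀ i < q, P i ≠ 0 → Ix p i := fun i hi h0 => by
    by_contra h1
    exact h0 (hr.ix i hi h1)
  have hSS : SS p q τ Q j₀ v G M w G' M' t m j c b W lam nA nA' e r P N R Mb :=
    ⟨hsd, hprm, hQ, hj, hr.typ.1, hnA, hje, hty, hr.inP, hr.npd, hixP, hR, by omega, hN2, hMb⟩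
  -- the unit
  obtain ⟨Q₁, hQ₁⟩ := id hpQ
  have htF : t ∈ F := by
    rw [hT.t_eq]
    exact mul_mem (pow_mem hr.frm.w_mem _) (inv_mem (hr.frm.mon_mem hT.mem))
  set u := t ^ (-((Q₁ : ℤ) * r)) with hu
  have hup : u ^ p = t ^ (-((p ^ j₀ : ℕ) * r : ℤ)) := by
    rw [hu, ← zpow_natCast, ← zpow_mul, hQ₁]
    congr 1
    push_cast
    ring
  have hlam' : lam + nA * v w ∈ G' := by
    have h1 := hT.mem' hr.typ.1 (nA : ℤ)
    exact_mod_cast h1
  have hfin : Rp p q v F K a s D A₀ (EC k v G' M' (aeval t W) Z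
      (fun i => wM B A₀ (v (aeval t W)) i ∩
        wF q B A₀ (trP p G' (v w) j ((p ^ j₀ : ℕ) * r) R P) i)) G' M'
        (aeval t W) Z (trP p G' (v w) j ((p ^ j₀ : ℕ) * r) R P) (lam + nA * v w) nA' := by
    refine hr.trans (u := u) hprm.hpq hf' (zpow_mem htF _) (zpow_ne_zero _ ht0)
      (by rw [hu, v.map_zpow ht0, hT.t_val, mul_zero]) ?_ ⟨hlam', typ'⟩ ?_ ?_ ?_ ?_ ?_ ?_
    · intro f hf
      rw [hup]
      exact EC.mono (fun i => Set.subset_inter (wC_le_wM hw'.le i) (wC_le_wF _ i))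
        (EC.step hsd _ hf)
    · intro i hi
      unfold trP
      split_ifs
      · exact (hsd.inP_tr _ (hr.inP i hi) R).rst _
      · exact hsd.inP_tr _ (hr.inP i hi) R
    · intro i hi hpi
      exact trP_npd hpi
    · intro i hi hix
      exact trP_zero (hr.ix i hi hix)
    · intro i hi
      refine trP_ct fun x hx => ((hr.low i hi).terms hx).trans ?_
      unfold vm
      have h1 : 0 ≤ (x.2 : ℝ) * v w := mul_nonneg (Nat.cast_nonneg _) hr.frm.wpos.le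
      linarith
    · intro i hi
      have h1 : (evP M w (P i) * t ^ (-((p ^ j₀ : ℕ) * r : ℤ)) -
          evP M' (aeval t W) (tr (v w) (fun g n => j g n - (p ^ j₀ : ℕ) * r) R (P i))) * Z ^ i ∈
          EC k v G' M' (aeval t W) Z (fun i => wM B A₀ (v (aeval t W)) i ∩
            wF q B A₀ (trP p G' (v w) j ((p ^ j₀ : ℕ) * r) R P) i) := by
        refine EC.trunc hsd ((p ^ j₀ : ℕ) * r) hR (hr.inP i hi) i fun x hx n hNn => ⟨?_, ?_⟩
        · show B ≤ vm (v w) x + n * v (aeval t W) + i * A₀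
          have h2 : (n₁ i : ℝ) ≤ n := by exact_mod_cast (hN1 i hi).trans hNn
          have h3 : (n₁ i : ℝ) * v (aeval t W) ≤ n * v (aeval t W) :=
            mul_le_mul_of_nonneg_right h2 hw'.le
          have h4 := hn₁ i
          have h5 := hμ i x hx
          linarith
        · exact Or.inr ⟨hi, hNq.trans hNn, fun L hL => hL _ (hSS.ne hi ⟨x, hx, rfl⟩)⟩
      rw [hup]
      by_cases hpi : p ∣ i
      · obtain ⟨S, hS1, hS2, -⟩ := exists_rm (w := aeval t W) p hT.ms'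
          (tr (v w) (fun g n => j g n - (p ^ j₀ : ℕ) * r) R (P i))
        refine ⟨_, hf'.evP_mem hS1, ?_⟩
        rw [if_pos hpi]
        unfold trP
        rw [if_pos hpi, ← hS2]
        exact h1
      · refine ⟨0, zero_mem _, ?_⟩
        rw [if_neg hpi, zero_add]
        unfold trP
        rw [if_neg hpi]
        exact h1
    · exact ⟨g₀, hg₀, by rw [hup]; exact htop⟩
  refine ⟨G', M', t, m, j, c, b, W, nA', e, r, N, R, hSS,
    hfin.mono (EC.mono fun i => Set.inter_subset_left),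
    hfin.mono (EC.mono fun i => Set.inter_subset_right), fun hw => hT.two_le hw, ?_⟩
  intro hwG hwp hnA1
  rcases typ' with h1 | ⟨-, h1⟩
  · exact h1.1
  · exfalso
    have hGG : G' = G := by
      rw [hT.eqG]
      exact sup_eq_left.2 ((AddSubgroup.zmultiples_le_of_mem hwG))
    rw [hGG, hnA1, Nat.cast_one, one_mul] at h1
    rcases hr.typ.2 with ⟨h2, -⟩ | ⟨-, d, hd, h2⟩
    · omega
    · obtain ⟨d', hd', h3⟩ := h1
      exact hwp ⟨d' - d, G.sub_mem hd' hd, by rw [mul_sub, ← h3, ← h2]; ring⟩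

end char

end Pool.Agent.TWN
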