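import Pool.Agent.Lib.TW_NFG.CH
import Pool.Agent.Lib.TW_NFG.P1

/-!
# NFG, `s = 2`: change of the centre of `Z`

* `sh c g₀ n₀ P`: the product of `P` and the monomial `c M(g₀) w ^ n₀`;
* `rc q c y n₀ P`: the family `i ↦ ∑ (i ≤ l ≤ q) C(l, i) (c M(y) w ^ n₀) ^ (l - i) P_l`;
* `Rp.shift`: the representation at `Z - c M(y) w ^ n₀`.
-/

set_option autoImplicit false

open Polynomial

namespace Pool.Agent.TWN

open Pool.Agent.H15JM (RVal)
open Pool.Agent.TWM (MS TL cadj VG)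

universe u

variable {k Ω : Type u} [Field k] [Field Ω] [Algebra k Ω] {v : RVal Ω} {G G' : AddSubgroup ℝ}
  {M M' : ℝ → Ω} {w t : Ω}

/-- The product of `P` and the monomial `c M(g₀) w ^ n₀`. -/
noncomputable def sh (c : k) (g₀ : ℝ) (n₀ : ℕ) (P : ℝ →₀ k[X]) : ℝ →₀ k[X] :=
  Finsupp.equivMapDomain (Equiv.addRight g₀) (P.mapRange (fun f => C c * X ^ n₀ * f) (mul_zero _))

theorem sh_apply (c : k) (g₀ : ℝ) (n₀ : ℕ) (P : ℝ →₀ k[X]) (g : ℝ) :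
    sh c g₀ n₀ P g = C c * X ^ n₀ * P (g - g₀) := by
  rw [sh, Finsupp.equivMapDomain_apply, Finsupp.mapRange_apply]
  rfl

theorem coeff_sh (c : k) (g₀ : ℝ) (n₀ : ℕ) (P : ℝ →₀ k[X]) (g : ℝ) (n : ℕ) :
    (sh c g₀ n₀ P g).coeff (n + n₀) = c * (P (g - g₀)).coeff n := by
  rw [sh_apply, mul_assoc, coeff_C_mul, coeff_X_pow_mul]

theorem coeff_sh_of_lt (c : k) (g₀ : ℝ) {n₀ n : ℕ} (hn : n < n₀) (P : ℝ →₀ k[X]) (g : ℝ) :
    (sh c g₀ n₀ P g).coeff n = 0 := by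
  rw [sh_apply, mul_assoc, coeff_C_mul, coeff_X_pow_mul', if_neg (by omega), mul_zero]

theorem mem_terms_sh {c : k} {g₀ : ℝ} {n₀ : ℕ} {P : ℝ →₀ k[X]} {x : ℝ × ℕ}
    (hx : x ∈ terms (sh c g₀ n₀ P)) :
    c ≠ 0 ∧ ∃ y ∈ terms P, x.1 = y.1 + g₀ ∧ x.2 = y.2 + n₀ := by
  rw [mem_terms] at hx
  by_cases h : x.2 < n₀
  · exact absurd (coeff_sh_of_lt c g₀ h P x.1) hx
  · obtain ⟨n, hn⟩ : ∃ n, x.2 = n + n₀ := ⟨x.2 - n₀, by omega⟩
    rw [hn, coeff_sh] at hx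
    exact ⟨left_ne_zero_of_mul hx, (x.1 - g₀, n), mem_terms.2 (right_ne_zero_of_mul hx),
      by ring, hn⟩

theorem evP_sh (hM : MS v G M) {c : k} {g₀ : ℝ} (hg₀ : g₀ ∈ G) {n₀ : ℕ} {P : ℝ →₀ k[X]}
    (hP : InP G P) : evP M w (sh c g₀ n₀ P) = algebraMap k Ω c * M g₀ * w ^ n₀ * evP M w P := by
  classical
  rw [sh, Finsupp.equivMapDomain_eq_mapDomain, evP, Finsupp.sum_mapDomain_index]
  · rw [Finsupp.sum_mapRange_index]
    · rw [evP_eq_sum, Finset.mul_sum, Finsupp.sum]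
      refine Finset.sum_congr rfl fun g hg => ?_
      rw [Finsupp.mem_support_iff] at hg
      show M (g + g₀) * _ = _
      rw [hM.mul g (hP g hg) g₀ hg₀, map_mul, map_mul, aeval_C, map_pow, aeval_X]
      ring
    · intro g
      rw [map_zero, mul_zero]
  · intro g
    rw [map_zero, mul_zero]
  · intro g a b
    rw [map_add, mul_add]

theorem InP.sh {c : k} {g₀ : ℝ} (hg₀ : g₀ ∈ G) {n₀ : ℕ} {P : ℝ →₀ k[X]} (hP : InP G P) :
    InP G (sh c g₀ n₀ P) := by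
  refine InP.of_terms fun x hx => ?_
  obtain ⟨-, y, hy, h1, -⟩ := mem_terms_sh hx
  rw [h1]
  exact G.add_mem (hP.terms hy) hg₀

theorem sh_zero (c : k) (g₀ : ℝ) (n₀ : ℕ) : sh c g₀ n₀ (0 : ℝ →₀ k[X]) = 0 := by
  ext g n
  rw [sh_apply]
  simp

theorem zero_sh (g₀ : ℝ) (n₀ : ℕ) (P : ℝ →₀ k[X]) : sh 0 g₀ n₀ P = 0 := by
  ext g n
  rw [sh_apply]
  simp

theorem sh_one (P : ℝ →₀ k[X]) : sh 1 0 0 P = P := by
  ext g n
  rw [sh_apply]
  simp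

/-- The monomials of a sum. -/
theorem mem_terms_sum {ι : Type*} {s : Finset ι} {P : ι → ℝ →₀ k[X]} {x : ℝ × ℕ}
    (hx : x ∈ terms (∑ i ∈ s, P i)) : ∃ i ∈ s, x ∈ terms (P i) := by
  rw [mem_terms, Finsupp.finset_sum_apply, finsetSum_coeff] at hx
  obtain ⟨i, hi, h⟩ := Finset.exists_ne_zero_of_sum_ne_zero hx
  exact ⟨i, hi, mem_terms.2 h⟩

/-- The family at the new centre. -/
noncomputable def rc (q : ℕ) (c : k) (y : ℝ) (n₀ : ℕ) (P : ℕ → ℝ →₀ k[X]) (i : ℕ) : ℝ →₀ k[X] :=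
  ∑ l ∈ Finset.Icc i q, sh ((l.choose i : k) * c ^ (l - i)) (((l : ℝ) - i) * y) ((l - i) * n₀) (P l)

theorem evP_rc (hM : MS v G M) {q : ℕ} {c : k} {y : ℝ} (hy : y ∈ G) {n₀ : ℕ}
    {P : ℕ → ℝ →₀ k[X]} (hP : ∀ l ≤ q, InP G (P l)) {i : ℕ} :
    evP M w (rc q c y n₀ P i) = ∑ l ∈ Finset.Icc i q, (l.choose i : Ω) *
      (algebraMap k Ω c * M y * w ^ n₀) ^ (l - i) * evP M w (P l) := by
  unfold rc
  rw [evP_sum]
  refine Finset.sum_congr rfl fun l hl => ?_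
  rw [Finset.mem_Icc] at hl
  have h1 : ((l : ℝ) - i) * y = ((l - i : ℕ) : ℝ) * y := by
    rw [Nat.cast_sub hl.1]
  rw [h1, evP_sh hM (by rw [← nsmul_eq_mul]; exact G.nsmul_mem hy _) (hP l hl.2), hM.pow hy,
    map_mul, map_natCast, map_pow, mul_pow, mul_pow, ← pow_mul, mul_comm n₀]
  ring

/-- The expansion at the new centre. -/
theorem sum_rc (hM : MS v G M) {q : ℕ} {c : k} {y : ℝ} (hy : y ∈ G) {n₀ : ℕ}
    {P : ℕ → ℝ →₀ k[X]} (hP : ∀ l ≤ q, InP G (P l)) (Z : Ω) :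
    ∑ l ∈ Finset.range (q + 1), evP M w (P l) * Z ^ l =
      ∑ i ∈ Finset.range (q + 1), evP M w (rc q c y n₀ P i) *
        (Z - algebraMap k Ω c * M y * w ^ n₀) ^ i := by
  set m : Ω := algebraMap k Ω c * M y * w ^ n₀ with hm
  have h1 : ∀ l ∈ Finset.range (q + 1), evP M w (P l) * Z ^ l =
      ∑ i ∈ Finset.range (l + 1), (l.choose i : Ω) * m ^ (l - i) * evP M w (P l) * (Z - m) ^ i := by
    intro l _
    conv_lhs => rw [show Z = (Z - m) + m by ring, add_pow, Finset.mul_sum]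
    refine Finset.sum_congr rfl fun i _ => ?_
    ring
  rw [Finset.sum_congr rfl h1]
  have h2 : ∀ i ∈ Finset.range (q + 1), evP M w (rc q c y n₀ P i) * (Z - m) ^ i =
      ∑ l ∈ Finset.Icc i q, (l.choose i : Ω) * m ^ (l - i) * evP M w (P l) * (Z - m) ^ i := by
    intro i _
    rw [evP_rc hM hy hP, Finset.sum_mul]
  rw [Finset.sum_congr rfl h2]
  refine Finset.sum_comm' fun l i => ?_
  rw [Finset.mem_range, Finset.mem_range, Finset.mem_Icc, Finset.mem_range]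
  omega

theorem InP.rc {q : ℕ} {c : k} {y : ℝ} (hy : y ∈ G) {n₀ : ℕ} {P : ℕ → ℝ →₀ k[X]}
    (hP : ∀ l ≤ q, InP G (P l)) (i : ℕ) : InP G (rc q c y n₀ P i) := by
  refine InP.sum fun l hl => ?_
  rw [Finset.mem_Icc] at hl
  refine (hP l hl.2).sh ?_
  have h1 : ((l : ℝ) - i) * y = ((l - i : ℕ) : ℝ) * y := by
    rw [Nat.cast_sub hl.1]
  rw [h1, ← nsmul_eq_mul]
  exact G.nsmul_mem hy _

/-- The monomials at the new centre. -/
theorem mem_terms_rc {q : ℕ} {c : k} {y : ℝ} {n₀ : ℕ} {P : ℕ → ℝ →₀ k[X]} {i : ℕ} {x : ℝ × ℕ}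
    (hx : x ∈ terms (rc q c y n₀ P i)) :
    ∃ l, i ≤ l ∧ l ≤ q ∧ (l.choose i : k) ≠ 0 ∧
      ∃ x' ∈ terms (P l), x.1 = x'.1 + ((l : ℝ) - i) * y ∧ x.2 = x'.2 + (l - i) * n₀ := by
  obtain ⟨l, hl, hx⟩ := mem_terms_sum hx
  rw [Finset.mem_Icc] at hl
  obtain ⟨h1, x', hx', h2, h3⟩ := mem_terms_sh hx
  exact ⟨l, hl.1, hl.2, left_ne_zero_of_mul h1, x', hx', h2, h3⟩

/-- The coefficients at the new centre, when the other sources do not contribute. -/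
theorem coeff_rc_of {q : ℕ} {c : k} {y : ℝ} {n₀ : ℕ} {P : ℕ → ℝ →₀ k[X]} {i : ℕ} (hi : i ≤ q)
    {g : ℝ} {n : ℕ} (h : ∀ l, i < l → l ≤ q → (l.choose i : k) ≠ 0 → ∀ x' ∈ terms (P l),
      ¬ (g = x'.1 + ((l : ℝ) - i) * y ∧ n = x'.2 + (l - i) * n₀)) :
    (rc q c y n₀ P i g).coeff n = (P i g).coeff n := by
  unfold rc
  rw [Finsupp.finset_sum_apply, finsetSum_coeff, Finset.sum_eq_single i]
  · rw [Nat.choose_self, Nat.cast_one, one_mul, Nat.sub_self, pow_zero, sub_self, zero_mul,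
      Nat.zero_mul, sh_one]
  · intro l hl hli
    rw [Finset.mem_Icc] at hl
    by_contra hcon
    obtain ⟨h1, x', hx', h2, h3⟩ := mem_terms_sh (x := (g, n)) (mem_terms.2 hcon)
    exact h l (by omega) hl.2 (left_ne_zero_of_mul h1) x' hx' ⟨h2, h3⟩
  · intro h1
    exact absurd (Finset.mem_Icc.2 ⟨le_rfl, hi⟩) h1

section char

variable (p : ℕ) [hp : Fact p.Prime] [CharP k p]

/-- `Sr p i l`: the index `l` is a source of `i`. -/
def Sr (p i l : ℕ) : Prop := i < l ∧ ¬ p ∣ l.choose i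

theorem Sr.trans {p : ℕ} (hp : p.Prime) {i l m : ℕ} (h1 : Sr p i l) (h2 : Sr p l m) :
    Sr p i m := by
  refine ⟨h1.1.trans h2.1, fun h => ?_⟩
  have h3 := Nat.choose_mul (n := m) (k := l) (s := i) h1.1.le
  have h4 : p ∣ m.choose l * l.choose i := by
    rw [h3]
    exact h.mul_right _
  rcases (hp.dvd_mul).1 h4 with h5 | h5
  · exact h2.2 h5
  · exact h1.2 h5

omit hp in
theorem sr_of_cast {i l : ℕ} (hil : i < l) (h : (l.choose i : k) ≠ 0) : Sr p i l :=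
  ⟨hil, fun h' => h ((CharP.cast_eq_zero_iff k p _).2 h')⟩

/-- A source of an index which is not a multiple of `p` is not a multiple of `p`. -/
theorem Sr.dvd {p : ℕ} (hp : p.Prime) {i l : ℕ} (h : Sr p i l) (hl : p ∣ l) : p ∣ i := by
  obtain ⟨hil, h⟩ := h
  rcases i with _ | i
  · exact dvd_zero _
  · obtain ⟨l, rfl⟩ : ∃ l', l = l' + 1 := ⟨l - 1, by omega⟩
    have h1 := Nat.add_one_mul_choose_eq l i
    have h2 : p ∣ (l + 1).choose (i + 1) * (i + 1) := by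
      rw [← h1]
      exact hl.mul_right _
    rcases (hp.dvd_mul).1 h2 with h3 | h3
    · exact absurd h3 h
    · exact h3

end char

end Pool.Agent.TWN
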