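import Pool.Agent.Lib.TW_NFG.TL

/-!
# NFG, `s = 2`: the combinatorics of a step

* `Prm`: the parameters `q = τ + Q`; `Own`, `Mk`: the markers; `TM`: the `T`-edge;
* `Mk.rho`: the growth of the `T`-scale; `Mk.bound`: bounds for the exponents on a line;
* `Mk.next`: the new scale and the new contents.
-/

set_option autoImplicit false

open Polynomial

namespace Pool.Agent.TWN

universe u

variable {k : Type u} [Field k]

/-- The parameters. -/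
structure Prm (p q τ Q : ℕ) : Prop where
  pp : p.Prime
  hq : q = τ + Q
  hpQ : p ∣ Q
  hQ : 2 ≤ Q
  hpq : p ∣ q
  sq : Sr p τ q
  nsq : ∀ i, τ < i → i < q → ¬ Sr p i q

/-- The index `i` is a marker. -/
structure Own (p q : ℕ) (lam A : ℝ) (Mb : ℕ) (Lam : ℕ → ℝ) (P : ℕ → ℝ →₀ k[X]) (i : ℕ) :
    Prop where
  lt : i < q
  ix : Ix p i
  ex : ∃ n, n + 1 ≤ (q - i) * Mb ∧ (P i (Lam i)).coeff n ≠ 0
  fr : ∀ l, Sr p i l → l < q → Ix p l → Lam i < Lam l + ((l : ℝ) - i) * A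
  frq : Sr p i q → Lam i < lam + ((q : ℝ) - i) * A

/-- The markers. -/
structure Mk (p q τ Q : ℕ) (lam A s : ℝ) (Mb : ℕ) (Lam : ℕ → ℝ) (P : ℕ → ℝ →₀ k[X]) : Prop where
  ct : ∀ i < q, Ct (Lam i) (P i)
  tau : Lam τ = lam + Q * A
  le : ∀ i l, Sr p i l → l < q → Ix p i → Ix p l → Lam i ≤ Lam l + ((l : ℝ) - i) * A
  leq : ∀ i < q, Sr p i q → Lam i ≤ lam + ((q : ℝ) - i) * A
  mark : ∀ i < q, Ix p i → i ≠ τ → Own p q lam A Mb Lam P i ∨
    (∃ l, Sr p i l ∧ l ≠ τ ∧ Own p q lam A Mb Lam P l ∧ Lam i = Lam l + ((l : ℝ) - i) * A) ∨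
    (Sr p i q ∧ Lam i = lam + ((q : ℝ) - i) * A)
  top : ∀ i, τ < i → i < q → Ix p i → lam + ((q : ℝ) - i) * A ≤ Lam i
  cap : A ≤ s

/-- The `T`-edge. -/
def TM (p q τ Q : ℕ) (G : AddSubgroup ℝ) (lam : ℝ) (nA : ℕ) (A s : ℝ) (Mb : ℕ) (Lam : ℕ → ℝ)
    (P : ℕ → ℝ →₀ k[X]) (ρ : ℝ) : Prop :=
  s - A ≤ ρ ∨ (∃ i, τ < i ∧ i < q ∧ Ix p i ∧ Lam i = lam + ((q : ℝ) - i) * A) ∨
    ((∀ i, τ < i → i < q → Ix p i → lam + ((q : ℝ) - i) * A < Lam i) ∧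
      ∃ e, e + 1 ≤ Q * Mb ∧ (P τ (lam + Q * A)).coeff e ≠ 0 ∧ ¬ Cl Q G lam nA (lam + Q * A, e))

/-- The lowest lines. -/
def LD (β : ℝ) (q : ℕ) (P : ℕ → ℝ →₀ k[X]) (Phi : ℕ → ℝ) : Prop :=
  ∀ i < q, P i ≠ 0 → (∀ x ∈ terms (P i), Phi i ≤ vm β x) ∧ ∃ x ∈ terms (P i), vm β x = Phi i

theorem terms_nonempty {P : ℝ →₀ k[X]} (h : P ≠ 0) : (terms P).Nonempty := by
  obtain ⟨g, hg⟩ := Finsupp.ne_iff.1 h
  obtain ⟨n, hn⟩ : ∃ n, (P g).coeff n ≠ 0 := by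
    by_contra hcon
    push Not at hcon
    exact hg (by ext n; rw [hcon n]; simp)
  exact ⟨(g, n), mem_terms.2 hn⟩

theorem exists_LD (β : ℝ) (q : ℕ) (P : ℕ → ℝ →₀ k[X]) : ∃ Phi, LD β q P Phi := by
  have h : ∀ i, ∃ ν : ℝ, P i ≠ 0 → (∀ x ∈ terms (P i), ν ≤ vm β x) ∧
      ∃ x ∈ terms (P i), vm β x = ν := by
    intro i
    by_cases hi : P i = 0
    · exact ⟨0, fun h => absurd hi h⟩
    · obtain ⟨x, hx, hmin⟩ := (terms (P i)).exists_min_image (vm β) (terms_nonempty hi)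
      exact ⟨vm β x, fun _ => ⟨hmin, x, hx, rfl⟩⟩
  choose Phi hPhi using h
  exact ⟨Phi, fun i _ hi => hPhi i hi⟩

theorem ne_zero_of_coeff {P : ℝ →₀ k[X]} {g : ℝ} {n : ℕ} (h : (P g).coeff n ≠ 0) : P ≠ 0 := by
  rintro rfl
  exact h (by simp)

/-- A marker bounds the lowest line. -/
theorem LD.le {β : ℝ} {q : ℕ} {P : ℕ → ℝ →₀ k[X]} {Phi : ℕ → ℝ} (hL : LD β q P Phi) {i : ℕ}
    (hi : i < q) {g : ℝ} {n : ℕ} (h : ((P i) g).coeff n ≠ 0) : Phi i ≤ g + n * β :=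
  (hL i hi (ne_zero_of_coeff h)).1 (g, n) (mem_terms.2 h)

section

variable {p q τ Q : ℕ} {G : AddSubgroup ℝ} {lam : ℝ} {nA : ℕ} {A A' s β : ℝ} {Mb : ℕ}
  {Lam : ℕ → ℝ} {P : ℕ → ℝ →₀ k[X]} {Phi : ℕ → ℝ}

/-- The growth of the `T`-scale. -/
theorem Mk.rho (hp : Prm p q τ Q) (h : Mk p q τ Q lam A s Mb Lam P) (hβ : 0 < β) (hnA : nA ≤ 1)
    (hMb : 1 ≤ Mb) (hT : TM p q τ Q G lam nA A s Mb Lam P (((Mb : ℝ) - 1) * β))
    (hL : LD β q P Phi) (hA's : A' ≤ s)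
    (hA' : ∀ i, τ ≤ i → i < q → P i ≠ 0 → lam + nA * β + ((q : ℝ) - i) * A' ≤ Phi i) :
    ∀ i ≤ τ, nA * β + ((q : ℝ) - i) * (A' - A) ≤ (((q : ℝ) - i) * Mb - 1) * β := by
  have hnA' : (nA : ℝ) ≤ 1 := by exact_mod_cast hnA
  have hq : (q : ℝ) = τ + Q := by rw [hp.hq]; push_cast; ring
  have hQ : (2 : ℝ) ≤ Q := by exact_mod_cast hp.hQ
  have hMb' : (1 : ℝ) ≤ Mb := by exact_mod_cast hMb
  -- it is enough to have the inequality at one index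
  have key : ∀ l : ℝ, τ ≤ l → l < q →
      nA * β + ((q : ℝ) - l) * (A' - A) ≤ (((q : ℝ) - l) * Mb - 1) * β →
      ∀ i ≤ τ, nA * β + ((q : ℝ) - i) * (A' - A) ≤ (((q : ℝ) - i) * Mb - 1) * β := by
    intro l hl hlq h1 i hi
    have hi' : (i : ℝ) ≤ τ := by exact_mod_cast hi
    have h2 : 0 < (q : ℝ) - l := by linarith
    have h3 : 0 < Mb * β - (A' - A) := by
      by_contra hcon
      push Not at hcon
      have h4 : ((q : ℝ) - l) * (Mb * β - (A' - A)) ≤ 0 :=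
        mul_nonpos_of_nonneg_of_nonpos h2.le hcon
      have h5 : (0 : ℝ) ≤ nA * β := by positivity
      nlinarith
    have h4 : 0 ≤ (l - i) * (Mb * β - (A' - A)) := mul_nonneg (by linarith) h3.le
    nlinarith
  rcases hT with hT | ⟨i₀, h1, h2, h3, h4⟩ | ⟨h1, e, h2, h3, -⟩
  · intro i hi
    have hi' : (i : ℝ) ≤ τ := by exact_mod_cast hi
    have h5 : A' - A ≤ (Mb - 1) * β := by linarith
    have h6 : (2 : ℝ) ≤ q - i := by linarith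
    have h7 : ((q : ℝ) - i) * (A' - A) ≤ (q - i) * ((Mb - 1) * β) :=
      mul_le_mul_of_nonneg_left h5 (by linarith)
    nlinarith
  · -- a marker on the edge
    obtain ⟨l, hl1, hl2, hl3, hl4⟩ : ∃ l, τ < l ∧ l < q ∧ Own p q lam A Mb Lam P l ∧
        Lam l = lam + ((q : ℝ) - l) * A := by
      rcases h.mark i₀ h2 h3 (by omega) with h5 | ⟨l, h5, h6, h7, h8⟩ | ⟨h5, -⟩
      · exact ⟨i₀, h1, h2, h5, h4⟩
      · refine ⟨l, h1.trans h5.1, h7.lt, h7, ?_⟩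
        rw [h4] at h8
        linarith
      · exact absurd h5 (hp.nsq i₀ h1 h2)
    obtain ⟨n, hn1, hn2⟩ := hl3.ex
    have h5 := hL.le hl2 hn2
    have h6 := hA' l hl1.le hl2 (ne_zero_of_coeff hn2)
    have hn1' : (n : ℝ) + 1 ≤ (q - l) * Mb := by
      have h7 : ((n + 1 : ℕ) : ℝ) ≤ (((q - l) * Mb : ℕ) : ℝ) := by exact_mod_cast hn1
      push_cast [Nat.cast_sub hl2.le] at h7
      exact h7
    have hl1' : (τ : ℝ) ≤ l := by exact_mod_cast hl1.le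
    have hl2' : (l : ℝ) < q := by exact_mod_cast hl2
    refine key l hl1' hl2' ?_
    rw [hl4] at h5
    nlinarith
  · have hτq : τ < q := by have := hp.hq; have := hp.hQ; omega
    have h5 := hL.le hτq h3
    have h6 := hA' τ le_rfl hτq (ne_zero_of_coeff h3)
    have h2' : (e : ℝ) + 1 ≤ Q * Mb := by exact_mod_cast h2
    have hτq' : (τ : ℝ) < q := by exact_mod_cast hτq
    refine key τ le_rfl hτq' ?_
    rw [hq] at h6 ⊢
    nlinarith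

/-- The exponents on a line. -/
theorem Mk.bound (hp : Prm p q τ Q) (h : Mk p q τ Q lam A s Mb Lam P) (hβ : 0 < β)
    (hrho : ∀ i ≤ τ, nA * β + ((q : ℝ) - i) * (A' - A) ≤ (((q : ℝ) - i) * Mb - 1) * β)
    (hL : LD β q P Phi) {i : ℕ} (hi : i < q) (hix : Ix p i) (hiτ : i ≠ τ) {ν : ℝ}
    (h0 : P i ≠ 0 → Phi i ≤ ν → ν ≤ Phi i)
    (h1 : ∀ l, Sr p i l → l < q → Ix p l → l ≠ τ → P l ≠ 0 → ν ≤ Phi l + ((l : ℝ) - i) * A')
    (h2 : Sr p i q → ν ≤ lam + nA * β + ((q : ℝ) - i) * A') {x : ℝ × ℕ} (hx : x ∈ terms (P i))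
    (hxν : vm β x = ν) : x.2 + 1 ≤ (q - i) * Mb := by
  have hx1 := (h.ct i hi).terms hx
  have hPi : P i ≠ 0 := ne_zero_of_coeff (mem_terms.1 hx)
  have hx2 : Phi i ≤ ν := by
    rw [← hxν]
    exact (hL i hi hPi).1 x hx
  have hx3 : x.2 * β = ν - x.1 := by
    unfold vm at hxν
    linarith
  have hiq : (i : ℝ) < q := by exact_mod_cast hi
  have hq : (q : ℝ) = τ + Q := by rw [hp.hq]; push_cast; ring
  have hQ : (2 : ℝ) ≤ Q := by exact_mod_cast hp.hQ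
  -- it is enough to bound `x.2 * β`
  have key : ∀ c : ℝ, x.2 * β ≤ c * β → c + 1 ≤ (q - i) * Mb → x.2 + 1 ≤ (q - i) * Mb := by
    intro c hc1 hc2
    have h3 : (x.2 : ℝ) ≤ c := le_of_mul_le_mul_right hc1 hβ
    have h4 : ((x.2 + 1 : ℕ) : ℝ) ≤ (((q - i) * Mb : ℕ) : ℝ) := by
      push_cast [Nat.cast_sub hi.le]
      linarith
    exact_mod_cast h4
  rcases h.mark i hi hix hiτ with h3 | ⟨l, h3, h4, h5, h6⟩ | ⟨h3, h4⟩
  · obtain ⟨n, hn1, hn2⟩ := h3.ex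
    have h4 := hL.le hi hn2
    have hn1' : (n : ℝ) + 1 ≤ (q - i) * Mb := by
      have h7 : ((n + 1 : ℕ) : ℝ) ≤ (((q - i) * Mb : ℕ) : ℝ) := by exact_mod_cast hn1
      push_cast [Nat.cast_sub hi.le] at h7
      exact h7
    refine key n ?_ hn1'
    have := h0 hPi hx2
    linarith
  · obtain ⟨n, hn1, hn2⟩ := h5.ex
    have h7 := hL.le h5.lt hn2
    have h8 := h1 l h3 h5.lt h5.ix h4 (ne_zero_of_coeff hn2)
    have hn1' : (n : ℝ) + 1 ≤ (q - l) * Mb := by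
      have h7 : ((n + 1 : ℕ) : ℝ) ≤ (((q - l) * Mb : ℕ) : ℝ) := by exact_mod_cast hn1
      push_cast [Nat.cast_sub h5.lt.le] at h7
      exact h7
    have hκ : A' - A ≤ Mb * β := by
      have h9 := hrho τ le_rfl
      have h10 : (0 : ℝ) ≤ nA * β := by positivity
      rw [hq] at h9
      have h11 : (Q : ℝ) * (A' - A) ≤ Q * (Mb * β) := by nlinarith
      exact le_of_mul_le_mul_left h11 (by linarith)
    have hil : (i : ℝ) < l := by exact_mod_cast h3.1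
    refine key (n + ((l : ℝ) - i) * Mb) ?_ (by linarith)
    have h12 : ((l : ℝ) - i) * (A' - A) ≤ (l - i) * (Mb * β) :=
      mul_le_mul_of_nonneg_left hκ (by linarith)
    nlinarith
  · have hiτ' : i ≤ τ := by
      by_contra hcon
      exact hp.nsq i (by omega) hi h3
    have h5 := h2 h3
    have h6 := hrho i hiτ'
    refine key (((q : ℝ) - i) * Mb - 1) ?_ (by linarith)
    rw [h4] at hx1
    nlinarith

/-- The exponents on the line of the index `τ`. -/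
theorem Mk.bound_tau (hp : Prm p q τ Q) (h : Mk p q τ Q lam A s Mb Lam P) (hβ : 0 < β)
    (hrho : ∀ i ≤ τ, nA * β + ((q : ℝ) - i) * (A' - A) ≤ (((q : ℝ) - i) * Mb - 1) * β)
    {ν : ℝ} (hν : ν ≤ lam + nA * β + Q * A') {x : ℝ × ℕ} (hx : x ∈ terms (P τ))
    (hxν : vm β x = ν) : x.2 + 1 ≤ Q * Mb := by
  have hτq : τ < q := by have := hp.hq; have := hp.hQ; omega
  have hx1 := (h.ct τ hτq).terms hx
  rw [h.tau] at hx1
  have hq : (q : ℝ) = τ + Q := by rw [hp.hq]; push_cast; ring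
  have h1 := hrho τ le_rfl
  rw [hq] at h1
  unfold vm at hxν
  have h2 : (x.2 : ℝ) * β ≤ (Q * Mb - 1) * β := by nlinarith
  have h3 := le_of_mul_le_mul_right h2 hβ
  have h4 : ((x.2 + 1 : ℕ) : ℝ) ≤ ((Q * Mb : ℕ) : ℝ) := by
    push_cast
    linarith
  exact_mod_cast h4

end

end Pool.Agent.TWN
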