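import Pool.Agent.Lib.TW_NFG.SH

/-!
# NFG, `s = 2`: a step, index by index

`T = tr P` in the new coordinate, `P' = T` without `p`-th powers, `ν` a line of `P` with exponents
`≤ E`.

* `SD.ord`, `SD.exf`: functions; `SD.ordF`, `SD.exF`: modulo `p`-th powers;
* `Cl Q G lam nA x`: the monomial `x` is in the class of the top coefficient; `Ty`: the type of the
  step; `SD.exC`: the class; `SD.obs`: the obstruction.
-/

set_option autoImplicit false

open Polynomial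

namespace Pool.Agent.TWN

open Pool.Agent.H15JM (RVal)
open Pool.Agent.TWM (MS TL cadj VG)

universe u

variable {k Ω : Type u} [Field k] [Field Ω] [Algebra k Ω] {v : RVal Ω} {G G' : AddSubgroup ℝ}
  {M M' : ℝ → Ω} {w t : Ω} {m : ℕ} {j : ℝ → ℤ → ℤ} {c : k} {b : ℝ} {W : k[X]}

/-- The transformed polynomial has no monomials below the lowest line. -/
theorem tr_eq_zero {β : ℝ} {J : ℝ → ℤ → ℤ} {R : ℤ → k[X]} {P : ℝ →₀ k[X]} {ν : ℝ}
    (h : ∀ x ∈ terms P, vm β x ≠ ν) : tr β J R P ν = 0 := by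
  classical
  rw [tr_apply]
  refine Finset.sum_eq_zero fun x hx => ?_
  rw [Finset.mem_filter] at hx
  exact absurd hx.2 (h x hx.1)

theorem tr_zero {β : ℝ} {J : ℝ → ℤ → ℤ} {R : ℤ → k[X]} : tr β J R (0 : ℝ →₀ k[X]) = 0 := by
  ext ν n
  rw [tr_eq_zero]
  · rfl
  · intro x hx
    rw [mem_terms] at hx
    exact absurd rfl hx

namespace SD

theorem inP_tr (h : SD v G M w G' M' t m j c b W) (σ : ℤ) {P : ℝ →₀ k[X]} (hP : InP G P)
    (R : ℤ → k[X]) : InP G' (tr (v w) (fun g n => j g n - σ) R P) := by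
  refine InP.sum fun x hx => InP.single ?_ _
  have h2 := h.ts.mem' (hP.terms hx) (x.2 : ℤ)
  exact_mod_cast h2

/-- The order of the transformed leading coefficient. -/
theorem ord (h : SD v G M w G' M' t m j c b W) {σ : ℤ} {N : ℕ} {R : ℤ → k[X]}
    (hR : ∀ i, Apx c W N i (R i)) {P : ℝ →₀ k[X]} (hP : InP G P) {ν : ℝ} {E : ℕ}
    (hE : ∀ x ∈ terms P, vm (v w) x = ν → x.2 ≤ E) (hne : ∃ x ∈ terms P, vm (v w) x = ν)
    {n : ℕ} (hn : n ≤ N) (hd : X ^ n ∣ tr (v w) (fun g n => j g n - σ) R P ν) : n ≤ E / m := by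
  obtain ⟨K, hK⟩ := exists_K (terms P) (fun g n => j g n - σ) one_pos
  rw [one_mul] at hK
  have hK' : ∀ x ∈ terms P, vm (v w) x = ν → 0 ≤ j x.1 x.2 - σ + K := fun x hx _ => hK x hx
  obtain ⟨a, H, hH1, hH2, hH3⟩ := exists_line' h.ts σ hP hK' (l := 0) (e := E)
    (fun x hx hxν => ⟨Nat.zero_le _, hE x hx hxν⟩) hne
  rw [Nat.sub_zero] at hH2
  have hline := line_eq (c := c) (W := W) (N := N) (R := R) (β := v w) (j := fun g n => j g n - σ)
    (P := P) (ν := ν) (K := K) (fun x _ _ => hR _) hK'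
  rw [hH1] at hline
  exact (order_le h.cne hH3 (dvd_of_order (a := a) h.dvd hn hline hd)).trans hH2

/-- A small exponent. -/
theorem exf (h : SD v G M w G' M' t m j c b W) {σ : ℤ} {N : ℕ} {R : ℤ → k[X]}
    (hR : ∀ i, Apx c W N i (R i)) {P : ℝ →₀ k[X]} (hP : InP G P) {ν : ℝ} {E : ℕ} (hEN : E < N)
    (hE : ∀ x ∈ terms P, vm (v w) x = ν → x.2 ≤ E) (hne : ∃ x ∈ terms P, vm (v w) x = ν) :
    ∃ e, (tr (v w) (fun g n => j g n - σ) R P ν).coeff e ≠ 0 ∧ e ≤ E / m := by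
  set T := tr (v w) (fun g n => j g n - σ) R P with hT
  have hlt : E / m < N := lt_of_le_of_lt (Nat.div_le_self _ _) hEN
  have hf0 : T ν ≠ 0 := by
    intro h0
    have := h.ord hR hP hE hne (σ := σ) le_rfl (by rw [← hT, h0]; exact dvd_zero _)
    omega
  have hf1 : X ^ (T ν).natTrailingDegree ∣ T ν := by
    rw [X_pow_dvd_iff]
    intro d hd
    exact coeff_eq_zero_of_lt_natTrailingDegree hd
  refine ⟨(T ν).natTrailingDegree, trailingCoeff_nonzero_iff_nonzero.2 hf0, ?_⟩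
  refine h.ord hR hP hE hne (σ := σ) ?_ hf1
  by_contra hcon
  have := h.ord hR hP hE hne (σ := σ) le_rfl ((pow_dvd_pow X (by omega)).trans hf1)
  omega

section char

variable (p : ℕ) [hp : Fact p.Prime] [CharP k p]

/-- The order of the derivative of the transformed leading coefficient. -/
theorem ord_deriv (h : SD v G M w G' M' t m j c b W) {σ : ℤ} (hσ : (p : ℤ) ∣ σ) {N : ℕ}
    {R : ℤ → k[X]} (hR : ∀ i, Apx c W N i (R i)) {P : ℝ →₀ k[X]} (hP : InP G P)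
    (hnpd : NPD p G P) {ν : ℝ} (hν : pdv p G' ν) {E : ℕ}
    (hE : ∀ x ∈ terms P, vm (v w) x = ν → x.2 ≤ E) (hne : ∃ x ∈ terms P, vm (v w) x = ν)
    {n : ℕ} (hn : n < N) (hd : X ^ n ∣ derivative (tr (v w) (fun g n => j g n - σ) R P ν)) :
    n ≤ E / m := by
  obtain ⟨K₀, hK⟩ := exists_K (terms P) (fun g n => j g n - σ) hp.out.pos
  set K := p * K₀ with hKdef
  have hK' : ∀ x ∈ terms P, vm (v w) x = ν → 0 ≤ j x.1 x.2 - σ + K := fun x hx _ => hK x hx
  obtain ⟨a, H, hH1, hH2, hH3⟩ := exists_line' h.ts σ hP hK' (l := 0) (e := E)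
    (fun x hx hxν => ⟨Nat.zero_le _, hE x hx hxν⟩) hne
  rw [Nat.sub_zero] at hH2
  have hF : ∀ n, p ∣ n → (X ^ a * H).coeff n = 0 := fun n hn => by
    rw [← hH1]
    exact h.line_npd hP hnpd hν hσ (Dvd.intro _ rfl) hK' hn
  have hline := line_eq (c := c) (W := W) (N := N) (R := R) (β := v w) (j := fun g n => j g n - σ)
    (P := P) (ν := ν) (K := K) (fun x _ _ => hR _) hK'
  rw [hH1] at hline
  exact (order_deriv_le p h.cne hH3 hF
    (dvd_of_order_deriv p h.dvd hn (Dvd.intro _ rfl) hline hd)).trans hH2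

omit [CharP k p] in
/-- The coefficient at `ν` of the polynomial without `p`-th powers. -/
theorem rst_of_not (T : ℝ →₀ k[X]) {ν : ℝ} (hν : ¬ pdv p G' ν) :
    rst {x | ¬ PD p G' x} T ν = T ν := by
  classical
  ext n
  rw [coeff_rst, if_pos]
  exact fun h1 => hν h1.1

/-- The derivatives coincide. -/
theorem derivative_rst (T : ℝ →₀ k[X]) (ν : ℝ) :
    derivative (rst {x | ¬ PD p G' x} T ν) = derivative (T ν) := by
  classical
  ext n
  rw [coeff_derivative, coeff_derivative, coeff_rst]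
  split_ifs with h
  · rfl
  · have h1 : p ∣ n + 1 := by
      by_contra h2
      exact h fun h3 => h2 h3.2
    have h2 : ((n : k) + 1) = ((n + 1 : ℕ) : k) := by push_cast; ring
    rw [h2, (CharP.cast_eq_zero_iff k p (n + 1)).2 h1, mul_zero, mul_zero]

/-- A small exponent, modulo `p`-th powers. -/
theorem exF (h : SD v G M w G' M' t m j c b W) {σ : ℤ} (hσ : (p : ℤ) ∣ σ) {N : ℕ}
    {R : ℤ → k[X]} (hR : ∀ i, Apx c W N i (R i)) {P : ℝ →₀ k[X]} (hP : InP G P)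
    (hnpd : NPD p G P) {ν : ℝ} {E : ℕ} (hEN : E + 1 < N)
    (hE : ∀ x ∈ terms P, vm (v w) x = ν → x.2 ≤ E) (hne : ∃ x ∈ terms P, vm (v w) x = ν) :
    ∃ e, (rst {x | ¬ PD p G' x} (tr (v w) (fun g n => j g n - σ) R P) ν).coeff e ≠ 0 ∧
      (e ≤ E / m ∨ (¬ p ∣ e ∧ e ≤ E / m + 1)) := by
  classical
  set T := tr (v w) (fun g n => j g n - σ) R P with hT
  have hlt : E / m ≤ E := Nat.div_le_self _ _
  by_cases hν : pdv p G' ν
  · set D := derivative (T ν) with hD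
    have hord : ∀ n < N, X ^ n ∣ D → n ≤ E / m := fun n hn hd =>
      h.ord_deriv p hσ hR hP hnpd hν hE hne hn hd
    have hD0 : D ≠ 0 := by
      intro h0
      have := hord (N - 1) (by omega) (by rw [h0]; exact dvd_zero _)
      omega
    have hD1 : X ^ D.natTrailingDegree ∣ D := by
      rw [X_pow_dvd_iff]
      intro d hd
      exact coeff_eq_zero_of_lt_natTrailingDegree hd
    have hn1 : D.natTrailingDegree ≤ E / m := by
      by_cases hcon : D.natTrailingDegree < N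
      · exact hord _ hcon hD1
      · have := hord (N - 1) (by omega) ((pow_dvd_pow X (by omega)).trans hD1)
        omega
    set n := D.natTrailingDegree with hn
    have hc : D.coeff n ≠ 0 := trailingCoeff_nonzero_iff_nonzero.2 hD0
    rw [hD, coeff_derivative] at hc
    have hc1 := left_ne_zero_of_mul hc
    have hc2 : ¬ p ∣ n + 1 := by
      intro h1
      apply right_ne_zero_of_mul hc
      have h2 : ((n : k) + 1) = ((n + 1 : ℕ) : k) := by push_cast; ring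
      rw [h2, (CharP.cast_eq_zero_iff k p (n + 1)).2 h1]
    refine ⟨n + 1, ?_, Or.inr ⟨hc2, by omega⟩⟩
    rw [coeff_rst, if_pos]
    · exact hc1
    · intro h1
      exact hc2 h1.2
  · obtain ⟨e, he1, he2⟩ := h.exf hR hP (by omega) hE hne (σ := σ)
    refine ⟨e, ?_, Or.inl he2⟩
    rwa [rst_of_not p T hν]

/-- The order of the form is bounded. -/
theorem ordF (h : SD v G M w G' M' t m j c b W) {σ : ℤ} (hσ : (p : ℤ) ∣ σ) {N : ℕ}
    {R : ℤ → k[X]} (hR : ∀ i, Apx c W N i (R i)) {P : ℝ →₀ k[X]} (hP : InP G P)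
    (hnpd : NPD p G P) {ν : ℝ} {E : ℕ}
    (hE : ∀ x ∈ terms P, vm (v w) x = ν → x.2 ≤ E) (hne : ∃ x ∈ terms P, vm (v w) x = ν)
    {n : ℕ} (hn : n + 1 < N) (hpn : p ∣ n + 1)
    (hfo : FO p G' ν n (rst {x | ¬ PD p G' x} (tr (v w) (fun g n => j g n - σ) R P) ν)) :
    n + 1 ≤ E / m := by
  obtain ⟨h1, h2⟩ := hfo
  rw [derivative_rst] at h1
  by_cases hν : pdv p G' ν
  · have h3 := ex_deriv (c := (0 : k)) p hpn (by rw [C_0, sub_zero]; exact h1)
    rw [C_0, sub_zero] at h3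
    exact h.ord_deriv p hσ hR hP hnpd hν hE hne hn h3
  · have h4 := h2.resolve_left hν
    rw [rst_of_not p _ hν] at h4
    have h3 := ex_fun (c := (0 : k)) p hpn
      (F := tr (v w) (fun g n => j g n - σ) R P ν) (by rw [C_0, sub_zero]; exact h4)
      (by rw [C_0, sub_zero]; exact h1)
    rw [C_0, sub_zero] at h3
    exact h.ord hR hP hE hne (σ := σ) (by omega) h3

end char

end SD

/-! ### The class of the top coefficient -/

/-- The monomial `x` is in the class of the top coefficient. -/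
def Cl (Q : ℕ) (G : AddSubgroup ℝ) (lam : ℝ) (nA : ℕ) (x : ℝ × ℕ) : Prop :=
  (∃ y ∈ G, x.1 = lam + Q * y) ∧ ∃ l : ℕ, x.2 = nA + Q * l

/-- The type of the new frame. -/
def Ty (p : ℕ) (G' : AddSubgroup ℝ) (lam' : ℝ) (nA' e : ℕ) (c : k) (W : k[X]) : Prop :=
  (¬ pdv p G' lam' ∧ nA' = 0 ∧ e = 0 ∧ W = X - C c) ∨
    (pdv p G' lam' ∧ nA' = 1 ∧ ¬ p ∣ e ∧ W = X ^ e - C (c ^ e))

section char

variable (p : ℕ) [hp : Fact p.Prime] [CharP k p]

theorem pdv_add_mul {p : ℕ} {Q : ℕ} (hQ : p ∣ Q) {G : AddSubgroup ℝ} {l y : ℝ} (hy : y ∈ G) :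
    pdv p G (l + Q * y) ↔ pdv p G l := by
  obtain ⟨Q', rfl⟩ := hQ
  have h1 : (Q' : ℝ) * y ∈ G := by rw [← nsmul_eq_mul]; exact G.nsmul_mem hy _
  constructor
  · rintro ⟨d, hd, h2⟩
    refine ⟨d - Q' * y, G.sub_mem hd h1, ?_⟩
    push_cast at h2
    linear_combination h2
  · rintro ⟨d, hd, h2⟩
    refine ⟨d + Q' * y, G.add_mem hd h1, ?_⟩
    push_cast
    linear_combination h2

omit [CharP k p] in
/-- Exponents of a line without class monomials. -/
theorem SD.line_cls (h : SD v G M w G' M' t m j c b W) {Q : ℕ} (hQ : 2 ≤ Q) {lam : ℝ} {nA e : ℕ}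
    (hlam : lam ∈ G) (hnA : nA ≤ 1) {r : ℤ} (hr : j lam nA = e + Q * r) {P : ℝ →₀ k[X]}
    (hP : InP G P) {ν : ℝ} (hcl : ∀ x ∈ terms P, vm (v w) x = ν → ¬ Cl Q G lam nA x)
    (hν : ∃ y ∈ G', ν = lam + nA * v w + Q * y) {K₀ : ℕ}
    (hK' : ∀ x ∈ terms P, vm (v w) x = ν → 0 ≤ j x.1 x.2 - Q * r + (Q * K₀ : ℕ)) {n : ℕ}
    (hn : n ≡ e [MOD Q]) :
    (lineP (v w) (fun g n => j g n - Q * r) P ν (Q * K₀)).coeff n = 0 := by
  by_contra hcon
  obtain ⟨x, hx, hxν, (hxn : n = (j x.1 x.2 - Q * r + (Q * K₀ : ℕ)).toNat)⟩ :=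
    coeff_lineP_ne hcon
  have h1 := hK' x hx hxν
  have h2 : (Q : ℤ) ∣ j (x.1 - lam) (x.2 - nA) := by
    have h3 : j (x.1 - lam) (x.2 - nA) = j x.1 x.2 - j lam nA := by
      have h4 := h.ts.add (x.1 - lam) (G.sub_mem (hP.terms hx) hlam) lam hlam (x.2 - nA) nA
      rw [sub_add_cancel, sub_add_cancel] at h4
      omega
    have h5 : (Q : ℤ) ∣ (n : ℤ) - e := (Nat.modEq_iff_dvd.1 hn.symm)
    have h6 : j x.1 x.2 - j lam nA = (n - e) - Q * K₀ := by
      rw [hr]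
      push_cast at h1 hxn ⊢
      omega
    rw [h3, h6]
    exact dvd_sub h5 (Dvd.intro _ rfl)
  obtain ⟨y, hy, hνy⟩ := hν
  have h3 := h.ts.dvd (G.sub_mem (hP.terms hx) hlam) (n := (x.2 : ℤ) - nA) (q := Q) ⟨y, hy, by
    unfold vm at hxν
    push_cast
    linear_combination hxν + hνy⟩ h2
  obtain ⟨⟨g₀, hg₀, h4⟩, l, hl⟩ := h3
  apply hcl x hx hxν
  have hl0 : 0 ≤ l := by
    by_contra hneg
    have : (Q : ℤ) * l ≤ - Q := by nlinarith
    omega
  obtain ⟨l', rfl⟩ := Int.eq_ofNat_of_zero_le hl0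
  refine ⟨⟨g₀, hg₀, by linear_combination h4⟩, l', ?_⟩
  have h5 : (x.2 : ℤ) = nA + Q * l' := by omega
  exact_mod_cast h5

/-- A monomial outside of the class. -/
theorem SD.exC [IsAlgClosed k] (h : SD v G M w G' M' t m j c b W) {j₀ : ℕ} (hj : 1 ≤ j₀)
    {lam : ℝ} {nA nA' e : ℕ} (hlam : lam ∈ G) (hnA : nA ≤ 1) {r : ℤ}
    (hr : j lam nA = e + (p ^ j₀ : ℕ) * r)
    (hty : Ty p G' (lam + nA * v w) nA' e c W) {N : ℕ} {R : ℤ → k[X]}
    (hR : ∀ i, Apx c W N i (R i)) {P : ℝ →₀ k[X]} (hP : InP G P) (hnpd : NPD p G P) {ν : ℝ}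
    (hcl : ∀ x ∈ terms P, vm (v w) x = ν → ¬ Cl (p ^ j₀) G lam nA x) {E : ℕ}
    (hEN : p ^ j₀ * (E / m / p ^ j₀ + 1) ≤ N)
    (hE : ∀ x ∈ terms P, vm (v w) x = ν → x.2 ≤ E) (hne : ∃ x ∈ terms P, vm (v w) x = ν) :
    ∃ n < p ^ j₀ * (E / m / p ^ j₀ + 1), ¬ Cl (p ^ j₀) G' (lam + nA * v w) nA' (ν, n) ∧
      (rst {x | ¬ PD p G' x} (tr (v w) (fun g n => j g n - (p ^ j₀ : ℕ) * r) R P) ν).coeff n
        ≠ 0 := by
  classical
  set Q := p ^ j₀ with hQdef
  have hpQ : p ∣ Q := dvd_pow_self p (by omega)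
  have hQ2 : 2 ≤ Q := hp.out.two_le.trans (Nat.le_of_dvd (pow_pos hp.out.pos _) hpQ)
  set σ : ℤ := (Q : ℕ) * r with hσdef
  have hσ : (p : ℤ) ∣ σ := (Int.natCast_dvd_natCast.2 hpQ).mul_right r
  set T := tr (v w) (fun g n => j g n - σ) R P with hT
  obtain ⟨K₀, hK⟩ := exists_K (terms P) (fun g n => j g n - σ) (D := Q) (by omega)
  have hK' : ∀ x ∈ terms P, vm (v w) x = ν → 0 ≤ j x.1 x.2 - σ + (Q * K₀ : ℕ) :=
    fun x hx _ => hK x hx
  obtain ⟨a, H, hH1, hH2, hH3⟩ := exists_line' h.ts σ hP hK' (l := 0) (e := E)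
    (fun x hx hxν => ⟨Nat.zero_le _, hE x hx hxν⟩) hne
  rw [Nat.sub_zero] at hH2
  have hline := line_eq (c := c) (W := W) (N := N) (R := R) (β := v w) (j := fun g n => j g n - σ)
    (P := P) (ν := ν) (K := Q * K₀) (fun x _ _ => hR _) hK'
  rw [hH1] at hline
  set N₁ := E / m / Q + 1 with hN₁
  have hline' := (pow_dvd_pow (X - C c) hEN).trans hline
  have hdeg : H.natDegree < Q * N₁ := by
    refine lt_of_le_of_lt hH2 ?_
    rw [hN₁]
    exact Nat.lt_mul_div_succ _ (by omega)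
  -- no `p`-th powers on the line
  have hFp : pdv p G' ν → ∀ n, p ∣ n → (X ^ a * H).coeff n = 0 := fun hν n hn => by
    rw [← hH1]
    exact h.line_npd hP hnpd hν hσ (hpQ.mul_right _) hK' hn
  have hFc : (∃ y ∈ G', ν = lam + nA * v w + Q * y) → ∀ n, n ≡ e [MOD Q] →
      (X ^ a * H).coeff n = 0 := fun hν n hn => by
    rw [← hH1]
    exact h.line_cls hQ2 hlam hnA hr hP hcl hν hK' hn
  by_cases hνc : ∃ y ∈ G', ν = lam + nA * v w + Q * y
  · obtain ⟨y, hy, hνy⟩ := hνc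
    rcases hty with ⟨hL, hn0, he0, -⟩ | ⟨hB, hn1, hpe, hW⟩
    · -- type L
      have hνp : ¬ pdv p G' ν := by rw [hνy, pdv_add_mul hpQ hy]; exact hL
      obtain ⟨n, hn1, hn2, hn3⟩ := transferK_mul p h.cne (i := j₀) (j := j₀) le_rfl hH3 hdeg
        (fun n hn => hFc ⟨y, hy, hνy⟩ n (by
          rw [he0]
          exact (Nat.modEq_zero_iff_dvd).2 hn)) h.dvd hline'
      refine ⟨n, hn1, ?_, ?_⟩
      · rintro ⟨-, l, hl⟩
        rw [hn0, zero_add] at hl
        exact hn2 ⟨l, hl⟩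
      · rwa [SD.rst_of_not p T hνp]
    · -- type B
      have hνp : pdv p G' ν := by rw [hνy, pdv_add_mul hpQ hy]; exact hB
      -- `W = X ^ e * 1 ^ Q + G ^ p`
      have hW' : (X - C c) ^ (p ^ j₀ * N₁) ∣ W - (X ^ e * (1 : k[X]) ^ p ^ j₀ + (W - X ^ e)) := by
        rw [one_pow, mul_one, add_sub_cancel, sub_self]
        exact dvd_zero _
      obtain ⟨g, hg⟩ := IsAlgClosed.exists_pow_nat_eq (- c ^ e) hp.out.pos
      have hg' : W - X ^ e = (C g) ^ p := by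
        rw [hW, ← C_pow, hg, C_neg]
        ring
      rw [hg'] at hW'
      obtain ⟨n, hn1', hn2, hn3, hn4⟩ := transferK_B p h.cne (e := e) hj hH3 hdeg
        (fun n hn => by
          rcases hn with hn | hn
          · exact hFc ⟨y, hy, hνy⟩ n hn
          · exact hFp hνp n hn) h.dvd hW' hline'
      refine ⟨n, hn1', ?_, ?_⟩
      · rintro ⟨-, l, hl⟩
        apply hn2
        rw [hn1] at hl
        show n % _ = 1 % _
        simp only at hl
        rw [hl, ← hQdef, Nat.add_mul_mod_self_left]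
      · rw [coeff_rst, if_pos]
        · exact hn4
        · intro h1
          exact hn3 h1.2
  · have hncl : ∀ n, ¬ Cl Q G' (lam + nA * v w) nA' (ν, n) := fun n hn => hνc hn.1
    by_cases hνp : pdv p G' ν
    · obtain ⟨n, hn1, hn2, hn3⟩ := transferK_mul p h.cne (i := 1) (j := j₀) hj hH3 hdeg
        (fun n hn => hFp hνp n (by rwa [pow_one] at hn)) h.dvd hline'
      rw [pow_one] at hn2
      refine ⟨n, hn1, hncl n, ?_⟩
      rw [coeff_rst, if_pos]
      · exact hn3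
      · intro h1
        exact hn2 h1.2
    · obtain ⟨n, hn1, hn2⟩ := transferK_none p h.cne hH3 hdeg h.dvd hline'
      refine ⟨n, hn1, hncl n, ?_⟩
      rwa [SD.rst_of_not p T hνp]

/-- **The obstruction.** -/
theorem SD.obs (h : SD v G M w G' M' t m j c b W) {j₀ : ℕ} (hj : 1 ≤ j₀)
    {lam : ℝ} {nA nA' e : ℕ} (hlam : lam ∈ G) (hnA : nA ≤ 1) {r : ℤ}
    (hr : j lam nA = e + (p ^ j₀ : ℕ) * r)
    (hty : Ty p G' (lam + nA * v w) nA' e c W) {N : ℕ} {R : ℤ → k[X]}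
    (hR : ∀ i, Apx c W N i (R i)) {P : ℝ →₀ k[X]} (hP : InP G P) {ν : ℝ}
    (hcl : ∀ x ∈ terms P, vm (v w) x = ν → ¬ Cl (p ^ j₀) G lam nA x) (hN : p ^ j₀ < N)
    (hν : ∃ y ∈ G', ν = lam + nA * v w + (p ^ j₀ : ℕ) * y) {b₀ : k} (hb₀ : b₀ ≠ 0) :
    ¬ FO p G' ν (p ^ j₀ - 1)
      (rst {x | ¬ PD p G' x} (tr (v w) (fun g n => j g n - (p ^ j₀ : ℕ) * r) R P) ν +
        C b₀ * X ^ nA') := by
  classical
  set Q := p ^ j₀ with hQdef
  have hpQ : p ∣ Q := dvd_pow_self p (by omega)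
  have hQ2 : 2 ≤ Q := hp.out.two_le.trans (Nat.le_of_dvd (pow_pos hp.out.pos _) hpQ)
  set σ : ℤ := (Q : ℕ) * r with hσdef
  set T := tr (v w) (fun g n => j g n - σ) R P with hT
  obtain ⟨K₀, hK⟩ := exists_K (terms P) (fun g n => j g n - σ) (D := Q) (by omega)
  have hK' : ∀ x ∈ terms P, vm (v w) x = ν → 0 ≤ j x.1 x.2 - σ + (Q * K₀ : ℕ) :=
    fun x hx _ => hK x hx
  have hline := line_eq (c := c) (W := W) (N := N) (R := R) (β := v w) (j := fun g n => j g n - σ)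
    (P := P) (ν := ν) (K := Q * K₀) (fun x _ _ => hR _) hK'
  set F₀ := lineP (v w) (fun g n => j g n - σ) P ν (Q * K₀) with hF₀
  have hFc : ∀ n, n ≡ e [MOD Q] → F₀.coeff n = 0 := fun n hn =>
    h.line_cls hQ2 hlam hnA hr hP hcl hν hK' hn
  have hQ1 : p ∣ Q - 1 + 1 := by rwa [Nat.sub_add_cancel (by omega)]
  have hQ1' : Q - 1 + 1 = Q := Nat.sub_add_cancel (by omega)
  rintro ⟨hd, hf⟩
  obtain ⟨y, hy, hνy⟩ := hν
  rcases hty with ⟨hL, hn0, he0, hW⟩ | ⟨hB, hn1, hpe, hW⟩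
  · have hνp : ¬ pdv p G' ν := by rw [hνy, pdv_add_mul hpQ hy]; exact hL
    have hf' := hf.resolve_left hνp
    rw [SD.rst_of_not p _ hνp, hn0, pow_zero, mul_one] at hf' hd
    have h3 := ex_fun (c := (0 : k)) p hQ1 (F := T ν + C b₀)
      (by rw [C_0, sub_zero]; exact hf') (by rw [C_0, sub_zero]; exact hd)
    rw [C_0, sub_zero, hQ1'] at h3
    have h4 : (X - C c) ^ N ∣ X ^ (Q * K₀) * (T ν + C b₀).comp W - (F₀ + C b₀ * X ^ (Q * K₀)) := by
      have e1 : X ^ (Q * K₀) * (T ν + C b₀).comp W - (F₀ + C b₀ * X ^ (Q * K₀)) =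
          X ^ (Q * K₀) * (T ν).comp W - F₀ := by
        rw [add_comp, C_comp]
        ring
      rwa [e1]
    have h5 := dvd_of_order (a := 0) h.dvd hN.le h4 h3
    refine obstruction p h.cne (j := j₀) (e := Q * K₀) (fun n hn => hFc n ?_) hb₀ h5
    rw [he0]
    exact hn.trans ((Nat.modEq_zero_iff_dvd).2 (Dvd.intro _ rfl))
  · have hder : derivative (rst {x | ¬ PD p G' x} T ν + C b₀ * X ^ nA') =
        derivative (T ν + C b₀ * X) := by
      rw [derivative_add, SD.derivative_rst, ← derivative_add, hn1, pow_one]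
    rw [hder] at hd
    have h3 := ex_deriv (c := (0 : k)) p hQ1 (F := T ν + C b₀ * X)
      (by rw [C_0, sub_zero]; exact hd)
    rw [C_0, sub_zero, hQ1'] at h3
    have h4 : (X - C c) ^ N ∣ X ^ (Q * K₀) * (T ν + C b₀ * X).comp W -
        (F₀ + C b₀ * X ^ (Q * K₀ + e) - C (b₀ * c ^ e) * X ^ (Q * K₀)) := by
      have e1 : X ^ (Q * K₀) * (T ν + C b₀ * X).comp W -
          (F₀ + C b₀ * X ^ (Q * K₀ + e) - C (b₀ * c ^ e) * X ^ (Q * K₀)) =
          X ^ (Q * K₀) * (T ν).comp W - F₀ := by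
        have e2 : (C b₀ * X : k[X]).comp W = C b₀ * W := by rw [mul_comp, C_comp, X_comp]
        rw [add_comp, e2]
        conv_lhs =>
          rw [show C b₀ * W = C b₀ * (X ^ e - C (c ^ e)) by rw [← hW]]
        rw [C_mul, pow_add]
        ring
      rwa [e1]
    have hpK : p ∣ Q * K₀ := hpQ.mul_right _
    have h5 := dvd_of_order_deriv p h.dvd hN hpK h4 h3
    have h6 : derivative (F₀ + C b₀ * X ^ (Q * K₀ + e) - C (b₀ * c ^ e) * X ^ (Q * K₀)) =
        derivative (F₀ + C b₀ * X ^ (Q * K₀ + e)) := by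
      rw [derivative_sub, derivative_C_mul, derivative_X_pow,
        (CharP.cast_eq_zero_iff k p (Q * K₀)).2 hpK, C_0, zero_mul, mul_zero, sub_zero]
    rw [h6] at h5
    refine obstruction_deriv p h.cne (j := j₀) (e := Q * K₀ + e) (fun n hn => hFc n ?_) hb₀
      (fun h7 => hpe ((Nat.dvd_add_right hpK).1 h7)) h5
    refine hn.trans ?_
    show (Q * K₀ + e) % Q = e % Q
    rw [Nat.mul_add_mod]

end char

end Pool.Agent.TWN
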