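import Pool.Agent.Lib.TW_NFG.LP

/-!
# NFG, `s = 2`: the steps of the value group

`TStep v G M w G' M' u m j`: `G' = G + ℤ v(w)`, `m` the order of `v(w)` modulo `G`, the monomials
`M g * w ^ n` are the products `M' (g + n v(w)) * u ^ (j g n)`, `u` of value `0`.
-/

set_option autoImplicit false

open Polynomial

namespace Pool.Agent.TWN

open Pool.Agent.H15JM (RVal)
open Pool.Agent.TWM (MS)

universe u

variable {Ω : Type u} [Field Ω] {v : RVal Ω} {G G' : AddSubgroup ℝ}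
  {M M' : ℝ → Ω} {w t : Ω} {m : ℕ} {j : ℝ → ℤ → ℤ}

theorem MS.zmul (h : MS v G M) {g : ℝ} (hg : g ∈ G) (n : ℤ) : M (n * g) = M g ^ n := by
  cases n with
  | ofNat n =>
    rw [Int.ofNat_eq_natCast, Int.cast_natCast, h.pow hg, zpow_natCast]
  | negSucc n =>
    rw [zpow_negSucc, Int.cast_negSucc, neg_mul, h.neg, h.pow hg]
    rw [← nsmul_eq_mul]
    exact G.nsmul_mem hg _

theorem MS.sub (h : MS v G M) {g g' : ℝ} (hg : g ∈ G) (hg' : g' ∈ G) :
    M (g - g') = M g * (M g')⁻¹ := by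
  rw [sub_eq_add_neg, h.mul g hg _ (G.neg_mem hg'), h.neg hg']

/-- A step of the value group. -/
structure TStep (v : RVal Ω) (G : AddSubgroup ℝ) (M : ℝ → Ω) (w : Ω) (G' : AddSubgroup ℝ)
    (M' : ℝ → Ω) (t : Ω) (m : ℕ) (j : ℝ → ℤ → ℤ) : Prop where
  ms : MS v G M
  ms' : MS v G' M'
  fg : G'.FG
  w_ne : w ≠ 0
  eqG : G' = G ⊔ AddSubgroup.zmultiples (v w)
  mpos : 0 < m
  mem : (m : ℝ) * v w ∈ G
  min : ∀ n : ℤ, (n : ℝ) * v w ∈ G → (m : ℤ) ∣ n
  t_eq : t = w ^ m * (M (m * v w))⁻¹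
  add : ∀ g ∈ G, ∀ g' ∈ G, ∀ n n' : ℤ, j (g + g') (n + n') = j g n + j g' n'
  mon : ∀ g ∈ G, ∀ n : ℤ, M g * w ^ n = M' (g + n * v w) * t ^ j g n
  line : ∀ g ∈ G, ∀ g' ∈ G, ∀ n n' : ℤ, g + n * v w = g' + n' * v w →
    n - n' = m * (j g n - j g' n')
  surj : ∀ g' ∈ G', ∀ i : ℤ, ∃ g ∈ G, ∃ n : ℤ, g' = g + n * v w ∧ j g n = i

namespace TStep

theorem le (h : TStep v G M w G' M' t m j) : G ≤ G' := by
  rw [h.eqG]; exact le_sup_left

theorem vw_mem (h : TStep v G M w G' M' t m j) : v w ∈ G' := by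
  rw [h.eqG]
  exact AddSubgroup.mem_sup_right (AddSubgroup.mem_zmultiples _)

theorem zw_mem (h : TStep v G M w G' M' t m j) (n : ℤ) : (n : ℝ) * v w ∈ G' := by
  rw [← zsmul_eq_mul]
  exact G'.zsmul_mem h.vw_mem n

theorem mem' (h : TStep v G M w G' M' t m j) {g : ℝ} (hg : g ∈ G) (n : ℤ) :
    g + n * v w ∈ G' := G'.add_mem (h.le hg) (h.zw_mem n)

theorem t_ne (h : TStep v G M w G' M' t m j) : t ≠ 0 := by
  rw [h.t_eq]
  exact mul_ne_zero (pow_ne_zero _ h.w_ne) (inv_ne_zero (h.ms.ne _ h.mem))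

theorem t_val (h : TStep v G M w G' M' t m j) : v t = 0 := by
  rw [h.t_eq, v.map_mul (pow_ne_zero _ h.w_ne) (inv_ne_zero (h.ms.ne _ h.mem)), v.map_pow h.w_ne,
    v.map_inv (h.ms.ne _ h.mem), h.ms.val _ h.mem, add_neg_cancel]

theorem gen (h : TStep v G M w G' M' t m j) {g' : ℝ} (hg' : g' ∈ G') (i : ℤ) :
    ∃ g ∈ G, ∃ n : ℤ, g' = g + n * v w ∧ j g n = i ∧ M' g' * t ^ i = M g * w ^ n := by
  obtain ⟨g, hg, n, h1, h2⟩ := h.surj g' hg' i
  exact ⟨g, hg, n, h1, h2, by rw [h.mon g hg n, h1, h2]⟩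

theorem j_zero (h : TStep v G M w G' M' t m j) : j 0 0 = 0 := by
  have h1 := h.add 0 G.zero_mem 0 G.zero_mem 0 0
  rw [add_zero, add_zero] at h1
  omega

theorem j_neg (h : TStep v G M w G' M' t m j) {g : ℝ} (hg : g ∈ G) (n : ℤ) :
    j (-g) (-n) = - j g n := by
  have h1 := h.add g hg (-g) (G.neg_mem hg) n (-n)
  rw [add_neg_cancel, add_neg_cancel, h.j_zero] at h1
  omega

theorem j_nmul (h : TStep v G M w G' M' t m j) {g : ℝ} (hg : g ∈ G) (n : ℤ) (q : ℕ) :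
    j (q * g) (q * n) = q * j g n := by
  induction q with
  | zero => simp [h.j_zero]
  | succ q ih =>
    have hq : (q : ℝ) * g ∈ G := by
      rw [← nsmul_eq_mul]; exact G.nsmul_mem hg q
    push_cast
    rw [add_mul, add_mul, one_mul, one_mul, h.add _ hq _ hg, ih, add_mul, one_mul]

/-- The pair (value, exponent of `t`) determines the monomial. -/
theorem inj (h : TStep v G M w G' M' t m j) {g g' : ℝ} (hg : g ∈ G) (hg' : g' ∈ G) {n n' : ℤ}
    (h1 : g + n * v w = g' + n' * v w) (h2 : j g n = j g' n') : g = g' ∧ n = n' := by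
  have h3 := h.line g hg g' hg' n n' h1
  rw [h2, sub_self, mul_zero, sub_eq_zero] at h3
  refine ⟨?_, h3⟩
  rw [h3] at h1
  linarith

/-- If the value and the exponent of `t` are divisible by `q` then so is the monomial. -/
theorem dvd (h : TStep v G M w G' M' t m j) {g : ℝ} (hg : g ∈ G) {n : ℤ} {q : ℕ}
    (h1 : ∃ g' ∈ G', g + n * v w = q * g') (h2 : (q : ℤ) ∣ j g n) :
    (∃ g₀ ∈ G, g = q * g₀) ∧ (q : ℤ) ∣ n := by
  obtain ⟨g', hg', h3⟩ := h1
  obtain ⟨i, hi⟩ := h2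
  obtain ⟨g₀, hg₀, n₀, h4, h5⟩ := h.surj g' hg' i
  have hq : (q : ℝ) * g₀ ∈ G := by
    rw [← nsmul_eq_mul]; exact G.nsmul_mem hg₀ q
  have h6 := h.inj hg hq (n := n) (n' := q * n₀) (by rw [h3, h4]; push_cast; ring)
    (by rw [h.j_nmul hg₀, h5, hi])
  exact ⟨⟨g₀, hg₀, h6.1⟩, ⟨n₀, h6.2⟩⟩

/-- Multiplication of the monomials with powers of `t`. -/
theorem twist (h : TStep v G M w G' M' t m j) (κ : ℝ → ℤ)
    (hκ : ∀ g ∈ G', ∀ g' ∈ G', κ (g + g') = κ g + κ g') :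
    TStep v G M w G' (fun g => M' g * t ^ κ g) t m (fun g n => j g n - κ (g + n * v w)) := by
  have ht := h.t_ne
  refine ⟨h.ms, ⟨fun g hg => mul_ne_zero (h.ms'.ne g hg) (zpow_ne_zero _ ht), fun g hg => ?_,
    fun g hg g' hg' => ?_⟩, h.fg, h.w_ne, h.eqG, h.mpos, h.mem, h.min, h.t_eq, ?_, ?_, ?_, ?_⟩
  · rw [v.map_mul (h.ms'.ne g hg) (zpow_ne_zero _ ht), v.map_zpow ht, h.t_val, mul_zero, add_zero,
      h.ms'.val g hg]
  · rw [h.ms'.mul g hg g' hg', hκ g hg g' hg', zpow_add₀ ht]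
    ring
  · intro g hg g' hg' n n'
    have h1 : g + g' + ((n + n' : ℤ) : ℝ) * v w = (g + n * v w) + (g' + n' * v w) := by
      push_cast; ring
    rw [h.add g hg g' hg', h1, hκ _ (h.mem' hg n) _ (h.mem' hg' n')]
    ring
  · intro g hg n
    rw [h.mon g hg n, mul_assoc, ← zpow_add₀ ht, add_sub_cancel]
  · intro g hg g' hg' n n' h1
    rw [h.line g hg g' hg' n n' h1, h1]
    ring
  · intro g' hg' i
    obtain ⟨g, hg, n, h1, h2⟩ := h.surj g' hg' (i + κ g')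
    refine ⟨g, hg, n, h1, ?_⟩
    rw [← h1, h2]
    ring

end TStep

/-- Existence of a step. -/
theorem exists_tstep (hM : MS v G M) (hG : G.FG) (hw : w ≠ 0)
    (hfull : ∃ m : ℕ, 0 < m ∧ (m : ℝ) * v w ∈ G) :
    ∃ (G' : AddSubgroup ℝ) (M' : ℝ → Ω) (t : Ω) (m : ℕ) (j : ℝ → ℤ → ℤ),
      TStep v G M w G' M' t m j := by
  classical
  set β := v w with hβ
  let m := Nat.find hfull
  obtain ⟨hm, hmG⟩ : 0 < m ∧ (m : ℝ) * β ∈ G := Nat.find_spec hfull
  have hmin : ∀ n : ℤ, (n : ℝ) * β ∈ G → (m : ℤ) ∣ n := by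
    intro n hn
    have h1 : ((n % m : ℤ) : ℝ) * β ∈ G := by
      have h2 : ((n % m : ℤ) : ℝ) * β = n * β - ((n / m : ℤ) : ℝ) * (m * β) := by
        have h3 : ((n % m : ℤ) : ℝ) = n - m * ((n / m : ℤ) : ℝ) := by
          rw [Int.emod_def]; push_cast; ring
        rw [h3]; ring
      rw [h2]
      refine G.sub_mem hn ?_
      rw [← zsmul_eq_mul]
      exact G.zsmul_mem hmG _
    have h2 : 0 ≤ n % m := Int.emod_nonneg n (by omega)
    have h3 : n % m < m := Int.emod_lt_of_pos n (by omega)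
    obtain ⟨r, hr⟩ := Int.eq_ofNat_of_zero_le h2
    rw [hr] at h1 h3
    by_contra hcon
    have hr0 : 0 < r := by
      rcases Nat.eq_zero_or_pos r with h4 | h4
      · exfalso
        apply hcon
        rw [h4] at hr
        exact Int.dvd_of_emod_eq_zero (by simpa using hr)
      · exact h4
    exact Nat.find_min hfull (m := r) (by exact_mod_cast h3) ⟨hr0, by simpa using h1⟩
  -- the map
  let π : (G × ℤ) →ₗ[ℤ] ℝ :=
    { toFun := fun x => (x.1 : ℝ) + x.2 * β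
      map_add' := fun x y => by
        simp only [Prod.fst_add, Prod.snd_add, AddSubgroup.coe_add]
        push_cast
        ring
      map_smul' := fun c x => by
        simp only [Prod.smul_fst, Prod.smul_snd, AddSubgroup.coe_zsmul, zsmul_eq_mul, eq_intCast,
          Int.cast_id]
        push_cast
        ring }
  have hπ : ∀ x : G × ℤ, π x = (x.1 : ℝ) + x.2 * β := fun _ => rfl
  let N : Submodule ℤ ℝ := LinearMap.range π
  have hGf : Module.Finite ℤ G := by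
    rw [Module.Finite.iff_addGroup_fg]
    exact (AddGroup.fg_iff_addSubgroup_fg G).2 hG
  have hNf : Module.Finite ℤ N := inferInstance
  have hNfree : Module.Free ℤ N := inferInstance
  obtain ⟨σ, hσ⟩ := Module.projective_lifting_property π.rangeRestrict
    (LinearMap.id : N →ₗ[ℤ] N) π.surjective_rangeRestrict
  have hσ' : ∀ x : N, π (σ x) = x := by
    intro x
    have h1 := LinearMap.congr_fun hσ x
    exact congrArg Subtype.val h1
  let G' : AddSubgroup ℝ := N.toAddSubgroup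
  have hG'fg : G'.FG := by
    rw [← AddGroup.fg_iff_addSubgroup_fg]
    exact Module.Finite.iff_addGroup_fg.1 hNf
  have hmemN : ∀ x : G × ℤ, π x ∈ N := fun x => ⟨x, rfl⟩
  let M' : ℝ → Ω := fun x => if hx : x ∈ N then M (σ ⟨x, hx⟩).1 * w ^ (σ ⟨x, hx⟩).2 else 1
  have hM'v : ∀ x (hx : x ∈ N), M' x = M (σ ⟨x, hx⟩).1 * w ^ (σ ⟨x, hx⟩).2 := by
    intro x hx
    simp only [M', dif_pos hx]
  have hMne : ∀ x : G × ℤ, M x.1 * w ^ x.2 ≠ 0 := fun x =>
    mul_ne_zero (hM.ne _ x.1.2) (zpow_ne_zero _ hw)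
  have hMval : ∀ x : G × ℤ, v (M x.1 * w ^ x.2) = π x := fun x => by
    rw [v.map_mul (hM.ne _ x.1.2) (zpow_ne_zero _ hw), hM.val _ x.1.2, v.map_zpow hw, hπ]
  have hMadd : ∀ x y : G × ℤ, M (x + y).1 * w ^ (x + y).2 =
      M x.1 * w ^ x.2 * (M y.1 * w ^ y.2) := fun x y => by
    rw [Prod.fst_add, Prod.snd_add, AddSubgroup.coe_add, hM.mul _ x.1.2 _ y.1.2, zpow_add₀ hw]
    ring
  let t : Ω := w ^ m * (M (m * β))⁻¹
  -- the kernel
  have hker : ∀ x : G × ℤ, π x = 0 → ∃ i : ℤ, x.2 = m * i ∧ (x.1 : ℝ) = - ((i : ℝ) * (m * β)) ∧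
      M x.1 * w ^ x.2 = t ^ i := by
    intro x hx
    rw [hπ] at hx
    have h1 : (x.2 : ℝ) * β ∈ G := by
      have h2 : (x.2 : ℝ) * β = - (x.1 : ℝ) := by linarith
      rw [h2]
      exact G.neg_mem x.1.2
    obtain ⟨i, hi⟩ := hmin x.2 h1
    have h3 : (x.1 : ℝ) = - ((i : ℝ) * (m * β)) := by
      rw [hi] at hx
      push_cast at hx
      linarith
    refine ⟨i, hi, h3, ?_⟩
    have h4 : (i : ℝ) * (m * β) ∈ G := by
      rw [← zsmul_eq_mul]; exact G.zsmul_mem hmG i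
    rw [h3, hi, hM.neg h4, MS.zmul hM hmG, zpow_mul, zpow_natCast, mul_zpow, inv_zpow]
    ring
  let δ : G × ℤ → G × ℤ := fun x => x - σ ⟨π x, hmemN x⟩
  have hδ : ∀ x, π (δ x) = 0 := by
    intro x
    rw [map_sub, hσ', sub_self]
  have hδadd : ∀ x y, δ (x + y) = δ x + δ y := by
    intro x y
    have h1 : (⟨π (x + y), hmemN (x + y)⟩ : N) = ⟨π x, hmemN x⟩ + ⟨π y, hmemN y⟩ :=
      Subtype.ext (map_add π x y)
    show x + y - σ _ = (x - σ _) + (y - σ _)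
    rw [h1, map_add]
    abel
  let j : ℝ → ℤ → ℤ := fun g n => if hg : g ∈ G then (δ (⟨g, hg⟩, n)).2 / m else 0
  have hj : ∀ g (hg : g ∈ G) (n : ℤ), (δ (⟨g, hg⟩, n)).2 = m * j g n := by
    intro g hg n
    obtain ⟨i, hi, -⟩ := hker _ (hδ (⟨g, hg⟩, n))
    have h1 : j g n = (δ (⟨g, hg⟩, n)).2 / m := by
      simp only [j, dif_pos hg]
    rw [h1, hi, Int.mul_ediv_cancel_left _ (by omega)]
  have hmZ : (m : ℤ) ≠ 0 := by omega
  have hG'G : G' = G ⊔ AddSubgroup.zmultiples β := by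
    ext x
    constructor
    · rintro ⟨y, rfl⟩
      rw [hπ]
      refine AddSubgroup.add_mem _ (AddSubgroup.mem_sup_left y.1.2)
        (AddSubgroup.mem_sup_right ?_)
      rw [← zsmul_eq_mul]
      exact AddSubgroup.zsmul_mem _ (AddSubgroup.mem_zmultiples β) _
    · intro hx
      obtain ⟨a, ha, b, hb, rfl⟩ := AddSubgroup.mem_sup.1 hx
      obtain ⟨n, rfl⟩ := AddSubgroup.mem_zmultiples_iff.1 hb
      exact ⟨(⟨a, ha⟩, n), by rw [hπ, zsmul_eq_mul]⟩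
  refine ⟨G', M', t, m, j, hM, ⟨?_, ?_, ?_⟩, hG'fg, hw, hG'G, hm, hmG, hmin, rfl, ?_, ?_, ?_, ?_⟩
  · intro g hg
    rw [hM'v g hg]
    exact hMne _
  · intro g hg
    rw [hM'v g hg, hMval, hσ']
  · intro g hg g' hg'
    rw [hM'v g hg, hM'v g' hg', hM'v (g + g') (N.add_mem hg hg')]
    have h1 : (⟨g + g', N.add_mem hg hg'⟩ : N) = ⟨g, hg⟩ + ⟨g', hg'⟩ := rfl
    rw [h1, map_add, hMadd]
  · intro g hg g' hg' n n'
    have h1 := hδadd (⟨g, hg⟩, n) (⟨g', hg'⟩, n')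
    have h2 : ((⟨g, hg⟩, n) + (⟨g', hg'⟩, n') : G × ℤ) = (⟨g + g', G.add_mem hg hg'⟩, n + n') :=
      rfl
    rw [h2] at h1
    have h3 := congrArg Prod.snd h1
    rw [Prod.snd_add, hj _ (G.add_mem hg hg'), hj g hg, hj g' hg', ← mul_add] at h3
    exact mul_left_cancel₀ hmZ h3
  · intro g hg n
    obtain ⟨i, hi, -, h3⟩ := hker _ (hδ (⟨g, hg⟩, n))
    have h4 : i = j g n := by
      rw [hj g hg n] at hi
      exact (mul_left_cancel₀ hmZ hi).symm
    have h5 : (⟨g, hg⟩, n) = σ ⟨π (⟨g, hg⟩, n), hmemN _⟩ + δ (⟨g, hg⟩, n) := by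
      show _ = σ _ + (_ - σ _)
      rw [add_sub_cancel]
    have h6 : M g * w ^ n = M' (π (⟨g, hg⟩, n)) * t ^ i := by
      rw [hM'v _ (hmemN _), ← h3, ← hMadd, ← h5]
    rw [h6, hπ, h4]
  · intro g hg g' hg' n n' h1
    have h2 : π (⟨g, hg⟩, n) = π (⟨g', hg'⟩, n') := h1
    have h3 : (δ (⟨g, hg⟩, n)).2 - (δ (⟨g', hg'⟩, n')).2 = n - n' := by
      have h4 : (⟨π (⟨g, hg⟩, n), hmemN _⟩ : N) = ⟨π (⟨g', hg'⟩, n'), hmemN _⟩ := Subtype.ext h2
      show (n - (σ _).2) - (n' - (σ _).2) = n - n'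
      rw [h4]
      ring
    rw [hj g hg n, hj g' hg' n'] at h3
    rw [← h3]
    ring
  · intro g' hg' i
    let y : G × ℤ := (⟨- ((i : ℝ) * (m * β)), G.neg_mem (by
      rw [← zsmul_eq_mul]; exact G.zsmul_mem hmG i)⟩, m * i)
    have hy : π y = 0 := by
      rw [hπ]
      show - ((i : ℝ) * (m * β)) + ((m * i : ℤ) : ℝ) * β = 0
      push_cast
      ring
    let x : G × ℤ := σ ⟨g', hg'⟩ + y
    have hx : π x = g' := by
      show π (σ ⟨g', hg'⟩ + y) = g'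
      rw [map_add, hσ', hy, add_zero]
    refine ⟨x.1, x.1.2, x.2, ?_, ?_⟩
    · rw [← hπ, hx]
    · have h1 := hj x.1 x.1.2 x.2
      have h2 : δ x = y := by
        show x - σ ⟨π x, hmemN x⟩ = y
        have h3 : (⟨π x, hmemN x⟩ : N) = ⟨g', hg'⟩ := Subtype.ext hx
        rw [h3]
        show σ ⟨g', hg'⟩ + y - σ ⟨g', hg'⟩ = y
        rw [add_sub_cancel_left]
      have h4 : ((⟨x.1, x.1.2⟩, x.2) : G × ℤ) = x := rfl
      rw [h4, h2] at h1
      have h5 : (m : ℤ) * i = m * j x.1 x.2 := h1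
      exact (mul_left_cancel₀ hmZ h5).symm

end Pool.Agent.TWN
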