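import Pool.Agent.Lib.TW_NFG.TS

/-!
# NFG, `s = 2`: the transformation of a Laurent polynomial under a step

* `Apx c W N i R`: `R(W(X))` is `X ^ i` modulo `(X - c) ^ N`, `i ∈ ℤ`;
* `exists_apx`; `Apx.ge`: `t ^ i - R(W(t))` is small for `t` near `c`;
* `exists_kappa`: functions `κ : G → ℤ` with a prescribed value mod `q`.
-/

set_option autoImplicit false

open Polynomial

namespace Pool.Agent.TWN

open Pool.Agent.H15JM (RVal)
open Pool.Agent.TWM (MS)

universe u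

section

variable {k : Type u} [Field k]

/-- `R(W(X))` is `X ^ i` modulo `(X - c) ^ N`. -/
def Apx (c : k) (W : k[X]) (N : ℕ) (i : ℤ) (R : k[X]) : Prop :=
  ∀ K : ℕ, 0 ≤ i + K → (X - C c) ^ N ∣ X ^ K * R.comp W - X ^ (i + K).toNat

theorem isCoprime_X {c : k} (hc : c ≠ 0) (N a : ℕ) :
    IsCoprime ((X - C c) ^ N) (X ^ a : k[X]) := by
  apply IsCoprime.pow
  have h2 : IsCoprime (X - C c) (X - C 0 : k[X]) :=
    isCoprime_X_sub_C_of_isUnit_sub (by rw [sub_zero]; exact isUnit_iff_ne_zero.2 hc)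
  rwa [C_0, sub_zero] at h2

/-- Every polynomial is a polynomial in the coordinate `W`, up to `(X - c) ^ N`. -/
theorem exists_comp {c : k} {W : k[X]} (hW : W.eval c = 0) (hW' : (derivative W).eval c ≠ 0)
    (F : k[X]) (N : ℕ) : ∃ R : k[X], (X - C c) ^ N ∣ F - R.comp W := by
  obtain ⟨W₁, hW₁⟩ : X - C c ∣ W := dvd_iff_isRoot.2 hW
  have h1 : W₁.eval c ≠ 0 := by
    rw [hW₁, derivative_mul, derivative_sub, derivative_X, derivative_C, sub_zero, one_mul,
      eval_add, eval_mul, eval_sub, eval_X, eval_C, sub_self, zero_mul, add_zero] at hW'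
    exact hW'
  induction N with
  | zero => exact ⟨0, by rw [pow_zero]; exact one_dvd _⟩
  | succ N ih =>
    obtain ⟨R, Q, hQ⟩ := ih
    refine ⟨R + C (Q.eval c / (W₁.eval c) ^ N) * X ^ N, ?_⟩
    have h2 : F - (R + C (Q.eval c / (W₁.eval c) ^ N) * X ^ N).comp W =
        (X - C c) ^ N * (Q - C (Q.eval c / (W₁.eval c) ^ N) * W₁ ^ N) := by
      rw [add_comp, mul_comp, C_comp, X_pow_comp, ← sub_sub, hQ, mul_sub]
      have h3 : W ^ N = (X - C c) ^ N * W₁ ^ N := by rw [hW₁, mul_pow]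
      rw [h3]
      ring
    rw [h2, pow_succ]
    refine mul_dvd_mul_left _ (dvd_iff_isRoot.2 ?_)
    rw [IsRoot, eval_sub, eval_mul, eval_C, eval_pow, div_mul_cancel₀ _ (pow_ne_zero _ h1),
      sub_self]

theorem exists_apx {c : k} (hc : c ≠ 0) {W : k[X]} (hW : W.eval c = 0)
    (hW' : (derivative W).eval c ≠ 0) (N : ℕ) (i : ℤ) : ∃ R : k[X], Apx c W N i R := by
  -- a polynomial `U` which is `X ^ i` modulo `(X - c) ^ N`
  obtain ⟨U, hU⟩ : ∃ U : k[X], ∀ K : ℕ, 0 ≤ i + K →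
      (X - C c) ^ N ∣ X ^ K * U - X ^ (i + K).toNat := by
    rcases le_or_gt 0 i with h | h
    · obtain ⟨n, rfl⟩ := Int.eq_ofNat_of_zero_le h
      refine ⟨X ^ n, fun K _ => ?_⟩
      have h1 : ((n : ℤ) + K).toNat = K + n := by omega
      rw [h1, pow_add, sub_self]
      exact dvd_zero _
    · obtain ⟨n, hn⟩ : ∃ n : ℕ, i = -n := ⟨(-i).toNat, by omega⟩
      obtain ⟨a, b, hab⟩ := isCoprime_X hc N n
      refine ⟨b, fun K hK => ?_⟩
      obtain ⟨K', rfl⟩ : ∃ K', K = K' + n := ⟨K - n, by omega⟩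
      have h1 : (i + ((K' + n : ℕ) : ℤ)).toNat = K' := by omega
      rw [h1]
      have h2 : X ^ (K' + n) * b - X ^ K' = (X - C c) ^ N * (- (X ^ K' * a)) := by
        have h3 : b * X ^ n = 1 - a * (X - C c) ^ N := by rw [← hab]; ring
        rw [pow_add, mul_assoc, mul_comm (X ^ n) b, h3]
        ring
      rw [h2]
      exact dvd_mul_right _ _
  obtain ⟨R, hR⟩ := exists_comp hW hW' U N
  refine ⟨R, fun K hK => ?_⟩
  have h1 : X ^ K * R.comp W - X ^ (i + K).toNat =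
      (X ^ K * U - X ^ (i + K).toNat) - X ^ K * (U - R.comp W) := by ring
  rw [h1]
  exact dvd_sub (hU K hK) (hR.mul_left _)

end

section

variable {k Ω : Type u} [Field k] [Field Ω] [Algebra k Ω] {v : RVal Ω}

/-- A polynomial divisible by `(X - c) ^ N`, at a point near `c`. -/
theorem ge_of_dvd (hk : ∀ a : k, v.Ge 0 (algebraMap k Ω a)) {c : k} {t : Ω} {b : ℝ}
    (ht0 : v.Ge 0 t) (ht : v.Ge b (t - algebraMap k Ω c)) {N : ℕ} {F : k[X]}
    (h : (X - C c) ^ N ∣ F) : v.Ge (N * b) (aeval t F) := by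
  obtain ⟨Q, rfl⟩ := h
  rw [map_mul, map_pow, map_sub, aeval_X, aeval_C]
  have h1 : v.Ge 0 (aeval t Q) := by
    rw [aeval_eq_sum_range]
    refine RVal.Ge.sum _ _ fun i _ => ?_
    rw [Algebra.smul_def]
    have h2 := (hk (Q.coeff i)).mul (TWM.ge_pow ht0 i)
    rwa [mul_zero, add_zero] at h2
  have h2 := (TWM.ge_pow ht N).mul h1
  rwa [add_zero] at h2

theorem Apx.ge (hk : ∀ a : k, v.Ge 0 (algebraMap k Ω a)) {c : k} {t : Ω} {b : ℝ} (ht1 : t ≠ 0)
    (ht0 : v t = 0) (ht : v.Ge b (t - algebraMap k Ω c)) {W R : k[X]} {N : ℕ} {i : ℤ}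
    (h : Apx c W N i R) : v.Ge (N * b) (t ^ i - aeval (aeval t W) R) := by
  obtain ⟨K, hK⟩ : ∃ K : ℕ, 0 ≤ i + K := ⟨(-i).toNat, by omega⟩
  have h1 := ge_of_dvd hk (fun _ => by rw [ht0]) ht (h K hK)
  rw [map_sub, map_mul, map_pow, map_pow, aeval_X, aeval_comp] at h1
  have h2 : t ^ i - aeval (aeval t W) R =
      - (t ^ K * aeval (aeval t W) R - t ^ (i + K).toNat) * (t ^ K)⁻¹ := by
    have h3 : t ^ (i + K).toNat = t ^ i * t ^ K := by
      rw [← zpow_natCast, Int.toNat_of_nonneg hK, zpow_add₀ ht1, zpow_natCast]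
    have h4 : t ^ K ≠ 0 := pow_ne_zero _ ht1
    rw [h3]
    field_simp
    ring
  rw [h2]
  have h3 : v.Ge 0 (t ^ K)⁻¹ := fun _ => by
    rw [v.map_inv (pow_ne_zero _ ht1), v.map_pow ht1, ht0, mul_zero, neg_zero]
  have h4 := h1.neg.mul h3
  rwa [add_zero] at h4

end

/-- A function with a given value mod `p ^ s` at an element which is not divisible by `p`. -/
theorem exists_kappa {G : AddSubgroup ℝ} (hG : G.FG) {p : ℕ} (hp : p.Prime) {l : ℝ} (hl : l ∈ G)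
    (hl' : ¬ ∃ d ∈ G, l = p * d) (s : ℕ) (e : ℤ) :
    ∃ κ : ℝ → ℤ, (∀ g ∈ G, ∀ g' ∈ G, κ (g + g') = κ g + κ g') ∧ ((p ^ s : ℕ) : ℤ) ∣ e - κ l := by
  classical
  have hGf : Module.Finite ℤ G := by
    rw [Module.Finite.iff_addGroup_fg]
    exact (AddGroup.fg_iff_addSubgroup_fg G).2 hG
  have hfree : Module.Free ℤ G := inferInstance
  let b := Module.Free.chooseBasis ℤ G
  obtain ⟨i, hi⟩ : ∃ i, ¬ (p : ℤ) ∣ b.repr ⟨l, hl⟩ i := by
    by_contra hcon
    push Not at hcon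
    choose f hf using hcon
    apply hl'
    refine ⟨((∑ i, f i • b i : G) : ℝ), Subtype.property _, ?_⟩
    have h1 : (⟨l, hl⟩ : G) = (p : ℤ) • ∑ i, f i • b i := by
      rw [← b.sum_repr ⟨l, hl⟩, Finset.smul_sum]
      refine Finset.sum_congr rfl fun i _ => ?_
      rw [hf i, smul_smul]
    have h2 := congrArg Subtype.val h1
    rw [AddSubgroup.coe_zsmul, zsmul_eq_mul] at h2
    exact_mod_cast h2
  have hcop : IsCoprime (b.repr ⟨l, hl⟩ i) ((p ^ s : ℕ) : ℤ) := by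
    push_cast
    apply IsCoprime.pow_right
    exact ((Nat.prime_iff_prime_int.1 hp).coprime_iff_not_dvd.2 hi).symm
  obtain ⟨x, y, hxy⟩ := hcop
  refine ⟨fun g => if hg : g ∈ G then e * x * b.repr ⟨g, hg⟩ i else 0, ?_, ?_⟩
  · intro g hg g' hg'
    show (if hg : g + g' ∈ G then e * x * b.repr ⟨g + g', hg⟩ i else 0) =
      (if hg : g ∈ G then e * x * b.repr ⟨g, hg⟩ i else 0) +
      (if hg : g' ∈ G then e * x * b.repr ⟨g', hg⟩ i else 0)
    rw [dif_pos hg, dif_pos hg', dif_pos (G.add_mem hg hg')]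
    have h1 : (⟨g + g', G.add_mem hg hg'⟩ : G) = ⟨g, hg⟩ + ⟨g', hg'⟩ := rfl
    rw [h1, map_add, Finsupp.add_apply, mul_add]
  · show _ ∣ e - (if hg : l ∈ G then e * x * b.repr ⟨l, hg⟩ i else 0)
    rw [dif_pos hl]
    refine ⟨e * y, ?_⟩
    have h1 : e = e * (x * b.repr ⟨l, hl⟩ i + y * ((p ^ s : ℕ) : ℤ)) := by rw [hxy, mul_one]
    linear_combination h1

end Pool.Agent.TWN
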