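import Pool.Agent.Lib.TW_NFG.TS2

/-!
# NFG, `s = 2`: the transformation of a Laurent polynomial under a step, part 2

`tr β j R P` is the transformed Laurent polynomial: every monomial `c * M g * w ^ n` becomes
`M' (g + n β) * c R_j(w')`, `j = j g n`.

* `tr_ge`: its value differs little;
* `InP.tr`, `Ct.tr`: exponents and content;
* `line_eq`: the coefficient of `tr` at the value `ν`, in the coordinate `X`;
* `exists_line`: on a line there are few monomials.
-/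

set_option autoImplicit false

open Polynomial

namespace Pool.Agent.TWN

open Pool.Agent.H15JM (RVal)
open Pool.Agent.TWM (MS)

universe u

variable {k Ω : Type u} [Field k] [Field Ω] [Algebra k Ω] {v : RVal Ω} {G G' : AddSubgroup ℝ}
  {M M' : ℝ → Ω} {w t : Ω} {m : ℕ} {j : ℝ → ℤ → ℤ}

/-- The pairs (exponent, power of `w`) of the monomials of `P`. -/
noncomputable def terms (P : ℝ →₀ k[X]) : Finset (ℝ × ℕ) :=
  P.support.biUnion fun g => (P g).support.map ⟨fun n => (g, n), fun a b h => by simpa using h⟩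

theorem mem_terms {P : ℝ →₀ k[X]} {x : ℝ × ℕ} : x ∈ terms P ↔ (P x.1).coeff x.2 ≠ 0 := by
  classical
  unfold terms
  rw [Finset.mem_biUnion]
  constructor
  · rintro ⟨g, -, h⟩
    rw [Finset.mem_map] at h
    obtain ⟨n, hn, rfl⟩ := h
    exact mem_support_iff.1 hn
  · intro h
    refine ⟨x.1, ?_, ?_⟩
    · rw [Finsupp.mem_support_iff]
      intro h0
      rw [h0, coeff_zero] at h
      exact h rfl
    · rw [Finset.mem_map]
      exact ⟨x.2, mem_support_iff.2 h, rfl⟩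

theorem sum_terms (P : ℝ →₀ k[X]) {A : Type*} [AddCommMonoid A] (φ : ℝ → ℕ → A) :
    ∑ x ∈ terms P, φ x.1 x.2 = ∑ g ∈ P.support, ∑ n ∈ (P g).support, φ g n := by
  classical
  unfold terms
  rw [Finset.sum_biUnion]
  · refine Finset.sum_congr rfl fun g _ => ?_
    rw [Finset.sum_map]
    rfl
  · intro g _ g' _ hgg'
    rw [Function.onFun, Finset.disjoint_left]
    intro x hx hx'
    rw [Finset.mem_map] at hx hx'
    obtain ⟨n, -, rfl⟩ := hx
    obtain ⟨n', -, h⟩ := hx'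
    exact hgg' (congrArg Prod.fst h).symm

theorem evP_terms (P : ℝ →₀ k[X]) :
    evP M w P = ∑ x ∈ terms P, algebraMap k Ω ((P x.1).coeff x.2) * (M x.1 * w ^ x.2) := by
  rw [evP_eq_terms]
  exact (sum_terms P fun g n => algebraMap k Ω ((P g).coeff n) * (M g * w ^ n)).symm

/-- The transformed Laurent polynomial. -/
noncomputable def tr (β : ℝ) (j : ℝ → ℤ → ℤ) (R : ℤ → k[X]) (P : ℝ →₀ k[X]) : ℝ →₀ k[X] :=
  ∑ x ∈ terms P, Finsupp.single (x.1 + x.2 * β) (C ((P x.1).coeff x.2) * R (j x.1 x.2))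

/-- The value of a monomial. -/
def vm (β : ℝ) (x : ℝ × ℕ) : ℝ := x.1 + x.2 * β

open Classical in
theorem tr_apply (β : ℝ) (R : ℤ → k[X]) (P : ℝ →₀ k[X]) (ν : ℝ) :
    tr β j R P ν = ∑ x ∈ (terms P).filter (fun x => vm β x = ν),
      C ((P x.1).coeff x.2) * R (j x.1 x.2) := by
  unfold tr
  rw [Finsupp.finset_sum_apply, Finset.sum_filter]
  refine Finset.sum_congr rfl fun x _ => ?_
  rw [Finsupp.single_apply]
  rfl

theorem InP.tr (h : TStep v G M w G' M' t m j) {P : ℝ →₀ k[X]} (hP : InP G P) (R : ℤ → k[X]) :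
    InP G' (tr (v w) j R P) := by
  refine InP.sum fun x hx => InP.single ?_ _
  rw [mem_terms] at hx
  have h1 : x.1 ∈ G := hP x.1 (fun h0 => hx (by rw [h0, coeff_zero]))
  have h2 := h.mem' h1 (x.2 : ℤ)
  exact_mod_cast h2

theorem Ct.tr {β ν : ℝ} {P : ℝ →₀ k[X]} (hP : ∀ x ∈ terms P, ν ≤ vm β x) (R : ℤ → k[X]) :
    Ct ν (TWN.tr β j R P) :=
  Ct.sum fun x hx => Ct.single (hP x hx) _

/-- The value of the transformed Laurent polynomial. -/
theorem tr_ge (h : TStep v G M w G' M' t m j) (hk : ∀ a : k, v.Ge 0 (algebraMap k Ω a)) {c : k}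
    {b : ℝ} (hb : 0 ≤ b) (ht : v.Ge b (t - algebraMap k Ω c)) {W : k[X]} {N : ℕ} {R : ℤ → k[X]}
    {P : ℝ →₀ k[X]} (hP : InP G P)
    (hR : ∀ x ∈ terms P, Apx c W N (j x.1 x.2) (R (j x.1 x.2))) {μ : ℝ}
    (hμ : ∀ x ∈ terms P, μ ≤ vm (v w) x) :
    v.Ge (μ + N * b) (evP M w P - evP M' (aeval t W) (tr (v w) j R P)) := by
  unfold TWN.tr
  rw [evP_terms, evP_sum, ← Finset.sum_sub_distrib]
  refine RVal.Ge.sum _ _ fun x hx => ?_
  have hxG : x.1 ∈ G := hP x.1 (fun h0 => mem_terms.1 hx (by rw [h0, coeff_zero]))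
  have h1 := h.mon x.1 hxG (x.2 : ℤ)
  rw [zpow_natCast, Int.cast_natCast] at h1
  rw [evP_single, map_mul, aeval_C, h1]
  have h2 : algebraMap k Ω ((P x.1).coeff x.2) * (M' (x.1 + x.2 * v w) * t ^ j x.1 x.2) -
      M' (x.1 + x.2 * v w) * (algebraMap k Ω ((P x.1).coeff x.2) *
        aeval (aeval t W) (R (j x.1 x.2))) =
      algebraMap k Ω ((P x.1).coeff x.2) * (M' (x.1 + x.2 * v w) *
        (t ^ j x.1 x.2 - aeval (aeval t W) (R (j x.1 x.2)))) := by ring
  rw [h2]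
  have h3 : v.Ge μ (M' (x.1 + x.2 * v w)) := fun _ => by
    have h4 := h.mem' hxG (x.2 : ℤ)
    rw [Int.cast_natCast] at h4
    rw [h.ms'.val _ h4]
    exact hμ x hx
  have h5 := (hk ((P x.1).coeff x.2)).mul (h3.mul ((hR x hx).ge hk h.t_ne h.t_val ht))
  rwa [zero_add] at h5

/-- The polynomial of the line of value `ν`, shifted by `K`. -/
noncomputable def lineP (β : ℝ) (j : ℝ → ℤ → ℤ) (P : ℝ →₀ k[X]) (ν : ℝ) (K : ℕ) : k[X] :=
  open Classical in ∑ x ∈ (terms P).filter (fun x => vm β x = ν),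
    C ((P x.1).coeff x.2) * X ^ (j x.1 x.2 + K).toNat

/-- The coefficient of the transformed Laurent polynomial in the coordinate `X`. -/
theorem line_eq {c : k} {W : k[X]} {N : ℕ} {R : ℤ → k[X]} {β : ℝ} {P : ℝ →₀ k[X]} {ν : ℝ} {K : ℕ}
    (hR : ∀ x ∈ terms P, vm β x = ν → Apx c W N (j x.1 x.2) (R (j x.1 x.2)))
    (hK : ∀ x ∈ terms P, vm β x = ν → 0 ≤ j x.1 x.2 + K) :
    (X - C c) ^ N ∣ X ^ K * (tr β j R P ν).comp W - lineP β j P ν K := by
  classical
  rw [tr_apply, lineP, Polynomial.sum_comp, Finset.mul_sum, ← Finset.sum_sub_distrib]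
  refine Finset.dvd_sum fun x hx => ?_
  rw [Finset.mem_filter] at hx
  rw [mul_comp, C_comp]
  have h1 : X ^ K * (C ((P x.1).coeff x.2) * (R (j x.1 x.2)).comp W) -
      C ((P x.1).coeff x.2) * X ^ (j x.1 x.2 + K).toNat =
      C ((P x.1).coeff x.2) * (X ^ K * (R (j x.1 x.2)).comp W - X ^ (j x.1 x.2 + K).toNat) := by
    ring
  rw [h1]
  exact (hR x hx.1 hx.2 K (hK x hx.1 hx.2)).mul_left _

/-- The coefficients of the polynomial of a line. -/
theorem coeff_lineP (h : TStep v G M w G' M' t m j) {P : ℝ →₀ k[X]} (hP : InP G P) {ν : ℝ} {K : ℕ}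
    (hK : ∀ x ∈ terms P, vm (v w) x = ν → 0 ≤ j x.1 x.2 + K) {x : ℝ × ℕ} (hx : x ∈ terms P)
    (hxν : vm (v w) x = ν) :
    (lineP (v w) j P ν K).coeff (j x.1 x.2 + K).toNat = (P x.1).coeff x.2 := by
  classical
  unfold lineP
  rw [finsetSum_coeff, Finset.sum_eq_single x]
  · rw [coeff_C_mul_X_pow, if_pos rfl]
  · intro y hy hyx
    rw [Finset.mem_filter] at hy
    rw [coeff_C_mul_X_pow, if_neg]
    intro h1
    apply hyx
    have hG : ∀ z ∈ terms P, z.1 ∈ G := fun z hz =>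
      hP z.1 (fun h0 => mem_terms.1 hz (by rw [h0, coeff_zero]))
    have h2 : j x.1 x.2 = j y.1 y.2 := by
      have h3 := hK x hx hxν
      have h4 := hK y hy.1 hy.2
      omega
    have h3 : x.1 + ((x.2 : ℤ) : ℝ) * v w = y.1 + ((y.2 : ℤ) : ℝ) * v w := by
      push_cast
      exact hxν.trans hy.2.symm
    have h4 := h.inj (hG x hx) (hG y hy.1) h3 h2
    exact Prod.ext h4.1.symm (by exact_mod_cast h4.2.symm)
  · intro h1
    exact (h1 (Finset.mem_filter.2 ⟨hx, hxν⟩)).elim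

theorem coeff_lineP_ne {β : ℝ} {P : ℝ →₀ k[X]} {ν : ℝ} {K i : ℕ}
    (hi : (lineP β j P ν K).coeff i ≠ 0) :
    ∃ x ∈ terms P, vm β x = ν ∧ i = (j x.1 x.2 + K).toNat := by
  classical
  unfold lineP at hi
  rw [finsetSum_coeff] at hi
  obtain ⟨x, hx, hne⟩ := Finset.exists_ne_zero_of_sum_ne_zero hi
  rw [Finset.mem_filter] at hx
  refine ⟨x, hx.1, hx.2, ?_⟩
  by_contra hcon
  rw [coeff_C_mul_X_pow, if_neg hcon] at hne
  exact hne rfl

/-- The exponents of the polynomial of a line are in a small interval. -/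
theorem exists_line (h : TStep v G M w G' M' t m j) {P : ℝ →₀ k[X]} (hP : InP G P) {ν : ℝ} {K : ℕ}
    (hK : ∀ x ∈ terms P, vm (v w) x = ν → 0 ≤ j x.1 x.2 + K) {e : ℕ}
    (he : ∀ x ∈ terms P, vm (v w) x = ν → x.2 ≤ e) :
    ∃ (a : ℕ) (H : k[X]), lineP (v w) j P ν K = X ^ a * H ∧ H.natDegree ≤ e / m := by
  classical
  by_cases h0 : lineP (v w) j P ν K = 0
  · exact ⟨0, 0, by rw [h0, mul_zero], by simp⟩
  set F := lineP (v w) j P ν K with hF
  obtain ⟨H, hH⟩ : X ^ F.natTrailingDegree ∣ F := by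
    rw [X_pow_dvd_iff]
    intro d hd
    exact coeff_eq_zero_of_lt_natTrailingDegree hd
  refine ⟨F.natTrailingDegree, H, hH, ?_⟩
  have hG : ∀ z ∈ terms P, z.1 ∈ G := fun z hz =>
    hP z.1 (fun h0 => mem_terms.1 hz (by rw [h0, coeff_zero]))
  obtain ⟨x, hx, hxν, hx1⟩ := coeff_lineP_ne (i := F.natDegree) (β := v w) (j := j) (P := P)
    (ν := ν) (K := K) (by rw [← hF]; exact leadingCoeff_ne_zero.2 h0)
  obtain ⟨y, hy, hyν, hy1⟩ := coeff_lineP_ne (i := F.natTrailingDegree) (β := v w) (j := j) (P := P)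
    (ν := ν) (K := K) (by rw [← hF]; exact trailingCoeff_nonzero_iff_nonzero.2 h0)
  have h1 := h.line x.1 (hG x hx) y.1 (hG y hy) x.2 y.2 (by
    push_cast
    exact hxν.trans hyν.symm)
  have h2 := hK x hx hxν
  have h3 := hK y hy hyν
  have h4 : H.natDegree + F.natTrailingDegree = F.natDegree := by
    have hH0 : H ≠ 0 := by
      rintro rfl
      rw [mul_zero] at hH
      exact h0 hH
    conv_rhs => rw [hH]
    rw [natDegree_mul (pow_ne_zero _ X_ne_zero) hH0, natDegree_X_pow, add_comm]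
  rw [Nat.le_div_iff_mul_le h.mpos]
  have h5 := he x hx hxν
  have h6 : (H.natDegree : ℤ) = j x.1 x.2 - j y.1 y.2 := by omega
  have h7 : ((H.natDegree * m : ℕ) : ℤ) = x.2 - y.2 := by
    rw [h1]
    push_cast
    rw [h6]
    ring
  omega

end Pool.Agent.TWN
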